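import Pool.Agent.Lib.ALX.Api0

/-!
# ALX, chunk A01 (M): a curve in the boundary can be replaced by a polygon through different facets

PROOF. General claim, by induction on the cardinality of `F : Finset A` (for all `t0 ∈ [0, 1]`): if for all `t ∈ [t0, 1]` there is `a ∈ F` with `γ t ∈ Fc n a`, then there are `s, l` with
`s.Nodup`, all elements of `s` in `F`, `s ≠ []`, `Thru n (γ t0) s l (γ 1)` and `ENNReal.ofReal (plen (γ t0) l) ≤ eVariationOn γ (Icc t0 1)`.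
Choose `a ∈ F` with `γ t0 ∈ Fc n a`, `t1 = sSup {t ∈ [t0, 1] | γ t ∈ Fc n a}`; the set is compact (Fc_closed), so `γ t1 ∈ Fc n a`. If `t1 = 1`: `s = [a]`, `l = [γ 1]`
(eVariationOn.edist_le, edist = ofReal of the norm). If `t1 < 1`: for `t ∈ (t1, 1]` `γ t` lies in the closed set `⋃ b ∈ F.erase a, Fc n b`, so `γ t1` too (closure of the image), and the induction
hypothesis applies to `F.erase a`, `t1`: `s = a :: s'`, `l = γ t1 :: l'`. Variation: eVariationOn.Icc_add_Icc (t0 ≤ t1 ≤ 1) and edist_le.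
Start: `F = univ`, `t0 = 0`.
-/

open Real MeasureTheory Filter Topology

namespace ALX

open H47A (E3 cross3 det3 pl)

variable {A : Type} [Fintype A] [DecidableEq A] {n : A → E3}

theorem a01_aux (γ : ℝ → E3) (hc : Continuous γ) (F : Finset A) : ∀ t0 ∈ Set.Icc (0 : ℝ) 1,
    (∀ t ∈ Set.Icc t0 1, ∃ a ∈ F, γ t ∈ Fc n a) → ∃ (s : List A) (l : List E3), s.Nodup ∧ (∀ a ∈ s, a ∈ F) ∧ s ≠ [] ∧
      Thru n (γ t0) s l (γ 1) ∧ ENNReal.ofReal (plen (γ t0) l) ≤ eVariationOn γ (Set.Icc t0 1) := by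
  induction F using Finset.strongInduction with
  | H F ih =>
    intro t0 ht0 hF
    obtain ⟨a, haF, ha⟩ := hF t0 ⟨le_rfl, ht0.2⟩
    have hK : IsCompact (Set.Icc t0 1 ∩ γ ⁻¹' Fc n a) := isCompact_Icc.inter_right ((Fc_closed a).preimage hc)
    have hne : (Set.Icc t0 1 ∩ γ ⁻¹' Fc n a).Nonempty := ⟨t0, ⟨le_rfl, ht0.2⟩, ha⟩
    obtain ⟨t1, ht1⟩ : ∃ t1, t1 = sSup (Set.Icc t0 1 ∩ γ ⁻¹' Fc n a) := ⟨_, rfl⟩
    have hmem := hK.sSup_mem hne
    rw [← ht1] at hmem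
    have hmax : ∀ t ∈ Set.Icc t0 1, γ t ∈ Fc n a → t ≤ t1 := fun t h1 h2 => by
      rw [ht1]
      exact le_csSup hK.bddAbove ⟨h1, h2⟩
    obtain ⟨⟨h01, h11⟩, h1a⟩ := hmem
    have h1a : γ t1 ∈ Fc n a := h1a
    rcases h11.lt_or_eq with hlt | heq
    · have hcov : ∀ t ∈ Set.Icc t1 1, ∃ b ∈ F.erase a, γ t ∈ Fc n b := by
        have hcl : IsClosed (γ ⁻¹' ⋃ b ∈ F.erase a, Fc n b) :=
          IsClosed.preimage hc ((F.erase a).finite_toSet.isClosed_biUnion fun b _ => Fc_closed b)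
        have hsub : Set.Ioc t1 1 ⊆ γ ⁻¹' ⋃ b ∈ F.erase a, Fc n b := by
          intro t ht
          have h2 : t ∈ Set.Icc t0 1 := ⟨h01.trans ht.1.le, ht.2⟩
          obtain ⟨b, hb, hb2⟩ := hF t h2
          have hba : b ≠ a := by
            rintro rfl
            exact absurd (hmax t h2 hb2) (not_le.2 ht.1)
          exact Set.mem_iUnion₂.2 ⟨b, Finset.mem_erase.2 ⟨hba, hb⟩, hb2⟩
        have hsub2 : Set.Icc t1 1 ⊆ γ ⁻¹' ⋃ b ∈ F.erase a, Fc n b := by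
          rw [← closure_Ioc hlt.ne]
          exact hcl.closure_subset_iff.2 hsub
        intro t ht
        obtain ⟨b, hb, hb2⟩ := Set.mem_iUnion₂.1 (hsub2 ht)
        exact ⟨b, hb, hb2⟩
      obtain ⟨s, l, h1, h2, h3, h4, h5⟩ := ih (F.erase a) (Finset.erase_ssubset haF) t1 ⟨ht0.1.trans h01, h11⟩ hcov
      refine ⟨a :: s, γ t1 :: l, ?_, ?_, List.cons_ne_nil _ _, ⟨ha, h1a, h4⟩, ?_⟩
      · rw [List.nodup_cons]
        exact ⟨fun h => (Finset.mem_erase.1 (h2 a h)).1 rfl, h1⟩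
      · intro b hb
        rcases List.mem_cons.1 hb with rfl | hb
        · exact haF
        · exact Finset.mem_of_mem_erase (h2 b hb)
      · have hv := eVariationOn.Icc_add_Icc γ (s := Set.univ) h01 h11 (Set.mem_univ t1)
        rw [Set.univ_inter, Set.univ_inter, Set.univ_inter] at hv
        rw [← hv]
        show ENNReal.ofReal (‖γ t0 - γ t1‖ + plen (γ t1) l) ≤ _
        refine ENNReal.ofReal_add_le.trans (add_le_add ?_ h5)
        rw [← dist_eq_norm, ← edist_dist]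
        exact eVariationOn.edist_le γ ⟨le_rfl, h01⟩ ⟨h01, le_rfl⟩
    · rw [heq] at h1a
      refine ⟨[a], [γ 1], List.nodup_singleton a, ?_, List.cons_ne_nil _ _, ⟨ha, h1a, rfl⟩, ?_⟩
      · intro b hb
        rw [List.mem_singleton.1 hb]
        exact haF
      · show ENNReal.ofReal (‖γ t0 - γ 1‖ + 0) ≤ _
        rw [add_zero, ← dist_eq_norm, ← edist_dist]
        exact eVariationOn.edist_le γ ⟨le_rfl, ht0.2⟩ ⟨ht0.2, le_rfl⟩

theorem curve_chain (γ : ℝ → E3) (hc : Continuous γ) (hb : ∀ t ∈ Set.Icc (0 : ℝ) 1, γ t ∈ bd n) :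
    ∃ (s : List A) (l : List E3), s.Nodup ∧ s ≠ [] ∧ Thru n (γ 0) s l (γ 1) ∧
      ENNReal.ofReal (plen (γ 0) l) ≤ eVariationOn γ (Set.Icc (0 : ℝ) 1) := by
  obtain ⟨s, l, h1, -, h3, h4, h5⟩ := a01_aux (n := n) γ hc Finset.univ 0 ⟨le_rfl, zero_le_one⟩ fun t ht => by
    obtain ⟨a, ha⟩ := mem_bd.1 (hb t ht)
    exact ⟨a, Finset.mem_univ a, ha⟩
  exact ⟨s, l, h1, h3, h4, h5⟩


end ALX
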