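import Pool.Agent.Lib.ALX.Api0

/-!
# ALX, chunk A02 (S/M): a polygon is a curve

PROOF: induction on `s` (generalizing `x`, `l`). `s = []`: `l = []`, `x = y`, H47A.pl_self. `s = a :: s'`: `l = z :: l'`, `x, z ∈ Fc n a`, the segment lies in `Fc n a ⊆ bd n` (Fc_convex),
H47A.pl_seg, H47A.pl_tri, ENNReal.ofReal_add (norms and plen are `≥ 0`).
-/

open Real MeasureTheory Filter Topology

namespace ALX

open H47A (E3 cross3 det3 pl)

variable {A : Type} [Fintype A] [DecidableEq A] {n : A → E3}

theorem plen_nonneg (x : E3) (l : List E3) : 0 ≤ plen x l := by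
  induction l generalizing x with
  | nil => exact le_rfl
  | cons z l ih => exact add_nonneg (norm_nonneg _) (ih z)

theorem pl_le_plen {x y : E3} {s : List A} {l : List E3} (hx : x ∈ bd n) (h : Thru n x s l y) :
    pl (bd n) x y ≤ ENNReal.ofReal (plen x l) := by
  induction s generalizing x l with
  | nil =>
    rcases l with _ | ⟨z, l⟩
    · have hxy : x = y := h
      rw [← hxy, H47A.pl_self hx]
      exact zero_le
    · exact absurd h (fun h => h.elim)
  | cons a s ih =>
    rcases l with _ | ⟨z, l⟩
    · exact absurd h (fun h => h.elim)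
    · obtain ⟨h1, h2, h3⟩ := h
      have hseg : segment ℝ x z ⊆ bd n := ((Fc_convex a).segment_subset h1 h2).trans (Fc_sub_bd a)
      have e1 : plen x (z :: l) = ‖x - z‖ + plen z l := rfl
      rw [e1, ENNReal.ofReal_add (norm_nonneg _) (plen_nonneg z l)]
      exact (H47A.pl_tri _ x z y).trans (add_le_add (H47A.pl_seg hseg) (ih (Fc_sub_bd a h2) h3))

end ALX
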