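import Pool.Agent.Lib.ALX.Api0
import Pool.Agent.Lib.H47A.EAct

/-!
# ALX, chunk P01 (S/M): a third facet; normals and cross products are not zero

PROOF of `third`: otherwise every index is `a` or `b`. Take `w ≠ 0` orthogonal to `n a` and `n b` (H47A.eact_orth in H47A/EAct, or: `w = cross3 (n a) (n b)` if this is not zero, else the
two normals are dependent and any vector orthogonal to one of them, or any vector, will do). All points `t • w` lie in `Pt n`, a contradiction to `bdd`.
`ne`, `cross`: choose pairwise different `a, b, c` by `third`; `det3 (n a) (n b) (n c) ≠ 0` is the inner product of `cross3 (n a) (n b)` with `n c` (H47A.det3, det3_rot, det3_swap).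
-/

open Real MeasureTheory Filter Topology

namespace ALX

open H47A (E3 cross3 det3 pl)

variable {A : Type} [Fintype A] [DecidableEq A] {n : A → E3}

theorem Gn.third (h : Gn n) (a b : A) : ∃ c, c ≠ a ∧ c ≠ b := by
  by_contra hex
  push Not at hex
  obtain ⟨w, hw, h1, h2⟩ := H47A.eact_orth (n a) (n b)
  obtain ⟨R, hR⟩ := h.bdd
  have hall : ∀ c, inner ℝ (n c) w = (0 : ℝ) := by
    intro c
    by_cases hc : c = a
    · rw [hc]; exact h1
    · rw [hex c hc]; exact h2
  have hwn : 0 < ‖w‖ := norm_pos_iff.mpr hw
  have hmem : ((abs R + 1) / ‖w‖) • w ∈ Pt n := by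
    intro c
    unfold lf
    rw [inner_smul_right, hall c, mul_zero]
    exact zero_le_one
  have h3 := hR _ hmem
  rw [norm_smul, Real.norm_eq_abs, abs_of_nonneg (by positivity), div_mul_cancel₀ _ hwn.ne'] at h3
  linarith [le_abs_self R]

theorem Gn.ne (h : Gn n) (a : A) : n a ≠ 0 := by
  intro h0
  obtain ⟨c, hc, -⟩ := h.third a a
  obtain ⟨d, hd, hdc⟩ := h.third a c
  apply h.three a c d hc.symm hdc.symm hd.symm
  unfold det3
  rw [h0, H47A.eact_cz, inner_zero_left]

theorem Gn.cross (h : Gn n) {a b : A} (hab : a ≠ b) : cross3 (n a) (n b) ≠ 0 := by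
  intro h0
  obtain ⟨c, hca, hcb⟩ := h.third a b
  apply h.three a b c hab hcb.symm hca.symm
  unfold det3
  rw [h0, inner_zero_left]


end ALX
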