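import Pool.Agent.Lib.ALX.Api0
import Pool.Agent.Lib.ALX.P01

/-!
# ALX, chunk A03 (M): the boundary is connected by curves

PROOF. `g u = ⨆ a, lf n a u` (or `Finset.univ.sup'`; the index type is not empty), continuous, and `g u > 0` for `u ≠ 0` (otherwise the whole ray `t • u`, `t ≥ 0`, lies in `Pt n`, a contradiction to
`bdd`). `u ∈ bd n` iff `g u = 1`. `ψ u = (g u)⁻¹ • u` is continuous on the complement of `0`, has values in `bd n` (`g` is positively homogeneous), and is the identity on `bd n`. The complement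
of `0` in E3 is path connected (isPathConnected_compl_singleton_of_one_lt_rank, `finrank = 3`), so `x` and `y` are joined by a path `σ` in it; `γ t = ψ (σ (projIcc t))`.
`bd_ray`: `r = (g u)⁻¹`. `bd_nonempty`: any `u ≠ 0`.
-/

open Real MeasureTheory Filter Topology

namespace ALX

open H47A (E3 cross3 det3 pl)

variable {A : Type} [Fintype A] [DecidableEq A] {n : A → E3}

theorem a03_exists_ne : ∃ u : E3, u ≠ 0 := exists_ne 0

theorem a03_nonempty (h : Gn n) : Nonempty A := by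
  by_contra hA
  rw [not_nonempty_iff] at hA
  obtain ⟨R, hR⟩ := h.bdd
  obtain ⟨u, hu⟩ := a03_exists_ne
  have hu' : 0 < ‖u‖ := norm_pos_iff.2 hu
  have h1 : ((|R| + 1) / ‖u‖) • u ∈ Pt n := fun a => (hA.false a).elim
  have h2 := hR _ h1
  rw [norm_smul, Real.norm_eq_abs, abs_of_pos (by positivity), div_mul_cancel₀ _ hu'.ne'] at h2
  linarith [le_abs_self R]

/-- The gauge. -/
noncomputable def a03_g (n : A → E3) [Nonempty A] (u : E3) : ℝ := Finset.univ.sup' Finset.univ_nonempty fun a => lf n a u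

variable [Nonempty A]

theorem a03_le (a : A) (u : E3) : lf n a u ≤ a03_g n u := Finset.le_sup' (fun a => lf n a u) (Finset.mem_univ a)

theorem a03_ex (u : E3) : ∃ a, a03_g n u = lf n a u := by
  obtain ⟨a, _, ha⟩ := Finset.exists_mem_eq_sup' (Finset.univ_nonempty (α := A)) fun a => lf n a u
  exact ⟨a, ha⟩

theorem a03_cont : Continuous (a03_g n) := by
  unfold a03_g
  exact Continuous.finset_sup'_apply Finset.univ_nonempty fun a _ => lf_cont a

theorem a03_smul {r : ℝ} (hr : 0 ≤ r) (u : E3) : a03_g n (r • u) = r * a03_g n u := by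
  refine le_antisymm ?_ ?_
  · obtain ⟨a, ha⟩ := a03_ex (n := n) (r • u)
    rw [ha, lf_smul]
    exact mul_le_mul_of_nonneg_left (a03_le a u) hr
  · obtain ⟨a, ha⟩ := a03_ex (n := n) u
    rw [ha, ← lf_smul]
    exact a03_le a _

theorem a03_pos (h : Gn n) {u : E3} (hu : u ≠ 0) : 0 < a03_g n u := by
  by_contra hc
  push Not at hc
  obtain ⟨R, hR⟩ := h.bdd
  have hu' : 0 < ‖u‖ := norm_pos_iff.2 hu
  have h1 : ((|R| + 1) / ‖u‖) • u ∈ Pt n := by
    intro a
    rw [lf_smul]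
    have h3 := (a03_le (n := n) a u).trans hc
    have h4 : 0 ≤ (|R| + 1) / ‖u‖ := by positivity
    nlinarith
  have h2 := hR _ h1
  rw [norm_smul, Real.norm_eq_abs, abs_of_pos (by positivity), div_mul_cancel₀ _ hu'.ne'] at h2
  linarith [le_abs_self R]

theorem a03_bd {u : E3} : u ∈ bd n ↔ a03_g n u = 1 := by
  constructor
  · rintro ⟨h1, a, ha⟩
    refine le_antisymm ?_ (ha ▸ a03_le a u)
    obtain ⟨b, hb⟩ := a03_ex (n := n) u
    rw [hb]
    exact h1 b
  · intro h1
    refine ⟨fun a => h1 ▸ a03_le a u, ?_⟩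
    obtain ⟨b, hb⟩ := a03_ex (n := n) u
    exact ⟨b, by rw [← hb, h1]⟩

theorem a03_psi (h : Gn n) {u : E3} (hu : u ≠ 0) : (a03_g n u)⁻¹ • u ∈ bd n := by
  have h1 := a03_pos h hu
  rw [a03_bd, a03_smul (inv_nonneg.2 h1.le), inv_mul_cancel₀ h1.ne']

theorem a03_ne (h : Gn n) {u : E3} (hu : u ∈ bd n) : u ≠ 0 := by
  rintro rfl
  obtain ⟨_, a, ha⟩ := hu
  rw [lf_zero] at ha
  exact zero_ne_one ha

omit [Nonempty A] in
theorem bd_joined (h : Gn n) {x y : E3} (hx : x ∈ bd n) (hy : y ∈ bd n) :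
    ∃ γ : ℝ → E3, Continuous γ ∧ γ 0 = x ∧ γ 1 = y ∧ ∀ t ∈ Set.Icc (0 : ℝ) 1, γ t ∈ bd n := by
  haveI := a03_nonempty h
  have hr : 1 < Module.rank ℝ E3 := by
    rw [← Module.finrank_eq_rank ℝ E3]
    have : Module.finrank ℝ E3 = 3 := by simp
    rw [this]
    norm_num
  have hp := isPathConnected_compl_singleton_of_one_lt_rank hr (0 : E3)
  obtain ⟨σ, hσ⟩ := hp.joinedIn x (a03_ne h hx) y (a03_ne h hy)
  refine ⟨fun t => (a03_g n (σ.extend t))⁻¹ • σ.extend t, ?_, ?_, ?_, ?_⟩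
  · have hc : Continuous fun t : ℝ => σ.extend t := σ.continuous_extend
    have hne : ∀ t : ℝ, a03_g n (σ.extend t) ≠ 0 := by
      intro t
      refine (a03_pos h ?_).ne'
      have := hσ (Set.projIcc 0 1 zero_le_one t)
      exact this
    exact ((a03_cont.comp hc).inv₀ hne).smul hc
  · simp only [Path.extend_zero]
    rw [a03_bd.1 hx, inv_one, one_smul]
  · simp only [Path.extend_one]
    rw [a03_bd.1 hy, inv_one, one_smul]
  · intro t _
    refine a03_psi h ?_
    exact hσ (Set.projIcc 0 1 zero_le_one t)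

omit [Nonempty A] in
theorem bd_ray (h : Gn n) {u : E3} (hu : u ≠ 0) : ∃ r : ℝ, 0 < r ∧ r • u ∈ bd n := by
  haveI := a03_nonempty h
  exact ⟨(a03_g n u)⁻¹, inv_pos.2 (a03_pos h hu), a03_psi h hu⟩

omit [Nonempty A] in
theorem bd_nonempty (h : Gn n) : (bd n).Nonempty := by
  obtain ⟨u, hu⟩ := a03_exists_ne
  obtain ⟨r, _, hr⟩ := bd_ray h hu
  exact ⟨_, hr⟩


end ALX
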