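import Pool.Agent.Lib.ALX.Api0

/-!
# ALX, chunk A04 (M): the shortest polygon for a fixed chain of facets

PROOF. `Thru n x s l y` implies `l.length = s.length`, all points of `l` lie in `bd n` (compact, `Gn.bd_compact`) (for `s ≠ []`; for `s = []` the statement is trivial, `l = []`).
Use the parametrisation `p : Fin k → E3 ↦ List.ofFn p`, `k = s.length`. By induction on `s`: the set `{(x, p) | Thru n x s (List.ofFn p) y}` is closed in `E3 × (Fin k → E3)` (List.ofFn_succ;
`Fc_closed`; the maps `p ↦ p 0`, `p ↦ p ∘ Fin.succ` are continuous), and `(x, p) ↦ plen x (List.ofFn p)` is continuous. So for fixed `x` the set of the admissible `p` is compact (closed subset of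
a product of compact sets) and not empty: IsCompact.exists_isMinOn. Every admissible list is `List.ofFn` of its entries (List.ofFn_get / Fin cast of the length).
-/

open Real MeasureTheory Filter Topology

namespace ALX

open H47A (E3 cross3 det3 pl)

variable {A : Type} [Fintype A] [DecidableEq A] {n : A → E3}

theorem a04_len : ∀ (s : List A) (x y : E3) (l : List E3), Thru n x s l y → l.length = s.length
  | [], x, y, [], _ => rfl
  | [], x, y, _ :: _, h => by simp [Thru] at h
  | _ :: _, x, y, [], h => by simp [Thru] at h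
  | a :: s, x, y, z :: l, h => by
    have h1 : Thru n z s l y := h.2.2
    have h2 := a04_len s z y l h1
    simp [h2]

theorem a04_mem : ∀ (s : List A) (x y : E3) (l : List E3), Thru n x s l y → ∀ z ∈ l, z ∈ bd n
  | [], x, y, [], _ => by simp
  | [], x, y, _ :: _, h => by simp [Thru] at h
  | _ :: _, x, y, [], h => by simp [Thru] at h
  | a :: s, x, y, z :: l, h => by
    intro w hw
    rcases List.mem_cons.1 hw with rfl | hw
    · exact Fc_sub_bd a h.2.1
    · exact a04_mem s z y l h.2.2 w hw

theorem a04_closed (y : E3) : ∀ (s : List A), IsClosed {q : E3 × (Fin s.length → E3) | Thru n q.1 s (List.ofFn q.2) y}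
  | [] => by
    have : {q : E3 × (Fin ([] : List A).length → E3) | Thru n q.1 [] (List.ofFn q.2) y} = {q | q.1 = y} := by
      ext q
      have : List.ofFn q.2 = [] := List.ofFn_zero
      simp only [Set.mem_setOf_eq, this, Thru]
    rw [this]
    exact isClosed_eq continuous_fst continuous_const
  | a :: s => by
    have ih := a04_closed y s
    have : {q : E3 × (Fin (a :: s).length → E3) | Thru n q.1 (a :: s) (List.ofFn q.2) y} =
        ((fun q : E3 × (Fin (s.length + 1) → E3) => q.1) ⁻¹' Fc n a) ∩
        (((fun q : E3 × (Fin (s.length + 1) → E3) => q.2 0) ⁻¹' Fc n a) ∩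
        ((fun q : E3 × (Fin (s.length + 1) → E3) => ((q.2 0, fun i => q.2 i.succ) : E3 × (Fin s.length → E3))) ⁻¹'
          {q : E3 × (Fin s.length → E3) | Thru n q.1 s (List.ofFn q.2) y})) := by
      ext q
      have h1 : List.ofFn q.2 = q.2 0 :: List.ofFn (fun i : Fin s.length => q.2 i.succ) := List.ofFn_succ
      simp only [Set.mem_setOf_eq, h1, Thru, Set.mem_inter_iff, Set.mem_preimage]
    rw [this]
    refine ((Fc_closed a).preimage (by fun_prop)).inter (((Fc_closed a).preimage (by fun_prop)).inter (ih.preimage ?_))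
    fun_prop

theorem a04_cont : ∀ k : ℕ, Continuous fun q : E3 × (Fin k → E3) => plen q.1 (List.ofFn q.2)
  | 0 => by
    have : (fun q : E3 × (Fin 0 → E3) => plen q.1 (List.ofFn q.2)) = fun _ => 0 := by
      funext q
      have : List.ofFn q.2 = [] := List.ofFn_zero
      rw [this]
      rfl
    rw [this]
    exact continuous_const
  | k + 1 => by
    have ih := a04_cont k
    have : (fun q : E3 × (Fin (k + 1) → E3) => plen q.1 (List.ofFn q.2)) =
        fun q => ‖q.1 - q.2 0‖ + plen (q.2 0) (List.ofFn fun i : Fin k => q.2 i.succ) := by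
      funext q
      rw [List.ofFn_succ]
      rfl
    rw [this]
    have h2 : Continuous fun q : E3 × (Fin (k + 1) → E3) => ((q.2 0, fun i => q.2 i.succ) : E3 × (Fin k → E3)) := by
      fun_prop
    have h3 := ih.comp h2
    refine Continuous.add (by fun_prop) h3

theorem a04_ofFn {k : ℕ} (l : List E3) (hl : l.length = k) : ∃ p : Fin k → E3, List.ofFn p = l := by
  subst hl
  exact ⟨l.get, List.ofFn_get l⟩

theorem min_fixed (h : Gn n) (s : List A) (x y : E3) (he : ∃ l, Thru n x s l y) :
    ∃ l, Thru n x s l y ∧ ∀ l', Thru n x s l' y → plen x l ≤ plen x l' := by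
  obtain ⟨l0, hl0⟩ := he
  obtain ⟨p0, hp0⟩ := a04_ofFn l0 (a04_len s x y l0 hl0)
  have hK : IsCompact (Set.univ.pi fun _ : Fin s.length => bd n) := isCompact_univ_pi fun _ => h.bd_compact
  have hC : IsClosed {p : Fin s.length → E3 | Thru n x s (List.ofFn p) y} :=
    (a04_closed (n := n) y s).preimage (show Continuous fun p : Fin s.length → E3 => ((x, p) : E3 × (Fin s.length → E3)) by fun_prop)
  have hS : {p : Fin s.length → E3 | Thru n x s (List.ofFn p) y} ⊆ Set.univ.pi fun _ : Fin s.length => bd n := by
    intro p hp i _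
    exact a04_mem s x y _ hp (p i) (List.mem_ofFn.2 ⟨i, rfl⟩)
  have hK2 := hK.of_isClosed_subset hC hS
  have hc : Continuous fun p : Fin s.length → E3 => plen x (List.ofFn p) :=
    (a04_cont s.length).comp (show Continuous fun p : Fin s.length → E3 => ((x, p) : E3 × (Fin s.length → E3)) by fun_prop)
  obtain ⟨p, hp, hmin⟩ := hK2.exists_isMinOn ⟨p0, by rw [Set.mem_setOf_eq, hp0]; exact hl0⟩ hc.continuousOn
  refine ⟨List.ofFn p, hp, fun l' hl' => ?_⟩
  obtain ⟨p', hp'⟩ := a04_ofFn l' (a04_len s x y l' hl')
  have h1 : p' ∈ {p : Fin s.length → E3 | Thru n x s (List.ofFn p) y} := by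
    rw [Set.mem_setOf_eq, hp']
    exact hl'
  have h2 := hmin h1
  rw [Set.mem_setOf_eq] at h2
  have h3 : plen x (List.ofFn p) ≤ plen x (List.ofFn p') := h2
  rwa [hp'] at h3


end ALX
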