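import Pool.Agent.Lib.ALX.A01
import Pool.Agent.Lib.ALX.A03
import Pool.Agent.Lib.ALX.A04

/-!
# ALX, chunk A05 (M): the shortest polygon

PROOF. The set of the lists `s : List A` with `s.Nodup` is finite (`Set.Finite`: e.g. instance `fintypeNodupList` / `List.finite_length_le` with `List.Nodup.length_le_card`). The subset of those
`s ≠ []` for which a polygon exists is not empty (A03, A01), for each of them choose a minimal polygon (A04), and take the smallest of the finitely many lengths
(Set.Finite.exists_minimal / Finset.exists_min_image).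
-/

open Real MeasureTheory Filter Topology

namespace ALX

open H47A (E3 cross3 det3 pl)

variable {A : Type} [Fintype A] [DecidableEq A] {n : A → E3}

theorem a05_fin : {s : List A | s.Nodup}.Finite := by
  refine (List.finite_length_le A (Fintype.card A)).subset ?_
  intro s hs
  exact List.Nodup.length_le_card hs

theorem min_chain (h : Gn n) {x y : E3} (hx : x ∈ bd n) (hy : y ∈ bd n) :
    ∃ (s : List A) (l : List E3), s.Nodup ∧ s ≠ [] ∧ Thru n x s l y ∧
      ∀ (s' : List A) (l' : List E3), s'.Nodup → s' ≠ [] → Thru n x s' l' y → plen x l ≤ plen x l' := by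
  classical
  obtain ⟨γ, hγ, h0, h1, hb⟩ := bd_joined h hx hy
  obtain ⟨s0, l0, hs0, hs0', hl0, -⟩ := curve_chain γ hγ hb
  rw [h0, h1] at hl0
  have hmf : ∀ s : List A, (∃ l, Thru n x s l y) → ∃ l, Thru n x s l y ∧ ∀ l', Thru n x s l' y → plen x l ≤ plen x l' :=
    fun s hs => min_fixed h s x y hs
  choose! f hf1 hf2 using hmf
  have hfin : {s : List A | s.Nodup ∧ s ≠ [] ∧ ∃ l, Thru n x s l y}.Finite :=
    (a05_fin (A := A)).subset fun s hs => hs.1
  obtain ⟨s, hs, hmin⟩ := Set.exists_min_image _ (fun s => plen x (f s)) hfin ⟨s0, hs0, hs0', l0, hl0⟩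
  refine ⟨s, f s, hs.1, hs.2.1, hf1 s hs.2.2, fun s' l' h1 h2 h3 => ?_⟩
  exact (hmin s' ⟨h1, h2, l', h3⟩).trans (hf2 s' ⟨l', h3⟩ l' h3)


end ALX
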