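import Pool.Agent.Lib.ALX.A01
import Pool.Agent.Lib.ALX.A02
import Pool.Agent.Lib.ALX.A05

/-!
# ALX, chunk A06 (S/M): the inner distance is the length of the shortest polygon

PROOF. With the minimal polygon of A05: `pl (bd n) x y ≤ ofReal (plen x l)` (A02). Conversely for each admissible curve (definition of H47A.pl: infimum over curves, le_iInf) the polygon of A01 has
length `≥ plen x l`, so `ofReal (plen x l) ≤ eVariationOn`. So `pl (bd n) x y = ofReal (plen x l)`, and `dl` is the `toReal`.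
-/

open Real MeasureTheory Filter Topology

namespace ALX

open H47A (E3 cross3 det3 pl)

variable {A : Type} [Fintype A] [DecidableEq A] {n : A → E3}

theorem a06_main (h : Gn n) {x y : E3} (hx : x ∈ bd n) (hy : y ∈ bd n) :
    ∃ (s : List A) (l : List E3), s.Nodup ∧ s ≠ [] ∧ Thru n x s l y ∧ pl (bd n) x y = ENNReal.ofReal (plen x l) := by
  obtain ⟨s, l, h1, h2, h3, h4⟩ := min_chain h hx hy
  refine ⟨s, l, h1, h2, h3, le_antisymm (pl_le_plen hx h3) ?_⟩
  unfold pl
  refine le_iInf fun γ => le_iInf fun hc => le_iInf fun h0 => le_iInf fun h5 => le_iInf fun hb => ?_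
  obtain ⟨s', l', g1, g2, g3, g4⟩ := curve_chain γ hc hb
  rw [h0, h5] at g3
  rw [h0] at g4
  exact (ENNReal.ofReal_le_ofReal (h4 s' l' g1 g2 g3)).trans g4

theorem dl_min (h : Gn n) {x y : E3} (hx : x ∈ bd n) (hy : y ∈ bd n) :
    ∃ (s : List A) (l : List E3), s.Nodup ∧ s ≠ [] ∧ Thru n x s l y ∧ plen x l = dl n x y := by
  obtain ⟨s, l, h1, h2, h3, h4⟩ := a06_main h hx hy
  refine ⟨s, l, h1, h2, h3, ?_⟩
  unfold dl
  rw [h4, ENNReal.toReal_ofReal (plen_nonneg x l)]

theorem pl_eq (h : Gn n) {x y : E3} (hx : x ∈ bd n) (hy : y ∈ bd n) : pl (bd n) x y = ENNReal.ofReal (dl n x y) := by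
  obtain ⟨s, l, h1, h2, h3, h4⟩ := a06_main h hx hy
  unfold dl
  rw [h4, ENNReal.toReal_ofReal (plen_nonneg x l)]

end ALX
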