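import Pool.Agent.Lib.ALX.A02
import Pool.Agent.Lib.ALX.A06

/-!
# ALX, chunk A07 (S/M): the inner distance is a metric

PROOF: H47A.pl_symm, pl_self, pl_tri, pl_ge, pl_seg with `toReal`; `pl` is finite by `pl_eq`. `dl_Fc`: the segment lies in the facet. `dl_le_plen`: A02.
-/

open Real MeasureTheory Filter Topology

namespace ALX

open H47A (E3 cross3 det3 pl)

variable {A : Type} [Fintype A] [DecidableEq A] {n : A → E3}

theorem dl_nonneg (x y : E3) : 0 ≤ dl n x y := by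
  exact ENNReal.toReal_nonneg

theorem dl_comm (x y : E3) : dl n x y = dl n y x := by
  unfold dl
  rw [H47A.pl_symm]

theorem dl_self {x : E3} (hx : x ∈ bd n) : dl n x x = 0 := by
  unfold dl
  rw [H47A.pl_self hx, ENNReal.toReal_zero]

theorem dl_tri (h : Gn n) {x y z : E3} (hx : x ∈ bd n) (hy : y ∈ bd n) (hz : z ∈ bd n) : dl n x z ≤ dl n x y + dl n y z := by
  unfold dl
  have h1 : pl (bd n) x y ≠ ⊤ := by rw [pl_eq h hx hy]; exact ENNReal.ofReal_ne_top
  have h2 : pl (bd n) y z ≠ ⊤ := by rw [pl_eq h hy hz]; exact ENNReal.ofReal_ne_top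
  rw [← ENNReal.toReal_add h1 h2]
  exact ENNReal.toReal_mono (ENNReal.add_ne_top.2 ⟨h1, h2⟩) (H47A.pl_tri (bd n) x y z)

theorem dl_ge (h : Gn n) {x y : E3} (hx : x ∈ bd n) (hy : y ∈ bd n) : ‖x - y‖ ≤ dl n x y := by
  unfold dl
  have h1 : pl (bd n) x y ≠ ⊤ := by rw [pl_eq h hx hy]; exact ENNReal.ofReal_ne_top
  have h2 := ENNReal.toReal_mono h1 (H47A.pl_ge (bd n) x y)
  rwa [ENNReal.toReal_ofReal (norm_nonneg _)] at h2

theorem dl_Fc (h : Gn n) {a : A} {x y : E3} (hx : x ∈ Fc n a) (hy : y ∈ Fc n a) : dl n x y = ‖x - y‖ := by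
  refine le_antisymm ?_ (dl_ge h (Fc_sub_bd a hx) (Fc_sub_bd a hy))
  have h1 : pl (bd n) x y ≤ ENNReal.ofReal ‖x - y‖ :=
    H47A.pl_seg (((Fc_convex a).segment_subset hx hy).trans (Fc_sub_bd a))
  have h2 := ENNReal.toReal_mono ENNReal.ofReal_ne_top h1
  rwa [ENNReal.toReal_ofReal (norm_nonneg _)] at h2

theorem dl_eq_zero (h : Gn n) {x y : E3} (hx : x ∈ bd n) (hy : y ∈ bd n) : dl n x y = 0 ↔ x = y := by
  constructor
  · intro h0
    have h1 := dl_ge h hx hy
    rw [h0] at h1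
    exact sub_eq_zero.1 (norm_eq_zero.1 (le_antisymm h1 (norm_nonneg _)))
  · rintro rfl
    exact dl_self hx

theorem dl_le_plen {x y : E3} {s : List A} {l : List E3} (hx : x ∈ bd n) (h : Thru n x s l y) : dl n x y ≤ plen x l := by
  have h2 := ENNReal.toReal_mono ENNReal.ofReal_ne_top (pl_le_plen hx h)
  rwa [ENNReal.toReal_ofReal (plen_nonneg x l)] at h2


end ALX
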