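import Pool.Agent.Lib.ALX.Api0

/-!
# ALX, chunk P04 (S/M): openness

PROOF: finitely many strict inequalities `lf b x < 1` hold near `x` (`Filter.eventually_all`, `lf_cont`); `At.iff`, `At.lt`.
-/

open Real MeasureTheory Filter Topology

namespace ALX

open H47A (E3 cross3 det3 pl)

variable {A : Type} [Fintype A] [DecidableEq A] {n : A → E3}

theorem near_lt (x : E3) (s : Finset A) (h : ∀ b, b ∉ s → lf n b x < 1) : ∀ᶠ y in 𝓝 x, ∀ b, b ∉ s → lf n b y < 1 := by
  rw [Filter.eventually_all]
  intro b
  by_cases hb : b ∈ s
  · exact Filter.Eventually.of_forall fun y h => absurd hb h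
  · exact ((lf_cont b).continuousAt.eventually_lt continuousAt_const (h b hb)).mono
      fun y hy _ => hy

theorem near_one {x : E3} {a : A} (hx : At n x {a}) : ∀ᶠ y in 𝓝 x, lf n a y = 1 → At n y {a} := by
  have h1 := near_lt (n := n) x {a} (fun b hb => hx.lt hb)
  refine h1.mono fun y hy ha => At.iff.2 ⟨fun b => ?_, fun b => ?_⟩
  · by_cases hb : b ∈ ({a} : Finset A)
    · rw [Finset.mem_singleton.1 hb, ha]
    · exact (hy b hb).le
  · constructor
    · intro hb
      rw [Finset.mem_singleton.1 hb, ha]
    · intro hb
      by_contra hne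
      exact absurd hb (hy b hne).ne

theorem near_two {x : E3} {a b : A} (hab : a ≠ b) (hx : At n x {a, b}) : ∀ᶠ y in 𝓝 x, (lf n a y = 1 → lf n b y = 1 → At n y {a, b}) ∧
    (lf n a y = 1 → lf n b y < 1 → At n y {a}) ∧ (lf n a y < 1 → lf n b y = 1 → At n y {b}) := by
  have h1 := near_lt (n := n) x {a, b} (fun c hc => hx.lt hc)
  have hmem : ∀ c, c ∈ ({a, b} : Finset A) ↔ c = a ∨ c = b := fun c => by simp
  refine h1.mono fun y hy => ⟨fun ha hb => ?_, fun ha hb => ?_, fun ha hb => ?_⟩
  · refine At.iff.2 ⟨fun c => ?_, fun c => ?_⟩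
    · by_cases hc : c ∈ ({a, b} : Finset A)
      · rcases (hmem c).1 hc with rfl | rfl
        · exact ha.le
        · exact hb.le
      · exact (hy c hc).le
    · constructor
      · intro hc
        rcases (hmem c).1 hc with rfl | rfl
        · exact ha
        · exact hb
      · intro hc
        by_contra hne
        exact absurd hc (hy c hne).ne
  · refine At.iff.2 ⟨fun c => ?_, fun c => ?_⟩
    · by_cases hc : c ∈ ({a, b} : Finset A)
      · rcases (hmem c).1 hc with rfl | rfl
        · exact ha.le
        · exact hb.le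
      · exact (hy c hc).le
    · constructor
      · intro hc
        rw [Finset.mem_singleton.1 hc]
        exact ha
      · intro hc
        rw [Finset.mem_singleton]
        by_contra hne
        by_cases hcb : c = b
        · rw [hcb] at hc
          exact absurd hc hb.ne
        · exact absurd hc (hy c (fun h => ((hmem c).1 h).elim hne hcb)).ne
  · refine At.iff.2 ⟨fun c => ?_, fun c => ?_⟩
    · by_cases hc : c ∈ ({a, b} : Finset A)
      · rcases (hmem c).1 hc with rfl | rfl
        · exact ha.le
        · exact hb.le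
      · exact (hy c hc).le
    · constructor
      · intro hc
        rw [Finset.mem_singleton.1 hc]
        exact hb
      · intro hc
        rw [Finset.mem_singleton]
        by_contra hne
        by_cases hca : c = a
        · rw [hca] at hc
          exact absurd hc ha.ne
        · exact absurd hc (hy c (fun h => ((hmem c).1 h).elim hca hne)).ne

theorem near_Fc {x : E3} {a : A} (hx : x ∈ Fc n a) : ∀ᶠ y in 𝓝 x, lf n a y = 1 → (∀ b ∈ Ac n x, lf n b y ≤ 1) → y ∈ Fc n a := by
  have h1 := near_lt (n := n) x (Ac n x) (fun b hb => lt_of_le_of_ne (hx.1 b)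
    (fun h => hb (mem_Ac.2 h)))
  refine h1.mono fun y hy ha hle => ⟨fun b => ?_, ha⟩
  by_cases hb : b ∈ Ac n x
  · exact hle b hb
  · exact (hy b hb).le


end ALX
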