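import Pool.Agent.Lib.ALX.A07
import Pool.Agent.Lib.ALX.P04

/-!
# ALX, chunk A08 (M): continuity of the inner distance

PROOF. `dl_near`: for `y ∈ bd n` near `x` every facet through `y` contains `x` (P04 near_lt with `s = Ac n x`), so `x, y` lie in a common facet, dl_Fc. `dl_lip`: triangle inequality and dl_Fc.
Continuity of `dl n q` on the boundary at `x`: `|dl q x - dl q y| ≤ dl x y = |x - y|` for `y` near `x`. Joint continuity: `|dl x y - dl x' y'| ≤ dl x x' + dl y y'`.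
-/

open Real MeasureTheory Filter Topology

namespace ALX

open H47A (E3 cross3 det3 pl)

variable {A : Type} [Fintype A] [DecidableEq A] {n : A → E3}

theorem dl_near (h : Gn n) {x : E3} (hx : x ∈ bd n) : ∀ᶠ y in 𝓝[bd n] x, dl n x y = ‖x - y‖ := by
  have h1 : ∀ b, b ∉ Ac n x → lf n b x < 1 := fun b hb =>
    lt_of_le_of_ne ((bd_sub hx) b) fun h' => hb (mem_Ac.2 h')
  have h2 := near_lt x (Ac n x) h1
  rw [eventually_nhdsWithin_iff]
  filter_upwards [h2] with y hy hyb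
  obtain ⟨a, ha⟩ := mem_bd.1 hyb
  have h3 : a ∈ Ac n x := by
    by_contra hc
    exact absurd ha.2 (hy a hc).ne
  exact dl_Fc h ⟨bd_sub hx, mem_Ac.1 h3⟩ ha

theorem dl_lip (h : Gn n) {q x y : E3} {a : A} (hq : q ∈ bd n) (hx : x ∈ Fc n a) (hy : y ∈ Fc n a) :
    |dl n q x - dl n q y| ≤ ‖x - y‖ := by
  have hxb := Fc_sub_bd a hx
  have hyb := Fc_sub_bd a hy
  have h1 := dl_tri h hq hyb hxb
  have h2 := dl_tri h hq hxb hyb
  rw [dl_Fc h hy hx, norm_sub_rev] at h1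
  rw [dl_Fc h hx hy] at h2
  rw [abs_sub_le_iff]
  constructor <;> linarith

theorem dl_contOn (h : Gn n) {q : E3} (hq : q ∈ bd n) : ContinuousOn (fun y => dl n q y) (bd n) := by
  intro x hx
  rw [ContinuousWithinAt, tendsto_iff_dist_tendsto_zero]
  have h0 : Tendsto (fun y => ‖x - y‖) (𝓝[bd n] x) (𝓝 0) := by
    have h1 : Continuous fun y : E3 => ‖x - y‖ := by fun_prop
    have h2 := (h1.tendsto x).mono_left (nhdsWithin_le_nhds (s := bd n))
    rwa [sub_self, norm_zero] at h2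
  refine squeeze_zero' (Eventually.of_forall fun _ => dist_nonneg) ?_ h0
  filter_upwards [dl_near h hx, self_mem_nhdsWithin] with y hy hyb
  have h1 := dl_tri h hq hyb hx
  have h2 := dl_tri h hq hx hyb
  rw [dl_comm y x] at h1
  rw [hy] at h1 h2
  rw [Real.dist_eq, abs_sub_le_iff]
  constructor <;> linarith

theorem dl_cont2 (h : Gn n) : ContinuousOn (fun p : E3 × E3 => dl n p.1 p.2) (bd n ×ˢ bd n) := by
  rintro ⟨x, x'⟩ ⟨hx, hx'⟩
  have hx : x ∈ bd n := hx
  have hx' : x' ∈ bd n := hx'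
  rw [ContinuousWithinAt, tendsto_iff_dist_tendsto_zero]
  have h0 : Tendsto (fun p : E3 × E3 => ‖x - p.1‖ + ‖x' - p.2‖) (𝓝[bd n ×ˢ bd n] (x, x')) (𝓝 0) := by
    have h1 : Continuous fun p : E3 × E3 => ‖x - p.1‖ + ‖x' - p.2‖ := by fun_prop
    have h2 := (h1.tendsto (x, x')).mono_left (nhdsWithin_le_nhds (s := bd n ×ˢ bd n))
    simpa using h2
  refine squeeze_zero' (Eventually.of_forall fun _ => dist_nonneg) ?_ h0
  have e1 : ∀ᶠ p : E3 × E3 in 𝓝[bd n ×ˢ bd n] (x, x'), dl n x p.1 = ‖x - p.1‖ := by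
    rw [nhdsWithin_prod_eq]
    exact tendsto_fst.eventually (dl_near h hx)
  have e2 : ∀ᶠ p : E3 × E3 in 𝓝[bd n ×ˢ bd n] (x, x'), dl n x' p.2 = ‖x' - p.2‖ := by
    rw [nhdsWithin_prod_eq]
    exact tendsto_snd.eventually (dl_near h hx')
  filter_upwards [e1, e2, self_mem_nhdsWithin] with p h1 h2 hp
  have hp1 : p.1 ∈ bd n := hp.1
  have hp2 : p.2 ∈ bd n := hp.2
  have t1 := dl_tri h hp1 hx hp2
  have t2 := dl_tri h hx hx' hp2
  have t3 := dl_tri h hx hp1 hx'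
  have t4 := dl_tri h hp1 hp2 hx'
  rw [dl_comm p.1 x] at t1
  rw [dl_comm p.2 x'] at t4
  rw [h1] at t1 t3
  rw [h2] at t2 t4
  rw [Real.dist_eq, abs_sub_le_iff]
  constructor <;> linarith


end ALX
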