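import Pool.Agent.Lib.ALX.A03
import Pool.Agent.Lib.ALX.A08

/-!
# ALX, chunk A09 (S/M): the inner diameter

PROOF. `bd n` is compact and not empty, `dl` is continuous (A08): the supremum `Dm n` is finite and attained (IsCompact.exists_isMaxOn on `bd n ×ˢ bd n`; `BddAbove` of the range, le_ciSup). `Dm_pos`: `bd_ray` for `u` and
`-u` gives two different points (dl_ge).
-/

open Real MeasureTheory Filter Topology

namespace ALX

open H47A (E3 cross3 det3 pl)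

variable {A : Type} [Fintype A] [DecidableEq A] {n : A → E3}

theorem a09_max (h : Gn n) : ∃ x ∈ bd n, ∃ y ∈ bd n, ∀ x' ∈ bd n, ∀ y' ∈ bd n, dl n x' y' ≤ dl n x y := by
  have hK : IsCompact (bd n ×ˢ bd n) := h.bd_compact.prod h.bd_compact
  have hne : (bd n ×ˢ bd n).Nonempty := (bd_nonempty h).prod (bd_nonempty h)
  obtain ⟨p, hp, hmax⟩ := hK.exists_isMaxOn hne (dl_cont2 h)
  obtain ⟨x, y⟩ := p
  rw [isMaxOn_iff] at hmax
  rw [Set.mem_prod] at hp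
  refine ⟨x, hp.1, y, hp.2, fun x' hx' y' hy' => ?_⟩
  exact hmax (x', y') (Set.mk_mem_prod hx' hy')

theorem a09_bdd (h : Gn n) : BddAbove (Set.range fun p : bd n × bd n => dl n p.1 p.2) := by
  obtain ⟨x, _, y, _, hm⟩ := a09_max h
  refine ⟨dl n x y, ?_⟩
  rintro _ ⟨p, rfl⟩
  exact hm _ p.1.2 _ p.2.2

theorem dl_le_Dm (h : Gn n) {x y : E3} (hx : x ∈ bd n) (hy : y ∈ bd n) : dl n x y ≤ Dm n :=
  le_ciSup (a09_bdd h) (⟨⟨x, hx⟩, ⟨y, hy⟩⟩ : bd n × bd n)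

theorem Dm_attained (h : Gn n) : ∃ x ∈ bd n, ∃ y ∈ bd n, dl n x y = Dm n := by
  obtain ⟨x, hx, y, hy, hm⟩ := a09_max h
  refine ⟨x, hx, y, hy, le_antisymm (dl_le_Dm h hx hy) ?_⟩
  have : Nonempty (bd n × bd n) := ⟨⟨⟨x, hx⟩, ⟨y, hy⟩⟩⟩
  exact ciSup_le fun p => hm _ p.1.2 _ p.2.2

theorem farthest (h : Gn n) {q : E3} (hq : q ∈ bd n) : ∃ z ∈ bd n, ∀ x ∈ bd n, dl n q x ≤ dl n q z := by
  obtain ⟨z, hz, hmax⟩ := h.bd_compact.exists_isMaxOn (bd_nonempty h) (dl_contOn h hq)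
  exact ⟨z, hz, fun x hx => hmax hx⟩

theorem Dm_pos (h : Gn n) : 0 < Dm n := by
  obtain ⟨u, hu⟩ : ∃ u : E3, u ≠ 0 := exists_ne 0
  obtain ⟨r, hr, h1⟩ := bd_ray h hu
  obtain ⟨r', hr', h2⟩ := bd_ray h (neg_ne_zero.2 hu)
  have h3 := dl_ge h h1 h2
  have h4 : r • u - r' • (-u) = (r + r') • u := by
    rw [smul_neg, sub_neg_eq_add, add_smul]
  have h5 : 0 < ‖r • u - r' • (-u)‖ := by
    rw [h4, norm_smul]
    have : 0 < ‖u‖ := norm_pos_iff.2 hu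
    have h6 : 0 < ‖r + r'‖ := norm_pos_iff.2 (by positivity)
    positivity
  exact h5.trans_le (h3.trans (dl_le_Dm h h1 h2))

end ALX
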