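import Pool.Agent.Lib.ALX.Defs2
import Pool.Agent.Lib.ALX.A06

/-!
# ALX, chunk A10 (M): shortest polygons with indices

PROOF: from A06, translate the lists `s = [a 0, …, a k]`, `l = [p 1, …, p (k + 1)]` to functions (`a i = s.getD i (default)`, `p 0 = x`, `p (i + 1) = l.getD i y`); prove by induction on `s` the
general statement: `Thru n x s l y`, `s ≠ []` implies that there are `k, a, p` with `s = List.ofFn (fun i : Fin (k + 1) => a i)`, `p 0 = x`, `p (k + 1) = y`, the two facet conditions and
`plen x l = lenP p (k + 1)` (Finset.sum_range_succ'). `inj` from `s.Nodup` (List.nodup_ofFn).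
-/

open Real MeasureTheory Filter Topology

namespace ALX

open H47A (E3 cross3 det3 pl)

variable {A : Type} [Fintype A] [DecidableEq A] {n : A → E3}

theorem a10_gen (a0 : A) (y : E3) : ∀ (s : List A) (x : E3) (l : List E3), Thru n x s l y →
    l.length = s.length ∧ (x :: l).getD s.length y = y ∧
    plen x l = lenP (fun j => (x :: l).getD j y) s.length ∧
    ∀ i, i < s.length → (x :: l).getD i y ∈ Fc n (s.getD i a0) ∧
      (x :: l).getD (i + 1) y ∈ Fc n (s.getD i a0)
  | [], x, [], h => by
    have h' : x = y := h
    refine ⟨rfl, ?_, ?_, ?_⟩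
    · simp
      exact h'
    · simp [plen, lenP]
    · intro i hi
      simp at hi
  | [], x, z :: l, h => absurd h (by simp [Thru])
  | a :: s, x, [], h => absurd h (by simp [Thru])
  | a :: s, x, z :: l, h => by
    have h' : x ∈ Fc n a ∧ z ∈ Fc n a ∧ Thru n z s l y := h
    obtain ⟨h1, h2, h3⟩ := h'
    obtain ⟨i1, i2, i3, i4⟩ := a10_gen a0 y s z l h3
    refine ⟨by simp [i1], ?_, ?_, ?_⟩
    · rw [List.length_cons, List.getD_cons_succ]
      exact i2
    · have e1 : plen x (z :: l) = ‖x - z‖ + plen z l := rfl
      rw [e1, i3, List.length_cons]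
      unfold lenP
      rw [Finset.sum_range_succ', add_comm]
      simp only [List.getD_cons_succ, List.getD_cons_zero]
    · intro i hi
      rcases i with _ | i
      · simp only [List.getD_cons_succ, List.getD_cons_zero, zero_add]
        exact ⟨h1, h2⟩
      · rw [List.length_cons] at hi
        have := i4 i (by omega)
        rw [List.getD_cons_succ, List.getD_cons_succ, List.getD_cons_succ]
        exact this

theorem isMin_exists (h : Gn n) {x y : E3} (hx : x ∈ bd n) (hy : y ∈ bd n) : ∃ k a p, IsMin n x y k a p := by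
  obtain ⟨s, l, hs, hne, hth, hlen⟩ := dl_min h hx hy
  obtain ⟨a0, ha0⟩ := List.exists_mem_of_ne_nil s hne
  have hpos : 0 < s.length := List.length_pos_iff.2 hne
  obtain ⟨i1, i2, i3, i4⟩ := a10_gen a0 y s x l hth
  have hk : s.length - 1 + 1 = s.length := by omega
  refine ⟨s.length - 1, fun i => s.getD i a0, fun j => (x :: l).getD j y, ?_, ?_, ?_, ?_, ?_, ?_⟩
  · simp
  · rw [hk]
    exact i2
  · intro i j hi hj hij
    have hi' : i < s.length := by omega
    have hj' : j < s.length := by omega
    simp only [List.getD_eq_getElem _ _ hi', List.getD_eq_getElem _ _ hj'] at hij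
    exact (List.Nodup.getElem_inj_iff hs).1 hij
  · intro i hi
    exact (i4 i (by omega)).1
  · intro i hi
    exact (i4 i (by omega)).2
  · rw [hk, ← hlen, i3]
    rfl


end ALX
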