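import Pool.Agent.Lib.ALX.Defs2
import Pool.Agent.Lib.ALX.A07

/-!
# ALX, chunk A11 (M): parts of shortest polygons are shortest

PROOF. For `i ≤ j ≤ k + 1`: `dl (p i) (p j) ≤ ∑ m ∈ Ico i j, ‖p m - p (m + 1)‖` (induction on `j`, dl_tri, dl_Fc: `p m, p (m + 1) ∈ Fc n (a m)`). The same for the parts from `0` to `i` and from
`j` to `k + 1`; the sum of the three is `dl x y ≤ dl x (p i) + dl (p i) (p j) + dl (p j) y` (triangle inequality), so equality holds everywhere.
-/

open Real MeasureTheory Filter Topology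

namespace ALX

open H47A (E3 cross3 det3 pl)

variable {A : Type} [Fintype A] [DecidableEq A] {n : A → E3}

theorem IsMin.mem (h : Gn n) {x y : E3} {k : ℕ} {a : ℕ → A} {p : ℕ → E3} (hm : IsMin n x y k a p) {i : ℕ} (hi : i ≤ k + 1) : p i ∈ bd n := by
  rcases Nat.lt_or_ge i (k + 1) with h1 | h1
  · exact Fc_sub_bd _ (hm.left i (by omega))
  · have : i = k + 1 := le_antisymm hi h1
    rw [this]
    exact Fc_sub_bd _ (hm.right k le_rfl)

theorem a11_le (h : Gn n) {x y : E3} {k : ℕ} {a : ℕ → A} {p : ℕ → E3} (hm : IsMin n x y k a p) {i j : ℕ} (hij : i ≤ j) (hj : j ≤ k + 1) :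
    dl n (p i) (p j) ≤ ∑ m ∈ Finset.Ico i j, ‖p m - p (m + 1)‖ := by
  induction j, hij using Nat.le_induction with
  | base =>
    rw [Finset.Ico_self, Finset.sum_empty, dl_self (hm.mem h hj)]
  | succ j hij ih =>
    have h1 := ih (by omega)
    have h2 := dl_tri h (hm.mem h (i := i) (by omega)) (hm.mem h (i := j) (by omega)) (hm.mem h (i := j + 1) hj)
    have h3 : dl n (p j) (p (j + 1)) = ‖p j - p (j + 1)‖ := dl_Fc h (hm.left j (by omega)) (hm.right j (by omega))
    rw [Finset.sum_Ico_succ_top hij]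
    linarith

theorem IsMin.cut (h : Gn n) {x y : E3} {k : ℕ} {a : ℕ → A} {p : ℕ → E3} (hm : IsMin n x y k a p) {i j : ℕ} (hij : i ≤ j) (hj : j ≤ k + 1) :
    dl n (p i) (p j) = ∑ m ∈ Finset.Ico i j, ‖p m - p (m + 1)‖ := by
  refine le_antisymm (a11_le h hm hij hj) ?_
  have h0 := hm.mem h (i := 0) (by omega)
  have hi := hm.mem h (i := i) (by omega)
  have hj' := hm.mem h (i := j) hj
  have hk := hm.mem h (i := k + 1) le_rfl
  have e1 := a11_le h hm (Nat.zero_le i) (by omega)
  have e2 := a11_le h hm hj le_rfl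
  have e3 := hm.len
  rw [Finset.range_eq_Ico, ← Finset.sum_Ico_consecutive _ (Nat.zero_le j) hj, ← Finset.sum_Ico_consecutive _ (Nat.zero_le i) hij,
    ← hm.first, ← hm.last] at e3
  have e4 := dl_tri h h0 hi hj'
  have e5 := dl_tri h h0 hj' hk
  linarith

end ALX
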