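import Pool.Agent.Lib.ALX.Defs2
import Pool.Agent.Lib.ALX.A07

/-!
# ALX, chunk A12 (M): removing a degenerate side of a shortest polygon

PROOF. New functions: `a' j = if j < i then a j else a (j + 1)`, `p' j = if j ≤ i then p j else p (j + 1)` for `j ≤ k + 1`. (The facet `a i` and the point `p (i + 1) = p i` are removed.)
Facets: for `j < i` nothing changes (`p' (j + 1) = p (j + 1)` also for `j + 1 = i`). For `j = i ≤ k`: `a' i = a (i + 1)`, `p' i = p i = p (i + 1) ∈ Fc n (a (i + 1))`,
`p' (i + 1) = p (i + 2) ∈ Fc n (a (i + 1))`. For `j > i`: shift by one. If `i = k + 1` (last side): `p' (k + 1) = p (k + 1) = p (k + 2) = y`. The sum of the lengths does not change: the removed term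
is zero (Finset.sum_range_succ, splitting at `i`; e.g. induction or Finset.sum over range split `range (k + 2) = range i ∪ {i} ∪ rest`; for `j < i` the terms agree, for `j ≥ i` the term `j` of the new
sum is the term `j + 1` of the old one, since `p' i = p i = p (i + 1)`).
-/

open Real MeasureTheory Filter Topology

namespace ALX

open H47A (E3 cross3 det3 pl)

variable {A : Type} [Fintype A] [DecidableEq A] {n : A → E3}

theorem a12_sum (f : ℕ → ℝ) (i : ℕ) (h0 : f i = 0) : ∀ K, i ≤ K →
    ∑ j ∈ Finset.range (K + 1), f j = ∑ j ∈ Finset.range K, (if j < i then f j else f (j + 1)) := by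
  intro K hK
  induction K, hK using Nat.le_induction with
  | base =>
    rw [Finset.sum_range_succ, h0, add_zero]
    refine Finset.sum_congr rfl fun j hj => ?_
    rw [if_pos (Finset.mem_range.1 hj)]
  | succ K hK ih =>
    rw [Finset.sum_range_succ, ih, Finset.sum_range_succ, if_neg (by omega)]

theorem IsMin.shorten {x y : E3} {k : ℕ} {a : ℕ → A} {p : ℕ → E3} (hm : IsMin n x y (k + 1) a p) {i : ℕ} (hi : i ≤ k + 1) (he : p i = p (i + 1)) :
    ∃ a' p', IsMin n x y k a' p' := by
  refine ⟨fun j => if j < i then a j else a (j + 1), fun j => if j ≤ i then p j else p (j + 1),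
    ?_⟩
  constructor
  · simp only [Nat.zero_le, if_true]
    exact hm.first
  · by_cases h : k + 1 ≤ i
    · have h1 : i = k + 1 := le_antisymm hi h
      simp only [if_pos h]
      rw [← h1, he, h1]
      exact hm.last
    · simp only [if_neg h]
      exact hm.last
  · intro j j' hj hj' hjj
    change (if j < i then a j else a (j + 1)) = (if j' < i then a j' else a (j' + 1)) at hjj
    by_cases h1 : j < i
    · by_cases h2 : j' < i
      · rw [if_pos h1, if_pos h2] at hjj
        exact hm.inj j j' (by omega) (by omega) hjj
      · rw [if_pos h1, if_neg h2] at hjj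
        have := hm.inj j (j' + 1) (by omega) (by omega) hjj
        omega
    · by_cases h2 : j' < i
      · rw [if_neg h1, if_pos h2] at hjj
        have := hm.inj (j + 1) j' (by omega) (by omega) hjj
        omega
      · rw [if_neg h1, if_neg h2] at hjj
        have := hm.inj (j + 1) (j' + 1) (by omega) (by omega) hjj
        omega
  · intro j hj
    show (if j ≤ i then p j else p (j + 1)) ∈ Fc n (if j < i then a j else a (j + 1))
    rcases lt_trichotomy j i with h | h | h
    · rw [if_pos h.le, if_pos h]
      exact hm.left j (by omega)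
    · subst h
      rw [if_pos le_rfl, if_neg (lt_irrefl _), he]
      exact hm.left (j + 1) (by omega)
    · rw [if_neg (by omega), if_neg (by omega)]
      exact hm.left (j + 1) (by omega)
  · intro j hj
    show (if j + 1 ≤ i then p (j + 1) else p (j + 1 + 1)) ∈ Fc n (if j < i then a j else a (j + 1))
    by_cases h : j < i
    · rw [if_pos h, if_pos (Nat.succ_le_of_lt h)]
      exact hm.right j (by omega)
    · rw [if_neg h, if_neg (by omega)]
      exact hm.right (j + 1) (by omega)
  · rw [← hm.len]
    have h0 : ‖p i - p (i + 1)‖ = 0 := by rw [he, sub_self, norm_zero]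
    rw [a12_sum (fun j => ‖p j - p (j + 1)‖) i h0 (k + 1) hi]
    refine Finset.sum_congr rfl fun j _ => ?_
    show ‖(if j ≤ i then p j else p (j + 1)) - (if j + 1 ≤ i then p (j + 1) else p (j + 1 + 1))‖ =
      if j < i then ‖p j - p (j + 1)‖ else ‖p (j + 1) - p (j + 1 + 1)‖
    rcases lt_trichotomy j i with h | h | h
    · rw [if_pos h.le, if_pos (by omega), if_pos h]
    · subst h
      rw [if_pos le_rfl, if_neg (by omega), if_neg (lt_irrefl _), he]
    · rw [if_neg (by omega), if_neg (by omega), if_neg (by omega)]


end ALX
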