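import Pool.Agent.Lib.ALX.A10
import Pool.Agent.Lib.ALX.A12

/-!
# ALX, chunk A13 (S/M): shortest polygons without degenerate sides

PROOF: take the smallest `k` for which an `IsMin` exists (Nat.find, A10). If `p i = p (i + 1)` for some `i ≤ k`: `k = 0` would give `x = y`; `k = k' + 1` contradicts the minimality by A12.
-/

open Real MeasureTheory Filter Topology

namespace ALX

open H47A (E3 cross3 det3 pl)

variable {A : Type} [Fintype A] [DecidableEq A] {n : A → E3}

theorem isMin_good (h : Gn n) {x y : E3} (hx : x ∈ bd n) (hy : y ∈ bd n) (hxy : x ≠ y) :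
    ∃ k a p, IsMin n x y k a p ∧ ∀ i, i ≤ k → p i ≠ p (i + 1) := by
  classical
  have hex : ∃ k, ∃ a p, IsMin n x y k a p := isMin_exists h hx hy
  obtain ⟨a, p, hm⟩ := Nat.find_spec hex
  refine ⟨Nat.find hex, a, p, hm, fun i hi he => ?_⟩
  rcases Nat.eq_zero_or_pos (Nat.find hex) with hk | hk
  · rw [hk] at hm hi
    have hi0 : i = 0 := by omega
    subst hi0
    have h1 := hm.first
    have h2 := hm.last
    rw [zero_add] at h2 he
    exact hxy (by rw [← h1, ← h2, he])
  · obtain ⟨k', hk'⟩ : ∃ k', Nat.find hex = k' + 1 := ⟨Nat.find hex - 1, by omega⟩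
    rw [hk'] at hm hi
    obtain ⟨a', p', hm'⟩ := IsMin.shorten hm hi he
    exact Nat.find_min hex (m := k') (by omega) ⟨a', p', hm'⟩


end ALX
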