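import Pool.Agent.Lib.ALX.Defs

/-!
# ALX: elementary facts
-/

open Real MeasureTheory

namespace ALX

open H47A (E3 cross3 det3 pl)

variable {A : Type} [Fintype A] [DecidableEq A] {n : A → E3}

theorem lf_add (a : A) (u v : E3) : lf n a (u + v) = lf n a u + lf n a v := inner_add_right _ _ _

theorem lf_sub (a : A) (u v : E3) : lf n a (u - v) = lf n a u - lf n a v := inner_sub_right _ _ _

theorem lf_smul (a : A) (r : ℝ) (u : E3) : lf n a (r • u) = r * lf n a u := inner_smul_right _ _ _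

theorem lf_neg (a : A) (u : E3) : lf n a (-u) = -lf n a u := inner_neg_right _ _

theorem lf_zero (a : A) : lf n a 0 = 0 := inner_zero_right _

theorem lf_line (a : A) (x y : E3) (t : ℝ) : lf n a (AffineMap.lineMap x y t) = (1 - t) * lf n a x + t * lf n a y := by
  rw [AffineMap.lineMap_apply_module, lf_add, lf_smul, lf_smul]

theorem lf_cont (a : A) : Continuous (lf n a) := by
  unfold lf
  fun_prop

theorem mem_Ac {x : E3} {a : A} : a ∈ Ac n x ↔ lf n a x = 1 := by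
  unfold Ac
  simp

theorem Pt_closed : IsClosed (Pt n) := by
  have : Pt n = ⋂ a, {u | lf n a u ≤ 1} := by
    ext u
    simp [Pt]
  rw [this]
  exact isClosed_iInter fun a => isClosed_le (lf_cont a) continuous_const

theorem Pt_convex : Convex ℝ (Pt n) := by
  intro x hx y hy s t hs ht hst a
  rw [lf_add, lf_smul, lf_smul]
  nlinarith [mul_le_mul_of_nonneg_left (hx a) hs, mul_le_mul_of_nonneg_left (hy a) ht]

theorem Fc_closed (a : A) : IsClosed (Fc n a) := Pt_closed.inter (isClosed_eq (lf_cont a) continuous_const)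

theorem Fc_convex (a : A) : Convex ℝ (Fc n a) := by
  intro x hx y hy s t hs ht hst
  refine ⟨Pt_convex hx.1 hy.1 hs ht hst, ?_⟩
  rw [lf_add, lf_smul, lf_smul, hx.2, hy.2]
  linarith

theorem bd_eq : bd n = ⋃ a, Fc n a := by
  ext x
  simp [bd, Fc]

theorem bd_closed : IsClosed (bd n) := by
  rw [bd_eq]
  exact isClosed_iUnion_of_finite fun a => Fc_closed a

theorem Fc_sub_bd (a : A) : Fc n a ⊆ bd n := fun _ h => ⟨h.1, a, h.2⟩

theorem bd_sub : bd n ⊆ Pt n := fun _ h => h.1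

theorem mem_bd {x : E3} : x ∈ bd n ↔ ∃ a, x ∈ Fc n a := ⟨fun h => ⟨h.2.choose, h.1, h.2.choose_spec⟩, fun ⟨a, h⟩ => Fc_sub_bd a h⟩

theorem Gn.Pt_compact (h : Gn n) : IsCompact (Pt n) := by
  obtain ⟨R, hR⟩ := h.bdd
  refine Metric.isCompact_of_isClosed_isBounded Pt_closed ((Metric.isBounded_closedBall (x := (0 : E3)) (r := R)).subset ?_)
  intro u hu
  rw [mem_closedBall_zero_iff]
  exact hR u hu

theorem Gn.Fc_compact (h : Gn n) (a : A) : IsCompact (Fc n a) := h.Pt_compact.of_isClosed_subset (Fc_closed a) fun _ h => h.1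

theorem Gn.bd_compact (h : Gn n) : IsCompact (bd n) := h.Pt_compact.of_isClosed_subset bd_closed bd_sub

theorem At.iff {x : E3} {s : Finset A} : At n x s ↔ x ∈ Pt n ∧ ∀ a, a ∈ s ↔ lf n a x = 1 := by
  unfold At
  refine and_congr_right fun _ => ⟨fun h a => by rw [← h]; exact mem_Ac, fun h => ?_⟩
  ext a
  rw [h a]
  exact mem_Ac

theorem At.mem {x : E3} {s : Finset A} (h : At n x s) {a : A} (ha : a ∈ s) : x ∈ Fc n a := ⟨h.1, (At.iff.1 h).2 a |>.1 ha⟩

theorem At.lt {x : E3} {s : Finset A} (h : At n x s) {a : A} (ha : a ∉ s) : lf n a x < 1 :=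
  lt_of_le_of_ne (h.1 a) fun h' => ha (((At.iff.1 h).2 a).2 h')

theorem At.bd {x : E3} {s : Finset A} (h : At n x s) (hs : s.Nonempty) : x ∈ bd n := by
  obtain ⟨a, ha⟩ := hs
  exact Fc_sub_bd a (h.mem ha)

theorem Gn.card_le (h : Gn n) (x : E3) : (Ac n x).card ≤ 3 := by
  by_contra hc
  push Not at hc
  obtain ⟨s, hs, hs4⟩ := Finset.exists_subset_card_eq (show 4 ≤ (Ac n x).card from hc)
  obtain ⟨a, b, c, d, hab, hac, had, hbc, hbd, hcd, rfl⟩ := Finset.card_eq_four.1 hs4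
  have hm : ∀ y ∈ ({a, b, c, d} : Finset A), lf n y x = 1 := fun y hy => mem_Ac.1 (hs hy)
  exact h.four a b c d hab hac had hbc hbd hcd x ⟨hm a (by simp), hm b (by simp), hm c (by simp), hm d (by simp)⟩

/-- A boundary point lies on one, two or three facets. -/
theorem Gn.cases (h : Gn n) {x : E3} (hx : x ∈ bd n) : (∃ a, At n x {a}) ∨ (∃ a b, a ≠ b ∧ At n x {a, b}) ∨
    (∃ a b c, a ≠ b ∧ b ≠ c ∧ a ≠ c ∧ At n x {a, b, c}) := by
  have h1 := h.card_le x
  obtain ⟨a, ha⟩ := mem_bd.1 hx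
  have h2 : 0 < (Ac n x).card := Finset.card_pos.2 ⟨a, mem_Ac.2 ha.2⟩
  have h3 : (Ac n x).card = 1 ∨ (Ac n x).card = 2 ∨ (Ac n x).card = 3 := by omega
  rcases h3 with h3 | h3 | h3
  · obtain ⟨a, ha⟩ := Finset.card_eq_one.1 h3
    exact Or.inl ⟨a, bd_sub hx, ha⟩
  · obtain ⟨a, b, hab, ha⟩ := Finset.card_eq_two.1 h3
    exact Or.inr (Or.inl ⟨a, b, hab, bd_sub hx, ha⟩)
  · obtain ⟨a, b, c, hab, hac, hbc, ha⟩ := Finset.card_eq_three.1 h3
    exact Or.inr (Or.inr ⟨a, b, c, hab, hbc, hac, bd_sub hx, ha⟩)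

theorem mem_Vs_iff (h : Gn n) {v : E3} : v ∈ Vs n ↔ ∃ a b c, a ≠ b ∧ b ≠ c ∧ a ≠ c ∧ At n v {a, b, c} := by
  constructor
  · intro hv
    have h1 := h.card_le v
    obtain ⟨a, b, c, hab, hac, hbc, ha⟩ := Finset.card_eq_three.1 (le_antisymm h1 hv.2)
    exact ⟨a, b, c, hab, hbc, hac, hv.1, ha⟩
  · rintro ⟨a, b, c, hab, hbc, hac, h2, h3⟩
    refine ⟨h2, ?_⟩
    rw [h3, Finset.card_eq_three.2 ⟨a, b, c, hab, hac, hbc, rfl⟩]

theorem At.two {x : E3} {a b : A} (h : At n x {a, b}) : x ∈ Fc n a ∧ x ∈ Fc n b := ⟨h.mem (by simp), h.mem (by simp)⟩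

theorem Dir.lf {a : A} {u : E3} (h : Dir n a u) : ALX.lf n a u = 0 := h.2

theorem chT_nil : chT n [] = AffineIsometryEquiv.refl ℝ E3 := rfl

theorem chT_one (a : A) : chT n [a] = AffineIsometryEquiv.refl ℝ E3 := rfl

theorem chT_cons (b a : A) (c : List A) : chT n (b :: a :: c) = (rho n a b).trans (chT n (a :: c)) := rfl

theorem chT_cons_apply (b a : A) (c : List A) (x : E3) : chT n (b :: a :: c) x = chT n (a :: c) (rho n a b x) := rfl

end ALX
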