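import Pool.Agent.Lib.ALX.Api0

/-!
# ALX: further definitions
-/

open Real MeasureTheory

namespace ALX

open H47A (E3 cross3 det3 pl)

variable {A : Type} [Fintype A] [DecidableEq A] (n : A → E3)

/-- `T` maps the plane of `a` to the plane of `a0`, the outer normal to the outer normal, and is proper. -/
structure IsUn (a a0 : A) (T : E3 ≃ᵃⁱ[ℝ] E3) : Prop where
  plane : ∀ x, lf n a x = 1 → lf n a0 (T x) = 1
  nor : T.linearIsometryEquiv (nu n a) = nu n a0
  ori : ∀ u v, T.linearIsometryEquiv (cross3 u v) = cross3 (T.linearIsometryEquiv u) (T.linearIsometryEquiv v)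

/-- A shortest polygon from `x` to `y` with `k + 1` facets `a 0, …, a k` and the points `p 0 = x, …, p (k + 1) = y`. -/
structure IsMin (x y : E3) (k : ℕ) (a : ℕ → A) (p : ℕ → E3) : Prop where
  first : p 0 = x
  last : p (k + 1) = y
  inj : ∀ i j, i ≤ k → j ≤ k → a i = a j → i = j
  left : ∀ i, i ≤ k → p i ∈ Fc n (a i)
  right : ∀ i, i ≤ k → p (i + 1) ∈ Fc n (a i)
  len : ∑ i ∈ Finset.range (k + 1), ‖p i - p (i + 1)‖ = dl n x y

/-- The list `[a i, …, a 0]`. -/
def revL (a : ℕ → A) : ℕ → List A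
  | 0 => [a 0]
  | i + 1 => a (i + 1) :: revL a i

/-- The length of the polygon `p 0, …, p i`. -/
noncomputable def lenP (p : ℕ → E3) (i : ℕ) : ℝ := ∑ m ∈ Finset.range i, ‖p m - p (m + 1)‖

end ALX
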