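import Pool.Agent.Lib.ALX.Defs

/-! # ALX: generic points (definitions) -/

open Real MeasureTheory

namespace ALX

open H47A (E3 cross3 det3 pl)

variable {A : Type} [Fintype A] [DecidableEq A] (n : A → E3)

/-- The unfoldings of the plane of `b` to the plane of `a0` along chains of at most `card A + 1` facets (reversed lists, first element `b`, last element `a0`). -/
def GG (a0 b : A) : Set (E3 ≃ᵃⁱ[ℝ] E3) :=
  {T | ∃ c : List A, (b :: c).getLast? = some a0 ∧ List.IsChain (fun x y => x ≠ y) (b :: c) ∧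
    (b :: c).length ≤ Fintype.card A + 1 ∧ T = chT n (b :: c)}

/-- Generic points `q` of the facet `a0`: two different unfoldings of a facet plane give different images of `q`, and these are not symmetric with respect to a line through an
edge of this facet. -/
structure Gen (a0 : A) (q : E3) : Prop where
  loc : At n q {a0}
  ne : ∀ b, ∀ T ∈ GG n a0 b, ∀ T' ∈ GG n a0 b, T ≠ T' → T.symm q ≠ T'.symm q
  mir : ∀ b, ∀ T ∈ GG n a0 b, ∀ T' ∈ GG n a0 b, T ≠ T' → ∀ c, c ≠ b →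
    ¬ ∀ y, lf n b y = 1 → lf n c y = 1 → ‖T y - q‖ = ‖T' y - q‖

/-- The states: a facet and an unfolding of it by a shortest path. -/
def St (a0 : A) (q : E3) : Set (A × (E3 ≃ᵃⁱ[ℝ] E3)) := {s | s.2 ∈ Img n a0 q s.1}

/-- The direction `u` is generic: on the ray from the image `T⁻¹ q` in the direction `u` (mapped back by `T`), (i) no line through an edge of the facet contains the ray;
(ii) at a point of the cell at most one of the conditions `lf b ≤ 1` (`b ≠ a`), `‖T x - q‖ ≤ ‖T' x - q‖` (`T' ≠ T`) is an equality. -/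
structure GD (a0 : A) (q u : E3) : Prop where
  dir : Dir n a0 u
  line : ∀ a, ∀ T ∈ Img n a0 q a, ∀ b, b ≠ a →
    ¬ (lf n b (T.symm q) = 1 ∧ lf n b (T.symm.linearIsometryEquiv u) = 0)
  pt2 : ∀ a, ∀ T ∈ Img n a0 q a, ∀ t : ℝ, 0 < t → T.symm (q + t • u) ∈ Cl n q a T →
    ∀ b b', b ≠ a → b' ≠ a → lf n b (T.symm (q + t • u)) = 1 → lf n b' (T.symm (q + t • u)) = 1 → b = b'
  pt1 : ∀ a, ∀ T ∈ Img n a0 q a, ∀ t : ℝ, 0 < t → T.symm (q + t • u) ∈ Cl n q a T →
    ∀ b, b ≠ a → lf n b (T.symm (q + t • u)) = 1 → ∀ T' ∈ Img n a0 q a,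
      T.symm (q + t • u) ∈ Cl n q a T' → T' = T
  pt0 : ∀ a, ∀ T ∈ Img n a0 q a, ∀ t : ℝ, 0 < t → T.symm (q + t • u) ∈ Cl n q a T →
    ∀ T' ∈ Img n a0 q a, ∀ T'' ∈ Img n a0 q a, T' ≠ T → T'' ≠ T →
      T.symm (q + t • u) ∈ Cl n q a T' → T.symm (q + t • u) ∈ Cl n q a T'' → T' = T''

end ALX
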