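import Pool.Agent.Lib.ALX.P01

/-!
# ALX, chunk P02 (S): unit normals

PROOF: direct (`Gn.ne`).
-/

open Real MeasureTheory Filter Topology

namespace ALX

open H47A (E3 cross3 det3 pl)

variable {A : Type} [Fintype A] [DecidableEq A] {n : A → E3}

theorem nu_norm (h : Gn n) (a : A) : ‖nu n a‖ = 1 := by
  unfold nu
  rw [norm_smul, norm_inv, norm_norm, inv_mul_cancel₀ (norm_ne_zero_iff.mpr (h.ne a))]

theorem nu_inner (a : A) (u : E3) : inner ℝ (nu n a) u = ‖n a‖⁻¹ * lf n a u := by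
  unfold nu lf
  rw [real_inner_smul_left]

theorem nu_inner_zero (h : Gn n) (a : A) (u : E3) : inner ℝ (nu n a) u = (0 : ℝ) ↔ inner ℝ (n a) u = (0 : ℝ) := by
  rw [nu_inner]
  have h1 : ‖n a‖⁻¹ ≠ 0 := inv_ne_zero (norm_ne_zero_iff.mpr (h.ne a))
  unfold lf
  constructor
  · intro h2
    exact (mul_eq_zero.mp h2).resolve_left h1
  · intro h2
    rw [h2, mul_zero]

/-- A plane is described by the unit normal: `x, y` in the plane of `a`. -/
theorem nu_sub (h : Gn n) {a : A} {x y : E3} (hx : lf n a x = 1) : lf n a y = 1 ↔ inner ℝ (nu n a) (y - x) = (0 : ℝ) := by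
  rw [nu_inner_zero h]
  have h1 : inner ℝ (n a) (y - x) = lf n a y - lf n a x := lf_sub a y x
  rw [h1, hx]
  constructor
  · intro h2; linarith
  · intro h2; linarith


end ALX
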