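import Pool.Agent.Lib.ALX.P01
import Pool.Agent.Lib.ALX.P04

/-!
# ALX, chunk P03 (M): relative interior points of the facets

PROOF of `interior_dir`: `Ac n x` is `{a}`, `{a, b}` or `{a, b, c}` (`Gn.cases`, reorder so that `a` is the given one). In the first case `w = 0`. In the other cases choose `w` orthogonal to
`n a` with `inner (n b) w < 0` (and `inner (n c) w < 0`): for three facets `w = ed n a b c + ed n a c b` (P05), for two facets `w = -cross3 (n a) (cross3 (n a) (n b))`-like: the vector
`w = (inner (n a) (n b)) • n a - (‖n a‖^2) • n b` satisfies `inner (n a) w = 0`, `inner (n b) w = -(‖cross3 (n a) (n b)‖^2) < 0` (H47A.cross3_norm). The functionals of the other facets stay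
smaller than 1 for small `t`.
`segment`: `lf b` is affine on the segment: for `b ≠ a` it is `(1 - t) * (≤ 1) + t * (< 1) < 1`.
`closure`: the points `x + t • w`, `t → 0+`.
-/

open Real MeasureTheory Filter Topology

namespace ALX

open H47A (E3 cross3 det3 pl)

variable {A : Type} [Fintype A] [DecidableEq A] {n : A → E3}

/-- A normal form of the active set. -/
theorem p03_abc (h : Gn n) {x : E3} {a : A} (hx : x ∈ Fc n a) : ∃ b c : A, a ≠ b ∧ b ≠ c ∧ a ≠ c ∧
    ∀ d, lf n d x = 1 → d = a ∨ d = b ∨ d = c := by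
  have hxa : a ∈ Ac n x := mem_Ac.2 hx.2
  rcases h.cases (Fc_sub_bd a hx) with ⟨a', ha'⟩ | ⟨a', b', hab, ha'⟩ | ⟨a', b', c', hab, hbc, hac, ha'⟩
  · rw [ha'.2, Finset.mem_singleton] at hxa
    obtain ⟨b, hb, -⟩ := h.third a a
    obtain ⟨c, hc, hcb⟩ := h.third a b
    refine ⟨b, c, hb.symm, hcb.symm, hc.symm, ?_⟩
    intro d hd
    have h1 := mem_Ac.2 hd
    rw [ha'.2, Finset.mem_singleton] at h1
    left
    rw [h1, hxa]
  · rw [ha'.2] at hxa
    have hmem : ∀ d, lf n d x = 1 → d = a' ∨ d = b' := by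
      intro d hd
      have h1 := mem_Ac.2 hd
      rw [ha'.2] at h1
      simpa using h1
    have hxa' : a = a' ∨ a = b' := by simpa using hxa
    rcases hxa' with rfl | rfl
    · obtain ⟨c, hc, hcb⟩ := h.third a b'
      exact ⟨b', c, hab, hcb.symm, hc.symm, fun d hd => by rcases hmem d hd with h1 | h1 <;> simp [h1]⟩
    · obtain ⟨c, hc, hcb⟩ := h.third a a'
      exact ⟨a', c, hab.symm, hcb.symm, hc.symm, fun d hd => by rcases hmem d hd with h1 | h1 <;> simp [h1]⟩
  · rw [ha'.2] at hxa
    have hmem : ∀ d, lf n d x = 1 → d = a' ∨ d = b' ∨ d = c' := by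
      intro d hd
      have h1 := mem_Ac.2 hd
      rw [ha'.2] at h1
      simpa using h1
    have hxa' : a = a' ∨ a = b' ∨ a = c' := by simpa using hxa
    rcases hxa' with rfl | rfl | rfl
    · exact ⟨b', c', hab, hbc, hac, hmem⟩
    · exact ⟨a', c', hab.symm, hac, hbc, fun d hd => by rcases hmem d hd with h1 | h1 | h1 <;> simp [h1]⟩
    · exact ⟨a', b', hac.symm, hab, hbc.symm, fun d hd => by rcases hmem d hd with h1 | h1 | h1 <;> simp [h1]⟩

/-- A direction of the facet plane along which two other functionals decrease. -/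
theorem p03_dir {u v w : E3} (hD : det3 u v w ≠ 0) : ∃ z : E3, inner ℝ u z = (0 : ℝ) ∧ inner ℝ v z = (-1 : ℝ) ∧
    inner ℝ w z = (-1 : ℝ) := by
  refine ⟨-((det3 u v w)⁻¹ • (cross3 w u + cross3 u v)), ?_, ?_, ?_⟩
  · have h1 : inner ℝ u (cross3 w u) = (0 : ℝ) := by
      rw [real_inner_comm]; exact H47A.cross3_self_right _ _
    have h2 : inner ℝ u (cross3 u v) = (0 : ℝ) := by
      rw [real_inner_comm]; exact H47A.cross3_self_left _ _
    rw [inner_neg_right, inner_smul_right, inner_add_right, h1, h2]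
    ring
  · have h1 : inner ℝ v (cross3 w u) = det3 u v w := by
      rw [real_inner_comm, ← H47A.det3_rot w u v]; rfl
    have h2 : inner ℝ v (cross3 u v) = (0 : ℝ) := by
      rw [real_inner_comm]; exact H47A.cross3_self_right _ _
    rw [inner_neg_right, inner_smul_right, inner_add_right, h1, h2, add_zero, inv_mul_cancel₀ hD]
  · have h1 : inner ℝ w (cross3 w u) = (0 : ℝ) := by
      rw [real_inner_comm]; exact H47A.cross3_self_left _ _
    have h2 : inner ℝ w (cross3 u v) = det3 u v w := by
      rw [real_inner_comm]; rfl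
    rw [inner_neg_right, inner_smul_right, inner_add_right, h1, h2, zero_add, inv_mul_cancel₀ hD]

theorem p03_tendsto (x w : E3) : Tendsto (fun t : ℝ => x + t • w) (𝓝[>] 0) (𝓝 x) := by
  have h1 : Continuous (fun t : ℝ => x + t • w) := by fun_prop
  have h2 := h1.tendsto 0
  simp only [zero_smul, add_zero] at h2
  exact h2.mono_left nhdsWithin_le_nhds

theorem Gn.interior_dir (h : Gn n) {x : E3} {a : A} (hx : x ∈ Fc n a) :
    ∃ w : E3, inner ℝ (n a) w = (0 : ℝ) ∧ ∀ᶠ t in 𝓝[>] (0 : ℝ), At n (x + t • w) {a} := by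
  obtain ⟨b, c, hab, hbc, hac, hd⟩ := p03_abc h hx
  obtain ⟨w, hwa, hwb, hwc⟩ := p03_dir (h.three a b c hab hbc hac)
  refine ⟨w, hwa, ?_⟩
  have h3 : ∀ d, d ∉ ({a, b, c} : Finset A) → lf n d x < 1 := by
    intro d hdn
    apply lt_of_le_of_ne (hx.1 d)
    intro h4
    apply hdn
    have := hd d h4
    simpa using this
  filter_upwards [(p03_tendsto x w).eventually (near_lt x {a, b, c} h3), self_mem_nhdsWithin] with t ht ht0
  have ht0' : (0 : ℝ) < t := ht0
  have ha1 : lf n a (x + t • w) = 1 := by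
    rw [lf_add, lf_smul, hx.2]
    have : lf n a w = 0 := hwa
    rw [this, mul_zero, add_zero]
  have key : ∀ d, d ≠ a → lf n d (x + t • w) < 1 := by
    intro d hda
    by_cases hdm : d ∈ ({a, b, c} : Finset A)
    · have h5 : d = a ∨ d = b ∨ d = c := by simpa using hdm
      have h6 : lf n d w = -1 := by
        rcases h5 with h5 | h5 | h5
        · exact absurd h5 hda
        · rw [h5]; exact hwb
        · rw [h5]; exact hwc
      rw [lf_add, lf_smul, h6]
      have := hx.1 d
      linarith
    · exact ht d hdm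
  rw [At.iff]
  refine ⟨fun d => ?_, fun d => ?_⟩
  · by_cases hda : d = a
    · rw [hda]; exact ha1.le
    · exact (key d hda).le
  · rw [Finset.mem_singleton]
    constructor
    · intro hda
      rw [hda]; exact ha1
    · intro h7
      by_contra hda
      exact absurd h7 (key d hda).ne

theorem Gn.exists_interior (h : Gn n) {x : E3} {a : A} (hx : x ∈ Fc n a) : ∃ y, At n y {a} := by
  obtain ⟨w, -, hw⟩ := h.interior_dir hx
  obtain ⟨t, ht⟩ := hw.exists
  exact ⟨_, ht⟩

theorem segment_interior {x y : E3} {a : A} (hx : x ∈ Fc n a) (hy : At n y {a}) {t : ℝ} (ht : 0 < t) (ht1 : t ≤ 1) :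
    At n (AffineMap.lineMap x y t) {a} := by
  have ha1 : lf n a (AffineMap.lineMap x y t) = 1 := by
    rw [lf_line, hx.2, (hy.mem (Finset.mem_singleton_self a)).2]
    ring
  have key : ∀ d, d ≠ a → lf n d (AffineMap.lineMap x y t) < 1 := by
    intro d hda
    rw [lf_line]
    have h1 := hx.1 d
    have h2 : lf n d y < 1 := hy.lt (by simpa using hda)
    nlinarith [mul_le_mul_of_nonneg_left h1 (by linarith : (0 : ℝ) ≤ 1 - t), mul_lt_mul_of_pos_left h2 ht]
  rw [At.iff]
  refine ⟨fun d => ?_, fun d => ?_⟩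
  · by_cases hda : d = a
    · rw [hda]; exact ha1.le
    · exact (key d hda).le
  · rw [Finset.mem_singleton]
    constructor
    · intro hda
      rw [hda]; exact ha1
    · intro h7
      by_contra hda
      exact absurd h7 (key d hda).ne

theorem Gn.mem_closure_interior (h : Gn n) {x : E3} {a : A} (hx : x ∈ Fc n a) : x ∈ closure {y | At n y {a}} := by
  obtain ⟨w, -, hw⟩ := h.interior_dir hx
  exact mem_closure_of_tendsto (p03_tendsto x w) hw


end ALX
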