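import Pool.Agent.Lib.ALX.P01
import Pool.Agent.Lib.ALX.P04

/-!
# ALX, chunk P05 (M): the cone of a facet at a vertex

PROOF: `inner (n c) (ed n a b c) = -(det3 (n a) (n b) (n c))^2`, the other two inner products are zero (H47A.det3, det3_rot, det3_swap, det3_self, cross3_self_left/right). `ed_symm`:
H47A.cross3_swap, det3_swap.
`cone`: `l = -inner (n c) (x - v) / det^2`, `m = -inner (n b) (x - v) / det^2`; the difference of the two sides is orthogonal to `n a, n b, n c`, hence zero
(Pool.Agent.H47F.eq_zero_of_ker or H47A.cramer).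
`cone_conv`: `lf b (v + t • (..)) = 1 - t * m * det^2`, `lf c (..) = 1 - t * l * det^2`, all other functionals are smaller than 1 near `v`.
-/

open Real MeasureTheory Filter Topology

namespace ALX

open H47A (E3 cross3 det3 pl)

variable {A : Type} [Fintype A] [DecidableEq A] {n : A → E3}

theorem p05_det (u v w : E3) : inner ℝ w (cross3 u v) = det3 u v w := by
  rw [real_inner_comm]
  rfl

theorem p05_zero {u v w x : E3} (h : det3 u v w ≠ 0) (ha : inner ℝ u x = (0 : ℝ)) (hb : inner ℝ v x = (0 : ℝ))
    (hc : inner ℝ w x = (0 : ℝ)) : x = 0 := by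
  have := H47A.cramer u v w x
  rw [ha, hb, hc, zero_smul, zero_smul, zero_smul, add_zero, add_zero] at this
  exact (smul_eq_zero.1 this).resolve_left h

theorem ed_inner (a b c : A) : inner ℝ (n a) (ed n a b c) = (0 : ℝ) ∧ inner ℝ (n b) (ed n a b c) = (0 : ℝ) ∧
    inner ℝ (n c) (ed n a b c) = -(det3 (n a) (n b) (n c)) ^ 2 := by
  unfold ed
  refine ⟨?_, ?_, ?_⟩
  · rw [inner_smul_right, p05_det, (H47A.det3_self (n a) (n b)).1, mul_zero]
  · rw [inner_smul_right, p05_det, (H47A.det3_self (n a) (n b)).2.1, mul_zero]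
  · rw [inner_smul_right, p05_det]
    ring

theorem ed_symm (a b c : A) : ed n b a c = ed n a b c := by
  unfold ed
  rw [H47A.cross3_swap (n a) (n b), H47A.det3_swap (n a) (n b) (n c)]
  simp

theorem ed_ne (h : Gn n) {a b c : A} (hab : a ≠ b) (hbc : b ≠ c) (hac : a ≠ c) : ed n a b c ≠ 0 := by
  intro h0
  have h1 := (ed_inner (n := n) a b c).2.2
  rw [h0, inner_zero_right] at h1
  have h2 := h.three a b c hab hbc hac
  have h3 : 0 < (det3 (n a) (n b) (n c)) ^ 2 := by positivity
  linarith

theorem p05_dets (a b c : A) : (det3 (n a) (n c) (n b)) ^ 2 = (det3 (n a) (n b) (n c)) ^ 2 := by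
  have h1 : det3 (n a) (n c) (n b) = -det3 (n a) (n b) (n c) := by
    rw [H47A.det3_rot (n a) (n c) (n b), H47A.det3_swap (n b) (n c) (n a), ← H47A.det3_rot (n a) (n b) (n c)]
  rw [h1]
  ring

theorem p05_lf (a b c : A) (v : E3) (l m t : ℝ) :
    lf n a (v + t • (l • ed n a b c + m • ed n a c b)) = lf n a v ∧
    lf n b (v + t • (l • ed n a b c + m • ed n a c b)) = lf n b v - t * m * (det3 (n a) (n b) (n c)) ^ 2 ∧
    lf n c (v + t • (l • ed n a b c + m • ed n a c b)) = lf n c v - t * l * (det3 (n a) (n b) (n c)) ^ 2 := by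
  obtain ⟨h1, h2, h3⟩ := ed_inner (n := n) a b c
  obtain ⟨g1, g2, g3⟩ := ed_inner (n := n) a c b
  rw [p05_dets] at g3
  have e : ∀ d : A, lf n d (v + t • (l • ed n a b c + m • ed n a c b)) =
      lf n d v + t * (l * inner ℝ (n d) (ed n a b c) + m * inner ℝ (n d) (ed n a c b)) := by
    intro d
    rw [lf_add, lf_smul, lf_add, lf_smul, lf_smul]
    rfl
  refine ⟨?_, ?_, ?_⟩
  · rw [e, h1, g1]
    ring
  · rw [e, h2, g3]
    ring
  · rw [e, h3, g2]
    ring

theorem cone (h : Gn n) {a b c : A} (hab : a ≠ b) (hbc : b ≠ c) (hac : a ≠ c) {v x : E3} (hv : At n v {a, b, c}) (hx : x ∈ Fc n a) :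
    ∃ l m : ℝ, 0 ≤ l ∧ 0 ≤ m ∧ x - v = l • ed n a b c + m • ed n a c b := by
  have hd := h.three a b c hab hbc hac
  have hD : 0 < (det3 (n a) (n b) (n c)) ^ 2 := by positivity
  have va : lf n a v = 1 := (hv.mem (by simp : a ∈ ({a, b, c} : Finset A))).2
  have vb : lf n b v = 1 := (hv.mem (by simp : b ∈ ({a, b, c} : Finset A))).2
  have vc : lf n c v = 1 := (hv.mem (by simp : c ∈ ({a, b, c} : Finset A))).2
  have xb : lf n b x ≤ 1 := hx.1 b
  have xc : lf n c x ≤ 1 := hx.1 c
  have xa : lf n a x = 1 := hx.2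
  set D := (det3 (n a) (n b) (n c)) ^ 2 with hDD
  refine ⟨(1 - lf n c x) / D, (1 - lf n b x) / D, div_nonneg (by linarith) hD.le, div_nonneg (by linarith) hD.le, ?_⟩
  obtain ⟨k1, k2, k3⟩ := p05_lf (n := n) a b c v ((1 - lf n c x) / D) ((1 - lf n b x) / D) 1
  rw [← hDD] at k2 k3
  rw [one_smul] at k1 k2 k3
  have k2' : lf n b (v + (((1 - lf n c x) / D) • ed n a b c + ((1 - lf n b x) / D) • ed n a c b)) = lf n b x := by
    rw [k2, vb]
    field_simp
    ring
  have k3' : lf n c (v + (((1 - lf n c x) / D) • ed n a b c + ((1 - lf n b x) / D) • ed n a c b)) = lf n c x := by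
    rw [k3, vc]
    field_simp
    ring
  have k1' : lf n a (v + (((1 - lf n c x) / D) • ed n a b c + ((1 - lf n b x) / D) • ed n a c b)) = lf n a x := by
    rw [k1, va, xa]
  have key : x - (v + (((1 - lf n c x) / D) • ed n a b c + ((1 - lf n b x) / D) • ed n a c b)) = 0 := by
    refine p05_zero hd ?_ ?_ ?_
    · have := lf_sub (n := n) a x (v + (((1 - lf n c x) / D) • ed n a b c + ((1 - lf n b x) / D) • ed n a c b))
      rw [k1', sub_self] at this
      exact this
    · have := lf_sub (n := n) b x (v + (((1 - lf n c x) / D) • ed n a b c + ((1 - lf n b x) / D) • ed n a c b))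
      rw [k2', sub_self] at this
      exact this
    · have := lf_sub (n := n) c x (v + (((1 - lf n c x) / D) • ed n a b c + ((1 - lf n b x) / D) • ed n a c b))
      rw [k3', sub_self] at this
      exact this
  rw [sub_eq_zero] at key
  rw [sub_eq_iff_eq_add, add_comm]
  exact key

theorem cone_conv (h : Gn n) {a b c : A} (hab : a ≠ b) (hbc : b ≠ c) (hac : a ≠ c) {v : E3} (hv : At n v {a, b, c}) {l m : ℝ}
    (hl : 0 ≤ l) (hm : 0 ≤ m) : ∀ᶠ t in 𝓝[>] (0 : ℝ), v + t • (l • ed n a b c + m • ed n a c b) ∈ Fc n a ∧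
      (0 < l → 0 < m → At n (v + t • (l • ed n a b c + m • ed n a c b)) {a}) ∧
      (0 < l → m = 0 → At n (v + t • (l • ed n a b c + m • ed n a c b)) {a, b}) := by
  have hd := h.three a b c hab hbc hac
  have hD : 0 < (det3 (n a) (n b) (n c)) ^ 2 := by positivity
  have va : lf n a v = 1 := (hv.mem (by simp : a ∈ ({a, b, c} : Finset A))).2
  have vb : lf n b v = 1 := (hv.mem (by simp : b ∈ ({a, b, c} : Finset A))).2
  have vc : lf n c v = 1 := (hv.mem (by simp : c ∈ ({a, b, c} : Finset A))).2
  have h1 := near_lt (n := n) v {a, b, c} (fun b' hb' => hv.lt hb')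
  have hcont : Continuous fun t : ℝ => v + t • (l • ed n a b c + m • ed n a c b) := by fun_prop
  have hlim : Tendsto (fun t : ℝ => v + t • (l • ed n a b c + m • ed n a c b)) (𝓝[>] (0 : ℝ)) (𝓝 v) := by
    have := hcont.tendsto 0
    simp only [zero_smul, add_zero] at this
    exact this.mono_left nhdsWithin_le_nhds
  filter_upwards [hlim.eventually h1, self_mem_nhdsWithin] with t ht htp
  have htp' : 0 < t := htp
  obtain ⟨k1, k2, k3⟩ := p05_lf (n := n) a b c v l m t
  rw [va] at k1
  rw [vb] at k2
  rw [vc] at k3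
  have hle : v + t • (l • ed n a b c + m • ed n a c b) ∈ Pt n := by
    intro d
    by_cases hd' : d ∈ ({a, b, c} : Finset A)
    · simp only [Finset.mem_insert, Finset.mem_singleton] at hd'
      rcases hd' with rfl | rfl | rfl
      · exact k1.le
      · rw [k2]
        have : 0 ≤ t * m * (det3 (n a) (n d) (n c)) ^ 2 := by positivity
        linarith
      · rw [k3]
        have : 0 ≤ t * l * (det3 (n a) (n b) (n d)) ^ 2 := by positivity
        linarith
    · exact (ht d hd').le
  refine ⟨⟨hle, k1⟩, ?_, ?_⟩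
  · intro hl' hm'
    have k2' : lf n b (v + t • (l • ed n a b c + m • ed n a c b)) < 1 := by
      rw [k2]
      have : 0 < t * m * (det3 (n a) (n b) (n c)) ^ 2 := by positivity
      linarith
    have k3' : lf n c (v + t • (l • ed n a b c + m • ed n a c b)) < 1 := by
      rw [k3]
      have : 0 < t * l * (det3 (n a) (n b) (n c)) ^ 2 := by positivity
      linarith
    refine At.iff.2 ⟨hle, fun d => ?_⟩
    rw [Finset.mem_singleton]
    constructor
    · rintro rfl
      exact k1
    · intro hd'
      by_contra hne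
      by_cases hd2 : d ∈ ({a, b, c} : Finset A)
      · simp only [Finset.mem_insert, Finset.mem_singleton] at hd2
        rcases hd2 with rfl | rfl | rfl
        · exact hne rfl
        · linarith
        · linarith
      · have := ht d hd2
        linarith
  · intro hl' hm'
    have k2' : lf n b (v + t • (l • ed n a b c + m • ed n a c b)) = 1 := by
      rw [k2, hm']
      ring
    have k3' : lf n c (v + t • (l • ed n a b c + m • ed n a c b)) < 1 := by
      rw [k3]
      have : 0 < t * l * (det3 (n a) (n b) (n c)) ^ 2 := by positivity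
      linarith
    refine At.iff.2 ⟨hle, fun d => ?_⟩
    rw [Finset.mem_insert, Finset.mem_singleton]
    constructor
    · rintro (rfl | rfl)
      · exact k1
      · exact k2'
    · intro hd'
      by_contra hne
      push Not at hne
      by_cases hd2 : d ∈ ({a, b, c} : Finset A)
      · simp only [Finset.mem_insert, Finset.mem_singleton] at hd2
        rcases hd2 with rfl | rfl | rfl
        · exact hne.1 rfl
        · exact hne.2 rfl
        · linarith
      · have := ht d hd2
        linarith


end ALX
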