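import Pool.Agent.Lib.ALX.Api0

/-!
# ALX, chunk P06 (M): rotation about an axis

PROOF: `(t, ν, cross3 ν t)` and `(t, ν', cross3 ν' t)` are orthonormal bases with the same orientation (`cross3 t ν = -cross3 ν t`, `cross3 ν (cross3 ν t) = -t`, ...). `R` = the linear
isometry which maps the first to the second (OrthonormalBasis.equiv, or LinearIsometry.toLinearIsometryEquiv of the explicit map
`R x = (inner t x) • t + (inner ν x) • ν' + (inner (cross3 ν t) x) • cross3 ν' t`, which preserves the norm by H47A.frame_norm-like identities). Compatibility with cross3: both sides are bilinear,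
check on the basis; or: expand `u` and `v` in the basis and compute.
-/

open Real MeasureTheory Filter Topology

namespace ALX

open H47A (E3 cross3 det3 pl)

variable {A : Type} [Fintype A] [DecidableEq A] {n : A → E3}

theorem p06_cross {t ν : E3} (ht : ‖t‖ = 1) (hν : ‖ν‖ = 1) (h : inner ℝ t ν = (0 : ℝ)) :
    cross3 ν (cross3 t ν) = t ∧ cross3 (cross3 t ν) t = ν := by
  have h1 := H47A.evec_norm t
  have h2 := H47A.evec_norm ν
  rw [ht] at h1
  rw [hν] at h2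
  rw [H47A.inner3] at h
  constructor
  · refine H47A.evec_ext ?_ ?_ ?_
    · rw [H47A.evec_c0, H47A.evec_c1, H47A.evec_c2]
      linear_combination -(t 0) * h2 - ν 0 * h
    · rw [H47A.evec_c1, H47A.evec_c0, H47A.evec_c2]
      linear_combination -(t 1) * h2 - ν 1 * h
    · rw [H47A.evec_c2, H47A.evec_c0, H47A.evec_c1]
      linear_combination -(t 2) * h2 - ν 2 * h
  · refine H47A.evec_ext ?_ ?_ ?_
    · rw [H47A.evec_c0, H47A.evec_c1, H47A.evec_c2]
      linear_combination -(ν 0) * h1 - t 0 * h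
    · rw [H47A.evec_c1, H47A.evec_c0, H47A.evec_c2]
      linear_combination -(ν 1) * h1 - t 1 * h
    · rw [H47A.evec_c2, H47A.evec_c0, H47A.evec_c1]
      linear_combination -(ν 2) * h1 - t 2 * h

/-- The cross product in a positively oriented orthonormal frame. -/
theorem p06_bilin {e1 e2 e3 : E3} (h12 : cross3 e1 e2 = e3) (h23 : cross3 e2 e3 = e1) (h31 : cross3 e3 e1 = e2)
    (a1 a2 a3 b1 b2 b3 : ℝ) :
    cross3 (a1 • e1 + a2 • e2 + a3 • e3) (b1 • e1 + b2 • e2 + b3 • e3) =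
      (a2 * b3 - a3 * b2) • e1 + (a3 * b1 - a1 * b3) • e2 + (a1 * b2 - a2 * b1) • e3 := by
  have k0 := fun {u v w : E3} (h : cross3 u v = w) => congrArg (fun z : E3 => z 0) h
  have k1 := fun {u v w : E3} (h : cross3 u v = w) => congrArg (fun z : E3 => z 1) h
  have k2 := fun {u v w : E3} (h : cross3 u v = w) => congrArg (fun z : E3 => z 2) h
  have p0 := k0 h12
  have p1 := k1 h12
  have p2 := k2 h12
  have q0 := k0 h23
  have q1 := k1 h23
  have q2 := k2 h23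
  have r0 := k0 h31
  have r1 := k1 h31
  have r2 := k2 h31
  beta_reduce at p0 p1 p2 q0 q1 q2 r0 r1 r2
  rw [H47A.evec_c0] at p0 q0 r0
  rw [H47A.evec_c1] at p1 q1 r1
  rw [H47A.evec_c2] at p2 q2 r2
  refine H47A.evec_ext ?_ ?_ ?_
  · rw [H47A.evec_c0]
    simp only [PiLp.add_apply, PiLp.smul_apply, smul_eq_mul]
    linear_combination (a1 * b2 - a2 * b1) * p0 + (a2 * b3 - a3 * b2) * q0 + (a3 * b1 - a1 * b3) * r0
  · rw [H47A.evec_c1]
    simp only [PiLp.add_apply, PiLp.smul_apply, smul_eq_mul]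
    linear_combination (a1 * b2 - a2 * b1) * p1 + (a2 * b3 - a3 * b2) * q1 + (a3 * b1 - a1 * b3) * r1
  · rw [H47A.evec_c2]
    simp only [PiLp.add_apply, PiLp.smul_apply, smul_eq_mul]
    linear_combination (a1 * b2 - a2 * b1) * p2 + (a2 * b3 - a3 * b2) * q2 + (a3 * b1 - a1 * b3) * r2

theorem p06_nc {t ν : E3} (ht : ‖t‖ = 1) (hν : ‖ν‖ = 1) (h : inner ℝ t ν = (0 : ℝ)) : ‖cross3 t ν‖ = 1 := by
  have h1 := H47A.cross3_norm t ν
  rw [ht, hν, h] at h1
  have h2 : ‖cross3 t ν‖ ^ 2 = 1 := by rw [h1]; norm_num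
  nlinarith [norm_nonneg (cross3 t ν)]

/-- The inner products of the frame. -/
theorem p06_sq {t ν : E3} (ht : ‖t‖ = 1) (hν : ‖ν‖ = 1) (h : inner ℝ t ν = (0 : ℝ)) (a b c : ℝ) :
    ‖a • t + b • ν + c • cross3 t ν‖ ^ 2 = a ^ 2 + b ^ 2 + c ^ 2 := by
  have h1 : inner ℝ t t = (1 : ℝ) := by rw [real_inner_self_eq_norm_sq, ht]; norm_num
  have h2 : inner ℝ ν ν = (1 : ℝ) := by rw [real_inner_self_eq_norm_sq, hν]; norm_num
  have h3 : inner ℝ (cross3 t ν) (cross3 t ν) = (1 : ℝ) := by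
    rw [real_inner_self_eq_norm_sq, p06_nc ht hν h]; norm_num
  have h4 : inner ℝ (cross3 t ν) t = (0 : ℝ) := H47A.cross3_self_left t ν
  have h5 : inner ℝ (cross3 t ν) ν = (0 : ℝ) := H47A.cross3_self_right t ν
  have h6 : inner ℝ ν t = (0 : ℝ) := by rw [real_inner_comm]; exact h
  have h7 : inner ℝ t (cross3 t ν) = (0 : ℝ) := by rw [real_inner_comm]; exact h4
  have h8 : inner ℝ ν (cross3 t ν) = (0 : ℝ) := by rw [real_inner_comm]; exact h5
  rw [← real_inner_self_eq_norm_sq]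
  simp only [inner_add_left, inner_add_right, inner_smul_left, inner_smul_right, h, h1, h2, h3, h4, h5, h6, h7, h8,
    conj_trivial]
  ring

theorem p06_exp {t ν : E3} (ht : ‖t‖ = 1) (hν : ‖ν‖ = 1) (h : inner ℝ t ν = (0 : ℝ)) (x : E3) :
    x = (inner ℝ t x : ℝ) • t + (inner ℝ ν x : ℝ) • ν + (inner ℝ (cross3 t ν) x : ℝ) • cross3 t ν := by
  have hd : det3 t ν (cross3 t ν) ≠ 0 := by
    rw [H47A.evec_det, p06_nc ht hν h]
    norm_num
  obtain ⟨a, b, c, rfl⟩ := H47A.comb3 hd x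
  have h1 : inner ℝ t t = (1 : ℝ) := by rw [real_inner_self_eq_norm_sq, ht]; norm_num
  have h2 : inner ℝ ν ν = (1 : ℝ) := by rw [real_inner_self_eq_norm_sq, hν]; norm_num
  have h3 : inner ℝ (cross3 t ν) (cross3 t ν) = (1 : ℝ) := by
    rw [real_inner_self_eq_norm_sq, p06_nc ht hν h]; norm_num
  have h4 : inner ℝ (cross3 t ν) t = (0 : ℝ) := H47A.cross3_self_left t ν
  have h5 : inner ℝ (cross3 t ν) ν = (0 : ℝ) := H47A.cross3_self_right t ν
  have h6 : inner ℝ ν t = (0 : ℝ) := by rw [real_inner_comm]; exact h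
  have h7 : inner ℝ t (cross3 t ν) = (0 : ℝ) := by rw [real_inner_comm]; exact h4
  have h8 : inner ℝ ν (cross3 t ν) = (0 : ℝ) := by rw [real_inner_comm]; exact h5
  simp only [inner_add_right, inner_smul_right, h, h1, h2, h3, h4, h5, h6, h7, h8, mul_zero, mul_one, add_zero,
    zero_add]

theorem rot_exists {t ν ν' : E3} (ht : ‖t‖ = 1) (hν : ‖ν‖ = 1) (hν' : ‖ν'‖ = 1) (h : inner ℝ t ν = (0 : ℝ)) (h' : inner ℝ t ν' = (0 : ℝ)) :
    ∃ R : E3 ≃ₗᵢ[ℝ] E3, R t = t ∧ R ν = ν' ∧ ∀ u v, R (cross3 u v) = cross3 (R u) (R v) := by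
  let L : E3 →ₗ[ℝ] E3 :=
    { toFun := fun x => (inner ℝ t x : ℝ) • t + (inner ℝ ν x : ℝ) • ν' + (inner ℝ (cross3 t ν) x : ℝ) • cross3 t ν'
      map_add' := fun x y => by
        simp only [inner_add_right, add_smul]
        abel
      map_smul' := fun r x => by
        simp only [inner_smul_right, mul_smul, smul_add, RingHom.id_apply] }
  have hL : ∀ x, L x = (inner ℝ t x : ℝ) • t + (inner ℝ ν x : ℝ) • ν' + (inner ℝ (cross3 t ν) x : ℝ) • cross3 t ν' :=
    fun _ => rfl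
  have hLn : ∀ x, ‖L x‖ = ‖x‖ := by
    intro x
    have h1 : ‖L x‖ ^ 2 = ‖x‖ ^ 2 := by
      conv_rhs => rw [p06_exp ht hν h x]
      rw [hL, p06_sq ht hν' h', p06_sq ht hν h]
    exact (sq_eq_sq₀ (norm_nonneg _) (norm_nonneg _)).1 h1
  let I : E3 →ₗᵢ[ℝ] E3 := ⟨L, hLn⟩
  let R : E3 ≃ₗᵢ[ℝ] E3 := I.toLinearIsometryEquiv rfl
  have hR : ∀ x, R x = (inner ℝ t x : ℝ) • t + (inner ℝ ν x : ℝ) • ν' + (inner ℝ (cross3 t ν) x : ℝ) • cross3 t ν' :=
    fun x => hL x
  have h1 : inner ℝ t t = (1 : ℝ) := by rw [real_inner_self_eq_norm_sq, ht]; norm_num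
  have h2 : inner ℝ ν ν = (1 : ℝ) := by rw [real_inner_self_eq_norm_sq, hν]; norm_num
  have h4 : inner ℝ (cross3 t ν) t = (0 : ℝ) := H47A.cross3_self_left t ν
  have h5 : inner ℝ (cross3 t ν) ν = (0 : ℝ) := H47A.cross3_self_right t ν
  have h6 : inner ℝ ν t = (0 : ℝ) := by rw [real_inner_comm]; exact h
  refine ⟨R, ?_, ?_, ?_⟩
  · rw [hR, h1, h6, h4, one_smul, zero_smul, zero_smul, add_zero, add_zero]
  · rw [hR, h, h2, h5, one_smul, zero_smul, zero_smul, zero_add, add_zero]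
  · intro u v
    obtain ⟨c1, c2⟩ := p06_cross ht hν h
    obtain ⟨d1, d2⟩ := p06_cross ht hν' h'
    have e1 := p06_bilin (e1 := t) (e2 := ν) (e3 := cross3 t ν) rfl c1 c2
      (inner ℝ t u) (inner ℝ ν u) (inner ℝ (cross3 t ν) u) (inner ℝ t v) (inner ℝ ν v) (inner ℝ (cross3 t ν) v)
    rw [← p06_exp ht hν h u, ← p06_exp ht hν h v] at e1
    have e2 := p06_bilin (e1 := t) (e2 := ν') (e3 := cross3 t ν') rfl d1 d2
      (inner ℝ t u) (inner ℝ ν u) (inner ℝ (cross3 t ν) u) (inner ℝ t v) (inner ℝ ν v) (inner ℝ (cross3 t ν) v)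
    have h3 : inner ℝ (cross3 t ν) (cross3 t ν) = (1 : ℝ) := by
      rw [real_inner_self_eq_norm_sq, p06_nc ht hν h]; norm_num
    have h7 : inner ℝ t (cross3 t ν) = (0 : ℝ) := by rw [real_inner_comm]; exact h4
    have h8 : inner ℝ ν (cross3 t ν) = (0 : ℝ) := by rw [real_inner_comm]; exact h5
    rw [hR u, hR v, e2, hR, e1]
    simp only [inner_add_right, inner_smul_right, h, h1, h2, h3, h4, h5, h6, h7, h8, mul_zero, mul_one, add_zero,
      zero_add]


end ALX
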