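import Pool.Agent.Lib.ALX.P02
import Pool.Agent.Lib.ALX.P06

/-!
# ALX, chunk P07 (M): existence of the hinge

PROOF: `t` = the unit vector of `cross3 (n a) (n b)` (`Gn.cross`), `R` from P06 with `ν = nu n b`, `ν' = nu n a`; `p` a common point of the two planes (H47A.two_planes);
`ρ x = R (x - p) + p` (AffineIsometryEquiv.mk'). `fix`: if `lf a x = lf b x = 1` then `x - p` is orthogonal to `n a`, `n b`, hence a multiple of `cross3 (n a) (n b)` (H47A.perp_two), which `R` fixes.
For `a = b` the identity is a hinge.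
-/

open Real MeasureTheory Filter Topology

namespace ALX

open H47A (E3 cross3 det3 pl)

variable {A : Type} [Fintype A] [DecidableEq A] {n : A → E3}

theorem hinge_exists (h : Gn n) (a b : A) : ∃ ρ, IsHinge n a b ρ := by
  by_cases hab : a = b
  · subst hab
    refine ⟨AffineIsometryEquiv.refl ℝ E3, ⟨fun x _ _ => rfl, rfl, fun u v => rfl⟩⟩
  · have hT := h.cross hab
    have hT1 : 0 < ‖cross3 (n a) (n b)‖ := norm_pos_iff.2 hT
    have ht : ‖(‖cross3 (n a) (n b)‖⁻¹ • cross3 (n a) (n b) : E3)‖ = 1 := by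
      rw [norm_smul, norm_inv, norm_norm, inv_mul_cancel₀ hT1.ne']
    have h1 : inner ℝ (‖cross3 (n a) (n b)‖⁻¹ • cross3 (n a) (n b) : E3) (nu n b) = (0 : ℝ) := by
      unfold nu
      rw [real_inner_smul_left, real_inner_smul_right, H47A.cross3_self_right]
      simp
    have h2 : inner ℝ (‖cross3 (n a) (n b)‖⁻¹ • cross3 (n a) (n b) : E3) (nu n a) = (0 : ℝ) := by
      unfold nu
      rw [real_inner_smul_left, real_inner_smul_right, H47A.cross3_self_left]
      simp
    obtain ⟨R, hR1, hR2, hR3⟩ := rot_exists ht (nu_norm h b) (nu_norm h a) h1 h2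
    obtain ⟨p, hp1, hp2⟩ := H47A.two_planes hT
    have hRT : R (cross3 (n a) (n b)) = cross3 (n a) (n b) := by
      have h3 : cross3 (n a) (n b) = ‖cross3 (n a) (n b)‖ • (‖cross3 (n a) (n b)‖⁻¹ • cross3 (n a) (n b) : E3) := by
        rw [smul_smul, mul_inv_cancel₀ hT1.ne', one_smul]
      calc R (cross3 (n a) (n b)) = R (‖cross3 (n a) (n b)‖ • (‖cross3 (n a) (n b)‖⁻¹ • cross3 (n a) (n b) : E3)) := by
            rw [← h3]
        _ = ‖cross3 (n a) (n b)‖ • R (‖cross3 (n a) (n b)‖⁻¹ • cross3 (n a) (n b) : E3) := R.map_smul _ _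
        _ = cross3 (n a) (n b) := by rw [hR1, ← h3]
    refine ⟨AffineIsometryEquiv.mk' (fun x => R (x -ᵥ p) +ᵥ p) R p (fun x => by simp), ?_⟩
    refine ⟨fun x hx1 hx2 => ?_, ?_, ?_⟩
    · have h4 : inner ℝ (n a) (x - p) = 0 := by
        rw [inner_sub_right, hp1]
        have : inner ℝ (n a) x = (1 : ℝ) := hx1
        rw [this, sub_self]
      have h5 : inner ℝ (n b) (x - p) = 0 := by
        rw [inner_sub_right, hp2]
        have : inner ℝ (n b) x = (1 : ℝ) := hx2
        rw [this, sub_self]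
      obtain ⟨c, h6⟩ := H47A.perp_two hT h4 h5
      have h7 : R (x - p) = x - p := by
        rw [h6, R.map_smul, hRT]
      simp only [AffineIsometryEquiv.coe_mk']
      rw [vsub_eq_sub, h7, vadd_eq_add, sub_add_cancel]
    · rw [AffineIsometryEquiv.linearIsometryEquiv_mk']
      exact hR2
    · intro u v
      rw [AffineIsometryEquiv.linearIsometryEquiv_mk']
      exact hR3 u v


end ALX
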