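import Pool.Agent.Lib.ALX.P02

/-!
# ALX, chunk P08 (M): uniqueness of the hinge

PROOF: the linear parts `R, R'` agree on `t = cross3 (n a) (n b)` (take two points `p, p + t` of the line: H47A.two_planes), on `nu n b` and on `cross3 (nu n b) t` (by `ori`); these three vectors
form a basis (H47A.comb3, the determinant is not zero). So `R = R'`, and `ρ p = p = ρ' p` gives `ρ = ρ'` (AffineIsometryEquiv.ext; `ρ x = R (x - p) + ρ p`, AffineIsometryEquiv.map_vsub).
`rho_spec`: `Exists.choose_spec` with P07 (dif_pos). `rho_symm`: the inverse of a hinge `a b` is a hinge `b a`.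
-/

open Real MeasureTheory Filter Topology

namespace ALX

open H47A (E3 cross3 det3 pl)

variable {A : Type} [Fintype A] [DecidableEq A] {n : A → E3}

theorem p08_lin (h : Gn n) {a b : A} (hab : a ≠ b) {ρ : E3 ≃ᵃⁱ[ℝ] E3} (h1 : IsHinge n a b ρ) {p : E3} (hp1 : lf n a p = 1) (hp2 : lf n b p = 1) :
    ρ.linearIsometryEquiv (cross3 (n a) (n b)) = cross3 (n a) (n b) := by
  have e1 : ρ p = p := h1.fix p hp1 hp2
  have e2 : ρ (cross3 (n a) (n b) + p) = cross3 (n a) (n b) + p := by
    refine h1.fix _ ?_ ?_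
    · rw [lf_add, hp1]
      unfold lf
      rw [real_inner_comm, H47A.cross3_self_left, zero_add]
    · rw [lf_add, hp2]
      unfold lf
      rw [real_inner_comm, H47A.cross3_self_right, zero_add]
  have e3 := ρ.map_vadd p (cross3 (n a) (n b))
  rw [vadd_eq_add, vadd_eq_add, e1, e2] at e3
  exact (add_right_cancel e3).symm

theorem hinge_unique (h : Gn n) {a b : A} (hab : a ≠ b) {ρ ρ' : E3 ≃ᵃⁱ[ℝ] E3} (h1 : IsHinge n a b ρ) (h2 : IsHinge n a b ρ') : ρ = ρ' := by
  have hT := h.cross hab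
  obtain ⟨p, hp1, hp2⟩ := H47A.two_planes hT
  have a1 := p08_lin h hab h1 hp1 hp2
  have a2 := p08_lin h hab h2 hp1 hp2
  have b1 : ρ.linearIsometryEquiv (cross3 (nu n b) (cross3 (n a) (n b))) = ρ'.linearIsometryEquiv (cross3 (nu n b) (cross3 (n a) (n b))) := by
    rw [h1.ori, h2.ori, a1, a2, h1.nor, h2.nor]
  have hd : det3 (nu n b) (cross3 (n a) (n b)) (cross3 (nu n b) (cross3 (n a) (n b))) ≠ 0 := by
    rw [H47A.evec_det, H47A.cross3_norm, nu_norm h b]
    have : inner ℝ (nu n b) (cross3 (n a) (n b)) = (0 : ℝ) := by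
      unfold nu
      rw [real_inner_smul_left, real_inner_comm, H47A.cross3_self_right, mul_zero]
    rw [this]
    have := norm_pos_iff.2 hT
    have h3 : 0 < ‖cross3 (n a) (n b)‖ ^ 2 := by positivity
    intro h4
    nlinarith
  have hR : ρ.linearIsometryEquiv = ρ'.linearIsometryEquiv := by
    ext1 x
    obtain ⟨r, s, t, hx⟩ := H47A.comb3 hd x
    rw [hx]
    simp only [map_add, map_smul]
    rw [h1.nor, h2.nor, a1, a2, b1]
  have e1 : ρ p = p := h1.fix p hp1 hp2
  have e2 : ρ' p = p := h2.fix p hp1 hp2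
  ext1 x
  have e3 := ρ.map_vadd p (x - p)
  have e4 := ρ'.map_vadd p (x - p)
  rw [vadd_eq_add, vadd_eq_add, sub_add_cancel] at e3 e4
  rw [e3, e4, e1, e2, hR]

theorem hinge_symm {a b : A} {ρ : E3 ≃ᵃⁱ[ℝ] E3} (h1 : IsHinge n a b ρ) : IsHinge n b a ρ.symm := by
  have hl : ρ.symm.linearIsometryEquiv = ρ.linearIsometryEquiv.symm := rfl
  refine ⟨fun x hx1 hx2 => ?_, ?_, fun u v => ?_⟩
  · have := h1.fix x hx2 hx1
    rw [← this, ρ.symm_apply_apply, this]
  · rw [hl, ← h1.nor, LinearIsometryEquiv.symm_apply_apply]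
  · rw [hl]
    apply ρ.linearIsometryEquiv.injective
    rw [h1.ori, LinearIsometryEquiv.apply_symm_apply, LinearIsometryEquiv.apply_symm_apply, LinearIsometryEquiv.apply_symm_apply]


end ALX
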