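import Pool.Agent.Lib.ALX.P07
import Pool.Agent.Lib.ALX.P08

/-!
# ALX, chunk P09 (S/M): the hinge maps plane to plane

PROOF: `rho_spec` by P07 (`dif_pos`, `choose_spec`); `rho_symm` by P08. `rho_self`: a hinge for `a = b` fixes the plane pointwise and the normal, so its linear part is the identity.
`rho_plane`: with a point `p` on both planes (H47A.two_planes; for `a = b` trivial by rho_self), `lf b x = 1` iff `x - p` is orthogonal to `nu b` (P02 nu_sub), and
`rho x - p = R (x - p)`, `inner (nu a) (R w) = inner (R (nu b)) (R w) = inner (nu b) w`.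
`rho_dir`: the same for vectors.
-/

open Real MeasureTheory Filter Topology

namespace ALX

open H47A (E3 cross3 det3 pl)

variable {A : Type} [Fintype A] [DecidableEq A] {n : A → E3}

theorem rho_spec (h : Gn n) (a b : A) : IsHinge n a b (rho n a b) := by
  have h1 := hinge_exists h a b
  unfold rho
  rw [dif_pos h1]
  exact h1.choose_spec

theorem p09_lin (ρ : E3 ≃ᵃⁱ[ℝ] E3) (p x : E3) : ρ x = ρ.linearIsometryEquiv (x - p) + ρ p := by
  have h1 := ρ.map_vadd p (x - p)
  rw [vadd_eq_add, vadd_eq_add, sub_add_cancel] at h1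
  exact h1

theorem p09_self (h : Gn n) {a : A} {ρ : E3 ≃ᵃⁱ[ℝ] E3} (h1 : IsHinge n a a ρ) :
    ρ = AffineIsometryEquiv.refl ℝ E3 := by
  obtain ⟨p, hp⟩ : ∃ p : E3, lf n a p = 1 := by
    refine ⟨(‖n a‖ ^ 2)⁻¹ • n a, ?_⟩
    rw [lf_smul, lf, real_inner_self_eq_norm_sq]
    exact inv_mul_cancel₀ (pow_ne_zero 2 (norm_ne_zero_iff.mpr (h.ne a)))
  have h3 : ρ p = p := h1.fix _ hp hp
  have hfix : ∀ w, lf n a w = 0 → ρ.linearIsometryEquiv w = w := by
    intro w hw
    have h2 : ρ (p + w) = p + w := by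
      refine h1.fix _ ?_ ?_ <;> rw [lf_add, hp, hw, add_zero]
    rw [p09_lin ρ p (p + w), h3, add_sub_cancel_left, add_comm] at h2
    exact add_left_cancel h2
  have hR : ∀ w, ρ.linearIsometryEquiv w = w := by
    intro w
    have hd : w = (w - (inner ℝ (nu n a) w : ℝ) • nu n a) + (inner ℝ (nu n a) w : ℝ) • nu n a := by
      rw [sub_add_cancel]
    have h4 : lf n a (w - (inner ℝ (nu n a) w : ℝ) • nu n a) = 0 := by
      refine (nu_inner_zero h a _).1 ?_
      rw [inner_sub_right, inner_smul_right, real_inner_self_eq_norm_sq, nu_norm h a]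
      ring
    rw [hd, map_add, map_smul, h1.nor, hfix _ h4]
  ext1 x
  rw [p09_lin ρ p x, hR, h3, sub_add_cancel]
  rfl

theorem rho_symm (h : Gn n) (a b : A) : rho n b a = (rho n a b).symm := by
  by_cases hab : a = b
  · subst hab
    rw [p09_self h (rho_spec h a a)]
    rfl
  · exact hinge_unique h (Ne.symm hab) (rho_spec h b a) (hinge_symm (rho_spec h a b))

theorem rho_self (h : Gn n) (a : A) : rho n a a = AffineIsometryEquiv.refl ℝ E3 :=
  p09_self h (rho_spec h a a)

theorem p09_inner (h : Gn n) {a b : A} (w : E3) :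
    inner ℝ (nu n a) ((rho n a b).linearIsometryEquiv w) = (0 : ℝ) ↔ inner ℝ (nu n b) w = (0 : ℝ) := by
  rw [← (rho_spec h a b).nor, LinearIsometryEquiv.inner_map_map]

theorem rho_plane (h : Gn n) {a b : A} {x : E3} : lf n a (rho n a b x) = 1 ↔ lf n b x = 1 := by
  by_cases hab : a = b
  · subst hab
    rw [rho_self h a]
    exact Iff.rfl
  · obtain ⟨p, hpa, hpb⟩ := H47A.two_planes (h.cross hab)
    have hpf : rho n a b p = p := (rho_spec h a b).fix p hpa hpb
    rw [nu_sub h (x := p) hpa, nu_sub h (x := p) hpb, p09_lin (rho n a b) p x, hpf, add_sub_cancel_right]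
    exact p09_inner h _

theorem rho_dir (h : Gn n) {a b : A} {w : E3} :
    inner ℝ (n a) ((rho n a b).linearIsometryEquiv w) = (0 : ℝ) ↔ inner ℝ (n b) w = (0 : ℝ) := by
  rw [← nu_inner_zero h a, ← nu_inner_zero h b]
  exact p09_inner h w

end ALX
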