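import Pool.Agent.Lib.ALX.P09

/-!
# ALX, chunk P10 (M/L): the rotated facet lies beyond the facet

PROOF. Let `t` be the unit vector of `cross3 (nu a) (nu b)`, `p` a common point of the planes, `x = p + α • t + β • m_b`, `m_b = cross3 (nu b) t` (the plane of `b`: orthonormal basis `t, m_b`),
`R` the linear part of the hinge: `R t = t`, `R m_b = m_a = cross3 (nu a) t`. `inner (nu a) m_b = det3 (nu a) (nu b) t = |cross3 (nu a) (nu b)| = s > 0`, so `lf a x < 1` iff `β s < 0` iff `β < 0`.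
`rho x = p + α • t + β • m_a`, `inner (nu b) m_a = det3 (nu b) (nu a) t = -s`, so `inner (nu b) (rho x - p) = -β s > 0`.
Shorter: `inner (nu b) (R w) = -inner (nu a) w` for every `w` orthogonal to `nu b` (both sides are linear in `w`; check for `w = t` and `w = m_b`). Apply it with `w = x - p`.
-/

open Real MeasureTheory Filter Topology

namespace ALX

open H47A (E3 cross3 det3 pl)

variable {A : Type} [Fintype A] [DecidableEq A] {n : A → E3}

theorem p10_lin (ρ : E3 ≃ᵃⁱ[ℝ] E3) (x y : E3) : ρ.linearIsometryEquiv (x - y) = ρ x - ρ y :=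
  AffineIsometryEquiv.map_vsub ρ x y

theorem rho_refl (h : Gn n) {a b : A} (hab : a ≠ b) {w : E3} (hw : inner ℝ (n b) w = (0 : ℝ)) :
    inner ℝ (nu n b) ((rho n a b).linearIsometryEquiv w) = -inner ℝ (nu n a) w := by
  have hs := rho_spec h a b
  have hcr := h.cross hab
  obtain ⟨p, hpa, hpb⟩ := H47A.two_planes hcr
  set t : E3 := cross3 (n a) (n b) with ht
  have hta : inner ℝ (n a) t = (0 : ℝ) := by
    rw [real_inner_comm]
    exact H47A.cross3_self_left _ _
  have htb : inner ℝ (n b) t = (0 : ℝ) := by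
    rw [real_inner_comm]
    exact H47A.cross3_self_right _ _
  set R := (rho n a b).linearIsometryEquiv with hR
  have hRt : R t = t := by
    have h1 := hs.fix p hpa hpb
    have h2 := hs.fix (p + t) (by rw [lf_add]; unfold lf; rw [hpa, hta, add_zero])
      (by rw [lf_add]; unfold lf; rw [hpb, htb, add_zero])
    have h3 := p10_lin (rho n a b) (p + t) p
    rw [h1, h2, add_sub_cancel_left] at h3
    exact h3
  have hnb : ‖nu n b‖ = 1 := nu_norm h b
  have htb' : inner ℝ (nu n b) t = (0 : ℝ) := (nu_inner_zero h b t).2 htb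
  have hta' : inner ℝ (nu n a) t = (0 : ℝ) := (nu_inner_zero h a t).2 hta
  have hwb : inner ℝ (nu n b) w = (0 : ℝ) := (nu_inner_zero h b w).2 hw
  have hdet : det3 (nu n b) t (cross3 (nu n b) t) ≠ 0 := by
    rw [H47A.evec_det, H47A.cross3_norm, hnb, htb']
    have h4 : ‖t‖ ≠ 0 := norm_ne_zero_iff.2 hcr
    have h5 : (1 : ℝ) ^ 2 * ‖t‖ ^ 2 - 0 ^ 2 = ‖t‖ ^ 2 := by ring
    rw [h5]
    exact pow_ne_zero 2 h4
  obtain ⟨x, y, z, hxyz⟩ := H47A.comb3 hdet w
  have hm : inner ℝ (nu n b) (cross3 (nu n b) t) = (0 : ℝ) := by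
    rw [real_inner_comm]
    exact H47A.cross3_self_left _ _
  have hx : x = 0 := by
    have h1 := hwb
    rw [hxyz, inner_add_right, inner_add_right, inner_smul_right, inner_smul_right,
      inner_smul_right, htb', hm, real_inner_self_eq_norm_sq, hnb] at h1
    linarith
  have hRm : R (cross3 (nu n b) t) = cross3 (nu n a) t := by
    rw [hs.ori, hs.nor, hRt]
  have hid : inner ℝ (nu n b) (cross3 (nu n a) t) = -inner ℝ (nu n a) (cross3 (nu n b) t) := by
    simp only [H47A.inner3, H47A.evec_c0, H47A.evec_c1, H47A.evec_c2]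
    ring
  rw [hxyz, hx, zero_smul, zero_add, map_add, map_smul, map_smul, hRt, hRm, inner_add_right,
    inner_add_right, inner_smul_right, inner_smul_right, inner_smul_right, inner_smul_right,
    htb', hta', hid]
  ring

theorem p10_key (h : Gn n) {a b : A} (hab : a ≠ b) {x : E3} (hb : lf n b x = 1) :
    lf n b (rho n a b x) = 1 + ‖n b‖ * ‖n a‖⁻¹ * (1 - lf n a x) := by
  have hs := rho_spec h a b
  obtain ⟨p, hpa, hpb⟩ := H47A.two_planes (h.cross hab)
  have h1 := hs.fix p hpa hpb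
  have hw : inner ℝ (n b) (x - p) = (0 : ℝ) := by
    rw [inner_sub_right, hpb]
    unfold lf at hb
    rw [hb, sub_self]
  have h2 := rho_refl h hab hw
  have h3 := p10_lin (rho n a b) x p
  rw [h1] at h3
  rw [h3, nu_inner, nu_inner, lf_sub, lf_sub] at h2
  have hpa' : lf n a p = 1 := hpa
  have hpb' : lf n b p = 1 := hpb
  rw [hpa', hpb'] at h2
  have hnb : ‖n b‖ ≠ 0 := norm_ne_zero_iff.2 (h.ne b)
  have h4 : lf n b (rho n a b x) - 1 = ‖n b‖ * (‖n b‖⁻¹ * (lf n b (rho n a b x) - 1)) := by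
    rw [← mul_assoc, mul_inv_cancel₀ hnb, one_mul]
  rw [h2] at h4
  linarith

theorem rho_side (h : Gn n) {a b : A} (hab : a ≠ b) {x : E3} (hb : lf n b x = 1) (ha : lf n a x < 1) : 1 < lf n b (rho n a b x) := by
  rw [p10_key h hab hb]
  have h1 : 0 < ‖n b‖ := norm_pos_iff.2 (h.ne b)
  have h2 : 0 < ‖n a‖⁻¹ := inv_pos.2 (norm_pos_iff.2 (h.ne a))
  have h3 : 0 < ‖n b‖ * ‖n a‖⁻¹ * (1 - lf n a x) := mul_pos (mul_pos h1 h2) (by linarith)
  linarith

theorem rho_side_le (h : Gn n) {a b : A} (hab : a ≠ b) {x : E3} (hb : lf n b x = 1) (ha : lf n a x ≤ 1) : 1 ≤ lf n b (rho n a b x) := by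
  rw [p10_key h hab hb]
  have h1 : 0 < ‖n b‖ := norm_pos_iff.2 (h.ne b)
  have h2 : 0 < ‖n a‖⁻¹ := inv_pos.2 (norm_pos_iff.2 (h.ne a))
  have h3 : 0 ≤ ‖n b‖ * ‖n a‖⁻¹ * (1 - lf n a x) := mul_nonneg (mul_pos h1 h2).le (by linarith)
  linarith

end ALX
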