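import Pool.Agent.Lib.ALX.P09
import Pool.Agent.Lib.ALX.Defs2

/-!
# ALX, chunk P11 (M): unfoldings along chains

PROOF: `IsUn` is preserved by compositions and inverses; `rho n a b` is `IsUn n b a` (P09, rho_spec). Induction over the list; consecutive equal facets do no harm (`rho_self`, or `rho_spec` for `a = b`).
-/

open Real MeasureTheory Filter Topology

namespace ALX

open H47A (E3 cross3 det3 pl)

variable {A : Type} [Fintype A] [DecidableEq A] {n : A → E3}

theorem isUn_refl (a : A) : IsUn n a a (AffineIsometryEquiv.refl ℝ E3) :=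
  ⟨fun _ h => h, rfl, fun _ _ => rfl⟩

theorem IsUn.trans {a b c : A} {S T : E3 ≃ᵃⁱ[ℝ] E3} (hS : IsUn n a b S) (hT : IsUn n b c T) : IsUn n a c (S.trans T) := by
  refine ⟨fun x hx => hT.plane _ (hS.plane x hx), ?_, fun u v => ?_⟩
  · have h1 : (S.trans T).linearIsometryEquiv (nu n a) =
        T.linearIsometryEquiv (S.linearIsometryEquiv (nu n a)) := rfl
    rw [h1, hS.nor, hT.nor]
  · have h1 : ∀ w, (S.trans T).linearIsometryEquiv w =
        T.linearIsometryEquiv (S.linearIsometryEquiv w) := fun _ => rfl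
    rw [h1, h1, h1, hS.ori, hT.ori]

theorem IsUn.symm (h : Gn n) {a b : A} {S : E3 ≃ᵃⁱ[ℝ] E3} (hS : IsUn n a b S) : IsUn n b a S.symm := by
  have h1 : ∀ w, S.symm.linearIsometryEquiv w = S.linearIsometryEquiv.symm w := fun _ => rfl
  have hR : ∀ w, S.linearIsometryEquiv (S.symm.linearIsometryEquiv w) = w := by
    intro w
    rw [h1, LinearIsometryEquiv.apply_symm_apply]
  refine ⟨fun x hx => ?_, ?_, fun u v => ?_⟩
  · set p : E3 := (‖n a‖ ^ 2)⁻¹ • n a with hp
    have hna : ‖n a‖ ^ 2 ≠ 0 := pow_ne_zero 2 (norm_ne_zero_iff.2 (h.ne a))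
    have hpa : lf n a p = 1 := by
      rw [hp, lf_smul]
      unfold lf
      rw [real_inner_self_eq_norm_sq, inv_mul_cancel₀ hna]
    have hq := hS.plane p hpa
    rw [nu_sub h hq] at hx
    rw [nu_sub h hpa]
    have h2 : S.symm x - p = S.symm.linearIsometryEquiv (x - S p) := by
      have h3 := AffineIsometryEquiv.map_vsub S.symm x (S p)
      rw [AffineIsometryEquiv.symm_apply_apply] at h3
      exact h3.symm
    rw [h2, ← LinearIsometryEquiv.inner_map_map S.linearIsometryEquiv, hS.nor, hR]
    exact hx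
  · rw [h1, ← hS.nor, LinearIsometryEquiv.symm_apply_apply]
  · apply S.linearIsometryEquiv.injective
    rw [hS.ori, hR, hR, hR]

theorem isUn_rho (h : Gn n) (a b : A) : IsUn n b a (rho n a b) :=
  ⟨fun _ hx => (rho_plane h).2 hx, (rho_spec h a b).nor, (rho_spec h a b).ori⟩

/-- The unfolding along a chain from `a0` to `a` (the list starts with the last facet `a`). -/
theorem isUn_chT (h : Gn n) {a0 a : A} {c : List A} (hl : (a :: c).getLast? = some a0) : IsUn n a a0 (chT n (a :: c)) := by
  induction c generalizing a with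
  | nil =>
    have h1 : a = a0 := by simpa using hl
    rw [h1, chT_one]
    exact isUn_refl a0
  | cons b c ih =>
    rw [chT_cons]
    exact (isUn_rho h b a).trans (ih (by simpa using hl))

end ALX
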