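import Pool.Agent.Lib.ALX.P11

/-!
# ALX, chunk P12 (M): unfoldings: plane to plane, two points determine them

PROOF: `plane_iff`: one direction is `IsUn.plane`, the other one `IsUn.symm`. `dir`: `inner (nu a0) (T' w) = inner (T' (nu a)) (T' w) = inner (nu a) w`.
`ext_two`: the linear parts agree on `nu a` and on `w = y - x` (not zero, orthogonal to `nu a`), hence on `cross3 (nu a) w` (`ori`), so on a basis (H47A.comb3). `dir_norm`: the linear part of an
affine isometry is a linear isometry.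
-/

open Real MeasureTheory Filter Topology

namespace ALX

open H47A (E3 cross3 det3 pl)

variable {A : Type} [Fintype A] [DecidableEq A] {n : A → E3}

theorem IsUn.plane_iff (h : Gn n) {a a0 : A} {T : E3 ≃ᵃⁱ[ℝ] E3} (hT : IsUn n a a0 T) {x : E3} : lf n a0 (T x) = 1 ↔ lf n a x = 1 := by
  constructor
  · intro h1
    have h2 := (IsUn.symm h hT).plane (T x) h1
    rwa [AffineIsometryEquiv.symm_apply_apply] at h2
  · exact hT.plane x

theorem IsUn.dir (h : Gn n) {a a0 : A} {T : E3 ≃ᵃⁱ[ℝ] E3} (hT : IsUn n a a0 T) {w : E3} :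
    inner ℝ (n a0) (T.linearIsometryEquiv w) = (0 : ℝ) ↔ inner ℝ (n a) w = (0 : ℝ) := by
  rw [← nu_inner_zero h, ← nu_inner_zero h, ← hT.nor, LinearIsometryEquiv.inner_map_map]

theorem IsUn.ext_two (h : Gn n) {a a0 : A} {T T' : E3 ≃ᵃⁱ[ℝ] E3} (hT : IsUn n a a0 T) (hT' : IsUn n a a0 T') {x y : E3} (hxy : x ≠ y)
    (hx : lf n a x = 1) (hy : lf n a y = 1) (h1 : T x = T' x) (h2 : T y = T' y) : T = T' := by
  have hw : y - x ≠ 0 := sub_ne_zero.mpr hxy.symm
  have hnw : inner ℝ (nu n a) (y - x) = (0 : ℝ) := (nu_sub h hx).1 hy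
  have hnn := nu_norm h a
  have e1 : T.linearIsometryEquiv (nu n a) = T'.linearIsometryEquiv (nu n a) := by
    rw [hT.nor, hT'.nor]
  have e2 : T.linearIsometryEquiv (y - x) = T'.linearIsometryEquiv (y - x) := by
    have h3 := T.map_vsub y x
    have h4 := T'.map_vsub y x
    rw [vsub_eq_sub, vsub_eq_sub] at h3 h4
    rw [h3, h4, h1, h2]
  have e3 : T.linearIsometryEquiv (cross3 (nu n a) (y - x)) = T'.linearIsometryEquiv (cross3 (nu n a) (y - x)) := by
    rw [hT.ori, hT'.ori, e1, e2]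
  have hc : ‖cross3 (nu n a) (y - x)‖ ^ 2 ≠ 0 := by
    rw [H47A.cross3_norm, hnn, hnw]
    have : 0 < ‖y - x‖ := norm_pos_iff.mpr hw
    have h5 : (1 : ℝ) ^ 2 * ‖y - x‖ ^ 2 - 0 ^ 2 = ‖y - x‖ ^ 2 := by ring
    rw [h5]
    positivity
  have hd : det3 (nu n a) (y - x) (cross3 (nu n a) (y - x)) ≠ 0 := by
    rw [H47A.evec_det]; exact hc
  have hL : ∀ z : E3, T.linearIsometryEquiv z = T'.linearIsometryEquiv z := by
    intro z
    obtain ⟨p, q, r, hz⟩ := H47A.comb3 hd z
    rw [hz]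
    simp only [map_add, map_smul]
    rw [e1, e2, e3]
  apply AffineIsometryEquiv.ext
  intro z
  have h3 := T.map_vsub z x
  have h4 := T'.map_vsub z x
  rw [vsub_eq_sub, vsub_eq_sub] at h3 h4
  have h5 : T z = T.linearIsometryEquiv (z - x) + T x := by rw [h3]; abel
  have h6 : T' z = T'.linearIsometryEquiv (z - x) + T' x := by rw [h4]; abel
  rw [h5, h6, hL, h1]

theorem IsUn.symm_plane (h : Gn n) {a a0 : A} {T : E3 ≃ᵃⁱ[ℝ] E3} (hT : IsUn n a a0 T) {x : E3} (hx : lf n a0 x = 1) : lf n a (T.symm x) = 1 :=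
  (IsUn.symm h hT).plane x hx


end ALX
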