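import Pool.Agent.Lib.ALX.Api0

/-!
# ALX, chunk P13 (S/M): vertices are extreme points

PROOF: `v = (1 - t) • x + t • y`, `0 < t < 1`, with `x, y ∈ Pt n`. For each of the (at least three) facets `b ∈ Ac n v`: `1 = (1 - t) lf b x + t lf b y` with both values `≤ 1` gives
`lf b x = 1 = lf b y`. So `x - y` is orthogonal to three independent normals, `x = y` (Pool.Agent.H47F.eq_zero_of_ker or H47A.cramer), `v = x`.
`not_mem`: a point strictly between two different points of the polytope is not a vertex.
-/

open Real MeasureTheory Filter Topology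

namespace ALX

open H47A (E3 cross3 det3 pl)

variable {A : Type} [Fintype A] [DecidableEq A] {n : A → E3}

theorem vertex_extreme (h : Gn n) {v x y : E3} (hv : v ∈ Vs n) (hx : x ∈ Pt n) (hy : y ∈ Pt n) {t : ℝ} (ht : 0 < t) (ht1 : t < 1)
    (he : v = AffineMap.lineMap x y t) : x = v ∧ y = v := by
  obtain ⟨a, b, c, hab, hbc, hac, hat⟩ := (mem_Vs_iff h).1 hv
  have key : ∀ d ∈ ({a, b, c} : Finset A), lf n d x = 1 ∧ lf n d y = 1 := by
    intro d hd
    have h1 : lf n d v = 1 := ((At.iff.1 hat).2 d).1 hd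
    rw [he, lf_line] at h1
    have h2 := hx d
    have h3 := hy d
    have h4 : 0 ≤ (1 - t) * (1 - lf n d x) := mul_nonneg (by linarith) (by linarith)
    have h5 : 0 ≤ t * (1 - lf n d y) := mul_nonneg ht.le (by linarith)
    have h6 : (1 - t) * (1 - lf n d x) + t * (1 - lf n d y) = 0 := by linarith
    have h7 : (1 - t) * (1 - lf n d x) = 0 := by linarith
    have h8 : t * (1 - lf n d y) = 0 := by linarith
    rcases mul_eq_zero.1 h7 with h9 | h9
    · exfalso
      linarith
    · rcases mul_eq_zero.1 h8 with h10 | h10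
      · exfalso
        linarith
      · exact ⟨by linarith, by linarith⟩
  have hz : ∀ d ∈ ({a, b, c} : Finset A), inner ℝ (n d) (x - y) = (0 : ℝ) := by
    intro d hd
    have h1 : lf n d (x - y) = 0 := by
      rw [lf_sub, (key d hd).1, (key d hd).2, sub_self]
    exact h1
  have hxy : x - y = 0 := by
    have h1 := H47A.cramer (n a) (n b) (n c) (x - y)
    rw [hz a (by simp), hz b (by simp), hz c (by simp), zero_smul, zero_smul, zero_smul, add_zero,
      add_zero] at h1
    exact (smul_eq_zero.1 h1).resolve_left (h.three a b c hab hbc hac)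
  have hxy' : x = y := sub_eq_zero.1 hxy
  subst hxy'
  rw [AffineMap.lineMap_same_apply] at he
  exact ⟨he.symm, he.symm⟩

theorem not_vertex (h : Gn n) {x y : E3} (hx : x ∈ Pt n) (hy : y ∈ Pt n) (hxy : x ≠ y) {t : ℝ} (ht : 0 < t) (ht1 : t < 1) :
    (AffineMap.lineMap x y t : E3) ∉ Vs n := by
  intro hv
  obtain ⟨h1, h2⟩ := vertex_extreme h hv hx hy ht ht1 rfl
  exact hxy (h1.trans h2.symm)


end ALX
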