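import Pool.Agent.Lib.ALX.Api0
import Pool.Agent.Lib.H47F.Gen

/-!
# ALX, chunk P14 (M): finitely many vertices

PROOF: a vertex is determined by three facets (`mem_Vs_iff`; three independent equations `lf = 1` have at most one solution, Pool.Agent.H47F.eq_zero_of_ker), so `Vs n` is contained in the range
of a function on `A × A × A` (or: the map `v ↦ Ac n v` is injective on `Vs n`, Set.Finite.of_injOn / Set.Finite.of_finite_image).
`mem_Vx`: `dif_pos`. `vertex_isolated`: distance of `v` to the finitely many other vertices.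
-/

open Real MeasureTheory Filter Topology

namespace ALX

open H47A (E3 cross3 det3 pl)

variable {A : Type} [Fintype A] [DecidableEq A] {n : A → E3}

theorem p14_unique (h : Gn n) {a b c : A} (hab : a ≠ b) (hbc : b ≠ c) (hac : a ≠ c) {v w : E3} (h1 : lf n a v = 1) (h2 : lf n b v = 1)
    (h3 : lf n c v = 1) (h4 : lf n a w = 1) (h5 : lf n b w = 1) (h6 : lf n c w = 1) : v = w := by
  have e1 : lf n a (v - w) = 0 := by rw [lf_sub, h1, h4, sub_self]
  have e2 : lf n b (v - w) = 0 := by rw [lf_sub, h2, h5, sub_self]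
  have e3 : lf n c (v - w) = 0 := by rw [lf_sub, h3, h6, sub_self]
  exact sub_eq_zero.1 (Pool.Agent.H47F.eq_zero_of_ker (h.three a b c hab hbc hac) e1 e2 e3)

theorem Vs_finite (h : Gn n) : (Vs n).Finite := by
  refine Set.Finite.of_finite_image (f := fun v => Ac n v) (Set.toFinite _) ?_
  intro v hv w hw hvw
  obtain ⟨a, b, c, hab, hbc, hac, hA⟩ := (mem_Vs_iff h).1 hv
  have hvA : Ac n v = {a, b, c} := hA.2
  have hwA : Ac n w = {a, b, c} := by
    rw [← hvA]
    exact hvw.symm
  have hv' : ∀ x ∈ ({a, b, c} : Finset A), lf n x v = 1 := fun x hx => mem_Ac.1 (by rw [hvA]; exact hx)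
  have hw' : ∀ x ∈ ({a, b, c} : Finset A), lf n x w = 1 := fun x hx => mem_Ac.1 (by rw [hwA]; exact hx)
  exact p14_unique h hab hbc hac (hv' a (by simp)) (hv' b (by simp)) (hv' c (by simp)) (hw' a (by simp)) (hw' b (by simp))
    (hw' c (by simp))

theorem mem_Vx (h : Gn n) {v : E3} : v ∈ Vx n ↔ v ∈ Vs n := by
  unfold Vx
  rw [dif_pos (Vs_finite h)]
  exact Set.Finite.mem_toFinset _

theorem vertex_unique (h : Gn n) {a b c : A} (hab : a ≠ b) (hbc : b ≠ c) (hac : a ≠ c) {v w : E3} (h1 : lf n a v = 1) (h2 : lf n b v = 1)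
    (h3 : lf n c v = 1) (h4 : lf n a w = 1) (h5 : lf n b w = 1) (h6 : lf n c w = 1) : v = w := by
  exact p14_unique h hab hbc hac h1 h2 h3 h4 h5 h6

end ALX
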