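import Pool.Agent.Lib.ALX.P05

/-!
# ALX, chunk P15 (M): the curvature of a vertex

PROOF: the chosen triple is a permutation of `(a, b, c)` (`Finset.ext_iff` on `{t.1, t.2.1, t.2.2} = {a, b, c}`), and the sum of the three angles is symmetric: `vang n a b c = vang n a c b`
(InnerProductGeometry.angle_comm).
`kp_zero`: there is no such triple.
-/

open Real MeasureTheory Filter Topology

namespace ALX

open H47A (E3 cross3 det3 pl)

variable {A : Type} [Fintype A] [DecidableEq A] {n : A → E3}

theorem vang_comm (a b c : A) : vang n a c b = vang n a b c := by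
  unfold vang
  exact InnerProductGeometry.angle_comm _ _

theorem kp_eq (h : Gn n) {a b c : A} (hab : a ≠ b) (hbc : b ≠ c) (hac : a ≠ c) {v : E3} (hv : At n v {a, b, c}) :
    kp n v = 2 * π - vang n a b c - vang n b a c - vang n c a b := by
  have hex : ∃ t : A × A × A, t.1 ≠ t.2.1 ∧ t.2.1 ≠ t.2.2 ∧ t.1 ≠ t.2.2 ∧ At n v {t.1, t.2.1, t.2.2} :=
    ⟨(a, b, c), hab, hbc, hac, hv⟩
  have hkey : ∀ t : A × A × A, t.1 ≠ t.2.1 ∧ t.2.1 ≠ t.2.2 ∧ t.1 ≠ t.2.2 ∧ At n v {t.1, t.2.1, t.2.2} →
      2 * π - vang n t.1 t.2.1 t.2.2 - vang n t.2.1 t.1 t.2.2 - vang n t.2.2 t.1 t.2.1 =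
        2 * π - vang n a b c - vang n b a c - vang n c a b := by
    rintro ⟨p, q, r⟩ ⟨h1, h2, h3, h4⟩
    dsimp only at h1 h2 h3 h4 ⊢
    have h5 : ({p, q, r} : Finset A) = {a, b, c} := by rw [← h4.2, hv.2]
    have hp : p = a ∨ p = b ∨ p = c := by
      have : p ∈ ({a, b, c} : Finset A) := by rw [← h5]; simp
      simpa using this
    have hq : q = a ∨ q = b ∨ q = c := by
      have : q ∈ ({a, b, c} : Finset A) := by rw [← h5]; simp
      simpa using this
    have hr : r = a ∨ r = b ∨ r = c := by
      have : r ∈ ({a, b, c} : Finset A) := by rw [← h5]; simp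
      simpa using this
    have e1 := vang_comm (n := n) a b c
    have e2 := vang_comm (n := n) b a c
    have e3 := vang_comm (n := n) c a b
    rcases hp with rfl | rfl | rfl
    · rcases hq with rfl | rfl | rfl
      · exact absurd rfl h1
      · rcases hr with rfl | rfl | rfl
        · exact absurd rfl h3
        · exact absurd rfl h2
        · rfl
      · rcases hr with rfl | rfl | rfl
        · exact absurd rfl h3
        · linarith
        · exact absurd rfl h2
    · rcases hq with rfl | rfl | rfl
      · rcases hr with rfl | rfl | rfl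
        · exact absurd rfl h2
        · exact absurd rfl h3
        · linarith
      · exact absurd rfl h1
      · rcases hr with rfl | rfl | rfl
        · linarith
        · exact absurd rfl h3
        · exact absurd rfl h2
    · rcases hq with rfl | rfl | rfl
      · rcases hr with rfl | rfl | rfl
        · exact absurd rfl h2
        · linarith
        · exact absurd rfl h3
      · rcases hr with rfl | rfl | rfl
        · linarith
        · exact absurd rfl h2
        · exact absurd rfl h3
      · exact absurd rfl h1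
  unfold kp
  rw [dif_pos hex]
  exact hkey _ hex.choose_spec

theorem kp_zero (h : Gn n) {v : E3} (hv : v ∉ Vs n) : kp n v = 0 := by
  have hex : ¬ ∃ t : A × A × A, t.1 ≠ t.2.1 ∧ t.2.1 ≠ t.2.2 ∧ t.1 ≠ t.2.2 ∧ At n v {t.1, t.2.1, t.2.2} := by
    rintro ⟨⟨p, q, r⟩, h1, h2, h3, h4⟩
    exact hv ((mem_Vs_iff h).2 ⟨p, q, r, h1, h2, h3, h4⟩)
  unfold kp
  rw [dif_neg hex]


end ALX
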