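import Pool.Agent.Lib.ALX.P01
import Pool.Agent.Lib.ALX.P02
import Pool.Agent.Lib.ALX.P03
import Pool.Agent.Lib.ALX.P04
import Pool.Agent.Lib.ALX.P05
import Pool.Agent.Lib.ALX.P06
import Pool.Agent.Lib.ALX.P07
import Pool.Agent.Lib.ALX.P08
import Pool.Agent.Lib.ALX.P09
import Pool.Agent.Lib.ALX.P10
import Pool.Agent.Lib.ALX.P11
import Pool.Agent.Lib.ALX.P12
import Pool.Agent.Lib.ALX.P13
import Pool.Agent.Lib.ALX.P14
import Pool.Agent.Lib.ALX.P15
import Pool.Agent.Lib.ALX.A07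
import Pool.Agent.Lib.ALX.A08
import Pool.Agent.Lib.ALX.A09
import Pool.Agent.Lib.ALX.Defs2
import Pool.Agent.Lib.ALX.GDefs

/-! # ALX: all facts of module 0 (P01 .. P15) and of module A (A07, A08, A09): imports only -/
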