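import Pool.Agent.Lib.ALX.Api0

/-!
# ALX, chunk B01 (S/M): the angle sum of three independent directions is smaller than 2 pi; angles in a cone

PROOF. `angle_sum_lt`: `angle e1 (-e3) = π - angle e1 e3`, `angle (-e3) e2 = π - angle e3 e2` (InnerProductGeometry.angle_neg_right). The triangle inequality
`angle e1 e2 ≤ angle e1 (-e3) + angle (-e3) e2` (InnerProductGeometry.angle_le_angle_add_angle) gives `≤ 2 π`; equality would give (InnerProductGeometry.angle_eq_angle_add_angle_iff)
`angle e1 e2 = π` (then `e1, e2` are dependent, InnerProductGeometry.angle_eq_pi_iff) or `-e3` in the span of `e1, e2`, both impossible for `det3 e1 e2 e3 ≠ 0` (det3_add, det3_smul, det3_self).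
`angle_cone`: InnerProductGeometry.angle_eq_angle_add_angle_iff (the vector `l • e1 + m • e2` is in the `ℝ≥0`-span).
-/

open Real MeasureTheory Filter Topology

namespace ALX

open H47A (E3 cross3 det3 pl)

variable {A : Type} [Fintype A] [DecidableEq A] {n : A → E3}

theorem angle_sum_lt {e1 e2 e3 : E3} (h : det3 e1 e2 e3 ≠ 0) :
    InnerProductGeometry.angle e1 e2 + InnerProductGeometry.angle e2 e3 + InnerProductGeometry.angle e1 e3 < 2 * π := by
  have h3 : e3 ≠ 0 := by
    rintro rfl
    refine h ?_
    have := H47A.det3_smul e1 e2 (0 : E3) 0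
    rw [zero_smul, zero_mul] at this
    exact this
  have h1 := InnerProductGeometry.angle_le_angle_add_angle e1 (-e3) e2
  rw [InnerProductGeometry.angle_neg_right, InnerProductGeometry.angle_neg_left] at h1
  rw [InnerProductGeometry.angle_comm e3 e2] at h1
  refine lt_of_le_of_ne (by linarith) fun heq => ?_
  have h2 : InnerProductGeometry.angle e1 e2 = InnerProductGeometry.angle e1 (-e3) + InnerProductGeometry.angle (-e3) e2 := by
    rw [InnerProductGeometry.angle_neg_right, InnerProductGeometry.angle_neg_left, InnerProductGeometry.angle_comm e3 e2]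
    linarith
  rcases (InnerProductGeometry.angle_eq_angle_add_angle_iff (neg_ne_zero.2 h3)).1 h2 with h4 | h4
  · obtain ⟨_, r, _, hr⟩ := InnerProductGeometry.angle_eq_pi_iff.1 h4
    refine h ?_
    rw [hr, H47A.det3_rot, H47A.det3_rot, H47A.det3_smul, (H47A.det3_self e3 e1).2.1, mul_zero]
  · rw [Submodule.mem_span_pair] at h4
    obtain ⟨a, b, hab⟩ := h4
    have h5 : e3 = (-(a : ℝ)) • e1 + (-(b : ℝ)) • e2 := by
      have h6 : (a : ℝ) • e1 + (b : ℝ) • e2 = -e3 := hab
      rw [neg_smul, neg_smul, ← neg_add, h6, neg_neg]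
    refine h ?_
    rw [h5, H47A.det3_add, H47A.det3_smul, H47A.det3_smul, (H47A.det3_self e1 e2).1, (H47A.det3_self e1 e2).2.1]
    ring

theorem angle_cone {e1 e2 : E3} {l m : ℝ} (hl : 0 ≤ l) (hm : 0 ≤ m) (h : l • e1 + m • e2 ≠ 0) :
    InnerProductGeometry.angle e1 (l • e1 + m • e2) + InnerProductGeometry.angle (l • e1 + m • e2) e2 = InnerProductGeometry.angle e1 e2 := by
  refine (InnerProductGeometry.angle_eq_angle_add_add_angle_add_of_mem_span h ?_).symm
  rw [Submodule.mem_span_pair]
  exact ⟨⟨l, hl⟩, ⟨m, hm⟩, rfl⟩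


end ALX
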