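import Pool.Agent.Lib.ALX.Api0

/-!
# ALX, chunk B02 (S/M): the shortcut across a small angle

PROOF. With `x = angle s e`, `y = angle s' e`: `‖s - τ • e‖^2 = 1 - 2 τ cos x + τ^2`, so `‖s - τ • e‖ ≤ 1 - τ cos x + τ^2 / 2` (`sqrt (1 + z) ≤ 1 + z / 2`; or compare the squares for small
`τ`: `(1 - τ cos x + τ^2/2)^2 ≥ 1 - 2 τ cos x + τ^2`, and the right side is `> 0`), the same for `s'`. The sum is `≤ 2 - τ (cos x + cos y) + τ^2 < 2` for `0 < τ < cos x + cos y`, and
`cos x + cos y > 0` because `x + y < π` (`cos y > cos (π - x)`, Real.cos_lt_cos_of_nonneg_of_le_pi, x, y ∈ [0, π]).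
-/

open Real MeasureTheory Filter Topology

namespace ALX

open H47A (E3 cross3 det3 pl)

variable {A : Type} [Fintype A] [DecidableEq A] {n : A → E3}

theorem b02_cos {s e : E3} (hs : ‖s‖ = 1) (he : ‖e‖ = 1) : inner ℝ s e = Real.cos (InnerProductGeometry.angle s e) := by
  rw [InnerProductGeometry.cos_angle, hs, he]
  simp

theorem b02_est {s e : E3} (hs : ‖s‖ = 1) (he : ‖e‖ = 1) (c : ℝ) :
    ‖s - c • e‖ ≤ 1 - c * Real.cos (InnerProductGeometry.angle s e) + c ^ 2 / 2 := by
  have h1 : ‖s - c • e‖ ^ 2 = 1 - 2 * (c * Real.cos (InnerProductGeometry.angle s e)) + c ^ 2 := by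
    rw [norm_sub_sq_real, real_inner_smul_right, b02_cos hs he, norm_smul, hs, he, Real.norm_eq_abs, mul_one, sq_abs]
    ring
  have h2 := Real.cos_le_one (InnerProductGeometry.angle s e)
  have h3 := Real.neg_one_le_cos (InnerProductGeometry.angle s e)
  have h4 : 0 ≤ 1 - c * Real.cos (InnerProductGeometry.angle s e) + c ^ 2 / 2 := by
    nlinarith [sq_nonneg (c - Real.cos (InnerProductGeometry.angle s e)), sq_nonneg (Real.cos (InnerProductGeometry.angle s e))]
  refine abs_le_of_sq_le_sq' ?_ h4 |>.2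
  rw [h1]
  nlinarith [sq_nonneg (-(c * Real.cos (InnerProductGeometry.angle s e)) + c ^ 2 / 2)]

theorem short_three {s s' e : E3} (hs : ‖s‖ = 1) (hs' : ‖s'‖ = 1) (he : ‖e‖ = 1)
    (h : InnerProductGeometry.angle s e + InnerProductGeometry.angle s' e < π) : ∀ᶠ τ in 𝓝[>] (0 : ℝ), ‖s - τ • e‖ + ‖τ • e - s'‖ < 2 := by
  have e1 := b02_est hs he
  have e2 := b02_est hs' he
  have hx0 := InnerProductGeometry.angle_nonneg s e
  have hy0 := InnerProductGeometry.angle_nonneg s' e
  generalize InnerProductGeometry.angle s e = x at *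
  generalize InnerProductGeometry.angle s' e = y at *
  have h1 : Real.cos (π - x) < Real.cos y := Real.cos_lt_cos_of_nonneg_of_le_pi hy0 (by linarith) (by linarith)
  rw [Real.cos_pi_sub] at h1
  have h2 : 0 < Real.cos x + Real.cos y := by linarith
  filter_upwards [self_mem_nhdsWithin, mem_nhdsWithin_of_mem_nhds (Iio_mem_nhds h2)] with τ hτ1 hτ2
  have hτ : 0 < τ := hτ1
  have hτ' : τ < Real.cos x + Real.cos y := hτ2
  have f1 := e1 τ
  have f2 := e2 τ
  rw [norm_sub_rev (τ • e) s']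
  nlinarith


end ALX
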