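import Pool.Agent.Lib.ALX.Api0

/-!
# ALX, chunk B03 (M): the shortcut across a third facet

PROOF. `x = angle s e`, `y = angle e' s'`, `g = angle e e'`, `l1 = sin y`, `l2 = sin x` (both positive: `0 < x, y < π`). As in B02:
`‖s - (τ l1) • e‖ ≤ 1 - τ l1 cos x + τ^2 l1^2 / 2`, `‖(τ l2) • e' - s'‖ ≤ 1 - τ l2 cos y + τ^2 l2^2 / 2`. The middle term is `τ m`, `m = ‖l1 • e - l2 • e'‖`,
`m^2 = sin y^2 + sin x^2 - 2 sin x sin y cos g`. `l1 cos x + l2 cos y = sin (x + y)`, and `sin (x + y)^2 - m^2 = 2 sin x sin y (cos (x + y) + cos g) > 0` because `x + y + g < π`. Since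
`sin (x + y) > 0` this gives `m < sin (x + y)`, and the sum of the three terms is `≤ 2 - τ (sin (x + y) - m) + τ^2 < 2` for small `τ > 0`.
-/

open Real MeasureTheory Filter Topology

namespace ALX

open H47A (E3 cross3 det3 pl)

variable {A : Type} [Fintype A] [DecidableEq A] {n : A → E3}

theorem b03_cos {s e : E3} (hs : ‖s‖ = 1) (he : ‖e‖ = 1) : inner ℝ s e = Real.cos (InnerProductGeometry.angle s e) := by
  rw [InnerProductGeometry.cos_angle, hs, he]
  simp

theorem b03_est {s e : E3} (hs : ‖s‖ = 1) (he : ‖e‖ = 1) (c : ℝ) :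
    ‖s - c • e‖ ≤ 1 - c * Real.cos (InnerProductGeometry.angle s e) + c ^ 2 / 2 := by
  have h1 : ‖s - c • e‖ ^ 2 = 1 - 2 * (c * Real.cos (InnerProductGeometry.angle s e)) + c ^ 2 := by
    rw [norm_sub_sq_real, real_inner_smul_right, b03_cos hs he, norm_smul, hs, he, Real.norm_eq_abs, mul_one, sq_abs]
    ring
  have h2 := Real.cos_le_one (InnerProductGeometry.angle s e)
  have h3 := Real.neg_one_le_cos (InnerProductGeometry.angle s e)
  have h4 : 0 ≤ 1 - c * Real.cos (InnerProductGeometry.angle s e) + c ^ 2 / 2 := by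
    nlinarith [sq_nonneg (c - Real.cos (InnerProductGeometry.angle s e)), sq_nonneg (Real.cos (InnerProductGeometry.angle s e))]
  refine abs_le_of_sq_le_sq' ?_ h4 |>.2
  rw [h1]
  nlinarith [sq_nonneg (-(c * Real.cos (InnerProductGeometry.angle s e)) + c ^ 2 / 2)]

theorem short_four {s s' e e' : E3} (hs : ‖s‖ = 1) (hs' : ‖s'‖ = 1) (he : ‖e‖ = 1) (he' : ‖e'‖ = 1)
    (hx : 0 < InnerProductGeometry.angle s e) (hy : 0 < InnerProductGeometry.angle e' s')
    (h : InnerProductGeometry.angle s e + InnerProductGeometry.angle e e' + InnerProductGeometry.angle e' s' < π) :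
    ∀ᶠ τ in 𝓝[>] (0 : ℝ), ‖s - (τ * Real.sin (InnerProductGeometry.angle e' s')) • e‖ +
      ‖(τ * Real.sin (InnerProductGeometry.angle e' s')) • e - (τ * Real.sin (InnerProductGeometry.angle s e)) • e'‖ +
      ‖(τ * Real.sin (InnerProductGeometry.angle s e)) • e' - s'‖ < 2 := by
  have e1 : ∀ c : ℝ, ‖s - c • e‖ ≤ 1 - c * Real.cos (InnerProductGeometry.angle s e) + c ^ 2 / 2 := b03_est hs he
  have e2 : ∀ c : ℝ, ‖c • e' - s'‖ ≤ 1 - c * Real.cos (InnerProductGeometry.angle e' s') + c ^ 2 / 2 := by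
    intro c
    rw [norm_sub_rev, InnerProductGeometry.angle_comm]
    exact b03_est hs' he' c
  have ei := b03_cos he he'
  have hg0 := InnerProductGeometry.angle_nonneg e e'
  generalize InnerProductGeometry.angle s e = x at *
  generalize InnerProductGeometry.angle e' s' = y at *
  generalize InnerProductGeometry.angle e e' = g at *
  have hsx : 0 < Real.sin x := Real.sin_pos_of_pos_of_lt_pi hx (by linarith)
  have hsy : 0 < Real.sin y := Real.sin_pos_of_pos_of_lt_pi hy (by linarith)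
  have hsxy : 0 < Real.sin (x + y) := Real.sin_pos_of_pos_of_lt_pi (by linarith) (by linarith)
  have hcg : 0 < Real.cos (x + y) + Real.cos g := by
    have h1 : Real.cos (π - (x + y)) < Real.cos g := Real.cos_lt_cos_of_nonneg_of_le_pi hg0 (by linarith) (by linarith)
    rw [Real.cos_pi_sub] at h1
    linarith
  have hm : ‖Real.sin y • e - Real.sin x • e'‖ ^ 2 = Real.sin y ^ 2 + Real.sin x ^ 2 - 2 * (Real.sin x * Real.sin y * Real.cos g) := by
    rw [norm_sub_sq_real, real_inner_smul_left, real_inner_smul_right, ei, norm_smul, norm_smul, he, he', Real.norm_eq_abs, Real.norm_eq_abs,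
      mul_one, mul_one, sq_abs, sq_abs]
    ring
  have hm2 : ‖Real.sin y • e - Real.sin x • e'‖ < Real.sin (x + y) := by
    refine (abs_lt_of_sq_lt_sq ?_ hsxy.le) |> fun h => (abs_lt.1 h).2
    rw [hm]
    have h1 : Real.sin (x + y) ^ 2 - (Real.sin y ^ 2 + Real.sin x ^ 2 - 2 * (Real.sin x * Real.sin y * Real.cos g)) =
        2 * (Real.sin x * Real.sin y * (Real.cos (x + y) + Real.cos g)) := by
      rw [Real.sin_add, Real.cos_add]
      have hx1 := Real.sin_sq_add_cos_sq x
      have hy1 := Real.sin_sq_add_cos_sq y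
      linear_combination (-(Real.sin y) ^ 2 * 1) * (-1) * hx1 + (Real.sin x) ^ 2 * hy1
    have h2 : 0 < 2 * (Real.sin x * Real.sin y * (Real.cos (x + y) + Real.cos g)) := by positivity
    linarith
  generalize hM : ‖Real.sin y • e - Real.sin x • e'‖ = m at *
  have hδ : 0 < Real.sin (x + y) - m := by linarith
  filter_upwards [self_mem_nhdsWithin, mem_nhdsWithin_of_mem_nhds (Iio_mem_nhds hδ)] with τ hτ1 hτ2
  have hτ : 0 < τ := hτ1
  have hτ' : τ < Real.sin (x + y) - m := hτ2
  have f1 := e1 (τ * Real.sin y)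
  have f2 := e2 (τ * Real.sin x)
  have f3 : ‖(τ * Real.sin y) • e - (τ * Real.sin x) • e'‖ = τ * m := by
    rw [mul_smul, mul_smul, ← smul_sub, norm_smul, hM, Real.norm_eq_abs, abs_of_pos hτ]
  rw [f3]
  have g1 : Real.sin y ^ 2 ≤ 1 := Real.sin_sq_le_one y
  have g2 : Real.sin x ^ 2 ≤ 1 := Real.sin_sq_le_one x
  have g3 : τ * Real.sin y * Real.cos x + τ * Real.sin x * Real.cos y = τ * Real.sin (x + y) := by
    rw [Real.sin_add]
    ring
  have g4 : (τ * Real.sin y) ^ 2 / 2 + (τ * Real.sin x) ^ 2 / 2 ≤ τ ^ 2 := by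
    nlinarith [sq_nonneg τ]
  nlinarith


end ALX
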