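import Pool.Agent.Lib.ALX.A07

/-!
# ALX, chunk B04 (S/M): a local shortcut gives a shortcut

PROOF. `s, s'` the unit vectors of `w - v`, `w' - v`. Take `ε` in the frequently-set with `ε ≤ ‖w - v‖`, `ε ≤ ‖w' - v‖`. `v + ε • s` lies on the segment from `v` to `w` (in `Fc n a'`), distance from
`w`: `‖w - v‖ - ε`; the same for `w'`. `dl w w' ≤ (‖w - v‖ - ε) + dl (v + ε s) (v + ε s') + (‖w' - v‖ - ε)` (dl_tri, dl_Fc).
-/

open Real MeasureTheory Filter Topology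

namespace ALX

open H47A (E3 cross3 det3 pl)

variable {A : Type} [Fintype A] [DecidableEq A] {n : A → E3}

theorem b04_pt {a' : A} {v w : E3} (hw : w ∈ Fc n a') (hv : v ∈ Fc n a') (hne : w ≠ v) {ε : ℝ} (h0 : 0 < ε) (h1 : ε ≤ ‖w - v‖) :
    v + ε • (‖w - v‖⁻¹ • (w - v)) ∈ Fc n a' ∧ ‖w - (v + ε • (‖w - v‖⁻¹ • (w - v)))‖ = ‖w - v‖ - ε := by
  have hp : 0 < ‖w - v‖ := norm_pos_iff.2 (sub_ne_zero.2 hne)
  constructor
  · have h5 : 0 ≤ 1 - ε / ‖w - v‖ := by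
      rw [sub_nonneg, div_le_one hp]
      exact h1
    have h6 : 0 ≤ ε / ‖w - v‖ := by positivity
    have h2 : (1 - ε / ‖w - v‖) • v + (ε / ‖w - v‖) • w ∈ Fc n a' := Fc_convex a' hv hw h5 h6 (by ring)
    have h3 : (1 - ε / ‖w - v‖) • v + (ε / ‖w - v‖) • w = v + ε • (‖w - v‖⁻¹ • (w - v)) := by
      rw [smul_smul, ← div_eq_mul_inv, smul_sub, sub_smul, one_smul]
      abel
    rw [h3] at h2
    exact h2
  · have h3 : w - (v + ε • (‖w - v‖⁻¹ • (w - v))) = (1 - ε / ‖w - v‖) • (w - v) := by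
      rw [smul_smul, ← div_eq_mul_inv, sub_smul, one_smul]
      abel
    rw [h3, norm_smul, Real.norm_eq_abs, abs_of_nonneg (by rw [sub_nonneg, div_le_one hp]; exact h1)]
    field_simp

theorem shortcut (h : Gn n) {a' a'' : A} {v w w' : E3} (hw : w ∈ Fc n a') (hv : v ∈ Fc n a') (hw' : w' ∈ Fc n a'') (hv' : v ∈ Fc n a'')
    (hne : w ≠ v) (hne' : w' ≠ v)
    (hs : ∃ᶠ ε in 𝓝[>] (0 : ℝ), dl n (v + ε • (‖w - v‖⁻¹ • (w - v))) (v + ε • (‖w' - v‖⁻¹ • (w' - v))) < 2 * ε) :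
    dl n w w' < ‖w - v‖ + ‖v - w'‖ := by
  have hp : 0 < ‖w - v‖ := norm_pos_iff.2 (sub_ne_zero.2 hne)
  have hp' : 0 < ‖w' - v‖ := norm_pos_iff.2 (sub_ne_zero.2 hne')
  have e1 : ∀ᶠ ε in 𝓝[>] (0 : ℝ), 0 < ε := self_mem_nhdsWithin
  have e2 : ∀ᶠ ε in 𝓝[>] (0 : ℝ), ε < ‖w - v‖ := mem_nhdsWithin_of_mem_nhds (Iio_mem_nhds hp)
  have e3 : ∀ᶠ ε in 𝓝[>] (0 : ℝ), ε < ‖w' - v‖ := mem_nhdsWithin_of_mem_nhds (Iio_mem_nhds hp')
  obtain ⟨ε, h1, h2, h3, h4⟩ := (hs.and_eventually (e1.and (e2.and e3))).exists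
  obtain ⟨p1, p2⟩ := b04_pt hw hv hne h2 h3.le
  obtain ⟨q1, q2⟩ := b04_pt hw' hv' hne' h2 h4.le
  have t1 := dl_tri h (Fc_sub_bd a' hw) (Fc_sub_bd a' p1) (Fc_sub_bd a'' hw')
  have t2 := dl_tri h (Fc_sub_bd a' p1) (Fc_sub_bd a'' q1) (Fc_sub_bd a'' hw')
  rw [dl_Fc h hw p1, p2] at t1
  rw [dl_Fc h q1 hw', norm_sub_rev _ w', q2] at t2
  rw [norm_sub_rev v w']
  linarith


end ALX
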