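import Pool.Agent.Lib.ALX.B02
import Pool.Agent.Lib.ALX.B04

/-!
# ALX, chunk B05 (M): shortcut over an edge

PROOF. Normalise: `s, s'` unit vectors of `w - v`, `w' - v`, `e' = e / ‖e‖` (the angles do not change, InnerProductGeometry.angle_smul_left_of_pos). Fix `τ > 0` from B02. For small `ε > 0`:
`v + ε s ∈ Fc a'`, `v + ε s' ∈ Fc a''` (segments to `w`, `w'`), `z = v + (ε τ) • e'` lies in both facets, so
`dl (v + ε s) (v + ε s') ≤ ‖ε s - ε τ e'‖ + ‖ε τ e' - ε s'‖ = ε (‖s - τ e'‖ + ‖τ e' - s'‖) < 2 ε`; B04.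
-/

open Real MeasureTheory Filter Topology

namespace ALX

open H47A (E3 cross3 det3 pl)

variable {A : Type} [Fintype A] [DecidableEq A] {n : A → E3}

theorem short_edge (h : Gn n) {a' a'' : A} {v w w' e : E3} (hw : w ∈ Fc n a') (hv : v ∈ Fc n a') (hw' : w' ∈ Fc n a'') (hv' : v ∈ Fc n a'')
    (hne : w ≠ v) (hne' : w' ≠ v) (he : e ≠ 0) (hE : ∀ᶠ t in 𝓝[>] (0 : ℝ), v + t • e ∈ Fc n a' ∧ v + t • e ∈ Fc n a'')
    (hang : InnerProductGeometry.angle (w - v) e + InnerProductGeometry.angle (w' - v) e < π) :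
    dl n w w' < ‖w - v‖ + ‖v - w'‖ := by
  have hwv : 0 < ‖w - v‖ := norm_pos_iff.2 (sub_ne_zero.2 hne)
  have hwv' : 0 < ‖w' - v‖ := norm_pos_iff.2 (sub_ne_zero.2 hne')
  have hen : 0 < ‖e‖ := norm_pos_iff.2 he
  set s : E3 := ‖w - v‖⁻¹ • (w - v) with hs
  set s' : E3 := ‖w' - v‖⁻¹ • (w' - v) with hs'
  set e' : E3 := ‖e‖⁻¹ • e with he'
  have hs1 : ‖s‖ = 1 := by
    rw [hs, norm_smul, norm_inv, norm_norm, inv_mul_cancel₀ hwv.ne']
  have hs1' : ‖s'‖ = 1 := by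
    rw [hs', norm_smul, norm_inv, norm_norm, inv_mul_cancel₀ hwv'.ne']
  have he1 : ‖e'‖ = 1 := by
    rw [he', norm_smul, norm_inv, norm_norm, inv_mul_cancel₀ hen.ne']
  have ha1 : InnerProductGeometry.angle s e' = InnerProductGeometry.angle (w - v) e := by
    rw [hs, he', InnerProductGeometry.angle_smul_left_of_pos _ _ (inv_pos.2 hwv),
      InnerProductGeometry.angle_smul_right_of_pos _ _ (inv_pos.2 hen)]
  have ha2 : InnerProductGeometry.angle s' e' = InnerProductGeometry.angle (w' - v) e := by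
    rw [hs', he', InnerProductGeometry.angle_smul_left_of_pos _ _ (inv_pos.2 hwv'),
      InnerProductGeometry.angle_smul_right_of_pos _ _ (inv_pos.2 hen)]
  have hang' : InnerProductGeometry.angle s e' + InnerProductGeometry.angle s' e' < π := by
    rw [ha1, ha2]
    exact hang
  obtain ⟨τ, hτ, hτ0⟩ := ((short_three hs1 hs1' he1 hang').and self_mem_nhdsWithin).exists
  have hτ0' : 0 < τ := hτ0
  refine shortcut h hw hv hw' hv' hne hne' (Filter.Eventually.frequently ?_)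
  have hE' : ∀ᶠ ε in 𝓝[>] (0 : ℝ), v + (ε * (τ * ‖e‖⁻¹)) • e ∈ Fc n a' ∧ v + (ε * (τ * ‖e‖⁻¹)) • e ∈ Fc n a'' := by
    have hk : 0 < τ * ‖e‖⁻¹ := mul_pos hτ0' (inv_pos.2 hen)
    have ht : Tendsto (fun ε : ℝ => ε * (τ * ‖e‖⁻¹)) (𝓝[>] (0 : ℝ)) (𝓝[>] (0 : ℝ)) := by
      refine tendsto_nhdsWithin_iff.2 ⟨?_, ?_⟩
      · have h1 : Tendsto (fun ε : ℝ => ε * (τ * ‖e‖⁻¹)) (𝓝 (0 : ℝ)) (𝓝 (0 * (τ * ‖e‖⁻¹))) :=
          (continuous_id.mul continuous_const).tendsto 0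
        rw [zero_mul] at h1
        exact h1.mono_left nhdsWithin_le_nhds
      · filter_upwards [self_mem_nhdsWithin] with ε hε
        exact mul_pos hε hk
    exact ht.eventually hE
  have hsmall : ∀ c : ℝ, 0 < c → ∀ᶠ ε in 𝓝[>] (0 : ℝ), ε ≤ c := by
    intro c hc
    have h1 : ∀ᶠ ε in 𝓝 (0 : ℝ), ε ≤ c := eventually_le_nhds hc
    exact h1.filter_mono nhdsWithin_le_nhds
  filter_upwards [hE', hsmall _ hwv, hsmall _ hwv', self_mem_nhdsWithin] with ε hz h1 h2 h0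
  have h0' : 0 < ε := h0
  have m1 : v + ε • s ∈ Fc n a' := by
    have h3 := (Fc_convex a').add_smul_sub_mem hv hw (t := ε * ‖w - v‖⁻¹)
      ⟨(mul_pos h0' (inv_pos.2 hwv)).le, by
        rw [← div_eq_mul_inv, div_le_one hwv]
        exact h1⟩
    rw [hs, smul_smul]
    exact h3
  have m2 : v + ε • s' ∈ Fc n a'' := by
    have h3 := (Fc_convex a'').add_smul_sub_mem hv' hw' (t := ε * ‖w' - v‖⁻¹)
      ⟨(mul_pos h0' (inv_pos.2 hwv')).le, by
        rw [← div_eq_mul_inv, div_le_one hwv']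
        exact h2⟩
    rw [hs', smul_smul]
    exact h3
  have hze : v + (ε * (τ * ‖e‖⁻¹)) • e = v + (ε * τ) • e' := by
    rw [he', smul_smul, mul_assoc]
  rw [hze] at hz
  have t1 := dl_tri h (Fc_sub_bd a' m1) (Fc_sub_bd a' hz.1) (Fc_sub_bd a'' m2)
  rw [dl_Fc h m1 hz.1, dl_Fc h hz.2 m2] at t1
  have n1 : ∀ x y : E3, v + ε • x - (v + (ε * τ) • y) = ε • (x - τ • y) := by
    intro x y
    rw [smul_sub, smul_smul]
    abel
  have n2 : ∀ x y : E3, v + (ε * τ) • y - (v + ε • x) = ε • (τ • y - x) := by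
    intro x y
    rw [smul_sub, smul_smul]
    abel
  rw [n1, n2, norm_smul, norm_smul, Real.norm_eq_abs, abs_of_pos h0', ← mul_add] at t1
  have t2 : ε * (‖s - τ • e'‖ + ‖τ • e' - s'‖) < ε * 2 := mul_lt_mul_of_pos_left hτ h0'
  linarith


end ALX
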