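import Pool.Agent.Lib.ALX.B03
import Pool.Agent.Lib.ALX.B04

/-!
# ALX, chunk B06 (M): shortcut through the third facet

PROOF. As B05 with B03: fix `τ`, `l1 = τ sin y`, `l2 = τ sin x`; for small `ε > 0` the points `z1 = v + (ε l1) • e1`, `z2 = v + (ε l2) • e2` (`e1, e2` the unit vectors of `e, e'`) lie in
`Fc a' ∩ Fc c` resp. `Fc c ∩ Fc a''`, and `dl (v + ε s) (v + ε s') ≤ ‖v + ε s - z1‖ + ‖z1 - z2‖ + ‖z2 - v - ε s'‖ < 2 ε`.
-/

open Real MeasureTheory Filter Topology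

namespace ALX

open H47A (E3 cross3 det3 pl)

variable {A : Type} [Fintype A] [DecidableEq A] {n : A → E3}

theorem b06_tend {c : ℝ} (hc : 0 < c) : Tendsto (fun ε : ℝ => ε * c) (𝓝[>] 0) (𝓝[>] 0) := by
  refine tendsto_nhdsWithin_iff.2 ⟨?_, ?_⟩
  · have h : Tendsto (fun ε : ℝ => ε * c) (𝓝 0) (𝓝 (0 * c)) := tendsto_id.mul_const c
    rw [zero_mul] at h
    exact h.mono_left nhdsWithin_le_nhds
  · filter_upwards [self_mem_nhdsWithin] with ε hε
    exact mul_pos (show (0 : ℝ) < ε from hε) hc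

theorem b06_norm (v a b : E3) (ε : ℝ) (h : 0 < ε) : ‖(v + ε • a) - (v + ε • b)‖ = ε * ‖a - b‖ := by
  rw [add_sub_add_left_eq_sub, ← smul_sub, norm_smul, Real.norm_eq_abs, abs_of_pos h]

theorem short_facet (h : Gn n) {a' c a'' : A} {v w w' e e' : E3} (hw : w ∈ Fc n a') (hv : v ∈ Fc n a') (hw' : w' ∈ Fc n a'') (hv' : v ∈ Fc n a'')
    (hne : w ≠ v) (hne' : w' ≠ v) (he : e ≠ 0) (he' : e' ≠ 0) (hE : ∀ᶠ t in 𝓝[>] (0 : ℝ), v + t • e ∈ Fc n a' ∧ v + t • e ∈ Fc n c)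
    (hE' : ∀ᶠ t in 𝓝[>] (0 : ℝ), v + t • e' ∈ Fc n c ∧ v + t • e' ∈ Fc n a'')
    (hx : 0 < InnerProductGeometry.angle (w - v) e) (hy : 0 < InnerProductGeometry.angle e' (w' - v))
    (hang : InnerProductGeometry.angle (w - v) e + InnerProductGeometry.angle e e' + InnerProductGeometry.angle e' (w' - v) < π) :
    dl n w w' < ‖w - v‖ + ‖v - w'‖ := by
  have pw : 0 < ‖w - v‖ := norm_pos_iff.2 (sub_ne_zero.2 hne)
  have pw' : 0 < ‖w' - v‖ := norm_pos_iff.2 (sub_ne_zero.2 hne')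
  have pe : 0 < ‖e‖ := norm_pos_iff.2 he
  have pe' : 0 < ‖e'‖ := norm_pos_iff.2 he'
  set s : E3 := ‖w - v‖⁻¹ • (w - v) with hs
  set s' : E3 := ‖w' - v‖⁻¹ • (w' - v) with hs'
  set e1 : E3 := ‖e‖⁻¹ • e with he1
  set e2 : E3 := ‖e'‖⁻¹ • e' with he2
  have unit : ∀ x : E3, 0 < ‖x‖ → ‖‖x‖⁻¹ • x‖ = 1 := by
    intro x hx
    rw [norm_smul, norm_inv, norm_norm, inv_mul_cancel₀ hx.ne']
  have a1 : InnerProductGeometry.angle s e1 = InnerProductGeometry.angle (w - v) e := by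
    rw [hs, he1, InnerProductGeometry.angle_smul_left_of_pos _ _ (inv_pos.2 pw), InnerProductGeometry.angle_smul_right_of_pos _ _ (inv_pos.2 pe)]
  have a2 : InnerProductGeometry.angle e1 e2 = InnerProductGeometry.angle e e' := by
    rw [he1, he2, InnerProductGeometry.angle_smul_left_of_pos _ _ (inv_pos.2 pe), InnerProductGeometry.angle_smul_right_of_pos _ _ (inv_pos.2 pe')]
  have a3 : InnerProductGeometry.angle e2 s' = InnerProductGeometry.angle e' (w' - v) := by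
    rw [hs', he2, InnerProductGeometry.angle_smul_left_of_pos _ _ (inv_pos.2 pe'), InnerProductGeometry.angle_smul_right_of_pos _ _ (inv_pos.2 pw')]
  have four := short_four (unit _ pw) (unit _ pw') (unit _ pe) (unit _ pe') (by rw [← hs, ← he1, a1]; exact hx) (by rw [← hs', ← he2, a3]; exact hy)
    (by rw [← hs, ← he1, ← hs', ← he2, a1, a2, a3]; exact hang)
  rw [← hs, ← he1, ← hs', ← he2, a1, a3] at four
  have g0 := InnerProductGeometry.angle_nonneg e e'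
  have sx : 0 < Real.sin (InnerProductGeometry.angle (w - v) e) := Real.sin_pos_of_pos_of_lt_pi hx (by linarith)
  have sy : 0 < Real.sin (InnerProductGeometry.angle e' (w' - v)) := Real.sin_pos_of_pos_of_lt_pi hy (by linarith)
  obtain ⟨τ, hτ, hτ0⟩ := (four.and self_mem_nhdsWithin).exists
  have hτ0' : 0 < τ := hτ0
  set l1 : ℝ := τ * Real.sin (InnerProductGeometry.angle e' (w' - v)) with hl1
  set l2 : ℝ := τ * Real.sin (InnerProductGeometry.angle (w - v) e) with hl2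
  have l1p : 0 < l1 := mul_pos hτ0' sy
  have l2p : 0 < l2 := mul_pos hτ0' sx
  refine shortcut h hw hv hw' hv' hne hne' (Eventually.frequently ?_)
  have t1 := (b06_tend (c := l1 * ‖e‖⁻¹) (mul_pos l1p (inv_pos.2 pe))).eventually hE
  have t2 := (b06_tend (c := l2 * ‖e'‖⁻¹) (mul_pos l2p (inv_pos.2 pe'))).eventually hE'
  filter_upwards [self_mem_nhdsWithin, mem_nhdsWithin_of_mem_nhds (Iio_mem_nhds pw), mem_nhdsWithin_of_mem_nhds (Iio_mem_nhds pw'), t1, t2] with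
    ε h0 h1 h2 h3 h4
  have h0' : 0 < ε := h0
  have hz1 : v + (ε * (l1 * ‖e‖⁻¹)) • e = v + ε • (l1 • e1) := by
    rw [he1, smul_smul, smul_smul, ← mul_assoc]
  have hz2 : v + (ε * (l2 * ‖e'‖⁻¹)) • e' = v + ε • (l2 • e2) := by
    rw [he2, smul_smul, smul_smul, ← mul_assoc]
  rw [hz1] at h3
  rw [hz2] at h4
  obtain ⟨p1, -⟩ := b04_pt hw hv hne h0' (le_of_lt h1)
  obtain ⟨p2, -⟩ := b04_pt hw' hv' hne' h0' (le_of_lt h2)
  rw [← hs] at p1
  rw [← hs'] at p2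
  have d1 := dl_tri h (Fc_sub_bd a' p1) (Fc_sub_bd a' h3.1) (Fc_sub_bd a'' p2)
  have d2 := dl_tri h (Fc_sub_bd c h3.2) (Fc_sub_bd c h4.1) (Fc_sub_bd a'' p2)
  rw [dl_Fc h p1 h3.1, b06_norm _ _ _ _ h0'] at d1
  rw [dl_Fc h h3.2 h4.1, dl_Fc h h4.2 p2, b06_norm _ _ _ _ h0', b06_norm _ _ _ _ h0'] at d2
  nlinarith


end ALX
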