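import Pool.Agent.Lib.ALX.P05
import Pool.Agent.Lib.ALX.B01
import Pool.Agent.Lib.ALX.B05
import Pool.Agent.Lib.ALX.B06

/-!
# ALX, chunk B07 (M/L): the vertex lemma for different facets

PROOF. `E = ed n a b c`, `F = ed n a c b`, `G = ed n b c a` (edges a b, a c, b c at `v`; ed_symm). By P05 cone `w - v` is a nonnegative combination of `E, F` and `w' - v` of `E, G`, so by
B01 angle_cone `angle (w - v) E + angle (w - v) F = angle E F`, `angle (w' - v) E + angle (w' - v) G = angle E G`, and `angle E F + angle E G + angle F G < 2 π` (B01 angle_sum_lt;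
`det3 E F G ≠ 0`: H47A.cross3_cross / det3 of the cross products is the square of the determinant; or: the Gram matrix with `n a, n b, n c` is diagonal with entries `-det^2`, H47A.det3_mul). So
either (1) `angle (w - v) E + angle (w' - v) E < π` or (2) `angle (w - v) F + angle F G + angle G (w' - v) < π`.
(1): B05 with `e = E` (the points `v + t E` lie in `Fc a ∩ Fc b` for small `t > 0`: P05 cone_conv). (2) with both angles positive: B06 with `c`, `e = F`, `e' = G`.
(2) with `angle (w - v) F = 0`: `w - v` is a positive multiple of `F` (InnerProductGeometry.angle_eq_zero_iff), so `w ∈ Fc n c`, and B05 with `a' = c`, `a'' = b`, `e = G`.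
(2) with `angle G (w' - v) = 0`: `w' ∈ Fc n c`, B05 with `a' = a`, `a'' = c`, `e = F`.
-/

open Real MeasureTheory Filter Topology

namespace ALX

open H47A (E3 cross3 det3 pl)

variable {A : Type} [Fintype A] [DecidableEq A] {n : A → E3}

theorem b07_edge (h : Gn n) {a b c : A} (hab : a ≠ b) (hbc : b ≠ c) (hac : a ≠ c) {v : E3} (hv : At n v {a, b, c}) :
    ∀ᶠ t in 𝓝[>] (0 : ℝ), v + t • ed n a b c ∈ Fc n a ∧ v + t • ed n a b c ∈ Fc n b := by
  refine (cone_conv h hab hbc hac hv (l := 1) (m := 0) zero_le_one le_rfl).mono fun t ht => ?_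
  have h1 := ht.2.2 one_pos rfl
  rw [one_smul, zero_smul, add_zero] at h1
  exact h1.two

theorem b07_perm {v : E3} {s s' : Finset A} (hv : At n v s) (hs : s = s') : At n v s' := hs ▸ hv

theorem vertex_diff (h : Gn n) {a b c : A} (hab : a ≠ b) (hbc : b ≠ c) (hac : a ≠ c) {v w w' : E3} (hv : At n v {a, b, c})
    (hw : w ∈ Fc n a) (hw' : w' ∈ Fc n b) (hne : w ≠ v) (hne' : w' ≠ v) : dl n w w' < ‖w - v‖ + ‖v - w'‖ := by
  have hv_bac : At n v {b, a, c} := b07_perm hv (by ext x; simp; tauto)
  have hv_acb : At n v {a, c, b} := b07_perm hv (by ext x; simp; tauto)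
  have hv_cba : At n v {b, c, a} := b07_perm hv (by ext x; simp; tauto)
  have hva : v ∈ Fc n a := hv.mem (by simp)
  have hvb : v ∈ Fc n b := hv.mem (by simp)
  have hvc : v ∈ Fc n c := hv.mem (by simp)
  obtain ⟨l, m, hl, hm, hlm⟩ := cone h hab hbc hac hv hw
  obtain ⟨l', m', hl', hm', hlm'⟩ := cone h hab.symm hac hbc hv_bac hw'
  rw [ed_symm a b c] at hlm'
  have hE0 := ed_ne h hab hbc hac
  have hF0 := ed_ne h hac hbc.symm hab
  have hG0 := ed_ne h hbc hac.symm hab.symm
  have hEe := b07_edge h hab hbc hac hv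
  have hFe := b07_edge h hac hbc.symm hab hv_acb
  have hGe := b07_edge h hbc hac.symm hab.symm hv_cba
  obtain ⟨ea, eb, ec⟩ := ed_inner (n := n) a b c
  obtain ⟨fa, fc, fb⟩ := ed_inner (n := n) a c b
  obtain ⟨gb, gc, ga⟩ := ed_inner (n := n) b c a
  have hd := h.three a b c hab hbc hac
  have hdf := h.three a c b hac hbc.symm hab
  have hdg := h.three b c a hbc hac.symm hab.symm
  have hdet : det3 (ed n a b c) (ed n a c b) (ed n b c a) ≠ 0 := by
    intro h0
    have h1 := H47A.det3_mul (n a) (n b) (n c) (ed n a b c) (ed n a c b) (ed n b c a)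
    rw [h0, mul_zero, ea, eb, ec, fa, fc, fb, ga, gb, gc] at h1
    have h2 : (det3 (n b) (n c) (n a)) ^ 2 * ((det3 (n a) (n c) (n b)) ^ 2 * (det3 (n a) (n b) (n c)) ^ 2) ≠ 0 := by
      positivity
    apply h2
    linarith
  set E := ed n a b c with hE
  set F := ed n a c b with hF
  set G := ed n b c a with hG
  have hne1 : l • E + m • F ≠ 0 := by
    rw [← hlm]
    exact sub_ne_zero.2 hne
  have hne2 : l' • E + m' • G ≠ 0 := by
    rw [← hlm']
    exact sub_ne_zero.2 hne'
  have hA := angle_cone hl hm hne1
  have hB := angle_cone hl' hm' hne2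
  rw [← hlm] at hA
  rw [← hlm'] at hB
  have hS := angle_sum_lt hdet
  have c1 := InnerProductGeometry.angle_comm E (w - v)
  have c2 := InnerProductGeometry.angle_comm E (w' - v)
  have c3 := InnerProductGeometry.angle_comm (w' - v) G
  have c4 := InnerProductGeometry.angle_comm F G
  rcases lt_or_ge (InnerProductGeometry.angle (w - v) E + InnerProductGeometry.angle (w' - v) E) π with h1 | h1
  · exact short_edge h hw hva hw' hvb hne hne' hE0 hEe h1
  · have h2 : InnerProductGeometry.angle (w - v) F + InnerProductGeometry.angle F G +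
        InnerProductGeometry.angle G (w' - v) < π := by linarith
    rcases (InnerProductGeometry.angle_nonneg (w - v) F).eq_or_lt' with hx | hx
    · obtain ⟨-, r, hr, hFr⟩ := InnerProductGeometry.angle_eq_zero_iff.1 hx
      have hwc : w ∈ Fc n c := by
        refine ⟨hw.1, ?_⟩
        have h3 : lf n c F = r * lf n c (w - v) := by rw [hFr, lf_smul]
        have h4 : lf n c F = 0 := fc
        rw [h4, lf_sub, hvc.2] at h3
        have h5 := (mul_eq_zero.1 h3.symm).resolve_left hr.ne'
        linarith
      have h6 : InnerProductGeometry.angle (w - v) G = InnerProductGeometry.angle F G := by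
        rw [hFr, InnerProductGeometry.angle_smul_left_of_pos _ _ hr]
      refine short_edge h hwc hvc hw' hvb hne hne' hG0 (hGe.mono fun t ht => ⟨ht.2, ht.1⟩) ?_
      rw [h6]
      linarith
    · rcases (InnerProductGeometry.angle_nonneg (w' - v) G).eq_or_lt' with hy | hy
      · obtain ⟨-, r, hr, hGr⟩ := InnerProductGeometry.angle_eq_zero_iff.1 hy
        have hwc : w' ∈ Fc n c := by
          refine ⟨hw'.1, ?_⟩
          have h3 : lf n c G = r * lf n c (w' - v) := by rw [hGr, lf_smul]
          have h4 : lf n c G = 0 := gc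
          rw [h4, lf_sub, hvc.2] at h3
          have h5 := (mul_eq_zero.1 h3.symm).resolve_left hr.ne'
          linarith
        have h6 : InnerProductGeometry.angle (w' - v) F = InnerProductGeometry.angle G F := by
          rw [hGr, InnerProductGeometry.angle_smul_left_of_pos _ _ hr]
        refine short_edge h hw hva hwc hvc hne hne' hF0 hFe ?_
        rw [h6]
        linarith
      · rw [c3] at hy
        exact short_facet h hw hva hw' hvb hne hne' hF0 hG0 hFe (hGe.mono fun t ht => ⟨ht.2, ht.1⟩) hx hy h2


end ALX
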