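import Pool.Agent.Lib.ALX.P13
import Pool.Agent.Lib.ALX.B07

/-!
# ALX, chunk B08 (S/M): THE VERTEX LEMMA

PROOF. `a' ≠ a''`: `Ac n v` has three elements (Gn.card_le, `hv`), so `At n v {a', a'', c}`; B07. `a' = a''`: `dl w w' = ‖w - w'‖` (A07 dl_Fc), and equality
`‖w - w'‖ = ‖w - v‖ + ‖v - w'‖` would put `v` strictly between `w` and `w'` (dist_add_dist_eq_iff, Wbtw), a contradiction to P13 (vertex_extreme; not_vertex).
-/

open Real MeasureTheory Filter Topology

namespace ALX

open H47A (E3 cross3 det3 pl)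

variable {A : Type} [Fintype A] [DecidableEq A] {n : A → E3}

theorem vertex_short (h : Gn n) {a' a'' : A} {v w w' : E3} (hv : v ∈ Vs n) (hw : w ∈ Fc n a') (hv1 : v ∈ Fc n a') (hw' : w' ∈ Fc n a'')
    (hv2 : v ∈ Fc n a'') (hne : w ≠ v) (hne' : w' ≠ v) : dl n w w' < ‖w - v‖ + ‖v - w'‖ := by
  by_cases hab : a' = a''
  · subst hab
    rw [dl_Fc h hw hw']
    have h1 : ‖w - w'‖ ≤ ‖w - v‖ + ‖v - w'‖ := by
      have h2 := norm_add_le (w - v) (v - w')
      rwa [sub_add_sub_cancel] at h2
    refine lt_of_le_of_ne h1 fun he => ?_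
    have h2 : Wbtw ℝ w v w' := dist_add_dist_eq_iff.1 (by
      rw [dist_eq_norm, dist_eq_norm, dist_eq_norm]
      exact he.symm)
    obtain ⟨t, ⟨ht0, ht1⟩, ht⟩ := h2
    have hpos : 0 < t := by
      refine lt_of_le_of_ne ht0 fun h0 => hne ?_
      rw [← h0, AffineMap.lineMap_apply_zero] at ht
      exact ht
    have hlt : t < 1 := by
      refine lt_of_le_of_ne ht1 fun h0 => hne' ?_
      rw [h0, AffineMap.lineMap_apply_one] at ht
      exact ht
    exact hne (vertex_extreme h hv hw.1 hw'.1 hpos hlt ht.symm).1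
  · have h3 : (Ac n v).card = 3 := le_antisymm (h.card_le v) hv.2
    have ha : a' ∈ Ac n v := mem_Ac.2 hv1.2
    have hb : a'' ∈ Ac n v := mem_Ac.2 hv2.2
    have h2 : ({a', a''} : Finset A).card = 2 := Finset.card_pair hab
    obtain ⟨c, hc, hcn⟩ := Finset.exists_mem_notMem_of_card_lt_card (s := {a', a''}) (t := Ac n v) (by omega)
    rw [Finset.mem_insert, Finset.mem_singleton, not_or] at hcn
    have hsub : ({a', a'', c} : Finset A) ⊆ Ac n v := by
      intro d hd
      simp only [Finset.mem_insert, Finset.mem_singleton] at hd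
      rcases hd with rfl | rfl | rfl
      · exact ha
      · exact hb
      · exact hc
    have h4 : ({a', a'', c} : Finset A).card = 3 :=
      Finset.card_eq_three.2 ⟨a', a'', c, hab, Ne.symm hcn.1, Ne.symm hcn.2, rfl⟩
    have hat : At n v {a', a'', c} := ⟨hv.1, (Finset.eq_of_subset_of_card_le hsub (by omega)).symm⟩
    exact vertex_diff h hab (Ne.symm hcn.2) (Ne.symm hcn.1) hat hw hw' hne hne'


end ALX
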