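import Pool.Agent.Lib.ALX.P10

/-!
# ALX, chunk B09 (M): a locally shortest polygon is straight at an edge

PROOF. `Z = rho n a b y2` lies in the plane of `a` (rho_plane) with `lf b Z ≥ 1` (P10 rho_side_le), and `‖z - y2‖ = ‖z - Z‖` for `z` on both planes (`rho` is an isometry which fixes `z`). The
function `f z = ‖y1 - z‖ + ‖z - Z‖` is convex on the line `L = {lf a = 1, lf b = 1}` (a convex set) and has a local minimum at `y`, hence a global minimum on `L`
(IsMinOn.of_isLocalMinOn_of_convexOn). `lf b` is affine, `lf b y1 ≤ 1 ≤ lf b Z`, so there is a point `y'` of the segment `[y1, Z]` (in the plane of `a`) with `lf b y' = 1`, and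
`f y ≤ f y' = ‖y1 - Z‖`. With the triangle inequality: equality. Finally `‖y - Z‖`: `Z = rho n a b y2`.
-/

open Real MeasureTheory Filter Topology

namespace ALX

open H47A (E3 cross3 det3 pl)

variable {A : Type} [Fintype A] [DecidableEq A] {n : A → E3}

theorem hinge_straight (h : Gn n) {a b : A} (hab : a ≠ b) {y y1 y2 : E3} (hy : lf n a y = 1) (hy' : lf n b y = 1) (h1 : lf n a y1 = 1)
    (h1' : lf n b y1 ≤ 1) (h2 : lf n b y2 = 1) (h2' : lf n a y2 ≤ 1)
    (hmin : ∀ᶠ z in 𝓝 y, lf n a z = 1 → lf n b z = 1 → ‖y1 - y‖ + ‖y - y2‖ ≤ ‖y1 - z‖ + ‖z - y2‖) :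
    ‖y1 - y‖ + ‖y - rho n a b y2‖ = ‖y1 - rho n a b y2‖ := by
  set Z : E3 := rho n a b y2 with hZ
  have hZa : lf n a Z = 1 := (rho_plane h).2 h2
  have hZb : 1 ≤ lf n b Z := rho_side_le h hab h2 h2'
  have hfix : ∀ z : E3, lf n a z = 1 → lf n b z = 1 → ‖z - y2‖ = ‖z - Z‖ := by
    intro z ha hb
    have e1 : rho n a b z = z := (rho_spec h a b).fix z ha hb
    have e2 := (rho n a b).dist_map z y2
    rw [e1, dist_eq_norm, dist_eq_norm] at e2
    exact e2.symm
  set f : E3 → ℝ := fun z => ‖y1 - z‖ + ‖z - Z‖ with hf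
  set L : Set E3 := {z | lf n a z = 1 ∧ lf n b z = 1} with hL
  have hLc : Convex ℝ L := by
    intro u hu v hv s t hs ht hst
    refine ⟨?_, ?_⟩
    · rw [lf_add, lf_smul, lf_smul, hu.1, hv.1, mul_one, mul_one]
      exact hst
    · rw [lf_add, lf_smul, lf_smul, hu.2, hv.2, mul_one, mul_one]
      exact hst
  have hfc : ConvexOn ℝ L f := by
    have c1 : ConvexOn ℝ Set.univ (fun z : E3 => ‖z - Z‖) := by
      have := (convexOn_univ_dist Z)
      refine this.congr fun z _ => ?_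
      exact dist_eq_norm z Z
    have c2 : ConvexOn ℝ Set.univ (fun z : E3 => ‖y1 - z‖) := by
      have := (convexOn_univ_dist y1)
      refine this.congr fun z _ => ?_
      show dist z y1 = ‖y1 - z‖
      rw [dist_comm, dist_eq_norm]
    exact (c2.add c1).subset (Set.subset_univ _) hLc
  have hloc : IsLocalMinOn f L y := by
    have h3 : ∀ᶠ z in 𝓝[L] y, lf n a z = 1 → lf n b z = 1 → ‖y1 - y‖ + ‖y - y2‖ ≤ ‖y1 - z‖ + ‖z - y2‖ :=
      hmin.filter_mono nhdsWithin_le_nhds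
    have h4 : ∀ᶠ z in 𝓝[L] y, z ∈ L := self_mem_nhdsWithin
    refine (h3.and h4).mono fun z hz => ?_
    have h5 := hz.1 hz.2.1 hz.2.2
    rw [hfix z hz.2.1 hz.2.2, hfix y hy hy'] at h5
    exact h5
  have hglob := IsMinOn.of_isLocalMinOn_of_convexOn (show y ∈ L from ⟨hy, hy'⟩) hloc hfc
  obtain ⟨t, ht0, ht1, ht⟩ : ∃ t : ℝ, 0 ≤ t ∧ t ≤ 1 ∧ (1 - t) * lf n b y1 + t * lf n b Z = 1 := by
    by_cases he : lf n b Z = lf n b y1
    · exact ⟨0, le_rfl, zero_le_one, by rw [he] at hZb; linarith⟩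
    · have hd : 0 < lf n b Z - lf n b y1 := by
        rcases lt_or_eq_of_le (show lf n b y1 ≤ lf n b Z by linarith) with h5 | h5
        · linarith
        · exact absurd h5.symm he
      refine ⟨(1 - lf n b y1) / (lf n b Z - lf n b y1), div_nonneg (by linarith) hd.le, ?_, ?_⟩
      · rw [div_le_one hd]
        linarith
      · field_simp
        ring
  set y' : E3 := AffineMap.lineMap y1 Z t with hy'd
  have hy'L : y' ∈ L := by
    refine ⟨?_, ?_⟩
    · rw [hy'd, lf_line, h1, hZa]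
      ring
    · rw [hy'd, lf_line]
      exact ht
  have hW : Wbtw ℝ y1 y' Z := ⟨t, ⟨ht0, ht1⟩, rfl⟩
  have h6 := hW.dist_add_dist
  rw [dist_eq_norm, dist_eq_norm, dist_eq_norm] at h6
  have h7 : f y ≤ f y' := hglob hy'L
  have h8 : ‖y1 - y‖ + ‖y - Z‖ ≤ ‖y1 - Z‖ := by
    have h9 : ‖y1 - y‖ + ‖y - Z‖ ≤ ‖y1 - y'‖ + ‖y' - Z‖ := h7
    linarith
  refine le_antisymm h8 ?_
  have h9 := norm_add_le (y1 - y) (y - Z)
  rwa [sub_add_sub_cancel] at h9


end ALX
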