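import Pool.Agent.Lib.ALX.B08
import Pool.Agent.Lib.ALX.B09
import Pool.Agent.Lib.ALX.P04

/-!
# ALX, chunk B10 (M): regularity of shortest polygons at a point

PROOF. `x ∉ Vs n` by B08. `a = b`: A07 dl_Fc. `a ≠ b`: `Ac n x` contains `a, b` and has less than three elements, so `At n x {a, b}`. For `z` near `x` with `lf a z = lf b z = 1` the point `z` lies
in both facets (P04 near_two), so `‖w - x‖ + ‖x - w'‖ = dl w w' ≤ ‖w - z‖ + ‖z - w'‖` (A07); B09.
-/

open Real MeasureTheory Filter Topology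

namespace ALX

open H47A (E3 cross3 det3 pl)

variable {A : Type} [Fintype A] [DecidableEq A] {n : A → E3}

theorem local_reg (h : Gn n) {a b : A} {x w w' : E3} (hw : w ∈ Fc n a) (hx : x ∈ Fc n a) (hw' : w' ∈ Fc n b) (hx' : x ∈ Fc n b)
    (hne : w ≠ x) (hne' : w' ≠ x) (hd : dl n w w' = ‖w - x‖ + ‖x - w'‖) :
    x ∉ Vs n ∧ (a = b → ‖w - x‖ + ‖x - w'‖ = ‖w - w'‖) ∧
      (a ≠ b → At n x {a, b} ∧ ‖w - x‖ + ‖x - rho n a b w'‖ = ‖w - rho n a b w'‖) := by
  have hxV : x ∉ Vs n := fun hv => absurd hd (vertex_short h hv hw hx hw' hx' hne hne').ne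
  refine ⟨hxV, fun hab => ?_, fun hab => ?_⟩
  · subst hab
    rw [← hd, dl_Fc h hw hw']
  · have hsub : ({a, b} : Finset A) ⊆ Ac n x := by
      intro d hd
      simp only [Finset.mem_insert, Finset.mem_singleton] at hd
      rcases hd with rfl | rfl
      · exact mem_Ac.2 hx.2
      · exact mem_Ac.2 hx'.2
    have hlt : (Ac n x).card < 3 := by
      by_contra hc
      exact hxV ⟨hx.1, not_lt.1 hc⟩
    have h2 : ({a, b} : Finset A).card = 2 := Finset.card_pair hab
    have hat : At n x {a, b} := ⟨hx.1, (Finset.eq_of_subset_of_card_le hsub (by omega)).symm⟩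
    refine ⟨hat, ?_⟩
    refine hinge_straight h hab hx.2 hx'.2 hw.2 (hw.1 b) hw'.2 (hw'.1 a) ?_
    filter_upwards [near_two hab hat] with z hz h1 h2
    have hz' := hz.1 h1 h2
    rw [← hd]
    have t := dl_tri h (Fc_sub_bd a hw) (Fc_sub_bd a hz'.two.1) (Fc_sub_bd b hw')
    rwa [dl_Fc h hw hz'.two.1, dl_Fc h hz'.two.2 hw'] at t


end ALX
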