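import Pool.Agent.Lib.ALX.Defs2
import Pool.Agent.Lib.ALX.P11
import Pool.Agent.Lib.ALX.P12

/-!
# ALX, chunk B11 (S/M): rays: elementary facts

PROOF: induction / cases on `Ray`. `isUn`: P11 isUn_chT with `last`. `line`: `q + s • u` lies in the plane of `a0`, P12 symm_plane. `ReachL` is definitional after injectivity of `cons`.
-/

open Real MeasureTheory Filter Topology

namespace ALX

open H47A (E3 cross3 det3 pl)

variable {A : Type} [Fintype A] [DecidableEq A] {n : A → E3}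

variable {a0 : A} {q u : E3}

theorem Ray.last {l : List A} {t : ℝ} (h : Ray n a0 q u l t) : l.getLast? = some a0 := by
  induction h with
  | base => rfl
  | step h1 h2 h3 h4 ih =>
    rw [List.getLast?_cons_cons]
    exact ih

theorem Ray.nodup {l : List A} {t : ℝ} (h : Ray n a0 q u l t) : l.Nodup := by
  induction h with
  | base => exact List.nodup_singleton _
  | step h1 h2 h3 h4 ih => exact List.nodup_cons.2 ⟨h2, ih⟩

theorem Ray.nonneg {l : List A} {t : ℝ} (h : Ray n a0 q u l t) : 0 ≤ t := by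
  induction h with
  | base => exact le_rfl
  | step h1 h2 h3 h4 ih => exact ih.trans h3.le

theorem Ray.inv {a b : A} {c : List A} {t' : ℝ} (h : Ray n a0 q u (b :: a :: c) t') :
    ∃ t, Ray n a0 q u (a :: c) t ∧ b ∉ a :: c ∧ t < t' ∧ At n ((chT n (a :: c)).symm (q + t' • u)) {a, b} := by
  cases h with
  | step h1 h2 h3 h4 => exact ⟨_, h1, h2, h3, h4⟩

theorem Ray.inv_one {a : A} {t : ℝ} (h : Ray n a0 q u [a] t) : a = a0 ∧ t = 0 := by
  cases h with
  | base => exact ⟨rfl, rfl⟩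

theorem Ray.ne_nil {l : List A} {t : ℝ} (h : Ray n a0 q u l t) : ∃ a c, l = a :: c := by
  cases h with
  | base => exact ⟨_, _, rfl⟩
  | step h1 h2 h3 h4 => exact ⟨_, _, rfl⟩

theorem reachL_cons {a : A} {c : List A} {x : E3} {r : ℝ} :
    ReachL n a0 q u x r (a :: c) ↔ ∃ t, Ray n a0 q u (a :: c) t ∧ x ∈ Fc n a ∧ t < r ∧ chT n (a :: c) x = q + r • u := by
  constructor
  · rintro ⟨a', c', t, hl, h1, h2, h3, h4⟩
    obtain ⟨ha, hc⟩ := List.cons_eq_cons.1 hl
    subst ha
    subst hc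
    exact ⟨t, h1, h2, h3, h4⟩
  · rintro ⟨t, h1, h2, h3, h4⟩
    exact ⟨a, c, t, rfl, h1, h2, h3, h4⟩

theorem Ray.isUn (hG : Gn n) {a : A} {c : List A} {t : ℝ} (h : Ray n a0 q u (a :: c) t) : IsUn n a a0 (chT n (a :: c)) := by
  exact isUn_chT hG h.last

theorem Ray.line (hG : Gn n) (hq : lf n a0 q = 1) (hu : Dir n a0 u) {a : A} {c : List A} {t : ℝ} (h : Ray n a0 q u (a :: c) t) (s : ℝ) :
    lf n a ((chT n (a :: c)).symm (q + s • u)) = 1 := by
  refine ((h.isUn hG).plane_iff hG).1 ?_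
  rw [AffineIsometryEquiv.apply_symm_apply, lf_add, lf_smul, hu.lf, hq, mul_zero, add_zero]


end ALX
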