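import Pool.Agent.Lib.ALX.B11
import Pool.Agent.Lib.ALX.A07
import Pool.Agent.Lib.ALX.P13

/-!
# ALX, chunk B12 (M): the points of a ray

PROOF: induction on `Ray`. Start: the point is `q` (`At n q {a0}`; `dl q q = 0`; there is no `s`). Step: `z' = (chT n (a :: c)).symm (q + t' • u)`, `At n z' {a, b}`, and also
`z' = (chT n (b :: a :: c)).symm (q + t' • u)` because `rho n a b` fixes `z'` (P09 rho_spec). `dl q z' ≤ dl q z + ‖z - z'‖ ≤ t + (t' - t)` with `z` the previous point (both in `Fc n a`; isometry,
`‖u‖ = 1`). For `d ∉ b :: a :: c`: `lf d z' < 1` by At.lt. For `t < s < t'`: `y = (chT n (a :: c)).symm (q + s • u)` lies on the segment `[z, z'] ⊆ Fc n a`, strictly between its end points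
(not a vertex, P13 not_vertex), `ReachL` with the list `a :: c`. `s = t'`: `y = z'` with the list `a :: c`, not a vertex because `Ac` has two elements. `s ≤ t`: induction hypothesis and
`dl y z' ≤ dl y z + ‖z - z'‖`.
-/

open Real MeasureTheory Filter Topology

namespace ALX

open H47A (E3 cross3 det3 pl)

variable {A : Type} [Fintype A] [DecidableEq A] {n : A → E3}

variable {a0 : A} {q u : E3}

theorem b12_iso (S : E3 ≃ᵃⁱ[ℝ] E3) (z w : E3) : ‖S z - S w‖ = ‖z - w‖ := by
  rw [← dist_eq_norm, ← dist_eq_norm, S.dist_map]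

theorem b12_dist (hu : Dir n a0 u) (S : E3 ≃ᵃⁱ[ℝ] E3) {s r : ℝ} (hsr : s ≤ r) :
    ‖S.symm (q + s • u) - S.symm (q + r • u)‖ = r - s := by
  rw [b12_iso, add_sub_add_left_eq_sub, ← sub_smul, norm_smul, hu.1, mul_one, Real.norm_eq_abs, abs_sub_comm,
    abs_of_nonneg (by linarith)]

theorem b12_aux (hG : Gn n) (hq : At n q {a0}) (hu : Dir n a0 u) {l : List A} {t : ℝ} (h : Ray n a0 q u l t) :
    ∀ (a : A) (c : List A), l = a :: c →
    (chT n (a :: c)).symm (q + t • u) ∈ Fc n a ∧ dl n q ((chT n (a :: c)).symm (q + t • u)) ≤ t ∧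
      (∀ d, d ∉ a :: c → lf n d ((chT n (a :: c)).symm (q + t • u)) < 1) ∧
      ∀ s, 0 < s → s ≤ t → ∃ y, Reach n a0 q u y s ∧ dl n y ((chT n (a :: c)).symm (q + t • u)) ≤ t - s ∧ y ∉ Vs n := by
  have hqb : q ∈ bd n := hq.bd ⟨a0, by simp⟩
  induction h with
  | base =>
    intro a c hl
    obtain ⟨rfl, rfl⟩ := List.cons.inj hl
    have h1 : (chT n [a0]).symm (q + (0 : ℝ) • u) = q := by
      rw [zero_smul, add_zero]
      rfl
    rw [h1]
    refine ⟨hq.mem (by simp), by rw [dl_self hqb], fun d hd => hq.lt (by simpa using hd), fun s hs hs0 => ?_⟩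
    exact absurd hs0 (not_le.2 hs)
  | @step a b c t t' hray hb htt hAt ih =>
    intro b' c' hl
    obtain ⟨rfl, rfl⟩ := List.cons.inj hl
    obtain ⟨hz, hdz, -, hpt⟩ := ih a c rfl
    obtain ⟨hza, hzb⟩ := hAt.two
    have hfix : (chT n (b :: a :: c)).symm (q + t' • u) = (chT n (a :: c)).symm (q + t' • u) := by
      rw [AffineIsometryEquiv.symm_apply_eq, chT_cons_apply, (rho_spec hG a b).fix _ hza.2 hzb.2,
        AffineIsometryEquiv.apply_symm_apply]
    rw [hfix]
    set z := (chT n (a :: c)).symm (q + t • u) with hzd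
    set z' := (chT n (a :: c)).symm (q + t' • u) with hzd'
    have hzz : ‖z - z'‖ = t' - t := b12_dist hu _ htt.le
    have hdzz : dl n z z' = t' - t := by rw [dl_Fc hG hz hza, hzz]
    refine ⟨hzb, ?_, ?_, ?_⟩
    · have h1 := dl_tri hG hqb (Fc_sub_bd a hz) (Fc_sub_bd a hza)
      linarith
    · intro d hd
      apply hAt.lt
      intro h1
      apply hd
      simp only [Finset.mem_insert, Finset.mem_singleton] at h1
      rcases h1 with rfl | rfl
      · simp
      · simp
    · intro s hs hst
      rcases le_or_gt s t with h1 | h1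
      · obtain ⟨y, hy, hyz, hyV⟩ := hpt s hs h1
        have hyb : y ∈ bd n := by
          obtain ⟨l, a1, c1, t1, -, -, h2, -, -⟩ := hy
          exact Fc_sub_bd a1 h2
        refine ⟨y, hy, ?_, hyV⟩
        have h2 := dl_tri hG hyb (Fc_sub_bd a hz) (Fc_sub_bd a hza)
        linarith
      · rcases hst.lt_or_eq with h2 | h2
        · have hrt : 0 < t' - t := by linarith
          have hyl : (chT n (a :: c)).symm (q + s • u) = AffineMap.lineMap z z' ((s - t) / (t' - t)) := by
            have h3 : q + s • u = AffineMap.lineMap (q + t • u) (q + t' • u) ((s - t) / (t' - t)) := by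
              rw [AffineMap.lineMap_apply_module']
              have h4 : (q + t' • u) - (q + t • u) = (t' - t) • u := by
                rw [add_sub_add_left_eq_sub, ← sub_smul]
              rw [h4, smul_smul, div_mul_cancel₀ _ hrt.ne', sub_smul]
              abel
            rw [h3]
            exact AffineMap.apply_lineMap ((chT n (a :: c)).symm.toAffineEquiv.toAffineMap) _ _ _
          have h5 : 0 < (s - t) / (t' - t) := div_pos (by linarith) hrt
          have h6 : (s - t) / (t' - t) < 1 := (div_lt_one hrt).2 (by linarith)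
          have hyF : (chT n (a :: c)).symm (q + s • u) ∈ Fc n a := by
            rw [hyl]
            exact (Fc_convex a).lineMap_mem hz hza ⟨h5.le, h6.le⟩
          have hne : z ≠ z' := by
            intro h0
            rw [h0, sub_self, norm_zero] at hzz
            linarith
          refine ⟨_, ⟨_, a, c, t, rfl, hray, hyF, h1, AffineIsometryEquiv.apply_symm_apply _ _⟩, ?_, ?_⟩
          · rw [dl_Fc hG hyF hza]
            exact (b12_dist hu _ h2.le).le
          · rw [hyl]
            exact not_vertex hG hz.1 hza.1 hne h5 h6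
        · refine ⟨z', ⟨_, a, c, t, rfl, hray, hza, by linarith, ?_⟩, ?_, ?_⟩
          · rw [h2]
            exact AffineIsometryEquiv.apply_symm_apply _ _
          · rw [dl_self (Fc_sub_bd a hza)]
            linarith
          · rintro ⟨-, h3⟩
            rw [hAt.2] at h3
            have h4 := Finset.card_le_two (a := a) (b := b)
            omega

theorem Ray.point (hG : Gn n) (hq : At n q {a0}) (hu : Dir n a0 u) {a : A} {c : List A} {t : ℝ} (h : Ray n a0 q u (a :: c) t) :
    (chT n (a :: c)).symm (q + t • u) ∈ Fc n a ∧ dl n q ((chT n (a :: c)).symm (q + t • u)) ≤ t ∧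
      (∀ d, d ∉ a :: c → lf n d ((chT n (a :: c)).symm (q + t • u)) < 1) ∧
      ∀ s, 0 < s → s ≤ t → ∃ y, Reach n a0 q u y s ∧ dl n y ((chT n (a :: c)).symm (q + t • u)) ≤ t - s ∧ y ∉ Vs n :=
  b12_aux hG hq hu h a c rfl


end ALX
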