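import Pool.Agent.Lib.ALX.B12
import Pool.Agent.Lib.ALX.P04

/-!
# ALX, chunk B13 (S/M): the points of a path

PROOF. `x ∈ Fc n a`, `z = (chT n (a :: c)).symm (q + t • u) ∈ Fc n a` (B12), `‖z - x‖ = r - t`. `reach_between`: for `s ≤ t` B12; for `t < s < r` the point `(chT n (a :: c)).symm (q + s • u)` of the
segment `[z, x]` (not a vertex, P13). `reach_short`: `s ≥ dl q y` and `dl q x ≤ dl q y + dl y x ≤ s + (dl q x - s)`, so equality everywhere.
`reach_near`: the ray stays in the facet: P04 near_one, B11 line.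
-/

open Real MeasureTheory Filter Topology

namespace ALX

open H47A (E3 cross3 det3 pl)

variable {A : Type} [Fintype A] [DecidableEq A] {n : A → E3}

variable {a0 : A} {q u : E3}

theorem b13_iso (S : E3 ≃ᵃⁱ[ℝ] E3) (z w : E3) : ‖S z - S w‖ = ‖z - w‖ := by
  rw [← dist_eq_norm, ← dist_eq_norm, S.dist_map]

theorem b13_dist (hu : Dir n a0 u) (S : E3 ≃ᵃⁱ[ℝ] E3) {s r : ℝ} (hsr : s ≤ r) :
    ‖S.symm (q + s • u) - S.symm (q + r • u)‖ = r - s := by
  rw [b13_iso, add_sub_add_left_eq_sub, ← sub_smul, norm_smul, hu.1, mul_one, Real.norm_eq_abs, abs_sub_comm,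
    abs_of_nonneg (by linarith)]

theorem reach_dl (hG : Gn n) (hq : At n q {a0}) (hu : Dir n a0 u) {x : E3} {r : ℝ} (h : Reach n a0 q u x r) : x ∈ bd n ∧ 0 < r ∧ dl n q x ≤ r := by
  obtain ⟨l, a, c, t, rfl, hray, hxF, htr, hxT⟩ := h
  obtain ⟨hz, hdz, _, _⟩ := Ray.point hG hq hu hray
  have ht := Ray.nonneg hray
  have hqb : q ∈ bd n := hq.bd ⟨a0, by simp⟩
  have hxS : (chT n (a :: c)).symm (q + r • u) = x := by rw [← hxT, AffineIsometryEquiv.symm_apply_apply]
  refine ⟨Fc_sub_bd a hxF, by linarith, ?_⟩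
  have h1 := dl_tri hG hqb (Fc_sub_bd a hz) (Fc_sub_bd a hxF)
  have h2 : dl n ((chT n (a :: c)).symm (q + t • u)) x = r - t := by
    rw [dl_Fc hG hz hxF]
    conv_lhs => rw [← hxS]
    exact b13_dist hu _ htr.le
  linarith

theorem reach_between (hG : Gn n) (hq : At n q {a0}) (hu : Dir n a0 u) {x : E3} {r s : ℝ} (h : Reach n a0 q u x r) (hs : 0 < s) (hsr : s < r) :
    ∃ y, Reach n a0 q u y s ∧ dl n y x ≤ r - s ∧ y ∉ Vs n := by
  obtain ⟨l, a, c, t, rfl, hray, hxF, htr, hxT⟩ := h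
  obtain ⟨hz, hdz, _, hpt⟩ := Ray.point hG hq hu hray
  have hxS : (chT n (a :: c)).symm (q + r • u) = x := by rw [← hxT, AffineIsometryEquiv.symm_apply_apply]
  have hzx : ‖(chT n (a :: c)).symm (q + t • u) - x‖ = r - t := by
    conv_lhs => rw [← hxS]
    exact b13_dist hu _ htr.le
  rcases le_or_gt s t with hst | hst
  · obtain ⟨y, hy, hyz, hyV⟩ := hpt s hs hst
    refine ⟨y, hy, ?_, hyV⟩
    have hyb := (reach_dl hG hq hu hy).1
    have h1 := dl_tri hG hyb (Fc_sub_bd a hz) (Fc_sub_bd a hxF)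
    rw [dl_Fc hG hz hxF, hzx] at h1
    linarith
  · have hrt : 0 < r - t := by linarith
    have hyl : (chT n (a :: c)).symm (q + s • u) =
        AffineMap.lineMap ((chT n (a :: c)).symm (q + t • u)) x ((s - t) / (r - t)) := by
      rw [← hxS]
      have h3 : q + s • u = AffineMap.lineMap (q + t • u) (q + r • u) ((s - t) / (r - t)) := by
        rw [AffineMap.lineMap_apply_module']
        have h4 : (q + r • u) - (q + t • u) = (r - t) • u := by
          rw [add_sub_add_left_eq_sub, ← sub_smul]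
        rw [h4, smul_smul, div_mul_cancel₀ _ hrt.ne', sub_smul]
        abel
      rw [h3]
      exact AffineMap.apply_lineMap ((chT n (a :: c)).symm.toAffineEquiv.toAffineMap) _ _ _
    have h5 : 0 < (s - t) / (r - t) := div_pos (by linarith) hrt
    have h6 : (s - t) / (r - t) < 1 := (div_lt_one hrt).2 (by linarith)
    have hyF : (chT n (a :: c)).symm (q + s • u) ∈ Fc n a := by
      rw [hyl]
      exact (Fc_convex a).lineMap_mem hz hxF ⟨h5.le, h6.le⟩
    have hne : (chT n (a :: c)).symm (q + t • u) ≠ x := by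
      intro h0
      rw [h0, sub_self, norm_zero] at hzx
      linarith
    refine ⟨_, ⟨_, a, c, t, rfl, hray, hyF, hst, AffineIsometryEquiv.apply_symm_apply _ _⟩, ?_, ?_⟩
    · rw [dl_Fc hG hyF hxF]
      conv_lhs => rw [← hxS]
      rw [b13_dist hu _ hsr.le]
    · rw [hyl]
      exact not_vertex hG hz.1 hxF.1 hne h5 h6

theorem reach_short (hG : Gn n) (hq : At n q {a0}) (hu : Dir n a0 u) {x : E3} {s : ℝ} (h : Reach n a0 q u x (dl n q x)) (hs : 0 < s)
    (hsr : s < dl n q x) : ∃ y, Reach n a0 q u y s ∧ dl n q y = s ∧ dl n y x = dl n q x - s ∧ y ∉ Vs n := by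
  obtain ⟨y, hy, hyx, hyV⟩ := reach_between hG hq hu h hs hsr
  obtain ⟨hyb, _, hyd⟩ := reach_dl hG hq hu hy
  have hxb := (reach_dl hG hq hu h).1
  have hqb : q ∈ bd n := hq.bd ⟨a0, by simp⟩
  have h1 := dl_tri hG hqb hyb hxb
  exact ⟨y, hy, by linarith, by linarith, hyV⟩

theorem reach_near (hG : Gn n) (hq : At n q {a0}) (hu : Dir n a0 u) {x : E3} {r : ℝ} {a : A} {c : List A}
    (h : ReachL n a0 q u x r (a :: c)) (hx : At n x {a}) : ∀ᶠ s in 𝓝 r, ReachL n a0 q u ((chT n (a :: c)).symm (q + s • u)) s (a :: c) := by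
  obtain ⟨a', c', t, hl, hray, hxF, htr, hxT⟩ := h
  obtain ⟨rfl, rfl⟩ := List.cons.inj hl
  have hxS : (chT n (a :: c)).symm (q + r • u) = x := by rw [← hxT, AffineIsometryEquiv.symm_apply_apply]
  have hcont : Continuous fun s : ℝ => (chT n (a :: c)).symm (q + s • u) :=
    (chT n (a :: c)).symm.continuous.comp (by fun_prop : Continuous fun s : ℝ => q + s • u)
  have hq1 : lf n a0 q = 1 := (hq.mem (by simp)).2
  have h1 := near_one hx
  rw [← hxS] at h1
  have h2 := (hcont.tendsto r).eventually h1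
  filter_upwards [h2, lt_mem_nhds htr] with s hs1 hs2
  have h3 := hs1 (Ray.line hG hq1 hu hray s)
  exact ⟨a, c, t, rfl, hray, h3.mem (by simp), hs2, AffineIsometryEquiv.apply_symm_apply _ _⟩


end ALX
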