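import Pool.Agent.Lib.ALX.A11
import Pool.Agent.Lib.ALX.B10
import Pool.Agent.Lib.ALX.B11

/-!
# ALX, chunk B14 (M/L): a good shortest polygon is a ray

PROOF. `a 0 = a0` (`p 0 = q ∈ Fc n (a 0)`, `At n q {a0}`). `u = ‖p 1 - p 0‖⁻¹ • (p 1 - p 0)`, a direction of the plane of `a0` (both points in `Fc n a0`). Write `T i = lenP p i` (strictly increasing).
Local facts, for `1 ≤ i ≤ k`: `dl (p (i - 1)) (p (i + 1)) = ‖p (i - 1) - p i‖ + ‖p i - p (i + 1)‖` (A11 cut), so B10 gives `At n (p i) {a (i - 1), a i}` and straightness with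
`rho n (a (i - 1)) (a i) (p (i + 1))` (`a (i - 1) ≠ a i` by `inj`). Induction on `i`: the statement for `i` is
`Ray n a0 q u (revL a i) (lenP p i) ∧ chT n (revL a i) (p i) = q + lenP p i • u ∧ chT n (revL a i) (p (i + 1)) = q + lenP p (i + 1) • u`.
Step: `revL a (i + 1) = a (i + 1) :: revL a i`, `a (i + 1) ∉ revL a i` by `inj`, `(chT n (revL a i)).symm (q + lenP p (i + 1) • u) = p (i + 1)`, which is at `{a i, a (i + 1)}`, so `Ray.step` applies.
`chT n (revL a (i + 1)) z = chT n (revL a i) (rho n (a i) (a (i + 1)) z)`; `rho` fixes `p (i + 1)`; `X = chT n (revL a i) (rho (p (i + 2)))` satisfies `‖(q + lenP p i • u) - X‖ =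
‖..- (q + lenP p (i+1) • u)‖ + ‖(q + lenP p (i+1) • u) - X‖` with the last norm `= ‖p (i + 1) - p (i + 2)‖`, so `X = q + (lenP p (i + 1) + ‖p (i + 1) - p (i + 2)‖) • u`
(equality in the triangle inequality in a strictly convex space: sameRay_iff_norm_add / the first difference is a positive multiple of `u`).
-/

open Real MeasureTheory Filter Topology

namespace ALX

open H47A (E3 cross3 det3 pl)

variable {A : Type} [Fintype A] [DecidableEq A] {n : A → E3}

theorem b14_len (p : ℕ → E3) (i : ℕ) : lenP p (i + 1) = lenP p i + ‖p i - p (i + 1)‖ := Finset.sum_range_succ _ _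

theorem b14_head (a : ℕ → A) (i : ℕ) : ∃ c, revL a i = a i :: c := by
  cases i with
  | zero => exact ⟨[], rfl⟩
  | succ i => exact ⟨revL a i, rfl⟩

theorem b14_mem (a : ℕ → A) (i : ℕ) {b : A} (hb : b ∈ revL a i) : ∃ j, j ≤ i ∧ b = a j := by
  induction i with
  | zero => exact ⟨0, le_rfl, List.mem_singleton.1 hb⟩
  | succ i ih =>
    rcases List.mem_cons.1 hb with hb | hb
    · exact ⟨i + 1, le_rfl, hb⟩
    · obtain ⟨j, hj, rfl⟩ := ih hb
      exact ⟨j, by omega, rfl⟩

theorem b14_chT (a : ℕ → A) (i : ℕ) (z : E3) :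
    chT n (revL a (i + 1)) z = chT n (revL a i) (rho n (a i) (a (i + 1)) z) := by
  obtain ⟨c, hc⟩ := b14_head a i
  show chT n (a (i + 1) :: revL a i) z = _
  rw [hc]
  exact chT_cons_apply _ _ _ _

theorem b14_ext {q u X : E3} (hu : ‖u‖ = 1) {s t : ℝ} (hst : s < t)
    (h : ‖(q + s • u) - (q + t • u)‖ + ‖(q + t • u) - X‖ = ‖(q + s • u) - X‖) : X = (q + t • u) + ‖(q + t • u) - X‖ • u := by
  have e1 : (q + t • u) - (q + s • u) = (t - s) • u := by
    rw [sub_smul]
    abel
  have h1 : SameRay ℝ ((q + t • u) - (q + s • u)) (X - (q + t • u)) := by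
    rw [sameRay_iff_norm_add]
    rw [sub_add_sub_cancel', norm_sub_rev X (q + s • u), ← h, norm_sub_rev (q + t • u) (q + s • u), norm_sub_rev (q + t • u) X]
  have h2 := h1.pos_smul_left (inv_pos.2 (sub_pos.2 hst))
  rw [e1, smul_smul, inv_mul_cancel₀ (sub_pos.2 hst).ne', one_smul] at h2
  have h3 := h2.norm_smul_eq
  rw [hu, one_smul, norm_sub_rev X] at h3
  rw [← h3]
  abel

variable {a0 : A} {q : E3}

theorem b14_local (hG : Gn n) {x : E3} {k : ℕ} {a : ℕ → A} {p : ℕ → E3} (hm : IsMin n q x k a p)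
    (hne : ∀ i, i ≤ k → p i ≠ p (i + 1)) {i : ℕ} (hi : i + 1 ≤ k) : At n (p (i + 1)) {a i, a (i + 1)} ∧
      ‖p i - p (i + 1)‖ + ‖p (i + 1) - rho n (a i) (a (i + 1)) (p (i + 2))‖ = ‖p i - rho n (a i) (a (i + 1)) (p (i + 2))‖ := by
  have hd := hm.cut hG (i := i) (j := i + 2) (by omega) (by omega)
  rw [Finset.sum_Ico_succ_top (by omega), Finset.sum_Ico_succ_top (by omega), Finset.Ico_self, Finset.sum_empty, zero_add] at hd
  have hr := local_reg hG (hm.left i (by omega)) (hm.right i (by omega)) (hm.right (i + 1) hi) (hm.left (i + 1) hi) (hne i (by omega))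
    (hne (i + 1) hi).symm hd
  exact hr.2.2 fun he => by
    have := hm.inj i (i + 1) (by omega) hi he
    omega

theorem ray_build (hG : Gn n) (hq : At n q {a0}) {x : E3} {k : ℕ} {a : ℕ → A} {p : ℕ → E3} (hm : IsMin n q x k a p)
    (hne : ∀ i, i ≤ k → p i ≠ p (i + 1)) : ∃ u, Dir n a0 u ∧ ∀ i, i ≤ k → Ray n a0 q u (revL a i) (lenP p i) ∧
      chT n (revL a i) (p i) = q + lenP p i • u ∧ chT n (revL a i) (p (i + 1)) = q + lenP p (i + 1) • u := by
  have h0 : a 0 = a0 := by
    have h1 := (hm.left 0 (by omega)).2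
    rw [hm.first] at h1
    have h2 := ((At.iff.1 hq).2 (a 0)).2 h1
    exact Finset.mem_singleton.1 h2
  have hp1 : 0 < ‖p 1 - p 0‖ := norm_pos_iff.2 (sub_ne_zero.2 (hne 0 (by omega)).symm)
  obtain ⟨u, hu⟩ : ∃ u : E3, u = ‖p 1 - p 0‖⁻¹ • (p 1 - p 0) := ⟨_, rfl⟩
  have hu1 : ‖u‖ = 1 := by
    rw [hu, norm_smul, norm_inv, norm_norm, inv_mul_cancel₀ hp1.ne']
  refine ⟨u, ⟨hu1, ?_⟩, ?_⟩
  · rw [hu, inner_smul_right]
    have e1 : inner ℝ (n a0) (p 1 - p 0) = lf n a0 (p 1) - lf n a0 (p 0) := lf_sub _ _ _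
    rw [e1, ← h0, (hm.left 0 (by omega)).2, (hm.right 0 (by omega)).2, sub_self, mul_zero]
  · intro i
    induction i with
    | zero =>
      intro _
      have e0 : lenP p 0 = 0 := Finset.sum_range_zero _
      have e2 : revL a 0 = [a0] := by
        show [a 0] = [a0]
        rw [h0]
      rw [e2, b14_len, e0, hm.first, zero_smul, add_zero]
      refine ⟨Ray.base, rfl, ?_⟩
      show p 1 = q + (0 + ‖q - p 1‖) • u
      rw [zero_add, hu, hm.first, norm_sub_rev, smul_smul, mul_inv_cancel₀, one_smul]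
      · abel
      · rw [hm.first] at hp1
        exact hp1.ne'
    | succ i ih =>
      intro hi
      obtain ⟨ih1, ih2, ih3⟩ := ih (by omega)
      obtain ⟨hat, hst⟩ := b14_local hG hm hne hi
      have hlt : lenP p i < lenP p (i + 1) := by
        rw [b14_len]
        have := norm_pos_iff.2 (sub_ne_zero.2 (hne i (by omega)))
        linarith
      have hfix : rho n (a i) (a (i + 1)) (p (i + 1)) = p (i + 1) :=
        (rho_spec hG (a i) (a (i + 1))).fix _ (hm.right i (by omega)).2 (hm.left (i + 1) hi).2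
      obtain ⟨c, hc⟩ := b14_head a i
      refine ⟨?_, ?_, ?_⟩
      · show Ray n a0 q u (a (i + 1) :: revL a i) (lenP p (i + 1))
        rw [hc] at ih1 ih3 ⊢
        refine Ray.step ih1 ?_ hlt ?_
        · intro hb
          rw [← hc] at hb
          obtain ⟨j, hj, he⟩ := b14_mem a i hb
          have := hm.inj (i + 1) j hi (by omega) he
          omega
        · rw [← ih3, AffineIsometryEquiv.symm_apply_apply]
          exact hat
      · rw [b14_chT, hfix, ih3]
      · rw [b14_chT]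
        have hT := (chT n (revL a i)).isometry
        obtain ⟨X, hX⟩ : ∃ X, X = chT n (revL a i) (rho n (a i) (a (i + 1)) (p (i + 2))) := ⟨_, rfl⟩
        have d1 : ‖(q + lenP p i • u) - (q + lenP p (i + 1) • u)‖ = ‖p i - p (i + 1)‖ := by
          rw [← ih2, ← ih3, ← dist_eq_norm, ← dist_eq_norm, hT.dist_eq]
        have d2 : ‖(q + lenP p (i + 1) • u) - X‖ = ‖p (i + 1) - rho n (a i) (a (i + 1)) (p (i + 2))‖ := by
          rw [← ih3, hX, ← dist_eq_norm, ← dist_eq_norm, hT.dist_eq]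
        have d3 : ‖(q + lenP p i • u) - X‖ = ‖p i - rho n (a i) (a (i + 1)) (p (i + 2))‖ := by
          rw [← ih2, hX, ← dist_eq_norm, ← dist_eq_norm, hT.dist_eq]
        have d4 : ‖p (i + 1) - rho n (a i) (a (i + 1)) (p (i + 2))‖ = ‖p (i + 1) - p (i + 2)‖ := by
          have := (rho n (a i) (a (i + 1))).isometry.dist_eq (p (i + 1)) (p (i + 2))
          rw [hfix] at this
          rw [← dist_eq_norm, ← dist_eq_norm, this]
        have hext := b14_ext (q := q) (u := u) (X := X) hu1 hlt (by rw [d1, d2, d3]; exact hst)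
        rw [d2, d4] at hext
        rw [← hX, hext, b14_len p (i + 1), add_smul, add_assoc]

end ALX
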