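import Pool.Agent.Lib.ALX.A13
import Pool.Agent.Lib.ALX.B14

/-!
# ALX, chunk B15 (S/M): THEOREM: shortest paths are rays

PROOF: A13 isMin_good and B14 for `i = k` (`lenP p (k + 1) = dl n q x`, `lenP p k < lenP p (k + 1)`, `x = p (k + 1) ∈ Fc n (a k)`; `revL a k` is `a k :: ..`).
-/

open Real MeasureTheory Filter Topology

namespace ALX

open H47A (E3 cross3 det3 pl)

variable {A : Type} [Fintype A] [DecidableEq A] {n : A → E3}

variable {a0 : A} {q : E3}

theorem reach_exists (hG : Gn n) (hq : At n q {a0}) {x : E3} (hx : x ∈ bd n) (hne : x ≠ q) :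
    ∃ u l, Dir n a0 u ∧ ReachL n a0 q u x (dl n q x) l := by
  have hqb : q ∈ bd n := hq.bd (by simp)
  obtain ⟨k, a, p, hm, hp⟩ := isMin_good hG hqb hx hne.symm
  obtain ⟨u, hu, H⟩ := ray_build hG hq hm hp
  obtain ⟨h1, h2, h3⟩ := H k le_rfl
  obtain ⟨c, hc⟩ := b14_head a k
  have hl : lenP p (k + 1) = dl n q x := hm.len
  have hlt : lenP p k < lenP p (k + 1) := by
    rw [b14_len]
    have : 0 < ‖p k - p (k + 1)‖ := norm_pos_iff.2 (sub_ne_zero.2 (hp k le_rfl))
    linarith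
  refine ⟨u, revL a k, hu, a k, c, lenP p k, hc, h1, ?_, ?_, ?_⟩
  · have := hm.right k le_rfl
    rw [hm.last] at this
    exact this
  · rw [← hl]
    exact hlt
  · rw [← hl, ← h3, hm.last]


end ALX
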