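import Pool.Agent.Lib.ALX.ApiPA
import Pool.Agent.Lib.ALX.B08
import Pool.Agent.Lib.ALX.B13
import Pool.Agent.Lib.ALX.B15

/-! # ALX: interface of module B (helper82) used by module C (helper83); each fact is one line from a chunk of B -/

open Real MeasureTheory

namespace ALX

open H47A (E3 cross3 det3 pl)

variable {A : Type} [Fintype A] [DecidableEq A] {n : A → E3} {a0 : A} {q : E3}

/-- B5, the vertex lemma -/
theorem bapi_vertex (hG : Gn n) {v w w' : E3} {b b' : A} (hv : v ∈ Vs n) (h1 : v ∈ Fc n b) (h2 : v ∈ Fc n b')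
    (h3 : w ∈ Fc n b) (h4 : w' ∈ Fc n b') (h5 : w ≠ v) (h6 : w' ≠ v) : dl n w w' < ‖w - v‖ + ‖v - w'‖ :=
  vertex_short hG hv h3 h1 h4 h2 h5 h6

/-- B7 -/
theorem bapi_reach_le (hG : Gn n) (hq : At n q {a0}) {u x : E3} {r : ℝ} (hu : Dir n a0 u) (h : Reach n a0 q u x r) :
    dl n q x ≤ r :=
  (reach_dl hG hq hu h).2.2

/-- B8 -/
theorem bapi_short (hG : Gn n) (hq : At n q {a0}) {x : E3} (hx : x ∈ bd n) (hxq : x ≠ q) :
    ∃ u, Dir n a0 u ∧ Reach n a0 q u x (dl n q x) := by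
  obtain ⟨u, l, hu, h⟩ := reach_exists hG hq hx hxq
  exact ⟨u, hu, l, h⟩

end ALX
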