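import Pool.Agent.Lib.ALX.G2

/-! # ALX, chunk C1 (S/M): the entry point of a ray

By cases on `c`. `c = []`: then `t = 0`, `a = a0`, `chT = refl`, the point is `q`, `At n q {a0}`. `c = a' :: c'`: the last step of the ray gives `y = (chT n (a' :: c')).symm (q + t • u)` with `At n y {a', a}` (the pair of the
constructor), and `chT n (a :: a' :: c') = (rho n a' a).trans (chT n (a' :: c'))`, `rho n a' a` fixes `y` (`hinge_fix`, `y` is on both planes), so the entry point is `y`. In both cases a facet `b` with
`lf b = 1` is in the list; the others have `lf b < 1` (`At.lt`). `ray_tail`: the constructor. -/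

open Real MeasureTheory Filter Topology

namespace ALX

open H47A (E3 cross3 det3 pl)

variable {A : Type} [Fintype A] [DecidableEq A] {n : A → E3}

theorem c1_symm (hG : Gn n) {a b : A} {c : List A} {x : E3} (h1 : lf n b ((chT n (b :: c)).symm x) = 1)
    (h2 : lf n a ((chT n (b :: c)).symm x) = 1) : (chT n (a :: b :: c)).symm x = (chT n (b :: c)).symm x := by
  have h3 : (chT n (a :: b :: c)).symm x = (rho n b a).symm ((chT n (b :: c)).symm x) := rfl
  rw [h3]
  exact (hinge_fix hG h1 h2).2

theorem ray_entry (hG : Gn n) {a0 a : A} {q u : E3} {c : List A} {t : ℝ} (hq : At n q {a0}) (h : Ray n a0 q u (a :: c) t) :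
    (chT n (a :: c)).symm (q + t • u) ∈ Fc n a ∧ ∀ b, b ∉ a :: c → lf n b ((chT n (a :: c)).symm (q + t • u)) < 1 := by
  cases h with
  | base =>
    have h1 : (chT n [a0]).symm (q + (0 : ℝ) • u) = q := by
      rw [chT_one, zero_smul, add_zero]
      rfl
    rw [h1]
    refine ⟨hq.mem (Finset.mem_singleton_self _), fun b hb => hq.lt ?_⟩
    intro hb2
    exact hb (by rw [Finset.mem_singleton.1 hb2]; exact List.mem_singleton_self _)
  | step h hb ht hA =>
    have h1 := At.two hA
    rw [c1_symm hG h1.1.2 h1.2.2]
    refine ⟨h1.2, fun d hd => hA.lt ?_⟩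
    intro hd2
    simp only [Finset.mem_insert, Finset.mem_singleton] at hd2
    simp only [List.mem_cons, not_or] at hd
    rcases hd2 with hd2 | hd2
    · exact hd.2.1 hd2
    · exact hd.1 hd2

/-- the last step of a ray: the entry point `e` of the facet `a` and the ray before it -/
theorem ray_tail (hG : Gn n) {a0 a b : A} {q u : E3} {c : List A} {t : ℝ} (h : Ray n a0 q u (a :: b :: c) t) :
    ∃ e, At n e {b, a} ∧ a ≠ b ∧ e = (chT n (a :: b :: c)).symm (q + t • u) ∧ e = (chT n (b :: c)).symm (q + t • u) ∧ ReachL n a0 q u e t (b :: c) := by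
  cases h with
  | step h hb ht hA =>
    have h1 := At.two hA
    refine ⟨_, hA, ?_, ?_, rfl, ?_⟩
    · rintro rfl
      exact hb (List.mem_cons_self)
    · exact (c1_symm hG h1.1.2 h1.2.2).symm
    · exact ⟨b, c, _, rfl, h, h1.1, ht, AffineIsometryEquiv.apply_symm_apply _ _⟩

end ALX
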