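import Pool.Agent.Lib.ALX.C1

/-! # ALX, chunk C10 (M/L): backward uniqueness

Claim by induction on `c` (all `a, y, r` general): if `ReachL n a0 q u y r (a :: c)`, `ReachL n a0 q u' y r (a :: c')` and `(chT n (a :: c)).symm q = (chT n (a :: c')).symm q = p` then `c = c'` and `u = u'`.
`T = chT n (a :: c)`, `T' = chT n (a :: c')`, entry times `t, t' < r`, entry points `e = T.symm (q + t • u)`, `e' = T'.symm (q + t' • u')` (in the facet `a`, `ray_entry`). `y = T.symm (q + r • u)`, so `y - p = r w`, `w = ` linear part of `T.symm` at `u`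
and `y - p = r w'`: `w = w'` (`r > 0`), `e = p + t w`, `e' = p + t' w`. Suppose `t ≤ t'` (symmetric).
Case `c' = []`: `t' = 0`, so `t = 0` and `c = []` (a step has positive entry time: `t < t'` in the constructor and `0 ≤ t`). Then `T = T' = id` (`a = a0`), `u = u'`.
Case `c' = b' :: c''`: the last step of the ray: `At n e' {b', a}`. If `t < t'`: `e` is in the facet `a`, `e'` is strictly between `e` and `y`, both in the facet `a`, so `lf b'` is `≤ 1` at `e` and `y` and `= 1` at `e'`: `lf b'` is constant `1` on the line of
`e, e', y`. But on the ray `c'`, before `e'` in the facet `b'`: the point `T'' .symm (q + s • u')`, `s < t'`, `T'' = chT n (b' :: c'')`, has `lf a < 1` for `s` = entry time of the list `b' :: c''` (`ray_entry`, `a ∉ b' :: c''`), i.e. `lf a` has a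
positive slope along the line in the plane of `b'`; the hinge `rho n b' a` maps this line direction `w` (in the plane of `a`) to the direction in the plane of `b'`; if `⟪n b', w⟫ = 0` then `w` is parallel to the edge and fixed by the hinge, so
`⟪n a, w⟫ = 0` would be the slope: contradiction. So `t = t'`, `e = e'`. If `c = []` then `t = 0 < t'`: no. So `c = b :: c3` and `At n e {b, a}`, `At n e {b', a}`: `b = b'` (`b ≠ a`, `b' ≠ a`). Now `e` is reached at `t` by both tails, and
`(chT n (b :: c3)).symm q = rho n b a (T.symm q)` (from `T = (rho n b a).trans (chT n (b :: c3))`), the same for the other list: induction hypothesis. -/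

open Real MeasureTheory Filter Topology

namespace ALX

open H47A (E3 cross3 det3 pl)

variable {A : Type} [Fintype A] [DecidableEq A] {n : A → E3}

theorem c10_line (T : E3 ≃ᵃⁱ[ℝ] E3) (q v : E3) (s : ℝ) :
    T.symm (q + s • v) = T.symm q + s • T.symm.linearIsometryEquiv v := by
  have h1 := T.symm.map_vadd q (s • v)
  rw [vadd_eq_add, vadd_eq_add, map_smul] at h1
  rw [add_comm q, add_comm (T.symm q)]
  exact h1

theorem c10_zero {a0 a : A} {q u : E3} {t : ℝ} (h : Ray n a0 q u [a] t) : t = 0 := by
  cases h with
  | base => rfl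

theorem c10_pos {a0 a b : A} {q u : E3} {c : List A} {t : ℝ} (h : Ray n a0 q u (a :: b :: c) t) : 0 < t := by
  cases h with
  | step h hb ht hA => exact lt_of_le_of_lt (ray_list h).1 ht

/-- the entry times agree -/
theorem c10_lt (hG : Gn n) {a0 a : A} {q u u' y p w : E3} {c c' : List A} {r t t' : ℝ} (hq : At n q {a0})
    (hu' : Dir n a0 u') (h : Ray n a0 q u (a :: c) t) (h' : Ray n a0 q u' (a :: c') t') (hy : y ∈ Fc n a)
    (hr : t' < r) (hyw : y = p + r • w) (he : (chT n (a :: c)).symm (q + t • u) = p + t • w)
    (he' : (chT n (a :: c')).symm (q + t' • u') = p + t' • w)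
    (hw : (chT n (a :: c')).symm.linearIsometryEquiv u' = w) (hlt : t < t') : False := by
  cases c' with
  | nil =>
    have h1 := c10_zero h'
    have h2 := (ray_list h).1
    linarith
  | cons b' c'' =>
    obtain ⟨e', hA, hab, h1, h2, hR⟩ := ray_tail hG h'
    obtain ⟨b1, c1, s0, hl, h3, h4, h5, h6⟩ := hR
    obtain ⟨rfl, rfl⟩ := List.cons.inj hl
    have hee : e' = p + t' • w := by rw [h1, he']
    -- the slope of lf b' along the line is zero
    have f1 : lf n b' p + t * lf n b' w ≤ 1 := by
      have g1 := (ray_entry hG hq h).1.1 b'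
      rw [he, lf_add, lf_smul] at g1
      exact g1
    have f2 : lf n b' p + r * lf n b' w ≤ 1 := by
      have g1 := hy.1 b'
      rw [hyw, lf_add, lf_smul] at g1
      exact g1
    have f3 : lf n b' p + t' * lf n b' w = 1 := by
      have g1 := (At.two hA).1.2
      rw [hee, lf_add, lf_smul] at g1
      exact g1
    have f4 : lf n b' w = 0 := by
      have g1 : 0 ≤ (t' - t) * lf n b' w := by
        have : (t' - t) * lf n b' w = t' * lf n b' w - t * lf n b' w := by ring
        linarith
      have g2 : (r - t') * lf n b' w ≤ 0 := by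
        have : (r - t') * lf n b' w = r * lf n b' w - t' * lf n b' w := by ring
        linarith
      have g3 : 0 ≤ lf n b' w := nonneg_of_mul_nonneg_right g1 (sub_pos.2 hlt)
      have g4 : lf n b' w ≤ 0 := nonpos_of_mul_nonpos_right g2 (sub_pos.2 hr)
      exact le_antisymm g4 g3
    set w2 : E3 := (chT n (b' :: c'')).symm.linearIsometryEquiv u' with hw2
    have f5 : lf n b' w2 = 0 := by
      have g1 : (chT n (b' :: c'')).linearIsometryEquiv w2 = u' :=
        (chT n (b' :: c'')).linearIsometryEquiv.apply_symm_apply u'
      refine (IsUn.dir hG (ray_un hG h3) (w := w2)).1 ?_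
      rw [g1]
      exact hu'.2
    have f6 : (rho n b' a).symm.linearIsometryEquiv w2 = w := hw
    have f7 := hinge_side hG (Ne.symm hab) f5
    rw [f6] at f7
    have f8 : lf n a w2 = 0 := by
      rcases lt_trichotomy (lf n a w2) 0 with g | g | g
      · have := f7.2.1.1 g
        linarith
      · exact g
      · have := f7.1.1 g
        linarith
    have hnd := (ray_list h').2.1
    have f9 : lf n a ((chT n (b' :: c'')).symm (q + s0 • u')) < 1 :=
      (ray_entry hG hq h3).2 a (List.nodup_cons.1 hnd).1
    have f10 : lf n a ((chT n (b' :: c'')).symm (q + t' • u')) = 1 := by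
      rw [← h2]
      exact (At.two hA).2.2
    rw [c10_line, lf_add, lf_smul, ← hw2, f8] at f9 f10
    linarith

theorem back_unique (hG : Gn n) {a0 : A} {q : E3} (hq : At n q {a0}) : ∀ (c : List A) (a : A) (c' : List A) (u u' y : E3) (r : ℝ),
    Dir n a0 u → Dir n a0 u' → ReachL n a0 q u y r (a :: c) → ReachL n a0 q u' y r (a :: c') →
      (chT n (a :: c)).symm q = (chT n (a :: c')).symm q → c = c' ∧ u = u' := by
  intro c
  induction c with
  | nil =>
    intro a c' u u' y r hu hu' hR hR' hp
    obtain ⟨a1, c1, t, hl, h, hy, ht, hT⟩ := hR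
    obtain ⟨rfl, rfl⟩ := List.cons.inj hl
    obtain ⟨a2, c2, t', hl', h', hy', ht', hT'⟩ := hR'
    obtain ⟨rfl, rfl⟩ := List.cons.inj hl'
    have hr : 0 < r := lt_of_le_of_lt (ray_list h).1 ht
    have y1 : y = (chT n [a]).symm q + r • (chT n [a]).symm.linearIsometryEquiv u := by
      rw [← c10_line, ← hT, AffineIsometryEquiv.symm_apply_apply]
    have y2 : y = (chT n [a]).symm q + r • (chT n (a :: c')).symm.linearIsometryEquiv u' := by
      rw [hp, ← c10_line, ← hT', AffineIsometryEquiv.symm_apply_apply]
    have hw : (chT n [a]).symm.linearIsometryEquiv u = (chT n (a :: c')).symm.linearIsometryEquiv u' := by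
      have h1 := add_left_cancel (y1.symm.trans y2)
      exact smul_right_injective E3 hr.ne' h1
    have hc : ([] : List A) = c' := by
      cases c' with
      | nil => rfl
      | cons b' c'' =>
        exfalso
        have h0 := c10_zero h
        have h1 := c10_pos h'
        refine c10_lt hG hq hu' h h' hy ht' y2 ?_ ?_ rfl (by linarith)
        · rw [c10_line, hw]
        · rw [c10_line, hp]
    subst hc
    exact ⟨rfl, (chT n [a]).symm.linearIsometryEquiv.injective hw⟩
  | cons b c3 ih =>
    intro a c' u u' y r hu hu' hR hR' hp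
    obtain ⟨a1, c1, t, hl, h, hy, ht, hT⟩ := hR
    obtain ⟨rfl, rfl⟩ := List.cons.inj hl
    obtain ⟨a2, c2, t', hl', h', hy', ht', hT'⟩ := hR'
    obtain ⟨rfl, rfl⟩ := List.cons.inj hl'
    have hr : 0 < r := lt_of_le_of_lt (ray_list h).1 ht
    have y1 : y = (chT n (a :: b :: c3)).symm q + r • (chT n (a :: b :: c3)).symm.linearIsometryEquiv u := by
      rw [← c10_line, ← hT, AffineIsometryEquiv.symm_apply_apply]
    have y2 : y = (chT n (a :: b :: c3)).symm q + r • (chT n (a :: c')).symm.linearIsometryEquiv u' := by
      rw [hp, ← c10_line, ← hT', AffineIsometryEquiv.symm_apply_apply]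
    have hw : (chT n (a :: b :: c3)).symm.linearIsometryEquiv u = (chT n (a :: c')).symm.linearIsometryEquiv u' := by
      have h1 := add_left_cancel (y1.symm.trans y2)
      exact smul_right_injective E3 hr.ne' h1
    have htt : t = t' := by
      rcases lt_trichotomy t t' with g | g | g
      · exfalso
        refine c10_lt hG hq hu' h h' hy ht' y2 ?_ ?_ rfl g
        · rw [c10_line, hw]
        · rw [c10_line, hp]
      · exact g
      · exfalso
        refine c10_lt hG hq hu h' h hy ht y1 ?_ ?_ rfl g
        · rw [c10_line, ← hw, hp]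
        · rw [c10_line]
    subst htt
    obtain ⟨e, hA, hab, h1, h2, hRe⟩ := ray_tail hG h
    cases c' with
    | nil =>
      exfalso
      have g1 := c10_zero h'
      have g2 := c10_pos h
      linarith
    | cons b' c'' =>
      obtain ⟨e', hA', hab', h1', h2', hRe'⟩ := ray_tail hG h'
      have hee : e = e' := by
        rw [h1, h1', c10_line, c10_line, hw, hp]
      subst hee
      have hbb : b = b' := by
        have g1 : ({b, a} : Finset A) = {b', a} := hA.2.symm.trans hA'.2
        have g2 : b ∈ ({b', a} : Finset A) := by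
          rw [← g1]
          exact Finset.mem_insert_self _ _
        simp only [Finset.mem_insert, Finset.mem_singleton] at g2
        rcases g2 with g2 | g2
        · exact g2
        · exact absurd g2.symm hab
      subst hbb
      have hp' : (chT n (b :: c3)).symm q = (chT n (b :: c'')).symm q := by
        have g1 : (rho n b a).symm ((chT n (b :: c3)).symm q) = (rho n b a).symm ((chT n (b :: c'')).symm q) := hp
        exact (rho n b a).symm.injective g1
      obtain ⟨g1, g2⟩ := ih b c'' u u' e t hu hu' hRe hRe' hp'
      exact ⟨by rw [g1], g2⟩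

end ALX
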