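import Pool.Agent.Lib.ALX.C9
import Pool.Agent.Lib.ALX.C10

/-! # ALX, chunk C11 (M): inside a cell the list of facets is constant

Let `U = {y | At n y {a} ∧ ∀ T' ∈ Img n a0 q a, T'.symm q ≠ T.symm q → ‖T y - q‖ < ‖T' y - q‖}`: convex (affine inequalities), so preconnected. `y1 ∈ U` from `Cl_int` with the list `a :: c1`, `chT n (a :: c1) = T`. For `y ∈ U`: `dl n q y` is attained by an image
(`exists_img`) which has the same `symm q` as `T` (strictness), so `dl n q y = ‖T y - q‖`. If `y ≠ q` (for `y ∈ U`): `img_of_short` gives a list `a :: c` reaching `y` at `dl n q y`, with `(chT n (a :: c)).symm q = T.symm q`.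
The set `W_c` of the `y ∈ U` reached at `dl n q y` with the list `a :: c` (with `(chT n (a :: c)).symm q = T.symm q`) is relatively open in `U` (`reach_open`: the neighbours `z ∈ U` are reached at `‖chT n (a :: c) z - q‖ = ‖z - T.symm q‖ = ‖T z - q‖ = dl n q z`). For different `c` these sets are
disjoint (`back_unique`). If `q ∉ U`: `U` is connected and the union of the disjoint relatively open sets `W_c`, so `U = W_(c1)` (`IsPreconnected` with the two open sets `W_(c1)` and the union of the others). If `q ∈ U` then `T.symm q = q` (the distance `dl n q q = 0 = ‖q - T.symm q‖`), `a = a0`, and every `y ∈ U`, `y ≠ q` is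
reached with the list `[a0]`: the segment from `q` to `y` is in the facet and `‖y - q‖ = ‖y - T.symm q‖ = dl n q y`; so `c1 = []` by `back_unique` and the claim is true. -/

open Real MeasureTheory Filter Topology

namespace ALX

open H47A (E3 cross3 det3 pl)

variable {A : Type} [Fintype A] [DecidableEq A] {n : A → E3}

theorem c11_aff (T T' : E3 ≃ᵃⁱ[ℝ] E3) (q x y : E3) (t : ℝ) :
    ‖T (AffineMap.lineMap x y t) - q‖ ^ 2 - ‖T' (AffineMap.lineMap x y t) - q‖ ^ 2 =
      (1 - t) * (‖T x - q‖ ^ 2 - ‖T' x - q‖ ^ 2) + t * (‖T y - q‖ ^ 2 - ‖T' y - q‖ ^ 2) := by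
  obtain ⟨α, hα⟩ := c6_aff T q x y
  obtain ⟨β, hβ⟩ := c6_aff T' q x y
  have h1 := hα 0 t
  have h2 := hα 0 1
  have h3 := hβ 0 t
  have h4 := hβ 0 1
  rw [AffineMap.lineMap_apply_zero] at h1 h2 h3 h4
  rw [AffineMap.lineMap_apply_one] at h2 h4
  linear_combination h1 - h3 - t * h2 + t * h4

/-- the interior of a cell -/
def C11U (n : A → E3) (a0 a : A) (q : E3) (T : E3 ≃ᵃⁱ[ℝ] E3) : Set E3 :=
  {y | At n y {a} ∧ ∀ T' ∈ Img n a0 q a, T'.symm q ≠ T.symm q → ‖T y - q‖ < ‖T' y - q‖}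

/-- reached with the list `a :: c` whose image is the one of `T` -/
def C11P (n : A → E3) (a0 a : A) (q : E3) (T : E3 ≃ᵃⁱ[ℝ] E3) (c : List A) (y : E3) : Prop :=
  ∃ u, Dir n a0 u ∧ ReachL n a0 q u y (dl n q y) (a :: c) ∧ (chT n (a :: c)).symm q = T.symm q

theorem c11_norm (T : E3 ≃ᵃⁱ[ℝ] E3) (q y : E3) : ‖T y - q‖ = ‖y - T.symm q‖ := by
  rw [← dist_eq_norm, ← dist_eq_norm, ← T.dist_map y (T.symm q), AffineIsometryEquiv.apply_symm_apply]

theorem c11_conv (a0 a : A) (q : E3) (T : E3 ≃ᵃⁱ[ℝ] E3) : Convex ℝ (C11U n a0 a q T) := by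
  intro x hx y hy s t hs ht hst
  have h1 : s • x + t • y = AffineMap.lineMap x y t := by
    rw [AffineMap.lineMap_apply_module, ← hst, add_sub_cancel_right]
  have hxF : x ∈ Fc n a := hx.1.mem (Finset.mem_singleton_self _)
  constructor
  · rcases eq_or_lt_of_le ht with h | h
    · rw [h1, ← h, AffineMap.lineMap_apply_zero]
      exact hx.1
    · rw [h1]
      exact segment_interior hxF hy.1 h (by linarith)
  · intro T' hT' hne
    have h2 := c11_aff T T' q x y t
    rw [← h1] at h2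
    have h3 : ‖T x - q‖ ^ 2 < ‖T' x - q‖ ^ 2 :=
      pow_lt_pow_left₀ (hx.2 T' hT' hne) (norm_nonneg _) two_ne_zero
    have h4 : ‖T y - q‖ ^ 2 < ‖T' y - q‖ ^ 2 :=
      pow_lt_pow_left₀ (hy.2 T' hT' hne) (norm_nonneg _) two_ne_zero
    have h5 : (1 - t) * (‖T x - q‖ ^ 2 - ‖T' x - q‖ ^ 2) + t * (‖T y - q‖ ^ 2 - ‖T' y - q‖ ^ 2) < 0 := by
      rcases eq_or_lt_of_le ht with h | h
      · rw [← h]
        linarith
      · have h6 : (1 - t) * (‖T x - q‖ ^ 2 - ‖T' x - q‖ ^ 2) ≤ 0 :=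
          mul_nonpos_of_nonneg_of_nonpos (by linarith) (by linarith)
        have h7 : t * (‖T y - q‖ ^ 2 - ‖T' y - q‖ ^ 2) < 0 :=
          mul_neg_of_pos_of_neg h (by linarith)
        linarith
    exact (pow_lt_pow_iff_left₀ (norm_nonneg _) (norm_nonneg _) two_ne_zero).1 (by linarith)

theorem c11_dist (hG : Gn n) {a0 a : A} {q : E3} {T : E3 ≃ᵃⁱ[ℝ] E3} (hq : At n q {a0}) (hT : T ∈ Img n a0 q a)
    {y : E3} (hy : y ∈ C11U n a0 a q T) : dl n q y = ‖T y - q‖ := by
  have hyF : y ∈ Fc n a := hy.1.mem (Finset.mem_singleton_self _)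
  obtain ⟨T', hT', -, hd⟩ := exists_img hG hq hyF
  by_cases h : T'.symm q = T.symm q
  · rw [hd, c11_norm, h, ← c11_norm]
  · exfalso
    have h1 := hy.2 T' hT' h
    have h2 := dl_le_img hG hq hT hyF
    linarith

theorem c11_exists (hG : Gn n) {a0 a : A} {q : E3} {T : E3 ≃ᵃⁱ[ℝ] E3} (hq : At n q {a0}) (hT : T ∈ Img n a0 q a)
    {y : E3} (hy : y ∈ C11U n a0 a q T) (hyq : y ≠ q) : ∃ c, C11P n a0 a q T c y := by
  have hyF : y ∈ Fc n a := hy.1.mem (Finset.mem_singleton_self _)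
  obtain ⟨u, c, hu, hr, hI, hn⟩ := img_of_short hG hq hy.1 hyq
  refine ⟨c, u, hu, hr, ?_⟩
  by_contra h
  have h1 := hy.2 _ hI h
  have h2 := dl_le_img hG hq hT hyF
  linarith

theorem c11_unique (hG : Gn n) {a0 a : A} {q : E3} {T : E3 ≃ᵃⁱ[ℝ] E3} (hq : At n q {a0}) {c c' : List A} {y : E3}
    (h : C11P n a0 a q T c y) (h' : C11P n a0 a q T c' y) : c = c' := by
  obtain ⟨u, hu, hr, hs⟩ := h
  obtain ⟨u', hu', hr', hs'⟩ := h'
  exact (back_unique hG hq c a c' u u' y _ hu hu' hr hr' (hs.trans hs'.symm)).1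

theorem c11_open (hG : Gn n) {a0 a : A} {q : E3} {T : E3 ≃ᵃⁱ[ℝ] E3} (hq : At n q {a0}) (hT : T ∈ Img n a0 q a)
    {c : List A} {y : E3} (h : C11P n a0 a q T c y) :
    ∀ᶠ z in 𝓝[C11U n a0 a q T] y, C11P n a0 a q T c z := by
  obtain ⟨u, hu, hr, hs⟩ := h
  obtain ⟨δ, hδ, hop⟩ := reach_open hG hq hu hr
  have h1 : ∀ᶠ z in 𝓝[C11U n a0 a q T] y, ‖z - y‖ < δ := by
    apply nhdsWithin_le_nhds
    have h2 := Metric.ball_mem_nhds y hδ
    filter_upwards [h2] with z hz
    rw [← dist_eq_norm]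
    exact hz
  filter_upwards [h1, self_mem_nhdsWithin] with z hz hzU
  have hzF : z ∈ Fc n a := hzU.1.mem (Finset.mem_singleton_self _)
  obtain ⟨v, hv, hrv⟩ := hop z hzF hz
  have h3 : ‖chT n (a :: c) z - q‖ = dl n q z := by
    rw [c11_dist hG hq hT hzU, c11_norm, hs, ← c11_norm]
  rw [h3] at hrv
  exact ⟨v, hv, hrv, hs⟩

theorem reach_in_cell (hG : Gn n) {a0 a : A} {q : E3} {T : E3 ≃ᵃⁱ[ℝ] E3} (hq : At n q {a0}) (hT : T ∈ Img n a0 q a) :
    ∃ c, T = chT n (a :: c) ∧ ∀ y, At n y {a} → y ≠ q → (∀ T' ∈ Img n a0 q a, T'.symm q ≠ T.symm q → ‖T y - q‖ < ‖T' y - q‖) →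
      ∃ u, Dir n a0 u ∧ ReachL n a0 q u y (dl n q y) (a :: c) := by
  classical
  obtain ⟨y1, u1, c1, hu1, hT1, hy1, hr1, hst1⟩ := Cl_int hG hq hT
  refine ⟨c1, hT1, fun y hy hyq hst => ?_⟩
  have hqb : q ∈ bd n := hq.bd (Finset.singleton_nonempty _)
  have hy1U : y1 ∈ C11U n a0 a q T := ⟨hy1, hst1⟩
  have hyU : y ∈ C11U n a0 a q T := ⟨hy, hst⟩
  have hP1 : C11P n a0 a q T c1 y1 := ⟨u1, hu1, hr1, by rw [hT1]⟩
  have hy1q : y1 ≠ q := by
    rintro rfl
    obtain ⟨a', c', t, hl, hray, -, htr, -⟩ := hr1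
    have h1 := (ray_list hray).1
    rw [dl_self hqb] at htr
    linarith
  have hfin : C11P n a0 a q T c1 y := by
    by_cases hqU : q ∈ C11U n a0 a q T
    · -- the base facet
      have haa : a = a0 := by
        have h1 : a ∈ ({a0} : Finset A) := ((At.iff.1 hq).2 a).2 (hqU.1.mem (Finset.mem_singleton_self _)).2
        exact Finset.mem_singleton.1 h1
      have hTq : T.symm q = q := by
        have h1 := c11_dist hG hq hT hqU
        rw [dl_self hqb, c11_norm] at h1
        exact (sub_eq_zero.1 (norm_eq_zero.1 h1.symm)).symm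
      have hnil : ∀ z ∈ C11U n a0 a q T, z ≠ q → C11P n a0 a q T [] z := by
        intro z hz hzq
        subst haa
        have hzF : z ∈ Fc n a := hz.1.mem (Finset.mem_singleton_self _)
        have hqF : q ∈ Fc n a := hq.mem (Finset.mem_singleton_self _)
        have hd : dl n q z = ‖z - q‖ := by rw [dl_Fc hG hqF hzF, norm_sub_rev]
        have hpos : 0 < ‖z - q‖ := norm_pos_iff.2 (sub_ne_zero.2 hzq)
        refine ⟨‖z - q‖⁻¹ • (z - q), ⟨?_, ?_⟩, ?_, ?_⟩
        · rw [norm_smul, norm_inv, norm_norm, inv_mul_cancel₀ hpos.ne']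
        · rw [real_inner_smul_right]
          have h1 : lf n a (z - q) = 0 := by rw [lf_sub, hzF.2, hqF.2, sub_self]
          unfold lf at h1
          rw [h1, mul_zero]
        · rw [hd]
          refine ⟨a, [], 0, rfl, Ray.base, hzF, hpos, ?_⟩
          rw [smul_smul, mul_inv_cancel₀ hpos.ne', one_smul, chT_one]
          show z = q + (z - q)
          abel
        · rw [hTq, chT_one]
          rfl
      have hc1 : c1 = [] := c11_unique hG hq hP1 (hnil y1 hy1U hy1q)
      rw [hc1]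
      exact hnil y hyU hyq
    · have hne : ∀ z ∈ C11U n a0 a q T, z ≠ q := by
        rintro z hz rfl
        exact hqU hz
      have hcont : ContinuousOn (fun z => decide (C11P n a0 a q T c1 z)) (C11U n a0 a q T) := by
        intro z hz
        have hev : ∀ᶠ w in 𝓝[C11U n a0 a q T] z,
            decide (C11P n a0 a q T c1 z) = decide (C11P n a0 a q T c1 w) := by
          obtain ⟨c, hc⟩ := c11_exists hG hq hT hz (hne z hz)
          filter_upwards [c11_open hG hq hT hc] with w hw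
          by_cases hcc : c = c1
          · rw [hcc] at hc hw
            rw [decide_eq_true hc, decide_eq_true hw]
          · have g1 : ¬ C11P n a0 a q T c1 z := fun h => hcc (c11_unique hG hq hc h)
            have g2 : ¬ C11P n a0 a q T c1 w := fun h => hcc (c11_unique hG hq hw h)
            rw [decide_eq_false g1, decide_eq_false g2]
        exact tendsto_const_nhds.congr' hev
      have h1 := (c11_conv a0 a q T).isPreconnected.constant hcont hy1U hyU
      simp only [decide_eq_decide] at h1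
      exact h1.1 hP1
  obtain ⟨u, hu, hr, -⟩ := hfin
  exact ⟨u, hu, hr⟩

end ALX
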