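import Pool.Agent.Lib.ALX.BApi
import Pool.Agent.Lib.ALX.C1

/-! # ALX, chunk C12 (M/L): limits of shortest paths with the same list

Induction on `c` (all `a`, `x` general). Let `y_k → x`, `ReachL n a0 q u_k y_k r_k (a :: c)`, `r_k = dl n q y_k → r = dl n q x > 0`, `T = chT n (a :: c)`, `T y_k = q + r_k • u_k`; so `u_k → u = r⁻¹ • (T x - q)`, `Dir n a0 u` (closed condition), `T x = q + r • u`.
Case `c = []`: `a = a0`, `T = id`: base ray, `x` is reached at `r > 0` with the list `[a0]`: `pre = []`.
Case `c = b :: c'`: the last step: entry points `e_k` with `At n e_k {b, a}`, entry times `t_k < r_k`, `chT n (b :: c') e_k = q + t_k • u_k`, `ReachL n a0 q u_k e_k t_k (b :: c')`. `dl n q e_k = t_k` (`bapi_reach_le`, and `r_k = dl n q y_k ≤ dl n q e_k + ‖e_k - y_k‖`, `‖e_k - y_k‖ = r_k - t_k`).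
Compactness (edge `Fc n a ∩ Fc n b`): a subsequence `e_k → e`, `e ∈ Fc n a ∩ Fc n b`, `e ≠ q` (`At n q {a0}`). `t_k → t = dl n q e > 0`, `chT n (b :: c') e = q + t • u` (`u` is the same), `‖e - x‖ = r - t`. The induction hypothesis for `e` and `b :: c'`: `b :: c' = pre ++ l'`, `e` is reached at `t` with the list `l'` in the direction
`(dl n q e)⁻¹ • (chT n (b :: c') e - q) = u`, and `e ∈ Fc n d` for `d ∈ pre`.
If `x = e`: the list `l'`, `pre' = a :: pre` (`x ∈ Fc n a`; `chT n (a :: b :: c') x = chT n (b :: c') (rho n b a x) = chT n (b :: c') x`, the hinge fixes `x`).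
If `x ≠ e`: `e` is not a vertex: otherwise `bapi_vertex` with `w` = a point of the ray a little before `e` in the facet of the head of `l'` (distance `ε`, `dl n q w ≤ t - ε`, `ReachL` with the same list `l'`) and `w' = x` gives `dl n w x < ε + ‖e - x‖` and `dl n q x ≤ dl n q w + dl n w x < t + (r - t)`. So `pre = []`
(if `pre = b :: _` then the head of `l'` is a third facet at `e`, different from `a` and `b` since `a :: b :: c'` is nodup): `l' = b :: c'`. `a ∉ b :: c'`, `At n e {a, b}` (on both, and at most two): the step constructor gives the ray with the list `a :: b :: c'` and entry time `t`, it reaches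
`x` at `r`: `pre = []`. -/

open Real MeasureTheory Filter Topology

namespace ALX

open H47A (E3 cross3 det3 pl)

variable {A : Type} [Fintype A] [DecidableEq A] {n : A → E3}

theorem c12_nodup {a0 : A} {q u : E3} {l : List A} {t : ℝ} (h : Ray n a0 q u l t) : l.Nodup := by
  induction h with
  | base => simp
  | step h1 h2 h3 h4 ih => exact List.nodup_cons.2 ⟨h2, ih⟩

theorem c12_one {a0 a : A} {q u : E3} {t : ℝ} (h : Ray n a0 q u [a] t) : a = a0 := by
  cases h
  rfl

/-- distance in the unfolding -/
theorem c12_dist (T : E3 ≃ᵃⁱ[ℝ] E3) {q u x y : E3} {r s : ℝ} (hu : ‖u‖ = 1) (hx : T x = q + r • u) (hy : T y = q + s • u)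
    (hrs : s ≤ r) : ‖y - x‖ = r - s := by
  have h1 : dist (T y) (T x) = dist y x := T.dist_map y x
  rw [dist_eq_norm, dist_eq_norm, hx, hy] at h1
  rw [← h1, show q + s • u - (q + r • u) = -((r - s) • u) by module, norm_neg, norm_smul, hu, mul_one, Real.norm_eq_abs,
    abs_of_nonneg (by linarith)]

theorem reach_closed (hG : Gn n) {a0 : A} {q : E3} (hq : At n q {a0}) : ∀ (c : List A) (a : A) (x : E3), x ∈ Fc n a → x ≠ q →
    (∀ δ > 0, ∃ y u, y ∈ Fc n a ∧ ‖y - x‖ < δ ∧ Dir n a0 u ∧ ReachL n a0 q u y (dl n q y) (a :: c)) →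
    ∃ pre l', a :: c = pre ++ l' ∧ (∀ b ∈ pre, x ∈ Fc n b) ∧ Dir n a0 ((dl n q x)⁻¹ • (chT n (a :: c) x - q)) ∧
      ReachL n a0 q ((dl n q x)⁻¹ • (chT n (a :: c) x - q)) x (dl n q x) l' := by
  have hqb : q ∈ bd n := hq.bd (by simp)
  intro c
  induction c with
  | nil =>
    intro a x hx hxq hap
    have hxb : x ∈ bd n := Fc_sub_bd a hx
    obtain ⟨y0, u0, hy0, -, hu0, hr0⟩ := hap 1 one_pos
    obtain ⟨a', c', t', hl, hray, -, -, -⟩ := hr0
    obtain ⟨rfl, rfl⟩ := List.cons.inj hl
    have ha : a = a0 := c12_one hray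
    subst ha
    have hr : 0 < dl n q x := by
      refine lt_of_le_of_ne (dl_nonneg q x) fun h0 => ?_
      exact hxq (((dl_eq_zero hG hqb hxb).1 h0.symm).symm)
    have hT : chT n [a] x = x := rfl
    have hd : dl n q x = ‖q - x‖ := dl_Fc hG (hq.mem (by simp)) hx
    refine ⟨[], [a], rfl, by simp, ⟨?_, ?_⟩, ?_⟩
    · rw [hT, norm_smul, norm_inv, Real.norm_eq_abs, abs_of_pos hr, hd, norm_sub_rev x q]
      rw [hd] at hr
      exact inv_mul_cancel₀ hr.ne'
    · rw [hT, real_inner_smul_right]
      have h1 : lf n a (x - q) = 0 := by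
        rw [lf_sub, hx.2, (hq.mem (by simp : a ∈ ({a} : Finset A))).2, sub_self]
      unfold lf at h1
      rw [h1, mul_zero]
    · refine ⟨a, [], 0, rfl, Ray.base, hx, hr, ?_⟩
      rw [smul_smul, mul_inv_cancel₀ hr.ne', one_smul]
      abel
  | cons b c' ih =>
    intro a x hx hxq hap
    have hxb : x ∈ bd n := Fc_sub_bd a hx
    have hr : 0 < dl n q x := by
      refine lt_of_le_of_ne (dl_nonneg q x) fun h0 => ?_
      exact hxq (((dl_eq_zero hG hqb hxb).1 h0.symm).symm)
    set r := dl n q x with hrdef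
    set T := chT n (a :: b :: c') with hT
    -- the approximating sequence
    have hseq : ∀ k : ℕ, ∃ y u e t, y ∈ Fc n a ∧ ‖y - x‖ < 1 / ((k : ℝ) + 1) ∧ Dir n a0 u ∧ T y = q + dl n q y • u ∧
        e ∈ Fc n a ∩ Fc n b ∧ t = dl n q e ∧ t ≤ dl n q y ∧ T e = q + t • u ∧ chT n (b :: c') e = q + t • u ∧
        ReachL n a0 q u e (dl n q e) (b :: c') ∧ (a :: b :: c').Nodup := by
      intro k
      obtain ⟨y, u, hy, hyx, hu, hre⟩ := hap (1 / ((k : ℝ) + 1)) (by positivity)
      obtain ⟨a', c'', t, hl, hray, hya, htr, hTy⟩ := hre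
      obtain ⟨rfl, rfl⟩ := List.cons.inj hl
      obtain ⟨e, he, hab, he1, he2, hre2⟩ := ray_tail hG hray
      have hTe : T e = q + t • u := by rw [he1, AffineIsometryEquiv.apply_symm_apply]
      have hTe2 : chT n (b :: c') e = q + t • u := by rw [he2, AffineIsometryEquiv.apply_symm_apply]
      have heb : e ∈ Fc n b := he.mem (by simp)
      have hea : e ∈ Fc n a := he.mem (by simp)
      have h1 : dl n q e ≤ t := bapi_reach_le hG hq hu ⟨_, hre2⟩
      have h2 : ‖e - y‖ = dl n q y - t := c12_dist T hu.1 hTy hTe htr.le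
      have h3 : |dl n q e - dl n q y| ≤ ‖e - y‖ := dl_lip hG hqb hea hy
      have h4 : t = dl n q e := by
        have := abs_le.1 h3
        linarith [this.1]
      refine ⟨y, u, e, t, hy, hyx, hu, hTy, ⟨hea, heb⟩, h4, htr.le, hTe, hTe2, ?_, c12_nodup hray⟩
      rw [← h4]
      exact hre2
    choose y u e t hy hyx hu hTy he ht htr hTe hTe2 hre hnd using hseq
    have hnd0 := hnd 0
    have hab : a ≠ b := by
      have := (List.nodup_cons.1 hnd0).1
      intro h
      apply this
      rw [h]
      simp
    have hyl : Tendsto y atTop (𝓝 x) := by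
      rw [tendsto_iff_norm_sub_tendsto_zero]
      exact squeeze_zero (fun _ => norm_nonneg _) (fun k => (hyx k).le) tendsto_one_div_add_atTop_nhds_zero_nat
    have hrl : Tendsto (fun k => dl n q (y k)) atTop (𝓝 r) := by
      rw [tendsto_iff_norm_sub_tendsto_zero]
      refine squeeze_zero (fun _ => norm_nonneg _) (fun k => ?_) (tendsto_iff_norm_sub_tendsto_zero.1 hyl)
      rw [Real.norm_eq_abs]
      exact dl_lip hG hqb (hy k) hx
    have hTl : Tendsto (fun k => T (y k)) atTop (𝓝 (T x)) := (T.continuous.tendsto x).comp hyl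
    have hul : Tendsto u atTop (𝓝 (r⁻¹ • (T x - q))) := by
      have h1 : Tendsto (fun k => (dl n q (y k))⁻¹ • (T (y k) - q)) atTop (𝓝 (r⁻¹ • (T x - q))) :=
        (hrl.inv₀ hr.ne').smul (hTl.sub_const q)
      refine h1.congr' ?_
      filter_upwards [hrl.eventually (lt_mem_nhds hr)] with k hk
      rw [hTy k, add_sub_cancel_left, smul_smul, inv_mul_cancel₀ hk.ne', one_smul]
    set u' := r⁻¹ • (T x - q) with hu'
    have hdir : Dir n a0 u' := by
      constructor
      · have h1 : Tendsto (fun k => ‖u k‖) atTop (𝓝 ‖u'‖) := hul.norm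
        have h2 : (fun k => ‖u k‖) = fun _ => (1 : ℝ) := funext fun k => (hu k).1
        rw [h2] at h1
        exact tendsto_nhds_unique h1 tendsto_const_nhds
      · have h1 : Tendsto (fun k => inner ℝ (n a0) (u k)) atTop (𝓝 (inner ℝ (n a0) u')) := tendsto_const_nhds.inner hul
        have h2 : (fun k => inner ℝ (n a0) (u k)) = fun _ => (0 : ℝ) := funext fun k => (hu k).2
        rw [h2] at h1
        exact tendsto_nhds_unique h1 tendsto_const_nhds
    have hTx : T x = q + r • u' := by
      rw [hu', smul_smul, mul_inv_cancel₀ hr.ne', one_smul]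
      abel
    -- compactness
    have hK : IsCompact (Fc n a ∩ Fc n b) := (hG.Fc_compact a).inter_right (Fc_closed b)
    obtain ⟨e0, he0, φ, hφ, hel⟩ := hK.tendsto_subseq he
    have he0q : e0 ≠ q := by
      intro h
      rw [h] at he0
      have h1 := ((At.iff.1 hq).2 a).2 he0.1.2
      have h2 := ((At.iff.1 hq).2 b).2 he0.2.2
      rw [Finset.mem_singleton] at h1 h2
      exact hab (h1.trans h2.symm)
    have he0b : e0 ∈ bd n := Fc_sub_bd a he0.1
    obtain ⟨pre, l', hpl, hpre, hdir', hre'⟩ := ih b e0 he0.2 he0q (by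
      intro δ hδ
      have h1 : ∀ᶠ k in atTop, ‖e (φ k) - e0‖ < δ := by
        have h2 := Metric.tendsto_nhds.1 hel δ hδ
        filter_upwards [h2] with k hk
        rw [← dist_eq_norm]
        exact hk
      obtain ⟨k, hk⟩ := h1.exists
      exact ⟨e (φ k), u (φ k), (he (φ k)).2, hk, hu (φ k), hre (φ k)⟩)
    have ht0 : 0 < dl n q e0 := by
      refine lt_of_le_of_ne (dl_nonneg q e0) fun h0 => ?_
      exact he0q (((dl_eq_zero hG hqb he0b).1 h0.symm).symm)
    set s := dl n q e0 with hs
    have htl : Tendsto (fun k => t (φ k)) atTop (𝓝 s) := by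
      rw [tendsto_iff_norm_sub_tendsto_zero]
      refine squeeze_zero (fun _ => norm_nonneg _) (fun k => ?_) (tendsto_iff_norm_sub_tendsto_zero.1 hel)
      rw [Real.norm_eq_abs, ht (φ k)]
      exact dl_lip hG hqb (he (φ k)).1 he0.1
    have hulφ : Tendsto (fun k => u (φ k)) atTop (𝓝 u') := hul.comp hφ.tendsto_atTop
    have hTe0 : T e0 = q + s • u' := by
      have h1 : Tendsto (fun k => T (e (φ k))) atTop (𝓝 (T e0)) := (T.continuous.tendsto e0).comp hel
      have h2 : Tendsto (fun k => q + t (φ k) • u (φ k)) atTop (𝓝 (q + s • u')) := (htl.smul hulφ).const_add q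
      have h3 : (fun k => T (e (φ k))) = fun k => q + t (φ k) • u (φ k) := funext fun k => hTe (φ k)
      rw [h3] at h1
      exact tendsto_nhds_unique h1 h2
    have hTe0' : chT n (b :: c') e0 = q + s • u' := by
      have h1 : Tendsto (fun k => chT n (b :: c') (e (φ k))) atTop (𝓝 (chT n (b :: c') e0)) :=
        ((chT n (b :: c')).continuous.tendsto e0).comp hel
      have h2 : Tendsto (fun k => q + t (φ k) • u (φ k)) atTop (𝓝 (q + s • u')) := (htl.smul hulφ).const_add q
      have h3 : (fun k => chT n (b :: c') (e (φ k))) = fun k => q + t (φ k) • u (φ k) := funext fun k => hTe2 (φ k)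
      rw [h3] at h1
      exact tendsto_nhds_unique h1 h2
    have hsr : s ≤ r := by
      have h1 : Tendsto (fun k => dl n q (y (φ k))) atTop (𝓝 r) := hrl.comp hφ.tendsto_atTop
      exact le_of_tendsto_of_tendsto' htl h1 fun k => htr (φ k)
    have hue : s⁻¹ • (chT n (b :: c') e0 - q) = u' := by
      rw [hTe0', add_sub_cancel_left, smul_smul, inv_mul_cancel₀ ht0.ne', one_smul]
    rw [hue] at hdir' hre'
    have hex : ‖e0 - x‖ = r - s := c12_dist T hdir.1 hTx hTe0 hsr
    by_cases hxe : x = e0
    · have hrs : r = s := by rw [hrdef, hs, hxe]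
      refine ⟨a :: pre, l', by rw [hpl]; rfl, ?_, hdir, ?_⟩
      · intro d hd
        rcases List.mem_cons.1 hd with hd | hd
        · rw [hd]; exact hx
        · rw [hxe]; exact hpre d hd
      · rw [hrs, hxe]
        exact hre'
    · have hlt : s < r := by
        have h1 : 0 < ‖e0 - x‖ := norm_pos_iff.2 (sub_ne_zero.2 (Ne.symm hxe))
        linarith
      -- `e0` is not a vertex
      have hnv : e0 ∉ Vs n := by
        intro hv
        obtain ⟨d, c'', τ, hl', hray, hed, hτ, hTd⟩ := hre'
        subst hl'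
        obtain ⟨hent, -⟩ := ray_entry hG hq hray
        set e' := (chT n (d :: c'')).symm (q + τ • u') with he'
        have hTe' : chT n (d :: c'') e' = q + τ • u' := by rw [he', AffineIsometryEquiv.apply_symm_apply]
        set m := (τ + s) / 2 with hm
        set w : E3 := (1 / 2 : ℝ) • e' + (1 / 2 : ℝ) • e0 with hw
        have hwF : w ∈ Fc n d := Fc_convex d hent hed (by norm_num) (by norm_num) (by norm_num)
        have hTw : chT n (d :: c'') w = q + m • u' := by
          have h1 : w = AffineMap.lineMap e' e0 (1 / 2 : ℝ) := by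
            rw [AffineMap.lineMap_apply_module, hw]
            norm_num
          have h2 : chT n (d :: c'') (AffineMap.lineMap e' e0 (1 / 2 : ℝ)) =
              AffineMap.lineMap (chT n (d :: c'') e') (chT n (d :: c'') e0) (1 / 2 : ℝ) :=
            (chT n (d :: c'')).toAffineEquiv.toAffineMap.apply_lineMap e' e0 (1 / 2)
          rw [h1, h2, hTe', hTd, AffineMap.lineMap_apply_module, hm]
          module
        have hRw : Reach n a0 q u' w m := ⟨d :: c'', d, c'', τ, rfl, hray, hwF, by rw [hm]; linarith, hTw⟩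
        have h1 : dl n q w ≤ m := bapi_reach_le hG hq hdir hRw
        have h2 : ‖w - e0‖ = s - m := c12_dist (chT n (d :: c'')) hdir.1 hTd hTw (by rw [hm]; linarith)
        have hwe : w ≠ e0 := by
          intro h
          rw [h, sub_self, norm_zero] at h2
          rw [hm] at h2
          linarith
        have h3 := bapi_vertex hG hv hed he0.1 hwF hx hwe hxe
        have h4 : dl n q x ≤ dl n q w + dl n w x := dl_tri hG hqb (Fc_sub_bd d hwF) hxb
        rw [h2, hex] at h3
        rw [← hrdef] at h4
        linarith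
      have hcard : (Ac n e0).card ≤ 2 := by
        by_contra hc
        exact hnv ⟨he0.1.1, by omega⟩
      have hAc : ({b, a} : Finset A) = Ac n e0 := by
        apply Finset.eq_of_subset_of_card_le
        · intro d hd
          rcases Finset.mem_insert.1 hd with hd | hd
          · rw [hd]; exact mem_Ac.2 he0.2.2
          · rw [Finset.mem_singleton.1 hd]; exact mem_Ac.2 he0.1.2
        · rw [Finset.card_pair (Ne.symm hab)]
          exact hcard
      have hprn : pre = [] := by
        rcases pre with _ | ⟨p0, pre'⟩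
        · rfl
        · exfalso
          obtain ⟨d, c'', τ, hl', hray, hed, hτ, hTd⟩ := hre'
          subst hl'
          have h1 : b :: c' = p0 :: (pre' ++ d :: c'') := hpl
          obtain ⟨h2, h3⟩ := List.cons.inj h1
          have hdc : d ∈ c' := by rw [h3]; simp
          have hda : d ∈ Ac n e0 := mem_Ac.2 hed.2
          rw [← hAc] at hda
          have hnd1 := List.nodup_cons.1 hnd0
          have hnd2 := List.nodup_cons.1 hnd1.2
          rcases Finset.mem_insert.1 hda with h | h
          · rw [h] at hdc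
            exact hnd2.1 hdc
          · rw [Finset.mem_singleton] at h
            rw [h] at hdc
            exact hnd1.1 (List.mem_cons_of_mem _ hdc)
      subst hprn
      have hl' : l' = b :: c' := by simpa using hpl.symm
      subst hl'
      obtain ⟨d, c'', τ, hl', hray, hed, hτ, hTd⟩ := hre'
      obtain ⟨rfl, rfl⟩ := List.cons.inj hl'
      refine ⟨[], a :: b :: c', rfl, by simp, hdir, ⟨a, b :: c', s, rfl, ?_, hx, hlt, hTx⟩⟩
      refine Ray.step hray (List.nodup_cons.1 hnd0).1 hτ ?_
      have h1 : (chT n (b :: c')).symm (q + s • u') = e0 := by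
        rw [← hTe0', AffineIsometryEquiv.symm_apply_apply]
      rw [h1]
      exact ⟨he0.1.1, hAc.symm⟩

end ALX
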