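import Pool.Agent.Lib.ALX.C8
import Pool.Agent.Lib.ALX.C11
import Pool.Agent.Lib.ALX.C12

/-! # ALX, chunk C13 (M): all points of a cell are reached in the direction given by the image

`x ∈ Cl n q a T`, `x ≠ q`; `y1` from `Cl_int`. The points `y_s = x + s (y1 - x)`, `0 < s ≤ 1`: `At n y_s {a}`, and strict inequalities `‖T y_s - q‖ < ‖T' y_s - q‖` for `T'.symm q ≠ T.symm q` (affine difference of the squares: `≤ 0` at `x` by `Cl_eq`, `< 0` at `y1`). `y_s ≠ q` for `s` small. `reach_in_cell` gives one list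
`a :: c` (with `chT = T`) for all of them; `reach_closed`. -/

open Real MeasureTheory Filter Topology

namespace ALX

open H47A (E3 cross3 det3 pl)

variable {A : Type} [Fintype A] [DecidableEq A] {n : A → E3}

theorem reach_cell (hG : Gn n) {a0 a : A} {q x : E3} {T : E3 ≃ᵃⁱ[ℝ] E3} (hq : At n q {a0}) (hT : T ∈ Img n a0 q a) (hx : x ∈ Cl n q a T) (hxq : x ≠ q) :
    Dir n a0 ((dl n q x)⁻¹ • (T x - q)) ∧ Reach n a0 q ((dl n q x)⁻¹ • (T x - q)) x (dl n q x) := by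
  obtain ⟨c, hTc, hin⟩ := reach_in_cell hG hq hT
  obtain ⟨y1, u1, c1, hu1, hT1, hy1, hr1, hst1⟩ := Cl_int hG hq hT
  have hx' := hx
  rw [Cl_eq hG hq hT] at hx'
  obtain ⟨hxF, hmin⟩ := hx'
  have hlim : Tendsto (fun s : ℝ => (AffineMap.lineMap x y1 s : E3)) (𝓝[>] 0) (𝓝 x) := by
    have h1 : Continuous (fun s : ℝ => (AffineMap.lineMap x y1 s : E3)) := AffineMap.lineMap_continuous
    have h2 := h1.tendsto 0
    rw [AffineMap.lineMap_apply_zero] at h2
    exact h2.mono_left nhdsWithin_le_nhds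
  obtain ⟨pre, l', -, -, hdir, hre⟩ := reach_closed hG hq c a x hxF hxq (by
    intro δ hδ
    have e1 : ∀ᶠ s : ℝ in 𝓝[>] 0, ‖(AffineMap.lineMap x y1 s : E3) - x‖ < δ := by
      have h1 := (Metric.tendsto_nhds.1 hlim) _ hδ
      filter_upwards [h1] with s hs
      rw [← dist_eq_norm]
      exact hs
    have e2 : ∀ᶠ s : ℝ in 𝓝[>] 0, (AffineMap.lineMap x y1 s : E3) ≠ q :=
      hlim.eventually (isOpen_ne.mem_nhds hxq)
    have e3 : ∀ᶠ s : ℝ in 𝓝[>] 0, s ≤ 1 := by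
      have h1 : ∀ᶠ s : ℝ in 𝓝 0, s ≤ 1 := by
        filter_upwards [gt_mem_nhds (show (0 : ℝ) < 1 by norm_num)] with s hs
        exact le_of_lt hs
      exact nhdsWithin_le_nhds h1
    have e4 : ∀ᶠ s : ℝ in 𝓝[>] 0, 0 < s := self_mem_nhdsWithin
    obtain ⟨s, g1, g2, g3, g4⟩ := (e1.and (e2.and (e3.and e4))).exists
    have hAt : At n (AffineMap.lineMap x y1 s) {a} := segment_interior hxF hy1 g4 g3
    obtain ⟨u, hu, hr⟩ := hin (AffineMap.lineMap x y1 s) hAt g2 (by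
      intro T' hT' hne
      have h2 := c8_aff T T' q x y1 s
      have h3 : ‖T x - q‖ ^ 2 ≤ ‖T' x - q‖ ^ 2 := pow_le_pow_left₀ (norm_nonneg _) (hmin T' hT') 2
      have h4 : ‖T y1 - q‖ ^ 2 < ‖T' y1 - q‖ ^ 2 :=
        pow_lt_pow_left₀ (hst1 T' hT' hne) (norm_nonneg _) two_ne_zero
      have h5 : (1 - s) * (‖T x - q‖ ^ 2 - ‖T' x - q‖ ^ 2) ≤ 0 :=
        mul_nonpos_of_nonneg_of_nonpos (by linarith) (by linarith)
      have h6 : s * (‖T y1 - q‖ ^ 2 - ‖T' y1 - q‖ ^ 2) < 0 :=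
        mul_neg_of_pos_of_neg g4 (by linarith)
      exact (pow_lt_pow_iff_left₀ (norm_nonneg _) (norm_nonneg _) two_ne_zero).1 (by linarith))
    exact ⟨_, u, hAt.mem (Finset.mem_singleton_self _), g1, hu, hr⟩)
  rw [← hTc] at hdir hre
  exact ⟨hdir, l', hre⟩

end ALX
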