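import Pool.Agent.Lib.ALX.C1

/-! # ALX, chunk C2 (M/L): rays are stable

Induction on the ray. Base: nothing. Step `b :: a :: c`, `T = chT n (a :: c)`: for every direction `v` and real `s` put `F v s = lf n b (T.symm (q + s • v))`; it is affine in `s`: `F v s = F v 0 + s β v`, `β v = lf n b (L v)`, `L` the
linear part of `T.symm`, jointly continuous. `F u t' = 1` (`At ... {a, b}`) and `F u t < 1` (`ray_entry`, `b ∉ a :: c`), `t < t'`: so `β u > 0`. For `v` near `u` put `s = t' + (1 - F v t') / β v`: near `t'`, `F v s = 1`. The point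
`T.symm (q + s • v)` is on the plane of `a` (`v` is a direction of the plane of `a0`; `IsUn.symm_plane`) and near the old point, so `lf n d < 1` there for the other
`d` (finitely many strict inequalities, `near_lt`): `At ... {a, b}`. The induction hypothesis with a smaller `ε` gives the entry time `t1 < s`. Use the step constructor. -/

open Real MeasureTheory Filter Topology

namespace ALX

open H47A (E3 cross3 det3 pl)

variable {A : Type} [Fintype A] [DecidableEq A] {n : A → E3}

theorem c2_line (T : E3 ≃ᵃⁱ[ℝ] E3) (q v : E3) (s : ℝ) :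
    T.symm (q + s • v) = T.symm q + s • T.symm.linearIsometryEquiv v := by
  have h1 := T.symm.map_vadd q (s • v)
  rw [vadd_eq_add, vadd_eq_add, map_smul] at h1
  rw [add_comm q, add_comm (T.symm q)]
  exact h1

theorem c2_event (hG : Gn n) {a0 : A} {q u : E3} {l : List A} {t : ℝ} (hq : At n q {a0})
    (h : Ray n a0 q u l t) : ∀ ε : ℝ, 0 < ε → ∀ᶠ v in 𝓝 u, Dir n a0 v → ∃ s, |s - t| < ε ∧ Ray n a0 q v l s := by
  induction h with
  | base =>
    intro ε hε
    refine Filter.Eventually.of_forall fun v _ => ⟨0, ?_, Ray.base⟩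
    rw [sub_zero, abs_zero]
    exact hε
  | @step a b c t t' h hb ht hA ih =>
    intro ε hε
    set T := chT n (a :: c) with hT
    set B : ℝ := lf n b (T.symm q) with hB
    set β : E3 → ℝ := fun v => lf n b (T.symm.linearIsometryEquiv v) with hβ
    have hF : ∀ v s, lf n b (T.symm (q + s • v)) = B + s * β v := by
      intro v s
      rw [c2_line, lf_add, lf_smul]
    have h1 : B + t' * β u = 1 := by
      rw [← hF]
      exact (At.two hA).2.2
    have h2 : B + t * β u < 1 := by
      rw [← hF]
      exact (ray_entry hG hq h).2 b hb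
    have hβu : 0 < β u := by
      have h3 : 0 < (t' - t) * β u := by
        have : (t' - t) * β u = t' * β u - t * β u := by ring
        linarith
      exact (pos_iff_pos_of_mul_pos h3).1 (sub_pos.2 ht)
    have hβc : Continuous β := by
      rw [hβ]
      exact (lf_cont b).comp (T.symm.linearIsometryEquiv.continuous)
    have hab : a ≠ b := by
      rintro rfl
      exact hb List.mem_cons_self
    have hsu : (1 - B) / β u = t' := by
      rw [div_eq_iff hβu.ne']
      linarith
    have hsc : ContinuousAt (fun v => (1 - B) / β v) u :=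
      continuousAt_const.div hβc.continuousAt hβu.ne'
    have hs1 : Tendsto (fun v => (1 - B) / β v) (𝓝 u) (𝓝 t') := by
      have h3 := hsc.tendsto
      rwa [hsu] at h3
    have hm : 0 < min ε ((t' - t) / 2) := lt_min hε (by linarith)
    have e1 : ∀ᶠ v in 𝓝 u, |(1 - B) / β v - t'| < min ε ((t' - t) / 2) := by
      have h3 := (Metric.tendsto_nhds.1 hs1) _ hm
      simpa only [Real.dist_eq] using h3
    have e2 : ∀ᶠ v in 𝓝 u, 0 < β v := continuousAt_const.eventually_lt hβc.continuousAt hβu
    have hy1 : Tendsto (fun v => T.symm (q + ((1 - B) / β v) • v)) (𝓝 u) (𝓝 (T.symm (q + t' • u))) := by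
      have h3 : Tendsto (fun v => q + ((1 - B) / β v) • v) (𝓝 u) (𝓝 (q + t' • u)) :=
        tendsto_const_nhds.add (hs1.smul tendsto_id)
      exact (T.symm.continuous.tendsto _).comp h3
    have e3 := hy1.eventually (near_two hab hA)
    have e4 := ih ((t' - t) / 2) (by linarith)
    filter_upwards [e1, e2, e3, e4] with v g1 g2 g3 g4 hv
    obtain ⟨s1, hs1, hr1⟩ := g4 hv
    have g5 : lf n b (T.symm (q + ((1 - B) / β v) • v)) = 1 := by
      rw [hF, div_mul_cancel₀ _ g2.ne']
      ring
    have g6 : lf n a (T.symm (q + ((1 - B) / β v) • v)) = 1 := ray_pt hG hq hv hr1 _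
    refine ⟨(1 - B) / β v, lt_of_lt_of_le g1 (min_le_left _ _), Ray.step hr1 hb ?_ (g3.1 g6 g5)⟩
    have g7 := lt_of_lt_of_le g1 (min_le_right _ _)
    rw [abs_lt] at g7 hs1
    linarith

theorem ray_open (hG : Gn n) {a0 : A} {q u : E3} {l : List A} {t : ℝ} (hq : At n q {a0}) (hu : Dir n a0 u) (h : Ray n a0 q u l t) {ε : ℝ} (hε : 0 < ε) :
    ∃ δ > 0, ∀ v, Dir n a0 v → ‖v - u‖ < δ → ∃ s, |s - t| < ε ∧ Ray n a0 q v l s := by
  obtain ⟨δ, hδ, h1⟩ := Metric.eventually_nhds_iff.1 (c2_event hG hq h ε hε)
  refine ⟨δ, hδ, fun v hv hvu => h1 ?_ hv⟩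
  rw [dist_eq_norm]
  exact hvu

end ALX
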