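import Pool.Agent.Lib.ALX.C2

/-! # ALX, chunk C3 (S/M): neighbouring points of the same facet are reached with the same list

`T = chT n (a :: c)`, `T x = q + r • u`, entry time `t < r`. For `y` in the facet near `x` put `r' = ‖T y - q‖` (near `r > 0`), `v = r'⁻¹ • (T y - q)` (near `u`): `Dir n a0 v` because `T y` and `q` are in the plane of `a0`. `ray_open` with
`ε = (r - t)/2` gives the ray with entry time `s < r'`. `r > t ≥ 0` (`ray_list`). -/

open Real MeasureTheory Filter Topology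

namespace ALX

open H47A (E3 cross3 det3 pl)

variable {A : Type} [Fintype A] [DecidableEq A] {n : A → E3}

theorem reach_open (hG : Gn n) {a0 a : A} {q u x : E3} {r : ℝ} {c : List A} (hq : At n q {a0}) (hu : Dir n a0 u) (h : ReachL n a0 q u x r (a :: c)) :
    ∃ δ > 0, ∀ y ∈ Fc n a, ‖y - x‖ < δ → ∃ v, Dir n a0 v ∧ ReachL n a0 q v y ‖chT n (a :: c) y - q‖ (a :: c) := by
  obtain ⟨a', c', t, hl, hray, hx, htr, hTx⟩ := h
  obtain ⟨rfl, rfl⟩ := List.cons.inj hl
  have ht0 : 0 ≤ t := (ray_list hray).1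
  have hr : 0 < r := lt_of_le_of_lt ht0 htr
  have hun : IsUn n a a0 (chT n (a :: c)) := ray_un hG hray
  have hqa : lf n a0 q = 1 := (hq.mem (Finset.mem_singleton_self _)).2
  obtain ⟨δ₁, hδ₁, hopen⟩ := ray_open hG hq hu hray (show 0 < (r - t) / 2 by linarith)
  have hfx : ‖chT n (a :: c) x - q‖ = r := by
    rw [hTx, add_sub_cancel_left, norm_smul, hu.1, mul_one, Real.norm_eq_abs, abs_of_pos hr]
  have hfc : Continuous (fun y => ‖chT n (a :: c) y - q‖) :=
    ((chT n (a :: c)).continuous.sub continuous_const).norm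
  have hf1 : Tendsto (fun y => ‖chT n (a :: c) y - q‖) (𝓝 x) (𝓝 r) := by
    have h1 := hfc.tendsto x
    simp only [hfx] at h1
    exact h1
  have hg1 : Tendsto (fun y => ‖chT n (a :: c) y - q‖⁻¹ • (chT n (a :: c) y - q)) (𝓝 x) (𝓝 u) := by
    have h1 : Tendsto (fun y => chT n (a :: c) y - q) (𝓝 x) (𝓝 (chT n (a :: c) x - q)) :=
      ((chT n (a :: c)).continuous.sub continuous_const).tendsto x
    have h2 := (hf1.inv₀ hr.ne').smul h1
    have h3 : r⁻¹ • (chT n (a :: c) x - q) = u := by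
      rw [hTx, add_sub_cancel_left, smul_smul, inv_mul_cancel₀ hr.ne', one_smul]
    rw [h3] at h2
    exact h2
  have e1 : ∀ᶠ y in 𝓝 x, (r + t) / 2 < ‖chT n (a :: c) y - q‖ :=
    hf1.eventually (lt_mem_nhds (by linarith))
  have e2 : ∀ᶠ y in 𝓝 x, ‖‖chT n (a :: c) y - q‖⁻¹ • (chT n (a :: c) y - q) - u‖ < δ₁ := by
    have h1 := (Metric.tendsto_nhds.1 hg1) _ hδ₁
    filter_upwards [h1] with y hy
    rw [← dist_eq_norm]
    exact hy
  obtain ⟨δ, hδ, hev⟩ := Metric.eventually_nhds_iff.1 (e1.and e2)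
  refine ⟨δ, hδ, fun y hy hyx => ?_⟩
  obtain ⟨g1, g2⟩ := hev (by rw [dist_eq_norm]; exact hyx)
  have hfy : 0 < ‖chT n (a :: c) y - q‖ := by linarith
  have hv : Dir n a0 (‖chT n (a :: c) y - q‖⁻¹ • (chT n (a :: c) y - q)) := by
    constructor
    · rw [norm_smul, norm_inv, norm_norm, inv_mul_cancel₀ hfy.ne']
    · rw [real_inner_smul_right]
      have h1 : lf n a0 (chT n (a :: c) y - q) = 0 := by
        rw [lf_sub, hun.plane y hy.2, hqa, sub_self]
      unfold lf at h1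
      rw [h1, mul_zero]
  obtain ⟨s, hs, hrs⟩ := hopen _ hv g2
  refine ⟨_, hv, a, c, s, rfl, hrs, hy, ?_, ?_⟩
  · have := (abs_lt.1 hs).2
    linarith
  · rw [smul_smul, mul_inv_cancel₀ hfy.ne', one_smul]
    abel

end ALX
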