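import Mathlib

/-! # ALX, chunk C4 (M): concavity from local support (one variable)

`conc_of_touch`: suppose `g` is not concave on `[a, b]`: there are `x < z < y` in `[a, b]` and the chord function `k` (affine, `k x = g x`, `k y = g y`) with `g z < k z`. `h = g - k` is continuous on `[x, y]`, `h x = h y = 0`, its minimum `μ < 0` is
attained; let `s` be the smallest point of `[x, y]` with `h s = μ` (compactness), `x < s < y`. Near `s`: `h t ≤ α (t - s) + μ` for some `α` (the touching function minus `k`), and `h t ≥ μ`: so `α (t - s) ≥ 0` for all `t` near `s`, `α = 0`,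
`h t ≤ μ` near `s`, contradiction with the choice of `s` (`t` a little smaller than `s`).
`touch_global`: `g` concave, `g s = m`, `g t ≤ m + α (t - s)` for `t` near `s` in `[a, b]`: for `y ∈ [a, b]`, the points `s + θ (y - s)`, `θ > 0` small: `(1 - θ) g s + θ g y ≤ g (s + θ (y - s)) ≤ m + α θ (y - s)`, so
`g y ≤ m + α (y - s)`. -/

open Real MeasureTheory Filter Topology

namespace ALX

theorem c4_key {g : ℝ → ℝ} {a b : ℝ} (hg : ContinuousOn g (Set.Icc a b))
    (h : ∀ s ∈ Set.Ioo a b, ∃ α : ℝ, ∀ᶠ t in 𝓝 s, g t ≤ g s + α * (t - s)) {x y : ℝ} (hx : x ∈ Set.Icc a b)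
    (hy : y ∈ Set.Icc a b) (hxy : x < y) {p r : ℝ} (hp : 0 ≤ p) (hr : 0 ≤ r) (hpr : p + r = 1) :
    p * g x + r * g y ≤ g (p * x + r * y) := by
  by_contra hcon
  have hcon : g (p * x + r * y) < p * g x + r * g y := not_le.1 hcon
  have hyx : 0 < y - x := sub_pos.2 hxy
  set z := p * x + r * y with hz
  have hp' : p = 1 - r := by linarith
  have hzx : z - x = r * (y - x) := by rw [hz, hp']; ring
  have hzy : y - z = p * (y - x) := by rw [hz, hp']; ring
  have hzI : z ∈ Set.Icc x y := by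
    constructor
    · have : 0 ≤ r * (y - x) := by positivity
      linarith
    · have : 0 ≤ p * (y - x) := by positivity
      linarith
  set m := (g y - g x) / (y - x) with hm
  have hmy : m * (y - x) = g y - g x := by rw [hm]; field_simp
  set k : ℝ → ℝ := fun t => g t - (g x + m * (t - x)) with hk
  have hkx : k x = 0 := by simp [hk]
  have hky : k y = 0 := by
    rw [hk]
    simp only
    rw [hmy]
    ring
  have hkz : k z < 0 := by
    rw [hk]
    simp only
    rw [hzx, show m * (r * (y - x)) = r * (m * (y - x)) by ring, hmy, ]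
    rw [hp'] at hcon
    linarith
  have hsub : Set.Icc x y ⊆ Set.Icc a b := Set.Icc_subset_Icc hx.1 hy.2
  have hkc : ContinuousOn k (Set.Icc x y) := by
    refine (hg.mono hsub).sub ?_
    fun_prop
  obtain ⟨s0, hs0, hmin⟩ := isCompact_Icc.exists_isMinOn ⟨z, hzI⟩ hkc
  have hS : IsCompact {t ∈ Set.Icc x y | k t = k s0} := by
    have h1 : IsClosed {t ∈ Set.Icc x y | k t = k s0} := hkc.preimage_isClosed_of_isClosed isClosed_Icc (isClosed_singleton (x := k s0))
    exact isCompact_Icc.of_isClosed_subset h1 (fun t ht => ht.1)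
  obtain ⟨s, hs, hleast⟩ := hS.exists_isLeast ⟨s0, hs0, rfl⟩
  have hks : k s = k s0 := hs.2
  have hneg : k s < 0 := by
    rw [hks]
    exact lt_of_le_of_lt (hmin hzI) hkz
  have hsx : x < s := by
    refine lt_of_le_of_ne hs.1.1 fun hc => ?_
    rw [← hc, hkx] at hneg
    exact lt_irrefl _ hneg
  have hsy : s < y := by
    refine lt_of_le_of_ne hs.1.2 fun hc => ?_
    rw [hc, hky] at hneg
    exact lt_irrefl _ hneg
  obtain ⟨α, hα⟩ := h s ⟨lt_of_le_of_lt hx.1 hsx, lt_of_lt_of_le hsy hy.2⟩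
  have hkα : ∀ᶠ t in 𝓝 s, k t ≤ k s + (α - m) * (t - s) := by
    filter_upwards [hα] with t ht
    rw [hk]
    simp only
    linarith
  have hmem : ∀ᶠ t in 𝓝 s, t ∈ Set.Icc x y := Icc_mem_nhds hsx hsy
  have hlow : ∀ᶠ t in 𝓝 s, 0 ≤ (α - m) * (t - s) := by
    filter_upwards [hkα, hmem] with t h1 h2
    have h3 : k s0 ≤ k t := hmin h2
    rw [← hks] at h3
    linarith
  have hα0 : α - m = 0 := by
    obtain ⟨ε, hε, hball⟩ := Metric.eventually_nhds_iff.1 hlow
    have h1 := hball (y := s + ε / 2) (by rw [Real.dist_eq]; rw [show s + ε / 2 - s = ε / 2 by ring, abs_of_pos (by positivity)]; linarith)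
    have h2 := hball (y := s - ε / 2) (by rw [Real.dist_eq]; rw [show s - ε / 2 - s = -(ε / 2) by ring, abs_neg, abs_of_pos (by positivity)]; linarith)
    rw [show s + ε / 2 - s = ε / 2 by ring] at h1
    rw [show s - ε / 2 - s = -(ε / 2) by ring] at h2
    have h3 : 0 < ε / 2 := by positivity
    nlinarith
  have hev : ∀ᶠ t in 𝓝 s, t ∈ Set.Icc x y ∧ k t = k s0 := by
    filter_upwards [hkα, hmem] with t h1 h2
    refine ⟨h2, le_antisymm ?_ (hmin h2)⟩
    rw [hα0, zero_mul, add_zero, hks] at h1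
    exact h1
  obtain ⟨ε, hε, hball⟩ := Metric.eventually_nhds_iff.1 hev
  have h2 := hball (y := s - ε / 2) (by rw [Real.dist_eq]; rw [show s - ε / 2 - s = -(ε / 2) by ring, abs_neg, abs_of_pos (by positivity)]; linarith)
  have h3 := hleast h2
  linarith

theorem conc_of_touch {g : ℝ → ℝ} {a b : ℝ} (hg : ContinuousOn g (Set.Icc a b))
    (h : ∀ s ∈ Set.Ioo a b, ∃ α : ℝ, ∀ᶠ t in 𝓝 s, g t ≤ g s + α * (t - s)) : ConcaveOn ℝ (Set.Icc a b) g := by
  refine ⟨convex_Icc a b, ?_⟩
  intro x hx y hy p r hp hr hpr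
  simp only [smul_eq_mul]
  rcases lt_trichotomy x y with h1 | h1 | h1
  · exact c4_key hg h hx hy h1 hp hr hpr
  · subst h1
    rw [← add_mul, ← add_mul, hpr, one_mul, one_mul]
  · have h2 := c4_key hg h hy hx h1 hr hp (by linarith)
    rw [add_comm (p * g x), add_comm (p * x)]
    exact h2

theorem touch_global {g : ℝ → ℝ} {a b : ℝ} (hg : ConcaveOn ℝ (Set.Icc a b) g) {s α : ℝ} (hs : s ∈ Set.Icc a b)
    (h : ∀ᶠ t in 𝓝[Set.Icc a b] s, g t ≤ g s + α * (t - s)) : ∀ y ∈ Set.Icc a b, g y ≤ g s + α * (y - s) := by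
  intro y hy
  have hc : Tendsto (fun θ : ℝ => (1 - θ) * s + θ * y) (𝓝[>] 0) (𝓝[Set.Icc a b] s) := by
    rw [tendsto_nhdsWithin_iff]
    constructor
    · have h1 : Tendsto (fun θ : ℝ => (1 - θ) * s + θ * y) (𝓝 0) (𝓝 ((1 - 0) * s + 0 * y)) := by
        apply Continuous.tendsto
        fun_prop
      rw [sub_zero, one_mul, zero_mul, add_zero] at h1
      exact h1.mono_left nhdsWithin_le_nhds
    · filter_upwards [Ioo_mem_nhdsGT (show (0:ℝ) < 1 from one_pos)] with θ hθ
      exact (convex_Icc a b) hs hy (by linarith [hθ.2]) hθ.1.le (by ring)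
  obtain ⟨θ, h1, hθ⟩ := ((hc.eventually h).and (Ioo_mem_nhdsGT (show (0:ℝ) < 1 from one_pos))).exists
  have h2 := hg.2 hs hy (show 0 ≤ 1 - θ by linarith [hθ.2]) hθ.1.le (by ring)
  simp only [smul_eq_mul] at h2
  have h3 : θ * g y ≤ θ * (g s + α * (y - s)) := by
    have : (1 - θ) * s + θ * y - s = θ * (y - s) := by ring
    rw [this] at h1
    nlinarith
  exact le_of_mul_le_mul_left h3 hθ.1

end ALX
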