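import Pool.Agent.Lib.ALX.C3
import Pool.Agent.Lib.ALX.BApi

/-! # ALX, chunk C5 (S/M): local upper bound

`reach_open` and `bapi_reach_le`. -/

open Real MeasureTheory Filter Topology

namespace ALX

open H47A (E3 cross3 det3 pl)

variable {A : Type} [Fintype A] [DecidableEq A] {n : A → E3}

theorem dl_le_loc (hG : Gn n) {a0 a : A} {q u x : E3} {r : ℝ} {c : List A} (hq : At n q {a0}) (hu : Dir n a0 u) (h : ReachL n a0 q u x r (a :: c)) :
    ∃ δ > 0, ∀ y ∈ Fc n a, ‖y - x‖ < δ → dl n q y ≤ ‖chT n (a :: c) y - q‖ := by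
  obtain ⟨δ, hδ, h1⟩ := reach_open hG hq hu h
  refine ⟨δ, hδ, fun y hy hyx => ?_⟩
  obtain ⟨v, hv, hr⟩ := h1 y hy hyx
  exact bapi_reach_le hG hq hv ⟨_, hr⟩

/-- a point of only one facet is reached with a list which starts with this facet -/
theorem img_of_short (hG : Gn n) {a0 a : A} {q x : E3} (hq : At n q {a0}) (hx : At n x {a}) (hxq : x ≠ q) :
    ∃ u c, Dir n a0 u ∧ ReachL n a0 q u x (dl n q x) (a :: c) ∧ chT n (a :: c) ∈ Img n a0 q a ∧ ‖chT n (a :: c) x - q‖ = dl n q x := by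
  have hxb : x ∈ bd n := hx.bd (Finset.singleton_nonempty a)
  obtain ⟨u, hu, l, hl⟩ := bapi_short hG hq hxb hxq
  have hl' := hl
  obtain ⟨a', c, t, hlc, h1, h2, h3, h4⟩ := hl
  have ha : a' = a := by
    have h5 : a' ∈ ({a} : Finset A) := ((At.iff.1 hx).2 a').2 h2.2
    exact Finset.mem_singleton.1 h5
  subst ha
  subst hlc
  refine ⟨u, c, hu, hl', ⟨u, x, c, hu, hx, hl', rfl⟩, ?_⟩
  have h6 : 0 ≤ dl n q x := ENNReal.toReal_nonneg
  rw [h4, add_sub_cancel_left, norm_smul, hu.1, mul_one, Real.norm_eq_abs, abs_of_nonneg h6]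

end ALX
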