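import Pool.Agent.Lib.ALX.C4
import Pool.Agent.Lib.ALX.C5

/-! # ALX, chunk C6 (M/L): the bound by an image, relative interior of the facet

`T ∈ Img n a0 q a` comes from a point `x` with `At n x {a}`, `x ≠ q` (`r > 0`). Let `y ≠ x` (else `img`: `‖T x - q‖ = dl n q x`). `z σ = x + σ (y - x)`, `σ ∈ [0, 1]`: `At n (z σ) {a}` (convexity, strict inequalities).
`g σ = (dl n q (z σ))² - σ² ‖y - x‖²` is continuous on `[0, 1]` (`|dl q z - dl q z'| ≤ ‖z - z'‖` by `dl_lip`). For every unfolding `S` (affine isometry) `σ ↦ ‖S (z σ) - q‖² - σ² ‖y - x‖²` is affine. For `σ ∈ (0, 1)` with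
`z σ ≠ q`: `img_of_short`, `dl_le_loc` at `z σ`: `g` is touched from above by an affine function. If `z σ = q` (then `a = a0`, `At n q {a0}`): `dl n q w ≤ ‖w - q‖` on the whole facet with equality at `q`: the same with `S = id`.
`conc_of_touch`: `g` is concave. At `σ = 0` the unfolding `T` touches: `dl n q w ≤ ‖T w - q‖` near `x` in the facet, equality at `x`; `touch_global` at `s = 0` (within `[0, 1]`) gives `dl n q y ≤ ‖T y - q‖` (compare the squares). -/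

open Real MeasureTheory Filter Topology

namespace ALX

open H47A (E3 cross3 det3 pl)

variable {A : Type} [Fintype A] [DecidableEq A] {n : A → E3}

theorem c6_aff (S : E3 ≃ᵃⁱ[ℝ] E3) (q x y : E3) : ∃ α : ℝ, ∀ s t : ℝ,
    ‖S (AffineMap.lineMap x y t) - q‖ ^ 2 - t ^ 2 * ‖y - x‖ ^ 2 =
      ‖S (AffineMap.lineMap x y s) - q‖ ^ 2 - s ^ 2 * ‖y - x‖ ^ 2 + α * (t - s) := by
  refine ⟨2 * inner ℝ (S x - q) (S y - S x), fun s t => ?_⟩
  have h1 : ∀ r : ℝ, S (AffineMap.lineMap x y r) - q = (S x - q) + r • (S y - S x) := by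
    intro r
    have h2 : S (AffineMap.lineMap x y r) = AffineMap.lineMap (S x) (S y) r :=
      S.toAffineEquiv.toAffineMap.apply_lineMap x y r
    rw [h2, AffineMap.lineMap_apply, vsub_eq_sub, vadd_eq_add]
    abel
  have h2 : ‖S y - S x‖ = ‖y - x‖ := by
    rw [← dist_eq_norm, ← dist_eq_norm, S.dist_map]
  rw [h1 t, h1 s, norm_add_sq_real, norm_add_sq_real, inner_smul_right, inner_smul_right, norm_smul,
    norm_smul, mul_pow, mul_pow, h2, Real.norm_eq_abs, Real.norm_eq_abs, sq_abs, sq_abs]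
  ring

/-- the touching function at a point `z s`, within the segment -/
theorem c6_touch (hG : Gn n) {a0 a : A} {q x y z : E3} {s : ℝ} {S : E3 ≃ᵃⁱ[ℝ] E3}
    (hx : x ∈ Fc n a) (hy : y ∈ Fc n a) (hz : z = AffineMap.lineMap x y s)
    (hS : ‖S z - q‖ = dl n q z) {δ : ℝ} (hδ : 0 < δ)
    (hloc : ∀ w ∈ Fc n a, ‖w - z‖ < δ → dl n q w ≤ ‖S w - q‖) :
    ∃ α : ℝ, (∀ᶠ t in 𝓝[Set.Icc 0 1] s, dl n q (AffineMap.lineMap x y t) ^ 2 - t ^ 2 * ‖y - x‖ ^ 2 ≤
      dl n q (AffineMap.lineMap x y s) ^ 2 - s ^ 2 * ‖y - x‖ ^ 2 + α * (t - s)) ∧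
      ∀ t, ‖S (AffineMap.lineMap x y t) - q‖ ^ 2 - t ^ 2 * ‖y - x‖ ^ 2 =
        dl n q (AffineMap.lineMap x y s) ^ 2 - s ^ 2 * ‖y - x‖ ^ 2 + α * (t - s) := by
  obtain ⟨α, hα⟩ := c6_aff S q x y
  have hα' : ∀ t, ‖S (AffineMap.lineMap x y t) - q‖ ^ 2 - t ^ 2 * ‖y - x‖ ^ 2 =
        dl n q (AffineMap.lineMap x y s) ^ 2 - s ^ 2 * ‖y - x‖ ^ 2 + α * (t - s) := by
    intro t
    rw [hα s t, ← hz, hS]
  refine ⟨α, ?_, hα'⟩
  have hc : Continuous (fun t : ℝ => (AffineMap.lineMap x y t : E3)) := AffineMap.lineMap_continuous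
  have h1 : ∀ᶠ t in 𝓝[Set.Icc 0 1] s, ‖(AffineMap.lineMap x y t : E3) - z‖ < δ := by
    have h2 : Tendsto (fun t : ℝ => ‖(AffineMap.lineMap x y t : E3) - z‖) (𝓝 s) (𝓝 0) := by
      have h3 : Continuous (fun t : ℝ => ‖(AffineMap.lineMap x y t : E3) - z‖) := (hc.sub continuous_const).norm
      have h4 := h3.tendsto s
      simp only [← hz, sub_self, norm_zero] at h4
      exact h4
    exact (h2.mono_left nhdsWithin_le_nhds).eventually (gt_mem_nhds hδ)
  filter_upwards [h1, self_mem_nhdsWithin] with t ht ht2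
  have h5 : (AffineMap.lineMap x y t : E3) ∈ Fc n a :=
    (Fc_convex a).lineMap_mem hx hy ht2
  have h6 := hloc _ h5 ht
  have h7 : dl n q (AffineMap.lineMap x y t) ^ 2 ≤ ‖S (AffineMap.lineMap x y t) - q‖ ^ 2 :=
    pow_le_pow_left₀ (dl_nonneg _ _) h6 2
  rw [← hα' t]
  linarith

theorem dl_le_int (hG : Gn n) {a0 a : A} {q y : E3} {T : E3 ≃ᵃⁱ[ℝ] E3} (hq : At n q {a0}) (hT : T ∈ Img n a0 q a) (hy : At n y {a}) :
    dl n q y ≤ ‖T y - q‖ := by
  obtain ⟨u, x, c, hu, hx, hr, rfl⟩ := hT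
  have hxF : x ∈ Fc n a := hx.mem (Finset.mem_singleton_self _)
  have hyF : y ∈ Fc n a := hy.mem (Finset.mem_singleton_self _)
  have hqb : q ∈ bd n := hq.bd (Finset.singleton_nonempty _)
  have hTx : ‖chT n (a :: c) x - q‖ = dl n q x := by
    obtain ⟨a', c', t, hl, -, -, -, he⟩ := hr
    rw [he, add_sub_cancel_left, norm_smul, hu.1, mul_one, Real.norm_eq_abs, abs_of_nonneg (dl_nonneg _ _)]
  have hat : ∀ s, s ∈ Set.Icc (0 : ℝ) 1 → At n (AffineMap.lineMap x y s) {a} := by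
    intro s hs
    rcases eq_or_lt_of_le hs.1 with h | h
    · rw [← h, AffineMap.lineMap_apply_zero]
      exact hx
    · exact segment_interior hxF hy h hs.2
  have hcont : ContinuousOn (fun t : ℝ => dl n q (AffineMap.lineMap x y t) ^ 2 - t ^ 2 * ‖y - x‖ ^ 2) (Set.Icc 0 1) := by
    have h1 : ContinuousOn (fun t : ℝ => dl n q (AffineMap.lineMap x y t)) (Set.Icc 0 1) := by
      refine (dl_contOn hG hqb).comp (AffineMap.lineMap_continuous.continuousOn) ?_
      intro t ht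
      exact Fc_sub_bd a ((Fc_convex a).lineMap_mem hxF hyF ht)
    exact (h1.pow 2).sub ((continuous_pow 2).mul continuous_const).continuousOn
  have hconc := conc_of_touch hcont (fun s hs => by
    have hs' : s ∈ Set.Icc (0 : ℝ) 1 := ⟨hs.1.le, hs.2.le⟩
    have hz := hat s hs'
    have hnh : 𝓝[Set.Icc (0 : ℝ) 1] s = 𝓝 s := nhdsWithin_eq_nhds.2 (Icc_mem_nhds hs.1 hs.2)
    by_cases hzq : (AffineMap.lineMap x y s : E3) = q
    · have hqF : q ∈ Fc n a := by
        rw [← hzq]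
        exact hz.mem (Finset.mem_singleton_self _)
      obtain ⟨α, hα, -⟩ := c6_touch (a0 := a0) (s := s) (S := AffineIsometryEquiv.refl ℝ E3) hG hxF hyF hzq.symm
        (by
          rw [dl_self hqb]
          simp) one_pos
        (fun w hw _ => by
          rw [dl_Fc hG hqF hw, norm_sub_rev]
          exact le_rfl)
      rw [hnh] at hα
      exact ⟨α, hα⟩
    · obtain ⟨v, c', hv, hr', -, hn⟩ := img_of_short hG hq hz hzq
      obtain ⟨δ, hδ, hloc⟩ := dl_le_loc hG hq hv hr'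
      obtain ⟨α, hα, -⟩ := c6_touch (a0 := a0) (s := s) hG hxF hyF rfl hn hδ hloc
      rw [hnh] at hα
      exact ⟨α, hα⟩)
  obtain ⟨δ, hδ, hloc⟩ := dl_le_loc hG hq hu hr
  obtain ⟨α, hα, hα2⟩ := c6_touch (a0 := a0) (s := 0) hG hxF hyF (AffineMap.lineMap_apply_zero x y).symm hTx hδ hloc
  have h1 := touch_global hconc (s := 0) (α := α) ⟨le_rfl, zero_le_one⟩ hα 1 ⟨zero_le_one, le_rfl⟩
  rw [← hα2 1] at h1
  have h2 : dl n q y ^ 2 ≤ ‖chT n (a :: c) y - q‖ ^ 2 := by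
    simp only [AffineMap.lineMap_apply_one] at h1
    linarith
  exact (pow_le_pow_iff_left₀ (dl_nonneg _ _) (norm_nonneg _) two_ne_zero).1 h2

end ALX
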