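import Pool.Agent.Lib.ALX.C6

/-! # ALX, chunk C7 (M): the distance is the minimum of the image distances

`dl_le_img`: `x0` with `At n x0 {a}` (`Gn.exists_interior`), `y_s = y + s (x0 - y)`, `0 < s ≤ 1`, has `At = {a}`; `dl_le_int`, continuity of `dl n q` on the facet (`dl_lip`) and `s → 0`.
`exists_img`: `y_s ≠ q` for `s` small (if `y_s = q` for some `s` take smaller `s`); `img_of_short` gives `T_s ∈ Img n a0 q a` with `‖T_s y_s - q‖ = dl n q y_s`; `Img` is finite (`img_finite`), so one `T` works for a sequence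
`s_k → 0` (pigeonhole; or: by contradiction `dl n q y < ‖T y - q‖` for all `T ∈ Img`, finitely many, the same holds at `y_s` for `s` small).
`id_img`: take `x` near `q` in the plane of `a0`, `x ≠ q` (facet direction), `At n x {a0}`: the base ray with `u = ‖x - q‖⁻¹ (x - q)` reaches `x` at `‖x - q‖ = dl n q x` (`dl_Fc`). -/

open Real MeasureTheory Filter Topology

namespace ALX

open H47A (E3 cross3 det3 pl)

variable {A : Type} [Fintype A] [DecidableEq A] {n : A → E3}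

theorem c7_dir (hG : Gn n) (a : A) : ∃ u, Dir n a u := by
  obtain ⟨b, hb, -⟩ := hG.third a a
  have h1 := hG.cross (Ne.symm hb)
  have h2 : 0 < ‖cross3 (n a) (n b)‖ := norm_pos_iff.2 h1
  refine ⟨‖cross3 (n a) (n b)‖⁻¹ • cross3 (n a) (n b), ?_, ?_⟩
  · rw [norm_smul, norm_inv, norm_norm, inv_mul_cancel₀ h2.ne']
  · rw [real_inner_smul_right, real_inner_comm, H47A.cross3_self_left, mul_zero]

/-- points of the facet near an interior point -/
theorem c7_near (hG : Gn n) {a : A} {x : E3} (hx : At n x {a}) : ∃ u, Dir n a u ∧ ∃ t : ℝ, 0 < t ∧ At n (x + t • u) {a} := by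
  obtain ⟨u, hu⟩ := c7_dir hG a
  refine ⟨u, hu, ?_⟩
  have h1 : Tendsto (fun t : ℝ => x + t • u) (𝓝[>] 0) (𝓝 x) := p03_tendsto x u
  have h2 := h1.eventually (near_one hx)
  have h3 : ∀ᶠ t : ℝ in 𝓝[>] 0, 0 < t := self_mem_nhdsWithin
  obtain ⟨t, h4, h5⟩ := (h2.and h3).exists
  refine ⟨t, h5, h4 ?_⟩
  rw [lf_add, lf_smul, hu.lf, mul_zero, add_zero]
  exact (hx.mem (Finset.mem_singleton_self _)).2

theorem c7_int (hG : Gn n) {a : A} {y : E3} (q : E3) (hy : y ∈ Fc n a) : ∃ x, At n x {a} ∧ x ≠ q := by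
  obtain ⟨x, hx⟩ := hG.exists_interior hy
  by_cases h : x = q
  · obtain ⟨u, hu, t, ht, h1⟩ := c7_near hG hx
    refine ⟨_, h1, fun h2 => ?_⟩
    rw [h, add_eq_left] at h2
    rcases smul_eq_zero.1 h2 with h3 | h3
    · exact ht.ne' h3
    · have h4 := hu.1
      rw [h3, norm_zero] at h4
      exact zero_ne_one h4
  · exact ⟨x, hx, h⟩

theorem c7_norm (x y : E3) {s : ℝ} (hs : 0 ≤ s) : ‖y - AffineMap.lineMap y x s‖ = s * ‖x - y‖ := by
  rw [AffineMap.lineMap_apply, vsub_eq_sub, vadd_eq_add]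
  have h1 : y - (s • (x - y) + y) = -(s • (x - y)) := by abel
  rw [h1, norm_neg, norm_smul, Real.norm_eq_abs, abs_of_nonneg hs]

/-- a point of the interior of the facet near `y`, not `q` -/
theorem c7_appr (hG : Gn n) {a : A} {y : E3} (q : E3) (hy : y ∈ Fc n a) {ε : ℝ} (hε : 0 < ε) :
    ∃ x, At n x {a} ∧ x ≠ q ∧ ‖y - x‖ < ε := by
  obtain ⟨x0, hx0, hx0q⟩ := c7_int hG q hy
  have hd : 0 < ‖x0 - y‖ + 1 := by positivity
  obtain ⟨s, hs0, hs1, hs2⟩ : ∃ s : ℝ, 0 < s ∧ s ≤ 1 ∧ s * ‖x0 - y‖ < ε := by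
    refine ⟨min 1 (ε / (‖x0 - y‖ + 1)), lt_min one_pos (by positivity), min_le_left _ _, ?_⟩
    have h1 : min 1 (ε / (‖x0 - y‖ + 1)) * ‖x0 - y‖ ≤ ε / (‖x0 - y‖ + 1) * ‖x0 - y‖ :=
      mul_le_mul_of_nonneg_right (min_le_right _ _) (norm_nonneg _)
    refine lt_of_le_of_lt h1 ?_
    rw [div_mul_eq_mul_div, div_lt_iff₀ hd]
    nlinarith [norm_nonneg (x0 - y)]
  by_cases h : (AffineMap.lineMap y x0 s : E3) = q
  · refine ⟨AffineMap.lineMap y x0 (s / 2), segment_interior hy hx0 (by positivity) (by linarith), ?_, ?_⟩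
    · intro h'
      have h1 : (AffineMap.lineMap y x0 s : E3) = AffineMap.lineMap y x0 (s / 2) := by rw [h, h']
      rw [AffineMap.lineMap_apply, AffineMap.lineMap_apply, vsub_eq_sub, vadd_eq_add, vadd_eq_add,
        add_left_inj] at h1
      have h2 : (s / 2) • (x0 - y) = 0 := by
        have h3 : (s / 2) • (x0 - y) = s • (x0 - y) - (s / 2) • (x0 - y) := by
          rw [← sub_smul]
          congr 1
          ring
        rw [h3, h1, sub_self]
      rcases smul_eq_zero.1 h2 with h3 | h3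
      · linarith
      · have h4 : x0 = y := sub_eq_zero.1 h3
        rw [h4, AffineMap.lineMap_same, AffineMap.const_apply] at h
        exact hx0q (h4.trans h)
    · rw [c7_norm x0 y (by positivity)]
      nlinarith [norm_nonneg (x0 - y)]
  · refine ⟨AffineMap.lineMap y x0 s, segment_interior hy hx0 hs0 hs1, h, ?_⟩
    rw [c7_norm x0 y hs0.le]
    exact hs2

theorem c7_iso (T : E3 ≃ᵃⁱ[ℝ] E3) (q x y : E3) : ‖T x - q‖ ≤ ‖T y - q‖ + ‖y - x‖ := by
  have h1 : ‖T x - T y‖ = ‖y - x‖ := by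
    rw [← dist_eq_norm, T.dist_map, dist_eq_norm, norm_sub_rev]
  calc ‖T x - q‖ = ‖(T y - q) + (T x - T y)‖ := by congr 1; abel
    _ ≤ ‖T y - q‖ + ‖T x - T y‖ := norm_add_le _ _
    _ = _ := by rw [h1]

theorem dl_le_img (hG : Gn n) {a0 a : A} {q y : E3} {T : E3 ≃ᵃⁱ[ℝ] E3} (hq : At n q {a0}) (hT : T ∈ Img n a0 q a) (hy : y ∈ Fc n a) :
    dl n q y ≤ ‖T y - q‖ := by
  refine le_of_forall_pos_le_add fun ε hε => ?_
  have hqb : q ∈ bd n := hq.bd (Finset.singleton_nonempty _)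
  obtain ⟨x, hx, -, hyx⟩ := c7_appr hG q hy (show 0 < ε / 2 by positivity)
  have hxF : x ∈ Fc n a := hx.mem (Finset.mem_singleton_self _)
  have h1 := dl_le_int hG hq hT hx
  have h2 := (abs_le.1 (dl_lip hG hqb hy hxF)).2
  have h3 := c7_iso T q x y
  linarith

theorem exists_img (hG : Gn n) {a0 a : A} {q y : E3} (hq : At n q {a0}) (hy : y ∈ Fc n a) : ∃ T ∈ Img n a0 q a, y ∈ Cl n q a T := by
  by_contra hcon
  push Not at hcon
  have hqb : q ∈ bd n := hq.bd (Finset.singleton_nonempty _)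
  have hlt : ∀ T ∈ Img n a0 q a, dl n q y < ‖T y - q‖ := by
    intro T hT
    refine lt_of_le_of_ne (dl_le_img hG hq hT hy) fun h => ?_
    exact hcon T hT ⟨hy, h⟩
  obtain ⟨ε, hε, hεT⟩ : ∃ ε : ℝ, 0 < ε ∧ ∀ T ∈ Img n a0 q a, dl n q y + ε ≤ ‖T y - q‖ := by
    by_cases hne : (Img n a0 q a).Nonempty
    · obtain ⟨T0, hT0, hmin⟩ := Set.exists_min_image (Img n a0 q a) (fun T => ‖T y - q‖)
        (img_finite a0 a q) hne
      refine ⟨‖T0 y - q‖ - dl n q y, sub_pos.2 (hlt T0 hT0), fun T hT => ?_⟩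
      have := hmin T hT
      linarith
    · exact ⟨1, one_pos, fun T hT => absurd ⟨T, hT⟩ hne⟩
  obtain ⟨x, hx, hxq, hyx⟩ := c7_appr hG q hy (show 0 < ε / 2 by positivity)
  have hxF : x ∈ Fc n a := hx.mem (Finset.mem_singleton_self _)
  obtain ⟨u, c, hu, hr, hI, hn⟩ := img_of_short hG hq hx hxq
  have h1 := hεT _ hI
  have h2 := (abs_le.1 (dl_lip hG hqb hy hxF)).1
  have h3 := c7_iso (chT n (a :: c)) q y x
  rw [hn, norm_sub_rev x y] at h3
  linarith

theorem id_img (hG : Gn n) {a0 : A} {q : E3} (hq : At n q {a0}) : AffineIsometryEquiv.refl ℝ E3 ∈ Img n a0 q a0 := by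
  obtain ⟨u, hu, t, ht, hx⟩ := c7_near hG hq
  have hqF : q ∈ Fc n a0 := hq.mem (Finset.mem_singleton_self _)
  have hxF : q + t • u ∈ Fc n a0 := hx.mem (Finset.mem_singleton_self _)
  have hd : dl n q (q + t • u) = t := by
    rw [dl_Fc hG hqF hxF, sub_add_cancel_left, norm_neg, norm_smul, hu.1, mul_one, Real.norm_eq_abs,
      abs_of_pos ht]
  refine ⟨u, q + t • u, [], hu, hx, ?_, rfl⟩
  rw [hd]
  exact ⟨a0, [], 0, rfl, Ray.base, hxF, ht, rfl⟩

end ALX
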