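import Pool.Agent.Lib.ALX.C7

/-! # ALX, chunk C8 (S/M): cells are convex and compact

`dl_le_img`, `exists_img`: `dl n q y = min` over `Img`. `‖T y - q‖ ≤ ‖T' y - q‖` is a linear inequality in `y`: `‖T y - q‖² = ‖y - p‖²`, `p = T.symm q`, and `‖y - p‖² - ‖y - p'‖²` is affine in `y`. -/

open Real MeasureTheory Filter Topology

namespace ALX

open H47A (E3 cross3 det3 pl)

variable {A : Type} [Fintype A] [DecidableEq A] {n : A → E3}

theorem c8_aff (T T' : E3 ≃ᵃⁱ[ℝ] E3) (q x y : E3) (t : ℝ) :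
    ‖T (AffineMap.lineMap x y t) - q‖ ^ 2 - ‖T' (AffineMap.lineMap x y t) - q‖ ^ 2 =
      (1 - t) * (‖T x - q‖ ^ 2 - ‖T' x - q‖ ^ 2) + t * (‖T y - q‖ ^ 2 - ‖T' y - q‖ ^ 2) := by
  obtain ⟨α, hα⟩ := c6_aff T q x y
  obtain ⟨β, hβ⟩ := c6_aff T' q x y
  have h1 := hα 0 t
  have h2 := hα 0 1
  have h3 := hβ 0 t
  have h4 := hβ 0 1
  rw [AffineMap.lineMap_apply_zero] at h1 h2 h3 h4
  rw [AffineMap.lineMap_apply_one] at h2 h4
  linear_combination h1 - h3 - t * h2 + t * h4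

theorem Cl_eq (hG : Gn n) {a0 a : A} {q : E3} {T : E3 ≃ᵃⁱ[ℝ] E3} (hq : At n q {a0}) (hT : T ∈ Img n a0 q a) :
    Cl n q a T = {y | y ∈ Fc n a ∧ ∀ T' ∈ Img n a0 q a, ‖T y - q‖ ≤ ‖T' y - q‖} := by
  ext y
  constructor
  · rintro ⟨hy, hd⟩
    refine ⟨hy, fun T' hT' => ?_⟩
    rw [← hd]
    exact dl_le_img hG hq hT' hy
  · rintro ⟨hy, hmin⟩
    refine ⟨hy, le_antisymm (dl_le_img hG hq hT hy) ?_⟩
    obtain ⟨T', hT', -, hd⟩ := exists_img hG hq hy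
    rw [hd]
    exact hmin T' hT'

theorem Cl_convex (hG : Gn n) {a0 a : A} {q : E3} {T : E3 ≃ᵃⁱ[ℝ] E3} (hq : At n q {a0}) (hT : T ∈ Img n a0 q a) :
    Convex ℝ (Cl n q a T) ∧ IsCompact (Cl n q a T) := by
  rw [Cl_eq hG hq hT]
  constructor
  · intro x hx y hy s t hs ht hst
    refine ⟨Fc_convex a hx.1 hy.1 hs ht hst, fun T' hT' => ?_⟩
    have h1 : s • x + t • y = AffineMap.lineMap x y t := by
      rw [AffineMap.lineMap_apply_module, ← hst, add_sub_cancel_right]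
    have h2 := c8_aff T T' q x y t
    rw [← h1] at h2
    have h3 : ‖T x - q‖ ^ 2 ≤ ‖T' x - q‖ ^ 2 := pow_le_pow_left₀ (norm_nonneg _) (hx.2 T' hT') 2
    have h4 : ‖T y - q‖ ^ 2 ≤ ‖T' y - q‖ ^ 2 := pow_le_pow_left₀ (norm_nonneg _) (hy.2 T' hT') 2
    have h5 : (1 - t) * (‖T x - q‖ ^ 2 - ‖T' x - q‖ ^ 2) ≤ 0 :=
      mul_nonpos_of_nonneg_of_nonpos (by linarith) (by linarith)
    have h6 : t * (‖T y - q‖ ^ 2 - ‖T' y - q‖ ^ 2) ≤ 0 :=
      mul_nonpos_of_nonneg_of_nonpos ht (by linarith)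
    exact (pow_le_pow_iff_left₀ (norm_nonneg _) (norm_nonneg _) two_ne_zero).1 (by linarith)
  · have h1 : {y | y ∈ Fc n a ∧ ∀ T' ∈ Img n a0 q a, ‖T y - q‖ ≤ ‖T' y - q‖} =
        Fc n a ∩ ⋂ T' ∈ Img n a0 q a, {y | ‖T y - q‖ ≤ ‖T' y - q‖} := by
      ext y
      simp
    rw [h1]
    refine (hG.Fc_compact a).inter_right ?_
    refine isClosed_biInter fun T' _ => isClosed_le ?_ ?_
    · exact (T.continuous.sub continuous_const).norm
    · exact (T'.continuous.sub continuous_const).norm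

end ALX
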