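import Pool.Agent.Lib.ALX.C7

/-! # ALX, chunk C9 (M): a point in the interior of a cell

`T` comes from `u, x, c`: `At n x {a}`, `T x = q + r • u`, `r = dl n q x`, entry time `t < r`. Take `s < r` near `r` (`s > t`, `s > 0`), `y = T.symm (q + s • u)`: `‖y - x‖ = r - s`, `y` is in the plane of `a` and near `x`, so `At n y {a}`; the ray reaches
`y` at `s` with the same list, so `dl n q y ≤ s`, and `r = dl n q x ≤ dl n q y + ‖y - x‖`, so `dl n q y = s = ‖T y - q‖`. Let `T' ∈ Img` with `p' = T'.symm q ≠ p = T.symm q`: `‖y - p'‖ ≥ dl n q y = s` (`dl_le_img`). If `=`, then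
`‖x - p'‖ ≤ ‖x - y‖ + ‖y - p'‖ = r ≤ ‖x - p'‖` (`dl_le_img` at `x`): equality in the triangle inequality; also `‖x - p‖ = ‖x - y‖ + ‖y - p‖`. In a strictly convex space (`x ≠ y`) `p' - y` and `p - y` are the same positive multiple of
`y - x`, so `p = p'`. -/

open Real MeasureTheory Filter Topology

namespace ALX

open H47A (E3 cross3 det3 pl)

variable {A : Type} [Fintype A] [DecidableEq A] {n : A → E3}

theorem Cl_int (hG : Gn n) {a0 a : A} {q : E3} {T : E3 ≃ᵃⁱ[ℝ] E3} (hq : At n q {a0}) (hT : T ∈ Img n a0 q a) :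
    ∃ y u c, Dir n a0 u ∧ T = chT n (a :: c) ∧ At n y {a} ∧ ReachL n a0 q u y (dl n q y) (a :: c) ∧
      ∀ T' ∈ Img n a0 q a, T'.symm q ≠ T.symm q → ‖T y - q‖ < ‖T' y - q‖ := by
  obtain ⟨u, x, c, hu, hx, ⟨a', c', t, hl, hray, hxF, htr, hxT⟩, hTe⟩ := hT
  obtain ⟨rfl, rfl⟩ := List.cons.inj hl
  have hiso : ∀ (S : E3 ≃ᵃⁱ[ℝ] E3) (z w : E3), ‖S z - S w‖ = ‖z - w‖ := by
    intro S z w
    rw [← dist_eq_norm, ← dist_eq_norm, S.dist_map]
  have ht0 : ∀ l t, Ray n a0 q u l t → 0 ≤ t := by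
    intro l t h
    induction h with
    | base => exact le_rfl
    | step _ _ hlt _ ih => linarith
  have ht := ht0 _ _ hray
  have hqb : q ∈ bd n := hq.bd ⟨a0, by simp⟩
  set r := dl n q x with hr
  set S := chT n (a :: c) with hS
  have hxS : S.symm (q + r • u) = x := by rw [← hxT, AffineIsometryEquiv.symm_apply_apply]
  have hcont : Continuous fun s : ℝ => S.symm (q + s • u) :=
    S.symm.continuous.comp (by fun_prop : Continuous fun s : ℝ => q + s • u)
  have hSq : S (S.symm q) = q := S.apply_symm_apply q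
  have hev : ∀ᶠ s in 𝓝 r, At n (S.symm (q + s • u)) {a} := by
    have h1 := near_one hx
    rw [← hxS] at h1
    have h2 := (hcont.tendsto r).eventually h1
    refine h2.mono fun s hs => hs ?_
    exact ray_pt hG hq hu hray s
  have hev2 : ∀ᶠ s in 𝓝[<] r, At n (S.symm (q + s • u)) {a} ∧ s ∈ Set.Ioo t r :=
    (hev.filter_mono nhdsWithin_le_nhds).and (Ioo_mem_nhdsLT htr)
  obtain ⟨s, hsA, hts, hsr⟩ := hev2.exists
  have hs0 : 0 < s := lt_of_le_of_lt ht hts
  set y := S.symm (q + s • u) with hy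
  have hSy : S y = q + s • u := by rw [hy, AffineIsometryEquiv.apply_symm_apply]
  have hyF : y ∈ Fc n a := hsA.mem (by simp)
  have hReach : ReachL n a0 q u y s (a :: c) := ⟨a, c, t, rfl, hray, hyF, hts, hSy⟩
  have hle : dl n q y ≤ s := bapi_reach_le hG hq hu ⟨_, hReach⟩
  have hxy : ‖x - y‖ = r - s := by
    rw [← hiso S x y, hxT, hSy, add_sub_add_left_eq_sub, ← sub_smul, norm_smul, hu.1, mul_one, Real.norm_eq_abs,
      abs_of_pos (by linarith)]
  have hge : s ≤ dl n q y := by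
    have h1 := dl_lip hG hqb hxF hyF
    rw [hxy] at h1
    have h2 := (abs_le.1 h1).2
    rw [← hr] at h2
    linarith
  have hdy : dl n q y = s := le_antisymm hle hge
  have hSn : ‖S y - q‖ = s := by
    rw [hSy, add_sub_cancel_left, norm_smul, hu.1, mul_one, Real.norm_eq_abs, abs_of_pos hs0]
  refine ⟨y, u, c, hu, hTe, hsA, by rw [hdy]; exact hReach, ?_⟩
  intro T' hT' hne
  rw [hTe, hSn]
  by_contra hcon
  push Not at hcon
  apply hne
  have hkey : ∀ p : E3, ‖y - p‖ = s → r ≤ ‖x - p‖ → (r - s) • (y - p) = s • (x - y) := by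
    intro p h1 h2
    have h3 : (x - y) + (y - p) = x - p := by abel
    have h4 : ‖(x - y) + (y - p)‖ = ‖x - y‖ + ‖y - p‖ := by
      apply le_antisymm (norm_add_le _ _)
      rw [h3, hxy, h1]
      linarith
    have h5 := (sameRay_iff_norm_add.2 h4).norm_smul_eq
    rw [hxy, h1] at h5
    exact h5
  have hp : ‖y - S.symm q‖ = s := by
    rw [← hiso S y (S.symm q), hSq]
    exact hSn
  have hp2 : r ≤ ‖x - S.symm q‖ := by
    rw [← hiso S x (S.symm q), hSq, hxT, add_sub_cancel_left, norm_smul, hu.1, mul_one,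
      Real.norm_eq_abs]
    exact le_abs_self r
  have hp' : ‖y - T'.symm q‖ = s := by
    rw [← hiso T', AffineIsometryEquiv.apply_symm_apply]
    apply le_antisymm hcon
    rw [← hdy]
    exact dl_le_img hG hq hT' hyF
  have hp2' : r ≤ ‖x - T'.symm q‖ := by
    rw [← hiso T', AffineIsometryEquiv.apply_symm_apply]
    exact dl_le_img hG hq hT' hxF
  have h1 := hkey _ hp hp2
  have h2 := hkey _ hp' hp2'
  have h3 : (r - s) • (y - T'.symm q) = (r - s) • (y - S.symm q) := by rw [h1, h2]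
  have h4 := smul_right_injective E3 (sub_ne_zero.2 (ne_of_gt hsr)) h3
  rw [hTe]
  exact sub_right_injective h4

end ALX
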