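import Pool.Agent.Lib.ALX.ApiPA

/-! # ALX, chunk G4 (S/M): two points of an edge

By contradiction `T ≠ T'`; `Gen.mir` (with `c ≠ b`) is contradicted: for every `z` on both planes (`b` and `c`), `z = x + s (y - x)` (the planes `b`, `c` are independent: `Gn.cross`; `z - x` and
`y - x` are both orthogonal to `n b` and `n c`, hence multiples of `cross3 (n b) (n c)`, and `y - x ≠ 0`), and `s ↦ ‖T z - q‖² - ‖T' z - q‖²` is affine in `s`
(`T z = T x + s (T y - T x)`, `‖T y - T x‖ = ‖y - x‖ = ‖T' y - T' x‖`) and vanishes for `s = 0, 1`. -/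

open Real MeasureTheory Filter Topology

namespace ALX

open H47A (E3 cross3 det3 pl)

variable {A : Type} [Fintype A] [DecidableEq A] {n : A → E3}

theorem g4_line (T : E3 ≃ᵃⁱ[ℝ] E3) (x y q : E3) (s : ℝ) :
    ‖T (x + s • (y - x)) - q‖ ^ 2 = (1 - s) * ‖T x - q‖ ^ 2 + s * ‖T y - q‖ ^ 2 - s * (1 - s) * ‖y - x‖ ^ 2 := by
  have h1 : T (x + s • (y - x)) = T x + s • (T y - T x) := by
    have h2 : T ((s • (y - x)) +ᵥ x) = T.linearIsometryEquiv (s • (y - x)) +ᵥ T x := T.map_vadd _ _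
    have h3 : T y - T x = T.linearIsometryEquiv (y - x) := (T.map_vsub y x).symm
    rw [h3, ← map_smul]
    rw [vadd_eq_add, vadd_eq_add] at h2
    rw [add_comm x, h2, add_comm]
  have h4 : ‖y - x‖ = ‖T y - T x‖ := by
    have h3 : T y - T x = T.linearIsometryEquiv (y - x) := (T.map_vsub y x).symm
    rw [h3, LinearIsometryEquiv.norm_map]
  rw [h1, h4]
  have h5 : T x + s • (T y - T x) - q = (1 - s) • (T x - q) + s • (T y - q) := by
    module
  have h6 : T y - T x = (T y - q) - (T x - q) := by abel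
  rw [h5, h6]
  generalize T x - q = a
  generalize T y - q = b
  rw [← real_inner_self_eq_norm_sq, ← real_inner_self_eq_norm_sq, ← real_inner_self_eq_norm_sq,
    ← real_inner_self_eq_norm_sq]
  simp only [inner_add_left, inner_add_right, inner_sub_left, inner_sub_right, real_inner_smul_left,
    real_inner_smul_right, real_inner_comm b a]
  ring

theorem gen_two (hG : Gn n) {a0 : A} {q : E3} (hg : Gen n a0 q) {b c : A} (hc : c ≠ b) {T T' : E3 ≃ᵃⁱ[ℝ] E3}
    (hT : T ∈ GG n a0 b) (hT' : T' ∈ GG n a0 b) {x y : E3} (hxy : x ≠ y) (hx : lf n b x = 1) (hx' : lf n c x = 1) (hy : lf n b y = 1) (hy' : lf n c y = 1)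
    (h1 : ‖T x - q‖ = ‖T' x - q‖) (h2 : ‖T y - q‖ = ‖T' y - q‖) : T = T' := by
  by_contra hne
  refine hg.mir b T hT T' hT' hne c hc fun z hz hz' => ?_
  have hcr := hG.cross (a := b) (b := c) (Ne.symm hc)
  have hb : ∀ w, lf n b w = 1 → inner ℝ (n b) (w - x) = (0 : ℝ) := by
    intro w hw
    have h3 := lf_sub (n := n) b w x
    unfold lf at h3 hw hx
    rw [h3, hw, hx, sub_self]
  have hc2 : ∀ w, lf n c w = 1 → inner ℝ (n c) (w - x) = (0 : ℝ) := by
    intro w hw
    have h3 := lf_sub (n := n) c w x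
    unfold lf at h3 hw hx'
    rw [h3, hw, hx', sub_self]
  obtain ⟨c1, h3⟩ := H47A.perp_two hcr (hb z hz) (hc2 z hz')
  obtain ⟨c2, h4⟩ := H47A.perp_two hcr (hb y hy) (hc2 y hy')
  have hc20 : c2 ≠ 0 := by
    intro h0
    rw [h0, zero_smul, sub_eq_zero] at h4
    exact hxy h4.symm
  have h5 : z = x + (c1 / c2) • (y - x) := by
    rw [h4, smul_smul, div_mul_cancel₀ _ hc20, ← h3]
    abel
  have h6 : ‖T z - q‖ ^ 2 = ‖T' z - q‖ ^ 2 := by
    rw [h5, g4_line, g4_line, h1, h2]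
  exact (sq_eq_sq₀ (norm_nonneg _) (norm_nonneg _)).mp h6

end ALX
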