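import Pool.Agent.Lib.ALX.P20

/-!
# ALX, chunk P21 (M): the area measure

PROOF. `em n a` is a closed embedding (P17 em_emb), so a measurable embedding: MeasurableEmbedding.map_apply; Measure.sum_apply, Measure.restrict_apply, finite sums (tsum_fintype).
`ar_sub`: for `b ≠ a` the set `S ∩ Fc n b` lies on the line `lf a = 1` of the plane of `b` (P20 vol_edge).
`ar_lintegral`: lintegral_sum_measure, MeasurableEmbedding.lintegral_map, restrict_map. `ar_rel`: a boundary point which is not at a single facet lies on an edge line of each of its facets.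
-/

open Real MeasureTheory Filter Topology

namespace ALX

open H47A (E3 cross3 det3 pl)

variable {A : Type} [Fintype A] [DecidableEq A] {n : A → E3}

theorem ar_apply (h : Gn n) {S : Set E3} (hS : MeasurableSet S) : ar n S = ∑ a, volume (em n a ⁻¹' (S ∩ Fc n a)) := by
  unfold ar
  rw [Measure.sum_apply _ hS, tsum_fintype]
  refine Finset.sum_congr rfl fun a _ => ?_
  rw [Measure.restrict_apply hS, Measure.map_apply (em_cont a).measurable (hS.inter (Fc_closed a).measurableSet)]

theorem ar_sub (h : Gn n) {a : A} {S : Set E3} (hS : MeasurableSet S) (hsub : S ⊆ Fc n a) : ar n S = volume (em n a ⁻¹' S) := by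
  rw [ar_apply h hS, Finset.sum_eq_single a]
  · rw [Set.inter_eq_left.mpr hsub]
  · intro b _ hba
    refine measure_mono_null ?_ (vol_edge h hba)
    intro z hz
    exact (hsub hz.1).2
  · intro ha
    exact absurd (Finset.mem_univ a) ha

theorem p21_null (h : Gn n) {a b : A} (hab : b ≠ a) : (Measure.map (em n a) volume) {x | lf n b x = 1} = 0 := by
  rw [Measure.map_apply (em_cont a).measurable (isClosed_eq (lf_cont b) continuous_const).measurableSet]
  exact vol_edge h hab.symm

theorem ar_rel (h : Gn n) : ar n {x | ¬ ∃ a, At n x {a}} = 0 := by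
  unfold ar
  rw [Measure.sum_apply_eq_zero]
  intro a
  rw [Measure.restrict_apply' (Fc_closed a).measurableSet]
  have hsub : {x | ¬ ∃ a, At n x {a}} ∩ Fc n a ⊆ ⋃ b : {b : A // b ≠ a}, {x | lf n b.1 x = 1} := by
    rintro x ⟨hx1, hx2⟩
    rw [Set.mem_iUnion]
    by_contra hc
    push Not at hc
    refine hx1 ⟨a, At.iff.mpr ⟨hx2.1, fun b => ?_⟩⟩
    rw [Finset.mem_singleton]
    constructor
    · intro hb
      rw [hb]
      exact hx2.2
    · intro hb
      by_contra hba
      exact hc ⟨b, hba⟩ hb
  refine measure_mono_null hsub ?_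
  rw [measure_iUnion_null_iff]
  intro b
  exact p21_null h b.2

theorem ar_lintegral (h : Gn n) {f : E3 → ENNReal} (hf : Measurable f) :
    ∫⁻ x, f x ∂(ar n) = ∑ a, ∫⁻ z in em n a ⁻¹' Fc n a, f (em n a z) := by
  unfold ar
  rw [lintegral_sum_measure, tsum_fintype]
  refine Finset.sum_congr rfl fun a _ => ?_
  rw [Measure.restrict_map (em_cont a).measurable (Fc_closed a).measurableSet, lintegral_map hf (em_cont a).measurable]


end ALX
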