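import Pool.Agent.Lib.ALX.G7
import Pool.Agent.Lib.ALX.P21

/-! # ALX, chunk G8 (M): the same for the area measure; density (use P21: ar_apply, ar_lt_top, ar_compl)

`em n a` is an isometry `ℂ → E3` (`em_isom`), so a closed embedding, a `MeasurableEmbedding`. `ar n` is a finite sum (`Measure.ae_sum_iff`, `MeasurableEmbedding.map_apply`,
`Measure.restrict_apply'` with the closed set `Fc n a`). `ar_finite`: the preimage of the compact facet is bounded. `ar_bd`: the complement of `bd n` has measure zero (each term lives on `Fc n a`).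
`gen_dense`: `x ∈ Fc n a`; `Gn.exists_interior` gives `x0` with `At n x0 {a}`; the points `x + s (x0 - x)`, `0 < s ≤ 1`, have `At = {a}` (`segment_interior`) and a whole neighbourhood in the plane of `a` is in `{At = {a}}` (`near_one`): a set of positive
area in the chart (open, nonempty), it contains a generic point by `gen_ae`. -/

open Real MeasureTheory Filter Topology

namespace ALX

open H47A (E3 cross3 det3 pl)

variable {A : Type} [Fintype A] [DecidableEq A] {n : A → E3}

theorem ar_gen (hG : Gn n) : ∀ᵐ q ∂(ar n), ∃ a0, Gen n a0 q := by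
  unfold ar
  rw [Measure.ae_sum_iff]
  intro a
  rw [ae_restrict_iff' (Fc_closed a).measurableSet, (em_emb hG a).measurableEmbedding.ae_map_iff]
  have h1 : ∀ᵐ z : ℂ, ¬ (At n (em n a z) {a} ∧ ¬ Gen n a (em n a z)) := by
    rw [ae_iff]
    simp only [not_not]
    exact gen_ae hG a
  have h2 : ∀ᵐ z : ℂ, ¬ (em n a z ∈ Fc n a ∧ ¬ At n (em n a z) {a}) := by
    rw [ae_iff]
    simp only [not_not]
    exact fc_ae hG a
  filter_upwards [h1, h2] with z hz1 hz2 hz
  have h3 : At n (em n a z) {a} := by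
    by_contra hc
    exact hz2 ⟨hz, hc⟩
  refine ⟨a, ?_⟩
  by_contra hc
  exact hz1 ⟨h3, hc⟩

theorem ar_finite (hG : Gn n) : ar n Set.univ < ⊤ := by
  rw [ar_apply hG MeasurableSet.univ]
  refine ENNReal.sum_lt_top.2 fun a _ => ?_
  rw [Set.univ_inter]
  exact ((em_emb hG a).isCompact_preimage (hG.Fc_compact a)).measure_lt_top

theorem ar_bd (hG : Gn n) : ar n (bd n)ᶜ = 0 := by
  rw [ar_apply hG bd_closed.measurableSet.compl]
  refine Finset.sum_eq_zero fun a _ => ?_
  have : (bd n)ᶜ ∩ Fc n a = ∅ := by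
    ext x
    simp only [Set.mem_inter_iff, Set.mem_compl_iff, Set.mem_empty_iff_false, iff_false, not_and]
    exact fun h1 h2 => h1 (Fc_sub_bd a h2)
  rw [this, Set.preimage_empty, measure_empty]

theorem gen_dense (hG : Gn n) {a : A} {x : E3} (hx : x ∈ Fc n a) {ε : ℝ} (hε : 0 < ε) : ∃ q, Gen n a q ∧ ‖q - x‖ < ε := by
  obtain ⟨x0, hx0⟩ := hG.exists_interior hx
  obtain ⟨s, hs⟩ : ∃ s, s = min 1 (ε / (2 * (‖x0 - x‖ + 1))) := ⟨_, rfl⟩
  have hN : 0 ≤ ‖x0 - x‖ := norm_nonneg _
  have hs0 : 0 < s := by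
    rw [hs]
    exact lt_min one_pos (by positivity)
  have hs1 : s ≤ 1 := by
    rw [hs]
    exact min_le_left _ _
  have hy := segment_interior hx hx0 hs0 hs1
  have hd : ‖AffineMap.lineMap x x0 s - x‖ < ε / 2 := by
    rw [AffineMap.lineMap_apply, vsub_eq_sub, vadd_eq_add, add_sub_cancel_right, norm_smul, Real.norm_eq_abs, abs_of_pos hs0]
    have h1 : s ≤ ε / (2 * (‖x0 - x‖ + 1)) := by
      rw [hs]
      exact min_le_right _ _
    have h2 : s * (2 * (‖x0 - x‖ + 1)) ≤ ε := (le_div_iff₀ (by positivity)).1 h1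
    nlinarith
  obtain ⟨y, hyd⟩ : ∃ y, y = AffineMap.lineMap x x0 s := ⟨_, rfl⟩
  rw [← hyd] at hy hd
  obtain ⟨δ, hδ, hball⟩ := Metric.eventually_nhds_iff_ball.1 (near_one hy)
  obtain ⟨z0, hz0⟩ := em_surj hG (hy.mem (Finset.mem_singleton_self a)).2
  have hδ' : 0 < min δ (ε / 2) := lt_min hδ (by positivity)
  obtain ⟨z, hz1, hz2⟩ : ∃ z ∈ Metric.ball z0 (min δ (ε / 2)), Gen n a (em n a z) := by
    by_contra hc
    push Not at hc
    have h1 : Metric.ball z0 (min δ (ε / 2)) ⊆ {z : ℂ | At n (em n a z) {a} ∧ ¬ Gen n a (em n a z)} := by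
      intro z hz
      refine ⟨hball _ ?_ (em_lf hG a z), hc z hz⟩
      rw [Metric.mem_ball, ← hz0, dist_eq_norm, em_norm hG, ← dist_eq_norm]
      exact (Metric.mem_ball.1 hz).trans_le (min_le_left _ _)
    have h2 := measure_mono_null h1 (gen_ae hG a)
    exact (Metric.measure_ball_pos volume z0 hδ').ne' h2
  refine ⟨em n a z, hz2, ?_⟩
  have h1 : ‖em n a z - y‖ < ε / 2 := by
    rw [← hz0, em_norm hG, ← dist_eq_norm]
    exact (Metric.mem_ball.1 hz1).trans_le (min_le_right _ _)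
  calc ‖em n a z - x‖ = ‖(em n a z - y) + (y - x)‖ := by rw [sub_add_sub_cancel]
    _ ≤ ‖em n a z - y‖ + ‖y - x‖ := norm_add_le _ _
    _ < ε := by linarith

end ALX
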