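import Pool.Agent.Lib.ALX.N03
import Pool.Agent.Lib.ALX.B13

/-!
# ALX, chunk N04 (S/M): two points on the same ray

PROOF: B13 reach_between for `x'` and `s = r` gives a point `y` with `Reach u y r`, `dl y x' ≤ r' - r`, `y` not a vertex; N03: `y = x`.
-/

open Real MeasureTheory Filter Topology

namespace ALX

open H47A (E3 cross3 det3 pl)

variable {A : Type} [Fintype A] [DecidableEq A] {n : A → E3}

variable {a0 : A} {q u : E3}

theorem reach_order (hG : Gn n) (hq : At n q {a0}) (hu : Dir n a0 u) {x x' : E3} {r r' : ℝ} (h : Reach n a0 q u x r)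
    (h' : Reach n a0 q u x' r') (hr : r < r') : dl n x x' ≤ r' - r ∧ x ∉ Vs n := by
  obtain ⟨l, hl⟩ := h
  have hr0 : 0 < r := (reach_dl hG hq hu ⟨l, hl⟩).2.1
  obtain ⟨y, ⟨l', hl'⟩, hd, hv⟩ := reach_between hG hq hu h' hr0 hr
  obtain ⟨-, hxy⟩ := reach_unique hG hq hu hl hl'
  rw [hxy]
  exact ⟨hd, hv⟩


end ALX
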