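import Pool.Agent.Lib.ALX.N06
import Pool.Agent.Lib.ALX.GDefs
import Pool.Agent.Lib.ALX.P12

/-!
# ALX, chunk N07 (M/L): a shortest path does not go through a point with two unfoldings

PROOF. `r = dl q x > 0`. First segment (N05): `z ∈ Fc n b`, `x ∈ Fc n b`, `z ≠ x`, and `dl q z = r + ‖x - z‖` (triangle inequality and `hd`). Put `p = T.symm q`, `p' = T'.symm q`
(both in the plane of `a`: P12 symm_plane; unfoldings in `GG` are `IsUn`, P11 isUn_chT), `‖x - p‖ = ‖x - p'‖ = r`.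
Case `z ∈ Fc n a`: `r + ‖x - z‖ = dl q z ≤ ‖T z - q‖ = ‖z - p‖ ≤ ‖z - x‖ + ‖x - p‖`, equality in the triangle inequality, so `x - p = (r / ‖z - x‖) • (z - x)`; the same for `p'`, so `p = p'`
and `T = T'` by `Gen.ne`.
Case `z ∉ Fc n a`: `b ≠ a`, `x` is not a vertex (N06), so `At n x {a, b}`. For `w` near `x` with `lf a w = lf b w = 1` (P04 near_two): `r + ‖x - z‖ ≤ dl q w + ‖w - z‖ ≤ ‖w - p‖ + ‖w - z‖`. With
`e = cross3 (n a) (n b)` the function `τ ↦ ‖x + τ e - p‖ + ‖x + τ e - z‖` has a local minimum at 0 and is differentiable there (`x ≠ p`, `x ≠ z`), so its derivative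
`inner (x - p) e / r + inner (x - z) e / ‖x - z‖` is zero (IsLocalMin.hasDerivAt_eq_zero). The same for `p'`: `inner (x - p) e = inner (x - p') e`. For every `w` with `lf a w = lf b w = 1`:
`w - x = c e` (H47A.perp_two), `‖w - p‖^2 = ‖w - x‖^2 + 2 c inner e (x - p) + r^2 = ‖w - p'‖^2`. By `Gen.mir`: `T = T'`.
-/

open Real MeasureTheory Filter Topology

namespace ALX

open H47A (E3 cross3 det3 pl)

variable {A : Type} [Fintype A] [DecidableEq A] {n : A → E3}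

variable {a0 : A} {q : E3}

omit [Fintype A] [DecidableEq A] in
theorem N07_norm (T : E3 ≃ᵃⁱ[ℝ] E3) (q z : E3) : ‖T z - q‖ = ‖z - T.symm q‖ := by
  rw [← dist_eq_norm, ← dist_eq_norm, ← T.dist_map z (T.symm q), T.apply_symm_apply]

omit [Fintype A] [DecidableEq A] in
theorem N07_deriv {v e : E3} (hv : v ≠ 0) : HasDerivAt (fun τ : ℝ => ‖v + τ • e‖) (inner ℝ v e / ‖v‖) 0 := by
  have h1 : (fun τ : ℝ => ‖v + τ • e‖) = fun τ : ℝ => √(‖v‖ ^ 2 + 2 * inner ℝ v e * τ + ‖e‖ ^ 2 * τ ^ 2) := by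
    funext τ
    have h2 : ‖v‖ ^ 2 + 2 * inner ℝ v e * τ + ‖e‖ ^ 2 * τ ^ 2 = ‖v + τ • e‖ ^ 2 := by
      rw [norm_add_sq_real, inner_smul_right, norm_smul, mul_pow, Real.norm_eq_abs, sq_abs]
      ring
    rw [h2, Real.sqrt_sq (norm_nonneg _)]
  rw [h1]
  have hv' : ‖v‖ ≠ 0 := norm_ne_zero_iff.2 hv
  have h3 : HasDerivAt (fun τ : ℝ => ‖v‖ ^ 2 + 2 * inner ℝ v e * τ + ‖e‖ ^ 2 * τ ^ 2) (2 * inner ℝ v e) 0 := by
    have h4 := ((hasDerivAt_id (0 : ℝ)).const_mul (2 * inner ℝ v e)).const_add (‖v‖ ^ 2)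
    have h5 := ((hasDerivAt_pow 2 (0 : ℝ)).const_mul (‖e‖ ^ 2))
    have h6 := h4.add h5
    simp only [id] at h6
    refine HasDerivAt.congr_deriv h6 ?_
    norm_num
  have h7 : ‖v‖ ^ 2 + 2 * inner ℝ v e * 0 + ‖e‖ ^ 2 * (0 : ℝ) ^ 2 = ‖v‖ ^ 2 := by ring
  have h8 := h3.sqrt (by
    rw [h7]
    exact pow_ne_zero 2 hv')
  refine HasDerivAt.congr_deriv h8 ?_
  rw [h7, Real.sqrt_sq (norm_nonneg _)]
  field_simp

omit [DecidableEq A] in
/-- The reflection law at the common edge. -/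
theorem N07_law {x z p w : E3} {r m : ℝ} (hxp : x ≠ p) (hxz : x ≠ z) (hm : m = ‖x - p‖ + ‖x - z‖)
    (h : ∀ᶠ y in 𝓝 x, (∃ τ : ℝ, y = x + τ • (w - x)) → m ≤ ‖y - p‖ + ‖y - z‖) (_hr : r = ‖x - p‖) :
    inner ℝ (x - p) (w - x) / ‖x - p‖ + inner ℝ (x - z) (w - x) / ‖x - z‖ = (0 : ℝ) := by
  have h1 := (N07_deriv (e := w - x) (sub_ne_zero.2 hxp)).add (N07_deriv (e := w - x) (sub_ne_zero.2 hxz))
  have h2 : IsLocalMin ((fun τ : ℝ => ‖x - p + τ • (w - x)‖) + fun τ : ℝ => ‖x - z + τ • (w - x)‖) 0 := by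
    have h3 : Tendsto (fun τ : ℝ => x + τ • (w - x)) (𝓝 0) (𝓝 x) := by
      have h4 : Continuous (fun τ : ℝ => x + τ • (w - x)) := by fun_prop
      have h5 := h4.tendsto 0
      rwa [zero_smul, add_zero] at h5
    filter_upwards [h3.eventually h] with τ hτ
    have h6 := hτ ⟨τ, rfl⟩
    have e1 : x + τ • (w - x) - p = x - p + τ • (w - x) := by abel
    have e2 : x + τ • (w - x) - z = x - z + τ • (w - x) := by abel
    rw [e1, e2, hm] at h6
    show ‖x - p + (0 : ℝ) • (w - x)‖ + ‖x - z + (0 : ℝ) • (w - x)‖ ≤ ‖x - p + τ • (w - x)‖ + ‖x - z + τ • (w - x)‖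
    rw [zero_smul, add_zero, add_zero]
    exact h6
  exact h2.hasDerivAt_eq_zero h1

theorem nb_unique (hG : Gn n) (hg : Gen n a0 q) {x y : E3} {a : A} (hx : x ∈ Fc n a) (hxq : x ≠ q) (hy : y ∈ bd n) (hxy : x ≠ y)
    (hd : dl n q y = dl n q x + dl n x y) {T T' : E3 ≃ᵃⁱ[ℝ] E3} (hT : T ∈ GG n a0 a) (hT' : T' ∈ GG n a0 a)
    (h1 : dl n q x = ‖T x - q‖) (h1' : dl n q x = ‖T' x - q‖) (h2 : ∀ z ∈ Fc n a, dl n q z ≤ ‖T z - q‖)
    (h2' : ∀ z ∈ Fc n a, dl n q z ≤ ‖T' z - q‖) : T = T' := by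
  have hq : q ∈ bd n := hg.loc.bd (Finset.singleton_nonempty a0)
  have hxb : x ∈ bd n := Fc_sub_bd a hx
  obtain ⟨b, z, hxz1, hz, hzx, hd2⟩ := first_seg hG hxb hy hxy
  have hzb : z ∈ bd n := Fc_sub_bd b hz
  have hqz : dl n q x + ‖x - z‖ ≤ dl n q z := by
    have := dl_tri hG hq hzb hy
    linarith
  rw [N07_norm] at h1 h1'
  have hr0 : dl n q x ≠ 0 := fun h0 => hxq ((dl_eq_zero hG hq hxb).1 h0).symm
  set p := T.symm q with hp
  set p' := T'.symm q with hp'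
  have hxp : x ≠ p := by
    intro h0
    rw [h0, sub_self, norm_zero] at h1
    rw [h0] at hr0
    exact hr0 h1
  have hxp' : x ≠ p' := by
    intro h0
    rw [h0, sub_self, norm_zero] at h1'
    rw [h0] at hr0
    exact hr0 h1'
  by_contra hne
  by_cases hza : z ∈ Fc n a
  · have key : ∀ p₀ : E3, dl n q x = ‖x - p₀‖ → dl n q z ≤ ‖z - p₀‖ → ‖z - x‖ • (x - p₀) = dl n q x • (z - x) := by
      intro p₀ k1 k2
      have k3 : ‖(z - x) + (x - p₀)‖ = ‖z - x‖ + ‖x - p₀‖ := by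
        refine le_antisymm (norm_add_le _ _) ?_
        rw [sub_add_sub_cancel, ← k1, norm_sub_rev z x]
        linarith
      have k4 := sameRay_iff_norm_smul_eq.1 (sameRay_iff_norm_add.2 k3)
      rw [k4, ← k1]
    have e1 := key p h1 (by rw [hp, ← N07_norm]; exact h2 z hza)
    have e2 := key p' h1' (by rw [hp', ← N07_norm]; exact h2' z hza)
    have e3 : x - p = x - p' := by
      have hn : ‖z - x‖ ≠ 0 := norm_ne_zero_iff.2 (sub_ne_zero.2 hzx)
      exact smul_right_injective E3 hn (e1.trans e2.symm)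
    exact hg.ne a T hT T' hT' hne (by
      have := sub_right_injective e3
      exact this)
  · have hba : b ≠ a := by
      rintro rfl
      exact hza hz
    have hnv : x ∉ Vs n := inner_reg hG hq hxb hy (Ne.symm hxq) hxy hd
    have hat : At n x {a, b} := by
      refine ⟨hx.1, ?_⟩
      symm
      apply Finset.eq_of_subset_of_card_le
      · intro c hc
        rcases Finset.mem_insert.1 hc with rfl | hc
        · exact mem_Ac.2 hx.2
        · rw [Finset.mem_singleton.1 hc]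
          exact mem_Ac.2 hxz1.2
      · rw [Finset.card_pair (Ne.symm hba)]
        by_contra hc
        exact hnv ⟨hx.1, by omega⟩
    refine hg.mir a T hT T' hT' hne b hba fun w hwa hwb => ?_
    have hline : ∀ (τ : ℝ) (c : A), lf n c x = 1 → lf n c w = 1 → lf n c (x + τ • (w - x)) = 1 := by
      intro τ c c1 c2
      rw [lf_add, lf_smul, lf_sub, c1, c2]
      ring
    have law : ∀ T₀ : E3 ≃ᵃⁱ[ℝ] E3, dl n q x = ‖x - T₀.symm q‖ → x ≠ T₀.symm q → (∀ z ∈ Fc n a, dl n q z ≤ ‖T₀ z - q‖) →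
        inner ℝ (x - T₀.symm q) (w - x) / ‖x - T₀.symm q‖ + inner ℝ (x - z) (w - x) / ‖x - z‖ = (0 : ℝ) := by
      intro T₀ k1 k2 k3
      refine N07_law k2 (Ne.symm hzx) rfl ?_ (rfl : ‖x - T₀.symm q‖ = ‖x - T₀.symm q‖)
      filter_upwards [near_two (Ne.symm hba) hat] with v hv hτ
      obtain ⟨τ, rfl⟩ := hτ
      obtain ⟨v1, v2⟩ := (hv.1 (hline τ a hx.2 hwa) (hline τ b hxz1.2 hwb)).two
      have k4 := k3 _ v1
      have k5 := dl_tri hG hq (Fc_sub_bd a v1) hzb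
      rw [dl_Fc hG v2 hz] at k5
      rw [N07_norm] at k4
      rw [← k1]
      linarith
    have l1 := law T h1 hxp h2
    have l2 := law T' h1' hxp' h2'
    rw [← hp, ← h1] at l1
    rw [← hp', ← h1'] at l2
    have e1 : inner ℝ (x - p) (w - x) = inner ℝ (x - p') (w - x) := by
      have e2 : inner ℝ (x - p) (w - x) / dl n q x = inner ℝ (x - p') (w - x) / dl n q x := by linarith
      exact (div_left_inj' hr0).1 e2
    rw [N07_norm, N07_norm]
    have e3 : ∀ p₀ : E3, dl n q x = ‖x - p₀‖ →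
        ‖w - p₀‖ ^ 2 = dl n q x ^ 2 + 2 * inner ℝ (x - p₀) (w - x) + ‖w - x‖ ^ 2 := by
      intro p₀ k1
      have e4 : w - p₀ = (x - p₀) + (w - x) := by abel
      rw [e4, norm_add_sq_real, ← k1]
    have e5 : ‖w - p‖ ^ 2 = ‖w - p'‖ ^ 2 := by
      rw [e3 p h1, e3 p' h1', e1]
    exact (sq_eq_sq₀ (norm_nonneg _) (norm_nonneg _)).1 e5


end ALX
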