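import Pool.Agent.Lib.ALX.BApi
import Pool.Agent.Lib.ALX.C13
import Pool.Agent.Lib.ALX.G8
import Pool.Agent.Lib.ALX.G4
import Pool.Agent.Lib.ALX.N07
import Pool.Agent.Lib.ALX.N04

/-! # ALX: interface of the modules 0, A, B, C, G, N used by the modules D, E, F, H
(helper34: to be proved from / identified with the chunks of helper82 and helper83) -/

open Real MeasureTheory

namespace ALX

open H47A (E3 cross3 det3 pl)

variable {A : Type} [Fintype A] [DecidableEq A] {n : A → E3} {a0 : A} {q : E3}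

/-! ## Img and cells -/

theorem capi_finite (hG : Gn n) (hq : At n q {a0}) (a : A) : (Img n a0 q a).Finite :=
  img_finite a0 a q

theorem capi_GG (hG : Gn n) (hq : At n q {a0}) (a : A) : Img n a0 q a ⊆ GG n a0 a :=
  fun _ h => img_GG h

/-- the distance is below every image distance on the whole facet -/
theorem capi_le (hG : Gn n) (hq : At n q {a0}) {a : A} {T : E3 ≃ᵃⁱ[ℝ] E3} (hT : T ∈ Img n a0 q a) {y : E3}
    (hy : y ∈ Fc n a) : dl n q y ≤ ‖T y - q‖ :=
  dl_le_img hG hq hT hy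

/-- and it is attained -/
theorem capi_exists (hG : Gn n) (hq : At n q {a0}) {a : A} {y : E3} (hy : y ∈ Fc n a) :
    ∃ T ∈ Img n a0 q a, y ∈ Cl n q a T :=
  exists_img hG hq hy

/-- C6 -/
theorem capi_reach (hG : Gn n) (hg : Gen n a0 q) {a : A} {T : E3 ≃ᵃⁱ[ℝ] E3} (hT : T ∈ Img n a0 q a) {x : E3}
    (hx : x ∈ Cl n q a T) (hxq : x ≠ q) :
    Dir n a0 ((dl n q x)⁻¹ • (T x - q)) ∧ Reach n a0 q ((dl n q x)⁻¹ • (T x - q)) x (dl n q x) :=
  reach_cell hG hg.loc hT hx hxq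

/-- the identity is an image of the facet of `q` -/
theorem capi_id (hG : Gn n) (hq : At n q {a0}) : AffineIsometryEquiv.refl ℝ E3 ∈ Img n a0 q a0 :=
  id_img hG hq

/-! ## unfoldings -/

/-- an unfolding maps the plane of `a` to the plane of `a0`, and back -/
theorem capi_plane (hG : Gn n) {a : A} {T : E3 ≃ᵃⁱ[ℝ] E3} (hT : T ∈ GG n a0 a) (x : E3) :
    lf n a x = 1 ↔ lf n a0 (T x) = 1 :=
  ((GG_un hG hT).plane_iff hG).symm

/-- directions -/
theorem capi_dir (hG : Gn n) {a : A} {T : E3 ≃ᵃⁱ[ℝ] E3} (hT : T ∈ GG n a0 a) (w : E3) :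
    Dir n a w ↔ Dir n a0 (T.linearIsometryEquiv w) := by
  unfold Dir
  rw [LinearIsometryEquiv.norm_map, (GG_un hG hT).dir hG]

/-- the hinge fixes the points of the edge, the linear functionals change sign -/
theorem capi_hinge (hG : Gn n) {a b : A} (hab : a ≠ b) (ha : ∃ x, At n x {a, b}) {w : E3} (hw : lf n a w = 0) :
    (0 < lf n b w ↔ lf n a ((rho n a b).symm.linearIsometryEquiv w) < 0) ∧
      (lf n b w < 0 ↔ 0 < lf n a ((rho n a b).symm.linearIsometryEquiv w)) ∧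
      lf n b ((rho n a b).symm.linearIsometryEquiv w) = 0 :=
  hinge_side hG hab hw

theorem capi_fix (hG : Gn n) {a b : A} (hab : a ≠ b) {x : E3} (h1 : lf n a x = 1) (h2 : lf n b x = 1) :
    rho n a b x = x ∧ (rho n a b).symm x = x :=
  hinge_fix hG h1 h2

/-- extension of an unfolding by an edge -/
theorem capi_ext (hG : Gn n) {a b : A} (hab : a ≠ b) (hq : At n q {a0}) {T : E3 ≃ᵃⁱ[ℝ] E3} (hT : T ∈ Img n a0 q a) :
    (rho n a b).trans T ∈ GG n a0 b :=
  img_GG2 hT hab.symm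

/-! ## generic points -/

theorem capi_two (hG : Gn n) (hg : Gen n a0 q) {b c : A} (hc : c ≠ b) {T T' : E3 ≃ᵃⁱ[ℝ] E3} (hT : T ∈ GG n a0 b)
    (hT' : T' ∈ GG n a0 b) {x y : E3} (hxy : x ≠ y) (hx : lf n b x = 1) (hx' : lf n c x = 1) (hy : lf n b y = 1) (hy' : lf n c y = 1)
    (h1 : ‖T x - q‖ = ‖T' x - q‖) (h2 : ‖T y - q‖ = ‖T' y - q‖) : T = T' :=
  gen_two hG hg hc hT hT' hxy hx hx' hy hy' h1 h2

/-! ## the distance -/

theorem capi_zero (hG : Gn n) {x y : E3} (hx : x ∈ bd n) (hy : y ∈ bd n) : dl n x y = 0 ↔ x = y :=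
  dl_eq_zero hG hx hy

theorem capi_nonneg (x y : E3) : 0 ≤ dl n x y := ENNReal.toReal_nonneg

theorem capi_symm (x y : E3) : dl n x y = dl n y x :=
  dl_comm x y

theorem capi_tri (hG : Gn n) {x y z : E3} (hx : x ∈ bd n) (hy : y ∈ bd n) (hz : z ∈ bd n) :
    dl n x z ≤ dl n x y + dl n y z :=
  dl_tri hG hx hy hz

theorem capi_seg (hG : Gn n) {a : A} {x y : E3} (hx : x ∈ Fc n a) (hy : y ∈ Fc n a) : dl n x y ≤ ‖x - y‖ :=
  (dl_Fc hG hx hy).le

theorem capi_ge (hG : Gn n) {x y : E3} (hx : x ∈ bd n) (hy : y ∈ bd n) : ‖x - y‖ ≤ dl n x y :=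
  dl_ge hG hx hy

theorem capi_lip (hG : Gn n) {q q' x : E3} (hq : q ∈ bd n) (hq' : q' ∈ bd n) (hx : x ∈ bd n) :
    |dl n q x - dl n q' x| ≤ dl n q q' := by
  have h1 := dl_tri hG hq hq' hx
  have h2 := dl_tri hG hq' hq hx
  rw [dl_comm q' q] at h2
  rw [abs_le]
  constructor <;> linarith

theorem capi_cont (hG : Gn n) {x : E3} (hx : x ∈ bd n) : ContinuousOn (fun y => dl n x y) (bd n) :=
  dl_contOn hG hx

/-! ## shortest paths and non-branching -/

/-- B8 -/
theorem capi_short (hG : Gn n) (hq : At n q {a0}) {x : E3} (hx : x ∈ bd n) (hxq : x ≠ q) :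
    ∃ u, Dir n a0 u ∧ Reach n a0 q u x (dl n q x) :=
  bapi_short hG hq hx hxq

/-- N1, N2: two shortest paths with the same direction; a point with two unfoldings is not in the interior of a shortest path, nor is a vertex -/
theorem capi_nb (hG : Gn n) (hg : Gen n a0 q) {u x x' : E3} (hu : Dir n a0 u) (hx : Reach n a0 q u x (dl n q x))
    (hx' : Reach n a0 q u x' (dl n q x')) (hle : dl n q x ≤ dl n q x') :
    x = x' ∨ (dl n q x < dl n q x' ∧ (Ac n x).card ≤ 2 ∧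
      ∀ a, ∀ T ∈ Img n a0 q a, ∀ T' ∈ Img n a0 q a, x ∈ Cl n q a T → x ∈ Cl n q a T' → T = T') := by
  have hq := hg.loc
  obtain ⟨l, hl⟩ := hx
  obtain ⟨l', hl'⟩ := hx'
  rcases hle.lt_or_eq with hlt | heq
  · right
    have h1 := reach_order hG hq hu ⟨l, hl⟩ ⟨l', hl'⟩ hlt
    have h2 := reach_dl hG hq hu ⟨l, hl⟩
    have h3 := reach_dl hG hq hu ⟨l', hl'⟩
    have hqb : q ∈ bd n := hq.bd (Finset.singleton_nonempty a0)
    refine ⟨hlt, ?_, fun a T hT T' hT' hc hc' => ?_⟩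
    · by_contra hh
      exact h1.2 ⟨h2.1.1, by omega⟩
    · have hxq : x ≠ q := by
        rintro rfl
        have := dl_self h2.1
        linarith [h2.2.1]
      have hxx : x ≠ x' := by
        rintro rfl
        exact lt_irrefl _ hlt
      have hd : dl n q x' = dl n q x + dl n x x' := le_antisymm (dl_tri hG hqb h2.1 h3.1) (by linarith [h1.1])
      exact nb_unique hG hg hc.1 hxq h3.1 hxx hd (img_GG hT) (img_GG hT') hc.2 hc'.2
        (fun z hz => dl_le_img hG hq hT hz) (fun z hz => dl_le_img hG hq hT' hz)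
  · left
    rw [← heq] at hl'
    exact (reach_unique hG hq hu hl hl').2

/-! ## facets -/

theorem capi_card (hG : Gn n) {x : E3} (hx : x ∈ bd n) : (Ac n x).card ≤ 3 :=
  hG.card_le x

theorem capi_bounded (hG : Gn n) : Bornology.IsBounded (bd n) :=
  hG.bd_compact.isBounded

theorem capi_Fc (hG : Gn n) (a : A) : IsCompact (Fc n a) ∧ Convex ℝ (Fc n a) :=
  ⟨hG.Fc_compact a, Fc_convex a⟩

theorem capi_Vx (hG : Gn n) (v : E3) : v ∈ Vx n ↔ v ∈ Pt n ∧ 3 ≤ (Ac n v).card :=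
  mem_Vx hG

/-- the frame of a facet with interior points -/
theorem capi_fr (hG : Gn n) (a : A) : IsFr n a (fr n a) :=
  fr_spec hG a

/-- generic points are dense (G1) -/
theorem capi_dense (hG : Gn n) (hq : q ∈ bd n) {ε : ℝ} (hε : 0 < ε) :
    ∃ b q', Gen n b q' ∧ q' ∈ bd n ∧ dl n q q' < ε := by
  obtain ⟨a, ha⟩ := mem_bd.1 hq
  obtain ⟨q', h1, h2⟩ := gen_dense hG ha hε
  have h3 : q' ∈ Fc n a := h1.loc.mem (Finset.mem_singleton_self a)
  refine ⟨a, q', h1, Fc_sub_bd a h3, ?_⟩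
  rw [dl_Fc hG ha h3, norm_sub_rev]
  exact h2

/-- the area is finite, and not zero -/
theorem capi_area (hG : Gn n) : ar n Set.univ < ⊤ :=
  ar_finite hG

end ALX
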