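import Mathlib

/-! # ALX, chunk D0A (M): a ray and a polygon (one variable) -/

namespace ALX

open Filter Topology in
theorem d0a_up {ι : Type*} [Finite ι] {α β : ι → ℝ} {t₀ : ℝ}
    (h : ∀ i, α i + β i * t₀ < 0 ∨ (α i + β i * t₀ ≤ 0 ∧ β i ≤ 0)) :
    ∃ t, t₀ < t ∧ ∀ i, α i + β i * t ≤ 0 := by
  have h1 : ∀ i, ∀ᶠ t in 𝓝[>] t₀, α i + β i * t ≤ 0 := by
    intro i
    rcases h i with h2 | ⟨h2, h3⟩
    · have hc : Tendsto (fun t => α i + β i * t) (𝓝[>] t₀) (𝓝 (α i + β i * t₀)) :=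
        (Continuous.tendsto (by fun_prop) t₀).mono_left nhdsWithin_le_nhds
      exact (hc.eventually (gt_mem_nhds h2)).mono fun t ht => le_of_lt ht
    · filter_upwards [self_mem_nhdsWithin] with t ht
      have h4 : β i * t ≤ β i * t₀ := mul_le_mul_of_nonpos_left (le_of_lt ht) h3
      linarith
  obtain ⟨t, ht, ht'⟩ := ((Filter.eventually_all.2 h1).and self_mem_nhdsWithin).exists
  exact ⟨t, ht', ht⟩

open Filter Topology in
theorem d0a_down {ι : Type*} [Finite ι] {α β : ι → ℝ} {t₀ : ℝ} (h0 : 0 < t₀)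
    (h : ∀ i, α i + β i * t₀ < 0 ∨ (α i + β i * t₀ ≤ 0 ∧ 0 ≤ β i)) :
    ∃ t, 0 ≤ t ∧ t < t₀ ∧ ∀ i, α i + β i * t ≤ 0 := by
  have h1 : ∀ i, ∀ᶠ t in 𝓝[<] t₀, α i + β i * t ≤ 0 := by
    intro i
    rcases h i with h2 | ⟨h2, h3⟩
    · have hc : Tendsto (fun t => α i + β i * t) (𝓝[<] t₀) (𝓝 (α i + β i * t₀)) :=
        (Continuous.tendsto (by fun_prop) t₀).mono_left nhdsWithin_le_nhds
      exact (hc.eventually (gt_mem_nhds h2)).mono fun t ht => le_of_lt ht
    · filter_upwards [self_mem_nhdsWithin] with t ht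
      have h4 : β i * t ≤ β i * t₀ := mul_le_mul_of_nonneg_left (le_of_lt ht) h3
      linarith
  have h5 : ∀ᶠ t in 𝓝[<] t₀, 0 < t := (lt_mem_nhds h0).filter_mono nhdsWithin_le_nhds
  obtain ⟨t, ⟨ht, h6⟩, ht'⟩ := (((Filter.eventually_all.2 h1).and h5).and self_mem_nhdsWithin).exists
  exact ⟨t, le_of_lt h6, ht', ht⟩

/-- `I = {t ≥ 0 | α i + β i t ≤ 0 for all i}` is the intersection of the ray with a polygon. Generic ray: `gen` (at a point `t > 0` of `I` at most one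
condition is an equality, and then its slope is not zero), `org` (if `0 ∈ I` all conditions at `0` are strict).
Conclusion: `I = [s, e]` with `s < e`, exactly one condition `j` is an equality at `e`, it is increasing; and `s = 0` or exactly one condition `i` is an equality at `s`, it is
decreasing.
PROOF. `I` is closed, convex, bounded, nonempty: `e = sSup I ∈ I`, `s = sInf I ∈ I`. If no condition is tight at `e`, then `e` is not the maximum (finitely many continuous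
functions, negative at `e`). `e > 0`: if `e = 0` then `0 ∈ I`, all strict, so `I` contains a positive number. So exactly one `j` is tight at `e` (`gen`), `β j ≠ 0`; if `β j < 0` then
for `t` a little larger than `e` all conditions hold. The same for `s > 0`. `s < e`: if `s = e` the tight condition is the same and `β j > 0`, `β j < 0`. -/
theorem ray_poly {ι : Type*} [Finite ι] {α β : ι → ℝ} {B : ℝ}
    (hne : ∃ t, 0 ≤ t ∧ ∀ i, α i + β i * t ≤ 0)
    (hbd : ∀ t, 0 ≤ t → (∀ i, α i + β i * t ≤ 0) → t ≤ B)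
    (gen : ∀ t, 0 < t → (∀ i, α i + β i * t ≤ 0) → ∀ i, α i + β i * t = 0 →
      β i ≠ 0 ∧ ∀ j, α j + β j * t = 0 → j = i)
    (org : (∀ i, α i ≤ 0) → ∀ i, α i < 0) :
    ∃ s e : ℝ, 0 ≤ s ∧ s < e ∧ (∀ t, (0 ≤ t ∧ ∀ i, α i + β i * t ≤ 0) ↔ s ≤ t ∧ t ≤ e) ∧
      (∃ j, 0 < β j ∧ ∀ i, α i + β i * e = 0 ↔ i = j) ∧
      (s = 0 ∨ ∃ j, β j < 0 ∧ ∀ i, α i + β i * s = 0 ↔ i = j) := by
  have hcl : IsClosed {t : ℝ | 0 ≤ t ∧ ∀ i, α i + β i * t ≤ 0} := by
    have h1 : {t : ℝ | 0 ≤ t ∧ ∀ i, α i + β i * t ≤ 0} =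
        {t : ℝ | 0 ≤ t} ∩ ⋂ i, {t : ℝ | α i + β i * t ≤ 0} := by
      ext t
      simp
    rw [h1]
    refine IsClosed.inter (isClosed_le continuous_const continuous_id) (isClosed_iInter fun i => ?_)
    exact isClosed_le (by fun_prop) continuous_const
  have hne' : {t : ℝ | 0 ≤ t ∧ ∀ i, α i + β i * t ≤ 0}.Nonempty := hne
  have hba : BddAbove {t : ℝ | 0 ≤ t ∧ ∀ i, α i + β i * t ≤ 0} := ⟨B, fun t ht => hbd t ht.1 ht.2⟩
  have hbb : BddBelow {t : ℝ | 0 ≤ t ∧ ∀ i, α i + β i * t ≤ 0} := ⟨0, fun t ht => ht.1⟩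
  obtain ⟨e, he⟩ : ∃ e, e = sSup {t : ℝ | 0 ≤ t ∧ ∀ i, α i + β i * t ≤ 0} := ⟨_, rfl⟩
  obtain ⟨s, hs⟩ : ∃ s, s = sInf {t : ℝ | 0 ≤ t ∧ ∀ i, α i + β i * t ≤ 0} := ⟨_, rfl⟩
  have heI : 0 ≤ e ∧ ∀ i, α i + β i * e ≤ 0 := by
    rw [he]
    exact hcl.csSup_mem hne' hba
  have hsI : 0 ≤ s ∧ ∀ i, α i + β i * s ≤ 0 := by
    rw [hs]
    exact hcl.csInf_mem hne' hbb
  have hup : ∀ t, (0 ≤ t ∧ ∀ i, α i + β i * t ≤ 0) → t ≤ e := fun t ht => by
    rw [he]
    exact le_csSup hba ht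
  have hlo : ∀ t, (0 ≤ t ∧ ∀ i, α i + β i * t ≤ 0) → s ≤ t := fun t ht => by
    rw [hs]
    exact csInf_le hbb ht
  -- the end
  have hE : ∃ j, α j + β j * e = 0 ∧ 0 < β j := by
    by_contra hcon
    push Not at hcon
    obtain ⟨t, h1, h2⟩ := d0a_up (α := α) (β := β) (t₀ := e) fun i => by
      rcases lt_or_eq_of_le (heI.2 i) with h3 | h3
      · exact Or.inl h3
      · exact Or.inr ⟨h3.le, hcon i h3⟩
    have h3 := hup t ⟨heI.1.trans h1.le, h2⟩
    linarith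
  obtain ⟨j, hj, hj'⟩ := hE
  have he0 : 0 < e := by
    rcases lt_or_eq_of_le heI.1 with h1 | h1
    · exact h1
    · exfalso
      rw [← h1, mul_zero, add_zero] at hj
      have h2 := org (fun i => by
        have h3 := heI.2 i
        rwa [← h1, mul_zero, add_zero] at h3) j
      linarith
  have hS : s = 0 ∨ ∃ j, α j + β j * s = 0 ∧ β j < 0 := by
    rcases lt_or_eq_of_le hsI.1 with h0 | h0
    · right
      by_contra hcon
      push Not at hcon
      obtain ⟨t, h1, h2, h3⟩ := d0a_down (α := α) (β := β) (t₀ := s) h0 fun i => by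
        rcases lt_or_eq_of_le (hsI.2 i) with h3 | h3
        · exact Or.inl h3
        · exact Or.inr ⟨h3.le, hcon i h3⟩
      have h4 := hlo t ⟨h1, h3⟩
      linarith
    · exact Or.inl h0.symm
  have hse : s ≤ e := hup s hsI
  have hse' : s < e := by
    rcases lt_or_eq_of_le hse with h1 | h1
    · exact h1
    · exfalso
      rcases hS with h2 | ⟨j', h2, h3⟩
      · linarith
      · rw [h1] at h2
        have h4 := (gen e he0 heI.2 j hj).2 j' h2
        rw [h4] at h3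
        linarith
  refine ⟨s, e, hsI.1, hse', fun t => ⟨fun ht => ⟨hlo t ht, hup t ht⟩, fun ht => ?_⟩,
    ⟨j, hj', fun i => ⟨fun hi => (gen e he0 heI.2 j hj).2 i hi, fun hi => hi ▸ hj⟩⟩, ?_⟩
  · refine ⟨hsI.1.trans ht.1, fun i => ?_⟩
    have h1 := hsI.2 i
    have h2 := heI.2 i
    rcases le_or_gt 0 (β i) with h3 | h3
    · have h4 : β i * t ≤ β i * e := mul_le_mul_of_nonneg_left ht.2 h3
      linarith
    · have h4 : β i * t ≤ β i * s := mul_le_mul_of_nonpos_left ht.1 h3.le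
      linarith
  · rcases lt_or_eq_of_le hsI.1 with h0 | h0
    · right
      rcases hS with h2 | ⟨j', h2, h3⟩
      · linarith
      · exact ⟨j', h3, fun i => ⟨fun hi => (gen s h0 hsI.2 j' h2).2 i hi, fun hi => hi ▸ h2⟩⟩
    · exact Or.inl h0.symm

end ALX
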