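import Pool.Agent.Lib.ALX.DDefs

/-! # ALX, chunk D0B (S/M): the cell on a ray, as affine conditions on the time -/

open Real MeasureTheory

namespace ALX

open H47A (E3 cross3 det3 pl)

variable {A : Type} [Fintype A] [DecidableEq A] {n : A → E3} {a0 : A} {q : E3}

/-- PROOF. `capi_le`, `capi_exists` (`dl n q y` is the minimum of `‖T' y - q‖`, `T' ∈ Img a`). -/
theorem cell_iff (hG : Gn n) (hq : At n q {a0}) {a : A} {T : E3 ≃ᵃⁱ[ℝ] E3} (hT : T ∈ Img n a0 q a) (y : E3) :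
    y ∈ Cl n q a T ↔ y ∈ Fc n a ∧ ∀ T' ∈ Img n a0 q a, ‖T y - q‖ ≤ ‖T' y - q‖ := by
  constructor
  · rintro ⟨h1, h2⟩
    refine ⟨h1, fun T' hT' => ?_⟩
    rw [← h2]
    exact capi_le hG hq hT' h1
  · rintro ⟨h1, h2⟩
    refine ⟨h1, le_antisymm (capi_le hG hq hT h1) ?_⟩
    obtain ⟨T', hT', h3⟩ := capi_exists (a := a) hG hq h1
    rw [h3.2]
    exact h2 T' hT'

/-- The distance to `q` of the unfolded point. PROOF. `T` is an isometry: `‖T y - q‖ = dist (T y) (T (T.symm q))`. -/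
theorem norm_unf (T : E3 ≃ᵃⁱ[ℝ] E3) (y : E3) : ‖T y - q‖ = ‖y - T.symm q‖ := by
  rw [← dist_eq_norm, ← dist_eq_norm, ← T.dist_map y (T.symm q), AffineIsometryEquiv.apply_symm_apply]

/-- PROOF. `T.symm (q + t • u) = T.symm q + t • T.symm.linear u` (`AffineIsometryEquiv.map_vadd` or `AffineMap.map_vadd`). -/
theorem ray_line (T : E3 ≃ᵃⁱ[ℝ] E3) (u : E3) (t : ℝ) :
    T.symm (q + t • u) = T.symm q + t • T.symm.linearIsometryEquiv u := by
  have h := T.symm.map_vadd q (t • u)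
  rw [vadd_eq_add, vadd_eq_add, map_smul] at h
  rw [add_comm q, h, add_comm]

/-- The ray is in the plane of the facet. PROOF. `capi_plane` with `capi_GG`; `lf n a0 (q + t • u) = 1`. -/
theorem ray_plane (hG : Gn n) (hq : At n q {a0}) {a : A} {T : E3 ≃ᵃⁱ[ℝ] E3} (hT : T ∈ Img n a0 q a) {u : E3} (hu : Dir n a0 u)
    (t : ℝ) : lf n a (T.symm (q + t • u)) = 1 := by
  rw [capi_plane hG (capi_GG hG hq a hT), AffineIsometryEquiv.apply_symm_apply]
  have h1 : lf n a0 q = 1 := by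
    have : a0 ∈ Ac n q := by rw [hq.2]; exact Finset.mem_singleton_self a0
    simpa [Ac] using this
  have h2 := hu.2
  unfold lf at h1 ⊢
  rw [inner_add_right, inner_smul_right, h1, h2, mul_zero, add_zero]

/-- The direction of the ray in the plane of the facet. PROOF. `capi_dir`. -/
theorem ray_dir (hG : Gn n) (hq : At n q {a0}) {a : A} {T : E3 ≃ᵃⁱ[ℝ] E3} (hT : T ∈ Img n a0 q a) {u : E3} (hu : Dir n a0 u) :
    Dir n a (T.symm.linearIsometryEquiv u) := by
  rw [capi_dir hG (capi_GG hG hq a hT)]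
  have : T.linearIsometryEquiv (T.symm.linearIsometryEquiv u) = u := by
    have h := T.linearIsometryEquiv.apply_symm_apply u
    exact h
  rw [this]
  exact hu

theorem d0b_sq (hG : Gn n) (hq : At n q {a0}) {a : A} {T T' : E3 ≃ᵃⁱ[ℝ] E3} (hT : T ∈ Img n a0 q a) {u : E3} (hu : Dir n a0 u)
    {t : ℝ} (ht : 0 ≤ t) :
    ‖T (T.symm (q + t • u)) - q‖ = t ∧
    ‖T' (T.symm (q + t • u)) - q‖ ^ 2 = t ^ 2 -
      (-‖T.symm q - T'.symm q‖ ^ 2 + (2 * inner ℝ (T.symm.linearIsometryEquiv u) (T'.symm q - T.symm q)) * t) := by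
  constructor
  · rw [AffineIsometryEquiv.apply_symm_apply, add_sub_cancel_left, norm_smul, hu.1, mul_one, Real.norm_of_nonneg ht]
  · rw [norm_unf, ray_line]
    have h1 : ‖T.symm.linearIsometryEquiv u‖ = 1 := (ray_dir hG hq hT hu).1
    have h2 : T.symm q + t • T.symm.linearIsometryEquiv u - T'.symm q =
        (T.symm q - T'.symm q) + t • T.symm.linearIsometryEquiv u := by abel
    rw [h2, norm_add_sq_real, norm_smul, h1, mul_one, inner_smul_right, Real.norm_eq_abs, sq_abs]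
    have h3 : inner ℝ (T.symm.linearIsometryEquiv u) (T'.symm q - T.symm q) =
        -(inner ℝ (T.symm q - T'.symm q) (T.symm.linearIsometryEquiv u) : ℝ) := by
      rw [real_inner_comm, ← inner_neg_left, neg_sub]
    rw [h3]
    ring

/-- PROOF. `cell_iff`, `ray_plane` (so `x ∈ Fc n a` iff `lf n b x ≤ 1` for all `b ≠ a`), `ray_line`. `‖T x - q‖ = t`; for `T'`:
`‖T' x - q‖² = ‖x - p'‖² = ‖(p - p') + t w‖² = ‖p - p'‖² + 2 t ⟪w, p - p'⟫ + t²` with `p = T.symm q`, `p' = T'.symm q`, `w = T.symm.linear u`, `‖w‖ = 1`. -/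
theorem cell_ray (hG : Gn n) (hq : At n q {a0}) {a : A} {T : E3 ≃ᵃⁱ[ℝ] E3} (hT : T ∈ Img n a0 q a) {u : E3} (hu : Dir n a0 u)
    {t : ℝ} (ht : 0 ≤ t) :
    T.symm (q + t • u) ∈ Cl n q a T ↔
      (∀ b, b ≠ a → (lf n b (T.symm q) - 1) + lf n b (T.symm.linearIsometryEquiv u) * t ≤ 0) ∧
      ∀ T' ∈ Img n a0 q a, T' ≠ T →
        -‖T.symm q - T'.symm q‖ ^ 2 + (2 * inner ℝ (T.symm.linearIsometryEquiv u) (T'.symm q - T.symm q)) * t ≤ 0 := by
  rw [cell_iff hG hq hT]
  have hF : T.symm (q + t • u) ∈ Fc n a ↔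
      ∀ b, b ≠ a → (lf n b (T.symm q) - 1) + lf n b (T.symm.linearIsometryEquiv u) * t ≤ 0 := by
    have hb : ∀ b, lf n b (T.symm (q + t • u)) = lf n b (T.symm q) + lf n b (T.symm.linearIsometryEquiv u) * t := by
      intro b
      rw [ray_line]
      unfold lf
      rw [inner_add_right, inner_smul_right, mul_comm]
    constructor
    · intro h b _
      have := h.1 b
      rw [hb] at this
      linarith
    · intro h
      refine ⟨fun b => ?_, ray_plane hG hq hT hu t⟩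
      by_cases hba : b = a
      · subst hba
        exact (ray_plane hG hq hT hu t).le
      · rw [hb]
        have := h b hba
        linarith
  rw [hF]
  refine and_congr_right fun _ => ?_
  constructor
  · intro h T' hT' _
    have h1 := h T' hT'
    obtain ⟨h2, h3⟩ := d0b_sq (T' := T') hG hq hT hu ht
    rw [h2] at h1
    have h4 : t ^ 2 ≤ ‖T' (T.symm (q + t • u)) - q‖ ^ 2 := by gcongr
    rw [h3] at h4
    linarith
  · intro h T' hT'
    by_cases hne : T' = T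
    · rw [hne]
    · have h1 := h T' hT' hne
      obtain ⟨h2, h3⟩ := d0b_sq (T' := T') hG hq hT hu ht
      rw [h2]
      have h4 : t ^ 2 ≤ ‖T' (T.symm (q + t • u)) - q‖ ^ 2 := by rw [h3]; linarith
      exact le_of_sq_le_sq h4 (norm_nonneg _)

/-- PROOF. `ray_line`, linearity of `lf n b`. -/
theorem tight_edge {T : E3 ≃ᵃⁱ[ℝ] E3} {u : E3} (b : A) (t : ℝ) :
    lf n b (T.symm (q + t • u)) = 1 ↔ (lf n b (T.symm q) - 1) + lf n b (T.symm.linearIsometryEquiv u) * t = 0 := by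
  rw [ray_line]
  unfold lf
  rw [inner_add_right, inner_smul_right, mul_comm t]
  constructor <;> intro h <;> linarith

/-- PROOF. If `x ∈ Cl a T` then `x ∈ Cl a T'` iff `‖T' x - q‖ = ‖T x - q‖` (both are `dl n q x`); the computation of `cell_ray`. -/
theorem tight_ridge (hG : Gn n) (hq : At n q {a0}) {a : A} {T T' : E3 ≃ᵃⁱ[ℝ] E3} (hT : T ∈ Img n a0 q a)
    (hT' : T' ∈ Img n a0 q a) {u : E3} (hu : Dir n a0 u) {t : ℝ} (ht : 0 ≤ t) (hx : T.symm (q + t • u) ∈ Cl n q a T) :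
    T.symm (q + t • u) ∈ Cl n q a T' ↔
      -‖T.symm q - T'.symm q‖ ^ 2 + (2 * inner ℝ (T.symm.linearIsometryEquiv u) (T'.symm q - T.symm q)) * t = 0 := by
  obtain ⟨h2, h3⟩ := d0b_sq (T' := T') hG hq hT hu ht
  have hd : dl n q (T.symm (q + t • u)) = t := hx.2.trans h2
  constructor
  · intro h
    have h4 := h.2
    rw [hd] at h4
    rw [← h4] at h3
    linarith
  · intro h
    refine ⟨hx.1, ?_⟩
    rw [h, sub_zero] at h3
    rw [hd]
    exact ((sq_eq_sq₀ (norm_nonneg _) ht).1 h3).symm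

/-- The distance at a point of the cell on the ray. PROOF. Definition of `Cl`. -/
theorem dl_ray {a : A} {T : E3 ≃ᵃⁱ[ℝ] E3} {u : E3} (hu : Dir n a0 u) {t : ℝ} (ht : 0 ≤ t)
    (hx : T.symm (q + t • u) ∈ Cl n q a T) : dl n q (T.symm (q + t • u)) = t := by
  rw [hx.2, AffineIsometryEquiv.apply_symm_apply, add_sub_cancel_left, norm_smul, hu.1, mul_one, Real.norm_of_nonneg ht]

end ALX
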