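import Pool.Agent.Lib.ALX.DDefs

/-! # ALX: kinds of the end points of the intervals (definitions) -/

open Real MeasureTheory

namespace ALX

open H47A (E3 cross3 det3 pl)

variable {A : Type} [Fintype A] [DecidableEq A] (n : A → E3)

/-- At the time `t` the ray in the cell of `T` is at a point of the ridge to the cell of `T'`. -/
structure RX (a0 : A) (q u : E3) (a : A) (T T' : E3 ≃ᵃⁱ[ℝ] E3) (t : ℝ) : Prop where
  mem : T' ∈ Img n a0 q a
  ne : T' ≠ T
  at1 : At n (T.symm (q + t • u)) {a}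
  cl : T.symm (q + t • u) ∈ Cl n q a T
  cl' : T.symm (q + t • u) ∈ Cl n q a T'
  two : ∀ T'' ∈ Img n a0 q a, T.symm (q + t • u) ∈ Cl n q a T'' → T'' = T ∨ T'' = T'

/-- At the time `t` the ray in the cell of `T` is at a point of the edge to the facet `b`. -/
structure EX (a0 : A) (q u : E3) (a : A) (T : E3 ≃ᵃⁱ[ℝ] E3) (b : A) (t : ℝ) : Prop where
  ne : b ≠ a
  at2 : At n (T.symm (q + t • u)) {a, b}
  cl : T.symm (q + t • u) ∈ Cl n q a T
  uniq : ∀ T'' ∈ Img n a0 q a, T.symm (q + t • u) ∈ Cl n q a T'' → T'' = T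

/-- The interval of a state: `[s, e]` with an exit at a ridge or at an edge, and an entry at `0` or at an edge. -/
structure Sg (a0 : A) (q u : E3) (a : A) (T : E3 ≃ᵃⁱ[ℝ] E3) (s e : ℝ) : Prop where
  nonneg : 0 ≤ s
  lt : s < e
  eq : IS n q u a T = Set.Icc s e
  exit : (∃ T', RX n a0 q u a T T' e) ∨ ∃ b, EX n a0 q u a T b e ∧ 0 < lf n b (T.symm.linearIsometryEquiv u)
  entry : s = 0 ∨ ∃ b, EX n a0 q u a T b s ∧ lf n b (T.symm.linearIsometryEquiv u) < 0

end ALX
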