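import Pool.Agent.Lib.ALX.D0A
import Pool.Agent.Lib.ALX.D0B
import Pool.Agent.Lib.ALX.D1Defs

/-! # ALX, chunk D1 (M): the intervals of a generic ray in the cells -/

open Real MeasureTheory

namespace ALX

open H47A (E3 cross3 det3 pl)

variable {A : Type} [Fintype A] [DecidableEq A] {n : A → E3} {a0 : A} {q : E3}

theorem d1_bd {a : A} {x : E3} (h : x ∈ Fc n a) : x ∈ bd n := ⟨h.1, a, h.2⟩

theorem d1_loc {a0 : A} {q : E3} (hq : At n q {a0}) : q ∈ Fc n a0 ∧ ∀ b, b ≠ a0 → lf n b q < 1 := by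
  have h1 : ∀ b, lf n b q = 1 ↔ b = a0 := by
    intro b
    have : b ∈ Ac n q ↔ b ∈ ({a0} : Finset A) := by rw [hq.2]
    simpa [Ac] using this
  refine ⟨⟨hq.1, (h1 a0).2 rfl⟩, fun b hb => lt_of_le_of_ne (hq.1 b) fun h => hb ((h1 b).1 h)⟩

/-- The ray starts only in the facet `a0`. PROOF. `x = T.symm q ∈ Cl a T`: `dl n q x = ‖T x - q‖ = 0`, so `x = q` (`capi_zero`, `x ∈ Fc n a ⊆ bd n`), `lf n a q = 1` and
`At n q {a0}` give `a = a0`. `T` and `refl` are in `GG n a0 a0` (`capi_GG`, `capi_id`) and `T.symm q = q = refl.symm q`, so `T = refl` by `hg.ne`. -/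
theorem zero_entry (hG : Gn n) (hg : Gen n a0 q) {a : A} {T : E3 ≃ᵃⁱ[ℝ] E3} (hT : T ∈ Img n a0 q a)
    (h : T.symm q ∈ Cl n q a T) : a = a0 ∧ T = AffineIsometryEquiv.refl ℝ E3 := by
  have hq := hg.loc
  obtain ⟨hq1, hq2⟩ := d1_loc hq
  have h1 : dl n q (T.symm q) = 0 := by
    rw [h.2, AffineIsometryEquiv.apply_symm_apply, sub_self, norm_zero]
  have h2 : q = T.symm q := (capi_zero hG (d1_bd hq1) (d1_bd h.1)).1 h1
  have ha : a = a0 := by
    by_contra hne
    have h3 := hq2 a hne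
    have h4 : lf n a q = 1 := by
      have := h.1.2
      rwa [← h2] at this
    linarith
  subst ha
  refine ⟨rfl, ?_⟩
  by_contra hne
  refine hg.ne a T (capi_GG hG hq a hT) _ (capi_GG hG hq a (capi_id hG hq)) hne ?_
  rw [← h2]
  rfl

/-- PROOF. `‖q - q‖ = 0 = dl n q q` (`capi_zero`). -/
theorem zero_mem (hG : Gn n) (hg : Gen n a0 q) :
    (AffineIsometryEquiv.refl ℝ E3).symm q ∈ Cl n q a0 (AffineIsometryEquiv.refl ℝ E3) := by
  obtain ⟨hq1, hq2⟩ := d1_loc hg.loc
  refine ⟨hq1, ?_⟩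
  have h1 : dl n q q = 0 := (capi_zero hG (d1_bd hq1) (d1_bd hq1)).2 rfl
  show dl n q q = ‖q - q‖
  rw [h1, sub_self, norm_zero]

/-- A point of a ridge is the last point of the ray in the cell.
PROOF. `tight_ridge`: `-‖p - p'‖² + β t = 0` and `p ≠ p'` (`hg.ne`), so `β > 0`, `t > 0`, and for `t' > t` the condition of `cell_ray` fails. `At`: if `lf n b x = 1` for some
`b ≠ a` then `T' = T` by `hu.pt1`. `two`: `hu.pt0`. -/
theorem ridge_exit (hG : Gn n) (hg : Gen n a0 q) {u : E3} (hu : GD n a0 q u) {a : A} {T T' : E3 ≃ᵃⁱ[ℝ] E3} (hT : T ∈ Img n a0 q a)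
    (hT' : T' ∈ Img n a0 q a) (hne : T' ≠ T) {t : ℝ} (ht : 0 ≤ t) (h : T.symm (q + t • u) ∈ Cl n q a T)
    (h' : T.symm (q + t • u) ∈ Cl n q a T') :
    0 < t ∧ IsGreatest (IS n q u a T) t ∧ RX n a0 q u a T T' t := by
  have hq := hg.loc
  have h1 := (tight_ridge hG hq hT hT' hu.dir ht h).1 h'
  have hp : T.symm q ≠ T'.symm q :=
    fun hh => hg.ne a T' (capi_GG hG hq a hT') T (capi_GG hG hq a hT) hne hh.symm
  have hp2 : 0 < ‖T.symm q - T'.symm q‖ ^ 2 := by
    have : 0 < ‖T.symm q - T'.symm q‖ := norm_pos_iff.2 (sub_ne_zero.2 hp)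
    positivity
  set β : ℝ := 2 * inner ℝ (T.symm.linearIsometryEquiv u) (T'.symm q - T.symm q) with hβ
  have hβt : 0 < β * t := by linarith
  have htpos : 0 < t := by
    rcases ht.lt_or_eq with h2 | h2
    · exact h2
    · rw [← h2, mul_zero] at hβt
      exact absurd hβt (lt_irrefl _)
  have hβpos : 0 < β := by
    by_contra hh
    have : β * t ≤ 0 := mul_nonpos_of_nonpos_of_nonneg (not_lt.1 hh) ht
    linarith
  refine ⟨htpos, ⟨⟨ht, h⟩, ?_⟩, ?_⟩
  · rintro t' ⟨ht', hx'⟩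
    by_contra hlt
    have hlt := not_le.1 hlt
    have h3 := ((cell_ray hG hq hT hu.dir ht').1 hx').2 T' hT' hne
    have h4 : β * t < β * t' := mul_lt_mul_of_pos_left hlt hβpos
    rw [← hβ] at h3
    linarith
  · refine ⟨hT', hne, ⟨h.1.1, ?_⟩, h, h', fun T'' hT'' h'' => ?_⟩
    · ext b
      simp only [Ac, Finset.mem_filter, Finset.mem_univ, true_and, Finset.mem_singleton]
      constructor
      · intro hb
        by_contra hba
        exact hne (hu.pt1 a T hT t htpos h b hba hb T' hT' h')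
      · rintro rfl
        exact h.1.2
    · by_cases h5 : T'' = T
      · exact Or.inl h5
      · exact Or.inr (hu.pt0 a T hT t htpos h T'' hT'' T' hT' h5 hne h'' h')

/-- A point of an edge. PROOF. `t ≠ 0` by `zero_entry` (`At n q {a0}`). `At`: the other tight conditions are excluded by `hu.pt2`; `uniq`: `hu.pt1`. `lf n b w ≠ 0`: otherwise
`lf n b (T.symm q) = 1` (`tight_edge`), `hu.line`. The maximum, minimum: for `t' > t` (`t' < t`) the condition of `b` in `cell_ray` fails. -/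
theorem edge_point (hG : Gn n) (hg : Gen n a0 q) {u : E3} (hu : GD n a0 q u) {a b : A} {T : E3 ≃ᵃⁱ[ℝ] E3} (hT : T ∈ Img n a0 q a)
    (hab : b ≠ a) {t : ℝ} (ht : 0 ≤ t) (h : T.symm (q + t • u) ∈ Cl n q a T) (hb : lf n b (T.symm (q + t • u)) = 1) :
    0 < t ∧ EX n a0 q u a T b t ∧
      ((0 < lf n b (T.symm.linearIsometryEquiv u) ∧ IsGreatest (IS n q u a T) t) ∨
        (lf n b (T.symm.linearIsometryEquiv u) < 0 ∧ IsLeast (IS n q u a T) t)) := by
  have hq := hg.loc
  have htpos : 0 < t := by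
    rcases ht.lt_or_eq with h2 | h2
    · exact h2
    · exfalso
      rw [← h2, zero_smul, add_zero] at h hb
      obtain ⟨h3, h4⟩ := zero_entry hG hg hT h
      subst h3
      subst h4
      have h5 := (d1_loc hq).2 b hab
      have h6 : lf n b q = 1 := hb
      linarith
  have htight := (tight_edge (n := n) (q := q) (T := T) (u := u) b t).1 hb
  have hne : lf n b (T.symm.linearIsometryEquiv u) ≠ 0 := by
    intro h0
    refine hu.line a T hT b hab ⟨?_, h0⟩
    rw [h0, zero_mul, add_zero] at htight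
    linarith
  refine ⟨htpos, ⟨hab, ⟨h.1.1, ?_⟩, h, fun T'' hT'' h'' => hu.pt1 a T hT t htpos h b hab hb T'' hT'' h''⟩, ?_⟩
  · ext c
    simp only [Ac, Finset.mem_filter, Finset.mem_univ, true_and, Finset.mem_insert, Finset.mem_singleton]
    constructor
    · intro hc
      by_cases hca : c = a
      · exact Or.inl hca
      · exact Or.inr (hu.pt2 a T hT t htpos h c b hca hab hc hb)
    · rintro (rfl | rfl)
      · exact h.1.2
      · exact hb
  · rcases lt_or_gt_of_ne hne with hlt | hlt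
    · refine Or.inr ⟨hlt, ⟨ht, h⟩, ?_⟩
      rintro t' ⟨ht', hx'⟩
      by_contra hh
      have hh := not_le.1 hh
      have h3 := ((cell_ray hG hq hT hu.dir ht').1 hx').1 b hab
      have h4 : lf n b (T.symm.linearIsometryEquiv u) * t < lf n b (T.symm.linearIsometryEquiv u) * t' :=
        mul_lt_mul_of_neg_left hh hlt
      linarith
    · refine Or.inl ⟨hlt, ⟨ht, h⟩, ?_⟩
      rintro t' ⟨ht', hx'⟩
      by_contra hh
      have hh := not_le.1 hh
      have h3 := ((cell_ray hG hq hT hu.dir ht').1 hx').1 b hab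
      have h4 : lf n b (T.symm.linearIsometryEquiv u) * t < lf n b (T.symm.linearIsometryEquiv u) * t' :=
        mul_lt_mul_of_pos_left hh hlt
      linarith

/-- PROOF. `ray_poly` with `ι = {b // b ≠ a} ⊕ {T' // T' ∈ Img n a0 q a ∧ T' ≠ T}` (finite: `capi_finite`), the conditions of `cell_ray`; `hbd`: `x(t) ∈ Fc n a ⊆ bd n` is bounded
(`capi_bounded`) and `‖x(t)‖ ≥ t - ‖T.symm q‖`; `gen`: a tight condition at `t > 0`: for `b`: `edge_point`; for `T'`: `ridge_exit`; `org`: `x(0) = T.symm q ∈ Cl a T`, so `a = a0`,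
`T = refl` by `zero_entry`, then `lf n b q < 1` for `b ≠ a0` (`hg.loc`), and `-‖p - p'‖² < 0` by `hg.ne`. The tight condition at the end `e`: `T'` gives `RX`, `b` gives `EX`
with positive slope; at `s`: slope negative, so it is a `b` (the slope for `T'` is positive because `-‖p - p'‖² < 0`). -/
theorem seg (hG : Gn n) (hg : Gen n a0 q) {u : E3} (hu : GD n a0 q u) {a : A} {T : E3 ≃ᵃⁱ[ℝ] E3} (hT : T ∈ Img n a0 q a)
    (hne : (IS n q u a T).Nonempty) : ∃ s e, Sg n a0 q u a T s e := by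
  have hq := hg.loc
  let ι := {b : A // b ≠ a} ⊕ {T' : E3 ≃ᵃⁱ[ℝ] E3 // T' ∈ Img n a0 q a ∧ T' ≠ T}
  have hfin : Finite {T' : E3 ≃ᵃⁱ[ℝ] E3 // T' ∈ Img n a0 q a ∧ T' ≠ T} :=
    Set.Finite.subset (capi_finite hG hq a) fun T' h => h.1
  have hfin2 : Finite ι := inferInstance
  let α : ι → ℝ := Sum.elim (fun b => lf n b.1 (T.symm q) - 1) fun T' => -‖T.symm q - T'.1.symm q‖ ^ 2
  let β : ι → ℝ := Sum.elim (fun b => lf n b.1 (T.symm.linearIsometryEquiv u))
    fun T' => 2 * inner ℝ (T.symm.linearIsometryEquiv u) (T'.1.symm q - T.symm q)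
  have hcell : ∀ t, 0 ≤ t → ((∀ i, α i + β i * t ≤ 0) ↔ T.symm (q + t • u) ∈ Cl n q a T) := by
    intro t ht
    rw [cell_ray hG hq hT hu.dir ht]
    constructor
    · intro h
      exact ⟨fun b hb => h (Sum.inl ⟨b, hb⟩), fun T' hT' hne' => h (Sum.inr ⟨T', hT', hne'⟩)⟩
    · rintro ⟨h1, h2⟩ (⟨b, hb⟩ | ⟨T', hT', hne'⟩)
      · exact h1 b hb
      · exact h2 T' hT' hne'
  have hpp : ∀ T' : {T' : E3 ≃ᵃⁱ[ℝ] E3 // T' ∈ Img n a0 q a ∧ T' ≠ T}, 0 < ‖T.symm q - T'.1.symm q‖ ^ 2 := by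
    rintro ⟨T', hT', hne'⟩
    have hp : T.symm q ≠ T'.symm q :=
      fun hh => hg.ne a T' (capi_GG hG hq a hT') T (capi_GG hG hq a hT) hne' hh.symm
    have : 0 < ‖T.symm q - T'.symm q‖ := norm_pos_iff.2 (sub_ne_zero.2 hp)
    show 0 < ‖T.symm q - T'.symm q‖ ^ 2
    positivity
  obtain ⟨M, hM⟩ := (capi_bounded hG).exists_norm_le
  obtain ⟨s, e, hs, hse, hI, ⟨j, hj, hj'⟩, hst⟩ := ray_poly (α := α) (β := β) (B := M + ‖T.symm q‖)
    (by
      obtain ⟨t, ht, hx⟩ := hne
      exact ⟨t, ht, (hcell t ht).2 hx⟩)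
    (by
      intro t ht h
      have h1 := (hcell t ht).1 h
      have h2 := hM _ (d1_bd h1.1)
      rw [ray_line] at h2
      have h3 : ‖t • T.symm.linearIsometryEquiv u‖ = t := by
        rw [norm_smul, LinearIsometryEquiv.norm_map, hu.dir.1, mul_one, Real.norm_of_nonneg ht]
      have h4 : ‖t • T.symm.linearIsometryEquiv u‖ ≤ ‖T.symm q + t • T.symm.linearIsometryEquiv u‖ + ‖T.symm q‖ := by
        have := norm_sub_le (T.symm q + t • T.symm.linearIsometryEquiv u) (T.symm q)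
        rwa [add_sub_cancel_left] at this
      linarith)
    (by
      intro t ht h i hi
      have hx := (hcell t ht.le).1 h
      rcases i with ⟨b, hb⟩ | ⟨T', hT', hne'⟩
      · have hlf : lf n b (T.symm (q + t • u)) = 1 := (tight_edge b t).2 hi
        obtain ⟨_, hE, hsl⟩ := edge_point hG hg hu hT hb ht.le hx hlf
        refine ⟨?_, ?_⟩
        · rcases hsl with h1 | h1
          · exact h1.1.ne'
          · exact h1.1.ne
        · rintro (⟨b', hb'⟩ | ⟨T'', hT'', hne''⟩) hj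
          · have hlf' : lf n b' (T.symm (q + t • u)) = 1 := (tight_edge b' t).2 hj
            have := hu.pt2 a T hT t ht hx b' b hb' hb hlf' hlf
            subst this
            rfl
          · exact absurd (hE.uniq T'' hT'' ((tight_ridge hG hq hT hT'' hu.dir ht.le hx).2 hj)) hne''
      · have hx' := (tight_ridge hG hq hT hT' hu.dir ht.le hx).2 hi
        obtain ⟨_, _, hR⟩ := ridge_exit hG hg hu hT hT' hne' ht.le hx hx'
        refine ⟨?_, ?_⟩
        · intro h0
          have h1 := hpp ⟨T', hT', hne'⟩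
          have h2 : -‖T.symm q - T'.symm q‖ ^ 2 + β (Sum.inr ⟨T', hT', hne'⟩) * t = 0 := hi
          rw [h0, zero_mul, add_zero] at h2
          have h3 : 0 < ‖T.symm q - T'.symm q‖ ^ 2 := h1
          linarith
        · rintro (⟨b', hb'⟩ | ⟨T'', hT'', hne''⟩) hj
          · have hlf' : lf n b' (T.symm (q + t • u)) = 1 := (tight_edge b' t).2 hj
            exact absurd (hu.pt1 a T hT t ht hx b' hb' hlf' T' hT' hx') hne'
          · have hx'' := (tight_ridge hG hq hT hT'' hu.dir ht.le hx).2 hj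
            rcases hR.two T'' hT'' hx'' with h5 | h5
            · exact absurd h5 hne''
            · subst h5
              rfl)
    (by
      intro h i
      have h1 : ∀ i, α i + β i * 0 ≤ 0 := fun i => by rw [mul_zero, add_zero]; exact h i
      have hx := (hcell 0 le_rfl).1 h1
      rw [zero_smul, add_zero] at hx
      obtain ⟨h2, h3⟩ := zero_entry hG hg hT hx
      rcases i with ⟨b, hb⟩ | T'
      · subst h2
        have h4 := (d1_loc hq).2 b hb
        have h5 : T.symm q = q := by rw [h3]; rfl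
        show lf n b (T.symm q) - 1 < 0
        rw [h5]
        linarith
      · have := hpp T'
        show -‖T.symm q - T'.1.symm q‖ ^ 2 < 0
        linarith)
  have hIS : ∀ t, t ∈ IS n q u a T ↔ s ≤ t ∧ t ≤ e := by
    intro t
    rw [← hI t]
    constructor
    · rintro ⟨h1, h2⟩
      exact ⟨h1, (hcell t h1).2 h2⟩
    · rintro ⟨h1, h2⟩
      exact ⟨h1, (hcell t h1).1 h2⟩
  have hemem : e ∈ IS n q u a T := (hIS e).2 ⟨hse.le, le_rfl⟩
  have hsmem : s ∈ IS n q u a T := (hIS s).2 ⟨le_rfl, hse.le⟩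
  refine ⟨s, e, hs, hse, Set.ext hIS, ?_, ?_⟩
  · have hjt : α j + β j * e = 0 := (hj' j).2 rfl
    rcases j with ⟨b, hb⟩ | ⟨T', hT', hne'⟩
    · refine Or.inr ⟨b, ?_, hj⟩
      exact (edge_point hG hg hu hT hb hemem.1 hemem.2 ((tight_edge b e).2 hjt)).2.1
    · refine Or.inl ⟨T', ?_⟩
      exact (ridge_exit hG hg hu hT hT' hne' hemem.1 hemem.2
        ((tight_ridge hG hq hT hT' hu.dir hemem.1 hemem.2).2 hjt)).2.2
  · rcases hst with h0 | ⟨i, hi, hi'⟩
    · exact Or.inl h0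
    · right
      have hit : α i + β i * s = 0 := (hi' i).2 rfl
      rcases i with ⟨b, hb⟩ | ⟨T', hT', hne'⟩
      · exact ⟨b, (edge_point hG hg hu hT hb hsmem.1 hsmem.2 ((tight_edge b s).2 hit)).2.1, hi⟩
      · exfalso
        have h1 := hpp ⟨T', hT', hne'⟩
        have h2 : -‖T.symm q - T'.symm q‖ ^ 2 + β (Sum.inr ⟨T', hT', hne'⟩) * s = 0 := hit
        have h3 : β (Sum.inr ⟨T', hT', hne'⟩) * s ≤ 0 := mul_nonpos_of_nonpos_of_nonneg hi.le hs
        have h4 : 0 < ‖T.symm q - T'.symm q‖ ^ 2 := h1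
        linarith

end ALX
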