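import Pool.Agent.Lib.ALX.D1
import Pool.Agent.Lib.ALX.P04
import Pool.Agent.Lib.ALX.P05

/-! # ALX, chunk D3 (M): crossing an edge -/

open Real MeasureTheory

namespace ALX

open H47A (E3 cross3 det3 pl)

variable {A : Type} [Fintype A] [DecidableEq A] {n : A → E3} {a0 : A} {q : E3}

/-- The points of an edge near a given one. PROOF. `d = cross3 (n a) (n b) ≠ 0` (`hG.three` with a third facet; if there is no third facet, `Pt n` contains the line
`x + ℝ d` or, if `d = 0`, is not bounded: `hG.bdd`); `lf n a`, `lf n b` are constant on `x + ℝ d`, the finitely many other conditions are strict at `x`, so also near `x`. -/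
theorem edge_nbh (hG : Gn n) {a b : A} (hab : a ≠ b) {x : E3} (hx : At n x {a, b}) :
    ∃ d : E3, d ≠ 0 ∧ ∃ ε : ℝ, 0 < ε ∧ ∀ s : ℝ, |s| < ε → At n (x + s • d) {a, b} := by
  refine ⟨cross3 (n a) (n b), hG.cross hab, ?_⟩
  have h1 := near_two hab hx
  have hc : Filter.Tendsto (fun s : ℝ => x + s • cross3 (n a) (n b)) (nhds 0) (nhds x) := by
    have : Continuous (fun s : ℝ => x + s • cross3 (n a) (n b)) := by fun_prop
    have h2 := this.tendsto 0
    rwa [zero_smul, add_zero] at h2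
  obtain ⟨ε, hε, h3⟩ := Metric.eventually_nhds_iff.1 (hc.eventually h1)
  refine ⟨ε, hε, fun s hs => (h3 (by rwa [Real.dist_eq, sub_zero])).1 ?_ ?_⟩
  · rw [lf_add, lf_smul]
    have h4 : lf n a (cross3 (n a) (n b)) = 0 := by
      unfold lf
      rw [p05_det, (H47A.det3_self (n a) (n b)).1]
    rw [h4, hx.two.1.2, mul_zero, add_zero]
  · rw [lf_add, lf_smul]
    have h4 : lf n b (cross3 (n a) (n b)) = 0 := by
      unfold lf
      rw [p05_det, (H47A.det3_self (n a) (n b)).2.1]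
    rw [h4, hx.two.2.2, mul_zero, add_zero]

theorem d3_lim (hG : Gn n) (hq : q ∈ bd n) {y : ℕ → E3} {x : E3} (hy : ∀ k, y k ∈ bd n) (hyx : Filter.Tendsto y Filter.atTop (nhds x))
    (hx : x ∈ bd n) (T : E3 ≃ᵃⁱ[ℝ] E3) (h : ∃ᶠ k in Filter.atTop, dl n q (y k) = ‖T (y k) - q‖) : dl n q x = ‖T x - q‖ := by
  have h1 : Filter.Tendsto (fun k => dl n q (y k)) Filter.atTop (nhds (dl n q x)) :=
    (capi_cont hG hq x hx).tendsto.comp (tendsto_nhdsWithin_iff.2 ⟨hyx, Filter.Eventually.of_forall hy⟩)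
  have h2 : Filter.Tendsto (fun k => ‖T (y k) - q‖) Filter.atTop (nhds ‖T x - q‖) :=
    (((T.continuous.tendsto x).comp hyx).sub_const q).norm
  have h3 := h1.sub h2
  by_contra hne
  have h4 : dl n q x - ‖T x - q‖ ≠ 0 := sub_ne_zero.2 hne
  have h5 : ∀ᶠ k in Filter.atTop, dl n q (y k) - ‖T (y k) - q‖ ≠ 0 := h3.eventually_ne h4
  obtain ⟨k, hk1, hk2⟩ := (h.and_eventually h5).exists
  exact hk2 (sub_eq_zero.2 hk1)

/-- PROOF. `y k = x + (ε / (k + 2)) • d`, `k ∈ ℕ` (`edge_nbh`): different points of the edge with limit `x`. Only `T` is active at `x` in the facet `a`, `Img n a0 q a` is finite, the functions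
`‖T' y - q‖`, `dl n q y` are continuous (`capi_cont`), so for large `k` the active unfolding of `capi_exists` at `y k` in `a` is `T` (a `T'` which is active for
infinitely many `k` is active at `x`). Let `S k ∈ Img n a0 q b` be active at `y k` (`capi_exists`); some `S` occurs for infinitely many `k`: `‖S (y k) - q‖ = dl n q (y k) = ‖T (y k) - q‖ = ‖((rho n a b).trans T) (y k) - q‖`
(`capi_fix`). `capi_two` (two different `k`, both unfoldings are in `GG n a0 b`: `capi_GG`, `capi_ext`) gives `S = (rho n a b).trans T`. In the limit `x ∈ Cl n q b S` (or directly: `dl n q x = ‖T x - q‖`). -/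
theorem transfer (hG : Gn n) (hg : Gen n a0 q) {a b : A} (hab : a ≠ b) {T : E3 ≃ᵃⁱ[ℝ] E3} (hT : T ∈ Img n a0 q a) {x : E3}
    (hx : At n x {a, b}) (hxT : x ∈ Cl n q a T) (huniq : ∀ T' ∈ Img n a0 q a, x ∈ Cl n q a T' → T' = T) :
    (rho n a b).trans T ∈ Img n a0 q b ∧ x ∈ Cl n q b ((rho n a b).trans T) := by
  have hq := hg.loc
  have hqb : q ∈ bd n := d1_bd (d1_loc hq).1
  obtain ⟨d, hd, ε, hε, hnb⟩ := edge_nbh hG hab hx
  let y : ℕ → E3 := fun k => x + (ε / (k + 2)) • d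
  have hyA : ∀ k, At n (y k) {a, b} := by
    intro k
    refine hnb _ ?_
    have h1 : (0 : ℝ) < k + 2 := by positivity
    rw [abs_of_pos (div_pos hε h1), div_lt_iff₀ h1]
    nlinarith [Nat.cast_nonneg (α := ℝ) k]
  have hyx : Filter.Tendsto y Filter.atTop (nhds x) := by
    have h1 : Filter.Tendsto (fun k : ℕ => ε / ((k : ℝ) + 2)) Filter.atTop (nhds 0) :=
      Filter.Tendsto.const_div_atTop (Filter.tendsto_atTop_add_const_right _ _ tendsto_natCast_atTop_atTop) ε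
    have h2 := (h1.smul_const d).const_add x
    rwa [zero_smul, add_zero] at h2
  have hinj : ∀ k l, y k = y l → k = l := by
    intro k l hkl
    have h1 : (ε / ((k : ℝ) + 2)) • d = (ε / ((l : ℝ) + 2)) • d := add_left_cancel hkl
    have h2 : ε / ((k : ℝ) + 2) = ε / ((l : ℝ) + 2) := smul_left_injective ℝ hd h1
    have h3 : (0 : ℝ) < k + 2 := by positivity
    have h4 : (0 : ℝ) < l + 2 := by positivity
    rw [div_eq_div_iff h3.ne' h4.ne'] at h2
    have h5 : (k : ℝ) = l := by nlinarith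
    exact_mod_cast h5
  choose TT hTT hTT' using fun k => capi_exists (a := a) hG hq (hyA k).two.1
  choose SS hSS hSS' using fun k => capi_exists (a := b) hG hq (hyA k).two.2
  have hfa : Finite (Img n a0 q a) := capi_finite hG hq a
  have hfb : Finite (Img n a0 q b) := capi_finite hG hq b
  obtain ⟨⟨⟨T1, hT1⟩, ⟨S1, hS1⟩⟩, hinf⟩ := Finite.exists_infinite_fiber
    (fun k : ℕ => ((⟨TT k, hTT k⟩, ⟨SS k, hSS k⟩) : (Img n a0 q a) × (Img n a0 q b)))
  have hK : (((fun k : ℕ => ((⟨TT k, hTT k⟩, ⟨SS k, hSS k⟩) : (Img n a0 q a) × (Img n a0 q b))) ⁻¹'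
      {(⟨T1, hT1⟩, ⟨S1, hS1⟩)}) : Set ℕ).Infinite := Set.infinite_coe_iff.1 hinf
  have hKm : ∀ k ∈ ((fun k : ℕ => ((⟨TT k, hTT k⟩, ⟨SS k, hSS k⟩) : (Img n a0 q a) × (Img n a0 q b))) ⁻¹'
      {(⟨T1, hT1⟩, ⟨S1, hS1⟩)}), TT k = T1 ∧ SS k = S1 := by
    intro k hk
    have h1 : ((⟨TT k, hTT k⟩, ⟨SS k, hSS k⟩) : (Img n a0 q a) × (Img n a0 q b)) = (⟨T1, hT1⟩, ⟨S1, hS1⟩) := hk
    have h2 := congrArg (fun p => (p.1 : E3 ≃ᵃⁱ[ℝ] E3)) h1
    have h3 := congrArg (fun p => (p.2 : E3 ≃ᵃⁱ[ℝ] E3)) h1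
    exact ⟨h2, h3⟩
  have hfr := Nat.frequently_atTop_iff_infinite.2 hK
  have hybd : ∀ k, y k ∈ bd n := fun k => d1_bd (hyA k).two.1
  have hxbd : x ∈ bd n := d1_bd hxT.1
  have hT1x : dl n q x = ‖T1 x - q‖ := by
    refine d3_lim hG hqb hybd hyx hxbd T1 (hfr.mono fun k hk => ?_)
    rw [← (hKm k hk).1]
    exact (hTT' k).2
  have hTT1 : T1 = T := huniq T1 hT1 ⟨hxT.1, hT1x⟩
  have hfix : ∀ z, At n z {a, b} → (rho n a b).trans T z = T z := by
    intro z hz
    have := (capi_fix hG hab hz.two.1.2 hz.two.2.2).1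
    show T (rho n a b z) = T z
    rw [this]
  have hS1x : dl n q x = ‖S1 x - q‖ := by
    refine d3_lim hG hqb hybd hyx hxbd S1 (hfr.mono fun k hk => ?_)
    rw [← (hKm k hk).2]
    exact (hSS' k).2
  have hpt : ∀ k, TT k = T1 ∧ SS k = S1 → ‖S1 (y k) - q‖ = ‖(rho n a b).trans T (y k) - q‖ := by
    rintro k ⟨h1, h2⟩
    rw [hfix _ (hyA k), ← hTT1, ← h1, ← h2, ← (hSS' k).2, ← (hTT' k).2]
  obtain ⟨k, hk⟩ := hK.nonempty
  obtain ⟨l, hl, hkl⟩ := hK.exists_gt k
  have hS : S1 = (rho n a b).trans T := by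
    refine capi_two hG hg (b := b) (c := a) hab (capi_GG hG hq b hS1) (capi_ext hG hab hq hT) (x := y k) (y := y l)
      (fun h => ?_) (hyA k).two.2.2 (hyA k).two.1.2 (hyA l).two.2.2 (hyA l).two.1.2 (hpt k (hKm k hk)) (hpt l (hKm l hl))
    have := hinj k l h
    omega
  rw [← hS]
  exact ⟨hS1, hx.two.2, hS1x⟩

/-- PROOF. `transfer` (`AffineIsometryEquiv.symm_trans_apply`-like: `((rho n a b).trans T).symm y = (rho n a b).symm (T.symm y)`, and the hinge fixes `x`: `capi_fix`); `uniq`: `hu.pt1` for the state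
`(b, (rho n a b).trans T)` and the facet `a`; `t > 0` by `edge_point`. The signs: `capi_hinge` with `w = T.symm.linearIsometryEquiv u` (`lf n a w = 0`: `ray_dir`), the linear part of `((rho n a b).trans T).symm` is
the composition. -/
theorem transfer_ray (hG : Gn n) (hg : Gen n a0 q) {u : E3} (hu : GD n a0 q u) {a b : A} {T : E3 ≃ᵃⁱ[ℝ] E3} (hT : T ∈ Img n a0 q a)
    {t : ℝ} (ht : 0 ≤ t) (h : EX n a0 q u a T b t) :
    (rho n a b).trans T ∈ Img n a0 q b ∧
      ((rho n a b).trans T).symm (q + t • u) = T.symm (q + t • u) ∧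
      EX n a0 q u b ((rho n a b).trans T) a t ∧
      (0 < lf n b (T.symm.linearIsometryEquiv u) ↔ lf n a (((rho n a b).trans T).symm.linearIsometryEquiv u) < 0) ∧
      (lf n b (T.symm.linearIsometryEquiv u) < 0 ↔ 0 < lf n a (((rho n a b).trans T).symm.linearIsometryEquiv u)) := by
  have hq := hg.loc
  have hab : a ≠ b := h.ne.symm
  obtain ⟨h1, h2⟩ := transfer hG hg hab hT h.at2 h.cl h.uniq
  have hsy : ((rho n a b).trans T).symm (q + t • u) = T.symm (q + t • u) := by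
    have := (capi_fix hG hab h.at2.two.1.2 h.at2.two.2.2).2
    exact this
  have htpos := (edge_point hG hg hu hT h.ne ht h.cl h.at2.two.2.2).1
  have hw : lf n a (T.symm.linearIsometryEquiv u) = 0 := (ray_dir hG hq hT hu.dir).2
  obtain ⟨s1, s2, _⟩ := capi_hinge hG hab ⟨_, h.at2⟩ hw
  refine ⟨h1, hsy, ⟨hab, ?_, ?_, fun T'' hT'' h'' => ?_⟩, s1, s2⟩
  · rw [hsy, Finset.pair_comm]
    exact h.at2
  · rw [hsy]
    exact h2
  · refine hu.pt1 b _ h1 t htpos ?_ a hab ?_ T'' hT'' h''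
    · rw [hsy]
      exact h2
    · rw [hsy]
      exact h.at2.two.1.2

end ALX
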