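import Mathlib

/-! # ALX, chunk D5A (S/M): counting intervals -/

open Finset

namespace ALX

/-- Finitely many intervals `[a s, b s]`, `s ∈ S`; `Q` = the set of those which end at a ridge, the others end at an edge; `m` is a bijection from the intervals which end at an
edge onto the intervals which do not start at `0`, `a (m s) = b s`; exactly one interval starts at `0`. Then `Q` has exactly one element `r` and `∑ (H (b s) - H (a s)) = H (b r) - H 0`.
PROOF. `m` is a bijection from `S \ Q` to `S \ {s0}`: cardinalities. The sum: `∑_{S} H (b s) - ∑_{S} H (a s)`; split off `Q = {r}` and `s0`;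
`Finset.sum_bij`. -/
theorem count_intervals {σ : Type*} [DecidableEq σ] (S Q : Finset σ) (hQ : Q ⊆ S) (a b : σ → ℝ) (s0 : σ) (hs0 : s0 ∈ S)
    (h0 : ∀ s ∈ S, a s = 0 ↔ s = s0) (m : σ → σ) (hm : ∀ s ∈ S \ Q, m s ∈ S \ {s0} ∧ a (m s) = b s)
    (hinj : ∀ s ∈ S \ Q, ∀ s' ∈ S \ Q, m s = m s' → s = s') (hsurj : ∀ s' ∈ S \ {s0}, ∃ s ∈ S \ Q, m s = s') :
    ∃ r, Q = {r} ∧ ∀ H : ℝ → ℝ, ∑ s ∈ S, (H (b s) - H (a s)) = H (b r) - H 0 := by
  have hs0' : {s0} ⊆ S := Finset.singleton_subset_iff.2 hs0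
  have hcard : (S \ Q).card = (S \ {s0}).card := by
    refine Finset.card_bij (fun s _ => m s) (fun s hs => (hm s hs).1)
      (fun s hs s' hs' h => hinj s hs s' hs' h) (fun s' hs' => ?_)
    obtain ⟨s, hs, h⟩ := hsurj s' hs'
    exact ⟨s, hs, h⟩
  have h1 : Q.card = 1 := by
    rw [Finset.card_sdiff_of_subset hQ, Finset.card_sdiff_of_subset hs0', Finset.card_singleton] at hcard
    have h2 := Finset.card_le_card hQ
    have h3 := Finset.card_pos.2 ⟨s0, hs0⟩
    omega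
  obtain ⟨r, hr⟩ := Finset.card_eq_one.1 h1
  refine ⟨r, hr, fun H => ?_⟩
  have h2 := Finset.sum_sdiff (f := fun s => H (b s)) hQ
  have h3 := Finset.sum_sdiff (f := fun s => H (a s)) hs0'
  have h4 : ∑ s ∈ S \ Q, H (b s) = ∑ s ∈ S \ {s0}, H (a s) := by
    refine Finset.sum_bij (fun s _ => m s) (fun s hs => (hm s hs).1)
      (fun s hs s' hs' h => hinj s hs s' hs' h) (fun s' hs' => ?_) (fun s hs => ?_)
    · obtain ⟨s, hs, h⟩ := hsurj s' hs'
      exact ⟨s, hs, h⟩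
    · rw [(hm s hs).2]
  have h5 : a s0 = 0 := (h0 s0 hs0).2 rfl
  have h6 : ∑ s ∈ Q, H (b s) = H (b r) := by rw [hr, Finset.sum_singleton]
  rw [Finset.sum_singleton, h5] at h3
  rw [Finset.sum_sub_distrib, ← h2, ← h3, h4, h6]
  ring

/-- Then the intervals cover `[0, b r]`.
PROOF. Let `0 ≤ t ≤ b r` be not covered. The set of `s ∈ S` with `b s < t` is not empty (`s0`: `a s0 = 0 ≤ t`, so `b s0 < t`); choose one with maximal `b s`. `s ≠ r`, so `s ∉ Q`,
and `m s` has `a (m s) = b s < t`, so `b (m s) < t` (not covered), and `b (m s) > a (m s) = b s`: contradiction. -/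
theorem cover_intervals {σ : Type*} [DecidableEq σ] (S Q : Finset σ) (a b : σ → ℝ) (s0 r : σ) (hs0 : s0 ∈ S)
    (h0 : a s0 = 0) (hab : ∀ s ∈ S, a s < b s) (hr : Q = {r}) (m : σ → σ) (hm : ∀ s ∈ S \ Q, m s ∈ S ∧ a (m s) = b s)
    (t : ℝ) (ht0 : 0 ≤ t) (ht : t ≤ b r) (hrS : r ∈ S) : ∃ s ∈ S, a s ≤ t ∧ t ≤ b s := by
  by_contra hcon
  push Not at hcon
  obtain ⟨s, hs, hmax⟩ := Finset.exists_max_image (S.filter fun s => b s < t) b
    ⟨s0, Finset.mem_filter.2 ⟨hs0, hcon s0 hs0 (by rw [h0]; exact ht0)⟩⟩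
  obtain ⟨hsS, hst⟩ := Finset.mem_filter.1 hs
  have hsQ : s ∉ Q := by
    intro h
    rw [hr, Finset.mem_singleton] at h
    rw [h] at hst
    linarith
  obtain ⟨h1, h2⟩ := hm s (Finset.mem_sdiff.2 ⟨hsS, hsQ⟩)
  have h3 := hcon (m s) h1 (by rw [h2]; exact hst.le)
  have h4 := hmax (m s) (Finset.mem_filter.2 ⟨h1, h3⟩)
  have h5 := hab (m s) h1
  linarith

end ALX
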