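import Mathlib

/-! # ALX, chunk D5B (S): intervals which cover, the total length is right -/

open MeasureTheory

namespace ALX

/-- PROOF. `μ = ∑ s ∈ S, volume.restrict (Icc (a s) (b s))` and `ν = volume.restrict (Icc 0 R)`: `ν ≤ μ` (for a measurable set `E`: `E ∩ Icc 0 R` is covered by the sets
`E ∩ Icc (a s) (b s)`, `measure_biUnion_finset_le`), and `μ univ = ∑ ofReal (b s - a s) = ofReal R = ν univ < ∞`. So `μ = ν` (`Measure.eq_of_le_of_measure_univ_eq`), and
`lintegral_finset_sum_measure`. -/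
theorem sum_restrict {σ : Type*} (S : Finset σ) (a b : σ → ℝ) {R : ℝ} (hR : 0 ≤ R) (hab : ∀ s ∈ S, a s ≤ b s)
    (hcov : ∀ t, 0 ≤ t → t ≤ R → ∃ s ∈ S, a s ≤ t ∧ t ≤ b s) (hsum : ∑ s ∈ S, (b s - a s) = R) (g : ℝ → ENNReal) :
    ∑ s ∈ S, ∫⁻ t in Set.Icc (a s) (b s), g t = ∫⁻ t in Set.Icc 0 R, g t := by
  rw [← lintegral_finsetSum_measure]
  congr 1
  symm
  have hle : (volume.restrict (Set.Icc 0 R) : Measure ℝ) ≤
      ∑ s ∈ S, volume.restrict (Set.Icc (a s) (b s)) := by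
    rw [Measure.le_iff]
    intro E hE
    rw [Measure.finsetSum_apply, Measure.restrict_apply hE]
    have h1 : E ∩ Set.Icc 0 R ⊆ ⋃ s ∈ S, (E ∩ Set.Icc (a s) (b s)) := by
      intro t ht
      obtain ⟨s, hs, h2, h3⟩ := hcov t ht.2.1 ht.2.2
      exact Set.mem_biUnion hs ⟨ht.1, h2, h3⟩
    refine (measure_mono h1).trans ((measure_biUnion_finset_le S _).trans (le_of_eq ?_))
    exact Finset.sum_congr rfl fun s _ => (Measure.restrict_apply hE).symm
  refine Measure.eq_of_le_of_measure_univ_eq hle ?_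
  rw [Measure.finsetSum_apply, Measure.restrict_apply_univ, Real.volume_Icc, sub_zero, ← hsum,
    ENNReal.ofReal_sum_of_nonneg (fun s hs => sub_nonneg.2 (hab s hs))]
  refine Finset.sum_congr rfl fun s _ => ?_
  rw [Measure.restrict_apply_univ, Real.volume_Icc]

end ALX
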