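import Pool.Agent.Lib.ALX.D3
import Pool.Agent.Lib.ALX.D5A
import Pool.Agent.Lib.ALX.D5B

/-! # ALX, chunk D5 (M/L): the structure of a generic ray -/

open Real MeasureTheory

namespace ALX

open H47A (E3 cross3 det3 pl)

variable {A : Type} [Fintype A] [DecidableEq A] {n : A → E3} {a0 : A} {q : E3}

omit [DecidableEq A] in
theorem d5_at [DecidableEq A] {x : E3} {b c : A} (h : At n x {b, c}) : lf n c x = 1 := by
  have h1 : c ∈ Ac n x := by
    rw [h.2]
    simp
  unfold Ac at h1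
  simpa using h1

/-- PROOF. `capi_finite` for all `a` (`St` is the union over the finite type `A` of the images of the `Img n a0 q a`). -/
theorem mem_SF (hG : Gn n) (hq : At n q {a0}) (s : A × (E3 ≃ᵃⁱ[ℝ] E3)) : s ∈ SF n a0 q ↔ s.2 ∈ Img n a0 q s.1 := by
  have hfin : (St n a0 q).Finite := by
    have h1 : St n a0 q = ⋃ a : A, (fun T => (a, T)) '' Img n a0 q a := by
      ext ⟨a, T⟩
      simp [St]
    rw [h1]
    exact Set.finite_iUnion fun a => (capi_finite hG hq a).image _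
  unfold SF
  rw [dif_pos hfin, Set.Finite.mem_toFinset]
  rfl

/-- PROOF. `S` = the states `s ∈ SF` with `IS ≠ ∅`; choose `i s`, `e s` by `seg` (`Sg ... (i s) (e s)`), `Q` = the states with an exit at a ridge (`∃ T', RX`), `s0 = (a0, refl)` (`zero_mem`, `capi_id`; `i s = 0 ↔ s = s0`: if
`i s = 0` then `T.symm q ∈ Cl`, `zero_entry`). For `s = (a, T) ∈ S \ Q`: `EX n a0 q u a T b (e s)` with positive slope, `m s = (b, (rho n a b).trans T)`: by `transfer_ray` it is a state in `S`, and by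
`edge_point` (slope negative) `e s` is the least element of its interval: `i (m s) = e s > 0`, so `m s ≠ s0`.
Injective: `m (a, T) = m (a', T')`: the same `b`, the same unfolding, so the same time `e = i (m s)`, the same point `x` (`transfer_ray`), `{a, b} = {a', b}` gives `a = a'`, and `T = T'` by
`EX.uniq`. Surjective: `s' = (b, T') ∈ S`, `s' ≠ s0`: `i s' ≠ 0`, so `EX n a0 q u b T' a (i s')` with negative slope; `transfer_ray`: `s = (a, (rho n b a).trans T')` is a state with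
`EX n a0 q u a _ b (i s')` with positive slope, so `e s = i s'` by `edge_point`; `s ∉ Q` because the exit point is on the facet `b` (`RX.at1`); `m s = (b, _)` (the facet of the exit of `s` is `b`: `At`), and both
`m s` and `s'` are active at the point, `EX.uniq` for `s'`: `m s = s'`. Now `count_intervals`: `Q = {r}`, `r = (a, T)`, `RX n a0 q u a T T' (e r)`.
`rid`: `ridge_exit`: the state `(b, S)` is in `Q` and `t = e`. `le`: the state `s ∈ S` with the largest `e s` is in `Q` (otherwise `e (m s) > i (m s) = e s`). `cov`: `cover_intervals`.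
`sum`: `sum_restrict` with `H = id` in `count_intervals` (the states with `IS = ∅` do not contribute). -/
theorem prt (hG : Gn n) (hg : Gen n a0 q) {u : E3} (hu : GD n a0 q u) : ∃ a T T' r, Prt n a0 q u a T T' r := by
  classical
  have hq := hg.loc
  set S : Finset (A × (E3 ≃ᵃⁱ[ℝ] E3)) := (SF n a0 q).filter fun s => (IS n q u s.1 s.2).Nonempty with hSd
  have memS : ∀ s, s ∈ S ↔ s.2 ∈ Img n a0 q s.1 ∧ (IS n q u s.1 s.2).Nonempty := by
    intro s
    rw [hSd, Finset.mem_filter, mem_SF hG hq]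
  have hseg : ∀ s : A × (E3 ≃ᵃⁱ[ℝ] E3), ∃ p : ℝ × ℝ, s ∈ S → Sg n a0 q u s.1 s.2 p.1 p.2 := by
    intro s
    by_cases hs : s ∈ S
    · obtain ⟨h1, h2⟩ := (memS s).1 hs
      obtain ⟨i, e, h3⟩ := seg hG hg hu h1 h2
      exact ⟨(i, e), fun _ => h3⟩
    · exact ⟨(0, 0), fun h => absurd h hs⟩
  choose p hp using hseg
  set ia : A × (E3 ≃ᵃⁱ[ℝ] E3) → ℝ := fun s => (p s).1 with hia
  set eb : A × (E3 ≃ᵃⁱ[ℝ] E3) → ℝ := fun s => (p s).2 with heb
  have hSg : ∀ s ∈ S, Sg n a0 q u s.1 s.2 (ia s) (eb s) := fun s hs => hp s hs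
  have hlt : ∀ s ∈ S, ia s < eb s := fun s hs => (hSg s hs).lt
  have hgr : ∀ s ∈ S, ∀ t, IsGreatest (IS n q u s.1 s.2) t → eb s = t := by
    intro s hs t ht
    rw [(hSg s hs).eq] at ht
    exact (isGreatest_Icc (hlt s hs).le).unique ht
  have hle : ∀ s ∈ S, ∀ t, IsLeast (IS n q u s.1 s.2) t → ia s = t := by
    intro s hs t ht
    rw [(hSg s hs).eq] at ht
    exact (isLeast_Icc (hlt s hs).le).unique ht
  set Q : Finset (A × (E3 ≃ᵃⁱ[ℝ] E3)) := S.filter fun s => ∃ T', RX n a0 q u s.1 s.2 T' (eb s) with hQd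
  have hQS : Q ⊆ S := Finset.filter_subset _ _
  have memQ : ∀ s, s ∈ Q ↔ s ∈ S ∧ ∃ T', RX n a0 q u s.1 s.2 T' (eb s) := by
    intro s
    rw [hQd, Finset.mem_filter]
  set s0 : A × (E3 ≃ᵃⁱ[ℝ] E3) := (a0, AffineIsometryEquiv.refl ℝ E3) with hs0d
  have hz : (0 : ℝ) ∈ IS n q u a0 (AffineIsometryEquiv.refl ℝ E3) := by
    refine ⟨le_rfl, ?_⟩
    rw [zero_smul, add_zero]
    exact zero_mem hG hg
  have hs0 : s0 ∈ S := (memS s0).2 ⟨capi_id hG hq, ⟨0, hz⟩⟩
  have h0 : ∀ s ∈ S, ia s = 0 ↔ s = s0 := by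
    intro s hs
    have h1 := hSg s hs
    constructor
    · intro h2
      have h3 : (0 : ℝ) ∈ IS n q u s.1 s.2 := by
        rw [h1.eq, h2]
        exact ⟨le_rfl, by have := h1.lt; rw [h2] at this; exact this.le⟩
      have h4 := h3.2
      rw [zero_smul, add_zero] at h4
      obtain ⟨h5, h6⟩ := zero_entry hG hg ((memS s).1 hs).1 h4
      exact Prod.ext h5 h6
    · intro h2
      have h3 : (0 : ℝ) ∈ IS n q u s.1 s.2 := by
        rw [h2]
        exact hz
      rw [h1.eq] at h3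
      exact le_antisymm h3.1 h1.nonneg
  have hex : ∀ s : A × (E3 ≃ᵃⁱ[ℝ] E3), ∃ b : A, s ∈ S \ Q →
      EX n a0 q u s.1 s.2 b (eb s) ∧ 0 < lf n b (s.2.symm.linearIsometryEquiv u) := by
    intro s
    by_cases hs : s ∈ S \ Q
    · obtain ⟨h1, h2⟩ := Finset.mem_sdiff.1 hs
      rcases (hSg s h1).exit with h3 | ⟨b, h3⟩
      · exact absurd ((memQ s).2 ⟨h1, h3⟩) h2
      · exact ⟨b, fun _ => h3⟩
    · exact ⟨a0, fun h => absurd h hs⟩
  choose fb hfb using hex
  set m : A × (E3 ≃ᵃⁱ[ℝ] E3) → A × (E3 ≃ᵃⁱ[ℝ] E3) := fun s => (fb s, (rho n s.1 (fb s)).trans s.2) with hmd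
  have hebpos : ∀ s ∈ S, 0 < eb s := fun s hs => lt_of_le_of_lt (hSg s hs).nonneg (hlt s hs)
  have htr : ∀ s ∈ S \ Q, m s ∈ S ∧ ia (m s) = eb s ∧ EX n a0 q u (m s).1 (m s).2 s.1 (eb s) ∧
      (m s).2.symm (q + eb s • u) = s.2.symm (q + eb s • u) := by
    intro s hs
    obtain ⟨h1, h2⟩ := Finset.mem_sdiff.1 hs
    obtain ⟨hE, hpos⟩ := hfb s hs
    have hT := ((memS s).1 h1).1
    obtain ⟨t1, t2, t3, t4, -⟩ := transfer_ray hG hg hu hT (hebpos s h1).le hE
    have h3 : m s ∈ S := (memS _).2 ⟨t1, ⟨eb s, (hebpos s h1).le, t3.cl⟩⟩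
    refine ⟨h3, ?_, t3, t2⟩
    have h4 : lf n s.1 (((rho n s.1 (fb s)).trans s.2).symm (q + eb s • u)) = 1 := d5_at t3.at2
    obtain ⟨-, -, h5⟩ := edge_point hG hg hu t1 t3.ne (hebpos s h1).le t3.cl h4
    rcases h5 with ⟨h6, -⟩ | ⟨-, h6⟩
    · exact absurd h6 (not_lt.2 (t4.1 hpos).le)
    · exact hle _ h3 _ h6
  have hm : ∀ s ∈ S \ Q, m s ∈ S \ {s0} ∧ ia (m s) = eb s := by
    intro s hs
    obtain ⟨h1, h2, -, -⟩ := htr s hs
    refine ⟨Finset.mem_sdiff.2 ⟨h1, ?_⟩, h2⟩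
    rw [Finset.mem_singleton]
    intro h3
    have h4 := (h0 _ h1).2 h3
    rw [h2] at h4
    exact (hebpos s (Finset.mem_sdiff.1 hs).1).ne' h4
  have hinj : ∀ s ∈ S \ Q, ∀ s' ∈ S \ Q, m s = m s' → s = s' := by
    intro s hs s' hs' hmm
    obtain ⟨h1, h2, h3, h4⟩ := htr s hs
    obtain ⟨h1', h2', h3', h4'⟩ := htr s' hs'
    have he : eb s = eb s' := by rw [← h2, ← h2', hmm]
    have hx : s.2.symm (q + eb s • u) = s'.2.symm (q + eb s • u) := by
      rw [← h4, hmm, he, h4']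
    have hA := h3.at2
    have hA' := h3'.at2
    rw [← hmm, ← he] at hA'
    have hset : ({(m s).1, s.1} : Finset A) = {(m s).1, s'.1} := hA.2.symm.trans hA'.2
    have h5 : s.1 = s'.1 := by
      have h6 : s.1 ∈ ({(m s).1, s'.1} : Finset A) := by
        rw [← hset]
        simp
      simp only [Finset.mem_insert, Finset.mem_singleton] at h6
      rcases h6 with h6 | h6
      · exact absurd h6 h3.ne
      · exact h6
    have hfbb : fb s = fb s' := congrArg Prod.fst hmm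
    have h7 : (rho n s.1 (fb s)).trans s.2 = (rho n s'.1 (fb s')).trans s'.2 := congrArg Prod.snd hmm
    rw [← h5, ← hfbb] at h7
    refine Prod.ext h5 ?_
    ext x : 1
    have h8 := congrArg (fun F : E3 ≃ᵃⁱ[ℝ] E3 => F ((rho n s.1 (fb s)).symm x)) h7
    simp only [AffineIsometryEquiv.coe_trans, Function.comp_apply, AffineIsometryEquiv.apply_symm_apply] at h8
    exact h8
  have hsurj : ∀ s' ∈ S \ {s0}, ∃ s ∈ S \ Q, m s = s' := by
    intro s' hs'
    obtain ⟨h1, h2⟩ := Finset.mem_sdiff.1 hs'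
    rw [Finset.mem_singleton] at h2
    have hT' := ((memS s').1 h1).1
    have hi0 : ia s' ≠ 0 := fun h => h2 ((h0 _ h1).1 h)
    rcases (hSg s' h1).entry with h3 | ⟨a1, hE, hneg⟩
    · exact absurd h3 hi0
    · have hnn := (hSg s' h1).nonneg
      obtain ⟨t1, t2, t3, -, t5⟩ := transfer_ray hG hg hu hT' hnn hE
      set s : A × (E3 ≃ᵃⁱ[ℝ] E3) := (a1, (rho n s'.1 a1).trans s'.2) with hsd
      have hsS : s ∈ S := (memS s).2 ⟨t1, ⟨ia s', hnn, t3.cl⟩⟩
      have h4 : lf n s'.1 (((rho n s'.1 a1).trans s'.2).symm (q + ia s' • u)) = 1 := d5_at t3.at2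
      obtain ⟨-, -, h5⟩ := edge_point hG hg hu t1 t3.ne hnn t3.cl h4
      have h6 : eb s = ia s' := by
        rcases h5 with ⟨-, h6⟩ | ⟨h6, -⟩
        · exact hgr s hsS _ h6
        · exact absurd h6 (not_lt.2 (t5.1 hneg).le)
      have hsQ : s ∉ Q := by
        intro h7
        obtain ⟨-, T'', h8⟩ := (memQ s).1 h7
        have h9 := h8.at1.2
        rw [h6] at h9
        have h10 := t3.at2.2
        have h11 : s'.1 ∈ ({a1} : Finset A) := by
          rw [← h9, h10]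
          simp
        exact t3.ne (Finset.mem_singleton.1 h11)
      have hsSQ : s ∈ S \ Q := Finset.mem_sdiff.2 ⟨hsS, hsQ⟩
      refine ⟨s, hsSQ, ?_⟩
      obtain ⟨g1, g2, g3, g4⟩ := htr s hsSQ
      rw [h6] at g3 g4
      have hpt : (m s).2.symm (q + ia s' • u) = s'.2.symm (q + ia s' • u) := g4.trans t2
      have hA := g3.at2
      rw [hpt] at hA
      have hA2 := hE.at2
      have hset : ({(m s).1, s.1} : Finset A) = {s'.1, a1} := hA.2.symm.trans hA2.2
      have h12 : (m s).1 = s'.1 := by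
        have h13 : (m s).1 ∈ ({s'.1, a1} : Finset A) := by
          rw [← hset]
          simp
        simp only [Finset.mem_insert, Finset.mem_singleton] at h13
        rcases h13 with h13 | h13
        · exact h13
        · exact absurd h13.symm g3.ne
      refine Prod.ext h12 ?_
      have g5 := g3.cl
      rw [hpt, h12] at g5
      have g6 := ((memS _).1 g1).1
      rw [h12] at g6
      exact hE.uniq _ g6 g5
  obtain ⟨r, hr, hH⟩ := count_intervals S Q hQS ia eb s0 hs0 h0 m hm hinj hsurj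
  have hrQ : r ∈ Q := by rw [hr]; exact Finset.mem_singleton_self r
  obtain ⟨hrS, T', hRX⟩ := (memQ r).1 hrQ
  have hmax : ∀ s ∈ S, eb s ≤ eb r := by
    obtain ⟨sm, hsm, hmx⟩ := Finset.exists_max_image S eb ⟨s0, hs0⟩
    have h1 : sm ∈ Q := by
      by_contra h2
      obtain ⟨h3, h4, -, -⟩ := htr sm (Finset.mem_sdiff.2 ⟨hsm, h2⟩)
      have h5 := hmx _ h3
      have h6 := hlt _ h3
      linarith
    rw [hr, Finset.mem_singleton] at h1
    rw [← h1]
    exact hmx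
  have hcov : ∀ t : ℝ, 0 ≤ t → t ≤ eb r → ∃ s ∈ S, ia s ≤ t ∧ t ≤ eb s := fun t ht0 ht =>
    cover_intervals S Q ia eb s0 r hs0 ((h0 _ hs0).2 rfl) hlt hr m
      (fun s hs => ⟨(htr s hs).1, (htr s hs).2.1⟩) t ht0 ht hrS
  refine ⟨r.1, r.2, T', eb r, ?_⟩
  refine ⟨hebpos r hrS, ((memS r).1 hrS).1, hRX.mem, hRX.ne.symm, hRX.at1, hRX.cl, hRX.cl', hRX.two, ?_, ?_, ?_, ?_⟩
  · intro b R hR R' hR' hRR t ht hc hc'
    obtain ⟨-, h2, h3⟩ := ridge_exit hG hg hu hR hR' hRR.symm ht hc hc'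
    have h4 : ((b, R) : A × (E3 ≃ᵃⁱ[ℝ] E3)) ∈ S := (memS _).2 ⟨hR, ⟨t, ht, hc⟩⟩
    have h5 : eb (b, R) = t := hgr _ h4 _ h2
    have h6 : ((b, R) : A × (E3 ≃ᵃⁱ[ℝ] E3)) ∈ Q := by
      refine (memQ _).2 ⟨h4, R', ?_⟩
      rw [h5]
      exact h3
    rw [hr, Finset.mem_singleton] at h6
    subst h6
    refine ⟨rfl, rfl, ?_, h5.symm⟩
    have h7 := hRX.two R' hR'
    rw [h5] at h7
    rcases h7 hc' with h8 | h8
    · exact absurd h8.symm hRR
    · exact h8
  · intro b R hR t ht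
    have h4 : ((b, R) : A × (E3 ≃ᵃⁱ[ℝ] E3)) ∈ S := (memS _).2 ⟨hR, ⟨t, ht⟩⟩
    have h5 := hmax _ h4
    rw [(hSg _ h4).eq] at ht
    exact ht.2.trans h5
  · intro t ht0 ht
    obtain ⟨s, hs, h1, h2⟩ := hcov t ht0 ht
    refine ⟨s, (Finset.mem_filter.1 hs).1, ?_⟩
    rw [(hSg s hs).eq]
    exact ⟨h1, h2⟩
  · intro g _
    have hsum : ∑ s ∈ S, (eb s - ia s) = eb r := by
      have h1 := hH id
      simp only [id, sub_zero] at h1
      exact h1
    rw [← sum_restrict S ia eb (hebpos r hrS).le (fun s hs => (hlt s hs).le) hcov hsum g]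
    rw [← Finset.sum_subset (Finset.filter_subset _ _ : S ⊆ SF n a0 q)]
    · exact Finset.sum_congr rfl fun s hs => by rw [(hSg s hs).eq]
    · intro s hs hsS
      have h1 : IS n q u s.1 s.2 = ∅ := by
        by_contra h2
        exact hsS (Finset.mem_filter.2 ⟨hs, Set.nonempty_iff_ne_empty.2 h2⟩)
      rw [h1, setLIntegral_empty]

end ALX
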