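import Mathlib

/-! # ALX, chunk D6A (S/M): polar coordinates for a set in the plane -/

open Real MeasureTheory

namespace ALX

theorem d6a_mk : Measurable fun p : ℝ × ℝ => (⟨p.1 * cos p.2, p.1 * sin p.2⟩ : ℂ) := by
  have h : (fun p : ℝ × ℝ => (⟨p.1 * cos p.2, p.1 * sin p.2⟩ : ℂ)) =
      fun p => ((p.1 * cos p.2 : ℝ) : ℂ) + ((p.1 * sin p.2 : ℝ) : ℂ) * Complex.I := by
    funext p
    rw [Complex.mk_eq_add_mul_I]
  rw [h]
  fun_prop

theorem d6a_inner {S : Set ℂ} (hS : MeasurableSet S) (h : ℝ → ENNReal) (θ : ℝ) :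
    ∫⁻ t in Set.Ioi (0 : ℝ), {p : ℝ × ℝ | (⟨p.1 * cos p.2, p.1 * sin p.2⟩ : ℂ) ∈ S}.indicator
      (fun p => ENNReal.ofReal p.1 * h p.1) (t, θ) =
    ∫⁻ t in {t : ℝ | 0 ≤ t ∧ (⟨t * cos θ, t * sin θ⟩ : ℂ) ∈ S}, ENNReal.ofReal t * h t := by
  have hA : MeasurableSet {t : ℝ | (⟨t * cos θ, t * sin θ⟩ : ℂ) ∈ S} :=
    (d6a_mk.comp (measurable_id.prodMk measurable_const)) hS
  have e1 : {t : ℝ | 0 ≤ t ∧ (⟨t * cos θ, t * sin θ⟩ : ℂ) ∈ S} =
      {t : ℝ | (⟨t * cos θ, t * sin θ⟩ : ℂ) ∈ S} ∩ Set.Ici 0 := by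
    ext t
    exact and_comm
  rw [e1, ← setLIntegral_indicator hA, setLIntegral_congr (Ioi_ae_eq_Ici (a := (0 : ℝ)))]
  rfl

/-- PROOF. `Complex.lintegral_comp_polarCoord_symm` for `f = S.indicator (fun z => h ‖z‖)`; `polarCoord.target = Ioi 0 ×ˢ Ioo (-π) π`, the product measure and
`lintegral_prod_symm`; the time `t = 0` is a null set (or use `ofReal t = 0` for `t ≤ 0`). (Compare `H47A.sector_area` in `Lib/H47A/EKap1.lean`.) -/
theorem polar_int {S : Set ℂ} (hS : MeasurableSet S) {h : ℝ → ENNReal} (hh : Measurable h) :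
    ∫⁻ z in S, h ‖z‖ = ∫⁻ θ in Set.Ioo (-π) π, ∫⁻ t in {t : ℝ | 0 ≤ t ∧ (⟨t * cos θ, t * sin θ⟩ : ℂ) ∈ S},
      ENNReal.ofReal t * h t := by
  have hA : MeasurableSet {p : ℝ × ℝ | (⟨p.1 * cos p.2, p.1 * sin p.2⟩ : ℂ) ∈ S} := d6a_mk hS
  rw [← lintegral_indicator hS, ← Complex.lintegral_comp_polarCoord_symm]
  have h2 : ∫⁻ p in polarCoord.target, ENNReal.ofReal p.1 •
      S.indicator (fun z => h ‖z‖) (Complex.polarCoord.symm p) =
      ∫⁻ p in polarCoord.target, {p : ℝ × ℝ | (⟨p.1 * cos p.2, p.1 * sin p.2⟩ : ℂ) ∈ S}.indicator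
        (fun p => ENNReal.ofReal p.1 * h p.1) p := by
    refine setLIntegral_congr_fun polarCoord.open_target.measurableSet fun p hp => ?_
    have hp1 : 0 < p.1 := hp.1
    have e1 : ‖Complex.polarCoord.symm p‖ = p.1 := by
      rw [Complex.norm_polarCoord_symm, abs_of_pos hp1]
    have e2 : Complex.polarCoord.symm p = (⟨p.1 * cos p.2, p.1 * sin p.2⟩ : ℂ) := by
      rw [Complex.polarCoord_symm_apply, Complex.mk_eq_add_mul_I]
      push_cast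
      ring
    rw [smul_eq_mul]
    by_cases h3 : (⟨p.1 * cos p.2, p.1 * sin p.2⟩ : ℂ) ∈ S
    · have h4 : Complex.polarCoord.symm p ∈ S := by rw [e2]; exact h3
      have h5 : p ∈ {p : ℝ × ℝ | (⟨p.1 * cos p.2, p.1 * sin p.2⟩ : ℂ) ∈ S} := h3
      rw [Set.indicator_of_mem h4, Set.indicator_of_mem h5, e1]
    · have h4 : Complex.polarCoord.symm p ∉ S := by rw [e2]; exact h3
      have h5 : p ∉ {p : ℝ × ℝ | (⟨p.1 * cos p.2, p.1 * sin p.2⟩ : ℂ) ∈ S} := h3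
      rw [Set.indicator_of_notMem h4, Set.indicator_of_notMem h5, mul_zero]
  have h3 : (polarCoord.target : Set (ℝ × ℝ)) = Set.Ioi (0 : ℝ) ×ˢ Set.Ioo (-π) π := rfl
  have h4 : Measurable ({p : ℝ × ℝ | (⟨p.1 * cos p.2, p.1 * sin p.2⟩ : ℂ) ∈ S}.indicator
        (fun p => ENNReal.ofReal p.1 * h p.1)) :=
    ((ENNReal.measurable_ofReal.comp measurable_fst).mul (hh.comp measurable_fst)).indicator hA
  rw [h2, h3, Measure.volume_eq_prod, ← Measure.prod_restrict,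
    lintegral_prod_symm _ h4.aemeasurable]
  exact lintegral_congr fun θ => d6a_inner hS h θ

/-- PROOF. `Measurable.lintegral_prod_right'` for the indicator function of `{(θ, t) | 0 ≤ t ∧ (t cos θ, t sin θ) ∈ S}`. -/
theorem polar_meas {S : Set ℂ} (hS : MeasurableSet S) {h : ℝ → ENNReal} (hh : Measurable h) :
    Measurable fun θ : ℝ => ∫⁻ t in {t : ℝ | 0 ≤ t ∧ (⟨t * cos θ, t * sin θ⟩ : ℂ) ∈ S}, ENNReal.ofReal t * h t := by
  have hA : MeasurableSet {p : ℝ × ℝ | (⟨p.1 * cos p.2, p.1 * sin p.2⟩ : ℂ) ∈ S} := d6a_mk hS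
  have h4 : Measurable ({p : ℝ × ℝ | (⟨p.1 * cos p.2, p.1 * sin p.2⟩ : ℂ) ∈ S}.indicator
        (fun p => ENNReal.ofReal p.1 * h p.1)) :=
    ((ENNReal.measurable_ofReal.comp measurable_fst).mul (hh.comp measurable_fst)).indicator hA
  have h5 := h4.lintegral_prod_left' (μ := volume.restrict (Set.Ioi (0 : ℝ)))
  have h6 : (fun θ : ℝ => ∫⁻ t in {t : ℝ | 0 ≤ t ∧ (⟨t * cos θ, t * sin θ⟩ : ℂ) ∈ S},
      ENNReal.ofReal t * h t) = fun θ => ∫⁻ t in Set.Ioi (0 : ℝ),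
      {p : ℝ × ℝ | (⟨p.1 * cos p.2, p.1 * sin p.2⟩ : ℂ) ∈ S}.indicator
        (fun p => ENNReal.ofReal p.1 * h p.1) (t, θ) := by
    funext θ
    exact (d6a_inner hS h θ).symm
  rw [h6]
  exact h5

/-- PROOF. The two theorems above, `lintegral_finset_sum`. -/
theorem polar_sum {ι : Type*} (I : Finset ι) {S : ι → Set ℂ} (hS : ∀ i ∈ I, MeasurableSet (S i)) {h : ℝ → ENNReal} (hh : Measurable h) :
    ∑ i ∈ I, ∫⁻ z in S i, h ‖z‖ = ∫⁻ θ in Set.Ioo (-π) π,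
      ∑ i ∈ I, ∫⁻ t in {t : ℝ | 0 ≤ t ∧ (⟨t * cos θ, t * sin θ⟩ : ℂ) ∈ S i}, ENNReal.ofReal t * h t := by
  rw [lintegral_finsetSum I (fun i hi => polar_meas (hS i hi) hh)]
  exact Finset.sum_congr rfl fun i hi => polar_int (hS i hi) hh

end ALX
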