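import Pool.Agent.Lib.ALX.D0B

/-! # ALX, chunk D6B (M): the coordinates of the plane of `a0`, the cells -/

open Real MeasureTheory

namespace ALX

open H47A (E3 cross3 det3 pl)

variable {A : Type} [Fintype A] [DecidableEq A] {n : A → E3} {a0 : A} {q : E3}

theorem d6b_q (hq : At n q {a0}) : lf n a0 q = 1 := by
  have h1 : a0 ∈ Ac n q := by rw [hq.2]; simp
  simpa [Ac] using h1

theorem lf_cd (hG : Gn n) (hq : At n q {a0}) (z : ℂ) : lf n a0 (cd n a0 q z) = 1 := by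
  have hf := capi_fr hG a0
  have h1 : inner ℝ (n a0) q = (1 : ℝ) := d6b_q hq
  unfold lf cd
  rw [inner_add_right, inner_add_right, inner_smul_right, inner_smul_right, hf.o1, hf.o2, h1, mul_zero, mul_zero,
    add_zero, add_zero]

theorem cc_cd (hG : Gn n) (z : ℂ) : cc n a0 q (cd n a0 q z) = z := by
  have hf := capi_fr hG a0
  have h1 : cd n a0 q z - q = z.re • (fr n a0).1 + z.im • (fr n a0).2 := by
    unfold cd
    abel
  have h2 : inner ℝ (fr n a0).2 (fr n a0).1 = (0 : ℝ) := by rw [real_inner_comm]; exact hf.o12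
  unfold cc
  rw [h1]
  apply Complex.ext
  · show inner ℝ (z.re • (fr n a0).1 + z.im • (fr n a0).2) (fr n a0).1 = z.re
    rw [inner_add_left, real_inner_smul_left, real_inner_smul_left, real_inner_self_eq_norm_sq, hf.n1, h2]
    ring
  · show inner ℝ (z.re • (fr n a0).1 + z.im • (fr n a0).2) (fr n a0).2 = z.im
    rw [inner_add_left, real_inner_smul_left, real_inner_smul_left, real_inner_self_eq_norm_sq, hf.n2, hf.o12]
    ring

theorem d6b_exp (hG : Gn n) (a : A) {w : E3} (hw : inner ℝ (n a) w = (0 : ℝ)) :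
    (inner ℝ w (fr n a).1 : ℝ) • (fr n a).1 + (inner ℝ w (fr n a).2 : ℝ) • (fr n a).2 = w := by
  have hf := capi_fr hG a
  have hD : det3 (fr n a).1 (fr n a).2 (cross3 (fr n a).1 (fr n a).2) = 1 := by
    rw [H47A.evec_det, H47A.cross3_norm, hf.n1, hf.n2, hf.o12]
    norm_num
  set x : E3 := w - ((inner ℝ w (fr n a).1 : ℝ) • (fr n a).1 + (inner ℝ w (fr n a).2 : ℝ) • (fr n a).2) with hx
  have h21 : inner ℝ (fr n a).2 (fr n a).1 = (0 : ℝ) := by rw [real_inner_comm]; exact hf.o12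
  have h1 : inner ℝ (fr n a).1 x = (0 : ℝ) := by
    rw [hx, inner_sub_right, inner_add_right, inner_smul_right, inner_smul_right, real_inner_self_eq_norm_sq, hf.n1, hf.o12,
      real_inner_comm]
    ring
  have h2 : inner ℝ (fr n a).2 x = (0 : ℝ) := by
    rw [hx, inner_sub_right, inner_add_right, inner_smul_right, inner_smul_right, real_inner_self_eq_norm_sq, hf.n2, h21,
      real_inner_comm]
    ring
  have h3 : inner ℝ (cross3 (fr n a).1 (fr n a).2) x = (0 : ℝ) := by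
    rw [hf.ori]
    unfold nu
    rw [real_inner_smul_left, hx, inner_sub_right, inner_add_right, inner_smul_right, inner_smul_right, hf.o1, hf.o2, hw]
    ring
  have h4 := H47A.cramer (fr n a).1 (fr n a).2 (cross3 (fr n a).1 (fr n a).2) x
  rw [hD, h1, h2, h3, one_smul, zero_smul, zero_smul, zero_smul, add_zero, add_zero] at h4
  exact (sub_eq_zero.1 h4).symm

theorem cd_cc (hG : Gn n) (hq : At n q {a0}) {y : E3} (hy : lf n a0 y = 1) : cd n a0 q (cc n a0 q y) = y := by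
  have h1 : inner ℝ (n a0) q = (1 : ℝ) := d6b_q hq
  have h2 : inner ℝ (n a0) y = (1 : ℝ) := hy
  have h3 : inner ℝ (n a0) (y - q) = (0 : ℝ) := by rw [inner_sub_right, h1, h2, sub_self]
  have h4 := d6b_exp hG a0 h3
  show q + (inner ℝ (y - q) (fr n a0).1 : ℝ) • (fr n a0).1 + (inner ℝ (y - q) (fr n a0).2 : ℝ) • (fr n a0).2 = y
  rw [add_assoc, h4]
  abel

theorem dist_cd (hG : Gn n) (z z' : ℂ) : ‖cd n a0 q z - cd n a0 q z'‖ = ‖z - z'‖ := by
  have hf := capi_fr hG a0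
  have h1 : cd n a0 q z - cd n a0 q z' = (z.re - z'.re) • (fr n a0).1 + (z.im - z'.im) • (fr n a0).2 := by
    unfold cd
    rw [sub_smul, sub_smul]
    abel
  have h2 : ‖cd n a0 q z - cd n a0 q z'‖ ^ 2 = ‖z - z'‖ ^ 2 := by
    rw [h1, norm_add_sq_real, norm_smul, norm_smul, hf.n1, hf.n2, real_inner_smul_left, real_inner_smul_right, hf.o12,
      Complex.sq_norm, Complex.normSq_apply, Complex.sub_re, Complex.sub_im]
    simp only [mul_one, mul_zero, add_zero, Real.norm_eq_abs, sq_abs]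
    ring
  exact (pow_left_inj₀ (norm_nonneg _) (norm_nonneg _) two_ne_zero).1 h2

theorem norm_cd (hG : Gn n) (z : ℂ) : ‖cd n a0 q z - q‖ = ‖z‖ := by
  have h1 := dist_cd (a0 := a0) (q := q) hG z 0
  have h2 : cd n a0 q 0 = q := by
    unfold cd
    simp
  rw [h2, sub_zero] at h1
  exact h1

theorem dist_cc (hG : Gn n) (hq : At n q {a0}) {y y' : E3} (hy : lf n a0 y = 1) (hy' : lf n a0 y' = 1) :
    ‖cc n a0 q y - cc n a0 q y'‖ = ‖y - y'‖ := by
  rw [← dist_cd (a0 := a0) (q := q) hG, cd_cc hG hq hy, cd_cc hG hq hy']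

theorem cd_polar (t θ : ℝ) : cd n a0 q ⟨t * cos θ, t * sin θ⟩ = q + t • dr n a0 θ := by
  unfold cd dr
  rw [smul_add, smul_smul, smul_smul, add_assoc]

theorem d6b_half (p p' : E3) : Convex ℝ {y : E3 | ‖y - p‖ ≤ ‖y - p'‖} := by
  have h1 : {y : E3 | ‖y - p‖ ≤ ‖y - p'‖} = {y : E3 | (inner ℝ (p' - p) y : ℝ) ≤ (‖p'‖ ^ 2 - ‖p‖ ^ 2) / 2} := by
    ext y
    show ‖y - p‖ ≤ ‖y - p'‖ ↔ (inner ℝ (p' - p) y : ℝ) ≤ (‖p'‖ ^ 2 - ‖p‖ ^ 2) / 2
    rw [← pow_le_pow_iff_left₀ (norm_nonneg _) (norm_nonneg _) two_ne_zero, norm_sub_sq_real, norm_sub_sq_real,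
      inner_sub_left, real_inner_comm y p, real_inner_comm y p']
    constructor <;> intro h <;> linarith
  rw [h1]
  refine convex_halfSpace_le ⟨fun x y => inner_add_right _ _ _, fun c x => ?_⟩ _
  rw [inner_smul_right, smul_eq_mul]

theorem cl_conv (hG : Gn n) (hq : At n q {a0}) {a : A} {T : E3 ≃ᵃⁱ[ℝ] E3} (hT : T ∈ Img n a0 q a) :
    IsCompact (Cl n q a T) ∧ Convex ℝ (Cl n q a T) := by
  have h1 : Cl n q a T = Fc n a ∩ ⋂ T' ∈ Img n a0 q a, {y : E3 | ‖y - T.symm q‖ ≤ ‖y - T'.symm q‖} := by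
    ext y
    rw [cell_iff hG hq hT, Set.mem_inter_iff, Set.mem_iInter₂]
    refine and_congr_right fun _ => forall₂_congr fun T' _ => ?_
    show ‖T y - q‖ ≤ ‖T' y - q‖ ↔ ‖y - T.symm q‖ ≤ ‖y - T'.symm q‖
    rw [norm_unf, norm_unf]
  rw [h1]
  refine ⟨(capi_Fc hG a).1.inter_right ?_, (capi_Fc hG a).2.inter ?_⟩
  · exact isClosed_biInter fun T' _ => isClosed_le (by fun_prop) (by fun_prop)
  · exact convex_iInter₂ fun T' _ => d6b_half _ _

theorem ch_closed (hG : Gn n) (hq : At n q {a0}) {s : A × (E3 ≃ᵃⁱ[ℝ] E3)} (hs : s.2 ∈ Img n a0 q s.1) : IsClosed (Ch n a0 q s) := by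
  have h1 : Continuous fun z : ℂ => s.2.symm (cd n a0 q z) := by
    refine s.2.symm.continuous.comp ?_
    unfold cd
    fun_prop
  exact (cl_conv hG hq hs).1.isClosed.preimage h1

theorem ch_slice (s : A × (E3 ≃ᵃⁱ[ℝ] E3)) (θ : ℝ) :
    {t : ℝ | 0 ≤ t ∧ (⟨t * cos θ, t * sin θ⟩ : ℂ) ∈ Ch n a0 q s} = IS n q (dr n a0 θ) s.1 s.2 := by
  ext t
  show (0 ≤ t ∧ s.2.symm (cd n a0 q ⟨t * cos θ, t * sin θ⟩) ∈ Cl n q s.1 s.2) ↔
    (0 ≤ t ∧ s.2.symm (q + t • dr n a0 θ) ∈ Cl n q s.1 s.2)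
  rw [cd_polar]

end ALX
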