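import Pool.Agent.Lib.ALX.P16

/-!
# ALX, chunk P17 (S/M): the isometric chart of a facet plane

PROOF: direct from P16 (`(‖n a‖^2)⁻¹ • n a` is the foot point of the plane; `Complex.norm` with re, im).
-/

open Real MeasureTheory Filter Topology

namespace ALX

open H47A (E3 cross3 det3 pl)

variable {A : Type} [Fintype A] [DecidableEq A] {n : A → E3}

theorem em_lf (h : Gn n) (a : A) (z : ℂ) : lf n a (em n a z) = 1 := by
  have hF := fr_spec h a
  have hn : ‖n a‖ ≠ 0 := norm_ne_zero_iff.2 (h.ne a)
  unfold lf em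
  rw [inner_add_right, inner_add_right, real_inner_smul_right, real_inner_smul_right, real_inner_smul_right,
    hF.o1, hF.o2, real_inner_self_eq_norm_sq, inv_mul_cancel₀ (pow_ne_zero 2 hn)]
  ring

theorem em_surj (h : Gn n) {a : A} {x : E3} (hx : lf n a x = 1) : ∃ z, em n a z = x := by
  have hn : ‖n a‖ ≠ 0 := norm_ne_zero_iff.2 (h.ne a)
  have hw : inner ℝ (n a) (x - (‖n a‖ ^ 2)⁻¹ • n a) = (0 : ℝ) := by
    have h1 : inner ℝ (n a) x = (1 : ℝ) := hx
    rw [inner_sub_right, real_inner_smul_right, h1, real_inner_self_eq_norm_sq, inv_mul_cancel₀ (pow_ne_zero 2 hn),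
      sub_self]
  have h2 := fr_expand h hw
  refine ⟨⟨inner ℝ (fr n a).1 (x - (‖n a‖ ^ 2)⁻¹ • n a), inner ℝ (fr n a).2 (x - (‖n a‖ ^ 2)⁻¹ • n a)⟩, ?_⟩
  unfold em
  rw [add_assoc, ← h2, add_sub_cancel]

/-- The points of the plane are the points of the chart. -/
theorem em_range (h : Gn n) (a : A) : Set.range (em n a) = {x | lf n a x = 1} := by
  ext x
  constructor
  · rintro ⟨z, rfl⟩
    exact em_lf h a z
  · intro hx
    exact em_surj h hx

theorem em_add (a : A) (z w : ℂ) : em n a (z + w) = em n a z + (w.re • (fr n a).1 + w.im • (fr n a).2) := by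
  unfold em
  rw [Complex.add_re, Complex.add_im]
  module

theorem em_norm (h : Gn n) (a : A) (z w : ℂ) : ‖em n a z - em n a w‖ = ‖z - w‖ := by
  have h1 : em n a z - em n a w = (z - w).re • (fr n a).1 + (z - w).im • (fr n a).2 := by
    unfold em
    rw [Complex.sub_re, Complex.sub_im]
    module
  have h2 := fr_norm h a (z - w).re (z - w).im
  rw [← h1] at h2
  have h3 : ‖z - w‖ ^ 2 = (z - w).re ^ 2 + (z - w).im ^ 2 := by
    rw [Complex.sq_norm, Complex.normSq_apply]
    ring
  rw [← h3] at h2
  exact (pow_left_inj₀ (norm_nonneg _) (norm_nonneg _) two_ne_zero).1 h2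

theorem em_inj (h : Gn n) (a : A) : Function.Injective (em n a) := by
  intro z w hzw
  have h1 := em_norm h a z w
  rw [hzw, sub_self, norm_zero] at h1
  exact sub_eq_zero.1 (norm_eq_zero.1 h1.symm)

theorem em_cont (a : A) : Continuous (em n a) := by
  unfold em
  fun_prop

theorem em_line (a : A) (z w : ℂ) (t : ℝ) : em n a (AffineMap.lineMap z w t) = AffineMap.lineMap (em n a z) (em n a w) t := by
  rw [AffineMap.lineMap_apply_module, AffineMap.lineMap_apply_module]
  unfold em
  rw [Complex.add_re, Complex.add_im, Complex.smul_re, Complex.smul_im, Complex.smul_re, Complex.smul_im]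
  simp only [smul_eq_mul]
  module

theorem em_emb (h : Gn n) (a : A) : Topology.IsClosedEmbedding (em n a) := by
  have h1 : Isometry (em n a) := Isometry.of_dist_eq fun x y => by rw [dist_eq_norm, dist_eq_norm, em_norm h]
  exact h1.isClosedEmbedding


end ALX
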