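import Pool.Agent.Lib.ALX.D6B
import Pool.Agent.Lib.ALX.P17

/-! # ALX, chunk D6C (M): the area measure on the cells -/

open Real MeasureTheory

namespace ALX

open H47A (E3 cross3 det3 pl)

variable {A : Type} [Fintype A] [DecidableEq A] {n : A → E3} {a0 : A} {q : E3}

theorem d6c_mp {f : ℂ → ℂ} (h : Isometry f) : MeasurePreserving f volume volume := by
  have h1 : f = (fun z => z + f 0) ∘ (h.affineIsometryOfStrictConvexSpace.linearIsometry.toLinearIsometryEquiv rfl : ℂ ≃ₗᵢ[ℝ] ℂ) := by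
    funext z
    have h2 := h.affineIsometryOfStrictConvexSpace.map_vadd (0 : ℂ) z
    rw [vadd_eq_add, vadd_eq_add, add_zero] at h2
    exact h2
  rw [h1]
  exact (measurePreserving_add_right volume (f 0)).comp (LinearIsometryEquiv.measurePreserving _)

theorem d6c_psi (hG : Gn n) (hq : At n q {a0}) {a : A} {T : E3 ≃ᵃⁱ[ℝ] E3} (hT : T ∈ Img n a0 q a) :
    ∃ f : ℂ → ℂ, MeasurePreserving f volume volume ∧ ∀ z, em n a (f z) = T.symm (cd n a0 q z) := by
  have h1 : ∀ z, ∃ w, em n a w = T.symm (cd n a0 q z) := by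
    intro z
    refine em_surj hG ?_
    rw [capi_plane hG (capi_GG hG hq a hT), AffineIsometryEquiv.apply_symm_apply]
    exact lf_cd hG hq z
  choose f hf using h1
  refine ⟨f, d6c_mp (Isometry.of_dist_eq fun z w => ?_), hf⟩
  rw [dist_eq_norm, dist_eq_norm, ← em_norm hG a, hf, hf, ← dist_eq_norm, T.symm.dist_map, dist_eq_norm, dist_cd hG]

/-- PROOF. `em n a` is a continuous injective map onto the plane of `a` (`lf n a = 1`; `capi_fr`, `exists_dr`-like), `‖em n a z - em n a z'‖ = ‖z - z'‖`. So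
`ψ z = em n a ⁻¹ (T.symm (cd n a0 q z))` is an isometry of `ℂ`: explicitly `ψ z = ⟨⟪T.symm (cd z), f1⟫, ⟪T.symm (cd z), f2⟫⟩`, `em n a (ψ z) = T.symm (cd z)` (`T.symm (cd z)` is in the plane of `a`: `capi_plane`), `‖ψ z - ψ z'‖ = ‖z - z'‖`, surjective. An isometry of `ℂ` preserves the
volume (`IsometryEquiv`/`LinearIsometryEquiv.measurePreserving`, translation; or `Isometry` + Hausdorff measure; or `ψ z = c + α z` or `c + α conj z` with `|α| = 1`:
`linear_isometry_complex`). Then `∫⁻ x in Cl, g ∂map (em) volume = ∫⁻ w in em⁻¹ Cl, g (em w) = ∫⁻ z in ψ⁻¹ (em⁻¹ Cl), g (em (ψ z))` and `ψ⁻¹ (em⁻¹ Cl) = Ch`. -/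
theorem cell_int (hG : Gn n) (hq : At n q {a0}) {a : A} {T : E3 ≃ᵃⁱ[ℝ] E3} (hT : T ∈ Img n a0 q a) {g : E3 → ENNReal}
    (hg : Measurable g) :
    ∫⁻ x in Cl n q a T, g x ∂(Measure.map (em n a) volume) = ∫⁻ z in Ch n a0 q (a, T), g (T.symm (cd n a0 q z)) := by
  obtain ⟨f, hf, he⟩ := d6c_psi hG hq hT
  have hm : MeasurableSet (Cl n q a T) := (cl_conv hG hq hT).1.isClosed.measurableSet
  have hem : Measurable (em n a) := (em_cont a).measurable
  have h0 := hf.setLIntegral_comp_preimage (hem hm) (hg.comp hem)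
  rw [setLIntegral_map hm hg hem]
  refine h0.symm.trans ?_
  have h1 : f ⁻¹' (em n a ⁻¹' Cl n q a T) = Ch n a0 q (a, T) := by
    ext z
    rw [Set.mem_preimage, Set.mem_preimage, he]
    rfl
  rw [h1]
  refine lintegral_congr fun z => ?_
  rw [Function.comp_apply, he]

end ALX
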