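import Pool.Agent.Lib.ALX.D6D1

/-! # ALX, chunk D6D2 (M): integrals of functions of the distance -/

open Real MeasureTheory

namespace ALX

open H47A (E3 cross3 det3 pl)

variable {A : Type} [Fintype A] [DecidableEq A] {n : A → E3} {a0 : A} {q : E3}

/-- PROOF. `bd n` is closed (a finite union of the `Fc n a`, `capi_Fc`) and `dl n q` is continuous on `bd n` (`capi_cont`), so the function `g x = h (dl n q x)` for `x ∈ bd n`, `0` otherwise, is measurable
(`Measurable.piecewise`, `ContinuousOn.measurable_piecewise`); `ar n` is zero on the complement of `bd n`, so `∫⁻ h (dl n q x) ∂ar = ∫⁻ g ∂ar`; `ar_int`; on `Ch n a0 q s`: `s.2.symm (cd z) ∈ Cl ⊆ bd n`, its distance is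
`‖cd z - q‖ = ‖z‖` (`norm_cd`). -/
theorem ar_int_dl (hG : Gn n) (hg : Gen n a0 q) {h : ℝ → ENNReal} (hh : Measurable h) :
    ∫⁻ x, h (dl n q x) ∂(ar n) = ∑ s ∈ SF n a0 q, ∫⁻ z in Ch n a0 q s, h ‖z‖ := by
  classical
  have hq := hg.loc
  have hFb : ∀ (a : A) (x : E3), x ∈ Fc n a → x ∈ bd n := fun a x hx => ⟨hx.1, a, hx.2⟩
  have hbd : bd n = ⋃ a, Fc n a := by
    ext x
    simp [bd, Fc]
  have hbm : MeasurableSet (bd n) := by
    rw [hbd]
    exact MeasurableSet.iUnion fun a => (capi_Fc hG a).1.measurableSet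
  have hqb : q ∈ bd n := by
    refine ⟨hq.1, a0, ?_⟩
    have h1 : a0 ∈ Ac n q := by
      rw [hq.2]
      exact Finset.mem_singleton_self a0
    unfold Ac at h1
    simpa using h1
  set d' : E3 → ℝ := (bd n).piecewise (fun y => dl n q y) (fun _ => (0 : ℝ)) with hd'
  have hdm : Measurable d' := (capi_cont hG hqb).measurable_piecewise continuousOn_const hbm
  set g : E3 → ENNReal := fun x => if x ∈ bd n then h (d' x) else 0 with hgd
  have hgm : Measurable g := Measurable.ite hbm (hh.comp hdm) measurable_const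
  have hgv : ∀ x ∈ bd n, g x = h (dl n q x) := by
    intro x hx
    have h1 : d' x = dl n q x := Set.piecewise_eq_of_mem _ _ _ hx
    rw [hgd]
    simp only [hx, if_true, h1]
  have h1 : ∫⁻ x, h (dl n q x) ∂(ar n) = ∫⁻ x, g x ∂(ar n) := by
    unfold ar
    rw [lintegral_sum_measure, lintegral_sum_measure]
    refine tsum_congr fun a => ?_
    refine setLIntegral_congr_fun (capi_Fc hG a).1.measurableSet fun x hx => ?_
    exact (hgv x (hFb a x hx)).symm
  rw [h1, ar_int hG hg hgm]
  refine Finset.sum_congr rfl fun s hs => ?_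
  have hsI := (mem_SF hG hq s).1 hs
  refine setLIntegral_congr_fun (ch_closed hG hq hsI).measurableSet fun z hz => ?_
  have hz' : s.2.symm (cd n a0 q z) ∈ Cl n q s.1 s.2 := hz
  have h2 : dl n q (s.2.symm (cd n a0 q z)) = ‖z‖ := by
    rw [hz'.2, AffineIsometryEquiv.apply_symm_apply, norm_cd hG]
  change g (s.2.symm (cd n a0 q z)) = h ‖z‖
  rw [hgv _ (hFb _ _ hz'.1), h2]

end ALX
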