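import Pool.Agent.Lib.ALX.P17

/-!
# ALX, chunk P20 (M): lines in a facet plane are null sets

PROOF. In the chart the condition `inner w x = c` is `α re z + β im z = γ` with `α = inner w (fr n a).1`, `β = inner w (fr n a).2` not both zero (P16 fr_expand for `v`): a line in `ℂ`, a proper affine
subspace, so a null set (MeasureTheory.Measure.addHaar_affineSubspace), or H47A.plane_null-like argument. `vol_edge`: `w = n b`, `v = ed`-like direction: `v = cross3 (n a) (cross3 (n a) (n b))`,
`inner (n b) v = ∓ ‖cross3 (n a) (n b)‖^2 ≠ 0` (Gn.cross). `vol_sphere`: circles are null sets (MeasureTheory.Measure.addHaar_sphere, em_norm).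
-/

open Real MeasureTheory Filter Topology

namespace ALX

open H47A (E3 cross3 det3 pl)

variable {A : Type} [Fintype A] [DecidableEq A] {n : A → E3}

theorem vol_aff (h : Gn n) {a : A} {w v : E3} {c : ℝ} (hv : inner ℝ (n a) v = (0 : ℝ)) (hw : inner ℝ w v ≠ (0 : ℝ)) :
    volume (em n a ⁻¹' {x | inner ℝ w x = c}) = 0 := by
  set α : ℝ := inner ℝ w (fr n a).1 with hα
  set β : ℝ := inner ℝ w (fr n a).2 with hβ
  let L : ℂ →ₗ[ℝ] ℝ :=
    { toFun := fun z => z.re * α + z.im * β
      map_add' := fun x y => by rw [Complex.add_re, Complex.add_im]; ring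
      map_smul' := fun r x => by
        rw [Complex.smul_re, Complex.smul_im, smul_eq_mul, smul_eq_mul, smul_eq_mul, RingHom.id_apply]; ring }
  have hL : ∀ z, L z = z.re * α + z.im * β := fun z => rfl
  have hem : ∀ z z0 : ℂ, inner ℝ w (em n a z) - inner ℝ w (em n a z0) = L (z - z0) := by
    intro z z0
    rw [hL, Complex.sub_re, Complex.sub_im]
    unfold em
    rw [inner_add_right, inner_add_right, inner_add_right, inner_add_right, inner_smul_right, inner_smul_right,
      inner_smul_right, inner_smul_right, inner_smul_right, ← hα, ← hβ]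
    ring
  have hker : LinearMap.ker L ≠ ⊤ := by
    intro ht
    have h1 : L 1 = 0 := by
      have : (1 : ℂ) ∈ LinearMap.ker L := by rw [ht]; trivial
      exact this
    have h2 : L Complex.I = 0 := by
      have : Complex.I ∈ LinearMap.ker L := by rw [ht]; trivial
      exact this
    rw [hL, Complex.one_re, Complex.one_im] at h1
    rw [hL, Complex.I_re, Complex.I_im] at h2
    apply hw
    rw [fr_expand h hv, inner_add_right, inner_smul_right, inner_smul_right, ← hα, ← hβ]
    have ha0 : α = 0 := by linarith
    have hb0 : β = 0 := by linarith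
    rw [ha0, hb0, mul_zero, mul_zero, add_zero]
  rcases Set.eq_empty_or_nonempty (em n a ⁻¹' {x | inner ℝ w x = c}) with he | ⟨z0, hz0⟩
  · rw [he]; exact measure_empty
  · have hs : em n a ⁻¹' {x | inner ℝ w x = c} ⊆ (AffineSubspace.mk' z0 (LinearMap.ker L) : Set ℂ) := by
      intro z hz
      rw [SetLike.mem_coe, AffineSubspace.mem_mk', vsub_eq_sub, LinearMap.mem_ker, ← hem]
      have e1 : inner ℝ w (em n a z) = c := hz
      have e2 : inner ℝ w (em n a z0) = c := hz0
      rw [e1, e2, sub_self]
    refine measure_mono_null hs (Measure.addHaar_affineSubspace volume _ ?_)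
    intro ht
    apply hker
    rw [← AffineSubspace.direction_mk' z0 (LinearMap.ker L), ht, AffineSubspace.direction_top]

theorem vol_edge (h : Gn n) {a b : A} (hab : a ≠ b) : volume (em n a ⁻¹' {x | lf n b x = 1}) = 0 := by
  have hc := h.cross hab
  refine vol_aff h (v := cross3 (n a) (cross3 (n a) (n b))) (w := n b) ?_ ?_
  · rw [real_inner_comm]
    exact H47A.cross3_self_left _ _
  · have e : inner ℝ (n b) (cross3 (n a) (cross3 (n a) (n b))) = -(‖cross3 (n a) (n b)‖ ^ 2 : ℝ) := by
      simp only [H47A.evec_norm, H47A.inner3, H47A.evec_c0, H47A.evec_c1, H47A.evec_c2]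
      ring
    rw [e]
    have : ‖cross3 (n a) (n b)‖ ≠ 0 := norm_ne_zero_iff.2 hc
    exact neg_ne_zero.2 (pow_ne_zero 2 this)

end ALX
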