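import Pool.Agent.Lib.ALX.D6C
import Pool.Agent.Lib.ALX.D5
import Pool.Agent.Lib.ALX.P20

/-! # ALX, chunk D6D1 (M): cells overlap in null sets; integrals over the boundary as sums over the cells -/

open Real MeasureTheory

namespace ALX

open H47A (E3 cross3 det3 pl)

variable {A : Type} [Fintype A] [DecidableEq A] {n : A → E3} {a0 : A} {q : E3}

theorem d6d1_lfq (hq : At n q {a0}) : lf n a0 q = 1 := by
  have : a0 ∈ Ac n q := by rw [hq.2]; exact Finset.mem_singleton_self a0
  simpa [Ac] using this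

/-- Two cells of a facet overlap in a null set. PROOF. `p = T.symm q ≠ p' = T'.symm q` (`hg.ne`), both in the plane of `a`; the points `em n a z` with `‖y - p‖ = ‖y - p'‖`
(`norm_unf`) are on a line of the plane: `{z | ⟪em n a z, p - p'⟫ = c}` with `p - p'` a combination of `f1`, `f2` which is not `0`: a proper affine
subspace of `ℂ` (`Measure.addHaar_affineSubspace`), or a level set of `z ↦ α re z + β im z`. -/
theorem overlap_null (hG : Gn n) (hg : Gen n a0 q) {a : A} {T T' : E3 ≃ᵃⁱ[ℝ] E3} (hT : T ∈ Img n a0 q a)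
    (hT' : T' ∈ Img n a0 q a) (hne : T ≠ T') : Measure.map (em n a) volume (Cl n q a T ∩ Cl n q a T') = 0 := by
  have hq := hg.loc
  have hGT := capi_GG hG hq a hT
  have hGT' := capi_GG hG hq a hT'
  have hp : T.symm q ≠ T'.symm q := hg.ne a T hGT T' hGT' hne
  have hlq := d6d1_lfq hq
  have hpl : ∀ {S : E3 ≃ᵃⁱ[ℝ] E3}, S ∈ GG n a0 a → lf n a (S.symm q) = 1 := by
    intro S hS
    rw [capi_plane hG hS, AffineIsometryEquiv.apply_symm_apply]
    exact hlq
  have hv : inner ℝ (n a) (T.symm q - T'.symm q) = (0 : ℝ) := by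
    have h1 := hpl hGT
    have h2 := hpl hGT'
    unfold lf at h1 h2
    rw [inner_sub_right, h1, h2, sub_self]
  have hw : inner ℝ (T.symm q - T'.symm q) (T.symm q - T'.symm q) ≠ (0 : ℝ) := by
    rw [Ne, inner_self_eq_zero]
    exact sub_ne_zero.2 hp
  have hm : MeasurableSet (Cl n q a T ∩ Cl n q a T') :=
    ((cl_conv hG hq hT).1.isClosed.measurableSet).inter (cl_conv hG hq hT').1.isClosed.measurableSet
  rw [Measure.map_apply (em_cont a).measurable hm]
  refine measure_mono_null ?_ (vol_aff hG (a := a) (w := T.symm q - T'.symm q) (c := (‖T.symm q‖ ^ 2 - ‖T'.symm q‖ ^ 2) / 2) hv hw)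
  intro z hz
  have h1 : ‖T (em n a z) - q‖ = ‖T' (em n a z) - q‖ := hz.1.2.symm.trans hz.2.2
  rw [norm_unf, norm_unf] at h1
  have h2 : ‖em n a z - T.symm q‖ ^ 2 = ‖em n a z - T'.symm q‖ ^ 2 := by rw [h1]
  rw [norm_sub_sq_real, norm_sub_sq_real] at h2
  change inner ℝ (T.symm q - T'.symm q) (em n a z) = _
  rw [inner_sub_left, real_inner_comm (em n a z) (T.symm q), real_inner_comm (em n a z) (T'.symm q)]
  linarith

/-- PROOF. `ar n` is the sum over the facets; `Fc n a` is the union of the finitely many cells (`capi_exists`, closed: `cl_conv`), which are pairwise disjoint up to null sets (`overlap_null`;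
`lintegral_biUnion_finset₀` or `lintegral_finset_biUnion`, `AEDisjoint`); `cell_int`; the sum over `a` and over `Img n a0 q a` is the sum over `SF` (`mem_SF`, `Finset.sum_sigma'`-like, or
`Finset.sum_fiberwise` with `s ↦ s.1`). -/
theorem ar_int (hG : Gn n) (hg : Gen n a0 q) {g : E3 → ENNReal} (hm : Measurable g) :
    ∫⁻ x, g x ∂(ar n) = ∑ s ∈ SF n a0 q, ∫⁻ z in Ch n a0 q s, g (s.2.symm (cd n a0 q z)) := by
  classical
  have hq := hg.loc
  have hfin : ∀ a, (Img n a0 q a).Finite := fun a => capi_finite hG hq a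
  rw [Finset.sum_finset_product (SF n a0 q) Finset.univ (fun a => (hfin a).toFinset)
    (fun p => by simp [mem_SF hG hq p])]
  unfold ar
  rw [lintegral_sum_measure, tsum_fintype]
  refine Finset.sum_congr rfl fun a _ => ?_
  have hF : Fc n a = ⋃ T ∈ (hfin a).toFinset, Cl n q a T := by
    ext y
    simp only [Set.Finite.mem_toFinset, Set.mem_iUnion, exists_prop]
    constructor
    · intro hy
      exact capi_exists hG hq hy
    · rintro ⟨T, _, hT⟩
      exact hT.1
  rw [hF, lintegral_biUnion_finset₀]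
  · refine Finset.sum_congr rfl fun T hT => ?_
    exact cell_int hG hq ((hfin a).mem_toFinset.1 hT) hm
  · intro T hT T' hT' hne
    exact overlap_null hG hg ((hfin a).mem_toFinset.1 hT) ((hfin a).mem_toFinset.1 hT') hne
  · intro T hT
    exact (cl_conv hG hq ((hfin a).mem_toFinset.1 hT)).1.isClosed.measurableSet.nullMeasurableSet

end ALX
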