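import Pool.Agent.Lib.ALX.P02
import Pool.Agent.Lib.H47A.EAct

/-!
# ALX, chunk P16 (S/M): frames of the facet planes

PROOF. `IsFr`: a unit vector `e` orthogonal to `n a` (H47A.eact_orth, or `cross3 (n a) w / norm` for a suitable coordinate vector `w`), the pair `(e, cross3 (nu n a) e)`; H47A.cross3_norm, and
`cross3 e (cross3 ν e) = (‖e‖^2) • ν - (inner e ν) • e = ν`. `fr_spec`: dif_pos, choose_spec.
`fr_expand`: `(fr.1, fr.2, nu)` is an orthonormal basis (H47A.cramer or frame_norm: the difference is orthogonal to the three vectors).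
-/

open Real MeasureTheory Filter Topology

namespace ALX

open H47A (E3 cross3 det3 pl)

variable {A : Type} [Fintype A] [DecidableEq A] {n : A → E3}

theorem p16_cross {ν e : E3} (hν : ‖ν‖ = 1) (he : ‖e‖ = 1) (h : inner ℝ ν e = (0 : ℝ)) :
    cross3 e (cross3 ν e) = ν := by
  have h2 := H47A.evec_norm e
  rw [he] at h2
  rw [H47A.inner3] at h
  refine H47A.evec_ext ?_ ?_ ?_
  · rw [H47A.evec_c0, H47A.evec_c1, H47A.evec_c2]
    linear_combination -(ν 0) * h2 - e 0 * h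
  · rw [H47A.evec_c1, H47A.evec_c0, H47A.evec_c2]
    linear_combination -(ν 1) * h2 - e 1 * h
  · rw [H47A.evec_c2, H47A.evec_c0, H47A.evec_c1]
    linear_combination -(ν 2) * h2 - e 2 * h

theorem p16_exists (h : Gn n) (a : A) : ∃ p, IsFr n a p := by
  obtain ⟨u, hu0, hu, -⟩ := H47A.eact_orth (n a) 0
  have hun : 0 < ‖u‖ := norm_pos_iff.mpr hu0
  have he : ‖‖u‖⁻¹ • u‖ = 1 := by
    rw [norm_smul, norm_inv, norm_norm, inv_mul_cancel₀ hun.ne']
  have ho : inner ℝ (n a) (‖u‖⁻¹ • u) = (0 : ℝ) := by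
    rw [inner_smul_right, hu, mul_zero]
  have hoν : inner ℝ (nu n a) (‖u‖⁻¹ • u) = (0 : ℝ) := (nu_inner_zero h a _).2 ho
  have hν := nu_norm h a
  have hc : ‖cross3 (nu n a) (‖u‖⁻¹ • u)‖ = 1 := by
    have h1 := H47A.cross3_norm (nu n a) (‖u‖⁻¹ • u)
    rw [hν, he, hoν] at h1
    have h2 : ‖cross3 (nu n a) (‖u‖⁻¹ • u)‖ ^ 2 = 1 := by rw [h1]; norm_num
    nlinarith [norm_nonneg (cross3 (nu n a) (‖u‖⁻¹ • u))]
  refine ⟨(‖u‖⁻¹ • u, cross3 (nu n a) (‖u‖⁻¹ • u)), he, hc, ?_, ho, ?_, p16_cross hν he hoν⟩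
  · change inner ℝ (‖u‖⁻¹ • u) (cross3 (nu n a) (‖u‖⁻¹ • u)) = (0 : ℝ)
    rw [real_inner_comm]
    exact H47A.cross3_self_right _ _
  · change inner ℝ (n a) (cross3 (nu n a) (‖u‖⁻¹ • u)) = (0 : ℝ)
    rw [← nu_inner_zero h, real_inner_comm]
    exact H47A.cross3_self_left _ _

theorem fr_spec (h : Gn n) (a : A) : IsFr n a (fr n a) := by
  have h1 := p16_exists h a
  unfold fr
  rw [dif_pos h1]
  exact h1.choose_spec

theorem fr_expand (h : Gn n) {a : A} {w : E3} (hw : inner ℝ (n a) w = (0 : ℝ)) :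
    w = (inner ℝ (fr n a).1 w : ℝ) • (fr n a).1 + (inner ℝ (fr n a).2 w : ℝ) • (fr n a).2 := by
  have hf := fr_spec h a
  have hn1 : inner ℝ (nu n a) (fr n a).1 = (0 : ℝ) := (nu_inner_zero h a _).2 hf.o1
  have hn2 : inner ℝ (nu n a) (fr n a).2 = (0 : ℝ) := (nu_inner_zero h a _).2 hf.o2
  have hnw : inner ℝ (nu n a) w = (0 : ℝ) := (nu_inner_zero h a _).2 hw
  have hc : cross3 (fr n a).1 (fr n a).2 ≠ 0 := by
    rw [hf.ori]
    intro h0
    have h1 := nu_norm h a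
    rw [h0, norm_zero] at h1
    exact zero_ne_one h1
  have h11 : inner ℝ (fr n a).1 (fr n a).1 = (1 : ℝ) := by
    rw [real_inner_self_eq_norm_sq, hf.n1, one_pow]
  have h22 : inner ℝ (fr n a).2 (fr n a).2 = (1 : ℝ) := by
    rw [real_inner_self_eq_norm_sq, hf.n2, one_pow]
  have h21 : inner ℝ (fr n a).2 (fr n a).1 = (0 : ℝ) := by
    rw [real_inner_comm]
    exact hf.o12
  set z : E3 := w - ((inner ℝ (fr n a).1 w : ℝ) • (fr n a).1 + (inner ℝ (fr n a).2 w : ℝ) • (fr n a).2) with hz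
  have z1 : inner ℝ (fr n a).1 z = (0 : ℝ) := by
    rw [hz, inner_sub_right, inner_add_right, inner_smul_right, inner_smul_right, h11, hf.o12]
    ring
  have z2 : inner ℝ (fr n a).2 z = (0 : ℝ) := by
    rw [hz, inner_sub_right, inner_add_right, inner_smul_right, inner_smul_right, h22, h21]
    ring
  obtain ⟨c, hzc⟩ := H47A.perp_two hc z1 z2
  rw [hf.ori] at hzc
  have z3 : inner ℝ (nu n a) z = (0 : ℝ) := by
    rw [hz, inner_sub_right, inner_add_right, inner_smul_right, inner_smul_right, hn1, hn2, hnw]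
    ring
  rw [hzc, inner_smul_right, real_inner_self_eq_norm_sq, nu_norm h a] at z3
  have hc0 : c = 0 := by linarith
  rw [hc0, zero_smul] at hzc
  rw [hz] at hzc
  exact sub_eq_zero.mp hzc

theorem fr_norm (h : Gn n) (a : A) (s t : ℝ) : ‖s • (fr n a).1 + t • (fr n a).2‖ ^ 2 = s ^ 2 + t ^ 2 := by
  have hf := fr_spec h a
  rw [@norm_add_sq_real, norm_smul, norm_smul, real_inner_smul_left, inner_smul_right, hf.n1, hf.n2, hf.o12,
    mul_one, mul_one, Real.norm_eq_abs, Real.norm_eq_abs, sq_abs, sq_abs]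
  ring


end ALX
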