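import Pool.Agent.Lib.ALX.D0B
import Pool.Agent.Lib.ALX.P16

/-! # ALX, chunk D7A (S/M): directions -/

open Real MeasureTheory

namespace ALX

open H47A (E3 cross3 det3 pl)

variable {A : Type} [Fintype A] [DecidableEq A] {n : A → E3} {a0 : A} {q : E3}

/-- PROOF. `capi_fr`. -/
theorem dir_dr (hG : Gn n) (a : A) (θ : ℝ) : Dir n a (dr n a θ) := by
  have hf := fr_spec hG a
  refine ⟨?_, ?_⟩
  · have h1 := fr_norm hG a (Real.cos θ) (Real.sin θ)
    rw [Real.cos_sq_add_sin_sq] at h1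
    have h2 : ‖dr n a θ‖ ^ 2 = 1 := h1
    nlinarith [norm_nonneg (dr n a θ)]
  · unfold dr
    rw [inner_add_right, inner_smul_right, inner_smul_right, hf.o1, hf.o2, mul_zero, mul_zero, add_zero]

theorem d7a_inner (hG : Gn n) (a : A) (θ : ℝ) : inner ℝ (fr n a).1 (dr n a θ) = Real.cos θ ∧
    inner ℝ (fr n a).2 (dr n a θ) = Real.sin θ := by
  have hf := fr_spec hG a
  have h11 : inner ℝ (fr n a).1 (fr n a).1 = (1 : ℝ) := by
    rw [real_inner_self_eq_norm_sq, hf.n1, one_pow]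
  have h22 : inner ℝ (fr n a).2 (fr n a).2 = (1 : ℝ) := by
    rw [real_inner_self_eq_norm_sq, hf.n2, one_pow]
  have h21 : inner ℝ (fr n a).2 (fr n a).1 = (0 : ℝ) := by
    rw [real_inner_comm]
    exact hf.o12
  unfold dr
  constructor
  · rw [inner_add_right, inner_smul_right, inner_smul_right, h11, hf.o12, mul_zero, mul_one, add_zero]
  · rw [inner_add_right, inner_smul_right, inner_smul_right, h22, h21, mul_zero, mul_one, zero_add]

/-- PROOF. The vectors `n a`, `(fr n a).1`, `(fr n a).2` are orthogonal and not `0` (`capi_fr`), so `u` with `⟪n a, u⟫ = 0` is `⟪u, f1⟫ f1 + ⟪u, f2⟫ f2`, `‖u‖ = 1`: the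
coefficients are `cos θ`, `sin θ` with `θ = arg` of the complex number. -/
theorem exists_dr (hG : Gn n) (a : A) {u : E3} (hu : Dir n a u) : ∃ θ : ℝ, u = dr n a θ := by
  have h1 := fr_expand hG hu.2
  have h2 := fr_norm hG a (inner ℝ (fr n a).1 u) (inner ℝ (fr n a).2 u)
  rw [← h1, hu.1] at h2
  let z : ℂ := ⟨inner ℝ (fr n a).1 u, inner ℝ (fr n a).2 u⟩
  have hz : ‖z‖ = 1 := by
    have h3 : ‖z‖ ^ 2 = 1 := by
      rw [Complex.sq_norm, Complex.normSq_apply]
      change (inner ℝ (fr n a).1 u : ℝ) * inner ℝ (fr n a).1 u + (inner ℝ (fr n a).2 u : ℝ) * inner ℝ (fr n a).2 u = 1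
      linarith
    nlinarith [norm_nonneg z]
  refine ⟨z.arg, ?_⟩
  have hc := Complex.norm_mul_cos_arg z
  have hs := Complex.norm_mul_sin_arg z
  rw [hz, one_mul] at hc hs
  unfold dr
  rw [hc, hs]
  exact h1

/-- PROOF. `cos θ = cos θ'`, `sin θ = sin θ'`. -/
theorem dr_inj (hG : Gn n) (a : A) {θ θ' : ℝ} (h : dr n a θ = dr n a θ') : ∃ k : ℤ, θ' = θ + 2 * π * k := by
  have h1 := d7a_inner hG a θ
  have h2 := d7a_inner hG a θ'
  rw [h] at h1
  have hc : Real.cos θ' = Real.cos θ := h2.1.symm.trans h1.1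
  have hs : Real.sin θ' = Real.sin θ := h2.2.symm.trans h1.2
  obtain ⟨k, hk⟩ := Real.Angle.angle_eq_iff_two_pi_dvd_sub.1 (Real.Angle.cos_sin_inj hc hs)
  exact ⟨k, by linarith⟩

/-- PROOF. `cos`, `sin` are continuous. -/
theorem dr_cont (a : A) : Continuous (dr n a) := by
  unfold dr
  fun_prop

/-- PROOF. Two elements `θ`, `θ'` have `dr θ = (t)⁻¹ • (y - q) = dr θ'` (`t = ‖y - q‖`), so they differ by a multiple of `2 π`. -/
theorem hit_countable (hG : Gn n) (y : E3) : {θ : ℝ | ∃ t : ℝ, 0 < t ∧ q + t • dr n a0 θ = y}.Countable := by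
  rcases Set.eq_empty_or_nonempty {θ : ℝ | ∃ t : ℝ, 0 < t ∧ q + t • dr n a0 θ = y} with he | ⟨θ0, t0, ht0, h0⟩
  · rw [he]; exact Set.countable_empty
  · refine (Set.countable_range (fun k : ℤ => θ0 + 2 * π * k)).mono ?_
    rintro θ ⟨t, ht, h⟩
    have e1 : t • dr n a0 θ = t0 • dr n a0 θ0 := by
      have h3 := h.trans h0.symm
      exact add_left_cancel h3
    have e2 : t = t0 := by
      have h4 := congrArg norm e1
      rw [norm_smul, norm_smul, (dir_dr hG a0 θ).1, (dir_dr hG a0 θ0).1, mul_one, mul_one, Real.norm_eq_abs,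
        Real.norm_eq_abs, abs_of_pos ht, abs_of_pos ht0] at h4
      exact h4
    rw [e2] at e1
    have e3 : dr n a0 θ0 = dr n a0 θ := (smul_right_injective _ ht0.ne' e1).symm
    obtain ⟨k, hk⟩ := dr_inj hG a0 e3
    exact ⟨k, hk.symm⟩

/-- PROOF. `f w = ⟪m, w⟫` is not zero on the directions of the plane of `a0`: `f (dr θ) = α cos θ + β sin θ` with `(α, β) ≠ 0`; two zeros differ by a multiple of
`π` (`sin (θ - θ') = 0`). -/
theorem zero_countable (hG : Gn n) {m : E3} (hm : ∃ θ : ℝ, inner ℝ m (dr n a0 θ) ≠ (0 : ℝ)) :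
    {θ : ℝ | inner ℝ m (dr n a0 θ) = (0 : ℝ)}.Countable := by
  have hf : ∀ θ, inner ℝ m (dr n a0 θ) = Real.cos θ * inner ℝ m (fr n a0).1 + Real.sin θ * inner ℝ m (fr n a0).2 := by
    intro θ
    unfold dr
    rw [inner_add_right, inner_smul_right, inner_smul_right]
  rcases Set.eq_empty_or_nonempty {θ : ℝ | inner ℝ m (dr n a0 θ) = (0 : ℝ)} with he | ⟨θ0, h0⟩
  · rw [he]; exact Set.countable_empty
  · refine (Set.countable_range (fun k : ℤ => θ0 + k * π)).mono ?_
    intro θ h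
    have e0 : inner ℝ m (dr n a0 θ0) = (0 : ℝ) := h0
    have e1 : inner ℝ m (dr n a0 θ) = (0 : ℝ) := h
    obtain ⟨θ1, h1⟩ := hm
    rw [hf] at e0 e1 h1
    have h2 : Real.sin (θ - θ0) = 0 := by
      rw [Real.sin_sub]
      by_contra h3
      apply h1
      have ha : inner ℝ m (fr n a0).1 = (0 : ℝ) := by
        have : (Real.sin θ * Real.cos θ0 - Real.cos θ * Real.sin θ0) * inner ℝ m (fr n a0).1 = (0 : ℝ) := by
          linear_combination Real.sin θ * e0 - Real.sin θ0 * e1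
        exact (mul_eq_zero.1 this).resolve_left h3
      have hb : inner ℝ m (fr n a0).2 = (0 : ℝ) := by
        have : (Real.sin θ * Real.cos θ0 - Real.cos θ * Real.sin θ0) * inner ℝ m (fr n a0).2 = (0 : ℝ) := by
          linear_combination Real.cos θ0 * e1 - Real.cos θ * e0
        exact (mul_eq_zero.1 this).resolve_left h3
      rw [ha, hb, mul_zero, mul_zero, add_zero]
    obtain ⟨k, hk⟩ := Real.sin_eq_zero_iff.1 h2
    exact ⟨k, by change θ0 + k * π = θ; rw [hk]; ring⟩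

/-- PROOF. `T.symm.linear` maps the directions of the plane of `a0` onto the directions of the plane of `a` (`capi_dir`), the plane of `a` has a direction `w` with `lf n b w ≠ 0`: otherwise `n b` is a
multiple of `n a` (`cross3 (n a) (n b) = 0`, but `hG.three` with a third facet, see `edge_nbh`). `lf n b (T.symm.linear v) = ⟪T.linear (n b), v⟫`; `zero_countable`. -/
theorem line_countable (hG : Gn n) (hq : At n q {a0}) {a b : A} (hab : b ≠ a) {T : E3 ≃ᵃⁱ[ℝ] E3} (hT : T ∈ Img n a0 q a) :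
    {θ : ℝ | lf n b (T.symm.linearIsometryEquiv (dr n a0 θ)) = 0}.Countable := by
  have hs : ∀ v, T.symm.linearIsometryEquiv v = T.linearIsometryEquiv.symm v := fun v => rfl
  have hin : ∀ v, lf n b (T.symm.linearIsometryEquiv v) = inner ℝ (T.linearIsometryEquiv (n b)) v := by
    intro v
    rw [hs, lf, ← LinearIsometryEquiv.inner_map_map T.linearIsometryEquiv, LinearIsometryEquiv.apply_symm_apply]
  have hc := hG.cross hab.symm
  set w : E3 := cross3 (n a) (cross3 (n a) (n b)) with hw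
  have hw1 : inner ℝ (n a) w = (0 : ℝ) := by
    rw [real_inner_comm]
    exact H47A.cross3_self_left _ _
  have hw2 : inner ℝ (n b) w ≠ (0 : ℝ) := by
    have e : inner ℝ (n b) w = -(‖cross3 (n a) (n b)‖ ^ 2 : ℝ) := by
      rw [hw]
      simp only [H47A.evec_norm, H47A.inner3, H47A.evec_c0, H47A.evec_c1, H47A.evec_c2]
      ring
    rw [e]
    have : ‖cross3 (n a) (n b)‖ ≠ 0 := norm_ne_zero_iff.2 hc
    exact neg_ne_zero.2 (pow_ne_zero 2 this)
  have hwn : ‖w‖ ≠ 0 := by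
    intro h0
    apply hw2
    rw [norm_eq_zero.1 h0, inner_zero_right]
  have hd : Dir n a (‖w‖⁻¹ • w) := by
    refine ⟨?_, ?_⟩
    · rw [norm_smul, norm_inv, norm_norm, inv_mul_cancel₀ hwn]
    · rw [inner_smul_right, hw1, mul_zero]
  obtain ⟨θ, hθ⟩ := exists_dr hG a0 ((capi_dir hG (capi_GG hG hq a hT) _).1 hd)
  have hset : {θ : ℝ | lf n b (T.symm.linearIsometryEquiv (dr n a0 θ)) = 0}
      = {θ : ℝ | inner ℝ (T.linearIsometryEquiv (n b)) (dr n a0 θ) = (0 : ℝ)} := by
    ext θ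
    rw [Set.mem_setOf_eq, Set.mem_setOf_eq, hin]
  rw [hset]
  refine zero_countable hG ⟨θ, ?_⟩
  rw [← hθ, LinearIsometryEquiv.inner_map_map, inner_smul_right]
  exact mul_ne_zero (inv_ne_zero hwn) hw2

end ALX
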