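import Pool.Agent.Lib.H47A.EPd2

/-! # ALX, chunk D7P (S/M): three different points of a plane have at most one centre -/

namespace ALX

open H47A (E3 cross3 det3 pl)

theorem d7p_one {m d v u : E3} (hm : m ≠ 0) (hd : d ≠ 0) (h0 : inner ℝ m d = (0 : ℝ)) (h1 : inner ℝ m u = (0 : ℝ)) (h2 : inner ℝ d u = (0 : ℝ))
    (h3 : 2 * inner ℝ v u + ‖u‖ ^ 2 = 0) (hu : u ≠ 0) :
    0 < ‖cross3 m d‖ ^ 2 ∧ ‖cross3 m d‖ ^ 2 • u = (-2 * inner ℝ v (cross3 m d) : ℝ) • cross3 m d := by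
  have hN : 0 < ‖cross3 m d‖ ^ 2 := by
    rw [H47A.cross3_norm, h0]
    have := norm_pos_iff.mpr hm
    have := norm_pos_iff.mpr hd
    have : 0 < ‖m‖ ^ 2 * ‖d‖ ^ 2 := by positivity
    linarith
  have h4 := H47A.cramer m d (cross3 m d) u
  rw [H47A.evec_det, h1, h2, zero_smul, zero_smul, zero_add, zero_add] at h4
  refine ⟨hN, ?_⟩
  set e := cross3 m d with he
  have h5 : ‖e‖ ^ 2 * inner ℝ v u = inner ℝ e u * inner ℝ v e := by
    have := congrArg (fun z : E3 => (inner ℝ v z : ℝ)) h4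
    simpa only [inner_smul_right] using this
  have h6 : ‖e‖ ^ 2 * ‖u‖ ^ 2 = inner ℝ e u * inner ℝ e u := by
    have := congrArg (fun z : E3 => (inner ℝ u z : ℝ)) h4
    simp only [inner_smul_right] at this
    rw [real_inner_self_eq_norm_sq, real_inner_comm e u] at this
    exact this
  have h7 : inner ℝ e u * (2 * inner ℝ v e + inner ℝ e u) = 0 := by
    have : ‖e‖ ^ 2 * (2 * inner ℝ v u + ‖u‖ ^ 2) = 0 := by rw [h3, mul_zero]
    nlinarith
  have h8 : inner ℝ e u ≠ (0 : ℝ) := by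
    intro h9
    rw [h9, zero_smul] at h4
    rcases smul_eq_zero.mp h4 with h10 | h10
    · exact hN.ne' h10
    · exact hu h10
  have h9 : inner ℝ e u = -2 * inner ℝ v e := by
    have := (mul_eq_zero.mp h7).resolve_left h8
    linarith
  rw [h4, h9]

/-- Three different points of a plane are not equidistant to two different points of the plane.
PROOF. `d = y - x`. From `‖x - p‖ = ‖x - p'‖`, `‖y - p‖ = ‖y - p'‖`: `⟪d, p - p'⟫ = 0`, the same for `p''`. In the plane orthogonal to `m`, the vectors orthogonal to `d` are the multiples of one vector `e = cross3 m d` (`≠ 0`):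
`p' = p + s e`, `p'' = p + s' e`, `s, s'` both different from `0` and different; `‖x - p - s e‖² = ‖x - p‖²` gives `s ‖e‖² = 2 ⟪x - p, e⟫ = s' ‖e‖²`: contradiction. -/
theorem three_points {m x y p p' p'' : E3} (hm : m ≠ 0) (hxy : x ≠ y) (h0 : inner ℝ m (y - x) = (0 : ℝ)) (h1 : inner ℝ m (p' - p) = (0 : ℝ))
    (h2 : inner ℝ m (p'' - p) = (0 : ℝ)) (h3 : inner ℝ m (p - x) = (0 : ℝ))
    (hx : ‖x - p‖ = ‖x - p'‖) (hx' : ‖x - p‖ = ‖x - p''‖) (hy : ‖y - p‖ = ‖y - p'‖) (hy' : ‖y - p‖ = ‖y - p''‖)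
    (hp : p ≠ p') (hp' : p ≠ p'') : p' = p'' := by
  have key : ∀ w : E3, inner ℝ m (w - p) = (0 : ℝ) → ‖x - p‖ = ‖x - w‖ → ‖y - p‖ = ‖y - w‖ → p ≠ w →
      0 < ‖cross3 m (y - x)‖ ^ 2 ∧ ‖cross3 m (y - x)‖ ^ 2 • (w - p) = (-2 * inner ℝ (p - x) (cross3 m (y - x)) : ℝ) • cross3 m (y - x) := by
    intro w hw hxw hyw hpw
    have e1 : 2 * inner ℝ (p - x) (w - p) + ‖w - p‖ ^ 2 = 0 := by
      have a1 : w - x = (p - x) + (w - p) := by abel
      have a2 : ‖w - x‖ ^ 2 = ‖p - x‖ ^ 2 + 2 * inner ℝ (p - x) (w - p) + ‖w - p‖ ^ 2 := by rw [a1, norm_add_sq_real]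
      rw [norm_sub_rev x p, norm_sub_rev x w] at hxw
      rw [← hxw] at a2
      linarith
    have e2 : 2 * inner ℝ (p - y) (w - p) + ‖w - p‖ ^ 2 = 0 := by
      have a1 : w - y = (p - y) + (w - p) := by abel
      have a2 : ‖w - y‖ ^ 2 = ‖p - y‖ ^ 2 + 2 * inner ℝ (p - y) (w - p) + ‖w - p‖ ^ 2 := by rw [a1, norm_add_sq_real]
      rw [norm_sub_rev y p, norm_sub_rev y w] at hyw
      rw [← hyw] at a2
      linarith
    have e3 : inner ℝ (y - x) (w - p) = (0 : ℝ) := by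
      have a3 : y - x = (p - x) - (p - y) := by abel
      rw [a3, inner_sub_left]
      linarith
    exact d7p_one hm (sub_ne_zero.mpr hxy.symm) h0 hw e3 e1 (sub_ne_zero.mpr hpw.symm)
  obtain ⟨hN, k1⟩ := key p' h1 hx hy hp
  obtain ⟨-, k2⟩ := key p'' h2 hx' hy' hp'
  have k3 : p' - p = p'' - p := by
    have := k1.trans k2.symm
    exact smul_right_injective E3 hN.ne' this
  exact sub_left_injective k3

end ALX
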