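import Pool.Agent.Lib.ALX.D7A
import Pool.Agent.Lib.ALX.D7P

/-! # ALX, chunk D7B (M): generic directions -/

open Real MeasureTheory

namespace ALX

open H47A (E3 cross3 det3 pl)

variable {A : Type} [Fintype A] [DecidableEq A] {n : A → E3} {a0 : A} {q : E3}

theorem d7b_hit (hG : Gn n) (T : E3 ≃ᵃⁱ[ℝ] E3) (P : E3 → Prop) (hP : ∀ x y, P x → P y → x = y) :
    {θ : ℝ | ∃ t : ℝ, 0 < t ∧ P (T.symm (q + t • dr n a0 θ))}.Countable := by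
  by_cases h : ∃ x, P x
  · obtain ⟨x, hx⟩ := h
    refine (hit_countable (a0 := a0) (q := q) hG (T x)).mono ?_
    rintro θ ⟨t, ht, h⟩
    refine ⟨t, ht, ?_⟩
    rw [hP _ _ hx h, AffineIsometryEquiv.apply_symm_apply]
  · have : {θ : ℝ | ∃ t : ℝ, 0 < t ∧ P (T.symm (q + t • dr n a0 θ))} = ∅ := by
      ext θ
      simp only [Set.mem_setOf_eq, Set.mem_empty_iff_false, iff_false]
      rintro ⟨t, _, h1⟩
      exact h ⟨_, h1⟩
    rw [this]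
    exact Set.countable_empty

theorem d7b_lf {a : A} {x y : E3} (hx : lf n a x = 1) (hy : lf n a y = 1) : inner ℝ (n a) (y - x) = (0 : ℝ) := by
  rw [inner_sub_right]
  have h1 : inner ℝ (n a) x = (1 : ℝ) := hx
  have h2 : inner ℝ (n a) y = (1 : ℝ) := hy
  rw [h1, h2, sub_self]

theorem d7b_pt2 (hG : Gn n) {a b c : A} (hab : b ≠ a) (hac : c ≠ a) (hbc : b ≠ c) (x y : E3)
    (hx : lf n a x = 1 ∧ lf n b x = 1 ∧ lf n c x = 1) (hy : lf n a y = 1 ∧ lf n b y = 1 ∧ lf n c y = 1) : x = y := by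
  have hd := hG.three a b c hab.symm hbc hac.symm
  have h1 := d7b_lf hx.1 hy.1
  have h2 := d7b_lf hx.2.1 hy.2.1
  have h3 := d7b_lf hx.2.2 hy.2.2
  have h4 := H47A.cramer (n a) (n b) (n c) (y - x)
  rw [h1, h2, h3, zero_smul, zero_smul, zero_smul, add_zero, add_zero] at h4
  exact (sub_eq_zero.1 ((smul_eq_zero.1 h4).resolve_left hd)).symm

theorem d7b_pt1 (hG : Gn n) (hg : Gen n a0 q) {a b : A} (hab : b ≠ a) {T T' : E3 ≃ᵃⁱ[ℝ] E3}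
    (hT : T ∈ Img n a0 q a) (hT' : T' ∈ Img n a0 q a) (hne : T' ≠ T) (x y : E3)
    (hx : lf n a x = 1 ∧ lf n b x = 1 ∧ ‖T x - q‖ = ‖T' x - q‖)
    (hy : lf n a y = 1 ∧ lf n b y = 1 ∧ ‖T y - q‖ = ‖T' y - q‖) : x = y := by
  by_contra hxy
  exact hne (capi_two hG hg hab (capi_GG hG hg.loc a hT) (capi_GG hG hg.loc a hT') hxy hx.1 hx.2.1 hy.1 hy.2.1
    hx.2.2 hy.2.2).symm

theorem d7b_pt0 (hG : Gn n) (hg : Gen n a0 q) {a : A} {T T' T'' : E3 ≃ᵃⁱ[ℝ] E3}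
    (hT : T ∈ Img n a0 q a) (hT' : T' ∈ Img n a0 q a) (hT'' : T'' ∈ Img n a0 q a) (hne : T' ≠ T) (hne' : T'' ≠ T)
    (hne'' : T' ≠ T'') (x y : E3)
    (hx : lf n a x = 1 ∧ ‖T x - q‖ = ‖T' x - q‖ ∧ ‖T x - q‖ = ‖T'' x - q‖)
    (hy : lf n a y = 1 ∧ ‖T y - q‖ = ‖T' y - q‖ ∧ ‖T y - q‖ = ‖T'' y - q‖) : x = y := by
  by_contra hxy
  have hG1 := capi_GG hG hg.loc a hT
  have hG2 := capi_GG hG hg.loc a hT'
  have hG3 := capi_GG hG hg.loc a hT''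
  have hq : lf n a0 q = 1 := by
    have h1 : a0 ∈ Ac n q := by rw [hg.loc.2]; simp
    simpa [Ac] using h1
  have p1 : lf n a (T.symm q) = 1 := (capi_plane hG hG1 _).2 (by rw [AffineIsometryEquiv.apply_symm_apply]; exact hq)
  have p2 : lf n a (T'.symm q) = 1 := (capi_plane hG hG2 _).2 (by rw [AffineIsometryEquiv.apply_symm_apply]; exact hq)
  have p3 : lf n a (T''.symm q) = 1 := (capi_plane hG hG3 _).2 (by rw [AffineIsometryEquiv.apply_symm_apply]; exact hq)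
  have hm : n a ≠ 0 := by
    intro h0
    have h1 : inner ℝ (n a) x = (1 : ℝ) := hx.1
    rw [h0, inner_zero_left] at h1
    exact zero_ne_one h1
  refine hg.ne a T' hG2 T'' hG3 hne'' (three_points hm hxy (d7b_lf hx.1 hy.1) (d7b_lf p1 p2) (d7b_lf p1 p3)
    (d7b_lf hx.1 p1) ?_ ?_ ?_ ?_ (hg.ne a T hG1 T' hG2 hne.symm) (hg.ne a T hG1 T'' hG3 hne'.symm))
  · rw [← norm_unf, ← norm_unf]; exact hx.2.1
  · rw [← norm_unf, ← norm_unf]; exact hx.2.2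
  · rw [← norm_unf, ← norm_unf]; exact hy.2.1
  · rw [← norm_unf, ← norm_unf]; exact hy.2.2

theorem gd_countable (hG : Gn n) (hg : Gen n a0 q) : {θ : ℝ | ¬ GD n a0 q (dr n a0 θ)}.Countable := by
  have hfin : ∀ a, (Img n a0 q a).Countable := fun a => (capi_finite hG hg.loc a).countable
  have c1 : (⋃ a, ⋃ T ∈ Img n a0 q a, ⋃ b, ⋃ (_ : b ≠ a),
      {θ : ℝ | lf n b (T.symm.linearIsometryEquiv (dr n a0 θ)) = 0}).Countable :=
    Set.countable_iUnion fun a => (hfin a).biUnion fun T hT => Set.countable_iUnion fun b =>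
      Set.countable_iUnion fun hb => line_countable hG hg.loc hb hT
  have c2 : (⋃ a, ⋃ T ∈ Img n a0 q a, ⋃ b, ⋃ c, ⋃ (_ : b ≠ a ∧ c ≠ a ∧ b ≠ c),
      {θ : ℝ | ∃ t : ℝ, 0 < t ∧ (fun x => lf n a x = 1 ∧ lf n b x = 1 ∧ lf n c x = 1) (T.symm (q + t • dr n a0 θ))}).Countable :=
    Set.countable_iUnion fun a => (hfin a).biUnion fun T hT => Set.countable_iUnion fun b =>
      Set.countable_iUnion fun c => Set.countable_iUnion fun hb => d7b_hit hG T _ (d7b_pt2 hG hb.1 hb.2.1 hb.2.2)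
  have c3 : (⋃ a, ⋃ T ∈ Img n a0 q a, ⋃ T' ∈ Img n a0 q a, ⋃ b, ⋃ (_ : b ≠ a ∧ T' ≠ T),
      {θ : ℝ | ∃ t : ℝ, 0 < t ∧ (fun x => lf n a x = 1 ∧ lf n b x = 1 ∧ ‖T x - q‖ = ‖T' x - q‖) (T.symm (q + t • dr n a0 θ))}).Countable :=
    Set.countable_iUnion fun a => (hfin a).biUnion fun T hT => (hfin a).biUnion fun T' hT' => Set.countable_iUnion fun b =>
      Set.countable_iUnion fun hb => d7b_hit hG T _ (d7b_pt1 hG hg hb.1 hT hT' hb.2)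
  have c4 : (⋃ a, ⋃ T ∈ Img n a0 q a, ⋃ T' ∈ Img n a0 q a, ⋃ T'' ∈ Img n a0 q a, ⋃ (_ : T' ≠ T ∧ T'' ≠ T ∧ T' ≠ T''),
      {θ : ℝ | ∃ t : ℝ, 0 < t ∧ (fun x => lf n a x = 1 ∧ ‖T x - q‖ = ‖T' x - q‖ ∧ ‖T x - q‖ = ‖T'' x - q‖) (T.symm (q + t • dr n a0 θ))}).Countable :=
    Set.countable_iUnion fun a => (hfin a).biUnion fun T hT => (hfin a).biUnion fun T' hT' =>
      (hfin a).biUnion fun T'' hT'' => Set.countable_iUnion fun hb => d7b_hit hG T _ (d7b_pt0 hG hg hT hT' hT'' hb.1 hb.2.1 hb.2.2)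
  refine ((c1.union c2).union (c3.union c4)).mono ?_
  intro θ hθ
  by_contra hnot
  simp only [Set.mem_union, Set.mem_iUnion, Set.mem_setOf_eq, not_or, not_exists] at hnot
  obtain ⟨⟨k1, k2⟩, k3, k4⟩ := hnot
  refine hθ ⟨dir_dr hG a0 θ, ?_, ?_, ?_, ?_⟩
  · rintro a T hT b hb ⟨_, h2⟩
    exact k1 a T hT b hb h2
  · intro a T hT t ht hx b b' hb hb' h1 h2
    by_contra hbb
    exact k2 a T hT b b' ⟨hb, hb', hbb⟩ t ⟨ht, hx.1.2, h1, h2⟩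
  · intro a T hT t ht hx b hb h1 T' hT' hx'
    by_contra hTT
    exact k3 a T hT T' hT' b ⟨hb, hTT⟩ t ⟨ht, hx.1.2, h1, by rw [← hx.2, ← hx'.2]⟩
  · intro a T hT t ht hx T' hT' T'' hT'' hne hne' hx' hx''
    by_contra hTT
    exact k4 a T hT T' hT' T'' hT'' ⟨hne, hne', hTT⟩ t ⟨ht, hx.1.2, by rw [← hx.2, ← hx'.2], by rw [← hx.2, ← hx''.2]⟩

end ALX
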