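import Pool.Agent.Lib.ALX.D8A1

/-! # ALX, chunk D8A2 (M): the triangles of the sides, angles -/

open Real MeasureTheory

namespace ALX

open H47A (E3 cross3 det3 pl)

variable {A : Type} [Fintype A] [DecidableEq A] {n : A → E3} {a0 : A} {q : E3}

omit [Fintype A] [DecidableEq A] in
/-- Three lengths determine the angle. -/
theorem d8a2_ang {V W : Type*} [NormedAddCommGroup V] [InnerProductSpace ℝ V]
    [NormedAddCommGroup W] [InnerProductSpace ℝ W] {u v : V} {u' v' : W} (h1 : ‖u‖ = ‖u'‖)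
    (h2 : ‖v‖ = ‖v'‖) (h3 : ‖u - v‖ = ‖u' - v'‖) :
    InnerProductGeometry.angle u v = InnerProductGeometry.angle u' v' := by
  unfold InnerProductGeometry.angle
  rw [real_inner_eq_norm_mul_self_add_norm_mul_self_sub_norm_sub_mul_self_div_two u v,
    real_inner_eq_norm_mul_self_add_norm_mul_self_sub_norm_sub_mul_self_div_two u' v', h1, h2, h3]

/-- Angles are preserved by the unfolding and the coordinates. PROOF. `cc (σ.2.1 x) - cc (σ.2.1 y) = L (x - y)` for a linear map `L` which preserves norms of the directions of the plane of `σ.1`, so it preserves the inner products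
of such directions (polarization), `InnerProductGeometry.angle`. -/
theorem angle_cc (hG : Gn n) (hq : At n q {a0}) {a : A} {T : E3 ≃ᵃⁱ[ℝ] E3} (hT : T ∈ Img n a0 q a) {x y z : E3} (hx : lf n a x = 1)
    (hy : lf n a y = 1) (hz : lf n a z = 1) :
    InnerProductGeometry.angle (cc n a0 q (T x) - cc n a0 q (T y)) (cc n a0 q (T z) - cc n a0 q (T y)) =
      InnerProductGeometry.angle (x - y) (z - y) := by
  have hpl := fun w => capi_plane hG (capi_GG hG hq a hT) w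
  have hn : ∀ w w' : E3, lf n a w = 1 → lf n a w' = 1 →
      ‖cc n a0 q (T w) - cc n a0 q (T w')‖ = ‖w - w'‖ := by
    intro w w' hw hw'
    rw [dist_cc hG hq ((hpl w).1 hw) ((hpl w').1 hw'), ← dist_eq_norm, T.dist_map, dist_eq_norm]
  refine d8a2_ang (hn x y hx hy) (hn z y hz hy) ?_
  rw [sub_sub_sub_cancel_right, sub_sub_sub_cancel_right]
  exact hn x z hx hz

theorem d8a2_ends (hG : Gn n) (hg : Gen n a0 q) {σ : A × (E3 ≃ᵃⁱ[ℝ] E3) × (E3 ≃ᵃⁱ[ℝ] E3)}
    (hσ : IsSd n a0 q σ) : (en n q σ).1 ≠ (en n q σ).2 ∧ (en n q σ).1 ∈ RR n q σ ∧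
      (en n q σ).2 ∈ RR n q σ ∧ lf n σ.1 (en n q σ).1 = 1 ∧ lf n σ.1 (en n q σ).2 = 1 ∧
      lf n σ.1 (σ.2.1.symm q) = 1 ∧ cc n a0 q (σ.2.1 (σ.2.1.symm q)) = 0 := by
  obtain ⟨h1, h2⟩ := en_spec hσ
  have h3 : (en n q σ).1 ∈ RR n q σ := by
    rw [h2]
    exact left_mem_segment ℝ _ _
  have h4 : (en n q σ).2 ∈ RR n q σ := by
    rw [h2]
    exact right_mem_segment ℝ _ _
  refine ⟨h1, h3, h4, (ridge_pt hG hg hσ h3).1.2, (ridge_pt hG hg hσ h4).1.2,
    (sd_ne hG hg hσ).2.1, ?_⟩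
  have h5 : σ.2.1 (σ.2.1.symm q) = q := σ.2.1.apply_symm_apply q
  rw [h5]
  unfold cc
  rw [sub_self, inner_zero_left, inner_zero_left]
  rfl

/-- PROOF. `angle_cc` with `y = T.symm q`, `cc n a0 q q = 0`; `x = e1`, `z = e2`. The other two in the same way. -/
theorem angles_tri (hG : Gn n) (hg : Gen n a0 q) {σ : A × (E3 ≃ᵃⁱ[ℝ] E3) × (E3 ≃ᵃⁱ[ℝ] E3)} (hσ : IsSd n a0 q σ) :
    phi n q σ = InnerProductGeometry.angle (cc n a0 q (σ.2.1 (en n q σ).1)) (cc n a0 q (σ.2.1 (en n q σ).2)) ∧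
    angAt n q σ (en n q σ).1 = InnerProductGeometry.angle (0 - cc n a0 q (σ.2.1 (en n q σ).1))
      (cc n a0 q (σ.2.1 (en n q σ).2) - cc n a0 q (σ.2.1 (en n q σ).1)) ∧
    angAt n q σ (en n q σ).2 = InnerProductGeometry.angle (0 - cc n a0 q (σ.2.1 (en n q σ).2))
      (cc n a0 q (σ.2.1 (en n q σ).1) - cc n a0 q (σ.2.1 (en n q σ).2)) := by
  obtain ⟨h1, h3, h4, h5, h6, h7, h8⟩ := d8a2_ends hG hg hσ
  refine ⟨?_, ?_, ?_⟩
  · have e := angle_cc hG hg.loc hσ.m1 h5 h7 h6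
    rw [h8, sub_zero, sub_zero] at e
    exact e.symm
  · have e := angle_cc hG hg.loc hσ.m1 h7 h5 h6
    rw [h8] at e
    rw [e]
    unfold angAt
    rw [if_pos rfl]
  · have e := angle_cc hG hg.loc hσ.m1 h7 h6 h5
    rw [h8] at e
    rw [e]
    unfold angAt
    rw [if_neg h1.symm, if_pos rfl]

/-- `p` is not on the line of two points which have equal distances from `p` and `p'`. -/
theorem d8a2_line {p p' e1 e2 : E3} {r : ℝ} (h1 : ‖e1 - p‖ = ‖e1 - p'‖) (h2 : ‖e2 - p‖ = ‖e2 - p'‖)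
    (hr : e2 - p = r • (e1 - p)) (he : e1 ≠ e2) : p = p' := by
  have hr1 : r ≠ 1 := by
    rintro rfl
    rw [one_smul] at hr
    exact he (sub_left_injective hr).symm
  have key : ∀ y : E3, ‖y - p‖ = ‖y - p'‖ → 2 * inner ℝ (y - p) (p' - p) = ‖p' - p‖ ^ 2 := by
    intro y hy
    have e1 : y - p' = (y - p) - (p' - p) := by abel
    have e2 := norm_sub_sq_real (y - p) (p' - p)
    rw [← e1, ← hy] at e2
    linarith
  have k1 := key e1 h1
  have k2 := key e2 h2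
  rw [hr, real_inner_smul_left] at k2
  have k3 : (r - 1) * ‖p' - p‖ ^ 2 = 0 := by
    linear_combination k2 - r * k1
  rcases mul_eq_zero.1 k3 with h | h
  · exact absurd (sub_eq_zero.1 h) hr1
  · have h5 : ‖p' - p‖ = 0 := by
      exact pow_eq_zero_iff (two_ne_zero) |>.1 h
    exact (sub_eq_zero.1 (norm_eq_zero.1 h5)).symm

/-- The triangles are not degenerate. PROOF. If the angle of `e1 - p`, `e2 - p` is `0` or `π` then `p`, `e1`, `e2` are on a line (`InnerProductGeometry.angle_eq_zero_iff`, `angle_eq_pi_iff`), `e1 ≠ e2`; the function `‖y - p‖² - ‖y - p'‖²` is affine and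
zero at `e1`, `e2` (`ridge_pt`), so zero on the line, so at `p`: `p = p'`, contradiction to `sd_ne`. -/
theorem phi_pos (hG : Gn n) (hg : Gen n a0 q) {σ : A × (E3 ≃ᵃⁱ[ℝ] E3) × (E3 ≃ᵃⁱ[ℝ] E3)} (hσ : IsSd n a0 q σ) :
    0 < phi n q σ ∧ phi n q σ < π := by
  obtain ⟨h1, h3, h4, h5, h6, h7, h8⟩ := d8a2_ends hG hg hσ
  have r1 := ridge_pt hG hg hσ h3
  have r2 := ridge_pt hG hg hσ h4
  have hne := (sd_ne hG hg hσ).1
  have e1 : ‖(en n q σ).1 - σ.2.1.symm q‖ = ‖(en n q σ).1 - σ.2.2.symm q‖ := by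
    rw [r1.2.2.2.2.1, r1.2.2.2.2.2]
  have e2 : ‖(en n q σ).2 - σ.2.1.symm q‖ = ‖(en n q σ).2 - σ.2.2.symm q‖ := by
    rw [r2.2.2.2.2.1, r2.2.2.2.2.2]
  have hcon : ∀ r : ℝ, (en n q σ).2 - σ.2.1.symm q ≠ r • ((en n q σ).1 - σ.2.1.symm q) :=
    fun r hr => hne (d8a2_line e1 e2 hr h1)
  unfold phi
  refine ⟨lt_of_le_of_ne (InnerProductGeometry.angle_nonneg _ _) fun h => ?_,
    lt_of_le_of_ne (InnerProductGeometry.angle_le_pi _ _) fun h => ?_⟩
  · obtain ⟨-, r, -, hr⟩ := InnerProductGeometry.angle_eq_zero_iff.1 h.symm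
    exact hcon r hr
  · obtain ⟨-, r, -, hr⟩ := InnerProductGeometry.angle_eq_pi_iff.1 h
    exact hcon r hr

end ALX
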