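import Pool.Agent.Lib.ALX.E1A

/-! # ALX, chunk D8A1 (M): the triangles of the sides, slices -/

open Real MeasureTheory

namespace ALX

open H47A (E3 cross3 det3 pl)

variable {A : Type} [Fintype A] [DecidableEq A] {n : A → E3} {a0 : A} {q : E3}

/-- A triangle with a vertex at the origin. PROOF. `convexHull_insert` (or directly), `convexHull_pair`. -/
theorem mem_tri0 (z1 z2 w : ℂ) : w ∈ convexHull ℝ {0, z1, z2} ↔ ∃ z ∈ segment ℝ z1 z2, ∃ s : ℝ, 0 ≤ s ∧ s ≤ 1 ∧ w = s • z := by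
  have h1 : convexHull ℝ ({0, z1, z2} : Set ℂ) = convexJoin ℝ {0} (segment ℝ z1 z2) := by
    rw [convexHull_insert (Set.insert_nonempty _ _), convexHull_pair]
  rw [h1, mem_convexJoin]
  constructor
  · rintro ⟨a, ha, z, hz, hw⟩
    rw [Set.mem_singleton_iff] at ha
    rw [ha, segment_eq_image] at hw
    obtain ⟨s, hs, rfl⟩ := hw
    refine ⟨z, hz, s, hs.1, hs.2, ?_⟩
    show (1 - s) • (0 : ℂ) + s • z = s • z
    rw [smul_zero, zero_add]
  · rintro ⟨z, hz, s, hs0, hs1, rfl⟩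
    refine ⟨0, rfl, z, hz, ?_⟩
    rw [segment_eq_image]
    refine ⟨s, ⟨hs0, hs1⟩, ?_⟩
    show (1 - s) • (0 : ℂ) + s • z = s • z
    rw [smul_zero, zero_add]

/-- The unfolded ridge in the coordinates. PROOF. `cc` and `σ.2.1` are affine (`cc` is the composition of a linear map with `y ↦ y - q`): the image of the segment `RR n q σ` (`en_spec`). -/
theorem cc_seg (hG : Gn n) {σ : A × (E3 ≃ᵃⁱ[ℝ] E3) × (E3 ≃ᵃⁱ[ℝ] E3)} (hσ : IsSd n a0 q σ) (z : ℂ) :
    z ∈ segment ℝ (cc n a0 q (σ.2.1 (en n q σ).1)) (cc n a0 q (σ.2.1 (en n q σ).2)) ↔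
      ∃ x ∈ RR n q σ, z = cc n a0 q (σ.2.1 x) := by
  have hf : ∀ (x y : E3) (a b : ℝ), a + b = 1 →
      cc n a0 q (σ.2.1 (a • x + b • y)) = a • cc n a0 q (σ.2.1 x) + b • cc n a0 q (σ.2.1 y) := by
    intro x y a b hab
    have h1 : σ.2.1 (a • x + b • y) = a • σ.2.1 x + b • σ.2.1 y :=
      Convex.combo_affine_apply (f := σ.2.1.toAffineEquiv.toAffineMap) hab
    have h2 : a • σ.2.1 x + b • σ.2.1 y - q = a • (σ.2.1 x - q) + b • (σ.2.1 y - q) := by
      have h3 : q = a • q + b • q := by rw [← add_smul, hab, one_smul]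
      calc a • σ.2.1 x + b • σ.2.1 y - q = a • σ.2.1 x + b • σ.2.1 y - (a • q + b • q) := by
            rw [← h3]
        _ = _ := by rw [smul_sub, smul_sub]; abel
    rw [h1]
    unfold cc
    rw [h2]
    apply Complex.ext
    · rw [Complex.add_re, Complex.smul_re, Complex.smul_re]
      show inner ℝ (a • (σ.2.1 x - q) + b • (σ.2.1 y - q)) (fr n a0).1 =
        a • inner ℝ (σ.2.1 x - q) (fr n a0).1 + b • inner ℝ (σ.2.1 y - q) (fr n a0).1
      rw [inner_add_left, real_inner_smul_left, real_inner_smul_left, smul_eq_mul, smul_eq_mul]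
    · rw [Complex.add_im, Complex.smul_im, Complex.smul_im]
      show inner ℝ (a • (σ.2.1 x - q) + b • (σ.2.1 y - q)) (fr n a0).2 =
        a • inner ℝ (σ.2.1 x - q) (fr n a0).2 + b • inner ℝ (σ.2.1 y - q) (fr n a0).2
      rw [inner_add_left, real_inner_smul_left, real_inner_smul_left, smul_eq_mul, smul_eq_mul]
  have hR : RR n q σ = segment ℝ (en n q σ).1 (en n q σ).2 := (en_spec hσ).2
  rw [hR]
  constructor
  · rintro ⟨a, b, ha, hb, hab, rfl⟩
    exact ⟨a • (en n q σ).1 + b • (en n q σ).2, ⟨a, b, ha, hb, hab, rfl⟩, (hf _ _ a b hab).symm⟩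
  · rintro ⟨x, ⟨a, b, ha, hb, hab, rfl⟩, rfl⟩
    exact ⟨a, b, ha, hb, hab, (hf _ _ a b hab).symm⟩

/-- PROOF. `σ.2.1 x` is in the plane of `a0` (`capi_plane`, `x ∈ Fc n σ.1`), `cc`, `σ.2.1` preserve distances (`dist_cc`, `cc n a0 q q = 0`), `ridge_pt`. -/
theorem norm_cc (hG : Gn n) (hg : Gen n a0 q) {σ : A × (E3 ≃ᵃⁱ[ℝ] E3) × (E3 ≃ᵃⁱ[ℝ] E3)} (hσ : IsSd n a0 q σ) {x : E3} (hx : x ∈ RR n q σ) :
    ‖cc n a0 q (σ.2.1 x)‖ = dl n q x := by
  have h1 := ridge_pt hG hg hσ hx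
  have h2 : lf n a0 (σ.2.1 x) = 1 :=
    (capi_plane hG (capi_GG hG hg.loc σ.1 hσ.m1) x).1 h1.1.2
  have h3 : lf n a0 q = 1 := by
    have h31 : a0 ∈ Ac n q := by
      rw [hg.loc.2]
      exact Finset.mem_singleton_self a0
    unfold Ac at h31
    exact (Finset.mem_filter.1 h31).2
  have h4 := dist_cc (q := q) hG hg.loc h2 h3
  have h5 : cc n a0 q q = 0 := by
    unfold cc
    rw [sub_self, inner_zero_left, inner_zero_left]
    rfl
  rw [h5, sub_zero] at h4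
  rw [h4, h1.2.2.2.1]

/-- The slices of the triangle. PROOF. `mem_tri0`, `cc_seg`: `t e^{iθ} = s z`, `z = cc (σ.2.1 x)`, `‖z‖ = dl n q x` (`norm_cc`): `s > 0`, `t = s * dl n q x`, `z = dl n q x e^{iθ}`, so
`σ.2.1 x = cd z = q + dl n q x • dr θ` (`cd_cc`, `cd_polar`). Conversely `z = cc (σ.2.1 x) = dl n q x e^{iθ}` (`cc_cd`), `s = t / dl n q x` (`0 < dl n q x` by `ridge_pt`). -/
theorem tri_slice (hG : Gn n) (hg : Gen n a0 q) {σ : A × (E3 ≃ᵃⁱ[ℝ] E3) × (E3 ≃ᵃⁱ[ℝ] E3)} (hσ : IsSd n a0 q σ) {t θ : ℝ} (ht : 0 < t) :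
    (⟨t * cos θ, t * sin θ⟩ : ℂ) ∈ TriD n a0 q σ ↔ ∃ x ∈ RR n q σ, σ.2.1 x = q + dl n q x • dr n a0 θ ∧ t ≤ dl n q x := by
  unfold TriD
  rw [mem_tri0]
  constructor
  · rintro ⟨z, hz, s, hs0, hs1, hw⟩
    obtain ⟨x, hx, rfl⟩ := (cc_seg hG hσ z).1 hz
    have h1 := ridge_pt hG hg hσ hx
    have h2 := norm_cc hG hg hσ hx
    have h3 : lf n a0 (σ.2.1 x) = 1 :=
      (capi_plane hG (capi_GG hG hg.loc σ.1 hσ.m1) x).1 h1.1.2
    have h4 : ‖(⟨t * cos θ, t * sin θ⟩ : ℂ)‖ = t := by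
      have h41 : (⟨t * cos θ, t * sin θ⟩ : ℂ) = (t : ℂ) * Complex.exp (θ * Complex.I) := by
        apply Complex.ext
        · rw [Complex.re_ofReal_mul, Complex.exp_ofReal_mul_I_re]
        · rw [Complex.im_ofReal_mul, Complex.exp_ofReal_mul_I_im]
      rw [h41, norm_mul, Complex.norm_exp_ofReal_mul_I, mul_one, Complex.norm_real,
        Real.norm_of_nonneg ht.le]
    have h5 : t = s * dl n q x := by
      rw [hw, norm_smul, Real.norm_of_nonneg hs0, h2] at h4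
      exact h4.symm
    have hs : 0 < s := by
      rcases hs0.lt_or_eq with h | h
      · exact h
      · rw [← h, zero_mul] at h5
        exact absurd h5 ht.ne'
    refine ⟨x, hx, ?_, ?_⟩
    · have h6 : cc n a0 q (σ.2.1 x) = ⟨dl n q x * cos θ, dl n q x * sin θ⟩ := by
        have h7 : s • cc n a0 q (σ.2.1 x) = s • (⟨dl n q x * cos θ, dl n q x * sin θ⟩ : ℂ) := by
          rw [← hw, h5]
          apply Complex.ext
          · rw [Complex.smul_re, smul_eq_mul]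
            show s * dl n q x * cos θ = s * (dl n q x * cos θ)
            ring
          · rw [Complex.smul_im, smul_eq_mul]
            show s * dl n q x * sin θ = s * (dl n q x * sin θ)
            ring
        exact smul_right_injective ℂ hs.ne' h7
      rw [← cd_cc (q := q) hG hg.loc h3, h6, cd_polar]
    · rw [h5]
      exact mul_le_of_le_one_left h1.2.2.1.le hs1
  · rintro ⟨x, hx, hx2, hle⟩
    have h1 := ridge_pt hG hg hσ hx
    refine ⟨cc n a0 q (σ.2.1 x), (cc_seg hG hσ _).2 ⟨x, hx, rfl⟩, t / dl n q x,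
      (div_pos ht h1.2.2.1).le, (div_le_one h1.2.2.1).2 hle, ?_⟩
    rw [hx2, ← cd_polar, cc_cd hG]
    have h2 := h1.2.2.1.ne'
    apply Complex.ext
    · rw [Complex.smul_re, smul_eq_mul]
      show t * cos θ = t / dl n q x * (dl n q x * cos θ)
      field_simp
    · rw [Complex.smul_im, smul_eq_mul]
      show t * sin θ = t / dl n q x * (dl n q x * sin θ)
      field_simp

/-- PROOF. The convex hull of a finite set is compact. -/
theorem tri_compact (σ : A × (E3 ≃ᵃⁱ[ℝ] E3) × (E3 ≃ᵃⁱ[ℝ] E3)) : IsCompact (TriD n a0 q σ) ∧ (0 : ℂ) ∈ TriD n a0 q σ := by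
  refine ⟨?_, ?_⟩
  · exact Set.Finite.isCompact_convexHull ℝ (Set.toFinite _)
  · exact subset_convexHull ℝ _ (Set.mem_insert _ _)

end ALX
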