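import Pool.Agent.Lib.ALX.D8B1
import Pool.Agent.Lib.ALX.D6D2
import Pool.Agent.Lib.ALX.D6A

/-! # ALX, chunk D8B2 (M): the triangles tile the surface -/

open Real MeasureTheory

namespace ALX

open H47A (E3 cross3 det3 pl)

variable {A : Type} [Fintype A] [DecidableEq A] {n : A → E3} {a0 : A} {q : E3}

/-- PROOF. `ar_int_dl`, `polar_sum` for the `Ch` (`ch_closed`, `ch_slice`) and for the `TriD` (`tri_compact`); the integrands agree for `θ` with `GD` (`prt`, `Prt.sum` with the measurable function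
`g t = ofReal t * h t`, `slice_sum`), so almost everywhere (`gd_countable`). -/
theorem tile (hG : Gn n) (hg : Gen n a0 q) {h : ℝ → ENNReal} (hh : Measurable h) :
    ∫⁻ x, h (dl n q x) ∂(ar n) = ∑ σ ∈ Sd n a0 q, ∫⁻ z in TriD n a0 q σ, h ‖z‖ := by
  have hq := hg.loc
  rw [ar_int_dl hG hg hh, polar_sum (SF n a0 q) (S := fun s => Ch n a0 q s)
    (fun s hs => (ch_closed hG hq ((mem_SF hG hq s).1 hs)).measurableSet) hh,
    polar_sum (Sd n a0 q) (S := fun σ => TriD n a0 q σ) (fun σ _ => (tri_compact σ).1.isClosed.measurableSet) hh]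
  refine lintegral_congr_ae (ae_restrict_of_ae ?_)
  filter_upwards [(gd_countable hG hg).ae_notMem volume] with θ hθ
  have hGD : GD n a0 q (dr n a0 θ) := not_not.1 hθ
  obtain ⟨a, T, T', r, hp⟩ := prt hG hg hGD
  have h1 := hp.sum (fun t => ENNReal.ofReal t * h t) (ENNReal.measurable_ofReal.mul hh)
  have h2 := slice_sum hG hg hp (fun t => ENNReal.ofReal t * h t)
  rw [h2, ← h1]
  refine Finset.sum_congr rfl fun s _ => ?_
  rw [ch_slice]

end ALX
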