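import Pool.Agent.Lib.ALX.D8B2
import Pool.Agent.Lib.ALX.D8A2
import Pool.Agent.Lib.H47A.EAr2

/-! # ALX, chunk D8B3 (M): area of the triangles -/

open Real MeasureTheory

namespace ALX

open H47A (E3 cross3 det3 pl)

variable {A : Type} [Fintype A] [DecidableEq A] {n : A → E3} {a0 : A} {q : E3}

theorem d8b3_cr (z w : ℂ) : |H47A.cr z w| = ‖z‖ * ‖w‖ * sin (InnerProductGeometry.angle z w) := by
  have h0 : 0 ≤ ‖z‖ * ‖w‖ * sin (InnerProductGeometry.angle z w) :=
    mul_nonneg (by positivity) (InnerProductGeometry.sin_angle_nonneg z w)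
  rw [← abs_of_nonneg h0, ← sq_eq_sq_iff_abs_eq_abs]
  have h1 := InnerProductGeometry.cos_angle_mul_norm_mul_norm z w
  have h2 : inner ℝ z w = z.re * w.re + z.im * w.im := by
    rw [Complex.inner]
    simp only [Complex.mul_re, Complex.conj_re, Complex.conj_im]
    ring
  have h3 := sin_sq_add_cos_sq (InnerProductGeometry.angle z w)
  have h4 : ‖z‖ ^ 2 = z.re ^ 2 + z.im ^ 2 := by
    rw [← Complex.normSq_eq_norm_sq, Complex.normSq_apply]
    ring
  have h5 : ‖w‖ ^ 2 = w.re ^ 2 + w.im ^ 2 := by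
    rw [← Complex.normSq_eq_norm_sq, Complex.normSq_apply]
    ring
  have h6 : (‖z‖ * ‖w‖ * sin (InnerProductGeometry.angle z w)) ^ 2 =
      ‖z‖ ^ 2 * ‖w‖ ^ 2 - (cos (InnerProductGeometry.angle z w) * (‖z‖ * ‖w‖)) ^ 2 := by
    rw [show sin (InnerProductGeometry.angle z w) = sin (InnerProductGeometry.angle z w) from rfl]
    have : sin (InnerProductGeometry.angle z w) ^ 2 = 1 - cos (InnerProductGeometry.angle z w) ^ 2 := by linarith
    calc (‖z‖ * ‖w‖ * sin (InnerProductGeometry.angle z w)) ^ 2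
        = ‖z‖ ^ 2 * ‖w‖ ^ 2 * sin (InnerProductGeometry.angle z w) ^ 2 := by ring
      _ = _ := by
        rw [this]
        ring
  rw [h6, h1, h2, h4, h5]
  unfold H47A.cr
  ring

/-- PROOF. `tile` with `h = 1`; `H47A.tri_area` (`Lib/H47A/EAr2.lean`) with `a = 0`; `|cr z1 z2| = ‖z1‖ ‖z2‖ sin (angle z1 z2)`, `angles_tri`, `norm_cc`, `ridge_pt`. -/
theorem area_le (hG : Gn n) (hg : Gen n a0 q) :
    ar n Set.univ ≤ ENNReal.ofReal (∑ σ ∈ Sd n a0 q,
      ‖(en n q σ).1 - σ.2.1.symm q‖ * ‖(en n q σ).2 - σ.2.1.symm q‖ * sin (phi n q σ) / 2) := by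
  have h1 := tile hG hg (h := fun _ => 1) measurable_const
  rw [lintegral_one] at h1
  rw [h1, ENNReal.ofReal_sum_of_nonneg]
  · refine Finset.sum_le_sum fun σ hσ => ?_
    rw [setLIntegral_one]
    have hS : IsSd n a0 q σ := (mem_Sd hG hg.loc σ).1 hσ
    have hE := en_spec hS
    have he1 : (en n q σ).1 ∈ RR n q σ := by
      rw [hE.2]
      exact left_mem_segment ℝ _ _
    have he2 : (en n q σ).2 ∈ RR n q σ := by
      rw [hE.2]
      exact right_mem_segment ℝ _ _
    refine (H47A.tri_area _ _ _).trans (ENNReal.ofReal_le_ofReal (le_of_eq ?_))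
    rw [sub_zero, sub_zero, d8b3_cr, norm_cc hG hg hS he1, norm_cc hG hg hS he2, ← (angles_tri hG hg hS).1]
    rw [(ridge_pt hG hg hS he1).2.2.2.2.1, (ridge_pt hG hg hS he2).2.2.2.2.1]
  · intro σ _
    have : 0 ≤ sin (phi n q σ) := InnerProductGeometry.sin_angle_nonneg _ _
    positivity

end ALX
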