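import Pool.Agent.Lib.ALX.D8B1
import Pool.Agent.Lib.ALX.D6A

/-! # ALX, chunk D8B4 (M): the triangles are disjoint and covered by the cells -/

open Real MeasureTheory

namespace ALX

open H47A (E3 cross3 det3 pl)

variable {A : Type} [Fintype A] [DecidableEq A] {n : A → E3} {a0 : A} {q : E3}

theorem d8b4_null {S : Set ℂ} (hS : MeasurableSet S) {C : Set ℝ} (hC : C.Countable)
    (h : ∀ θ : ℝ, θ ∉ C → ∀ t : ℝ, 0 < t → (⟨t * cos θ, t * sin θ⟩ : ℂ) ∉ S) : volume S = 0 := by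
  have h1 := polar_int hS (h := fun _ => 1) measurable_const
  rw [setLIntegral_one] at h1
  rw [h1, lintegral_eq_zero_iff (polar_meas hS measurable_const)]
  have h2 : ∀ᵐ θ ∂(volume.restrict (Set.Ioo (-π) π)), θ ∉ C := ae_restrict_of_ae (hC.ae_notMem volume)
  filter_upwards [h2] with θ hθ
  have h3 : {t : ℝ | 0 ≤ t ∧ (⟨t * cos θ, t * sin θ⟩ : ℂ) ∈ S} ⊆ {0} := by
    rintro t ⟨ht, ht2⟩
    rcases ht.lt_or_eq with h4 | h4
    · exact absurd ht2 (h θ hθ t h4)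
    · exact h4.symm
  have h4 : volume {t : ℝ | 0 ≤ t ∧ (⟨t * cos θ, t * sin θ⟩ : ℂ) ∈ S} = 0 := measure_mono_null h3 (measure_singleton 0)
  show ∫⁻ t in {t : ℝ | 0 ≤ t ∧ (⟨t * cos θ, t * sin θ⟩ : ℂ) ∈ S}, ENNReal.ofReal t * 1 = 0
  exact setLIntegral_measure_zero _ _ h4

/-- PROOF. For `σ ≠ τ`: if `t e^{iθ}` is in both for some `t > 0` then `θ` is not generic (`tri_slice`, `prt_uniq` twice, `prt`). `polar_int` for the intersection and `h = 1`: the inner integral is `0` for all but countably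
many `θ`. -/
theorem tri_disj (hG : Gn n) (hg : Gen n a0 q) {σ τ : A × (E3 ≃ᵃⁱ[ℝ] E3) × (E3 ≃ᵃⁱ[ℝ] E3)} (hσ : IsSd n a0 q σ) (hτ : IsSd n a0 q τ)
    (hne : σ ≠ τ) : volume (TriD n a0 q σ ∩ TriD n a0 q τ) = 0 := by
  refine d8b4_null ((tri_compact σ).1.isClosed.measurableSet.inter (tri_compact τ).1.isClosed.measurableSet) (gd_countable hG hg) ?_
  intro θ hθ t ht hmem
  have hθ' : GD n a0 q (dr n a0 θ) := by
    by_contra hc
    exact hθ hc
  obtain ⟨a, T, T', r, hP⟩ := prt hG hg hθ'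
  obtain ⟨x, hx, hx1, -⟩ := (tri_slice hG hg hσ ht).1 hmem.1
  obtain ⟨y, hy, hy1, -⟩ := (tri_slice hG hg hτ ht).1 hmem.2
  exact hne ((prt_uniq hG hg hP hσ hx hx1).1.trans (prt_uniq hG hg hP hτ hy hy1).1.symm)

/-- PROOF. If `t e^{iθ} ∈ TriD σ`, `t > 0`, `θ` generic: `t ≤ dl n q x = r` (`tri_slice`, `prt_uniq`), so `t ∈ IS` for some state (`Prt.cov`): the point is in `Ch` (`ch_slice`). `polar_int` for the difference. -/
theorem tri_cover (hG : Gn n) (hg : Gen n a0 q) {σ : A × (E3 ≃ᵃⁱ[ℝ] E3) × (E3 ≃ᵃⁱ[ℝ] E3)} (hσ : IsSd n a0 q σ) :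
    volume (TriD n a0 q σ \ ⋃ s ∈ SF n a0 q, Ch n a0 q s) = 0 := by
  have hm : MeasurableSet (⋃ s ∈ SF n a0 q, Ch n a0 q s) := by
    refine Finset.measurableSet_biUnion _ fun s hs => ?_
    exact (ch_closed hG hg.loc ((mem_SF hG hg.loc s).1 hs)).measurableSet
  refine d8b4_null ((tri_compact σ).1.isClosed.measurableSet.diff hm) (gd_countable hG hg) ?_
  intro θ hθ t ht hmem
  have hθ' : GD n a0 q (dr n a0 θ) := by
    by_contra hc
    exact hθ hc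
  obtain ⟨a, T, T', r, hP⟩ := prt hG hg hθ'
  obtain ⟨x, hx, hx1, hx2⟩ := (tri_slice hG hg hσ ht).1 hmem.1
  rw [(prt_uniq hG hg hP hσ hx hx1).2.1] at hx2
  obtain ⟨s, hs, hs2⟩ := hP.cov t ht.le hx2
  refine hmem.2 (Set.mem_iUnion₂.2 ⟨s, hs, ?_⟩)
  rw [← ch_slice (n := n) (a0 := a0) (q := q) s θ] at hs2
  exact hs2.2

end ALX
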