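import Pool.Agent.Lib.ALX.E1
import Pool.Agent.Lib.ALX.D5
import Pool.Agent.Lib.ALX.D7B

/-! # ALX, chunk E2 (M): the arcs of directions of the ridges -/

open Real MeasureTheory

namespace ALX

open H47A (E3 cross3 det3 pl)

variable {A : Type} [Fintype A] [DecidableEq A] {n : A → E3} {a0 : A} {q : E3}

/-- PROOF. `Prt` gives the points; `sd_of_two`. -/
theorem prt_sd (hG : Gn n) (hg : Gen n a0 q) {θ : ℝ} {a : A} {T T' : E3 ≃ᵃⁱ[ℝ] E3} {r : ℝ} (h : Prt n a0 q (dr n a0 θ) a T T' r) :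
    IsSd n a0 q (a, T, T') ∧ θ ∈ JJ n a0 q (a, T, T') := by
  refine ⟨sd_of_two hG hg h.mem h.mem' h.ne h.at1 h.cl h.cl' h.two, T.symm (q + r • dr n a0 θ), ⟨h.cl, h.cl'⟩, ?_⟩
  show T (T.symm (q + r • dr n a0 θ)) = q + dl n q (T.symm (q + r • dr n a0 θ)) • dr n a0 θ
  rw [AffineIsometryEquiv.apply_symm_apply, dl_ray (dir_dr hG a0 θ) h.pos.le h.cl]

/-- PROOF. `x ∈ RR σ`, `σ.2.1 x = q + dl n q x • dr θ`: so `x = σ.2.1.symm (q + t • u)` with `t = dl n q x`, `h.rid` for `S = σ.2.1`, `S' = σ.2.2`. -/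
theorem prt_uniq (hG : Gn n) (hg : Gen n a0 q) {θ : ℝ} {a : A} {T T' : E3 ≃ᵃⁱ[ℝ] E3} {r : ℝ} (h : Prt n a0 q (dr n a0 θ) a T T' r)
    {σ : A × (E3 ≃ᵃⁱ[ℝ] E3) × (E3 ≃ᵃⁱ[ℝ] E3)} (hσ : IsSd n a0 q σ) {x : E3} (hx : x ∈ RR n q σ)
    (hxθ : σ.2.1 x = q + dl n q x • dr n a0 θ) : σ = (a, T, T') ∧ dl n q x = r ∧ x = T.symm (q + r • dr n a0 θ) := by
  have h1 : σ.2.1.symm (q + dl n q x • dr n a0 θ) = x := by
    rw [← hxθ, AffineIsometryEquiv.symm_apply_apply]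
  have h2 := h.rid σ.1 σ.2.1 hσ.m1 σ.2.2 hσ.m2 hσ.ne (dl n q x) (capi_nonneg q x) (by rw [h1]; exact hx.1)
    (by rw [h1]; exact hx.2)
  obtain ⟨e1, e2, e3, e4⟩ := h2
  refine ⟨?_, e4, ?_⟩
  · rw [← e1, ← e2, ← e3]
  · rw [← e4, ← e2, h1]

/-- PROOF. `RR` is compact (`cl_conv`), `dl n q` is continuous on `Fc n σ.1 ⊆ bd n` (`capi_cont`), `dr` is continuous: the limit of `θ k ∈ JJ` with points `x k ∈ RR`: a subsequence of `x k`
converges to a point of `RR`. -/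
theorem jj_closed (hG : Gn n) (hq : At n q {a0}) {σ : A × (E3 ≃ᵃⁱ[ℝ] E3) × (E3 ≃ᵃⁱ[ℝ] E3)} (hσ : IsSd n a0 q σ) : IsClosed (JJ n a0 q σ) := by
  have hK : IsCompact (RR n q σ) := (cl_conv hG hq hσ.m1).1.inter (cl_conv hG hq hσ.m2).1
  have hcs : CompactSpace (RR n q σ) := isCompact_iff_compactSpace.1 hK
  have hqb : q ∈ bd n := by
    have h0 : a0 ∈ Ac n q := by
      rw [hq.2]
      exact Finset.mem_singleton_self a0
    unfold Ac at h0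
    exact ⟨hq.1, a0, (Finset.mem_filter.1 h0).2⟩
  have hsub : RR n q σ ⊆ bd n := fun x hx => ⟨hx.1.1.1, σ.1, hx.1.1.2⟩
  have hdl : Continuous fun x : RR n q σ => dl n q x := by
    have h1 : ContinuousOn (fun y => dl n q y) (RR n q σ) := (capi_cont hG hqb).mono hsub
    exact continuousOn_iff_continuous_domRestrict.1 h1
  have hC : IsClosed {p : RR n q σ × ℝ | σ.2.1 (p.1 : E3) = q + dl n q p.1 • dr n a0 p.2} := by
    refine isClosed_eq ?_ ?_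
    · exact σ.2.1.continuous.comp (continuous_subtype_val.comp continuous_fst)
    · exact continuous_const.add ((hdl.comp continuous_fst).smul ((dr_cont a0).comp continuous_snd))
  have himg : JJ n a0 q σ = Prod.snd '' {p : RR n q σ × ℝ | σ.2.1 (p.1 : E3) = q + dl n q p.1 • dr n a0 p.2} := by
    ext θ
    constructor
    · rintro ⟨x, hx, hxθ⟩
      exact ⟨(⟨x, hx⟩, θ), hxθ, rfl⟩
    · rintro ⟨⟨⟨x, hx⟩, θ'⟩, h1, rfl⟩
      exact ⟨x, hx, h1⟩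
  rw [himg]
  exact isClosedMap_snd_of_compactSpace _ hC

/-- Every direction meets a ridge. PROOF. The union of the finitely many closed sets `JJ σ` (`mem_Sd`, `jj_closed`) contains the complement of a countable set (`gd_countable`, `prt`, `prt_sd`), which is dense
(`Set.Countable.dense_compl`). -/
theorem jj_cover (hG : Gn n) (hg : Gen n a0 q) (θ : ℝ) : ∃ σ ∈ Sd n a0 q, θ ∈ JJ n a0 q σ := by
  have hcl : IsClosed (⋃ σ ∈ Sd n a0 q, JJ n a0 q σ) := by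
    refine (Sd n a0 q).finite_toSet.isClosed_biUnion fun σ hσ => ?_
    exact jj_closed hG hg.loc ((mem_Sd hG hg.loc σ).1 hσ)
  have hd : Dense {θ : ℝ | ¬ GD n a0 q (dr n a0 θ)}ᶜ := (gd_countable hG hg).dense_compl ℝ
  have hsub : {θ : ℝ | ¬ GD n a0 q (dr n a0 θ)}ᶜ ⊆ ⋃ σ ∈ Sd n a0 q, JJ n a0 q σ := by
    intro θ' hθ'
    have hu : GD n a0 q (dr n a0 θ') := by
      by_contra hn
      exact hθ' hn
    obtain ⟨a, T, T', r, hp⟩ := prt hG hg hu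
    obtain ⟨h1, h2⟩ := prt_sd hG hg hp
    exact Set.mem_biUnion ((mem_Sd hG hg.loc _).2 h1) h2
  have h3 : (⋃ σ ∈ Sd n a0 q, JJ n a0 q σ) = Set.univ := by
    rw [← hcl.closure_eq]
    exact (hd.mono hsub).closure_eq
  have h4 : θ ∈ ⋃ σ ∈ Sd n a0 q, JJ n a0 q σ := by
    rw [h3]
    exact Set.mem_univ θ
  obtain ⟨σ, hσ, hθ⟩ := Set.mem_iUnion₂.1 h4
  exact ⟨σ, hσ, hθ⟩

/-- PROOF. `x ∈ RR σ` is reached: `x ≠ q` (`ridge_pt`), `capi_reach`; `(dl n q x)⁻¹ • (σ.2.1 x - q) = dr θ`. -/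
theorem jj_reach (hG : Gn n) (hg : Gen n a0 q) {σ : A × (E3 ≃ᵃⁱ[ℝ] E3) × (E3 ≃ᵃⁱ[ℝ] E3)} (hσ : IsSd n a0 q σ) {θ : ℝ} {x : E3}
    (hx : x ∈ RR n q σ) (hxθ : σ.2.1 x = q + dl n q x • dr n a0 θ) : Reach n a0 q (dr n a0 θ) x (dl n q x) := by
  obtain ⟨_, hne, hpos, _, _, _⟩ := ridge_pt hG hg hσ hx
  have h1 := (capi_reach hG hg hσ.m1 hx.1 hne).2
  have h2 : (dl n q x)⁻¹ • (σ.2.1 x - q) = dr n a0 θ := by
    rw [hxθ, add_sub_cancel_left, smul_smul, inv_mul_cancel₀ hpos.ne', one_smul]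
  rwa [h2] at h1

/-- Every point of a ridge is seen in some direction. PROOF. `(dl n q x)⁻¹ • (σ.2.1 x - q)` is a direction of the plane of `a0` (`capi_reach`), `exists_dr`. -/
theorem jj_exists (hG : Gn n) (hg : Gen n a0 q) {σ : A × (E3 ≃ᵃⁱ[ℝ] E3) × (E3 ≃ᵃⁱ[ℝ] E3)} (hσ : IsSd n a0 q σ) {x : E3}
    (hx : x ∈ RR n q σ) : ∃ θ : ℝ, σ.2.1 x = q + dl n q x • dr n a0 θ := by
  obtain ⟨_, hne, hpos, _, _, _⟩ := ridge_pt hG hg hσ hx
  obtain ⟨θ, hθ⟩ := exists_dr hG a0 (capi_reach hG hg hσ.m1 hx.1 hne).1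
  refine ⟨θ, ?_⟩
  rw [← hθ, smul_smul, mul_inv_cancel₀ hpos.ne', one_smul, add_sub_cancel]

end ALX
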