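import Pool.Agent.Lib.ALX.D8A1
import Pool.Agent.Lib.ALX.E2

/-! # ALX, chunk D8B1 (S/M): slices of the triangles in a generic direction -/

open Real MeasureTheory

namespace ALX

open H47A (E3 cross3 det3 pl)

variable {A : Type} [Fintype A] [DecidableEq A] {n : A → E3} {a0 : A} {q : E3}

/-- PROOF. For `σ = (a, T, T')` the slice is `Icc 0 r`: `tri_slice` with `prt_uniq` (`dl n q x = r`), `prt_sd`, `0 ∈ TriD`. For every other side the slice contains no `t > 0` (`tri_slice`, `prt_uniq`), so it is a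
null set. `Finset.sum_eq_single`. -/
theorem slice_sum (hG : Gn n) (hg : Gen n a0 q) {θ : ℝ} {a : A} {T T' : E3 ≃ᵃⁱ[ℝ] E3} {r : ℝ} (h : Prt n a0 q (dr n a0 θ) a T T' r)
    (g : ℝ → ENNReal) :
    ∑ σ ∈ Sd n a0 q, ∫⁻ t in {t : ℝ | 0 ≤ t ∧ (⟨t * cos θ, t * sin θ⟩ : ℂ) ∈ TriD n a0 q σ}, g t = ∫⁻ t in Set.Icc 0 r, g t := by
  obtain ⟨hσ, x0, hx0, hx0θ⟩ := prt_sd hG hg h
  have hr0 : dl n q x0 = r := (prt_uniq hG hg h hσ hx0 hx0θ).2.1
  have hmem : (a, T, T') ∈ Sd n a0 q := (mem_Sd hG hg.loc _).2 hσ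
  rw [Finset.sum_eq_single_of_mem _ hmem]
  · have hset : {t : ℝ | 0 ≤ t ∧ (⟨t * cos θ, t * sin θ⟩ : ℂ) ∈ TriD n a0 q (a, T, T')} = Set.Icc 0 r := by
      ext t
      constructor
      · rintro ⟨h0, h1⟩
        rcases h0.eq_or_lt with h2 | h2
        · exact ⟨h0, by rw [← h2]; exact h.pos.le⟩
        · obtain ⟨x, hx, hxθ, hle⟩ := (tri_slice hG hg hσ h2).1 h1
          have h3 := (prt_uniq hG hg h hσ hx hxθ).2.1
          exact ⟨h0, hle.trans h3.le⟩
      · rintro ⟨h0, h1⟩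
        refine ⟨h0, ?_⟩
        rcases h0.eq_or_lt with h2 | h2
        · have h3 : (⟨t * cos θ, t * sin θ⟩ : ℂ) = 0 := by
            rw [← h2]
            apply Complex.ext <;> simp
          rw [h3]
          exact (tri_compact _).2
        · exact (tri_slice hG hg hσ h2).2 ⟨x0, hx0, hx0θ, by rw [hr0]; exact h1⟩
    rw [hset]
  · intro τ hτ hne
    have hτ' : IsSd n a0 q τ := (mem_Sd hG hg.loc _).1 hτ
    apply setLIntegral_measure_zero
    refine measure_mono_null (t := {(0 : ℝ)}) ?_ (by simp)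
    rintro t ⟨h0, h1⟩
    rcases h0.eq_or_lt with h2 | h2
    · exact h2.symm
    · exfalso
      obtain ⟨x, hx, hxθ, hle⟩ := (tri_slice hG hg hτ' h2).1 h1
      exact hne (prt_uniq hG hg h hτ' hx hxθ).1

end ALX
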