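import Mathlib

/-! # ALX, chunk J2 (S/M): consequences of the inequality of Fiala (real numbers) -/

open Finset Real

namespace ALX

/-- `A ≤ 2 π m²` where `m` is the mean of the `d v`.
PROOF. The right side of `hF` is `-π R² + 4 π R m - (1/2) ∑ k v (d v)²`, `∑ k v (d v)² ≥ 4 π m²` (Cauchy-Schwarz), and
`-π R² + 4 π R m - 2 π m² = 2 π m² - π (R - 2 m)²`. -/
theorem fiala_mean {ι : Type*} (s : Finset ι) (k d : ι → ℝ) (hk : ∀ v ∈ s, 0 ≤ k v) (hsum : ∑ v ∈ s, k v = 4 * π) {A R m : ℝ}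
    (hm : 4 * π * m = ∑ v ∈ s, k v * d v) (hF : A ≤ π * R ^ 2 - 1 / 2 * ∑ v ∈ s, k v * (R - d v) ^ 2) :
    A ≤ 2 * π * m ^ 2 := by
  have h1 : ∑ v ∈ s, k v * (R - d v) ^ 2 = R ^ 2 * ∑ v ∈ s, k v - 2 * R * ∑ v ∈ s, k v * d v +
      ∑ v ∈ s, k v * (d v) ^ 2 := by
    rw [Finset.mul_sum, Finset.mul_sum, ← Finset.sum_sub_distrib, ← Finset.sum_add_distrib]
    exact Finset.sum_congr rfl fun v _ => by ring
  have h2 : (∑ v ∈ s, k v * d v) ^ 2 ≤ (∑ v ∈ s, k v) * ∑ v ∈ s, k v * (d v) ^ 2 := by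
    have h3 := Finset.sum_mul_sq_le_sq_mul_sq s (fun v => Real.sqrt (k v)) (fun v => Real.sqrt (k v) * d v)
    have h4 : ∑ v ∈ s, Real.sqrt (k v) * (Real.sqrt (k v) * d v) = ∑ v ∈ s, k v * d v :=
      Finset.sum_congr rfl fun v hv => by rw [← mul_assoc, Real.mul_self_sqrt (hk v hv)]
    have h5 : ∑ v ∈ s, Real.sqrt (k v) ^ 2 = ∑ v ∈ s, k v :=
      Finset.sum_congr rfl fun v hv => Real.sq_sqrt (hk v hv)
    have h6 : ∑ v ∈ s, (Real.sqrt (k v) * d v) ^ 2 = ∑ v ∈ s, k v * (d v) ^ 2 :=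
      Finset.sum_congr rfl fun v hv => by rw [mul_pow, Real.sq_sqrt (hk v hv)]
    rw [h4, h5, h6] at h3
    exact h3
  rw [h1, hsum, ← hm] at hF
  rw [hsum, ← hm] at h2
  have hpi := Real.pi_pos
  have h7 : 4 * π * m ^ 2 ≤ ∑ v ∈ s, k v * (d v) ^ 2 := by
    have h8 : (4 * π) * (4 * π * m ^ 2) ≤ (4 * π) * ∑ v ∈ s, k v * (d v) ^ 2 := by nlinarith
    exact le_of_mul_le_mul_left h8 (by positivity)
  nlinarith [mul_nonneg hpi.le (sq_nonneg (R - 2 * m))]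

/-- If `R ≤ D ≤ 2 m` one can replace `R` by `D`.
PROOF. `x ↦ -π x² + 4 π x m` is increasing for `x ≤ 2 m`. -/
theorem fiala_mono {ι : Type*} (s : Finset ι) (k d : ι → ℝ) (hsum : ∑ v ∈ s, k v = 4 * π) {A R D m : ℝ}
    (hm : 4 * π * m = ∑ v ∈ s, k v * d v) (hRD : R ≤ D) (hD : D ≤ 2 * m)
    (hF : A ≤ π * R ^ 2 - 1 / 2 * ∑ v ∈ s, k v * (R - d v) ^ 2) :
    A ≤ π * D ^ 2 - 1 / 2 * ∑ v ∈ s, k v * (D - d v) ^ 2 := by
  have h1 : ∀ x : ℝ, ∑ v ∈ s, k v * (x - d v) ^ 2 = x ^ 2 * ∑ v ∈ s, k v - 2 * x * ∑ v ∈ s, k v * d v +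
      ∑ v ∈ s, k v * (d v) ^ 2 := by
    intro x
    rw [Finset.mul_sum, Finset.mul_sum, ← Finset.sum_sub_distrib, ← Finset.sum_add_distrib]
    exact Finset.sum_congr rfl fun v _ => by ring
  rw [h1, hsum, ← hm] at hF
  rw [h1, hsum, ← hm]
  have hpi := Real.pi_pos
  nlinarith [mul_nonneg hpi.le (mul_nonneg (sub_nonneg.2 hRD) (sub_nonneg.2 (by linarith : R + D ≤ 4 * m)))]

/-- PROOF. `D²r²/2 - 2Dr³/3 + r⁴/4 - D²r²/12 = r²(5D²/12 - 2Dr/3 + r²/4)` and `5D²/12 - 2Dr/3 + r²/4 = (D - r)(5 D - 3 r)/12`. -/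
theorem bg_poly {D r : ℝ} (h0 : 0 ≤ r) (h1 : r ≤ D) :
    D ^ 2 * r ^ 2 / 12 ≤ D ^ 2 * r ^ 2 / 2 - 2 * D * r ^ 3 / 3 + r ^ 4 / 4 := by
  nlinarith [mul_nonneg (mul_nonneg (sq_nonneg r) (sub_nonneg.2 h1)) (by linarith : (0 : ℝ) ≤ 5 * D - 3 * r)]

end ALX
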