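import Pool.Agent.Lib.ALX.D8B
import Pool.Agent.Lib.ALX.J2

/-! # ALX, chunk D9A (M): the inequality of Bishop and Gromov -/

open Real MeasureTheory

namespace ALX

open H47A (E3 cross3 det3 pl)

variable {A : Type} [Fintype A] [DecidableEq A] {n : A → E3} {a0 : A} {q : E3}

/-- PROOF. The integral of `(D - t)² t` over `[0, r]` is `D² r²/2 - 2 D r³/3 + r⁴/4` (`bg_poly`, `J2.lean`), the one of `t` is `r²/2`. -/
theorem bg_one {D r : ℝ} (h0 : 0 ≤ r) (h1 : r ≤ D) :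
    ENNReal.ofReal (D ^ 2 / 6) * ∫⁻ t in Set.Icc 0 r, ENNReal.ofReal t ≤
      ∫⁻ t in Set.Icc 0 r, ENNReal.ofReal t * ENNReal.ofReal ((D - t) ^ 2) := by
  have hD : 0 ≤ D := h0.trans h1
  have i1 : ∫ t in Set.Icc 0 r, (t : ℝ) = r ^ 2 / 2 := by
    rw [integral_Icc_eq_integral_Ioc, ← intervalIntegral.integral_of_le h0, integral_id]
    ring
  have i2 : ∫ t in Set.Icc 0 r, (t : ℝ) * (D - t) ^ 2 = D ^ 2 * r ^ 2 / 2 - 2 * D * r ^ 3 / 3 + r ^ 4 / 4 := by
    rw [integral_Icc_eq_integral_Ioc, ← intervalIntegral.integral_of_le h0]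
    rw [intervalIntegral.integral_eq_sub_of_hasDerivAt
      (f := fun t => D ^ 2 * t ^ 2 / 2 - 2 * D * t ^ 3 / 3 + t ^ 4 / 4)]
    · ring
    · intro t _
      have g1 : HasDerivAt (fun t : ℝ => D ^ 2 * t ^ 2 / 2 - 2 * D * t ^ 3 / 3 + t ^ 4 / 4)
          (D ^ 2 * (((2 : ℕ) : ℝ) * t ^ (2 - 1)) / 2 - 2 * D * (((3 : ℕ) : ℝ) * t ^ (3 - 1)) / 3 +
            ((4 : ℕ) : ℝ) * t ^ (4 - 1) / 4) t :=
        ((((hasDerivAt_pow 2 t).const_mul (D ^ 2)).div_const 2).sub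
          (((hasDerivAt_pow 3 t).const_mul (2 * D)).div_const 3)).add ((hasDerivAt_pow 4 t).div_const 4)
      have g2 : D ^ 2 * (((2 : ℕ) : ℝ) * t ^ (2 - 1)) / 2 - 2 * D * (((3 : ℕ) : ℝ) * t ^ (3 - 1)) / 3 +
            ((4 : ℕ) : ℝ) * t ^ (4 - 1) / 4 = t * (D - t) ^ 2 := by
        push_cast
        ring
      rw [g2] at g1
      exact g1
    · apply Continuous.intervalIntegrable
      fun_prop
  have m1 : ∫⁻ t in Set.Icc 0 r, ENNReal.ofReal t = ENNReal.ofReal (r ^ 2 / 2) := by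
    rw [← i1, ofReal_integral_eq_lintegral_ofReal]
    · exact (continuous_id.integrableOn_Icc)
    · rw [Filter.EventuallyLE, ae_restrict_iff' measurableSet_Icc]
      exact Filter.Eventually.of_forall fun t ht => ht.1
  have m2 : ∫⁻ t in Set.Icc 0 r, ENNReal.ofReal t * ENNReal.ofReal ((D - t) ^ 2) =
      ENNReal.ofReal (D ^ 2 * r ^ 2 / 2 - 2 * D * r ^ 3 / 3 + r ^ 4 / 4) := by
    rw [← i2, ofReal_integral_eq_lintegral_ofReal]
    · refine setLIntegral_congr_fun measurableSet_Icc fun t ht => ?_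
      exact (ENNReal.ofReal_mul ht.1).symm
    · apply Continuous.integrableOn_Icc
      fun_prop
    · rw [Filter.EventuallyLE, ae_restrict_iff' measurableSet_Icc]
      exact Filter.Eventually.of_forall fun t ht => mul_nonneg ht.1 (sq_nonneg _)
  rw [m1, m2, ← ENNReal.ofReal_mul (by positivity)]
  apply ENNReal.ofReal_le_ofReal
  have := bg_poly h0 h1
  linarith

/-- PROOF. `ar_int_dl`, `polar_sum`, `ch_slice` for `h = 1` and for `h t = ofReal ((D - t)²)`: both sides are integrals over `θ`; for generic `θ` (`prt`, `Prt.sum`): `bg_one` with `r = dl n q x ≤ D` (`dl_ray` at the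
point of `Prt`, in `bd n`). -/
theorem bg_gen (hG : Gn n) (hg : Gen n a0 q) {D : ℝ} (hD : ∀ x ∈ bd n, dl n q x ≤ D) :
    ENNReal.ofReal (D ^ 2 / 6) * ar n Set.univ ≤ ∫⁻ x, ENNReal.ofReal ((D - dl n q x) ^ 2) ∂(ar n) := by
  have hq : At n q {a0} := hg.loc
  have e1 : ar n Set.univ = ∫⁻ θ in Set.Ioo (-π) π,
      ∑ s ∈ SF n a0 q, ∫⁻ t in {t : ℝ | 0 ≤ t ∧ (⟨t * cos θ, t * sin θ⟩ : ℂ) ∈ Ch n a0 q s}, ENNReal.ofReal t * 1 := by
    rw [← polar_sum (SF n a0 q) (S := fun s => Ch n a0 q s)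
      (fun s hs => (ch_closed hG hq ((mem_SF hG hq s).1 hs)).measurableSet) (h := fun _ => 1) measurable_const,
      ← ar_int_dl hG hg (h := fun _ => 1) measurable_const]
    exact lintegral_one.symm
  have hm : Measurable fun t : ℝ => ENNReal.ofReal ((D - t) ^ 2) := by fun_prop
  have e2 : ∫⁻ x, ENNReal.ofReal ((D - dl n q x) ^ 2) ∂(ar n) = ∫⁻ θ in Set.Ioo (-π) π,
      ∑ s ∈ SF n a0 q, ∫⁻ t in {t : ℝ | 0 ≤ t ∧ (⟨t * cos θ, t * sin θ⟩ : ℂ) ∈ Ch n a0 q s},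
        ENNReal.ofReal t * ENNReal.ofReal ((D - t) ^ 2) := by
    rw [← polar_sum (SF n a0 q) (S := fun s => Ch n a0 q s)
      (fun s hs => (ch_closed hG hq ((mem_SF hG hq s).1 hs)).measurableSet) (h := fun t => ENNReal.ofReal ((D - t) ^ 2)) hm,
      ← ar_int_dl hG hg (h := fun t => ENNReal.ofReal ((D - t) ^ 2)) hm]
  rw [e1, e2]
  refine (lintegral_const_mul_le _ _).trans (lintegral_mono_ae ?_)
  refine ae_restrict_of_ae (((gd_countable hG hg).ae_notMem volume).mono fun θ hθ => ?_)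
  have hθ' : GD n a0 q (dr n a0 θ) := not_not.1 hθ
  obtain ⟨a, T, T', r, P⟩ := prt hG hg hθ'
  have hr : dl n q (T.symm (q + r • dr n a0 θ)) = r := dl_ray (dir_dr hG a0 θ) P.pos.le P.cl
  have hrD : r ≤ D := by
    have := hD _ ⟨P.cl.1.1, a, P.cl.1.2⟩
    rw [hr] at this
    exact this
  have f1 := P.sum (fun t => ENNReal.ofReal t * 1) (by fun_prop)
  have f2 := P.sum (fun t => ENNReal.ofReal t * ENNReal.ofReal ((D - t) ^ 2)) (by fun_prop)
  simp only [ch_slice]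
  rw [f1, f2]
  simp only [mul_one]
  exact bg_one P.pos.le hrD

end ALX
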