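import Pool.Agent.Lib.H47A.EKap1

/-! # ALX, chunk F1 (M): the area of a triangle near a vertex -/

open Real MeasureTheory

namespace ALX

/-- the rotation and translation are measure preserving -/
theorem f1_vol {u w0 : ℂ} (hu : ‖u‖ = 1) {S : Set ℂ} (hS : MeasurableSet S) :
    volume S = volume {z : ℂ | w0 + u * z ∈ S} := by
  have h1 : MeasurePreserving (rotation ⟨u, mem_sphere_zero_iff_norm.2 hu⟩ : ℂ → ℂ) volume volume :=
    (rotation ⟨u, mem_sphere_zero_iff_norm.2 hu⟩).measurePreserving
  have h2 : MeasurePreserving (fun z : ℂ => w0 + z) volume volume := measurePreserving_add_left volume w0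
  have h3 := (h2.comp h1).measure_preimage hS.nullMeasurableSet
  rw [← h3]
  rfl

theorem f1_hull (a b c : ℂ) : convexHull ℝ {a, b, c} =
    {w : ℂ | ∃ s t : ℝ, 0 ≤ s ∧ 0 ≤ t ∧ s + t ≤ 1 ∧ w = a + (s : ℂ) * (b - a) + (t : ℂ) * (c - a)} := by
  apply Set.Subset.antisymm
  · refine convexHull_min ?_ ?_
    · rintro w (rfl | rfl | rfl)
      · exact ⟨0, 0, le_rfl, le_rfl, by norm_num, by simp⟩
      · exact ⟨1, 0, zero_le_one, le_rfl, by norm_num, by simp⟩
      · exact ⟨0, 1, le_rfl, zero_le_one, by norm_num, by simp⟩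
    · rintro x ⟨s, t, hs, ht, hst, rfl⟩ y ⟨s', t', hs', ht', hst', rfl⟩ α β hα hβ hαβ
      refine ⟨α * s + β * s', α * t + β * t', by positivity, by positivity, ?_, ?_⟩
      · have h1 := mul_le_mul_of_nonneg_left hst hα
        have h2 := mul_le_mul_of_nonneg_left hst' hβ
        linarith
      · rw [Complex.real_smul, Complex.real_smul]
        have h3 : (α : ℂ) + (β : ℂ) = 1 := by exact_mod_cast hαβ
        push_cast
        linear_combination a * h3
  · rintro w ⟨s, t, hs, ht, hst, rfl⟩
    have h1 : a + (s : ℂ) * (b - a) + (t : ℂ) * (c - a) = ∑ i : Fin 3, (![1 - s - t, s, t] i) • (![a, b, c] i) := by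
      rw [Fin.sum_univ_three]
      simp only [Matrix.cons_val_zero, Matrix.cons_val_one, Matrix.cons_val_two, Matrix.head_cons,
        Matrix.tail_cons, Complex.real_smul]
      push_cast
      ring
    rw [h1]
    refine (convex_convexHull ℝ _).sum_mem ?_ ?_ ?_
    · intro i _
      fin_cases i
      · change 0 ≤ 1 - s - t
        linarith
      · exact hs
      · exact ht
    · rw [Fin.sum_univ_three]
      change 1 - s - t + s + t = 1
      ring
    · intro i _
      refine subset_convexHull ℝ _ ?_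
      fin_cases i
      · exact Set.mem_insert _ _
      · exact Set.mem_insert_of_mem _ (Set.mem_insert _ _)
      · exact Set.mem_insert_of_mem _ (Set.mem_insert_of_mem _ rfl)

theorem f1_sin {t z : ℂ} : t.im * z.re - t.re * z.im = ‖t‖ * ‖z‖ * Real.sin (Complex.arg t - Complex.arg z) := by
  rw [Real.sin_sub]
  have h1 := Complex.norm_mul_cos_arg t
  have h2 := Complex.norm_mul_sin_arg t
  have h3 := Complex.norm_mul_cos_arg z
  have h4 := Complex.norm_mul_sin_arg z
  rw [← h1, ← h2, ← h3, ← h4]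
  ring

theorem f1_pos {a b c : ℂ} (hb : b ≠ a) (ht : 0 < ((c - a) / (b - a)).im) :
    ∃ ε0 : ℝ, 0 < ε0 ∧ ∀ ε : ℝ, 0 ≤ ε → ε ≤ ε0 →
      volume (convexHull ℝ {a, b, c} ∩ Metric.closedBall a ε) =
        ENNReal.ofReal (InnerProductGeometry.angle (b - a) (c - a) * ε ^ 2 / 2) := by
  have hb' : b - a ≠ 0 := sub_ne_zero.2 hb
  have hr : 0 < ‖b - a‖ := norm_pos_iff.2 hb'
  have ht0 : (c - a) / (b - a) ≠ 0 := by
    intro h
    rw [h] at ht
    exact lt_irrefl _ ht
  have hc' : c - a ≠ 0 := by
    intro h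
    rw [h, zero_div] at ht0
    exact ht0 rfl
  have hang : InnerProductGeometry.angle (b - a) (c - a) = Complex.arg ((c - a) / (b - a)) := by
    rw [InnerProductGeometry.angle_comm, Complex.angle_eq_abs_arg hc' hb', abs_of_nonneg (Complex.arg_nonneg_iff.2 ht.le)]
  obtain ⟨t, htd⟩ : ∃ t, t = (c - a) / (b - a) := ⟨_, rfl⟩
  have hct : c - a = t * (b - a) := by rw [htd, div_mul_cancel₀ _ hb']
  rw [hang]
  rw [← htd] at ht ht0 ⊢
  have hu : ‖(b - a) / (‖b - a‖ : ℂ)‖ = 1 := by
    rw [norm_div, Complex.norm_real, norm_norm, div_self hr.ne']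
  have hK : 0 < 1 + (1 + |t.re|) / t.im := by positivity
  refine ⟨‖b - a‖ / (1 + (1 + |t.re|) / t.im), div_pos hr hK, fun ε hε hε0 => ?_⟩
  have hmeas : MeasurableSet (convexHull ℝ {a, b, c} ∩ Metric.closedBall a ε) := by
    refine IsClosed.measurableSet (IsClosed.inter ?_ Metric.isClosed_closedBall)
    have h1 : ({a, b, c} : Set ℂ).Finite := by simp
    exact h1.isClosed_convexHull ℝ
  rw [f1_vol (w0 := a) hu hmeas]
  have h1 : {z : ℂ | a + (b - a) / (‖b - a‖ : ℂ) * z ∈ convexHull ℝ {a, b, c} ∩ Metric.closedBall a ε} =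
      {z : ℂ | ‖z‖ ≤ ε ∧ 0 ≤ Complex.arg z ∧ Complex.arg z ≤ Complex.arg t} := by
    ext z
    rw [Set.mem_ofPred_eq, Set.mem_inter_iff, Metric.mem_closedBall, dist_eq_norm, add_sub_cancel_left, norm_mul, hu,
      one_mul, f1_hull, Set.mem_ofPred_eq, Set.mem_ofPred_eq, and_comm]
    refine and_congr_right fun hz => ?_
    have hsec : (0 ≤ Complex.arg z ∧ Complex.arg z ≤ Complex.arg t) ↔ (0 ≤ z.im ∧ 0 ≤ t.im * z.re - t.re * z.im) := by
      rw [← Complex.arg_nonneg_iff, f1_sin]
      refine and_congr_right fun hz0 => ?_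
      have hzπ := Complex.arg_le_pi z
      have hθ0 := Complex.arg_nonneg_iff.2 ht.le
      have hθπ := Complex.arg_le_pi t
      rcases eq_or_ne z 0 with rfl | hzn
      · rw [norm_zero, mul_zero, zero_mul, Complex.arg_zero]
        simp only [le_refl, iff_true]
        exact hθ0
      · rw [mul_nonneg_iff_of_pos_left (mul_pos (norm_pos_iff.2 ht0) (norm_pos_iff.2 hzn))]
        constructor
        · intro h
          exact Real.sin_nonneg_of_nonneg_of_le_pi (by linarith) (by linarith)
        · intro h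
          by_contra hcon
          push Not at hcon
          have h2 : 0 < Complex.arg t := by
            refine lt_of_le_of_ne hθ0 fun h => ?_
            have h5 := Complex.norm_mul_sin_arg t
            rw [← h, Real.sin_zero, mul_zero] at h5
            exact ht.ne h5
          have h3 := Real.sin_neg_of_neg_of_neg_pi_lt (x := Complex.arg t - Complex.arg z) (by linarith) (by linarith)
          linarith
    rw [hsec]
    constructor
    · rintro ⟨s, t', hs, ht', hst, he⟩
      have h2 : z = (‖b - a‖ : ℂ) * ((s : ℂ) + (t' : ℂ) * t) := by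
        have h3 : (b - a) / (‖b - a‖ : ℂ) * z = ((s : ℂ) + (t' : ℂ) * t) * (b - a) := by
          rw [hct] at he
          linear_combination he
        have hn : (‖b - a‖ : ℂ) ≠ 0 := by exact_mod_cast hr.ne'
        field_simp at h3
        exact h3
      have h4 : z.im = ‖b - a‖ * (t' * t.im) := by
        rw [h2, Complex.im_ofReal_mul, Complex.add_im, Complex.ofReal_im, Complex.im_ofReal_mul, zero_add]
      have h5 : z.re = ‖b - a‖ * (s + t' * t.re) := by
        rw [h2, Complex.re_ofReal_mul, Complex.add_re, Complex.ofReal_re, Complex.re_ofReal_mul]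
      rw [h4, h5]
      refine ⟨by positivity, ?_⟩
      have h6 : t.im * (‖b - a‖ * (s + t' * t.re)) - t.re * (‖b - a‖ * (t' * t.im)) = ‖b - a‖ * s * t.im := by ring
      rw [h6]
      positivity
    · rintro ⟨hz1, hz2⟩
      have hy0 : 0 ≤ z.im / t.im := div_nonneg hz1 ht.le
      have hx0 : 0 ≤ z.re - z.im / t.im * t.re := by
        have h7 : z.re - z.im / t.im * t.re = (t.im * z.re - t.re * z.im) / t.im := by
          field_simp
        rw [h7]
        exact div_nonneg hz2 ht.le
      refine ⟨(z.re - z.im / t.im * t.re) / ‖b - a‖, (z.im / t.im) / ‖b - a‖, div_nonneg hx0 hr.le, div_nonneg hy0 hr.le, ?_, ?_⟩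
      · rw [← add_div, div_le_one hr]
        have h8 : |z.re| ≤ ‖z‖ := Complex.abs_re_le_norm z
        have h9 : |z.im| ≤ ‖z‖ := Complex.abs_im_le_norm z
        have h10 : z.im / t.im ≤ ‖z‖ / t.im := by
          gcongr
          exact (le_abs_self _).trans h9
        have h11 : -(z.im / t.im * t.re) ≤ ‖z‖ / t.im * |t.re| := by
          calc -(z.im / t.im * t.re) ≤ |z.im / t.im * t.re| := neg_le_abs _
            _ = z.im / t.im * |t.re| := by rw [abs_mul, abs_of_nonneg hy0]
            _ ≤ ‖z‖ / t.im * |t.re| := mul_le_mul_of_nonneg_right h10 (abs_nonneg _)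
        have h12 : z.re ≤ ‖z‖ := (le_abs_self _).trans h8
        have h13 : ‖z‖ * (1 + (1 + |t.re|) / t.im) ≤ ‖b - a‖ := by
          rw [← le_div_iff₀ hK]
          exact hz.trans hε0
        have h14 : ‖z‖ * (1 + (1 + |t.re|) / t.im) = ‖z‖ + ‖z‖ / t.im + ‖z‖ / t.im * |t.re| := by ring
        linarith
      · have hn : (‖b - a‖ : ℂ) ≠ 0 := by exact_mod_cast hr.ne'
        have hti : (t.im : ℂ) ≠ 0 := by exact_mod_cast ht.ne'
        have h15 : z = ((z.re - z.im / t.im * t.re : ℝ) : ℂ) + ((z.im / t.im : ℝ) : ℂ) * t := by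
          apply Complex.ext
          · rw [Complex.add_re, Complex.ofReal_re, Complex.re_ofReal_mul]
            ring
          · rw [Complex.add_im, Complex.ofReal_im, Complex.im_ofReal_mul, zero_add, div_mul_cancel₀ _ ht.ne']
        rw [hct]
        conv_lhs => rw [h15]
        push_cast
        field_simp
        ring
  rw [h1, H47A.sector_area (by linarith [Real.pi_pos]) (Complex.arg_nonneg_iff.2 ht.le) (Complex.arg_le_pi _) hε]
  congr 1
  ring

/-- PROOF. The volume and the angle are invariant under isometries of `ℂ` (translation by `-a`; multiplication by the unit `conj (b - a) / ‖b - a‖`; conjugation if necessary): we may assume `a = 0`, `b > 0` real, `im c > 0` (`im c ≠ 0` because the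
angle is not `0`, `π`); then the angle is `arg c` (`Complex.angle_one_left`-like). `convexHull {0, b, c} = {s b + t c | s, t ≥ 0, s + t ≤ 1}`. A point `z ≠ 0` with `0 ≤ arg z ≤ arg c` is `s b + t c` with `s, t ≥ 0` (`t = im z / im c`, `s = im (c conj z)... / ...`), and `s + t ≤ C ‖z‖` with a
constant `C`; so for `ε ≤ ε0 = 1 / C` the set is `{z | ‖z‖ ≤ ε, 0 ≤ arg z, arg z ≤ arg c}`: `H47A.sector_area` (`Lib/H47A/EKap1.lean`). -/
theorem tri_sector {a b c : ℂ} (hb : b ≠ a) (hc : c ≠ a) (h0 : 0 < InnerProductGeometry.angle (b - a) (c - a))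
    (hπ : InnerProductGeometry.angle (b - a) (c - a) < π) :
    ∃ ε0 : ℝ, 0 < ε0 ∧ ∀ ε : ℝ, 0 ≤ ε → ε ≤ ε0 →
      volume (convexHull ℝ {a, b, c} ∩ Metric.closedBall a ε) =
        ENNReal.ofReal (InnerProductGeometry.angle (b - a) (c - a) * ε ^ 2 / 2) := by
  have hb' : b - a ≠ 0 := sub_ne_zero.2 hb
  have hc' : c - a ≠ 0 := sub_ne_zero.2 hc
  have him : ((c - a) / (b - a)).im ≠ 0 := by
    intro h
    rw [InnerProductGeometry.angle_comm, Complex.angle_eq_abs_arg hc' hb'] at h0 hπ
    rcases le_or_gt 0 ((c - a) / (b - a)).re with h1 | h1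
    · rw [(Complex.arg_eq_zero_iff).2 ⟨h1, h⟩, abs_zero] at h0
      exact lt_irrefl _ h0
    · rw [(Complex.arg_eq_pi_iff).2 ⟨h1, h⟩, abs_of_pos Real.pi_pos] at hπ
      exact lt_irrefl _ hπ
  rcases lt_or_gt_of_ne him with h | h
  · have h2 : 0 < ((b - a) / (c - a)).im := by
      have h3 : (b - a) / (c - a) = ((c - a) / (b - a))⁻¹ := (inv_div _ _).symm
      rw [h3, Complex.inv_im]
      exact div_pos (neg_pos.2 h) (Complex.normSq_pos.2 (div_ne_zero hc' hb'))
    obtain ⟨ε0, he, h4⟩ := f1_pos hc h2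
    refine ⟨ε0, he, fun ε h5 h6 => ?_⟩
    have h7 := h4 ε h5 h6
    have h8 : ({a, b, c} : Set ℂ) = {a, c, b} := by rw [Set.pair_comm b c]
    rw [h8, h7, InnerProductGeometry.angle_comm]
  · exact f1_pos hb h

end ALX
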