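import Pool.Agent.Lib.ALX.D8B2
import Pool.Agent.Lib.ALX.D8A2
import Pool.Agent.Lib.ALX.F1

/-! # ALX, chunk D9C (M): the sum of the angles at `q` is `2 π` -/

open Real MeasureTheory

namespace ALX

open H47A (E3 cross3 det3 pl)

variable {A : Type} [Fintype A] [DecidableEq A] {n : A → E3} {a0 : A} {q : E3}

theorem d9c_unif {β : Type*} (s : Finset β) {P : β → ℝ → Prop} (hmono : ∀ b, ∀ x y : ℝ, y ≤ x → P b x → P b y)
    (h : ∀ b ∈ s, ∃ δ : ℝ, 0 < δ ∧ P b δ) : ∃ δ : ℝ, 0 < δ ∧ ∀ b ∈ s, P b δ := by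
  classical
  induction s using Finset.induction_on with
  | empty => exact ⟨1, one_pos, fun b hb => absurd hb (Finset.notMem_empty b)⟩
  | insert b s _ ih =>
    obtain ⟨δ, hδ, h1⟩ := ih fun c hc => h c (Finset.mem_insert_of_mem hc)
    obtain ⟨δ', hδ', h2⟩ := h b (Finset.mem_insert_self b s)
    refine ⟨min δ δ', lt_min hδ hδ', fun c hc => ?_⟩
    rcases Finset.mem_insert.1 hc with rfl | hc
    · exact hmono _ _ _ (min_le_right _ _) h2
    · exact hmono _ _ _ (min_le_left _ _) (h1 c hc)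

theorem d9c_int {ε : ℝ} (hε : 0 ≤ ε) : ∫⁻ t in Set.Icc (0 : ℝ) ε, ENNReal.ofReal t = ENNReal.ofReal (ε ^ 2 / 2) := by
  rw [← ofReal_integral_eq_lintegral_ofReal]
  · rw [integral_Icc_eq_integral_Ioc, ← intervalIntegral.integral_of_le hε, integral_id]
    congr 1
    ring
  · exact continuous_id.integrableOn_Icc
  · exact ae_restrict_of_forall_mem measurableSet_Icc fun t ht => ht.1

/-- The ridges have a positive distance from `q`. PROOF. Finitely many compact ridges (`cl_conv`), `dl n q x > 0` (`ridge_pt`) and continuous (`capi_cont`; or: on the ridge it is `‖x - p‖`). -/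
theorem ridges_far (hG : Gn n) (hg : Gen n a0 q) : ∃ δ : ℝ, 0 < δ ∧ ∀ σ ∈ Sd n a0 q, ∀ x ∈ RR n q σ, δ ≤ dl n q x := by
  have hq := hg.loc
  refine d9c_unif (Sd n a0 q) (P := fun σ δ => ∀ x ∈ RR n q σ, δ ≤ dl n q x)
    (fun σ x y hyx h z hz => hyx.trans (h z hz)) fun σ hσ => ?_
  have hs := (mem_Sd hG hq σ).1 hσ
  have hcomp : IsCompact (RR n q σ) := (cl_conv hG hq hs.m1).1.inter (cl_conv hG hq hs.m2).1
  rcases (RR n q σ).eq_empty_or_nonempty with h0 | h0
  · refine ⟨1, one_pos, fun x hx => ?_⟩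
    rw [h0] at hx
    exact absurd hx (Set.notMem_empty x)
  · obtain ⟨x0, hx0, hmin⟩ := hcomp.exists_isMinOn h0 (f := fun x => ‖x - σ.2.1.symm q‖)
      ((continuous_id.sub continuous_const).norm.continuousOn)
    have h1 := ridge_pt hG hg hs hx0
    refine ⟨dl n q x0, h1.2.2.1, fun x hx => ?_⟩
    have h2 := ridge_pt hG hg hs hx
    rw [← h1.2.2.2.2.1, ← h2.2.2.2.2.1]
    exact hmin hx

theorem d9c_ne (hG : Gn n) (hg : Gen n a0 q) {σ : A × (E3 ≃ᵃⁱ[ℝ] E3) × (E3 ≃ᵃⁱ[ℝ] E3)} (hσ : IsSd n a0 q σ) {x : E3}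
    (hx : x ∈ RR n q σ) : cc n a0 q (σ.2.1 x) ≠ 0 := by
  have h1 := norm_cc hG hg hσ hx
  have h2 := (ridge_pt hG hg hσ hx).2.2.1
  rw [← h1] at h2
  exact norm_pos_iff.1 h2

/-- PROOF. Let `ε` be smaller than `δ` (`ridges_far`) and the numbers `ε0` of `tri_sector` for the triangles `TriD σ` at the vertex `0` (`phi_pos`, `angles_tri`). `∑ σ, volume (TriD σ ∩ closedBall 0 ε) = ∑ σ, ∫⁻ z in TriD σ, h ‖z‖` with `h` = the indicator function of `Iic ε`; by `polar_sum`,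
`slice_sum` (for generic `θ`; `r = dl n q x ≥ δ ≥ ε` by `prt_sd`, `prt_uniq`, `ridges_far`) this is `∫⁻ θ in Ioo (-π) π, ∫⁻ t in Icc 0 r, ofReal t * h t = 2 π ε² / 2`. And `volume (TriD σ ∩ closedBall 0 ε) = ofReal (phi σ * ε² / 2)`. -/
theorem sum_phi (hG : Gn n) (hg : Gen n a0 q) : ∑ σ ∈ Sd n a0 q, phi n q σ = 2 * π := by
  have hq := hg.loc
  obtain ⟨δ, hδ, hδ'⟩ := ridges_far hG hg
  obtain ⟨ε1, hε1, hε1'⟩ := d9c_unif (Sd n a0 q)
    (P := fun σ x => ∀ ε : ℝ, 0 ≤ ε → ε ≤ x → volume (TriD n a0 q σ ∩ Metric.closedBall 0 ε) = ENNReal.ofReal (phi n q σ * ε ^ 2 / 2))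
    (fun σ x y hyx h z hz hzy => h z hz (hzy.trans hyx)) (fun σ hσ => by
      have hs := (mem_Sd hG hq σ).1 hσ
      have h1 := (angles_tri hG hg hs).1
      obtain ⟨h2, h3⟩ := phi_pos hG hg hs
      rw [h1] at h2 h3
      obtain ⟨ε0, h4, h5⟩ := tri_sector (a := 0) (b := cc n a0 q (σ.2.1 (en n q σ).1)) (c := cc n a0 q (σ.2.1 (en n q σ).2))
        (d9c_ne hG hg hs (by rw [(en_spec hs).2]; exact left_mem_segment ℝ _ _))
        (d9c_ne hG hg hs (by rw [(en_spec hs).2]; exact right_mem_segment ℝ _ _))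
        (by rwa [sub_zero, sub_zero]) (by rwa [sub_zero, sub_zero])
      refine ⟨ε0, h4, fun ε hε hε' => ?_⟩
      have h6 := h5 ε hε hε'
      rw [sub_zero, sub_zero, ← h1] at h6
      exact h6)
  set ε := min δ ε1 with hε
  have hε0 : 0 < ε := lt_min hδ hε1
  set h : ℝ → ENNReal := (Set.Iic ε).indicator 1 with hh
  have hmeas : Measurable h := measurable_one.indicator measurableSet_Iic
  have h1 : ∀ σ ∈ Sd n a0 q, ∫⁻ z in TriD n a0 q σ, h ‖z‖ = ENNReal.ofReal (phi n q σ * ε ^ 2 / 2) := by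
    intro σ hσ
    rw [← hε1' σ hσ ε hε0.le (min_le_right _ _)]
    have h2 : (fun z : ℂ => h ‖z‖) = (Metric.closedBall (0 : ℂ) ε).indicator 1 := by
      funext z
      by_cases hz : ‖z‖ ≤ ε
      · rw [hh, Set.indicator_of_mem (show ‖z‖ ∈ Set.Iic ε from hz),
          Set.indicator_of_mem (show z ∈ Metric.closedBall (0 : ℂ) ε from mem_closedBall_zero_iff.2 hz)]
        rfl
      · rw [hh, Set.indicator_of_notMem (show ‖z‖ ∉ Set.Iic ε from hz),
          Set.indicator_of_notMem (show z ∉ Metric.closedBall (0 : ℂ) ε from fun h' => hz (mem_closedBall_zero_iff.1 h'))]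
    rw [h2, lintegral_indicator_one Metric.isClosed_closedBall.measurableSet,
      Measure.restrict_apply Metric.isClosed_closedBall.measurableSet, Set.inter_comm]
  have h2 : ∑ σ ∈ Sd n a0 q, ∫⁻ z in TriD n a0 q σ, h ‖z‖ = ENNReal.ofReal (ε ^ 2 / 2) * ENNReal.ofReal (2 * π) := by
    rw [polar_sum (Sd n a0 q) (S := fun σ => TriD n a0 q σ) (fun σ _ => (tri_compact σ).1.isClosed.measurableSet) hmeas]
    have h3 : ∫⁻ θ in Set.Ioo (-π) π, ∑ σ ∈ Sd n a0 q, ∫⁻ t in {t : ℝ | 0 ≤ t ∧ (⟨t * cos θ, t * sin θ⟩ : ℂ) ∈ TriD n a0 q σ},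
        ENNReal.ofReal t * h t = ∫⁻ _ in Set.Ioo (-π) π, ENNReal.ofReal (ε ^ 2 / 2) := by
      refine lintegral_congr_ae (ae_restrict_of_ae ?_)
      filter_upwards [(gd_countable hG hg).ae_notMem volume] with θ hθ
      have hGD : GD n a0 q (dr n a0 θ) := not_not.1 hθ
      obtain ⟨a, T, T', r, hp⟩ := prt hG hg hGD
      rw [slice_sum hG hg hp (fun t => ENNReal.ofReal t * h t)]
      obtain ⟨hsd, x, hx, hxθ⟩ := prt_sd hG hg hp
      have hr : ε ≤ r := by
        have h4 := (prt_uniq hG hg hp hsd hx hxθ).2.1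
        rw [← h4]
        exact (min_le_left _ _).trans (hδ' _ ((mem_Sd hG hq _).2 hsd) x hx)
      have h5 : (fun t => ENNReal.ofReal t * h t) = (Set.Iic ε).indicator fun t => ENNReal.ofReal t := by
        funext t
        by_cases ht : t ≤ ε
        · rw [hh, Set.indicator_of_mem (show t ∈ Set.Iic ε from ht), Set.indicator_of_mem (show t ∈ Set.Iic ε from ht)]
          simp
        · rw [hh, Set.indicator_of_notMem (show t ∉ Set.Iic ε from ht),
            Set.indicator_of_notMem (show t ∉ Set.Iic ε from ht), mul_zero]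
      rw [h5, setLIntegral_indicator measurableSet_Iic]
      have h6 : Set.Iic ε ∩ Set.Icc 0 r = Set.Icc 0 ε := by
        ext t
        constructor
        · rintro ⟨h7, h8⟩
          exact ⟨h8.1, h7⟩
        · rintro ⟨h7, h8⟩
          exact ⟨h8, h7, h8.trans hr⟩
      rw [h6, d9c_int hε0.le]
    rw [h3, setLIntegral_const, Real.volume_Ioo]
    congr 2
    ring
  rw [Finset.sum_congr rfl h1, ← ENNReal.ofReal_sum_of_nonneg, ← ENNReal.ofReal_mul (by positivity)] at h2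
  · have h3 : ∑ σ ∈ Sd n a0 q, phi n q σ * ε ^ 2 / 2 = ε ^ 2 / 2 * (2 * π) := by
      refine (ENNReal.ofReal_eq_ofReal_iff (Finset.sum_nonneg fun σ hσ => ?_) (by positivity)).1 h2
      have := (phi_pos hG hg ((mem_Sd hG hq σ).1 hσ)).1.le
      positivity
    have h4 : ∑ σ ∈ Sd n a0 q, phi n q σ * ε ^ 2 / 2 = ε ^ 2 / 2 * ∑ σ ∈ Sd n a0 q, phi n q σ := by
      rw [Finset.mul_sum]
      exact Finset.sum_congr rfl fun σ _ => by ring
    rw [h4] at h3
    exact mul_left_cancel₀ (by positivity) h3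
  · intro σ hσ
    have := (phi_pos hG hg ((mem_Sd hG hq σ).1 hσ)).1.le
    positivity

end ALX
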