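import Pool.Agent.Lib.ALX.CApi

/-! # ALX, modules D, E, F, H: definitions (helper34)

`q` a point of the facet `a0`; `T ∈ Img n a0 q a` an unfolding of the facet `a`. The ray in the direction `u` is `t ↦ T.symm (q + t • u)` in the plane of the facet `a`. -/

open Real MeasureTheory

namespace ALX

open H47A (E3 cross3 det3 pl)

variable {A : Type} [Fintype A] [DecidableEq A] (n : A → E3)

/-- The times at which the ray in the direction `u` is in the cell of `T`. -/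
def IS (q u : E3) (a : A) (T : E3 ≃ᵃⁱ[ℝ] E3) : Set ℝ := {t | 0 ≤ t ∧ T.symm (q + t • u) ∈ Cl n q a T}

/-- Coordinates of the plane of `a0` with the origin `q`. -/
noncomputable def cd (a0 : A) (q : E3) (z : ℂ) : E3 := q + z.re • (fr n a0).1 + z.im • (fr n a0).2

/-- The inverse of `cd`. -/
noncomputable def cc (a0 : A) (q : E3) (y : E3) : ℂ := ⟨inner ℝ (y - q) (fr n a0).1, inner ℝ (y - q) (fr n a0).2⟩

/-- The unfolded cell of the state `s = (a, T)` in the coordinates. -/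
def Ch (a0 : A) (q : E3) (s : A × (E3 ≃ᵃⁱ[ℝ] E3)) : Set ℂ := {z | s.2.symm (cd n a0 q z) ∈ Cl n q s.1 s.2}

open Classical in
/-- The finite set of the states. -/
noncomputable def SF (a0 : A) (q : E3) : Finset (A × (E3 ≃ᵃⁱ[ℝ] E3)) :=
  if h : (St n a0 q).Finite then h.toFinset else ∅

/-- The ridge between the cells of `T` and `T'`. -/
def Rg (q : E3) (a : A) (T T' : E3 ≃ᵃⁱ[ℝ] E3) : Set E3 := Cl n q a T ∩ Cl n q a T'

/-- `S` is the nondegenerate segment with the ends `p.1`, `p.2`. -/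
def IsEnds (S : Set E3) (p : E3 × E3) : Prop := p.1 ≠ p.2 ∧ S = segment ℝ p.1 p.2

open Classical in
/-- The ends of a segment (the choice depends on the set only). -/
noncomputable def ends (S : Set E3) : E3 × E3 := if h : ∃ p, IsEnds S p then h.choose else (0, 0)

/-- A side of a ridge: the facet `a`, the unfolding `T` of the side, the unfolding `T'` of the other side; the ridge is a nondegenerate segment. -/
structure IsSd (a0 : A) (q : E3) (σ : A × (E3 ≃ᵃⁱ[ℝ] E3) × (E3 ≃ᵃⁱ[ℝ] E3)) : Prop where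
  m1 : σ.2.1 ∈ Img n a0 q σ.1
  m2 : σ.2.2 ∈ Img n a0 q σ.1
  ne : σ.2.1 ≠ σ.2.2
  nd : ∃ p, IsEnds (Rg n q σ.1 σ.2.1 σ.2.2) p

open Classical in
/-- The finite set of the sides. -/
noncomputable def Sd (a0 : A) (q : E3) : Finset (A × (E3 ≃ᵃⁱ[ℝ] E3) × (E3 ≃ᵃⁱ[ℝ] E3)) :=
  if h : {σ | IsSd n a0 q σ}.Finite then h.toFinset else ∅

/-- The other side of the ridge. -/
def flp (σ : A × (E3 ≃ᵃⁱ[ℝ] E3) × (E3 ≃ᵃⁱ[ℝ] E3)) : A × (E3 ≃ᵃⁱ[ℝ] E3) × (E3 ≃ᵃⁱ[ℝ] E3) := (σ.1, σ.2.2, σ.2.1)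

/-- The ridge of a side. -/
def RR (q : E3) (σ : A × (E3 ≃ᵃⁱ[ℝ] E3) × (E3 ≃ᵃⁱ[ℝ] E3)) : Set E3 := Rg n q σ.1 σ.2.1 σ.2.2

/-- The ends of the ridge of a side. -/
noncomputable def en (q : E3) (σ : A × (E3 ≃ᵃⁱ[ℝ] E3) × (E3 ≃ᵃⁱ[ℝ] E3)) : E3 × E3 := ends (RR n q σ)

/-- The triangle between `q` and the unfolded ridge, in the coordinates. -/
noncomputable def TriD (a0 : A) (q : E3) (σ : A × (E3 ≃ᵃⁱ[ℝ] E3) × (E3 ≃ᵃⁱ[ℝ] E3)) : Set ℂ :=
  convexHull ℝ {0, cc n a0 q (σ.2.1 (en n q σ).1), cc n a0 q (σ.2.1 (en n q σ).2)}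

/-- The angles of directions in which the unfolded ridge is seen from `q`. -/
def JJ (a0 : A) (q : E3) (σ : A × (E3 ≃ᵃⁱ[ℝ] E3) × (E3 ≃ᵃⁱ[ℝ] E3)) : Set ℝ :=
  {θ | ∃ x ∈ RR n q σ, σ.2.1 x = q + dl n q x • dr n a0 θ}

/-- The angle at `q` of the triangle of a side. -/
noncomputable def phi (q : E3) (σ : A × (E3 ≃ᵃⁱ[ℝ] E3) × (E3 ≃ᵃⁱ[ℝ] E3)) : ℝ :=
  InnerProductGeometry.angle ((en n q σ).1 - σ.2.1.symm q) ((en n q σ).2 - σ.2.1.symm q)

open Classical in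
/-- The angle of the triangle of a side at the node `z` (`0` if `z` is not an end of the ridge). -/
noncomputable def angAt (q : E3) (σ : A × (E3 ≃ᵃⁱ[ℝ] E3) × (E3 ≃ᵃⁱ[ℝ] E3)) (z : E3) : ℝ :=
  if z = (en n q σ).1 then InnerProductGeometry.angle (σ.2.1.symm q - z) ((en n q σ).2 - z)
  else if z = (en n q σ).2 then InnerProductGeometry.angle (σ.2.1.symm q - z) ((en n q σ).1 - z)
  else 0

/-- The structure of the ray in a generic direction `u`: it ends at the distance `r` at a point of the ridge of `T, T'` in the facet `a`. -/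
structure Prt (a0 : A) (q u : E3) (a : A) (T T' : E3 ≃ᵃⁱ[ℝ] E3) (r : ℝ) : Prop where
  pos : 0 < r
  mem : T ∈ Img n a0 q a
  mem' : T' ∈ Img n a0 q a
  ne : T ≠ T'
  at1 : At n (T.symm (q + r • u)) {a}
  cl : T.symm (q + r • u) ∈ Cl n q a T
  cl' : T.symm (q + r • u) ∈ Cl n q a T'
  two : ∀ T'' ∈ Img n a0 q a, T.symm (q + r • u) ∈ Cl n q a T'' → T'' = T ∨ T'' = T'
  rid : ∀ b, ∀ S ∈ Img n a0 q b, ∀ S' ∈ Img n a0 q b, S ≠ S' → ∀ t : ℝ, 0 ≤ t → S.symm (q + t • u) ∈ Cl n q b S →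
    S.symm (q + t • u) ∈ Cl n q b S' → b = a ∧ S = T ∧ S' = T' ∧ t = r
  le : ∀ b, ∀ S ∈ Img n a0 q b, ∀ t ∈ IS n q u b S, t ≤ r
  cov : ∀ t : ℝ, 0 ≤ t → t ≤ r → ∃ s ∈ SF n a0 q, t ∈ IS n q u s.1 s.2
  sum : ∀ g : ℝ → ENNReal, Measurable g → ∑ s ∈ SF n a0 q, ∫⁻ t in IS n q u s.1 s.2, g t = ∫⁻ t in Set.Icc 0 r, g t

end ALX
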