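import Pool.Agent.Lib.H47A.EPd2

/-!
# ALX: Area ≤ (2 π / 3) D² for all convex surfaces: definitions

`n : A → E3` a finite family of normals, `Pt n = {u | ⟪n a, u⟫ ≤ 1 for all a}` the polytope, `Fc n a` its facets. Everything is written in Euclidean three space: the unfolding along a chain of
facets is an affine isometry (a product of the rotations `rho n a b` about the edges).
-/

open Real MeasureTheory

namespace ALX

open H47A (E3 cross3 det3 pl)

section

variable {A : Type} [Fintype A] [DecidableEq A] (n : A → E3)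

/-- The functional of a facet. -/
noncomputable def lf (a : A) (u : E3) : ℝ := inner ℝ (n a) u

/-- The polytope. -/
def Pt : Set E3 := {u | ∀ a, lf n a u ≤ 1}

/-- The facets. -/
def Fc (a : A) : Set E3 := {u | u ∈ Pt n ∧ lf n a u = 1}

/-- The boundary. -/
def bd : Set E3 := {u | u ∈ Pt n ∧ ∃ a, lf n a u = 1}

open Classical in
/-- The facet planes through `x`. -/
noncomputable def Ac (x : E3) : Finset A := Finset.univ.filter fun a => lf n a x = 1

/-- `x` is a point of the polytope which lies on exactly the facets of `s`. -/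
def At (x : E3) (s : Finset A) : Prop := x ∈ Pt n ∧ Ac n x = s

/-- **Genericity**: the polytope is bounded, three normals are independent, four facet planes never meet. -/
structure Gn : Prop where
  bdd : ∃ R : ℝ, ∀ u ∈ Pt n, ‖u‖ ≤ R
  three : ∀ a b c : A, a ≠ b → b ≠ c → a ≠ c → det3 (n a) (n b) (n c) ≠ 0
  four : ∀ a b c d : A, a ≠ b → a ≠ c → a ≠ d → b ≠ c → b ≠ d → c ≠ d → ∀ u : E3,
    ¬ (lf n a u = 1 ∧ lf n b u = 1 ∧ lf n c u = 1 ∧ lf n d u = 1)

/-- Unit normal. -/
noncomputable def nu (a : A) : E3 := ‖n a‖⁻¹ • n a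

/-- The rotation about the common line of two facet planes which maps the plane of `b` to the plane of `a` (the rotated facet `b` lies beyond the facet `a`). -/
structure IsHinge (a b : A) (ρ : E3 ≃ᵃⁱ[ℝ] E3) : Prop where
  fix : ∀ x, lf n a x = 1 → lf n b x = 1 → ρ x = x
  nor : ρ.linearIsometryEquiv (nu n b) = nu n a
  ori : ∀ u v, ρ.linearIsometryEquiv (cross3 u v) = cross3 (ρ.linearIsometryEquiv u) (ρ.linearIsometryEquiv v)

open Classical in
/-- The hinge. -/
noncomputable def rho (a b : A) : E3 ≃ᵃⁱ[ℝ] E3 := if h : ∃ ρ, IsHinge n a b ρ then h.choose else AffineIsometryEquiv.refl ℝ E3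

/-- The unfolding along a chain of facets; the list is in reversed order: `chT [a_k, …, a_0]` maps the plane of `a_k` to the plane of `a_0`. -/
noncomputable def chT : List A → (E3 ≃ᵃⁱ[ℝ] E3)
  | [] => AffineIsometryEquiv.refl ℝ E3
  | [_] => AffineIsometryEquiv.refl ℝ E3
  | b :: a :: c => (rho n a b).trans (chT (a :: c))

/-- The inner distance. -/
noncomputable def dl (x y : E3) : ℝ := (pl (bd n) x y).toReal

/-- The inner diameter. -/
noncomputable def Dm : ℝ := ⨆ p : bd n × bd n, dl n p.1 p.2

/-- The length of the polygon `x, l` (consecutive points). -/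
noncomputable def plen : E3 → List E3 → ℝ
  | _, [] => 0
  | x, y :: l => ‖x - y‖ + plen y l

/-- The polygon `x = y_0, y_1, …, y_(k+1) = y` runs through the facets `a_0, …, a_k` (`y_i, y_(i+1)` in the facet `a_i`): lists `s = [a_0, …, a_k]`, `l = [y_1, …, y_(k+1)]`. -/
def Thru : E3 → List A → List E3 → E3 → Prop
  | x, [], [], y => x = y
  | x, a :: s, z :: l, y => x ∈ Fc n a ∧ z ∈ Fc n a ∧ Thru z s l y
  | _, _, _, _ => False

/-- **Rays**: the straight line `q + t u` unfolded through the facets of the list (last facet first); `t` is the time of entry in the last facet. -/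
inductive Ray (a0 : A) (q u : E3) : List A → ℝ → Prop
  | base : Ray a0 q u [a0] 0
  | step {a b : A} {c : List A} {t t' : ℝ} : Ray a0 q u (a :: c) t → b ∉ a :: c → t < t' →
      At n ((chT n (a :: c)).symm (q + t' • u)) {a, b} → Ray a0 q u (b :: a :: c) t'

/-- The ray in direction `u` reaches `x` at the distance `r`, in the last facet of the list `l`. -/
def ReachL (a0 : A) (q u x : E3) (r : ℝ) (l : List A) : Prop :=
  ∃ a c t, l = a :: c ∧ Ray n a0 q u l t ∧ x ∈ Fc n a ∧ t < r ∧ chT n l x = q + r • u

/-- The ray in direction `u` reaches `x` at the distance `r`. -/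
def Reach (a0 : A) (q u x : E3) (r : ℝ) : Prop := ∃ l, ReachL n a0 q u x r l

/-- `u` is a direction of the facet plane of `a`. -/
def Dir (a : A) (u : E3) : Prop := ‖u‖ = 1 ∧ inner ℝ (n a) u = (0 : ℝ)

/-- The unfoldings of the shortest paths from `q` to interior points of the facet `a`. -/
def Img (a0 : A) (q : E3) (a : A) : Set (E3 ≃ᵃⁱ[ℝ] E3) :=
  {T | ∃ u x c, Dir n a0 u ∧ At n x {a} ∧ ReachL n a0 q u x (dl n q x) (a :: c) ∧ T = chT n (a :: c)}

/-- The cell of the unfolding `T` in the facet `a`. -/
def Cl (q : E3) (a : A) (T : E3 ≃ᵃⁱ[ℝ] E3) : Set E3 := {y | y ∈ Fc n a ∧ dl n q y = ‖T y - q‖}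

/-- The direction of the edge `a b` at the vertex `a b c`, pointing into the edge. -/
noncomputable def ed (a b c : A) : E3 := -(det3 (n a) (n b) (n c)) • cross3 (n a) (n b)

/-- The angle of the facet `a` at the vertex `a b c`. -/
noncomputable def vang (a b c : A) : ℝ := InnerProductGeometry.angle (ed n a b c) (ed n a c b)

/-- The vertices. -/
def Vs : Set E3 := {v | v ∈ Pt n ∧ 3 ≤ (Ac n v).card}

open Classical in
/-- The finite set of the vertices. -/
noncomputable def Vx : Finset E3 := if h : (Vs n).Finite then h.toFinset else ∅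

open Classical in
/-- The curvature: `2 π` minus the sum of the angles at a vertex. -/
noncomputable def kp (v : E3) : ℝ :=
  if h : ∃ t : A × A × A, t.1 ≠ t.2.1 ∧ t.2.1 ≠ t.2.2 ∧ t.1 ≠ t.2.2 ∧ At n v {t.1, t.2.1, t.2.2} then
    2 * π - vang n h.choose.1 h.choose.2.1 h.choose.2.2 - vang n h.choose.2.1 h.choose.1 h.choose.2.2 - vang n h.choose.2.2 h.choose.1 h.choose.2.1
  else 0

/-- Frames of the facet planes: orthonormal, positively oriented with the outer normal. -/
structure IsFr (a : A) (p : E3 × E3) : Prop where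
  n1 : ‖p.1‖ = 1
  n2 : ‖p.2‖ = 1
  o12 : inner ℝ p.1 p.2 = (0 : ℝ)
  o1 : inner ℝ (n a) p.1 = (0 : ℝ)
  o2 : inner ℝ (n a) p.2 = (0 : ℝ)
  ori : cross3 p.1 p.2 = nu n a

open Classical in
/-- The frame. -/
noncomputable def fr (a : A) : E3 × E3 := if h : ∃ p, IsFr n a p then h.choose else (0, 0)

/-- The plane of the facet `a` as the complex plane. -/
noncomputable def em (a : A) (z : ℂ) : E3 := (‖n a‖ ^ 2)⁻¹ • n a + z.re • (fr n a).1 + z.im • (fr n a).2

/-- The directions of the plane of the facet `a`. -/
noncomputable def dr (a : A) (θ : ℝ) : E3 := Real.cos θ • (fr n a).1 + Real.sin θ • (fr n a).2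

/-- The area measure of the boundary. -/
noncomputable def ar : Measure E3 := Measure.sum fun a : A => (Measure.map (em n a) volume).restrict (Fc n a)

end

end ALX
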