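import Pool.Agent.Lib.ALX.E1A
import Pool.Agent.Lib.ALX.D7P

/-! # ALX, chunk E1B (M): the relative interior of a ridge -/

open Real MeasureTheory

namespace ALX

open H47A (E3 cross3 det3 pl)

variable {A : Type} [Fintype A] [DecidableEq A] {n : A → E3} {a0 : A} {q : E3}

/-- the difference of the squares of the distances is affine -/
theorem e1b_aff {e1 e2 x p p' : E3} {s t : ℝ} (hst : s + t = 1) (hx : x = s • e1 + t • e2) :
    ‖x - p‖ ^ 2 - ‖x - p'‖ ^ 2 = s * (‖e1 - p‖ ^ 2 - ‖e1 - p'‖ ^ 2) + t * (‖e2 - p‖ ^ 2 - ‖e2 - p'‖ ^ 2) := by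
  have hs : s = 1 - t := by linarith
  subst hs hx
  simp only [H47A.evec_norm, PiLp.sub_apply, PiLp.add_apply, PiLp.smul_apply, smul_eq_mul]
  ring

/-- The relative interior of a ridge. PROOF. Let `x` be in the open segment. If `lf n b x = 1` for `b ≠ a` then `lf n b = 1` on the whole segment (affine, `≤ 1`, equality at an interior point); the
two ends are on the line of the edge and `‖T y - q‖ = ‖T' y - q‖` there: `capi_two` gives `T = T'`, contradiction. If a third `T''` is active at `x`: `‖y - p''‖² - ‖y - p‖²` is affine in `y`, `≥ 0` on the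
segment (`cell_iff`), `0` at `x`, so `0` at both ends; `p, p', p''` are equidistant to both ends and pairwise different (`hg.ne`): contradiction by `three_points` with
`m = n a`. -/
theorem ridge_int (hG : Gn n) (hg : Gen n a0 q) {σ : A × (E3 ≃ᵃⁱ[ℝ] E3) × (E3 ≃ᵃⁱ[ℝ] E3)} (h : IsSd n a0 q σ) {x : E3}
    (hx : x ∈ openSegment ℝ (en n q σ).1 (en n q σ).2) :
    At n x {σ.1} ∧ ∀ S ∈ Img n a0 q σ.1, x ∈ Cl n q σ.1 S → S = σ.2.1 ∨ S = σ.2.2 := by
  obtain ⟨hne, hseg⟩ := en_spec h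
  obtain ⟨e, he⟩ : ∃ e, e = en n q σ := ⟨_, rfl⟩
  rw [← he] at hne hseg hx
  have m1 : e.1 ∈ RR n q σ := by
    rw [hseg]
    exact left_mem_segment ℝ _ _
  have m2 : e.2 ∈ RR n q σ := by
    rw [hseg]
    exact right_mem_segment ℝ _ _
  have mx : x ∈ RR n q σ := by
    rw [hseg]
    exact openSegment_subset_segment ℝ _ _ hx
  obtain ⟨s, t, hs, ht, hst, hxe⟩ := hx
  obtain ⟨a1, -, -, b1, c1, d1⟩ := ridge_pt hG hg h m1
  obtain ⟨a2, -, -, b2, c2, d2⟩ := ridge_pt hG hg h m2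
  obtain ⟨a3, -, -, b3, c3, d3⟩ := ridge_pt hG hg h mx
  have g1 := capi_GG hG hg.loc σ.1 h.m1
  have g2 := capi_GG hG hg.loc σ.1 h.m2
  constructor
  · rw [At.iff]
    refine ⟨a3.1, fun b => ?_⟩
    rw [Finset.mem_singleton]
    constructor
    · rintro rfl
      exact a3.2
    · intro hb
      by_contra hbne
      have h1 : s * lf n b e.1 + t * lf n b e.2 = 1 := by
        rw [← lf_smul, ← lf_smul, ← lf_add, hxe]
        exact hb
      have l1 := a1.1 b
      have l2 := a2.1 b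
      have k1 : lf n b e.1 = 1 := by
        apply le_antisymm l1
        by_contra hlt
        push Not at hlt
        nlinarith [mul_lt_mul_of_pos_left hlt hs, mul_le_mul_of_nonneg_left l2 ht.le]
      have k2 : lf n b e.2 = 1 := by
        apply le_antisymm l2
        by_contra hlt
        push Not at hlt
        nlinarith [mul_lt_mul_of_pos_left hlt ht, mul_le_mul_of_nonneg_left l1 hs.le]
      exact h.ne (capi_two hG hg hbne g1 g2 hne a1.2 k1 a2.2 k2
        (by rw [norm_unf, norm_unf, c1, d1]) (by rw [norm_unf, norm_unf, c2, d2]))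
  · intro S hS hxS
    by_contra hc
    rw [not_or] at hc
    have gS := capi_GG hG hg.loc σ.1 hS
    have hpp : σ.2.1.symm q ≠ S.symm q := hg.ne σ.1 _ g1 _ gS (Ne.symm hc.1)
    have hpp' : σ.2.2.symm q ≠ S.symm q := hg.ne σ.1 _ g2 _ gS (Ne.symm hc.2)
    obtain ⟨hpp0, hl1, hl2⟩ := sd_ne hG hg h
    have hl3 : lf n σ.1 (S.symm q) = 1 := by
      rw [capi_plane hG gS, AffineIsometryEquiv.apply_symm_apply]
      exact (hg.loc.mem (Finset.mem_singleton_self a0)).2
    -- the function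
    have hle : ∀ y ∈ RR n q σ, ‖y - σ.2.1.symm q‖ ≤ ‖y - S.symm q‖ := by
      intro y hy
      have h1 := ((cell_iff hG hg.loc h.m1 y).1 hy.1).2 S hS
      rw [norm_unf, norm_unf] at h1
      exact h1
    have hxe' : ‖x - σ.2.1.symm q‖ = ‖x - S.symm q‖ := by
      rw [c3, hxS.2, norm_unf]
    have q1 := hle _ m1
    have q2 := hle _ m2
    have r1 : ‖e.1 - σ.2.1.symm q‖ ^ 2 ≤ ‖e.1 - S.symm q‖ ^ 2 := pow_le_pow_left₀ (norm_nonneg _) q1 2
    have r2 : ‖e.2 - σ.2.1.symm q‖ ^ 2 ≤ ‖e.2 - S.symm q‖ ^ 2 := pow_le_pow_left₀ (norm_nonneg _) q2 2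
    have haff := e1b_aff (p := σ.2.1.symm q) (p' := S.symm q) hst hxe.symm
    rw [hxe', sub_self] at haff
    have z1 : ‖e.1 - σ.2.1.symm q‖ ^ 2 = ‖e.1 - S.symm q‖ ^ 2 := by
      apply le_antisymm r1
      by_contra hlt
      push Not at hlt
      nlinarith [mul_lt_mul_of_pos_left hlt hs, mul_le_mul_of_nonneg_left r2 ht.le]
    have z2 : ‖e.2 - σ.2.1.symm q‖ ^ 2 = ‖e.2 - S.symm q‖ ^ 2 := by
      apply le_antisymm r2
      by_contra hlt
      push Not at hlt
      nlinarith [mul_lt_mul_of_pos_left hlt ht, mul_le_mul_of_nonneg_left r1 hs.le]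
    have w1 : ‖e.1 - σ.2.1.symm q‖ = ‖e.1 - S.symm q‖ := (pow_left_inj₀ (norm_nonneg _) (norm_nonneg _) two_ne_zero).1 z1
    have w2 : ‖e.2 - σ.2.1.symm q‖ = ‖e.2 - S.symm q‖ := (pow_left_inj₀ (norm_nonneg _) (norm_nonneg _) two_ne_zero).1 z2
    have hm : n σ.1 ≠ 0 := by
      intro h0
      have h1 := a3.2
      unfold lf at h1
      rw [h0, inner_zero_left] at h1
      exact zero_ne_one h1
    have hin : ∀ y z : E3, lf n σ.1 y = 1 → lf n σ.1 z = 1 → inner ℝ (n σ.1) (y - z) = (0 : ℝ) := by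
      intro y z hy hz
      have h1 := lf_sub (n := n) σ.1 y z
      rw [hy, hz, sub_self] at h1
      exact h1
    exact hpp' (three_points hm hne (hin _ _ a2.2 a1.2) (hin _ _ hl2 hl1) (hin _ _ hl3 hl1) (hin _ _ hl1 a1.2)
      (c1.trans d1.symm) w1 (c2.trans d2.symm) w2 hpp0 hpp)

end ALX
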