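import Pool.Agent.Lib.ALX.E1A

/-! # ALX, chunk E1C (M): a point with two unfoldings is on a ridge -/

open Real MeasureTheory

namespace ALX

open H47A (E3 cross3 det3 pl)

variable {A : Type} [Fintype A] [DecidableEq A] {n : A → E3} {a0 : A} {q : E3}

/-- PROOF. The intersection with the line is a compact convex subset of a line: with `f = ⟪d, y⟫` take the points of `K` with the smallest and the largest value. -/
theorem seg_of_line {K : Set E3} (hK : IsCompact K) (hc : Convex ℝ K) {x0 d : E3} (hd : d ≠ 0) (hl : ∀ y ∈ K, ∃ s : ℝ, y = x0 + s • d)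
    {y1 y2 : E3} (h1 : y1 ∈ K) (h2 : y2 ∈ K) (h12 : y1 ≠ y2) : ∃ p, IsEnds K p := by
  have hcont : ContinuousOn (fun y : E3 => inner ℝ d y) K := by
    apply Continuous.continuousOn
    fun_prop
  obtain ⟨p1, hp1, hmin⟩ := hK.exists_isMinOn ⟨y1, h1⟩ hcont
  obtain ⟨p2, hp2, hmax⟩ := hK.exists_isMaxOn ⟨y1, h1⟩ hcont
  have hd2 : 0 < inner ℝ d d := real_inner_self_pos.2 hd
  have hf : ∀ s : ℝ, inner ℝ d (x0 + s • d) = inner ℝ d x0 + s * inner ℝ d d := by
    intro s
    rw [inner_add_right, inner_smul_right]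
  obtain ⟨s1, hs1⟩ := hl p1 hp1
  obtain ⟨s2, hs2⟩ := hl p2 hp2
  have hb : ∀ y ∈ K, ∃ s : ℝ, y = x0 + s • d ∧ s1 ≤ s ∧ s ≤ s2 := by
    intro y hy
    obtain ⟨s, hs⟩ := hl y hy
    refine ⟨s, hs, ?_, ?_⟩
    · have h3 : inner ℝ d p1 ≤ inner ℝ d y := hmin hy
      rw [hs1, hs, hf, hf] at h3
      exact le_of_mul_le_mul_right (by linarith) hd2
    · have h3 : inner ℝ d y ≤ inner ℝ d p2 := hmax hy
      rw [hs2, hs, hf, hf] at h3
      exact le_of_mul_le_mul_right (by linarith) hd2
  have hlt : s1 < s2 := by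
    obtain ⟨a, ha, ha1, ha2⟩ := hb y1 h1
    obtain ⟨b, hb', hb1, hb2⟩ := hb y2 h2
    rcases lt_or_eq_of_le (ha1.trans ha2) with h | h
    · exact h
    · exfalso
      apply h12
      have e1 : a = s1 := le_antisymm (by linarith) ha1
      have e2 : b = s1 := le_antisymm (by linarith) hb1
      rw [ha, hb', e1, e2]
  refine ⟨(p1, p2), fun he => ?_, ?_⟩
  · have he' : p1 = p2 := he
    rw [hs1, hs2] at he'
    have h3 := add_left_cancel he'
    have h4 : s1 = s2 := smul_left_injective ℝ hd h3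
    exact hlt.ne h4
  · apply Set.Subset.antisymm
    · intro y hy
      obtain ⟨s, hs, ha, hb2⟩ := hb y hy
      have hne : s2 - s1 ≠ 0 := (sub_pos.2 hlt).ne'
      refine ⟨(s2 - s) / (s2 - s1), (s - s1) / (s2 - s1), div_nonneg (by linarith) (by linarith), div_nonneg (by linarith) (by linarith), ?_, ?_⟩
      · rw [← add_div, div_eq_one_iff_eq hne]
        ring
      · show ((s2 - s) / (s2 - s1)) • p1 + ((s - s1) / (s2 - s1)) • p2 = y
        rw [hs1, hs2, hs]
        have e1 : (s2 - s) / (s2 - s1) + (s - s1) / (s2 - s1) = 1 := by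
          rw [← add_div, div_eq_one_iff_eq hne]
          ring
        have e2 : (s2 - s) / (s2 - s1) * s1 + (s - s1) / (s2 - s1) * s2 = s := by
          field_simp
          ring
        calc ((s2 - s) / (s2 - s1)) • (x0 + s1 • d) + ((s - s1) / (s2 - s1)) • (x0 + s2 • d)
            = ((s2 - s) / (s2 - s1) + (s - s1) / (s2 - s1)) • x0 + ((s2 - s) / (s2 - s1) * s1 + (s - s1) / (s2 - s1) * s2) • d := by
              module
          _ = x0 + s • d := by rw [e1, e2, one_smul]
    · exact hc.segment_subset hp1 hp2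

/-- PROOF. `p = T.symm q ≠ p' = T'.symm q` (`hg.ne`), both in the plane of `a`; `d = cross3 (n a) (p' - p) ≠ 0` is orthogonal to both. For small `|s|` the point `x + s d` is in the plane of `a`, on
no other facet plane (strict conditions at `x`), has `‖y - p‖ = ‖y - p'‖` and the other unfoldings (finitely many, not active at `x`) are not active (continuity, `cell_iff`): so it is in both cells. All points of
the ridge are on the line `x + ℝ d`. `cl_conv`, `seg_of_line`. -/
theorem sd_of_two (hG : Gn n) (hg : Gen n a0 q) {a : A} {T T' : E3 ≃ᵃⁱ[ℝ] E3} (hT : T ∈ Img n a0 q a) (hT' : T' ∈ Img n a0 q a)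
    (hne : T ≠ T') {x : E3} (hx : At n x {a}) (h : x ∈ Cl n q a T) (h' : x ∈ Cl n q a T')
    (htwo : ∀ S ∈ Img n a0 q a, x ∈ Cl n q a S → S = T ∨ S = T') : IsSd n a0 q (a, T, T') := by
  have gT := capi_GG hG hg.loc a hT
  have gT' := capi_GG hG hg.loc a hT'
  have hq1 : lf n a0 q = 1 := (hg.loc.mem (Finset.mem_singleton_self a0)).2
  have hp : T.symm q ≠ T'.symm q := hg.ne a _ gT _ gT' hne
  have hl : ∀ {S : E3 ≃ᵃⁱ[ℝ] E3}, S ∈ GG n a0 a → lf n a (S.symm q) = 1 := by
    intro S hS
    rw [capi_plane hG hS, AffineIsometryEquiv.apply_symm_apply]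
    exact hq1
  have hin : ∀ y z : E3, lf n a y = 1 → lf n a z = 1 → inner ℝ (n a) (y - z) = (0 : ℝ) := by
    intro y z hy hz
    have h1 := lf_sub (n := n) a y z
    rw [hy, hz, sub_self] at h1
    exact h1
  have hxa : lf n a x = 1 := h.1.2
  have hna : n a ≠ 0 := by
    intro h0
    have h1 := hxa
    unfold lf at h1
    rw [h0, inner_zero_left] at h1
    exact zero_ne_one h1
  obtain ⟨w, hw⟩ : ∃ w, w = T'.symm q - T.symm q := ⟨_, rfl⟩
  have hw0 : w ≠ 0 := by
    rw [hw]
    exact sub_ne_zero.2 hp.symm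
  have hnw : inner ℝ (n a) w = (0 : ℝ) := by
    rw [hw]
    exact hin _ _ (hl gT') (hl gT)
  obtain ⟨d, hdd⟩ : ∃ d, d = cross3 (n a) w := ⟨_, rfl⟩
  have hd : d ≠ 0 := by
    intro h0
    have h1 := H47A.cross3_norm (n a) w
    rw [← hdd, h0, hnw, norm_zero] at h1
    have h2 : 0 < ‖n a‖ ^ 2 * ‖w‖ ^ 2 := mul_pos (pow_pos (norm_pos_iff.2 hna) 2) (pow_pos (norm_pos_iff.2 hw0) 2)
    linarith
  have hnd : inner ℝ (n a) d = (0 : ℝ) := by
    rw [hdd, real_inner_comm]
    exact H47A.cross3_self_left _ _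
  have hwd : inner ℝ w d = (0 : ℝ) := by
    rw [hdd, real_inner_comm]
    exact H47A.cross3_self_right _ _
  -- distances
  have hsq : ∀ y : E3, ‖y - T'.symm q‖ ^ 2 = ‖y - T.symm q‖ ^ 2 - 2 * inner ℝ w (y - T.symm q) + ‖w‖ ^ 2 := by
    intro y
    have e : y - T'.symm q = (y - T.symm q) - w := by
      rw [hw]
      abel
    rw [e, norm_sub_sq_real, real_inner_comm]
  have hdx : ‖x - T.symm q‖ = ‖x - T'.symm q‖ := by
    rw [← norm_unf, ← norm_unf, ← h.2, ← h'.2]
  have hK : IsCompact (Rg n q a T T') := (cl_conv hG hg.loc hT).1.inter_right (cl_conv hG hg.loc hT').1.isClosed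
  have hKc : Convex ℝ (Rg n q a T T') := (cl_conv hG hg.loc hT).2.inter (cl_conv hG hg.loc hT').2
  have hline : ∀ y ∈ Rg n q a T T', ∃ s : ℝ, y = x + s • d := by
    intro y hy
    have k1 : inner ℝ (n a) (y - x) = (0 : ℝ) := hin _ _ hy.1.1.2 hxa
    have k2 : inner ℝ w (y - x) = (0 : ℝ) := by
      have a1 : ‖y - T.symm q‖ = ‖y - T'.symm q‖ := by
        rw [← norm_unf, ← norm_unf, ← hy.1.2, ← hy.2.2]
      have a2 := hsq y
      have a3 := hsq x
      rw [← a1] at a2
      rw [← hdx] at a3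
      have a4 : inner ℝ w (y - x) = inner ℝ w (y - T.symm q) - inner ℝ w (x - T.symm q) := by
        rw [← inner_sub_right]
        congr 1
        abel
      rw [a4]
      linarith
    obtain ⟨c, hc⟩ := H47A.perp_two (by rw [← hdd]; exact hd) k1 k2
    refine ⟨c, ?_⟩
    rw [hdd, ← hc]
    abel
  -- a second point
  have hy : ∀ s : ℝ, lf n a (x + s • d) = 1 := by
    intro s
    have h1 : lf n a d = 0 := hnd
    rw [lf_add, lf_smul, h1, hxa]
    ring
  have hyd : ∀ s : ℝ, ‖x + s • d - T.symm q‖ = ‖x + s • d - T'.symm q‖ := by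
    intro s
    have a2 := hsq (x + s • d)
    have a3 := hsq x
    rw [← hdx] at a3
    have a4 : inner ℝ w (x + s • d - T.symm q) = inner ℝ w (x - T.symm q) := by
      have e : x + s • d - T.symm q = (x - T.symm q) + s • d := by abel
      rw [e, inner_add_right, inner_smul_right, hwd]
      ring
    rw [a4] at a2
    have a5 : ‖x + s • d - T.symm q‖ ^ 2 = ‖x + s • d - T'.symm q‖ ^ 2 := by linarith
    exact (pow_left_inj₀ (norm_nonneg _) (norm_nonneg _) two_ne_zero).1 a5
  have ev1 : ∀ᶠ s : ℝ in nhds 0, ∀ b : A, b ≠ a → lf n b (x + s • d) < 1 := by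
    rw [Filter.eventually_all]
    intro b
    by_cases hba : b = a
    · exact Filter.Eventually.of_forall fun s hb => absurd hba hb
    · have hc : ContinuousAt (fun s : ℝ => lf n b (x + s • d)) 0 := by
        apply Continuous.continuousAt
        exact (lf_cont b).comp (by fun_prop)
      have h1 : lf n b (x + (0 : ℝ) • d) < 1 := by
        rw [zero_smul, add_zero]
        exact hx.lt (by rwa [Finset.mem_singleton])
      exact (hc.eventually_lt continuousAt_const h1).mono fun s hs _ => hs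
  have ev2 : ∀ᶠ s : ℝ in nhds 0, ∀ S ∈ Img n a0 q a, S ≠ T → S ≠ T' → ‖x + s • d - T.symm q‖ < ‖x + s • d - S.symm q‖ := by
    rw [(capi_finite hG hg.loc a).eventually_all]
    intro S hS
    by_cases hS1 : S = T
    · exact Filter.Eventually.of_forall fun s hb => absurd hS1 hb
    by_cases hS2 : S = T'
    · exact Filter.Eventually.of_forall fun s _ hb => absurd hS2 hb
    have h1 : ‖x + (0 : ℝ) • d - T.symm q‖ < ‖x + (0 : ℝ) • d - S.symm q‖ := by
      rw [zero_smul, add_zero]
      have h2 := capi_le hG hg.loc hS h.1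
      rw [norm_unf] at h2
      have h3 : dl n q x = ‖x - T.symm q‖ := by rw [h.2, norm_unf]
      rw [← h3]
      refine lt_of_le_of_ne h2 fun he => ?_
      rcases htwo S hS ⟨h.1, by rw [norm_unf]; exact he⟩ with h4 | h4
      · exact hS1 h4
      · exact hS2 h4
    have hc1 : ContinuousAt (fun s : ℝ => ‖x + s • d - T.symm q‖) 0 := by
      apply Continuous.continuousAt
      fun_prop
    have hc2 : ContinuousAt (fun s : ℝ => ‖x + s • d - S.symm q‖) 0 := by
      apply Continuous.continuousAt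
      fun_prop
    exact (hc1.eventually_lt hc2 h1).mono fun s hs _ _ => hs
  have ev3 : ∀ᶠ s : ℝ in nhdsWithin 0 (Set.Ioi 0), (∀ b : A, b ≠ a → lf n b (x + s • d) < 1) ∧
      (∀ S ∈ Img n a0 q a, S ≠ T → S ≠ T' → ‖x + s • d - T.symm q‖ < ‖x + s • d - S.symm q‖) ∧ 0 < s :=
    (ev1.filter_mono nhdsWithin_le_nhds).and ((ev2.filter_mono nhdsWithin_le_nhds).and self_mem_nhdsWithin)
  obtain ⟨s, hs1, hs2, hs3⟩ := ev3.exists
  have hFc : x + s • d ∈ Fc n a := by
    refine ⟨fun b => ?_, hy s⟩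
    by_cases hba : b = a
    · rw [hba, hy s]
    · exact (hs1 b hba).le
  have hall : ∀ S ∈ Img n a0 q a, ‖x + s • d - T.symm q‖ ≤ ‖x + s • d - S.symm q‖ := by
    intro S hS
    by_cases hS1 : S = T
    · rw [hS1]
    by_cases hS2 : S = T'
    · rw [hS2]
      exact (hyd s).le
    exact (hs2 S hS hS1 hS2).le
  have hmem : x + s • d ∈ Rg n q a T T' := by
    constructor
    · rw [cell_iff hG hg.loc hT]
      refine ⟨hFc, fun S hS => ?_⟩
      rw [norm_unf, norm_unf]
      exact hall S hS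
    · rw [cell_iff hG hg.loc hT']
      refine ⟨hFc, fun S hS => ?_⟩
      rw [norm_unf, norm_unf, ← hyd s]
      exact hall S hS
  have hxm : x ∈ Rg n q a T T' := ⟨h, h'⟩
  have hxne : x ≠ x + s • d := by
    intro he
    have h1 : s • d = 0 := by
      have h2 : x + 0 = x + s • d := by rw [add_zero]; exact he
      exact (add_left_cancel h2).symm
    rcases smul_eq_zero.1 h1 with h2 | h2
    · exact hs3.ne' h2
    · exact hd h2
  exact ⟨hT, hT', hne, seg_of_line hK hKc hd hline hxm hmem hxne⟩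

end ALX
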