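import Pool.Agent.Lib.ALX.D6B
import Pool.Agent.Lib.ALX.Api0

/-! # ALX, chunk E1A (M): ridges, elementary facts -/

open Real MeasureTheory

namespace ALX

open H47A (E3 cross3 det3 pl)

variable {A : Type} [Fintype A] [DecidableEq A] {n : A → E3} {a0 : A} {q : E3}

/-- PROOF. `capi_finite`: the triples with `T, T' ∈ Img n a0 q a` are finitely many. -/
theorem mem_Sd (hG : Gn n) (hq : At n q {a0}) (σ : A × (E3 ≃ᵃⁱ[ℝ] E3) × (E3 ≃ᵃⁱ[ℝ] E3)) :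
    σ ∈ Sd n a0 q ↔ IsSd n a0 q σ := by
  have hfin : {σ | IsSd n a0 q σ}.Finite := by
    have h1 : (⋃ a : A, (fun p : (E3 ≃ᵃⁱ[ℝ] E3) × (E3 ≃ᵃⁱ[ℝ] E3) => (a, p)) '' (Img n a0 q a ×ˢ Img n a0 q a)).Finite :=
      Set.finite_iUnion fun a => ((capi_finite hG hq a).prod (capi_finite hG hq a)).image _
    refine h1.subset fun τ hτ => ?_
    rw [Set.mem_iUnion]
    exact ⟨τ.1, τ.2, ⟨hτ.m1, hτ.m2⟩, rfl⟩
  unfold Sd
  rw [dif_pos hfin, Set.Finite.mem_toFinset]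
  rfl

/-- PROOF. `Exists.choose_spec`. -/
theorem en_spec {σ : A × (E3 ≃ᵃⁱ[ℝ] E3) × (E3 ≃ᵃⁱ[ℝ] E3)} (h : IsSd n a0 q σ) : IsEnds (RR n q σ) (en n q σ) := by
  have h1 : ∃ p, IsEnds (RR n q σ) p := h.nd
  unfold en ends
  rw [dif_pos h1]
  exact h1.choose_spec

/-- PROOF. `Set.inter_comm`: the ridge is the same set. -/
theorem flp_en (σ : A × (E3 ≃ᵃⁱ[ℝ] E3) × (E3 ≃ᵃⁱ[ℝ] E3)) : RR n q (flp σ) = RR n q σ ∧ en n q (flp σ) = en n q σ := by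
  have h1 : RR n q (flp σ) = RR n q σ := Set.inter_comm _ _
  refine ⟨h1, ?_⟩
  unfold en
  rw [h1]

theorem flp_sd {σ : A × (E3 ≃ᵃⁱ[ℝ] E3) × (E3 ≃ᵃⁱ[ℝ] E3)} (h : IsSd n a0 q σ) : IsSd n a0 q (flp σ) ∧ flp σ ≠ σ := by
  refine ⟨⟨h.m2, h.m1, h.ne.symm, ?_⟩, fun he => ?_⟩
  · obtain ⟨p, hp⟩ := h.nd
    refine ⟨p, ?_⟩
    have h1 : Rg n q (flp σ).1 (flp σ).2.1 (flp σ).2.2 = Rg n q σ.1 σ.2.1 σ.2.2 := Set.inter_comm _ _
    rw [h1]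
    exact hp
  · have h1 : (flp σ).2.1 = σ.2.1 := by rw [he]
    exact h.ne h1.symm

/-- The two unfoldings have different images of `q` in the plane of the facet. PROOF. `hg.ne`, `capi_GG`, `capi_plane`. -/
theorem sd_ne (hG : Gn n) (hg : Gen n a0 q) {σ : A × (E3 ≃ᵃⁱ[ℝ] E3) × (E3 ≃ᵃⁱ[ℝ] E3)} (h : IsSd n a0 q σ) :
    σ.2.1.symm q ≠ σ.2.2.symm q ∧ lf n σ.1 (σ.2.1.symm q) = 1 ∧ lf n σ.1 (σ.2.2.symm q) = 1 := by
  have g1 := capi_GG hG hg.loc σ.1 h.m1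
  have g2 := capi_GG hG hg.loc σ.1 h.m2
  have hq : lf n a0 q = 1 := (hg.loc.mem (Finset.mem_singleton_self a0)).2
  refine ⟨hg.ne σ.1 _ g1 _ g2 h.ne, ?_, ?_⟩
  · rw [capi_plane hG g1, AffineIsometryEquiv.apply_symm_apply]
    exact hq
  · rw [capi_plane hG g2, AffineIsometryEquiv.apply_symm_apply]
    exact hq

/-- Points of the ridge. PROOF. Definitions of `Cl`; `norm_unf`; `x ≠ q`: otherwise both distances are `0` (`capi_zero`), so `T.symm q = x = T'.symm q`, contradiction to `sd_ne`. -/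
theorem ridge_pt (hG : Gn n) (hg : Gen n a0 q) {σ : A × (E3 ≃ᵃⁱ[ℝ] E3) × (E3 ≃ᵃⁱ[ℝ] E3)} (h : IsSd n a0 q σ) {x : E3}
    (hx : x ∈ RR n q σ) :
    x ∈ Fc n σ.1 ∧ x ≠ q ∧ 0 < dl n q x ∧ ‖σ.2.1 x - q‖ = dl n q x ∧ ‖x - σ.2.1.symm q‖ = dl n q x ∧ ‖x - σ.2.2.symm q‖ = dl n q x := by
  have e1 : dl n q x = ‖σ.2.1 x - q‖ := hx.1.2
  have e2 : dl n q x = ‖σ.2.2 x - q‖ := hx.2.2
  have f1 := e1.trans (norm_unf σ.2.1 x)
  have f2 := e2.trans (norm_unf σ.2.2 x)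
  have hqb : q ∈ bd n := hg.loc.bd ⟨a0, Finset.mem_singleton_self a0⟩
  have hxb : x ∈ bd n := Fc_sub_bd _ hx.1.1
  have hxq : x ≠ q := by
    intro he
    have h0 : dl n q x = 0 := (capi_zero hG hqb hxb).2 he.symm
    rw [h0] at f1 f2
    have g1 := sub_eq_zero.1 (norm_eq_zero.1 f1.symm)
    have g2 := sub_eq_zero.1 (norm_eq_zero.1 f2.symm)
    exact (sd_ne hG hg h).1 (g1.symm.trans g2)
  refine ⟨hx.1.1, hxq, ?_, e1.symm, f1.symm, f2.symm⟩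
  refine lt_of_le_of_ne (capi_nonneg q x) fun h0 => hxq ?_
  exact ((capi_zero hG hqb hxb).1 h0.symm).symm

end ALX
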