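import Pool.Agent.Lib.ALX.E2

/-! # ALX, chunk E3 (M): the cut lemma; vertices and farthest points are nodes -/

open Real MeasureTheory

namespace ALX

open H47A (E3 cross3 det3 pl)

variable {A : Type} [Fintype A] [DecidableEq A] {n : A → E3} {a0 : A} {q : E3}

theorem e3_mem {x : E3} {a : A} : a ∈ Ac n x ↔ lf n a x = 1 := by
  unfold Ac
  simp

theorem e3_open {σ : A × (E3 ≃ᵃⁱ[ℝ] E3) × (E3 ≃ᵃⁱ[ℝ] E3)} (hσ : IsSd n a0 q σ) {x : E3}
    (hx : x ∈ RR n q σ) (h : ¬ (x = (en n q σ).1 ∨ x = (en n q σ).2)) :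
    x ∈ openSegment ℝ (en n q σ).1 (en n q σ).2 := by
  push Not at h
  have h1 := (en_spec hσ).2
  rw [h1] at hx
  exact mem_openSegment_of_ne_left_right (Ne.symm h.1) (Ne.symm h.2) hx

/-- A shortest path which meets a ridge ends there. PROOF. `jj_reach` for the point `x` of the ridge. If `dl n q x ≤ dl n q y`: `capi_nb` for `x`, `y`: `x = y`, or the two unfoldings `σ.2.1`, `σ.2.2`, which are active at
`x`, are equal, contradiction to `IsSd.ne`. -/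
theorem cut (hG : Gn n) (hg : Gen n a0 q) {σ : A × (E3 ≃ᵃⁱ[ℝ] E3) × (E3 ≃ᵃⁱ[ℝ] E3)} (hσ : IsSd n a0 q σ) {θ : ℝ} {x : E3}
    (hx : x ∈ RR n q σ) (hxθ : σ.2.1 x = q + dl n q x • dr n a0 θ) {y : E3} (hy : Reach n a0 q (dr n a0 θ) y (dl n q y)) :
    dl n q y ≤ dl n q x ∧ (dl n q x ≤ dl n q y → y = x) := by
  have hR := jj_reach hG hg hσ hx hxθ
  have h1 : dl n q x ≤ dl n q y → y = x := by
    intro hle
    rcases capi_nb hG hg (dir_dr hG a0 θ) hR hy hle with h2 | ⟨_, _, h2⟩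
    · exact h2.symm
    · exact absurd (h2 σ.1 σ.2.1 hσ.m1 σ.2.2 hσ.m2 hx.1 hx.2) hσ.ne
  refine ⟨?_, h1⟩
  rcases le_total (dl n q y) (dl n q x) with h2 | h2
  · exact h2
  · rw [h1 h2]

/-- PROOF. `x` not an end of the segment is in the open segment, `ridge_int` gives `At n x {σ.1}`. -/
theorem end_of_card (hG : Gn n) (hg : Gen n a0 q) {σ : A × (E3 ≃ᵃⁱ[ℝ] E3) × (E3 ≃ᵃⁱ[ℝ] E3)} (hσ : IsSd n a0 q σ) {x : E3}
    (hx : x ∈ RR n q σ) (hc : 2 ≤ (Ac n x).card) : x = (en n q σ).1 ∨ x = (en n q σ).2 := by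
  by_contra hn
  have h1 := (ridge_int hG hg hσ (e3_open hσ hx hn)).1.2
  rw [h1, Finset.card_singleton] at hc
  omega

theorem e3_bd {v : E3} (hv : v ∈ Pt n) (hc : 3 ≤ (Ac n v).card) : v ∈ bd n := by
  obtain ⟨b, hb⟩ := Finset.card_pos.1 (show 0 < (Ac n v).card by omega)
  exact ⟨hv, b, e3_mem.1 hb⟩

/-- PROOF. `v ≠ q`; `capi_short`: `Reach u v (dl n q v)`, `u = dr θ` (`exists_dr`); `jj_cover`: `θ ∈ JJ σ`, a point `x`; `cut`: `dl n q v ≤ dl n q x`. If `dl n q x ≤ dl n q v` then `v = x` and `end_of_card`. Otherwise `capi_nb`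
for `v`, `x` (`jj_reach`): `v = x` or `(Ac n v).card ≤ 2`, contradiction. -/
theorem vertex_end (hG : Gn n) (hg : Gen n a0 q) {v : E3} (hv : v ∈ Pt n) (hc : 3 ≤ (Ac n v).card) :
    ∃ σ ∈ Sd n a0 q, v = (en n q σ).1 ∨ v = (en n q σ).2 := by
  have hvq : v ≠ q := by
    rintro rfl
    rw [hg.loc.2, Finset.card_singleton] at hc
    omega
  obtain ⟨u, hu, hr⟩ := capi_short hG hg.loc (e3_bd hv hc) hvq
  obtain ⟨θ, rfl⟩ := exists_dr hG a0 hu
  obtain ⟨σ, hσ, x, hx, hxθ⟩ := jj_cover hG hg θ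
  have hσ' := (mem_Sd hG hg.loc σ).1 hσ
  refine ⟨σ, hσ, ?_⟩
  have h1 := cut hG hg hσ' hx hxθ hr
  have h2 : v = x := by
    rcases capi_nb hG hg hu hr (jj_reach hG hg hσ' hx hxθ) h1.1 with h3 | ⟨_, h3, _⟩
    · exact h3
    · omega
  rw [h2] at hc ⊢
  exact end_of_card hG hg hσ' hx (by omega)

theorem e3_norm {p x y : E3} {a b : ℝ} (ha : 0 < a) (hb : 0 < b) (hab : a + b = 1) (hxy : x ≠ y) :
    ‖(a • x + b • y) - p‖ < ‖x - p‖ ∨ ‖(a • x + b • y) - p‖ < ‖y - p‖ := by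
  by_contra hn
  push Not at hn
  obtain ⟨h1, h2⟩ := hn
  have h3 : (a • x + b • y) - p = a • (x - p) + b • (y - p) := by
    have : p = (a + b) • p := by rw [hab, one_smul]
    rw [smul_sub, smul_sub]
    nth_rewrite 1 [this]
    rw [add_smul]
    abel
  have h4 : ‖(a • x + b • y) - p‖ ^ 2 = a * ‖x - p‖ ^ 2 + b * ‖y - p‖ ^ 2 - a * b * ‖x - y‖ ^ 2 := by
    have e1 : x - y = (x - p) - (y - p) := by abel
    have hb' : b = 1 - a := by linarith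
    rw [h3, e1, norm_add_sq_real, norm_sub_sq_real (x - p) (y - p), norm_smul, norm_smul, inner_smul_left,
      inner_smul_right, Real.norm_of_nonneg ha.le, Real.norm_of_nonneg hb.le]
    simp only [conj_trivial]
    rw [hb']
    ring
  have h5 : 0 < ‖x - y‖ := norm_pos_iff.2 (sub_ne_zero.2 hxy)
  have h6 : ‖x - p‖ ^ 2 ≤ ‖(a • x + b • y) - p‖ ^ 2 := pow_le_pow_left₀ (norm_nonneg _) h1 2
  have h7 : ‖y - p‖ ^ 2 ≤ ‖(a • x + b • y) - p‖ ^ 2 := pow_le_pow_left₀ (norm_nonneg _) h2 2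
  have h8 : 0 < a * b * ‖x - y‖ ^ 2 := by positivity
  have h9 := mul_le_mul_of_nonneg_left h6 ha.le
  have h10 := mul_le_mul_of_nonneg_left h7 hb.le
  have h11 : a * ‖(a • x + b • y) - p‖ ^ 2 + b * ‖(a • x + b • y) - p‖ ^ 2 = ‖(a • x + b • y) - p‖ ^ 2 := by
    rw [← add_mul, hab, one_mul]
  linarith

/-- PROOF. As `vertex_end`: `x` is the point of the ridge, `dl n q y ≤ dl n q x ≤ dl n q y`, so `y = x`. If `y` is in the open segment then with `p = σ.2.1.symm q`: `dl n q z = ‖z - p‖` on the ridge (`ridge_pt`), and `‖y - p‖² <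
max ‖e1 - p‖² ‖e2 - p‖²` (strict convexity: for `y = a e1 + b e2`: `‖y - p‖² = a ‖e1 - p‖² + b ‖e2 - p‖² - a b ‖e1 - e2‖²`): contradiction. -/
theorem far_end (hG : Gn n) (hg : Gen n a0 q) {y : E3} (hy : y ∈ bd n) (hyq : y ≠ q) (hmax : ∀ x ∈ bd n, dl n q x ≤ dl n q y) :
    ∃ σ ∈ Sd n a0 q, y = (en n q σ).1 ∨ y = (en n q σ).2 := by
  obtain ⟨u, hu, hr⟩ := capi_short hG hg.loc hy hyq
  obtain ⟨θ, rfl⟩ := exists_dr hG a0 hu
  obtain ⟨σ, hσ, x, hx, hxθ⟩ := jj_cover hG hg θ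
  have hσ' := (mem_Sd hG hg.loc σ).1 hσ
  have hsub : ∀ z ∈ RR n q σ, z ∈ bd n := fun z hz => ⟨hz.1.1.1, σ.1, hz.1.1.2⟩
  refine ⟨σ, hσ, ?_⟩
  have h1 := cut hG hg hσ' hx hxθ hr
  have h2 : y = x := h1.2 (hmax x (hsub x hx))
  subst h2
  by_contra hn
  have hopen := e3_open hσ' hx hn
  obtain ⟨hne, hseg⟩ := en_spec hσ'
  have m1 : (en n q σ).1 ∈ RR n q σ := by
    rw [hseg]
    exact left_mem_segment ℝ _ _
  have m2 : (en n q σ).2 ∈ RR n q σ := by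
    rw [hseg]
    exact right_mem_segment ℝ _ _
  have d0 := (ridge_pt hG hg hσ' hx).2.2.2.2.1
  have d1 := (ridge_pt hG hg hσ' m1).2.2.2.2.1
  have d2 := (ridge_pt hG hg hσ' m2).2.2.2.2.1
  have l1 := hmax _ (hsub _ m1)
  have l2 := hmax _ (hsub _ m2)
  rw [← d0, ← d1] at l1
  rw [← d0, ← d2] at l2
  obtain ⟨a, b, ha, hb, hab, hyab⟩ := hopen
  rw [← hyab] at l1 l2
  rcases e3_norm (p := σ.2.1.symm q) ha hb hab hne with h3 | h3
  · linarith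
  · linarith

theorem e3_two (hG : Gn n) (hg : Gen n a0 q) {σ τ : A × (E3 ≃ᵃⁱ[ℝ] E3) × (E3 ≃ᵃⁱ[ℝ] E3)} (hσ : IsSd n a0 q σ) (hτ : IsSd n a0 q τ)
    {x : E3} (hx : x ∈ openSegment ℝ (en n q σ).1 (en n q σ).2) (hx' : x ∈ RR n q τ) : τ = σ ∨ τ = flp σ := by
  obtain ⟨h1, h2⟩ := ridge_int hG hg hσ hx
  have h3 : τ.1 = σ.1 := by
    have h4 : τ.1 ∈ Ac n x := e3_mem.2 hx'.1.1.2
    rw [h1.2] at h4
    exact Finset.mem_singleton.1 h4
  obtain ⟨b, S, S'⟩ := τ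
  obtain ⟨a, T, T'⟩ := σ
  have h3' : b = a := h3
  subst h3'
  have c1 := h2 S hτ.m1 hx'.1
  have c2 := h2 S' hτ.m2 hx'.2
  have hne : S ≠ S' := hτ.ne
  rcases c1 with c1 | c1
  · rcases c2 with c2 | c2
    · exact absurd (c1.trans c2.symm) hne
    · left
      have e1 : S = T := c1
      have e2 : S' = T' := c2
      rw [e1, e2]
  · rcases c2 with c2 | c2
    · right
      have e1 : S = T' := c1
      have e2 : S' = T := c2
      rw [e1, e2]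
      rfl
    · exact absurd (c1.trans c2.symm) hne

/-- Ridges which are seen in the same direction. PROOF. `cut` in both directions: the two points of the ridges are the same point `x` (`jj_reach`). If `x` is an end of both ridges: the second case. If `x` is in the open segment of `σ`
(`ridge_int`): `At n x {σ.1}` gives `τ.1 = σ.1` and `τ.2.1`, `τ.2.2` are active at `x`, so `{τ.2.1, τ.2.2} = {σ.2.1, σ.2.2}`: `τ = σ` or `τ = flp σ`. The same for `τ`. -/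
theorem jj_inter (hG : Gn n) (hg : Gen n a0 q) {σ τ : A × (E3 ≃ᵃⁱ[ℝ] E3) × (E3 ≃ᵃⁱ[ℝ] E3)} (hσ : IsSd n a0 q σ) (hτ : IsSd n a0 q τ)
    {θ : ℝ} (h : θ ∈ JJ n a0 q σ) (h' : θ ∈ JJ n a0 q τ) :
    (τ = σ ∨ τ = flp σ) ∨ ∃ x, (x = (en n q σ).1 ∨ x = (en n q σ).2) ∧ (x = (en n q τ).1 ∨ x = (en n q τ).2) := by
  obtain ⟨x, hx, hxθ⟩ := h
  obtain ⟨y, hy, hyθ⟩ := h'
  have c1 := cut hG hg hσ hx hxθ (jj_reach hG hg hτ hy hyθ)
  have c2 := cut hG hg hτ hy hyθ (jj_reach hG hg hσ hx hxθ)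
  have hyx : y = x := c1.2 c2.1
  subst hyx
  by_cases h1 : y = (en n q σ).1 ∨ y = (en n q σ).2
  · by_cases h2 : y = (en n q τ).1 ∨ y = (en n q τ).2
    · exact Or.inr ⟨y, h1, h2⟩
    · left
      rcases e3_two hG hg hτ hσ (e3_open hτ hy h2) hx with h3 | h3
      · exact Or.inl h3.symm
      · right
        rw [h3]
        rfl
  · left
    exact e3_two hG hg hσ hτ (e3_open hσ hx h1) hy

end ALX
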