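import Pool.Agent.Lib.ALX.F1B
import Pool.Agent.Lib.ALX.CApi
import Pool.Agent.Lib.ALX.P01
import Pool.Agent.Lib.ALX.P05

/-! # ALX, chunk F0A (M): the area of a facet near a point -/

open Real MeasureTheory

namespace ALX

open H47A (E3 cross3 det3 pl)

variable {A : Type} [Fintype A] [DecidableEq A] {n : A → E3}

/-- The normal of the edge `a b` in the coordinates of the plane of `a`. -/
noncomputable def mc (n : A → E3) (a b : A) : ℂ := ⟨inner ℝ (n b) (fr n a).1, inner ℝ (n b) (fr n a).2⟩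

/-- the normals in the frame -/
theorem f0a_ne (h : Gn n) (a : A) : ‖n a‖ ≠ 0 := norm_ne_zero_iff.mpr (h.ne a)

theorem f0a_det (hG : Gn n) (a : A) : det3 (n a) (fr n a).1 (fr n a).2 ≠ 0 := by
  have hf := capi_fr hG a
  rw [H47A.det3_rot]
  have h1 : det3 (fr n a).1 (fr n a).2 (n a) = inner ℝ (cross3 (fr n a).1 (fr n a).2) (n a) := rfl
  rw [h1, hf.ori]
  unfold nu
  rw [inner_smul_left, real_inner_self_eq_norm_sq]
  have h2 := f0a_ne hG a
  simp only [conj_trivial]
  have h3 : ‖n a‖⁻¹ * ‖n a‖ ^ 2 = ‖n a‖ := by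
    field_simp
  rw [h3]
  exact h2

theorem f0a_zero (hG : Gn n) (a : A) {x : E3} (h0 : inner ℝ (n a) x = (0 : ℝ)) (h1 : inner ℝ (fr n a).1 x = (0 : ℝ))
    (h2 : inner ℝ (fr n a).2 x = (0 : ℝ)) : x = 0 := p05_zero (f0a_det hG a) h0 h1 h2

/-- every vector in the frame -/
theorem f0a_exp (hG : Gn n) (a : A) (x : E3) : x = ((‖n a‖ ^ 2)⁻¹ * inner ℝ (n a) x) • n a +
    (inner ℝ x (fr n a).1 : ℝ) • (fr n a).1 + (inner ℝ x (fr n a).2 : ℝ) • (fr n a).2 := by
  have hf := capi_fr hG a
  have hn := f0a_ne hG a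
  have o21 : inner ℝ (fr n a).2 (fr n a).1 = (0 : ℝ) := by rw [real_inner_comm]; exact hf.o12
  have o1' : inner ℝ (fr n a).1 (n a) = (0 : ℝ) := by rw [real_inner_comm]; exact hf.o1
  have o2' : inner ℝ (fr n a).2 (n a) = (0 : ℝ) := by rw [real_inner_comm]; exact hf.o2
  have s1 : inner ℝ (fr n a).1 (fr n a).1 = (1 : ℝ) := by rw [real_inner_self_eq_norm_sq, hf.n1, one_pow]
  have s2 : inner ℝ (fr n a).2 (fr n a).2 = (1 : ℝ) := by rw [real_inner_self_eq_norm_sq, hf.n2, one_pow]
  have s0 : inner ℝ (n a) (n a) = ‖n a‖ ^ 2 := real_inner_self_eq_norm_sq _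
  rw [← sub_eq_zero]
  apply f0a_zero hG a
  · rw [inner_sub_right, inner_add_right, inner_add_right, inner_smul_right, inner_smul_right, inner_smul_right,
      hf.o1, hf.o2, s0]
    field_simp
    ring
  · rw [inner_sub_right, inner_add_right, inner_add_right, inner_smul_right, inner_smul_right, inner_smul_right,
      o1', s1, hf.o12, real_inner_comm]
    ring
  · rw [inner_sub_right, inner_add_right, inner_add_right, inner_smul_right, inner_smul_right, inner_smul_right,
      o2', s2, o21, real_inner_comm]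
    ring

theorem f0a_cinner (w z : ℂ) : inner ℝ w z = w.re * z.re + w.im * z.im := by
  rw [Complex.inner]
  simp
  ring

theorem f0a_indep (hG : Gn n) {a b c : A} (hab : a ≠ b) (hbc : b ≠ c) (hac : a ≠ c) (r : ℝ) : mc n a c ≠ r • mc n a b := by
  intro h
  have hre : inner ℝ (n c) (fr n a).1 = r * inner ℝ (n b) (fr n a).1 := by
    have := congrArg Complex.re h
    rw [Complex.smul_re] at this
    exact this
  have him : inner ℝ (n c) (fr n a).2 = r * inner ℝ (n b) (fr n a).2 := by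
    have := congrArg Complex.im h
    rw [Complex.smul_im] at this
    exact this
  have h1 := f0a_exp hG a (n c - r • n b)
  rw [inner_sub_left, inner_smul_left, inner_sub_left, inner_smul_left, conj_trivial, hre, him, sub_self, sub_self,
    zero_smul, zero_smul, add_zero, add_zero] at h1
  have h2 : n c = r • n b + ((‖n a‖ ^ 2)⁻¹ * inner ℝ (n a) (n c - r • n b)) • n a := by
    rw [← h1]
    abel
  apply hG.three a b c hab hbc hac
  rw [h2, H47A.det3_add, H47A.det3_smul, H47A.det3_smul, (H47A.det3_self (n a) (n b)).1, (H47A.det3_self (n a) (n b)).2.1]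
  ring

theorem f0a_mc (hG : Gn n) {a b : A} (hab : a ≠ b) : mc n a b ≠ 0 := by
  obtain ⟨c, hc, hcb⟩ := hG.third a b
  intro h0
  apply f0a_indep hG hc.symm hcb hab 0
  rw [h0, zero_smul]

theorem f0a_bc (u v w x : E3) : inner ℝ (cross3 u v) (cross3 w x) =
    inner ℝ u w * inner ℝ v x - inner ℝ u x * inner ℝ v w := by
  simp only [H47A.inner3, H47A.evec_c0, H47A.evec_c1, H47A.evec_c2]
  ring

theorem f0a_inner (hG : Gn n) (a b c : A) : inner ℝ (cross3 (n a) (n b)) (cross3 (n a) (n c)) =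
    ‖n a‖ ^ 2 * inner ℝ (mc n a b) (mc n a c) := by
  have hn := f0a_ne hG a
  rw [f0a_bc, f0a_cinner]
  have h1 := congrArg (fun y => inner ℝ (n b) y) (f0a_exp hG a (n c))
  simp only [inner_add_right, inner_smul_right] at h1
  have s0 : inner ℝ (n a) (n a) = ‖n a‖ ^ 2 := real_inner_self_eq_norm_sq _
  rw [s0, h1]
  have e1 : (mc n a b).re = inner ℝ (n b) (fr n a).1 := rfl
  have e2 : (mc n a b).im = inner ℝ (n b) (fr n a).2 := rfl
  have e3 : (mc n a c).re = inner ℝ (n c) (fr n a).1 := rfl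
  have e4 : (mc n a c).im = inner ℝ (n c) (fr n a).2 := rfl
  rw [e1, e2, e3, e4]
  field_simp
  ring

theorem f0a_angle (hG : Gn n) (a b c : A) : InnerProductGeometry.angle (cross3 (n a) (n b)) (cross3 (n a) (n c)) =
    InnerProductGeometry.angle (mc n a b) (mc n a c) := by
  have hn := f0a_ne hG a
  have hnorm : ∀ d, ‖cross3 (n a) (n d)‖ = ‖n a‖ * ‖mc n a d‖ := by
    intro d
    have h1 := f0a_inner hG a d d
    rw [real_inner_self_eq_norm_sq, real_inner_self_eq_norm_sq, ← mul_pow] at h1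
    exact (pow_left_inj₀ (norm_nonneg _) (by positivity) two_ne_zero).1 h1
  unfold InnerProductGeometry.angle
  rw [f0a_inner hG, hnorm, hnorm]
  congr 1
  by_cases hb : ‖mc n a b‖ = 0
  · rw [hb]
    simp
  by_cases hc : ‖mc n a c‖ = 0
  · rw [hc]
    simp
  field_simp

theorem f0a_cont (a : A) : Continuous (em n a) := by
  unfold em
  fun_prop

theorem f0a_map (a : A) (z : E3) (ε : ℝ) : Measure.map (em n a) volume (Fc n a ∩ Metric.closedBall z ε) =
    volume (em n a ⁻¹' (Fc n a ∩ Metric.closedBall z ε)) :=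
  Measure.map_apply (f0a_cont a).measurable ((Fc_closed a).inter Metric.isClosed_closedBall).measurableSet

/-- PROOF. `em n a w - em n a w0 = re (w - w0) f1 + im (w - w0) f2`. -/
theorem lf_em (a b : A) (w w0 : ℂ) : lf n b (em n a w) = lf n b (em n a w0) + inner ℝ (mc n a b) (w - w0) := by
  unfold em lf
  rw [f0a_cinner]
  have e1 : (mc n a b).re = inner ℝ (n b) (fr n a).1 := rfl
  have e2 : (mc n a b).im = inner ℝ (n b) (fr n a).2 := rfl
  rw [e1, e2]
  simp only [inner_add_right, inner_smul_right, Complex.sub_re, Complex.sub_im]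
  ring

/-- PROOF. `capi_fr`: `f1`, `f2` orthonormal and orthogonal to `n a`. Surjective onto the plane: `n a`, `f1`, `f2` is an orthogonal basis. -/
theorem em_spec (hG : Gn n) (a : A) : (∀ w, lf n a (em n a w) = 1) ∧ (∀ w w', ‖em n a w - em n a w'‖ = ‖w - w'‖) ∧
    ∀ y, lf n a y = 1 → ∃ w, em n a w = y := by
  have hf := capi_fr hG a
  have hn := f0a_ne hG a
  have o1' : inner ℝ (fr n a).1 (n a) = (0 : ℝ) := by rw [real_inner_comm]; exact hf.o1
  refine ⟨fun w => ?_, fun w w' => ?_, fun y hy => ?_⟩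
  · unfold em lf
    rw [inner_add_right, inner_add_right, inner_smul_right, inner_smul_right, inner_smul_right, hf.o1, hf.o2,
      real_inner_self_eq_norm_sq]
    field_simp
    ring
  · have h1 : em n a w - em n a w' = (w - w').re • (fr n a).1 + (w - w').im • (fr n a).2 := by
      unfold em
      rw [Complex.sub_re, Complex.sub_im, sub_smul, sub_smul]
      abel
    rw [h1]
    have h2 : ‖(w - w').re • (fr n a).1 + (w - w').im • (fr n a).2‖ ^ 2 = ‖w - w'‖ ^ 2 := by
      rw [norm_add_sq_real, norm_smul, norm_smul, hf.n1, hf.n2, inner_smul_left, inner_smul_right, hf.o12,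
        ← Complex.normSq_eq_norm_sq, Complex.normSq_apply, mul_one, mul_one, Real.norm_eq_abs, Real.norm_eq_abs,
        sq_abs, sq_abs]
      ring
    exact (pow_left_inj₀ (norm_nonneg _) (norm_nonneg _) two_ne_zero).1 h2
  · refine ⟨⟨inner ℝ y (fr n a).1, inner ℝ y (fr n a).2⟩, ?_⟩
    have h1 := f0a_exp hG a y
    have h2 : inner ℝ (n a) y = (1 : ℝ) := hy
    rw [h2, mul_one] at h1
    exact h1.symm

/-- PROOF. `cross3 (n a) (n b) = ‖n a‖ • (J m)` in the frame: with `n b = c nu + α f1 + β f2` (`m = mc n a b = α + i β`): `cross3 (n a) (n b) = ‖n a‖ (α f2 - β f1)` (`IsFr.ori`: `cross3 f1 f2 = nu`, so `cross3 nu f1 = f2`, `cross3 nu f2 = - f1`). So `ed n a b c` and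
`ed n a c b` are `-D ‖n a‖ (α f2 - β f1)` and `D ‖n a‖ (α' f2 - β' f1)` with `D = det3 (n a) (n b) (n c) ≠ 0` (`hG.three`; `det3` is alternating). The angle is `π - angle (mc n a b) (mc n a c)` (`InnerProductGeometry.angle_neg_left`,
`angle_smul_...`; the map `α + i β ↦ α f2 - β f1` preserves inner products). -/
theorem vang_eq (hG : Gn n) {a b c : A} (hab : a ≠ b) (hbc : b ≠ c) (hac : a ≠ c) :
    vang n a b c = π - InnerProductGeometry.angle (mc n a b) (mc n a c) ∧
      0 < InnerProductGeometry.angle (mc n a b) (mc n a c) ∧ InnerProductGeometry.angle (mc n a b) (mc n a c) < π := by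
  have hd := hG.three a b c hab hbc hac
  have h1 : ed n a b c = -(det3 (n a) (n b) (n c) • cross3 (n a) (n b)) := by
    unfold ed
    rw [neg_smul]
  have h2 : ed n a c b = det3 (n a) (n b) (n c) • cross3 (n a) (n c) := by
    unfold ed
    have h3 : det3 (n a) (n c) (n b) = -det3 (n a) (n b) (n c) := by
      rw [H47A.det3_rot (n a) (n c) (n b), H47A.det3_swap (n b) (n c) (n a), ← H47A.det3_rot (n a) (n b) (n c)]
    rw [h3, neg_neg]
  refine ⟨?_, ?_, ?_⟩
  · unfold vang
    rw [h1, h2, InnerProductGeometry.angle_neg_left, InnerProductGeometry.angle_smul_smul hd, f0a_angle hG]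
  · rcases (InnerProductGeometry.angle_nonneg (mc n a b) (mc n a c)).lt_or_eq with h3 | h3
    · exact h3
    · exfalso
      obtain ⟨-, r, -, h4⟩ := InnerProductGeometry.angle_eq_zero_iff.1 h3.symm
      exact f0a_indep hG hab hbc hac r h4
  · rcases (InnerProductGeometry.angle_le_pi (mc n a b) (mc n a c)).lt_or_eq with h3 | h3
    · exact h3
    · exfalso
      obtain ⟨-, r, -, h4⟩ := InnerProductGeometry.angle_eq_pi_iff.1 h3
      exact f0a_indep hG hab hbc hac r h4

/-- PROOF. `em` preserves distances: the set `{w | em n a w ∈ Fc n a ∩ closedBall (em n a w0) ε}` is in `closedBall w0 ε` (`Complex.volume_closedBall`). -/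
theorem facet_ball1 (hG : Gn n) (a : A) {z : E3} (hz : z ∈ Fc n a) {ε : ℝ} (hε : 0 ≤ ε) :
    Measure.map (em n a) volume (Fc n a ∩ Metric.closedBall z ε) ≤ ENNReal.ofReal (π * ε ^ 2) := by
  obtain ⟨-, hiso, hsurj⟩ := em_spec hG a
  obtain ⟨w0, rfl⟩ := hsurj z hz.2
  rw [f0a_map]
  calc volume (em n a ⁻¹' (Fc n a ∩ Metric.closedBall (em n a w0) ε)) ≤ volume (Metric.closedBall w0 ε) := by
        refine measure_mono fun w hw => ?_
        rw [Metric.mem_closedBall, dist_eq_norm, ← hiso]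
        have := hw.2
        rwa [Metric.mem_closedBall, dist_eq_norm] at this
    _ = ENNReal.ofReal (π * ε ^ 2) := by
        rw [Complex.volume_closedBall, mul_comm π, ENNReal.ofReal_mul (by positivity), ENNReal.ofReal_pow hε]
        congr 1
        rw [ENNReal.ofReal]
        congr 1
        exact (Real.toNNReal_coe (r := NNReal.pi)).symm

/-- PROOF. The set is in the half disc `{w | ‖w - w0‖ ≤ ε ∧ inner (mc n a b) (w - w0) ≤ 0}` (`lf_em`, `lf n b z = 1`): `half_disc`; `mc n a b ≠ 0` because `cross3 (n a) (n b) ≠ 0` (as in `edge_nbh`). -/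
theorem facet_ball2 (hG : Gn n) {a b : A} (hab : a ≠ b) {z : E3} (hz : z ∈ Fc n a) (hzb : lf n b z = 1) {ε : ℝ} (hε : 0 ≤ ε) :
    Measure.map (em n a) volume (Fc n a ∩ Metric.closedBall z ε) ≤ ENNReal.ofReal (π * ε ^ 2 / 2) := by
  obtain ⟨-, hiso, hsurj⟩ := em_spec hG a
  obtain ⟨w0, rfl⟩ := hsurj z hz.2
  rw [f0a_map, ← half_disc (f0a_mc hG hab) (w0 := w0) hε]
  refine measure_mono fun w hw => ?_
  refine ⟨?_, ?_⟩
  · rw [← hiso]
    have := hw.2
    rwa [Metric.mem_closedBall, dist_eq_norm] at this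
  · have h1 := hw.1.1 b
    rw [lf_em a b w w0, hzb] at h1
    linarith

/-- PROOF. The same with `wedge_disc` and `vang_eq`. -/
theorem facet_ball3 (hG : Gn n) {a b c : A} (hab : a ≠ b) (hbc : b ≠ c) (hac : a ≠ c) {z : E3} (hz : z ∈ Fc n a) (hzb : lf n b z = 1)
    (hzc : lf n c z = 1) {ε : ℝ} (hε : 0 ≤ ε) :
    Measure.map (em n a) volume (Fc n a ∩ Metric.closedBall z ε) ≤ ENNReal.ofReal (vang n a b c * ε ^ 2 / 2) := by
  obtain ⟨-, hiso, hsurj⟩ := em_spec hG a
  obtain ⟨w0, rfl⟩ := hsurj z hz.2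
  obtain ⟨v1, v2, v3⟩ := vang_eq hG hab hbc hac
  rw [f0a_map, v1, ← wedge_disc v2 v3 (w0 := w0) hε]
  refine measure_mono fun w hw => ?_
  refine ⟨?_, ?_, ?_⟩
  · rw [← hiso]
    have := hw.2
    rwa [Metric.mem_closedBall, dist_eq_norm] at this
  · have h1 := hw.1.1 b
    rw [lf_em a b w w0, hzb] at h1
    linarith
  · have h1 := hw.1.1 c
    rw [lf_em a c w w0, hzc] at h1
    linarith

end ALX
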