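import Pool.Agent.Lib.ALX.P25

/-! # ALX, chunk F0B: the area of a small ball (from P25) -/

open Real MeasureTheory Filter Topology

namespace ALX

open H47A (E3 cross3 det3 pl)

variable {A : Type} [Fintype A] [DecidableEq A] {n : A → E3}

theorem ball_area (hG : Gn n) {z : E3} (hz : z ∈ bd n) :
    ∃ ε0 : ℝ, 0 < ε0 ∧ ∀ ε : ℝ, 0 ≤ ε → ε ≤ ε0 →
      ar n (Metric.closedBall z ε) ≤ ENNReal.ofReal ((2 * π - kp n z) * ε ^ 2 / 2) := by
  obtain ⟨δ, hδ, hδ'⟩ := mem_nhdsGT_iff_exists_Ioo_subset.1 (ar_ball hG hz)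
  have hδ0 : (0 : ℝ) < δ := hδ
  refine ⟨δ / 2, half_pos hδ0, fun ε h0 h1 => ?_⟩
  rcases h0.eq_or_lt with h0 | h0
  · subst h0
    have hlim : Tendsto (fun ε : ℝ => ENNReal.ofReal ((2 * π - kp n z) * ε ^ 2 / 2)) (𝓝[>] 0) (𝓝 (ENNReal.ofReal ((2 * π - kp n z) * 0 ^ 2 / 2))) := by
      refine (ENNReal.continuous_ofReal.comp ?_).continuousAt.tendsto.mono_left nhdsWithin_le_nhds
      fun_prop
    refine ge_of_tendsto hlim ?_
    filter_upwards [ar_ball hG hz, self_mem_nhdsWithin] with ε he hpos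
    rw [← he]
    exact measure_mono (Metric.closedBall_subset_closedBall (le_of_lt hpos))
  · have h2 := hδ' (show ε ∈ Set.Ioo 0 δ from ⟨h0, by linarith⟩)
    exact le_of_eq h2

end ALX
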