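import Pool.Agent.Lib.H47A.EKap1

/-! # ALX, chunk F1B (M): the area of a wedge -/

open Real MeasureTheory

namespace ALX

/-- the rotation and translation are measure preserving -/
theorem f1b_vol {u w0 : ℂ} (hu : ‖u‖ = 1) {S : Set ℂ} (hS : MeasurableSet S) :
    volume S = volume {z : ℂ | w0 + u * z ∈ S} := by
  have hu0 : u ≠ 0 := by
    intro h
    rw [h, norm_zero] at hu
    exact zero_ne_one hu
  have h1 : MeasurePreserving (rotation ⟨u, mem_sphere_zero_iff_norm.2 hu⟩ : ℂ → ℂ) volume volume :=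
    (rotation ⟨u, mem_sphere_zero_iff_norm.2 hu⟩).measurePreserving
  have h2 : MeasurePreserving (fun z : ℂ => w0 + z) volume volume := measurePreserving_add_left volume w0
  have h3 := (h2.comp h1).measure_preimage hS.nullMeasurableSet
  rw [← h3]
  rfl

theorem f1b_inner (a b : ℂ) : inner ℝ a b = (a.re * b.re + a.im * b.im) := by
  rw [Complex.inner]
  simp
  ring

theorem f1b_closed1 (w0 : ℂ) (ε : ℝ) : IsClosed {w : ℂ | ‖w - w0‖ ≤ ε} :=
  isClosed_le (by fun_prop) continuous_const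

theorem f1b_closed2 (m w0 : ℂ) : IsClosed {w : ℂ | inner ℝ m (w - w0) ≤ 0} :=
  isClosed_le (by fun_prop) continuous_const

/-- PROOF. Translation and multiplication by a unit: `w0 = 0`, `m = -i r` with `r > 0` (so the set is `{‖w‖ ≤ ε, im w ≥ 0} = {‖w‖ ≤ ε, 0 ≤ arg w ≤ π}`): `H47A.sector_area` with `a = 0`, `b = π`. -/
theorem half_disc {m w0 : ℂ} (hm : m ≠ 0) {ε : ℝ} (hε : 0 ≤ ε) :
    volume {w : ℂ | ‖w - w0‖ ≤ ε ∧ inner ℝ m (w - w0) ≤ 0} = ENNReal.ofReal (π * ε ^ 2 / 2) := by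
  have hr : 0 < ‖m‖ := norm_pos_iff.2 hm
  have hu : ‖Complex.I * m / (‖m‖ : ℂ)‖ = 1 := by
    rw [norm_div, norm_mul, Complex.norm_I, one_mul, Complex.norm_real, norm_norm, div_self hr.ne']
  have hmeas : MeasurableSet {w : ℂ | ‖w - w0‖ ≤ ε ∧ inner ℝ m (w - w0) ≤ 0} :=
    ((f1b_closed1 w0 ε).inter (f1b_closed2 m w0)).measurableSet
  rw [f1b_vol (w0 := w0) hu hmeas]
  have h1 : {z : ℂ | w0 + Complex.I * m / (‖m‖ : ℂ) * z ∈ {w : ℂ | ‖w - w0‖ ≤ ε ∧ inner ℝ m (w - w0) ≤ 0}} =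
      {z : ℂ | ‖z‖ ≤ ε ∧ 0 ≤ Complex.arg z ∧ Complex.arg z ≤ π} := by
    ext z
    rw [Set.mem_ofPred_eq, Set.mem_ofPred_eq, Set.mem_ofPred_eq, add_sub_cancel_left, norm_mul, hu, one_mul,
      Complex.arg_nonneg_iff]
    have h2 : inner ℝ m (Complex.I * m / (‖m‖ : ℂ) * z) = -(‖m‖ * z.im) := by
      have h3 : Complex.I * m / (‖m‖ : ℂ) * z = ((‖m‖⁻¹ : ℝ) : ℂ) * (Complex.I * m * z) := by
        push_cast
        ring
      have h4 : ‖m‖ ^ 2 = m.re ^ 2 + m.im ^ 2 := by
        rw [Complex.sq_norm, Complex.normSq_apply]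
        ring
      rw [h3, f1b_inner, Complex.re_ofReal_mul, Complex.im_ofReal_mul]
      simp only [Complex.mul_re, Complex.mul_im, Complex.I_re, Complex.I_im]
      field_simp
      rw [h4]
      ring
    rw [h2, neg_nonpos]
    constructor
    · rintro ⟨ha, hb⟩
      exact ⟨ha, nonneg_of_mul_nonneg_right hb hr, Complex.arg_le_pi z⟩
    · rintro ⟨ha, hb, -⟩
      exact ⟨ha, mul_nonneg hr.le hb⟩
  rw [h1, H47A.sector_area (by linarith [Real.pi_pos]) Real.pi_pos.le le_rfl hε]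
  congr 1
  ring

theorem f1b_sin {t z : ℂ} : (t * z).im = ‖t‖ * ‖z‖ * Real.sin (Complex.arg t + Complex.arg z) := by
  rw [Complex.mul_im, Real.sin_add]
  have h1 := Complex.norm_mul_cos_arg t
  have h2 := Complex.norm_mul_sin_arg t
  have h3 := Complex.norm_mul_cos_arg z
  have h4 := Complex.norm_mul_sin_arg z
  rw [← h1, ← h2, ← h3, ← h4]
  ring

theorem f1b_pos {m m' w0 : ℂ} (hm : m ≠ 0) (hm' : m' ≠ 0) (ht : 0 < (m / m').im) {ε : ℝ} (hε : 0 ≤ ε) :
    volume {w : ℂ | ‖w - w0‖ ≤ ε ∧ inner ℝ m (w - w0) ≤ 0 ∧ inner ℝ m' (w - w0) ≤ 0} =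
      ENNReal.ofReal ((π - InnerProductGeometry.angle m m') * ε ^ 2 / 2) := by
  have hr : 0 < ‖m‖ := norm_pos_iff.2 hm
  have hr' : 0 < ‖m'‖ := norm_pos_iff.2 hm'
  have hang : InnerProductGeometry.angle m m' = Complex.arg (m / m') := by
    rw [Complex.angle_eq_abs_arg hm hm', abs_of_nonneg (Complex.arg_nonneg_iff.2 ht.le)]
  have hθ0 : 0 < Complex.arg (m / m') := by
    refine lt_of_le_of_ne (Complex.arg_nonneg_iff.2 ht.le) fun h => ?_
    have h5 := Complex.norm_mul_sin_arg (m / m')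
    rw [← h, Real.sin_zero, mul_zero] at h5
    exact ht.ne h5
  have hθπ : Complex.arg (m / m') ≤ π := Complex.arg_le_pi _
  have hu : ‖Complex.I * m / (‖m‖ : ℂ)‖ = 1 := by
    rw [norm_div, norm_mul, Complex.norm_I, one_mul, Complex.norm_real, norm_norm, div_self hr.ne']
  have hmeas : MeasurableSet {w : ℂ | ‖w - w0‖ ≤ ε ∧ inner ℝ m (w - w0) ≤ 0 ∧ inner ℝ m' (w - w0) ≤ 0} :=
    ((f1b_closed1 w0 ε).inter ((f1b_closed2 m w0).inter (f1b_closed2 m' w0))).measurableSet
  rw [f1b_vol (w0 := w0) hu hmeas, hang]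
  have h1 : {z : ℂ | w0 + Complex.I * m / (‖m‖ : ℂ) * z ∈
      {w : ℂ | ‖w - w0‖ ≤ ε ∧ inner ℝ m (w - w0) ≤ 0 ∧ inner ℝ m' (w - w0) ≤ 0}} =
      {z : ℂ | ‖z‖ ≤ ε ∧ 0 ≤ Complex.arg z ∧ Complex.arg z ≤ π - Complex.arg (m / m')} := by
    ext z
    rw [Set.mem_ofPred_eq, Set.mem_ofPred_eq, Set.mem_ofPred_eq, add_sub_cancel_left, norm_mul, hu, one_mul]
    have h4 : ‖m‖ ^ 2 = m.re ^ 2 + m.im ^ 2 := by
      rw [Complex.sq_norm, Complex.normSq_apply]
      ring
    have h4' : ‖m'‖ ^ 2 = m'.re ^ 2 + m'.im ^ 2 := by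
      rw [Complex.sq_norm, Complex.normSq_apply]
      ring
    have h3 : Complex.I * m / (‖m‖ : ℂ) * z = ((‖m‖⁻¹ : ℝ) : ℂ) * (Complex.I * m * z) := by
      push_cast
      ring
    have h2 : inner ℝ m (Complex.I * m / (‖m‖ : ℂ) * z) = -(‖m‖ * z.im) := by
      rw [h3, f1b_inner, Complex.re_ofReal_mul, Complex.im_ofReal_mul]
      simp only [Complex.mul_re, Complex.mul_im, Complex.I_re, Complex.I_im]
      field_simp
      rw [h4]
      ring
    have h6 : inner ℝ m' (Complex.I * m / (‖m‖ : ℂ) * z) = -(‖m'‖ ^ 2 / ‖m‖ * (m / m' * z).im) := by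
      have h7 : m = m / m' * m' := (div_mul_cancel₀ m hm').symm
      have h8 : inner ℝ m' (Complex.I * m / (‖m‖ : ℂ) * z) = ‖m‖⁻¹ * (m'.re * (Complex.I * m * z).re + m'.im * (Complex.I * m * z).im) := by
        rw [h3, f1b_inner, Complex.re_ofReal_mul, Complex.im_ofReal_mul]
        ring
      rw [h8]
      have h9 : m'.re * (Complex.I * m * z).re + m'.im * (Complex.I * m * z).im = -(‖m'‖ ^ 2 * (m / m' * z).im) := by
        have h10 : Complex.I * m * z = (Complex.I * (m / m' * z)) * m' := by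
          conv_lhs => rw [h7]
          ring
        rw [h10, h4']
        generalize m / m' * z = q
        simp only [Complex.mul_re, Complex.mul_im, Complex.I_re, Complex.I_im]
        ring
      rw [h9]
      ring
    have hk : 0 < ‖m'‖ ^ 2 / ‖m‖ := by positivity
    rw [h2, h6, neg_nonpos, neg_nonpos, mul_nonneg_iff_of_pos_left hr, mul_nonneg_iff_of_pos_left hk, f1b_sin]
    refine and_congr_right fun _ => ?_
    rw [← Complex.arg_nonneg_iff]
    refine and_congr_right fun hz0 => ?_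
    have hzπ := Complex.arg_le_pi z
    have hT : 0 < ‖m / m'‖ := norm_pos_iff.2 (div_ne_zero hm hm')
    rcases eq_or_ne z 0 with rfl | hz
    · rw [norm_zero, mul_zero, zero_mul, Complex.arg_zero]
      simp only [le_refl, true_iff]
      linarith
    · have hz1 : 0 < ‖z‖ := norm_pos_iff.2 hz
      rw [mul_nonneg_iff_of_pos_left (mul_pos hT hz1)]
      constructor
      · intro h
        by_contra hcon
        push Not at hcon
        have h11 : Real.sin (Complex.arg (m / m') + Complex.arg z) < 0 := by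
          rw [← Real.sin_sub_two_pi]
          exact Real.sin_neg_of_neg_of_neg_pi_lt (by linarith [hθ0, (lt_of_le_of_ne hθπ (fun h12 => by
            have h13 := Complex.norm_mul_sin_arg (m / m')
            rw [h12, Real.sin_pi, mul_zero] at h13
            exact ht.ne h13))]) (by linarith)
        linarith
      · intro h
        exact Real.sin_nonneg_of_nonneg_of_le_pi (by linarith) (by linarith)
  rw [h1, H47A.sector_area (by linarith [Real.pi_pos]) (by linarith) (by linarith) hε]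
  congr 1
  ring

/-- PROOF. The same, with a conjugation if necessary: `m = -i r`, `m' = r' (sin β + i cos β)`-like: after a rotation (and a reflection) `m = -i r`, and the second half plane is `{w | im (w conj c) ≤ 0}` for a unit `c` with `0 < arg c < π`: the set is
`{‖w‖ ≤ ε, 0 ≤ arg w ≤ arg c}`, where `arg c = π - angle m m'` (`m' = i c r'`, `angle (-i) (i c) = π - angle 1 c`). `H47A.sector_area`. -/
theorem wedge_disc {m m' w0 : ℂ} (hm : m ≠ 0) (hm' : m' ≠ 0) (h0 : 0 < InnerProductGeometry.angle m m')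
    (hπ : InnerProductGeometry.angle m m' < π) {ε : ℝ} (hε : 0 ≤ ε) :
    volume {w : ℂ | ‖w - w0‖ ≤ ε ∧ inner ℝ m (w - w0) ≤ 0 ∧ inner ℝ m' (w - w0) ≤ 0} =
      ENNReal.ofReal ((π - InnerProductGeometry.angle m m') * ε ^ 2 / 2) := by
  have him : (m / m').im ≠ 0 := by
    intro h
    rw [Complex.angle_eq_abs_arg hm hm'] at h0 hπ
    rcases le_or_gt 0 (m / m').re with h1 | h1
    · rw [(Complex.arg_eq_zero_iff).2 ⟨h1, h⟩, abs_zero] at h0
      exact lt_irrefl _ h0
    · rw [(Complex.arg_eq_pi_iff).2 ⟨h1, h⟩, abs_of_pos Real.pi_pos] at hπ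
      exact lt_irrefl _ hπ
  rcases lt_or_gt_of_ne him with h | h
  · have h2 : 0 < (m' / m).im := by
      have h3 : m' / m = (m / m')⁻¹ := (inv_div m m').symm
      rw [h3, Complex.inv_im]
      refine div_pos (neg_pos.2 h) (Complex.normSq_pos.2 (div_ne_zero hm hm'))
    have h4 := f1b_pos (w0 := w0) hm' hm h2 hε
    rw [InnerProductGeometry.angle_comm m m', ← h4]
    congr 1
    ext w
    rw [Set.mem_ofPred_eq, Set.mem_ofPred_eq]
    exact and_congr_right fun _ => and_comm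
  · exact f1b_pos hm hm' h hε

end ALX
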