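import Pool.Agent.Lib.ALX.D5
import Pool.Agent.Lib.ALX.D6B

/-! # ALX, chunk F3 (M): cells near an unfolded point -/

open Real MeasureTheory

namespace ALX

open H47A (E3 cross3 det3 pl)

variable {A : Type} [Fintype A] [DecidableEq A] {n : A → E3} {a0 : A} {q : E3}

/-- PROOF. For each of the finitely many `s ∈ SF` (`mem_SF`): if `cc (T z) ∉ Ch s` (closed: `ch_closed`) a ball around it does not meet `Ch s`. Otherwise `x = s.2.symm (T z)` (`cd_cc`; `lf n a0 (T z) = 1` by `capi_plane`) is in `Cl n q s.1 s.2`,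
`dl n q x = ‖s.2 x - q‖ = ‖T z - q‖ = dl n q z > 0`, and by `capi_reach` both `x` and `z` are reached in the direction `(dl n q z)⁻¹ • (T z - q)`; `capi_nb` (equal distances): `x = z`, so `s.2 z = T z` and
`‖s.2.symm (cd w) - z‖ = ‖cd w - s.2 z‖ = ‖cd w - T z‖ = ‖w - cc (T z)‖` (`dist_cd`, `cd_cc`). -/
theorem near_cell (hG : Gn n) (hg : Gen n a0 q) {z : E3} (hzq : z ≠ q) {b : A} {T : E3 ≃ᵃⁱ[ℝ] E3} (hT : T ∈ Img n a0 q b)
    (hz : z ∈ Cl n q b T) :
    ∃ ε0 : ℝ, 0 < ε0 ∧ ∀ w : ℂ, ‖w - cc n a0 q (T z)‖ ≤ ε0 → ∀ s ∈ SF n a0 q, w ∈ Ch n a0 q s →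
      ‖s.2.symm (cd n a0 q w) - z‖ = ‖w - cc n a0 q (T z)‖ := by
  classical
  have hq := hg.loc
  have hqb : q ∈ bd n := by
    refine ⟨hq.1, a0, ?_⟩
    have h1 : a0 ∈ Ac n q := by
      rw [hq.2]
      simp
    unfold Ac at h1
    simpa using h1
  have hzb : z ∈ bd n := ⟨hz.1.1, b, hz.1.2⟩
  have hTz : lf n a0 (T z) = 1 := (capi_plane hG (capi_GG hG hq b hT) z).1 hz.1.2
  set p : ℂ := cc n a0 q (T z) with hp
  have hcd : cd n a0 q p = T z := cd_cc hG hq hTz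
  -- the states whose cell contains the unfolded point
  have key : ∀ s ∈ SF n a0 q, p ∈ Ch n a0 q s → ∀ w : ℂ,
      ‖s.2.symm (cd n a0 q w) - z‖ = ‖w - p‖ := by
    intro s hs hps w
    have hsI : s.2 ∈ Img n a0 q s.1 := (mem_SF hG hq s).1 hs
    have hx : s.2.symm (T z) ∈ Cl n q s.1 s.2 := by
      have h1 : s.2.symm (cd n a0 q p) ∈ Cl n q s.1 s.2 := hps
      rwa [hcd] at h1
    have hsx : s.2 (s.2.symm (T z)) = T z := s.2.apply_symm_apply _
    have hd : dl n q (s.2.symm (T z)) = dl n q z := by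
      rw [hx.2, hsx, ← hz.2]
    have hxb : s.2.symm (T z) ∈ bd n := ⟨hx.1.1, s.1, hx.1.2⟩
    have hxq : s.2.symm (T z) ≠ q := by
      intro h
      apply hzq
      have h1 : dl n q (s.2.symm (T z)) = 0 := (capi_zero hG hqb hxb).2 h.symm
      rw [hd] at h1
      exact ((capi_zero hG hqb hzb).1 h1).symm
    obtain ⟨-, hr1⟩ := capi_reach hG hg hsI hx hxq
    obtain ⟨hu, hr2⟩ := capi_reach hG hg hT hz hzq
    rw [hsx, hd] at hr1
    rw [← hd] at hr1
    have hr1' : Reach n a0 q ((dl n q z)⁻¹ • (T z - q)) (s.2.symm (T z)) (dl n q (s.2.symm (T z))) := by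
      rw [hd]
      rw [hd] at hr1
      exact hr1
    have hxz : s.2.symm (T z) = z := by
      rcases capi_nb hG hg hu hr1' hr2 hd.le with h | h
      · exact h
      · exact absurd h.1 (by rw [hd]; exact lt_irrefl _)
    have h2 : ‖s.2.symm (cd n a0 q w) - z‖ = ‖s.2.symm (cd n a0 q w) - s.2.symm (T z)‖ := by
      rw [hxz]
    rw [h2, ← dist_eq_norm, s.2.symm.dist_map, dist_eq_norm, ← hcd, dist_cd hG]
  have hev : ∀ᶠ ε : ℝ in nhdsWithin 0 (Set.Ioi 0), ∀ s ∈ SF n a0 q, ∀ w : ℂ, ‖w - p‖ ≤ ε →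
      w ∈ Ch n a0 q s → ‖s.2.symm (cd n a0 q w) - z‖ = ‖w - p‖ := by
    rw [Filter.eventually_all_finset]
    intro s hs
    by_cases hps : p ∈ Ch n a0 q s
    · exact Filter.Eventually.of_forall fun ε w _ _ => key s hs hps w
    · have hcl : IsClosed (Ch n a0 q s) := ch_closed hG hq ((mem_SF hG hq s).1 hs)
      obtain ⟨δ, hδ, hδ'⟩ := Metric.isOpen_iff.1 hcl.isOpen_compl p hps
      have h1 : ∀ᶠ ε : ℝ in nhdsWithin 0 (Set.Ioi 0), ε < δ :=
        nhdsWithin_le_nhds (Iio_mem_nhds hδ)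
      filter_upwards [h1] with ε hε w hw hwC
      exfalso
      exact hδ' (by rw [Metric.mem_ball, dist_eq_norm]; exact lt_of_le_of_lt hw hε) hwC
  obtain ⟨ε, hε, hε0⟩ := (hev.and self_mem_nhdsWithin).exists
  exact ⟨ε, hε0, fun w hw s hs hwC => hε s hs w hw hwC⟩

end ALX
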