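import Pool.Agent.Lib.ALX.F3
import Pool.Agent.Lib.ALX.D8B4
import Pool.Agent.Lib.ALX.D6D1

/-! # ALX, chunk F4 (M): the triangles at a node, areas near the node -/

open Real MeasureTheory

namespace ALX

open H47A (E3 cross3 det3 pl)

variable {A : Type} [Fintype A] [DecidableEq A] {n : A → E3} {a0 : A} {q : E3}

theorem f4_cont (s : A × (E3 ≃ᵃⁱ[ℝ] E3)) : Continuous fun w : ℂ => s.2.symm (cd n a0 q w) := by
  unfold cd
  have h1 : Continuous fun w : ℂ => q + w.re • (fr n a0).1 + w.im • (fr n a0).2 := by fun_prop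
  exact s.2.symm.continuous.comp h1

theorem f4_small {ι : Type*} (S : Finset ι) (f : ι → ℝ) (hf : ∀ i ∈ S, 0 < f i) :
    ∃ ε0 : ℝ, 0 < ε0 ∧ ∀ i ∈ S, ε0 ≤ f i := by
  rcases S.eq_empty_or_nonempty with h | h
  · subst h
    exact ⟨1, one_pos, by simp⟩
  · exact ⟨S.inf' h f, (Finset.lt_inf'_iff h).2 hf, fun i hi => Finset.inf'_le f hi⟩

open Classical in
/-- PROOF. `S` = the sides with end `z`, `D σ = TriD σ ∩ closedBall (cc (σ.2.1 z)) ε`, `ε0` = the minimum over `σ ∈ S` of the numbers of `near_cell` for `T = σ.2.1` (`z ∈ Cl`: `en_spec`, the end is in the ridge). `volume (D σ) ≤ ∑ s, volume (D σ ∩ Ch s)` (`tri_cover`). For fixed `s` the sets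
`D σ ∩ Ch s`, `σ ∈ S`, are disjoint up to null sets (`tri_disj`) and contained in `E s = {w ∈ Ch s | s.2.symm (cd w) ∈ closedBall z ε}` (`near_cell`), so `∑ σ, volume (D σ ∩ Ch s) ≤ volume (E s)` (`measure_biUnion_finset₀`). Finally `∑ s, volume (E s) = ar n (closedBall z ε)`: `ar_int` with the indicator
function of the ball. -/
theorem node_area (hG : Gn n) (hg : Gen n a0 q) {z : E3} (hzq : z ≠ q) :
    ∃ ε0 : ℝ, 0 < ε0 ∧ ∀ ε : ℝ, 0 ≤ ε → ε ≤ ε0 →
      ∑ σ ∈ (Sd n a0 q).filter (fun σ => z = (en n q σ).1 ∨ z = (en n q σ).2),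
        volume (TriD n a0 q σ ∩ Metric.closedBall (cc n a0 q (σ.2.1 z)) ε) ≤ ar n (Metric.closedBall z ε) := by
  set S := (Sd n a0 q).filter (fun σ => z = (en n q σ).1 ∨ z = (en n q σ).2) with hS
  have hSd : ∀ σ ∈ S, IsSd n a0 q σ := fun σ hσ =>
    (mem_Sd hG hg.loc σ).1 (Finset.mem_filter.1 hσ).1
  have hzR : ∀ σ ∈ S, z ∈ Cl n q σ.1 σ.2.1 := by
    intro σ hσ
    have h1 := en_spec (hSd σ hσ)
    have h2 : z ∈ RR n q σ := by
      rw [h1.2]
      rcases (Finset.mem_filter.1 hσ).2 with h3 | h3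
      · rw [h3]; exact left_mem_segment ℝ _ _
      · rw [h3]; exact right_mem_segment ℝ _ _
    exact h2.1
  have hnear : ∀ σ : A × (E3 ≃ᵃⁱ[ℝ] E3) × (E3 ≃ᵃⁱ[ℝ] E3), ∃ ε1 : ℝ, σ ∈ S → (0 < ε1 ∧ ∀ w : ℂ,
      ‖w - cc n a0 q (σ.2.1 z)‖ ≤ ε1 → ∀ s ∈ SF n a0 q, w ∈ Ch n a0 q s →
      ‖s.2.symm (cd n a0 q w) - z‖ = ‖w - cc n a0 q (σ.2.1 z)‖) := by
    intro σ
    by_cases hσ : σ ∈ S
    · obtain ⟨ε1, h1, h2⟩ := near_cell hG hg hzq (hSd σ hσ).m1 (hzR σ hσ)
      exact ⟨ε1, fun _ => ⟨h1, h2⟩⟩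
    · exact ⟨0, fun h => absurd h hσ⟩
  choose f hf using hnear
  obtain ⟨ε0, hε0, hle⟩ := f4_small S f (fun σ hσ => (hf σ hσ).1)
  refine ⟨ε0, hε0, fun ε hε hεle => ?_⟩
  have hcompTri : ∀ σ : A × (E3 ≃ᵃⁱ[ℝ] E3) × (E3 ≃ᵃⁱ[ℝ] E3), MeasurableSet (TriD n a0 q σ) :=
    fun σ => (tri_compact σ).1.isClosed.measurableSet
  have hCh : ∀ s ∈ SF n a0 q, MeasurableSet (Ch n a0 q s) := fun s hs =>
    (ch_closed hG hg.loc ((mem_SF hG hg.loc s).1 hs)).measurableSet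
  have hpre : ∀ s : A × (E3 ≃ᵃⁱ[ℝ] E3), MeasurableSet
      ((fun w : ℂ => s.2.symm (cd n a0 q w)) ⁻¹' Metric.closedBall z ε) := fun s =>
    (Metric.isClosed_closedBall.preimage (f4_cont s)).measurableSet
  have hball : ar n (Metric.closedBall z ε) = ∑ s ∈ SF n a0 q,
      volume (((fun w : ℂ => s.2.symm (cd n a0 q w)) ⁻¹' Metric.closedBall z ε) ∩ Ch n a0 q s) := by
    have hm : MeasurableSet (Metric.closedBall z ε) := Metric.isClosed_closedBall.measurableSet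
    rw [← lintegral_indicator_one hm, ar_int hG hg (measurable_one.indicator hm)]
    refine Finset.sum_congr rfl fun s hs => ?_
    have e1 : ∀ w : ℂ, (Metric.closedBall z ε).indicator (1 : E3 → ENNReal) (s.2.symm (cd n a0 q w)) =
        ((fun w : ℂ => s.2.symm (cd n a0 q w)) ⁻¹' Metric.closedBall z ε).indicator
          (1 : ℂ → ENNReal) w := fun w => rfl
    rw [lintegral_congr e1, lintegral_indicator_one (hpre s), Measure.restrict_apply (hpre s)]
  rw [hball]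
  calc ∑ σ ∈ S, volume (TriD n a0 q σ ∩ Metric.closedBall (cc n a0 q (σ.2.1 z)) ε)
      ≤ ∑ σ ∈ S, ∑ s ∈ SF n a0 q,
        volume ((TriD n a0 q σ ∩ Metric.closedBall (cc n a0 q (σ.2.1 z)) ε) ∩ Ch n a0 q s) := by
        refine Finset.sum_le_sum fun σ hσ => ?_
        have hsub : TriD n a0 q σ ∩ Metric.closedBall (cc n a0 q (σ.2.1 z)) ε ⊆
            (TriD n a0 q σ \ ⋃ s ∈ SF n a0 q, Ch n a0 q s) ∪
            ⋃ s ∈ SF n a0 q, ((TriD n a0 q σ ∩ Metric.closedBall (cc n a0 q (σ.2.1 z)) ε) ∩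
              Ch n a0 q s) := by
          intro w hw
          by_cases h1 : w ∈ ⋃ s ∈ SF n a0 q, Ch n a0 q s
          · right
            simp only [Set.mem_iUnion] at h1 ⊢
            obtain ⟨s, hs, hws⟩ := h1
            exact ⟨s, hs, hw, hws⟩
          · left
            exact ⟨hw.1, h1⟩
        calc volume (TriD n a0 q σ ∩ Metric.closedBall (cc n a0 q (σ.2.1 z)) ε)
            ≤ volume ((TriD n a0 q σ \ ⋃ s ∈ SF n a0 q, Ch n a0 q s) ∪
            ⋃ s ∈ SF n a0 q, ((TriD n a0 q σ ∩ Metric.closedBall (cc n a0 q (σ.2.1 z)) ε) ∩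
              Ch n a0 q s)) := measure_mono hsub
          _ ≤ volume (TriD n a0 q σ \ ⋃ s ∈ SF n a0 q, Ch n a0 q s) +
            volume (⋃ s ∈ SF n a0 q, ((TriD n a0 q σ ∩
              Metric.closedBall (cc n a0 q (σ.2.1 z)) ε) ∩ Ch n a0 q s)) := measure_union_le _ _
          _ = volume (⋃ s ∈ SF n a0 q, ((TriD n a0 q σ ∩
              Metric.closedBall (cc n a0 q (σ.2.1 z)) ε) ∩ Ch n a0 q s)) := by
              rw [tri_cover hG hg (hSd σ hσ), zero_add]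
          _ ≤ _ := measure_biUnion_finset_le _ _
    _ = ∑ s ∈ SF n a0 q, ∑ σ ∈ S,
        volume ((TriD n a0 q σ ∩ Metric.closedBall (cc n a0 q (σ.2.1 z)) ε) ∩ Ch n a0 q s) :=
        Finset.sum_comm
    _ ≤ ∑ s ∈ SF n a0 q,
      volume (((fun w : ℂ => s.2.symm (cd n a0 q w)) ⁻¹' Metric.closedBall z ε) ∩ Ch n a0 q s) := by
        refine Finset.sum_le_sum fun s hs => ?_
        have hd : Set.Pairwise (S : Set (A × (E3 ≃ᵃⁱ[ℝ] E3) × (E3 ≃ᵃⁱ[ℝ] E3)))
            (Function.onFun (AEDisjoint volume) fun σ =>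
              (TriD n a0 q σ ∩ Metric.closedBall (cc n a0 q (σ.2.1 z)) ε) ∩ Ch n a0 q s) := by
          intro σ hσ τ hτ hne
          refine measure_mono_null ?_ (tri_disj hG hg (hSd σ hσ) (hSd τ hτ) hne)
          rintro w ⟨h1, h2⟩
          exact ⟨h1.1.1, h2.1.1⟩
        have hmeas : ∀ σ ∈ S, NullMeasurableSet
            ((TriD n a0 q σ ∩ Metric.closedBall (cc n a0 q (σ.2.1 z)) ε) ∩ Ch n a0 q s) volume :=
          fun σ _ => (((hcompTri σ).inter Metric.isClosed_closedBall.measurableSet).inter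
            (hCh s hs)).nullMeasurableSet
        rw [← measure_biUnion_finset₀ hd hmeas]
        refine measure_mono ?_
        intro w hw
        simp only [Set.mem_iUnion] at hw
        obtain ⟨σ, hσ, ⟨hw1, hw2⟩, hw3⟩ := hw
        refine ⟨?_, hw3⟩
        have h1 : ‖w - cc n a0 q (σ.2.1 z)‖ ≤ ε := by
          rw [← dist_eq_norm]; exact hw2
        have h2 := (hf σ hσ).2 w (h1.trans (hεle.trans (hle σ hσ))) s hs hw3
        show dist (s.2.symm (cd n a0 q w)) z ≤ ε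
        rw [dist_eq_norm, h2]
        exact h1

end ALX
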