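import Pool.Agent.Lib.ALX.F4
import Pool.Agent.Lib.ALX.F0B
import Pool.Agent.Lib.ALX.F1
import Pool.Agent.Lib.ALX.D8A2

/-! # ALX, chunk F5 (M): the node inequality -/

open Real MeasureTheory

namespace ALX

open H47A (E3 cross3 det3 pl)

variable {A : Type} [Fintype A] [DecidableEq A] {n : A → E3} {a0 : A} {q : E3}

theorem f5_tri {u v : E3} (hu : u ≠ 0) (hv : v ≠ 0) (h0 : 0 < InnerProductGeometry.angle u v)
    (hπ : InnerProductGeometry.angle u v < π) :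
    0 < InnerProductGeometry.angle (-u) (v - u) ∧ InnerProductGeometry.angle (-u) (v - u) < π := by
  have e1 : InnerProductGeometry.angle (-u) (v - u) = InnerProductGeometry.angle u (u - v) := by
    rw [← InnerProductGeometry.angle_neg_neg, neg_neg, neg_sub]
  rw [e1]
  have h1 := InnerProductGeometry.angle_add_angle_sub_add_angle_sub_eq_pi u hv
  have h2 := InnerProductGeometry.angle_nonneg v (v - u)
  refine ⟨lt_of_le_of_ne (InnerProductGeometry.angle_nonneg _ _) fun h => ?_, by linarith⟩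
  obtain ⟨_, r, hr, hr2⟩ := InnerProductGeometry.angle_eq_zero_iff.1 h.symm
  have h3 : v = (1 - r) • u := by
    rw [sub_smul, one_smul, ← hr2]
    abel
  rcases lt_trichotomy (1 - r) 0 with h4 | h4 | h4
  · rw [InnerProductGeometry.angle_eq_pi_iff.2 ⟨hu, 1 - r, h4, h3⟩] at hπ
    exact lt_irrefl _ hπ
  · rw [h4, zero_smul] at h3
    exact hv h3
  · rw [InnerProductGeometry.angle_eq_zero_iff.2 ⟨hu, 1 - r, h4, h3⟩] at h0
    exact lt_irrefl _ h0

theorem f5_key {x y p : E3} (hx : x ≠ p) (hy : y ≠ p) (h0 : 0 < InnerProductGeometry.angle (x - p) (y - p))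
    (hπ : InnerProductGeometry.angle (x - p) (y - p) < π) :
    0 < InnerProductGeometry.angle (p - x) (y - x) ∧ InnerProductGeometry.angle (p - x) (y - x) < π := by
  have h1 := f5_tri (sub_ne_zero.2 hx) (sub_ne_zero.2 hy) h0 hπ
  have e1 : -(x - p) = p - x := neg_sub x p
  have e2 : y - p - (x - p) = y - x := by abel
  rwa [e1, e2] at h1

/-- PROOF. The angle sum is `π` and the angle `phi` at the vertex `0` is in `(0, π)` (`phi_pos`; `InnerProductGeometry.angle_add_angle_sub_add_angle_sub_eq_pi` or `EuclideanGeometry.angle_add_angle_add_angle_eq_pi`, not collinear). -/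
theorem angAt_pos (hG : Gn n) (hg : Gen n a0 q) {σ : A × (E3 ≃ᵃⁱ[ℝ] E3) × (E3 ≃ᵃⁱ[ℝ] E3)} (hσ : IsSd n a0 q σ) {z : E3}
    (hz : z = (en n q σ).1 ∨ z = (en n q σ).2) : 0 < angAt n q σ z ∧ angAt n q σ z < π := by
  have hφ := phi_pos hG hg hσ
  have hne := en_spec hσ
  have hm1 : (en n q σ).1 ∈ RR n q σ := by
    rw [hne.2]
    exact left_mem_segment ℝ _ _
  have hm2 : (en n q σ).2 ∈ RR n q σ := by
    rw [hne.2]
    exact right_mem_segment ℝ _ _
  have hp1 : (en n q σ).1 ≠ σ.2.1.symm q := by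
    intro h
    obtain ⟨_, _, h1, _, h2, _⟩ := ridge_pt hG hg hσ hm1
    rw [h, sub_self, norm_zero] at h2
    rw [h] at h1
    linarith
  have hp2 : (en n q σ).2 ≠ σ.2.1.symm q := by
    intro h
    obtain ⟨_, _, h1, _, h2, _⟩ := ridge_pt hG hg hσ hm2
    rw [h, sub_self, norm_zero] at h2
    rw [h] at h1
    linarith
  unfold phi at hφ
  rcases hz with rfl | rfl
  · have h1 : angAt n q σ (en n q σ).1 =
        InnerProductGeometry.angle (σ.2.1.symm q - (en n q σ).1) ((en n q σ).2 - (en n q σ).1) := if_pos rfl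
    rw [h1]
    exact f5_key hp1 hp2 hφ.1 hφ.2
  · have h1 : angAt n q σ (en n q σ).2 =
        InnerProductGeometry.angle (σ.2.1.symm q - (en n q σ).2) ((en n q σ).1 - (en n q σ).2) := by
      unfold angAt
      rw [if_neg (fun h => hne.1 h.symm), if_pos rfl]
    rw [h1]
    rw [InnerProductGeometry.angle_comm] at hφ
    exact f5_key hp2 hp1 hφ.1 hφ.2

theorem f5_ne (hG : Gn n) (hg : Gen n a0 q) {σ : A × (E3 ≃ᵃⁱ[ℝ] E3) × (E3 ≃ᵃⁱ[ℝ] E3)} (hσ : IsSd n a0 q σ) :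
    cc n a0 q (σ.2.1 (en n q σ).1) ≠ 0 ∧ cc n a0 q (σ.2.1 (en n q σ).2) ≠ 0 ∧
      cc n a0 q (σ.2.1 (en n q σ).1) ≠ cc n a0 q (σ.2.1 (en n q σ).2) := by
  have hs := en_spec hσ
  have m1 : (en n q σ).1 ∈ RR n q σ := by rw [hs.2]; exact left_mem_segment ℝ _ _
  have m2 : (en n q σ).2 ∈ RR n q σ := by rw [hs.2]; exact right_mem_segment ℝ _ _
  have h1 := ridge_pt hG hg hσ m1
  have h2 := ridge_pt hG hg hσ m2
  refine ⟨?_, ?_, fun h => ?_⟩
  · have := norm_cc hG hg hσ m1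
    exact norm_pos_iff.1 (by rw [this]; exact h1.2.2.1)
  · have := norm_cc hG hg hσ m2
    exact norm_pos_iff.1 (by rw [this]; exact h2.2.2.1)
  · have hp := capi_GG hG hg.loc _ hσ.m1
    have e1 := (capi_plane hG hp (en n q σ).1).1 h1.1.2
    have e2 := (capi_plane hG hp (en n q σ).2).1 h2.1.2
    have h3 := dist_cc hG hg.loc e1 e2
    rw [h, sub_self, norm_zero] at h3
    exact hs.1 (σ.2.1.injective (sub_eq_zero.1 (norm_eq_zero.1 h3.symm)))

/-- PROOF. `tri_sector` at the vertex `cc (σ.2.1 z)` of `TriD` (the vertices of the convex hull in another order), `angles_tri`, `angAt_pos`. -/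
theorem side_sector (hG : Gn n) (hg : Gen n a0 q) {σ : A × (E3 ≃ᵃⁱ[ℝ] E3) × (E3 ≃ᵃⁱ[ℝ] E3)} (hσ : IsSd n a0 q σ) {z : E3}
    (hz : z = (en n q σ).1 ∨ z = (en n q σ).2) :
    ∃ ε0 : ℝ, 0 < ε0 ∧ ∀ ε : ℝ, 0 ≤ ε → ε ≤ ε0 →
      volume (TriD n a0 q σ ∩ Metric.closedBall (cc n a0 q (σ.2.1 z)) ε) = ENNReal.ofReal (angAt n q σ z * ε ^ 2 / 2) := by
  have hpos := angAt_pos hG hg hσ hz
  obtain ⟨_, ht1, ht2⟩ := angles_tri hG hg hσ
  obtain ⟨hn1, hn2, hn3⟩ := f5_ne hG hg hσ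
  rcases hz with rfl | rfl
  · rw [ht1] at hpos
    obtain ⟨ε0, h0, h1⟩ := tri_sector hn1.symm hn3.symm hpos.1 hpos.2
    refine ⟨ε0, h0, fun ε hε hε' => ?_⟩
    have h2 := h1 ε hε hε'
    have h3 : TriD n a0 q σ = convexHull ℝ {cc n a0 q (σ.2.1 (en n q σ).1), 0, cc n a0 q (σ.2.1 (en n q σ).2)} := by
      unfold TriD
      rw [Set.insert_comm]
    rw [h3, ht1]
    exact h2
  · rw [ht2] at hpos
    obtain ⟨ε0, h0, h1⟩ := tri_sector hn2.symm hn3 hpos.1 hpos.2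
    refine ⟨ε0, h0, fun ε hε hε' => ?_⟩
    have h2 := h1 ε hε hε'
    have h3 : TriD n a0 q σ = convexHull ℝ {cc n a0 q (σ.2.1 (en n q σ).2), 0, cc n a0 q (σ.2.1 (en n q σ).1)} := by
      unfold TriD
      rw [Set.insert_comm (cc n a0 q (σ.2.1 (en n q σ).2)) 0, Set.pair_comm (cc n a0 q (σ.2.1 (en n q σ).2))]
    rw [h3, ht2]
    exact h2

theorem f5_kp (z : E3) : 0 ≤ 2 * π - kp n z := by
  have hpi := Real.pi_pos
  unfold kp
  split_ifs with h
  · have h1 := InnerProductGeometry.angle_nonneg (ed n h.choose.1 h.choose.2.1 h.choose.2.2) (ed n h.choose.1 h.choose.2.2 h.choose.2.1)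
    have h2 := InnerProductGeometry.angle_nonneg (ed n h.choose.2.1 h.choose.1 h.choose.2.2) (ed n h.choose.2.1 h.choose.2.2 h.choose.1)
    have h3 := InnerProductGeometry.angle_nonneg (ed n h.choose.2.2 h.choose.1 h.choose.2.1) (ed n h.choose.2.2 h.choose.2.1 h.choose.1)
    unfold vang
    linarith
  · linarith

theorem f5_min {ι : Type*} (s : Finset ι) (f : ι → ℝ) (hf : ∀ i ∈ s, 0 < f i) : ∃ ε : ℝ, 0 < ε ∧ ∀ i ∈ s, ε ≤ f i := by
  classical
  induction s using Finset.induction_on with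
  | empty => exact ⟨1, one_pos, fun i hi => absurd hi (Finset.notMem_empty i)⟩
  | insert a s ha ih =>
    obtain ⟨ε, h0, h1⟩ := ih fun i hi => hf i (Finset.mem_insert_of_mem hi)
    refine ⟨min ε (f a), lt_min h0 (hf a (Finset.mem_insert_self a s)), fun i hi => ?_⟩
    rcases Finset.mem_insert.1 hi with rfl | hi
    · exact min_le_right _ _
    · exact (min_le_left _ _).trans (h1 i hi)

/-- PROOF. Take `ε > 0` below all the `ε0` of `node_area`, `ball_area`, `side_sector` (finitely many sides): the sum over the sides with end `z` of `ofReal (angAt * ε² / 2)` is at most `ofReal ((2 π - kp) * ε² / 2)`; `angAt = 0` for the other sides. If the sum of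
the angles is positive then `2 π - kp > 0` and divide; if there is no side with end `z`: the assertion is `kp n z ≤ 2 π`: the sum of three angles is `≥ 0` (definition of `kp`; `InnerProductGeometry.angle_nonneg`). -/
theorem node_ineq (hG : Gn n) (hg : Gen n a0 q) {z : E3} (hz : z ∈ bd n) (hzq : z ≠ q) :
    ∑ σ ∈ Sd n a0 q, angAt n q σ z ≤ 2 * π - kp n z := by
  classical
  have hsd : ∀ σ ∈ Sd n a0 q, IsSd n a0 q σ := fun σ h => (mem_Sd hG hg.loc σ).1 h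
  obtain ⟨F, hF⟩ : ∃ F, F = (Sd n a0 q).filter (fun σ => z = (en n q σ).1 ∨ z = (en n q σ).2) := ⟨_, rfl⟩
  have hmemF : ∀ σ, σ ∈ F ↔ σ ∈ Sd n a0 q ∧ (z = (en n q σ).1 ∨ z = (en n q σ).2) := by
    intro σ
    rw [hF, Finset.mem_filter]
  have hsum : ∑ σ ∈ Sd n a0 q, angAt n q σ z = ∑ σ ∈ F, angAt n q σ z := by
    symm
    rw [hF]
    refine Finset.sum_subset (Finset.filter_subset _ _) fun σ hσ hσ' => ?_
    rw [Finset.mem_filter, not_and, not_or] at hσ'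
    obtain ⟨h1, h2⟩ := hσ' hσ
    unfold angAt
    rw [if_neg h1, if_neg h2]
  have hex : ∀ σ : A × (E3 ≃ᵃⁱ[ℝ] E3) × (E3 ≃ᵃⁱ[ℝ] E3), ∃ ε0 : ℝ, σ ∈ F → (0 < ε0 ∧ ∀ ε : ℝ, 0 ≤ ε → ε ≤ ε0 →
      volume (TriD n a0 q σ ∩ Metric.closedBall (cc n a0 q (σ.2.1 z)) ε) = ENNReal.ofReal (angAt n q σ z * ε ^ 2 / 2)) := by
    intro σ
    by_cases hσ : σ ∈ F
    · obtain ⟨ε0, h0, h1⟩ := side_sector hG hg (hsd σ ((hmemF σ).1 hσ).1) ((hmemF σ).1 hσ).2
      exact ⟨ε0, fun _ => ⟨h0, h1⟩⟩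
    · exact ⟨0, fun h => absurd h hσ⟩
  choose f hf using hex
  obtain ⟨ε3, h30, h3⟩ := f5_min F f fun σ hσ => (hf σ hσ).1
  obtain ⟨ε1, h10, h1⟩ := node_area hG hg hzq
  obtain ⟨ε2, h20, h2⟩ := ball_area hG hz
  obtain ⟨ε, hε⟩ : ∃ ε, ε = min ε3 (min ε1 ε2) := ⟨_, rfl⟩
  have hε0 : 0 < ε := by
    rw [hε]
    exact lt_min h30 (lt_min h10 h20)
  have hε3 : ε ≤ ε3 := by rw [hε]; exact min_le_left _ _
  have hε1 : ε ≤ ε1 := by rw [hε]; exact (min_le_right _ _).trans (min_le_left _ _)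
  have hε2 : ε ≤ ε2 := by rw [hε]; exact (min_le_right _ _).trans (min_le_right _ _)
  have h4 := (h1 ε hε0.le hε1).trans (h2 ε hε0.le hε2)
  rw [← hF, Finset.sum_congr rfl fun σ hσ => (hf σ hσ).2 ε hε0.le (hε3.trans (h3 σ hσ)),
    ← ENNReal.ofReal_sum_of_nonneg fun σ hσ => by
      have h5 := (angAt_pos hG hg (hsd σ ((hmemF σ).1 hσ).1) ((hmemF σ).1 hσ).2).1
      positivity] at h4
  have h5 : ∑ σ ∈ F, angAt n q σ z * ε ^ 2 / 2 = (∑ σ ∈ F, angAt n q σ z) * (ε ^ 2 / 2) := by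
    rw [Finset.sum_mul]
    exact Finset.sum_congr rfl fun σ _ => by ring
  have h6 : (2 * π - kp n z) * ε ^ 2 / 2 = (2 * π - kp n z) * (ε ^ 2 / 2) := by ring
  have hpos : 0 < ε ^ 2 / 2 := by positivity
  rw [h5, h6, ENNReal.ofReal_le_ofReal_iff'] at h4
  rw [hsum]
  rcases h4 with h4 | h4
  · exact le_of_mul_le_mul_right h4 hpos
  · have h7 : ∑ σ ∈ F, angAt n q σ z ≤ 0 := nonpos_of_mul_nonpos_left h4 hpos
    exact h7.trans (f5_kp z)

end ALX
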