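import Pool.Agent.Lib.ALX.H4B
import Pool.Agent.Lib.ALX.D9A

/-! # ALX, chunk H5 (M): all points -/

open Real MeasureTheory

namespace ALX

open H47A (E3 cross3 det3 pl)

variable {A : Type} [Fintype A] [DecidableEq A] {n : A → E3} {q : E3}

theorem h5_bd : bd n = ⋃ a, Fc n a := by
  ext x
  simp only [Set.mem_iUnion]
  exact ⟨fun h => ⟨h.2.choose, h.1, h.2.choose_spec⟩, fun ⟨a, h⟩ => ⟨h.1, a, h.2⟩⟩

theorem h5_compact (hG : Gn n) : IsCompact (bd n) := by
  rw [h5_bd]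
  exact isCompact_iUnion fun a => (capi_Fc hG a).1

theorem h5_seq (hG : Gn n) (hq : q ∈ bd n) : ∃ (b : ℕ → A) (p : ℕ → E3), (∀ k, Gen n (b k) (p k)) ∧ (∀ k, p k ∈ bd n) ∧
    ∀ k, dl n q (p k) < 1 / ((k : ℝ) + 1) := by
  have h : ∀ k : ℕ, ∃ b q', Gen n b q' ∧ q' ∈ bd n ∧ dl n q q' < 1 / ((k : ℝ) + 1) :=
    fun k => capi_dense hG hq (by positivity)
  choose b p h1 h2 h3 using h
  exact ⟨b, p, h1, h2, h3⟩

theorem h5_ar (hG : Gn n) : ∀ᵐ x ∂(ar n), x ∈ bd n := by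
  unfold ar
  rw [Measure.ae_sum_iff]
  intro a
  refine (ae_restrict_iff' (capi_Fc hG a).1.measurableSet).2 (Filter.Eventually.of_forall fun x hx => ?_)
  exact ⟨hx.1, a, hx.2⟩

/-- **The inequality of Fiala**. PROOF. `capi_dense`: generic `q k ∈ bd n` with `dl n q (q k) < 1 / (k + 1)`; `|dl n q x - dl n (q k) x| ≤ dl n q (q k)` (`capi_lip`), so `R k = max dl n (q k)` (exists: `bd n` compact, `capi_cont`, nonempty) converges to `R`. Limit of the
inequalities of `fiala` (finite sum, continuous). -/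
theorem fiala_all (hG : Gn n) (hq : q ∈ bd n) {R : ℝ} (hR : ∀ x ∈ bd n, dl n q x ≤ R) (hR' : ∃ x ∈ bd n, dl n q x = R) :
    (ar n Set.univ).toReal ≤ π * R ^ 2 - 1 / 2 * ∑ v ∈ Vx n, kp n v * (R - dl n q v) ^ 2 := by
  obtain ⟨b, p, hg, hp, hpd⟩ := h5_seq hG hq
  have hmax : ∀ k, ∃ r : ℝ, (∀ x ∈ bd n, dl n (p k) x ≤ r) ∧ ∃ x ∈ bd n, dl n (p k) x = r := by
    intro k
    obtain ⟨x, hx, hxm⟩ := (h5_compact hG).exists_isMaxOn ⟨q, hq⟩ (capi_cont hG (hp k))
    exact ⟨dl n (p k) x, fun y hy => hxm hy, x, hx, rfl⟩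
  choose r hr hr' using hmax
  have h0 : Filter.Tendsto (fun k : ℕ => 1 / ((k : ℝ) + 1)) Filter.atTop (nhds 0) := tendsto_one_div_add_atTop_nhds_zero_nat
  have hdist : ∀ x ∈ bd n, Filter.Tendsto (fun k => dl n (p k) x) Filter.atTop (nhds (dl n q x)) := by
    intro x hx
    rw [tendsto_iff_dist_tendsto_zero]
    refine squeeze_zero (fun k => dist_nonneg) (fun k => ?_) h0
    rw [Real.dist_eq, abs_sub_comm]
    exact (capi_lip hG hq (hp k) hx).trans (hpd k).le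
  have hrt : Filter.Tendsto r Filter.atTop (nhds R) := by
    rw [tendsto_iff_dist_tendsto_zero]
    refine squeeze_zero (fun k => dist_nonneg) (fun k => ?_) h0
    rw [Real.dist_eq, abs_le]
    obtain ⟨x, hx, hxe⟩ := hr' k
    obtain ⟨y, hy, hye⟩ := hR'
    have h1 := abs_le.1 ((capi_lip hG hq (hp k) hx).trans (hpd k).le)
    have h2 := abs_le.1 ((capi_lip hG hq (hp k) hy).trans (hpd k).le)
    have h3 := hr k y hy
    have h4 := hR x hx
    constructor
    · linarith [h2.1, h2.2]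
    · linarith [h1.1, h1.2]
  have hlim : Filter.Tendsto (fun k => π * (r k) ^ 2 - 1 / 2 * ∑ v ∈ Vx n, kp n v * (r k - dl n (p k) v) ^ 2) Filter.atTop
      (nhds (π * R ^ 2 - 1 / 2 * ∑ v ∈ Vx n, kp n v * (R - dl n q v) ^ 2)) := by
    refine ((hrt.pow 2).const_mul π).sub (Filter.Tendsto.const_mul _ (tendsto_finset_sum _ fun v hv => ?_))
    have hvb : v ∈ bd n := by
      have h1 := (capi_Vx hG v).1 hv
      have h2 : 0 < (Ac n v).card := lt_of_lt_of_le (by norm_num) h1.2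
      obtain ⟨a, ha⟩ := Finset.card_pos.1 h2
      exact ⟨h1.1, a, (Finset.mem_filter.1 ha).2⟩
    exact ((hrt.sub (hdist v hvb)).pow 2).const_mul _
  exact ge_of_tendsto' hlim fun k => fiala hG (hg k) (hr k) (hr' k)

/-- **Bishop and Gromov**. PROOF. The same limit in `bg_gen` with `D' = D + δ`, where `dl n (q k) x ≤ D + δ`: the integral of `ofReal ((D + δ - dl n (q k) x)²)` is at most the integral of `ofReal ((D + 2 δ - dl n q x)²) ≤ ofReal ((D - dl n q x)²) + ofReal (4 δ (D + δ))`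
(on `bd n`, where `0 ≤ dl n q x ≤ D`; `ar n` is concentrated on `bd n` and finite: `capi_area`). `δ → 0`. -/
theorem bg_all (hG : Gn n) (hq : q ∈ bd n) {D : ℝ} (hD : ∀ x ∈ bd n, dl n q x ≤ D) :
    ENNReal.ofReal (D ^ 2 / 6) * ar n Set.univ ≤ ∫⁻ x, ENNReal.ofReal ((D - dl n q x) ^ 2) ∂(ar n) := by
  obtain ⟨b, p, hg, hp, hpd⟩ := h5_seq hG hq
  have hD0 : 0 ≤ D := (capi_nonneg q q).trans (hD q hq)
  have h0 : Filter.Tendsto (fun k : ℕ => 1 / ((k : ℝ) + 1)) Filter.atTop (nhds 0) := tendsto_one_div_add_atTop_nhds_zero_nat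
  have hstep : ∀ k : ℕ, ENNReal.ofReal (D ^ 2 / 6) * ar n Set.univ ≤
      ∫⁻ x, ENNReal.ofReal ((D - dl n q x) ^ 2) ∂(ar n) +
        ENNReal.ofReal (4 * (1 / ((k : ℝ) + 1)) * (D + 1 / ((k : ℝ) + 1))) * ar n Set.univ := by
    intro k
    obtain ⟨δ, hδ⟩ : ∃ δ : ℝ, δ = 1 / ((k : ℝ) + 1) := ⟨_, rfl⟩
    have hδ0 : 0 ≤ δ := by rw [hδ]; positivity
    rw [← hδ]
    have hpk : dl n q (p k) ≤ δ := by rw [hδ]; exact (hpd k).le
    have h1 : ∀ x ∈ bd n, dl n (p k) x ≤ D + δ := by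
      intro x hx
      have := abs_le.1 ((capi_lip hG hq (hp k) hx).trans hpk)
      linarith [this.1, hD x hx]
    calc ENNReal.ofReal (D ^ 2 / 6) * ar n Set.univ ≤ ENNReal.ofReal ((D + δ) ^ 2 / 6) * ar n Set.univ := by
          gcongr
          linarith
      _ ≤ ∫⁻ x, ENNReal.ofReal ((D + δ - dl n (p k) x) ^ 2) ∂(ar n) := bg_gen hG (hg k) h1
      _ ≤ ∫⁻ x, (ENNReal.ofReal ((D - dl n q x) ^ 2) + ENNReal.ofReal (4 * δ * (D + δ))) ∂(ar n) := by
          refine lintegral_mono_ae ((h5_ar hG).mono fun x hx => ?_)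
          rw [← ENNReal.ofReal_add (sq_nonneg _) (by positivity)]
          apply ENNReal.ofReal_le_ofReal
          have h2 := abs_le.1 ((capi_lip hG hq (hp k) hx).trans hpk)
          have h3 : 0 ≤ D + δ - dl n (p k) x := by linarith [h1 x hx]
          have h4 : D + δ - dl n (p k) x ≤ D - dl n q x + 2 * δ := by linarith [h2.2]
          have h5 := capi_nonneg (n := n) q x
          have h6 := hD x hx
          calc (D + δ - dl n (p k) x) ^ 2 ≤ (D - dl n q x + 2 * δ) ^ 2 := pow_le_pow_left₀ h3 h4 2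
            _ ≤ (D - dl n q x) ^ 2 + 4 * δ * (D + δ) := by nlinarith [mul_nonneg hδ0 h5]
      _ = _ := by
          rw [lintegral_add_right _ measurable_const, lintegral_const]
  have hlim : Filter.Tendsto (fun k : ℕ => ∫⁻ x, ENNReal.ofReal ((D - dl n q x) ^ 2) ∂(ar n) +
        ENNReal.ofReal (4 * (1 / ((k : ℝ) + 1)) * (D + 1 / ((k : ℝ) + 1))) * ar n Set.univ) Filter.atTop
      (nhds (∫⁻ x, ENNReal.ofReal ((D - dl n q x) ^ 2) ∂(ar n) + 0)) := by
    refine tendsto_const_nhds.add ?_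
    have h1 : Filter.Tendsto (fun k : ℕ => 4 * (1 / ((k : ℝ) + 1)) * (D + 1 / ((k : ℝ) + 1))) Filter.atTop (nhds (4 * 0 * (D + 0))) :=
      (h0.const_mul 4).mul (h0.const_add D)
    have h2 := ENNReal.tendsto_ofReal h1
    have h3 := ENNReal.Tendsto.mul_const h2 (Or.inr (capi_area hG).ne)
    simpa using h3
  rw [add_zero] at hlim
  exact ge_of_tendsto' hlim hstep

end ALX
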