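import Pool.Agent.Lib.ALX.ApiPA
import Pool.Agent.Lib.ALX.H5

/-! # ALX: the inequality of Fiala (module H) and the Bishop-Gromov integral (module D): interface used by module J
(proved from `fiala_all`, `bg_all` of H5.lean) -/

open Real MeasureTheory

namespace ALX

open H47A (E3 cross3 det3 pl)

variable {A : Type} [Fintype A] [DecidableEq A] {n : A → E3}

/-- Fiala -/
theorem fb_fiala (hG : Gn n) {a0 : A} {q : E3} (hg : Gen n a0 q) {z : E3} (hz : z ∈ bd n) (hmax : ∀ x ∈ bd n, dl n q x ≤ dl n q z) :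
    (ar n Set.univ).toReal ≤ π * (dl n q z) ^ 2 - 1 / 2 * ∑ v ∈ Vx n, kp n v * (dl n q z - dl n q v) ^ 2 :=
  fiala hG hg hmax ⟨z, hz, rfl⟩

theorem fb_ae_bd (hG : Gn n) : ∀ᵐ x ∂(ar n), x ∈ bd n := by
  rw [ae_iff]
  exact ar_bd hG

/-- Bishop-Gromov -/
theorem fb_bg (hG : Gn n) {v : E3} (hv : v ∈ bd n) {D : ℝ} (hD : ∀ x ∈ bd n, dl n v x ≤ D) :
    D ^ 2 / 6 * (ar n Set.univ).toReal ≤ ∫ x, (D - dl n v x) ^ 2 ∂(ar n) := by
  have hfin : ar n Set.univ < ⊤ := ar_finite hG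
  haveI : IsFiniteMeasure (ar n) := ⟨hfin⟩
  have h0 : 0 ≤ D := (dl_nonneg v v).trans (hD v hv)
  have hae := fb_ae_bd hG
  have hmeas : AEStronglyMeasurable (fun x => (D - dl n v x) ^ 2) (ar n) := by
    have hc : ContinuousOn (fun x => (D - dl n v x) ^ 2) (bd n) := (continuousOn_const.sub (dl_contOn hG hv)).pow 2
    have h1 : AEStronglyMeasurable (fun x => (D - dl n v x) ^ 2) ((ar n).restrict (bd n)) :=
      hc.aestronglyMeasurable bd_closed.measurableSet
    have h2 : (ar n).restrict (bd n) = ar n := Measure.restrict_eq_self_of_ae_mem hae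
    rwa [h2] at h1
  have h1 := bg_all hG hv hD
  have h2 : ∫ x, (D - dl n v x) ^ 2 ∂(ar n) = (∫⁻ x, ENNReal.ofReal ((D - dl n v x) ^ 2) ∂(ar n)).toReal :=
    integral_eq_lintegral_of_nonneg_ae (Filter.Eventually.of_forall fun x => sq_nonneg _) hmeas
  rw [h2]
  have h3 : ∫⁻ x, ENNReal.ofReal ((D - dl n v x) ^ 2) ∂(ar n) ≠ ⊤ := by
    refine ne_of_lt (lt_of_le_of_lt (b := ∫⁻ _, ENNReal.ofReal (D ^ 2) ∂(ar n)) (lintegral_mono_ae ?_) ?_)
    · filter_upwards [hae] with x hx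
      refine ENNReal.ofReal_le_ofReal ?_
      have h4 := hD x hx
      have h5 := dl_nonneg (n := n) v x
      nlinarith
    · rw [lintegral_const]
      exact ENNReal.mul_lt_top ENNReal.ofReal_lt_top hfin
  have h4 := ENNReal.toReal_mono h3 h1
  rwa [ENNReal.toReal_mul, ENNReal.toReal_ofReal (by positivity)] at h4

end ALX
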