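import Pool.Agent.Lib.ALX.GDefs

/-! # ALX, chunk G1 (S/M): lists and the finite set `GG`

`GG_finite`: the image under `l ↦ chT n l` of a subset of `{l | l.length ≤ card A + 1}`, finite by `List.finite_length_le`.
`ray_list`: induction on `Ray`. `t` is nonnegative, the list has no repetition (`b ∉ a :: c`), last element `a0`.
`ray_GG`: nodup lists have length at most `card A` (`List.Nodup.length_le_card`), nodup implies that neighbours are different (`List.Nodup.isChain` or `List.Pairwise.isChain`).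
`ray_GG2`: the list `b :: a :: c` with `b ≠ a`, `a :: c` nodup; `chT n (b :: a :: c) = (rho n a b).trans (chT n (a :: c))` is the definition.
`img_finite`: `Img` is contained in `GG`. -/

open Real MeasureTheory

namespace ALX

open H47A (E3 cross3 det3 pl)

variable {A : Type} [Fintype A] [DecidableEq A] {n : A → E3}

theorem GG_finite (a0 b : A) : (GG n a0 b).Finite := by
  refine ((List.finite_length_le A (Fintype.card A + 1)).image (fun l => chT n l)).subset ?_
  rintro T ⟨c, -, -, hl, rfl⟩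
  exact ⟨b :: c, hl, rfl⟩

theorem ray_list {a0 : A} {q u : E3} {l : List A} {t : ℝ} (h : Ray n a0 q u l t) :
    0 ≤ t ∧ l.Nodup ∧ l.getLast? = some a0 ∧ ∃ a c, l = a :: c := by
  induction h with
  | base => exact ⟨le_rfl, List.nodup_singleton _, rfl, a0, [], rfl⟩
  | step h hb ht hA ih =>
    obtain ⟨h1, h2, h3, -⟩ := ih
    refine ⟨(h1.trans_lt ht).le, List.nodup_cons.2 ⟨hb, h2⟩, ?_, _, _, rfl⟩
    rw [List.getLast?_cons_cons]
    exact h3

theorem ray_GG {a0 a : A} {q u : E3} {c : List A} {t : ℝ} (h : Ray n a0 q u (a :: c) t) :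
    chT n (a :: c) ∈ GG n a0 a := by
  obtain ⟨-, h2, h3, -⟩ := ray_list h
  refine ⟨c, h3, List.Pairwise.isChain h2, ?_, rfl⟩
  exact h2.length_le_card.trans (Nat.le_succ _)

theorem ray_GG2 {a0 a b : A} {q u : E3} {c : List A} {t : ℝ} (h : Ray n a0 q u (a :: c) t) (hb : b ≠ a) :
    (rho n a b).trans (chT n (a :: c)) ∈ GG n a0 b := by
  obtain ⟨-, h2, h3, -⟩ := ray_list h
  refine ⟨a :: c, ?_, ?_, ?_, rfl⟩
  · rw [List.getLast?_cons_cons]
    exact h3
  · exact List.isChain_cons_cons.2 ⟨hb, List.Pairwise.isChain h2⟩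
  · have := h2.length_le_card
    rw [List.length_cons]
    omega

theorem img_GG {a0 a : A} {q : E3} {T : E3 ≃ᵃⁱ[ℝ] E3} (h : T ∈ Img n a0 q a) : T ∈ GG n a0 a := by
  obtain ⟨u, x, c, -, -, ⟨a', c', t, -, hr, -⟩, rfl⟩ := h
  exact ray_GG hr

theorem img_GG2 {a0 a b : A} {q : E3} {T : E3 ≃ᵃⁱ[ℝ] E3} (h : T ∈ Img n a0 q a) (hb : b ≠ a) :
    (rho n a b).trans T ∈ GG n a0 b := by
  obtain ⟨u, x, c, -, -, ⟨a', c', t, -, hr, -⟩, rfl⟩ := h
  exact ray_GG2 hr hb

theorem img_finite (a0 a : A) (q : E3) : (Img n a0 q a).Finite :=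
  (GG_finite a0 a).subset fun _ h => img_GG h

end ALX
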