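import Pool.Agent.Lib.ALX.G1
import Pool.Agent.Lib.ALX.ApiPA

/-! # ALX, chunk G2 (S): unfoldings

`GG_un`: the definition and `isUn_chT`. `ray_un`: `ray_list`, `isUn_chT`. `ray_pt`: `IsUn.symm_plane`, `q + s • u` is in the plane of `a0`.
`hinge_side`: `(rho n a b).symm = rho n b a` (`rho_symm`), `rho_refl` for `b, a`: `⟪nu a, (rho n b a).lin w⟫ = - ⟪nu b, w⟫`, `rho_dir`; `nu_inner`, `‖n a‖ > 0`. `hinge_fix`: `IsHinge.fix`, `rho_spec`. -/

open Real MeasureTheory Filter Topology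

namespace ALX

open H47A (E3 cross3 det3 pl)

variable {A : Type} [Fintype A] [DecidableEq A] {n : A → E3}

theorem GG_un (hG : Gn n) {a0 b : A} {T : E3 ≃ᵃⁱ[ℝ] E3} (hT : T ∈ GG n a0 b) : IsUn n b a0 T := by
  obtain ⟨c, h1, -, -, rfl⟩ := hT
  exact isUn_chT hG h1

theorem ray_un (hG : Gn n) {a0 a : A} {q u : E3} {c : List A} {t : ℝ} (h : Ray n a0 q u (a :: c) t) : IsUn n a a0 (chT n (a :: c)) :=
  isUn_chT hG (ray_list h).2.2.1

theorem ray_pt (hG : Gn n) {a0 a : A} {q u : E3} {c : List A} {t : ℝ} (hq : At n q {a0}) (hu : Dir n a0 u) (h : Ray n a0 q u (a :: c) t) (s : ℝ) :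
    lf n a ((chT n (a :: c)).symm (q + s • u)) = 1 := by
  refine IsUn.symm_plane hG (ray_un hG h) ?_
  have h1 : lf n a0 q = 1 := (hq.mem (Finset.mem_singleton_self a0)).2
  rw [lf_add, lf_smul, h1, Dir.lf hu, mul_zero, add_zero]

theorem hinge_side (hG : Gn n) {a b : A} (hab : a ≠ b) {w : E3} (hw : lf n a w = 0) :
    (0 < lf n b w ↔ lf n a ((rho n a b).symm.linearIsometryEquiv w) < 0) ∧
      (lf n b w < 0 ↔ 0 < lf n a ((rho n a b).symm.linearIsometryEquiv w)) ∧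
      lf n b ((rho n a b).symm.linearIsometryEquiv w) = 0 := by
  have hw' : inner ℝ (n a) w = (0 : ℝ) := hw
  rw [← rho_symm hG a b]
  have h1 := rho_refl hG hab.symm hw'
  rw [nu_inner, nu_inner] at h1
  have ha : 0 < ‖n a‖⁻¹ := inv_pos.2 (norm_pos_iff.2 (hG.ne a))
  have hb : 0 < ‖n b‖⁻¹ := inv_pos.2 (norm_pos_iff.2 (hG.ne b))
  refine ⟨⟨fun h => ?_, fun h => ?_⟩, ⟨fun h => ?_, fun h => ?_⟩, (rho_dir hG).2 hw'⟩
  · by_contra hc
    push Not at hc
    nlinarith [mul_nonneg ha.le hc, mul_pos hb h]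
  · by_contra hc
    push Not at hc
    nlinarith [mul_pos_of_neg_of_neg (neg_lt_zero.2 ha) h, mul_nonneg_of_nonpos_of_nonpos (neg_nonpos.2 hb.le) hc]
  · by_contra hc
    push Not at hc
    nlinarith [mul_nonneg_of_nonpos_of_nonpos (neg_nonpos.2 ha.le) hc, mul_pos_of_neg_of_neg (neg_lt_zero.2 hb) h]
  · by_contra hc
    push Not at hc
    nlinarith [mul_nonneg hb.le hc, mul_pos ha h]

theorem hinge_fix (hG : Gn n) {a b : A} {x : E3} (h1 : lf n a x = 1) (h2 : lf n b x = 1) : rho n a b x = x ∧ (rho n a b).symm x = x := by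
  refine ⟨(rho_spec hG a b).fix x h1 h2, ?_⟩
  rw [← rho_symm hG a b]
  exact (rho_spec hG b a).fix x h2 h1

end ALX
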