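import Pool.Agent.Lib.ALX.ApiPA
import Pool.Agent.Lib.ALX.P17

/-! # ALX, chunk G3 (S): the charts of the facet planes are isometries (P16, P17) -/

open Real MeasureTheory Filter Topology

namespace ALX

open H47A (E3 cross3 det3 pl)

variable {A : Type} [Fintype A] [DecidableEq A] {n : A → E3}

theorem em_isom (hG : Gn n) (a : A) : Isometry (em n a) :=
  Isometry.of_dist_eq fun x y => by rw [dist_eq_norm, dist_eq_norm, em_norm hG]

theorem em_mem (hG : Gn n) (a : A) (z : ℂ) : lf n a (em n a z) = 1 := em_lf hG a z

end ALX
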