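import Pool.Agent.Lib.ALX.G3
import Pool.Agent.Lib.ALX.P20

/-! # ALX, chunk G5 (S): lines are null sets in the chart (from P20) -/

open Real MeasureTheory Filter Topology

namespace ALX

open H47A (E3 cross3 det3 pl)

variable {A : Type} [Fintype A] [DecidableEq A] {n : A → E3}

theorem em_line_null (hG : Gn n) {a : A} {w : E3} (hw : ∀ r : ℝ, w ≠ r • n a) (k : ℝ) : volume {z : ℂ | inner ℝ w (em n a z) = k} = 0 := by
  have hna : n a ≠ 0 := hG.ne a
  have hpos : 0 < ‖n a‖ := norm_pos_iff.2 hna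
  set r : ℝ := inner ℝ (n a) w / ‖n a‖ ^ 2 with hr
  have h1 : inner ℝ (n a) (w - r • n a) = (0 : ℝ) := by
    rw [inner_sub_right, inner_smul_right, real_inner_self_eq_norm_sq, hr]
    field_simp
    ring
  have h2 : inner ℝ w (w - r • n a) ≠ (0 : ℝ) := by
    have h3 : (inner ℝ w (w - r • n a) : ℝ) = ‖w - r • n a‖ ^ 2 := by
      rw [← real_inner_self_eq_norm_sq, inner_sub_left (𝕜 := ℝ) w (r • n a) (w - r • n a), inner_smul_left, h1]
      simp
    rw [h3]
    have h4 : w - r • n a ≠ 0 := fun h => hw r (sub_eq_zero.1 h)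
    have h5 : 0 < ‖w - r • n a‖ := norm_pos_iff.2 h4
    positivity
  exact vol_aff hG h1 h2

end ALX
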