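import Pool.Agent.Lib.ALX.G5

/-! # ALX, chunk G6 (M): the bad points for two unfoldings

There are two different points `y1, y2` with `lf b = lf c = 1` (the normals `n b`, `n c` are independent: `y1 = s n b + t n c`, `y2 = y1 + cross3 (n b) (n c)`). By `IsUn.ext_two` `T y ≠ T' y` for `y = y1` or `y = y2`. If
`‖T y - Q‖ = ‖T' y - Q‖` for `Q = em n a0 z` then `2 ⟪T' y - T y, Q⟫ = ‖T' y‖² - ‖T y‖²`; `w = T' y - T y ≠ 0` is orthogonal to `n a0` (both points lie in the plane of `a0`: `IsUn.plane`), so it is not a multiple of `n a0`: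
`em_line_null`. -/

open Real MeasureTheory Filter Topology

namespace ALX

open H47A (E3 cross3 det3 pl)

variable {A : Type} [Fintype A] [DecidableEq A] {n : A → E3}

theorem g6_one (hG : Gn n) {a0 b c : A} {T T' : E3 ≃ᵃⁱ[ℝ] E3} (hT : IsUn n b a0 T) (hT' : IsUn n b a0 T') {y : E3}
    (hb : lf n b y = 1) (hc : lf n c y = 1) (hne : T y ≠ T' y) :
    volume {z : ℂ | ∀ y, lf n b y = 1 → lf n c y = 1 → ‖T y - em n a0 z‖ = ‖T' y - em n a0 z‖} = 0 := by
  have h1 : lf n a0 (T y) = 1 := hT.plane y hb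
  have h2 : lf n a0 (T' y) = 1 := hT'.plane y hb
  have hna : n a0 ≠ 0 := hG.ne a0
  have h3 : ∀ r : ℝ, T' y - T y ≠ r • n a0 := by
    intro r hr
    have h4 : lf n a0 (T' y - T y) = 0 := by rw [lf_sub, h1, h2, sub_self]
    rw [hr, lf_smul] at h4
    have h5 : lf n a0 (n a0) = ‖n a0‖ ^ 2 := by
      unfold lf
      rw [real_inner_self_eq_norm_sq]
    rw [h5] at h4
    have h6 : ‖n a0‖ ^ 2 ≠ 0 := pow_ne_zero 2 (norm_ne_zero_iff.mpr hna)
    have h7 : r = 0 := (mul_eq_zero.mp h4).resolve_right h6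
    rw [h7, zero_smul, sub_eq_zero] at hr
    exact hne hr.symm
  refine measure_mono_null (fun z hz => ?_) (em_line_null hG h3 ((‖T' y‖ ^ 2 - ‖T y‖ ^ 2) / 2))
  have h8 := hz y hb hc
  have h9 : ‖T y - em n a0 z‖ ^ 2 = ‖T' y - em n a0 z‖ ^ 2 := by rw [h8]
  rw [norm_sub_sq_real, norm_sub_sq_real] at h9
  change inner ℝ (T' y - T y) (em n a0 z) = (‖T' y‖ ^ 2 - ‖T y‖ ^ 2) / 2
  rw [inner_sub_left]
  linarith

theorem bad_null (hG : Gn n) {a0 b c : A} (hbc : b ≠ c) {T T' : E3 ≃ᵃⁱ[ℝ] E3} (hT : IsUn n b a0 T) (hT' : IsUn n b a0 T') (hne : T ≠ T') :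
    volume {z : ℂ | ∀ y, lf n b y = 1 → lf n c y = 1 → ‖T y - em n a0 z‖ = ‖T' y - em n a0 z‖} = 0 := by
  have hcr := hG.cross hbc
  obtain ⟨y, hy1, hy2⟩ := H47A.two_planes hcr
  by_cases h1 : T y = T' y
  · have hne2 : y ≠ y + cross3 (n b) (n c) := by
      intro h2
      apply hcr
      have h3 : y + cross3 (n b) (n c) - y = 0 := by rw [← h2, sub_self]
      rwa [add_sub_cancel_left] at h3
    have hb : lf n b (y + cross3 (n b) (n c)) = 1 := by
      rw [lf_add]
      have h3 : lf n b (cross3 (n b) (n c)) = 0 := by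
        unfold lf
        rw [real_inner_comm]
        exact H47A.cross3_self_left _ _
      rw [h3, add_zero]
      exact hy1
    have hc : lf n c (y + cross3 (n b) (n c)) = 1 := by
      rw [lf_add]
      have h3 : lf n c (cross3 (n b) (n c)) = 0 := by
        unfold lf
        rw [real_inner_comm]
        exact H47A.cross3_self_right _ _
      rw [h3, add_zero]
      exact hy2
    refine g6_one hG hT hT' hb hc fun h2 => hne ?_
    exact IsUn.ext_two hG hT hT' hne2 hy1 hb h1 h2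
  · exact g6_one hG hT hT' hy1 hy2 h1

end ALX
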