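import Pool.Agent.Lib.ALX.G2
import Pool.Agent.Lib.ALX.G4
import Pool.Agent.Lib.ALX.G6

/-! # ALX, chunk G7 (M): almost every point of a facet is generic

`gen_ae`: if `At n Q {a0}` and not `Gen n a0 Q`, then for some `b`, `T ≠ T'` in `GG n a0 b` either `T.symm Q = T'.symm Q`, and then `‖T y - Q‖ = ‖y - T.symm Q‖ = ‖T' y - Q‖` for all `y`, or the condition `mir` fails for
some `c ≠ b`. In both cases (there is some `c ≠ b`: `Gn.third`) `Q` is in one of the sets of `bad_null` (`GG_un`); finitely many (`GG_finite`): `measure_biUnion_null_iff`.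
`fc_ae`: then `lf b = 1` for some `b ≠ a`: `em_line_null` with `w = n b` (not a multiple of `n a`: `Gn.cross`). -/

open Real MeasureTheory Filter Topology

namespace ALX

open H47A (E3 cross3 det3 pl)

variable {A : Type} [Fintype A] [DecidableEq A] {n : A → E3}

theorem g7_symm (T : E3 ≃ᵃⁱ[ℝ] E3) (y q : E3) : ‖T y - q‖ = ‖y - T.symm q‖ := by
  have h1 : dist (T y) (T (T.symm q)) = dist y (T.symm q) := T.dist_map _ _
  rw [AffineIsometryEquiv.apply_symm_apply, dist_eq_norm, dist_eq_norm] at h1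
  exact h1

theorem gen_ae (hG : Gn n) (a0 : A) : volume {z : ℂ | At n (em n a0 z) {a0} ∧ ¬ Gen n a0 (em n a0 z)} = 0 := by
  set B : A → (E3 ≃ᵃⁱ[ℝ] E3) → (E3 ≃ᵃⁱ[ℝ] E3) → A → Set ℂ := fun b T T' c =>
    {z | T ≠ T' ∧ c ≠ b ∧ ∀ y, lf n b y = 1 → lf n c y = 1 → ‖T y - em n a0 z‖ = ‖T' y - em n a0 z‖} with hB
  have hsub : {z : ℂ | At n (em n a0 z) {a0} ∧ ¬ Gen n a0 (em n a0 z)} ⊆
      ⋃ b, ⋃ T ∈ GG n a0 b, ⋃ T' ∈ GG n a0 b, ⋃ c, B b T T' c := by
    rintro z ⟨hz1, hz2⟩
    simp only [Set.mem_iUnion]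
    by_contra hno
    push Not at hno
    apply hz2
    refine ⟨hz1, ?_, ?_⟩
    · intro b T hT T' hT' hne heq
      obtain ⟨c, hcb, -⟩ := hG.third b b
      apply hno b T hT T' hT' c
      refine ⟨hne, hcb, fun y _ _ => ?_⟩
      rw [g7_symm, g7_symm, heq]
    · intro b T hT T' hT' hne c hc hall
      exact hno b T hT T' hT' c ⟨hne, hc, hall⟩
  refine measure_mono_null hsub ?_
  refine measure_iUnion_null fun b => ?_
  refine (measure_biUnion_null_iff (GG_finite a0 b).countable).2 fun T hT => ?_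
  refine (measure_biUnion_null_iff (GG_finite a0 b).countable).2 fun T' hT' => ?_
  refine measure_iUnion_null fun c => ?_
  by_cases hne : T = T'
  · refine measure_mono_null (fun z hz => ?_) (measure_empty (μ := volume))
    exact absurd hne hz.1
  · by_cases hcb : c = b
    · refine measure_mono_null (fun z hz => ?_) (measure_empty (μ := volume))
      exact absurd hcb hz.2.1
    · exact measure_mono_null (fun z hz => hz.2.2)
        (bad_null hG (Ne.symm hcb) (GG_un hG hT) (GG_un hG hT') hne)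

theorem fc_ae (hG : Gn n) (a : A) : volume {z : ℂ | em n a z ∈ Fc n a ∧ ¬ At n (em n a z) {a}} = 0 := by
  have hsub : {z : ℂ | em n a z ∈ Fc n a ∧ ¬ At n (em n a z) {a}} ⊆
      ⋃ b, {z : ℂ | b ≠ a ∧ inner ℝ (n b) (em n a z) = 1} := by
    rintro z ⟨hz1, hz2⟩
    simp only [Set.mem_iUnion]
    by_contra hno
    push Not at hno
    apply hz2
    refine ⟨hz1.1, ?_⟩
    ext b
    rw [mem_Ac, Finset.mem_singleton]
    constructor
    · intro hb
      by_contra hba
      exact hno b ⟨hba, hb⟩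
    · intro hb
      rw [hb]
      exact hz1.2
  refine measure_mono_null hsub (measure_iUnion_null fun b => ?_)
  by_cases hba : b = a
  · refine measure_mono_null (fun z hz => ?_) (measure_empty (μ := volume))
    exact absurd hba hz.1
  · refine measure_mono_null (fun z hz => hz.2) (em_line_null hG (fun r hr => ?_) 1)
    apply hG.cross (Ne.symm hba)
    have h1 := H47A.cross3_smul 1 r (n a) (n a)
    rw [one_smul, H47A.eact_cs, smul_zero] at h1
    rw [hr]
    exact h1

end ALX
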