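import Mathlib

/-! # ALX, chunk H2 (S/M): a rank function on a finite connected graph -/

namespace ALX

/-- `V` finite, `E` a symmetric relation such that no subset different from `∅` and `V` is closed under `E`; `r : V`. Then there is
`h : V → ℕ` such that every `v ≠ r` has a neighbour with smaller value.
PROOF. `SimpleGraph.fromRel E` (or the graph with adjacency `v ≠ w ∧ E v w`) is connected (the set of vertices reachable from `r` is closed, so everything); `h v = dist v r`
(`SimpleGraph.dist`); take the first step of a shortest walk (`SimpleGraph.Connected.exists_walk_length_eq_dist`). Or: induction, `h v` = the least `k` such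
that `v ∈ B k`, `B 0 = {r}`, `B (k+1) = B k ∪ {v | ∃ w ∈ B k, E v w}`; the union of the `B k` is closed. -/
theorem exists_rank {V : Type*} [Finite V] (E : V → V → Prop) (hs : ∀ v w, E v w → E w v) (r : V)
    (hc : ∀ S : Set V, S.Nonempty → (∀ v w, v ∈ S → E v w → w ∈ S) → S = Set.univ) :
    ∃ h : V → ℕ, ∀ v, v ≠ r → ∃ w, E v w ∧ h w < h v := by
  let G : SimpleGraph V := SimpleGraph.fromRel E
  have hadj : ∀ v w, G.Adj v w → E v w := by
    intro v w h
    rw [SimpleGraph.fromRel_adj] at h
    rcases h.2 with h1 | h1
    · exact h1
    · exact hs w v h1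
  have hreach : ∀ v, G.Reachable v r := by
    have h1 := hc {v | G.Reachable v r} ⟨r, SimpleGraph.Reachable.refl r⟩ (by
      intro v w hv hvw
      by_cases hne : v = w
      · rw [← hne]
        exact hv
      · have h2 : G.Adj w v := by
          rw [SimpleGraph.fromRel_adj]
          exact ⟨fun h => hne h.symm, Or.inr hvw⟩
        exact h2.reachable.trans hv)
    intro v
    have h2 : v ∈ {v | G.Reachable v r} := by
      rw [h1]
      exact Set.mem_univ v
    exact h2
  refine ⟨fun v => G.dist v r, fun v hv => ?_⟩
  obtain ⟨p, hp⟩ := (hreach v).exists_walk_length_eq_dist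
  cases p with
  | nil => exact absurd rfl hv
  | cons h q =>
    rename_i w
    refine ⟨w, hadj v w h, ?_⟩
    have h1 := SimpleGraph.dist_le q
    rw [SimpleGraph.Walk.length_cons] at hp
    change G.dist w r < G.dist v r
    omega

end ALX
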