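import Pool.Agent.Lib.ALX.E3
import Pool.Agent.Lib.ALX.H2

/-! # ALX, chunk H1 (M): the graph of the ridges is connected; rank function -/

open Real MeasureTheory

namespace ALX

open H47A (E3 cross3 det3 pl)

variable {A : Type} [Fintype A] [DecidableEq A] {n : A → E3} {a0 : A} {q : E3}

/-- A set of points with the property that every ridge with one end in it has both ends in it contains all the ends or none.
PROOF. Let `U` be the union of the `JJ σ` over the `σ ∈ Sd` with an end in `S`, `U'` the union over the other `σ ∈ Sd`: closed (`jj_closed`), `U ∪ U' = ℝ` (`jj_cover`), and disjoint: `θ ∈ JJ σ ∩ JJ τ`, `jj_inter`: `τ = σ` or `τ = flp σ` (the same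
ends: `flp_en`), or a common end. `ℝ` is connected (`isPreconnected_univ`, `isPreconnected_closed_iff`), `U` is not empty (`jj_exists` for an end of the ridge of a side with end in `S`), so `U' = ∅`, and a side with no end in `S` would have a nonempty `JJ`. -/
theorem ridges_connected (hG : Gn n) (hg : Gen n a0 q) (S : Set E3)
    (hS : ∀ σ ∈ Sd n a0 q, (en n q σ).1 ∈ S ↔ (en n q σ).2 ∈ S) {σ0 : A × (E3 ≃ᵃⁱ[ℝ] E3) × (E3 ≃ᵃⁱ[ℝ] E3)} (h0 : σ0 ∈ Sd n a0 q)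
    (h0S : (en n q σ0).1 ∈ S) : ∀ σ ∈ Sd n a0 q, (en n q σ).1 ∈ S ∧ (en n q σ).2 ∈ S := by
  classical
  have hsd : ∀ σ ∈ Sd n a0 q, IsSd n a0 q σ := fun σ h => (mem_Sd hG hg.loc σ).1 h
  have hall : ∀ σ ∈ Sd n a0 q, (en n q σ).1 ∈ S := by
    by_contra hcon
    push Not at hcon
    obtain ⟨τ0, hτ0, hτS⟩ := hcon
    obtain ⟨U, hU⟩ : ∃ U : Set ℝ, U = ⋃ σ ∈ (Sd n a0 q).filter (fun σ => (en n q σ).1 ∈ S), JJ n a0 q σ := ⟨_, rfl⟩
    obtain ⟨U', hU'⟩ : ∃ U' : Set ℝ, U' = ⋃ σ ∈ (Sd n a0 q).filter (fun σ => ¬ (en n q σ).1 ∈ S), JJ n a0 q σ := ⟨_, rfl⟩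
    have hmem : ∀ θ, θ ∈ U ↔ ∃ σ ∈ Sd n a0 q, (en n q σ).1 ∈ S ∧ θ ∈ JJ n a0 q σ := by
      intro θ
      rw [hU]
      simp only [Set.mem_iUnion, Finset.mem_filter, exists_prop, and_assoc]
    have hmem' : ∀ θ, θ ∈ U' ↔ ∃ σ ∈ Sd n a0 q, ¬ (en n q σ).1 ∈ S ∧ θ ∈ JJ n a0 q σ := by
      intro θ
      rw [hU']
      simp only [Set.mem_iUnion, Finset.mem_filter, exists_prop, and_assoc]
    have hUc : IsClosed U := by
      rw [hU]
      exact isClosed_biUnion_finset fun σ hσ => jj_closed hG hg.loc (hsd σ (Finset.mem_filter.1 hσ).1)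
    have hUc' : IsClosed U' := by
      rw [hU']
      exact isClosed_biUnion_finset fun σ hσ => jj_closed hG hg.loc (hsd σ (Finset.mem_filter.1 hσ).1)
    have hcov : (Set.univ : Set ℝ) ⊆ U ∪ U' := by
      intro θ _
      obtain ⟨σ, hσ, hθ⟩ := jj_cover hG hg θ
      by_cases h : (en n q σ).1 ∈ S
      · exact Or.inl ((hmem θ).2 ⟨σ, hσ, h, hθ⟩)
      · exact Or.inr ((hmem' θ).2 ⟨σ, hσ, h, hθ⟩)
    have hne : ∀ σ ∈ Sd n a0 q, ∃ θ, θ ∈ JJ n a0 q σ := by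
      intro σ hσ
      have h1 := en_spec (hsd σ hσ)
      have h2 : (en n q σ).1 ∈ RR n q σ := by
        rw [h1.2]
        exact left_mem_segment ℝ _ _
      obtain ⟨θ, hθ⟩ := jj_exists hG hg (hsd σ hσ) h2
      exact ⟨θ, _, h2, hθ⟩
    obtain ⟨θ1, hθ1⟩ := hne σ0 h0
    obtain ⟨θ2, hθ2⟩ := hne τ0 hτ0
    obtain ⟨θ, _, hθU, hθU'⟩ := isPreconnected_closed_iff.1 isPreconnected_univ U U' hUc hUc' hcov
      ⟨θ1, trivial, (hmem θ1).2 ⟨σ0, h0, h0S, hθ1⟩⟩ ⟨θ2, trivial, (hmem' θ2).2 ⟨τ0, hτ0, hτS, hθ2⟩⟩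
    obtain ⟨σ, hσ, hσS, hσθ⟩ := (hmem θ).1 hθU
    obtain ⟨τ, hτ, hτS', hτθ⟩ := (hmem' θ).1 hθU'
    rcases jj_inter hG hg (hsd σ hσ) (hsd τ hτ) hσθ hτθ with (h | h) | ⟨x, hx, hx'⟩
    · rw [h] at hτS'
      exact hτS' hσS
    · rw [h, (flp_en σ).2] at hτS'
      exact hτS' hσS
    · have hxS : x ∈ S := by
        rcases hx with h | h
        · rw [h]; exact hσS
        · rw [h]; exact (hS σ hσ).1 hσS
      rcases hx' with h | h
      · rw [h] at hxS; exact hτS' hxS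
      · rw [h] at hxS; exact hτS' ((hS τ hτ).2 hxS)
  exact fun σ hσ => ⟨hall σ hσ, (hS σ hσ).1 (hall σ hσ)⟩

/-- PROOF. `exists_rank` (`H2.lean`) for the finite type `V` of the ends of ridges (a subtype of `E3`), `E v w` = some side has the ends `v`, `w` (in any order), `r = z0`; the closed sets are everything by `ridges_connected`. Extend the function by `0`. -/
theorem rank (hG : Gn n) (hg : Gen n a0 q) {z0 : E3} (hz0 : ∃ σ ∈ Sd n a0 q, z0 = (en n q σ).1 ∨ z0 = (en n q σ).2) :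
    ∃ rk : E3 → ℕ, ∀ v, (∃ σ ∈ Sd n a0 q, v = (en n q σ).1 ∨ v = (en n q σ).2) → v ≠ z0 →
      ∃ σ ∈ Sd n a0 q, (v = (en n q σ).1 ∧ rk (en n q σ).2 < rk v) ∨ (v = (en n q σ).2 ∧ rk (en n q σ).1 < rk v) := by
  classical
  have hfin : {v : E3 | ∃ σ ∈ Sd n a0 q, v = (en n q σ).1 ∨ v = (en n q σ).2}.Finite := by
    refine ((((Sd n a0 q).image fun σ => (en n q σ).1) ∪ ((Sd n a0 q).image fun σ => (en n q σ).2)).finite_toSet).subset ?_
    rintro v ⟨σ, hσ, h | h⟩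
    · exact Finset.mem_coe.2 (Finset.mem_union_left _ (Finset.mem_image.2 ⟨σ, hσ, h.symm⟩))
    · exact Finset.mem_coe.2 (Finset.mem_union_right _ (Finset.mem_image.2 ⟨σ, hσ, h.symm⟩))
  have hV : Finite {v : E3 // ∃ σ ∈ Sd n a0 q, v = (en n q σ).1 ∨ v = (en n q σ).2} := hfin.to_subtype
  obtain ⟨h, hh⟩ := exists_rank (V := {v : E3 // ∃ σ ∈ Sd n a0 q, v = (en n q σ).1 ∨ v = (en n q σ).2})
    (fun v w => ∃ σ ∈ Sd n a0 q, (v.1 = (en n q σ).1 ∧ w.1 = (en n q σ).2) ∨ (v.1 = (en n q σ).2 ∧ w.1 = (en n q σ).1))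
    (by
      rintro v w ⟨σ, hσ, h⟩
      exact ⟨σ, hσ, h.symm.imp (fun h => ⟨h.2, h.1⟩) (fun h => ⟨h.2, h.1⟩)⟩) ⟨z0, hz0⟩
    (by
      intro S hne hcl
      have hS : ∀ σ ∈ Sd n a0 q, (en n q σ).1 ∈ (Subtype.val '' S : Set E3) ↔ (en n q σ).2 ∈ (Subtype.val '' S : Set E3) := by
        intro σ hσ
        constructor
        · rintro ⟨v, hv, hve⟩
          exact ⟨⟨(en n q σ).2, σ, hσ, Or.inr rfl⟩, hcl v _ hv ⟨σ, hσ, Or.inl ⟨hve, rfl⟩⟩, rfl⟩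
        · rintro ⟨v, hv, hve⟩
          exact ⟨⟨(en n q σ).1, σ, hσ, Or.inl rfl⟩, hcl v _ hv ⟨σ, hσ, Or.inr ⟨hve, rfl⟩⟩, rfl⟩
      obtain ⟨v, hv⟩ := hne
      obtain ⟨σ, hσ, hve⟩ := v.2
      have h0 : (en n q σ).1 ∈ (Subtype.val '' S : Set E3) := by
        rcases hve with hve | hve
        · exact ⟨v, hv, hve⟩
        · exact (hS σ hσ).2 ⟨v, hv, hve⟩
      have hall := ridges_connected hG hg _ hS hσ h0
      ext w
      refine ⟨fun _ => trivial, fun _ => ?_⟩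
      obtain ⟨τ, hτ, hwe⟩ := w.2
      have h1 : w.1 ∈ (Subtype.val '' S : Set E3) := by
        rcases hwe with hwe | hwe
        · rw [hwe]; exact (hall τ hτ).1
        · rw [hwe]; exact (hall τ hτ).2
      obtain ⟨w', hw', hw'e⟩ := h1
      rwa [← Subtype.ext hw'e])
  obtain ⟨rk, hrk⟩ : ∃ rk : E3 → ℕ, ∀ (x : E3) (hx : ∃ σ ∈ Sd n a0 q, x = (en n q σ).1 ∨ x = (en n q σ).2),
      rk x = h ⟨x, hx⟩ :=
    ⟨fun x => if hx : (∃ σ ∈ Sd n a0 q, x = (en n q σ).1 ∨ x = (en n q σ).2) then h ⟨x, hx⟩ else 0,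
      fun x hx => dif_pos hx⟩
  refine ⟨rk, fun v hv hvz => ?_⟩
  obtain ⟨w, ⟨σ, hσ, hE⟩, hlt⟩ := hh ⟨v, hv⟩ (fun h1 => hvz (congrArg Subtype.val h1))
  refine ⟨σ, hσ, ?_⟩
  rw [hrk v hv]
  rcases hE with ⟨h1, h2⟩ | ⟨h1, h2⟩
  · refine Or.inl ⟨h1, ?_⟩
    rw [← h2, hrk w.1 w.2]
    exact hlt
  · refine Or.inr ⟨h1, ?_⟩
    rw [← h2, hrk w.1 w.2]
    exact hlt

end ALX
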