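import Mathlib

/-! # ALX, chunk H3A (M): the triangle inequality of the Fiala argument (pure calculus) -/

open Real

namespace ALX

/-- `x cot x ≤ 1`. PROOF. The derivative of `sin x - x cos x` is `x sin x ≥ 0` on `[0, π]`, its value at `0` is `0`
(`monotoneOn_of_deriv_nonneg`). -/
theorem x_cos_le {x : ℝ} (h0 : 0 ≤ x) (h1 : x ≤ π) : x * cos x ≤ sin x := by
  have hd : ∀ y : ℝ, HasDerivAt (fun y => sin y - y * cos y)
      (cos y - (1 * cos y + y * (-sin y))) y := fun y =>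
    (hasDerivAt_sin y).sub ((hasDerivAt_id y).mul (hasDerivAt_cos y))
  have hm : MonotoneOn (fun y => sin y - y * cos y) (Set.Icc 0 π) := by
    apply monotoneOn_of_deriv_nonneg (convex_Icc 0 π)
    · exact fun y _ => (hd y).continuousAt.continuousWithinAt
    · exact fun y _ => (hd y).differentiableAt.differentiableWithinAt
    · intro y hy
      rw [interior_Icc] at hy
      rw [(hd y).deriv]
      have h2 := sin_nonneg_of_nonneg_of_le_pi hy.1.le hy.2.le
      nlinarith [mul_nonneg hy.1.le h2]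
  have h2 := hm (Set.left_mem_Icc.2 pi_nonneg) ⟨h0, h1⟩ h0
  simp only [sin_zero, zero_mul, sub_zero] at h2
  linarith

theorem h3a_cos {t1 t2 t : ℝ} (h1 : -(π / 2) < t1) (h2 : t2 < π / 2) (ht : t ∈ Set.Icc t1 t2) :
    0 < cos t ∧ min (cos t1) (cos t2) ≤ cos t := by
  refine ⟨cos_pos_of_mem_Ioo ⟨by linarith [ht.1], by linarith [ht.2]⟩, ?_⟩
  have hle : t1 ≤ t2 := ht.1.trans ht.2
  exact strictConcaveOn_cos_Icc.concaveOn.min_le_of_mem_Icc ⟨h1.le, by linarith⟩
    ⟨by linarith, h2.le⟩ ht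

theorem h3a_rho {h t1 t2 R t : ℝ} (hh : 0 < h) (h1 : -(π / 2) < t1) (h2 : t2 < π / 2)
    (hR1 : h / cos t1 ≤ R) (hR2 : h / cos t2 ≤ R) (ht : t ∈ Set.Icc t1 t2) : h / cos t ≤ R := by
  obtain ⟨h3, h4⟩ := h3a_cos h1 h2 ht
  have hle : t1 ≤ t2 := ht.1.trans ht.2
  have c1 := (h3a_cos h1 h2 (Set.left_mem_Icc.2 hle)).1
  have c2 := (h3a_cos h1 h2 (Set.right_mem_Icc.2 hle)).1
  rcases min_le_iff.1 h4 with h5 | h5
  · exact (div_le_div_of_nonneg_left hh.le c1 h5).trans hR1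
  · exact (div_le_div_of_nonneg_left hh.le c2 h5).trans hR2

theorem h3a_tan {t : ℝ} (h1 : -(π / 2) < t) (h2 : t < π / 2) : tan t * (π / 2 - t) ≤ 1 := by
  have h3 := x_cos_le (x := π / 2 - t) (by linarith) (by linarith)
  rw [cos_pi_div_two_sub, sin_pi_div_two_sub] at h3
  have h4 : 0 < cos t := cos_pos_of_mem_Ioo ⟨h1, h2⟩
  rw [tan_eq_sin_div_cos, div_mul_eq_mul_div, div_le_one h4]
  linarith

/-- PROOF. Let `g t = R^2 (t - t1) + (R - h / cos t)^2 (π/2 - t) - (R - h / cos t1)^2 (π/2 - t1) - h^2 (tan t - tan t1)` on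
`[t1, t2]`; `g t1 = 0`. With `ρ = h / cos t`, `ρ' = ρ tan t`, `tan' = 1 / cos^2`:
`g' = R^2 - (R - ρ)^2 - ρ^2 - 2 (R - ρ) ρ tan t (π/2 - t) = 2 ρ (R - ρ) (1 - tan t (π/2 - t))`. Here `ρ > 0`, `ρ ≤ R` on `[t1, t2]`
(`cos t ≥ min (cos t1) (cos t2)` by concavity of `cos` on `[-π/2, π/2]`), and `tan t (π/2 - t) ≤ 1` is `x_cos_le` for `x = π/2 - t` in
`(0, π)` (`tan t = cos x / sin x`, `sin x > 0`). So `g` is monotone. -/
theorem tri_calc {h t1 t2 R : ℝ} (hh : 0 < h) (h1 : -(π / 2) < t1) (h12 : t1 ≤ t2) (h2 : t2 < π / 2)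
    (hR1 : h / cos t1 ≤ R) (hR2 : h / cos t2 ≤ R) :
    h ^ 2 * (tan t2 - tan t1) ≤
      R ^ 2 * (t2 - t1) + (R - h / cos t2) ^ 2 * (π / 2 - t2) - (R - h / cos t1) ^ 2 * (π / 2 - t1) := by
  have hd : ∀ t ∈ Set.Icc t1 t2, HasDerivAt (fun t => R ^ 2 * (t - t1) +
      (R - h / cos t) ^ 2 * (π / 2 - t) - h ^ 2 * tan t)
      (2 * (h / cos t) * (R - h / cos t) * (1 - tan t * (π / 2 - t))) t := by
    intro t ht
    have hc := (h3a_cos h1 h2 ht).1
    have e1 : HasDerivAt (fun t => h / cos t) ((0 * cos t - h * (-sin t)) / cos t ^ 2) t :=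
      (hasDerivAt_const t h).div (hasDerivAt_cos t) hc.ne'
    have e2 : HasDerivAt (fun t => R - h / cos t) (0 - (0 * cos t - h * (-sin t)) / cos t ^ 2) t :=
      (hasDerivAt_const t R).sub e1
    have e3 := (e2.pow 2).mul ((hasDerivAt_const t (π / 2)).sub (hasDerivAt_id t))
    have e4 : HasDerivAt (fun t => R ^ 2 * (t - t1)) (R ^ 2 * (1 - 0)) t :=
      ((hasDerivAt_id t).sub (hasDerivAt_const t t1)).const_mul (R ^ 2)
    have e5 := (e4.add e3).sub ((hasDerivAt_tan hc.ne').const_mul (h ^ 2))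
    refine (e5.congr_deriv ?_)
    rw [tan_eq_sin_div_cos]
    simp only [Pi.sub_apply, Pi.pow_apply, id, Nat.reduceSub, pow_one]
    push_cast
    ring
  have hm : MonotoneOn (fun t => R ^ 2 * (t - t1) +
      (R - h / cos t) ^ 2 * (π / 2 - t) - h ^ 2 * tan t) (Set.Icc t1 t2) := by
    apply monotoneOn_of_deriv_nonneg (convex_Icc t1 t2)
    · exact fun y hy => (hd y hy).continuousAt.continuousWithinAt
    · exact fun y hy => (hd y (interior_subset hy)).differentiableAt.differentiableWithinAt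
    · intro t ht'
      have ht := interior_subset ht'
      rw [(hd t ht).deriv]
      have hc := (h3a_cos h1 h2 ht).1
      have e1 : 0 < h / cos t := div_pos hh hc
      have e2 := h3a_rho hh h1 h2 hR1 hR2 ht
      have e3 := h3a_tan (t := t) (by linarith [ht.1]) (by linarith [ht.2])
      exact mul_nonneg (mul_nonneg (by linarith) (by linarith)) (by linarith)
  have h3 := hm (Set.left_mem_Icc.2 h12) (Set.right_mem_Icc.2 h12) h12
  simp only [sub_self, mul_zero, zero_add] at h3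
  linarith

end ALX
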