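import Pool.Agent.Lib.ALX.H3A

/-! # ALX, chunk H3B (M): the triangle inequality for a triangle in an inner product space -/

open Real InnerProductGeometry

namespace ALX

variable {V : Type*} [NormedAddCommGroup V] [InnerProductSpace ℝ V]

theorem h3b_main {x y : V} {R : ℝ} (hx : x ≠ 0) (hy : y ≠ 0) (h0 : 0 < angle x y)
    (hπ : angle x y < π) (hR1 : ‖x‖ ≤ R) (hR2 : ‖y‖ ≤ R) :
    ‖x‖ * ‖y‖ * sin (angle x y) ≤
      R ^ 2 * angle x y + (R - ‖y‖) ^ 2 * angle y (y - x) -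
        (R - ‖x‖) ^ 2 * (π - angle x (x - y)) := by
  have hsum : angle x y + angle x (x - y) + angle y (y - x) = π :=
    angle_add_angle_sub_add_angle_sub_eq_pi x hy
  have hx0 : 0 < ‖x‖ := norm_pos_iff.2 hx
  have hy0 : 0 < ‖y‖ := norm_pos_iff.2 hy
  have hlaw : ‖x‖ * sin (angle x (x - y)) = ‖y‖ * sin (angle y (y - x)) := by
    have h1 := sin_angle_mul_norm_eq_sin_angle_mul_norm x (x - y)
    rw [sub_sub_cancel] at h1
    have h2 : angle (x - y) y = π - angle y (y - x) := by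
      rw [angle_comm, ← neg_sub y x, angle_neg_right]
    rw [h2, sin_pi_sub] at h1
    linarith
  have ha1 := angle_nonneg x (x - y)
  have ha2 := angle_nonneg y (y - x)
  obtain ⟨a1, e1⟩ : ∃ a, a = angle x (x - y) := ⟨_, rfl⟩
  obtain ⟨a2, e2⟩ : ∃ a, a = angle y (y - x) := ⟨_, rfl⟩
  obtain ⟨f, ef⟩ : ∃ a, a = angle x y := ⟨_, rfl⟩
  rw [← e1] at hsum hlaw ha1 ⊢
  rw [← e2] at hsum hlaw ha2 ⊢
  rw [← ef] at hsum h0 hπ ⊢
  have p1 : 0 < a1 := by
    rcases lt_or_eq_of_le ha1 with h | h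
    · exact h
    · exfalso
      rw [← h, sin_zero, mul_zero] at hlaw
      have h2 : sin a2 = 0 := by
        rcases mul_eq_zero.1 hlaw.symm with h3 | h3
        · exact absurd h3 hy0.ne'
        · exact h3
      have h3 : a2 = π - f := by linarith
      rw [h3, sin_pi_sub] at h2
      exact (sin_pos_of_pos_of_lt_pi h0 hπ).ne' h2
  have p2 : 0 < a2 := by
    rcases lt_or_eq_of_le ha2 with h | h
    · exact h
    · exfalso
      rw [← h, sin_zero, mul_zero] at hlaw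
      have h2 : sin a1 = 0 := by
        rcases mul_eq_zero.1 hlaw with h3 | h3
        · exact absurd h3 hx0.ne'
        · exact h3
      have h3 : a1 = π - f := by linarith
      rw [h3, sin_pi_sub] at h2
      exact (sin_pos_of_pos_of_lt_pi h0 hπ).ne' h2
  have s1 : 0 < sin a1 := sin_pos_of_pos_of_lt_pi p1 (by linarith)
  have s2 : 0 < sin a2 := sin_pos_of_pos_of_lt_pi p2 (by linarith)
  have c1 : cos (a1 - π / 2) = sin a1 := by rw [cos_sub_pi_div_two]
  have c2 : cos (π / 2 - a2) = sin a2 := cos_pi_div_two_sub a2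
  have hh : 0 < ‖x‖ * sin a1 := mul_pos hx0 s1
  have h3 := tri_calc (h := ‖x‖ * sin a1) (t1 := a1 - π / 2) (t2 := π / 2 - a2) (R := R) hh
    (by linarith) (by linarith) (by linarith)
    (by rw [c1, mul_div_cancel_right₀ _ s1.ne']; exact hR1)
    (by rw [c2, hlaw, mul_div_cancel_right₀ _ s2.ne']; exact hR2)
  rw [c1, c2, mul_div_cancel_right₀ _ s1.ne'] at h3
  have e3 : ‖x‖ * sin a1 / sin a2 = ‖y‖ := by rw [hlaw, mul_div_cancel_right₀ _ s2.ne']
  rw [e3] at h3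
  have t1 : tan (a1 - π / 2) = -(cos a1 / sin a1) := by
    rw [tan_eq_sin_div_cos, c1, sin_sub_pi_div_two, neg_div]
  have t2 : tan (π / 2 - a2) = cos a2 / sin a2 := by
    rw [tan_eq_sin_div_cos, c2, sin_pi_div_two_sub]
  have e4 : (‖x‖ * sin a1) ^ 2 * (tan (π / 2 - a2) - tan (a1 - π / 2)) = ‖x‖ * ‖y‖ * sin f := by
    have e5 : sin f = sin a1 * cos a2 + cos a1 * sin a2 := by
      rw [← sin_add, ← sin_pi_sub f]
      congr 1
      linarith
    rw [t1, t2, e5]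
    have e6 : (‖x‖ * sin a1) ^ 2 = (‖x‖ * sin a1) * (‖y‖ * sin a2) := by
      rw [pow_two]
      congr 1
    rw [e6]
    field_simp
    ring
  rw [e4] at h3
  have e7 : π / 2 - a2 - (a1 - π / 2) = f := by linarith
  have e8 : π / 2 - (π / 2 - a2) = a2 := by ring
  have e9 : π / 2 - (a1 - π / 2) = π - a1 := by ring
  rw [e7, e8, e9] at h3
  exact h3

/-- Triangle with apex `p` and base from the tail `z1` to the head `z2`, `φ` the angle at `p`.
PROOF. Let `a1`, `a2` be the angles at `z1`, `z2`; `a1 + a2 + φ = π` (`EuclideanGeometry.angle_add_angle_add_angle_eq_pi`), all positive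
(not collinear: `0 < φ < π`), law of sines (`InnerProductGeometry.sin_angle_mul_norm_eq_sin_angle_mul_norm` or
`EuclideanGeometry.law_sin`): `h := ρ1 sin a1 = ρ2 sin a2 > 0`. Put `t1 = a1 - π/2`, `t2 = π/2 - a2`: `t2 - t1 = φ`, `cos t1 = sin a1`,
`cos t2 = sin a2`, so `h / cos t_i = ρ_i`, `π/2 - t2 = a2`, `π/2 - t1 = π - a1`, and
`h^2 (tan t2 - tan t1) = h^2 (cos a2 / sin a2 + cos a1 / sin a1) = h^2 sin (a1 + a2) / (sin a1 sin a2) = ρ1 ρ2 sin φ`. `tri_calc`. -/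
theorem tri_ineq {p z1 z2 : V} {R : ℝ} (h0 : 0 < angle (z1 - p) (z2 - p)) (hπ : angle (z1 - p) (z2 - p) < π)
    (hR1 : ‖z1 - p‖ ≤ R) (hR2 : ‖z2 - p‖ ≤ R) :
    ‖z1 - p‖ * ‖z2 - p‖ * sin (angle (z1 - p) (z2 - p)) ≤
      R ^ 2 * angle (z1 - p) (z2 - p) + (R - ‖z2 - p‖) ^ 2 * angle (p - z2) (z1 - z2) -
        (R - ‖z1 - p‖) ^ 2 * (π - angle (p - z1) (z2 - z1)) := by
  have hR : 0 ≤ R := (norm_nonneg _).trans hR1
  have e1 : angle (p - z2) (z1 - z2) = angle (z2 - p) ((z2 - p) - (z1 - p)) := by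
    rw [← angle_neg_neg (p - z2) (z1 - z2)]
    congr 1 <;> abel
  have e2 : angle (p - z1) (z2 - z1) = angle (z1 - p) ((z1 - p) - (z2 - p)) := by
    rw [← angle_neg_neg (p - z1) (z2 - z1)]
    congr 1 <;> abel
  rw [e1, e2]
  obtain ⟨x, hx⟩ : ∃ x, x = z1 - p := ⟨_, rfl⟩
  obtain ⟨y, hy⟩ : ∃ y, y = z2 - p := ⟨_, rfl⟩
  rw [← hx] at h0 hπ hR1 ⊢
  rw [← hy] at h0 hπ hR2 ⊢
  by_cases hx0 : x = 0
  · subst hx0
    rw [norm_zero, zero_mul, zero_mul, angle_zero_left, angle_zero_left, sub_zero, sub_zero]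
    have h1 := angle_nonneg y y
    have h2 := mul_nonneg (sq_nonneg (R - ‖y‖)) h1
    have h3 : π - π / 2 = π / 2 := by ring
    rw [h3]
    linarith
  · by_cases hy0 : y = 0
    · subst hy0
      rw [norm_zero, mul_zero, zero_mul, angle_zero_right, angle_zero_left, sub_zero, sub_zero,
        angle_self hx0, sub_zero]
      have h1 : (R - ‖x‖) ^ 2 ≤ R ^ 2 := pow_le_pow_left₀ (sub_nonneg.2 hR1) (by
        have := norm_nonneg x
        linarith) 2
      have h2 := mul_le_mul_of_nonneg_right h1 pi_pos.le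
      linarith
    · exact h3b_main hx0 hy0 h0 hπ hR1 hR2

end ALX
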