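import Mathlib

/-! # ALX, chunk H4A (M): the sum of the triangle inequalities (finite sums of real numbers) -/

open Real Finset

namespace ALX

/-- `S` = the sides, `f` = the other side of the ridge, `tl`, `hd` = tail and head of a side (the same for the two sides of a ridge), `Nd` = the nodes, `Ar` the area, `R` the radius.
PROOF. Sum of `tri` over `S`: `2 Ar ≤ ∑ 2 ar σ ≤ R² · 2 π + ∑ σ ((R - ρ (hd σ))² ang σ (hd σ) + (R - ρ (tl σ))² ang σ (tl σ)) - π ∑ σ (R - ρ (tl σ))²`. The first sum is `≤ ∑ z ∈ Nd, (R - ρ z)² ∑ σ, ang σ z` (for each `σ` the terms `z = hd σ`, `z = tl σ` are different, the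
others are `≥ 0`), so `≤ ∑ z ∈ Nd, (R - ρ z)² (2 π - k z)`. The last one: `∑ σ (R - ρ (tl σ))² = ∑ z ∈ Nd, (R - ρ z)² · #{σ | tl σ = z}` (`Finset.sum_fiberwise_of_maps_to`) and for `z ≠ z0` there are at least two sides with tail `z`
(`σ` and `f σ ≠ σ`), for `z0` the factor is `0`: so it is `≥ 2 ∑ z ∈ Nd, (R - ρ z)²`. Total: `2 Ar ≤ 2 π R² - ∑ z, k z (R - ρ z)²`. -/
theorem fiala_sum {ι N : Type*} [DecidableEq ι] [DecidableEq N] (S : Finset ι) (Nd : Finset N) (f : ι → ι) (tl hd : ι → N)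
    (ar φ : ι → ℝ) (ang : ι → N → ℝ) (ρ k : N → ℝ) (z0 : N) {Ar R : ℝ}
    (hf : ∀ σ ∈ S, f σ ∈ S ∧ f σ ≠ σ ∧ tl (f σ) = tl σ) (hNd : ∀ σ ∈ S, tl σ ∈ Nd ∧ hd σ ∈ Nd) (hne : ∀ σ ∈ S, tl σ ≠ hd σ)
    (hz0 : ρ z0 = R) (htl : ∀ z ∈ Nd, z ≠ z0 → ∃ σ ∈ S, tl σ = z)
    (hang : ∀ σ ∈ S, ∀ z, 0 ≤ ang σ z) (hsum : ∀ z ∈ Nd, ∑ σ ∈ S, ang σ z ≤ 2 * π - k z)
    (hφ : ∑ σ ∈ S, φ σ = 2 * π) (hAr : Ar ≤ ∑ σ ∈ S, ar σ)
    (tri : ∀ σ ∈ S, 2 * ar σ ≤ R ^ 2 * φ σ + (R - ρ (hd σ)) ^ 2 * ang σ (hd σ) - (R - ρ (tl σ)) ^ 2 * (π - ang σ (tl σ))) :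
    Ar ≤ π * R ^ 2 - 1 / 2 * ∑ z ∈ Nd, k z * (R - ρ z) ^ 2 := by
  have hA : ∑ σ ∈ S, ((R - ρ (tl σ)) ^ 2 * ang σ (tl σ) + (R - ρ (hd σ)) ^ 2 * ang σ (hd σ)) ≤
      ∑ z ∈ Nd, (R - ρ z) ^ 2 * (2 * π - k z) := by
    have h1 : ∀ σ ∈ S, (R - ρ (tl σ)) ^ 2 * ang σ (tl σ) + (R - ρ (hd σ)) ^ 2 * ang σ (hd σ) ≤
        ∑ z ∈ Nd, (R - ρ z) ^ 2 * ang σ z := by
      intro σ hσ
      rw [← Finset.sum_pair (f := fun z => (R - ρ z) ^ 2 * ang σ z) (hne σ hσ)]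
      refine Finset.sum_le_sum_of_subset_of_nonneg ?_ fun z _ _ => mul_nonneg (sq_nonneg _) (hang σ hσ z)
      intro z hz
      rw [Finset.mem_insert, Finset.mem_singleton] at hz
      rcases hz with rfl | rfl
      · exact (hNd σ hσ).1
      · exact (hNd σ hσ).2
    refine (Finset.sum_le_sum h1).trans ?_
    rw [Finset.sum_comm]
    refine Finset.sum_le_sum fun z hz => ?_
    rw [← Finset.mul_sum]
    exact mul_le_mul_of_nonneg_left (hsum z hz) (sq_nonneg _)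
  have hB : 2 * ∑ z ∈ Nd, (R - ρ z) ^ 2 ≤ ∑ σ ∈ S, (R - ρ (tl σ)) ^ 2 := by
    rw [← Finset.sum_fiberwise_of_maps_to (g := tl) (t := Nd) (fun σ hσ => (hNd σ hσ).1), Finset.mul_sum]
    refine Finset.sum_le_sum fun z hz => ?_
    have h1 : ∑ σ ∈ S with tl σ = z, (R - ρ (tl σ)) ^ 2 = ((S.filter fun σ => tl σ = z).card : ℝ) * (R - ρ z) ^ 2 := by
      rw [← nsmul_eq_mul, ← Finset.sum_const]
      refine Finset.sum_congr rfl fun σ hσ => ?_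
      rw [(Finset.mem_filter.1 hσ).2]
    rw [h1]
    by_cases hz1 : z = z0
    · rw [hz1, hz0, sub_self]
      simp
    · obtain ⟨σ, hσ, hσz⟩ := htl z hz hz1
      have h2 : 1 < (S.filter fun σ => tl σ = z).card := by
        rw [Finset.one_lt_card]
        refine ⟨σ, Finset.mem_filter.2 ⟨hσ, hσz⟩, f σ, Finset.mem_filter.2 ⟨(hf σ hσ).1, (hf σ hσ).2.2.trans hσz⟩,
          (hf σ hσ).2.1.symm⟩
      have h3 : (2 : ℝ) ≤ ((S.filter fun σ => tl σ = z).card : ℝ) := by exact_mod_cast h2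
      exact mul_le_mul_of_nonneg_right h3 (sq_nonneg _)
  have hT := Finset.sum_le_sum tri
  have e1 : ∑ σ ∈ S, (R ^ 2 * φ σ + (R - ρ (hd σ)) ^ 2 * ang σ (hd σ) - (R - ρ (tl σ)) ^ 2 * (π - ang σ (tl σ))) =
      R ^ 2 * ∑ σ ∈ S, φ σ + ∑ σ ∈ S, ((R - ρ (tl σ)) ^ 2 * ang σ (tl σ) + (R - ρ (hd σ)) ^ 2 * ang σ (hd σ)) -
        π * ∑ σ ∈ S, (R - ρ (tl σ)) ^ 2 := by
    rw [Finset.mul_sum, Finset.mul_sum, ← Finset.sum_add_distrib, ← Finset.sum_sub_distrib]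
    exact Finset.sum_congr rfl fun σ _ => by ring
  rw [e1, hφ, ← Finset.mul_sum] at hT
  have e2 : ∑ z ∈ Nd, (R - ρ z) ^ 2 * (2 * π - k z) = 2 * π * ∑ z ∈ Nd, (R - ρ z) ^ 2 - ∑ z ∈ Nd, k z * (R - ρ z) ^ 2 := by
    rw [Finset.mul_sum, ← Finset.sum_sub_distrib]
    exact Finset.sum_congr rfl fun z _ => by ring
  rw [e2] at hA
  have hB' := mul_le_mul_of_nonneg_left hB Real.pi_pos.le
  linarith

end ALX
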