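import Pool.Agent.Lib.ALX.H1
import Pool.Agent.Lib.ALX.H4A
import Pool.Agent.Lib.ALX.H3B
import Pool.Agent.Lib.ALX.D8B3
import Pool.Agent.Lib.ALX.D9C
import Pool.Agent.Lib.ALX.F5

/-! # ALX, chunk H4B (M): the inequality of Fiala for generic points -/

open Real MeasureTheory

namespace ALX

open H47A (E3 cross3 det3 pl)

variable {A : Type} [Fintype A] [DecidableEq A] {n : A → E3} {a0 : A} {q : E3}

theorem h4b_ends {σ : A × (E3 ≃ᵃⁱ[ℝ] E3) × (E3 ≃ᵃⁱ[ℝ] E3)} (hσ : IsSd n a0 q σ) :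
    (en n q σ).1 ≠ (en n q σ).2 ∧ (en n q σ).1 ∈ RR n q σ ∧ (en n q σ).2 ∈ RR n q σ := by
  obtain ⟨h1, h2⟩ := en_spec hσ
  refine ⟨h1, ?_, ?_⟩
  · rw [h2]
    exact left_mem_segment ℝ _ _
  · rw [h2]
    exact right_mem_segment ℝ _ _

omit [Fintype A] [DecidableEq A] in
theorem h4b_fc {a : A} {x : E3} (hx : x ∈ Fc n a) : x ∈ bd n := ⟨hx.1, a, hx.2⟩

omit [Fintype A] [DecidableEq A] in
theorem h4b_ang1 (σ : A × (E3 ≃ᵃⁱ[ℝ] E3) × (E3 ≃ᵃⁱ[ℝ] E3)) :
    angAt n q σ (en n q σ).1 =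
      InnerProductGeometry.angle (σ.2.1.symm q - (en n q σ).1) ((en n q σ).2 - (en n q σ).1) := by
  unfold angAt
  rw [if_pos rfl]

omit [Fintype A] [DecidableEq A] in
theorem h4b_ang2 {σ : A × (E3 ≃ᵃⁱ[ℝ] E3) × (E3 ≃ᵃⁱ[ℝ] E3)} (h : (en n q σ).1 ≠ (en n q σ).2) :
    angAt n q σ (en n q σ).2 =
      InnerProductGeometry.angle (σ.2.1.symm q - (en n q σ).2) ((en n q σ).1 - (en n q σ).2) := by
  unfold angAt
  rw [if_neg h.symm, if_pos rfl]

omit [Fintype A] [DecidableEq A] in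
theorem h4b_ang0 (σ : A × (E3 ≃ᵃⁱ[ℝ] E3) × (E3 ≃ᵃⁱ[ℝ] E3)) (z : E3) : 0 ≤ angAt n q σ z := by
  unfold angAt
  split_ifs
  · exact InnerProductGeometry.angle_nonneg _ _
  · exact InnerProductGeometry.angle_nonneg _ _
  · exact le_refl 0

/-- The triangle inequality for a side, with the ends in any order.
PROOF. `tri_ineq` with `p = σ.2.1.symm q` (`phi_pos`; `ridge_pt`: `‖z_i - p‖ = dl n q z_i ≤ R`), the definition of `angAt` (the angles are `angle (p - z) (z' - z)`); for the order `(en σ).2`, `(en σ).1` use the symmetry of `angle`. -/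
theorem side_ineq (hG : Gn n) (hg : Gen n a0 q) {R : ℝ} (hR : ∀ x ∈ bd n, dl n q x ≤ R)
    {σ : A × (E3 ≃ᵃⁱ[ℝ] E3) × (E3 ≃ᵃⁱ[ℝ] E3)} (hσ : IsSd n a0 q σ) {z1 z2 : E3}
    (hz : (z1 = (en n q σ).1 ∧ z2 = (en n q σ).2) ∨ (z1 = (en n q σ).2 ∧ z2 = (en n q σ).1)) :
    ‖(en n q σ).1 - σ.2.1.symm q‖ * ‖(en n q σ).2 - σ.2.1.symm q‖ * sin (phi n q σ) ≤
      R ^ 2 * phi n q σ + (R - dl n q z2) ^ 2 * angAt n q σ z2 - (R - dl n q z1) ^ 2 * (π - angAt n q σ z1) := by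
  obtain ⟨hne, m1, m2⟩ := h4b_ends hσ
  obtain ⟨p1, p2⟩ := phi_pos hG hg hσ
  obtain ⟨f1, -, -, -, d1, -⟩ := ridge_pt hG hg hσ m1
  obtain ⟨f2, -, -, -, d2, -⟩ := ridge_pt hG hg hσ m2
  have r1 : ‖(en n q σ).1 - σ.2.1.symm q‖ ≤ R := by
    rw [d1]
    exact hR _ (h4b_fc f1)
  have r2 : ‖(en n q σ).2 - σ.2.1.symm q‖ ≤ R := by
    rw [d2]
    exact hR _ (h4b_fc f2)
  rcases hz with ⟨h1, h2⟩ | ⟨h1, h2⟩
  · rw [h1, h2]
    have h3 := tri_ineq (p := σ.2.1.symm q) (z1 := (en n q σ).1) (z2 := (en n q σ).2) (R := R)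
      p1 p2 r1 r2
    rw [← h4b_ang1, ← h4b_ang2 hne] at h3
    change _ ≤ R ^ 2 * phi n q σ + _ - _ at h3
    change _ * _ * sin (phi n q σ) ≤ _ at h3
    rw [← d1, ← d2]
    exact h3
  · rw [h1, h2]
    have e3 : phi n q σ =
        InnerProductGeometry.angle ((en n q σ).2 - σ.2.1.symm q) ((en n q σ).1 - σ.2.1.symm q) := by
      rw [InnerProductGeometry.angle_comm]
      rfl
    have h3 := tri_ineq (p := σ.2.1.symm q) (z1 := (en n q σ).2) (z2 := (en n q σ).1) (R := R)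
      (by rw [← e3]; exact p1) (by rw [← e3]; exact p2) r2 r1
    rw [← h4b_ang1, ← h4b_ang2 hne, ← e3] at h3
    rw [← d1, ← d2, mul_comm ‖(en n q σ).1 - σ.2.1.symm q‖]
    exact h3

theorem h4b_kp {v : E3} (hG : Gn n) (h : v ∉ Vx n) : kp n v = 0 := by
  unfold kp
  rw [dif_neg]
  rintro ⟨t, h1, h2, h3, h4, h5⟩
  apply h
  rw [capi_Vx hG]
  refine ⟨h4, ?_⟩
  rw [h5]
  rw [Finset.card_eq_three.2 ⟨t.1, t.2.1, t.2.2, h1, h3, h2, rfl⟩]

/-- **The inequality of Fiala** for generic `q`.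
PROOF. `fiala_sum` with `S = Sd`, `f = flp` (`flp_sd`, `flp_en`, `mem_Sd`), `Nd` = the finite set of the ends, `z0` = a point of `bd n` with `dl n q z0 = R` (`hR'`; `z0 ≠ q` because `R > 0`: `R ≥ dl n q x > 0` for an end `x` of a ridge; it is a node: `far_end`), `rank`: `tl σ` = the end with the larger rank
(the first one if the ranks are equal), `hd σ` = the other one; `htl` by `rank`. `ar σ = ‖e1 - p‖ ‖e2 - p‖ sin phi / 2` (`area_le`, `capi_area`), `φ = phi` (`sum_phi`), `ang = angAt`, `ρ = dl n q`, `k = kp n` (`node_ineq`; the nodes are not `q`: `ridge_pt`), `tri` = `side_ineq`.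
The sum over the nodes is the sum over `Vx`: the vertices are nodes (`vertex_end`, `capi_Vx`) and `kp n z = 0` for the other points (definition of `kp`: no triple, because the triple gives `3 ≤ card`). -/
theorem fiala (hG : Gn n) (hg : Gen n a0 q) {R : ℝ} (hR : ∀ x ∈ bd n, dl n q x ≤ R) (hR' : ∃ x ∈ bd n, dl n q x = R) :
    (ar n Set.univ).toReal ≤ π * R ^ 2 - 1 / 2 * ∑ v ∈ Vx n, kp n v * (R - dl n q v) ^ 2 := by
  classical
  have hmem : ∀ σ, σ ∈ Sd n a0 q → IsSd n a0 q σ := fun σ h => (mem_Sd hG hg.loc σ).1 h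
  obtain ⟨z0, hz0, hz0R⟩ := hR'
  have hne : (Sd n a0 q).Nonempty := by
    by_contra h
    rw [Finset.not_nonempty_iff_eq_empty] at h
    have h1 := sum_phi hG hg
    rw [h, Finset.sum_empty] at h1
    have := pi_pos
    linarith
  obtain ⟨σ0, hσ0⟩ := hne
  have hRpos : 0 < R := by
    obtain ⟨-, m1, -⟩ := h4b_ends (hmem σ0 hσ0)
    obtain ⟨f1, -, g1, -, -, -⟩ := ridge_pt hG hg (hmem σ0 hσ0) m1
    exact g1.trans_le (hR _ (h4b_fc f1))
  have hz0q : z0 ≠ q := by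
    intro h
    rw [h] at hz0R
    have hq : q ∈ bd n := by
      refine ⟨hg.loc.1, a0, ?_⟩
      have h2 : a0 ∈ Ac n q := by
        rw [hg.loc.2]
        exact Finset.mem_singleton_self a0
      exact (Finset.mem_filter.1 h2).2
    have h1 : dl n q q = 0 := (capi_zero hG hq hq).2 rfl
    linarith
  obtain ⟨σ1, hσ1, hσ1z⟩ := far_end hG hg hz0 hz0q (fun x hx => by rw [hz0R]; exact hR x hx)
  obtain ⟨rk, hrk⟩ := rank hG hg ⟨σ1, hσ1, hσ1z⟩
  have key := fiala_sum (Sd n a0 q)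
    ((Sd n a0 q).image (fun σ => (en n q σ).1) ∪ (Sd n a0 q).image (fun σ => (en n q σ).2)) flp
    (fun σ => if rk (en n q σ).1 < rk (en n q σ).2 then (en n q σ).2 else (en n q σ).1)
    (fun σ => if rk (en n q σ).1 < rk (en n q σ).2 then (en n q σ).1 else (en n q σ).2)
    (fun σ => ‖(en n q σ).1 - σ.2.1.symm q‖ * ‖(en n q σ).2 - σ.2.1.symm q‖ * sin (phi n q σ) / 2)
    (fun σ => phi n q σ) (fun σ z => angAt n q σ z) (fun z => dl n q z) (fun z => kp n z) z0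
    (Ar := (ar n Set.univ).toReal) (R := R) ?_ ?_ ?_ hz0R ?_ ?_ ?_ (sum_phi hG hg) ?_ ?_
  · have e : ∑ v ∈ Vx n, kp n v * (R - dl n q v) ^ 2 =
        ∑ z ∈ (Sd n a0 q).image (fun σ => (en n q σ).1) ∪ (Sd n a0 q).image (fun σ => (en n q σ).2),
          kp n z * (R - dl n q z) ^ 2 := by
      apply Finset.sum_subset
      · intro v hv
        obtain ⟨h1, h2⟩ := (capi_Vx hG v).1 hv
        obtain ⟨σ, hσ, h3⟩ := vertex_end hG hg h1 h2
        rw [Finset.mem_union, Finset.mem_image, Finset.mem_image]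
        rcases h3 with h3 | h3
        · exact Or.inl ⟨σ, hσ, h3.symm⟩
        · exact Or.inr ⟨σ, hσ, h3.symm⟩
      · intro x _ hx
        rw [h4b_kp hG hx, zero_mul]
    rw [e]
    exact key
  · intro σ hσ
    obtain ⟨h1, h2⟩ := flp_sd (hmem σ hσ)
    refine ⟨(mem_Sd hG hg.loc _).2 h1, h2, ?_⟩
    rw [(flp_en (n := n) (q := q) σ).2]
  · intro σ hσ
    have m1 : (en n q σ).1 ∈ (Sd n a0 q).image (fun σ => (en n q σ).1) ∪
        (Sd n a0 q).image (fun σ => (en n q σ).2) :=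
      Finset.mem_union_left _ (Finset.mem_image.2 ⟨σ, hσ, rfl⟩)
    have m2 : (en n q σ).2 ∈ (Sd n a0 q).image (fun σ => (en n q σ).1) ∪
        (Sd n a0 q).image (fun σ => (en n q σ).2) :=
      Finset.mem_union_right _ (Finset.mem_image.2 ⟨σ, hσ, rfl⟩)
    constructor
    · split_ifs
      · exact m2
      · exact m1
    · split_ifs
      · exact m1
      · exact m2
  · intro σ hσ
    obtain ⟨h1, -, -⟩ := h4b_ends (hmem σ hσ)
    split_ifs
    · exact h1.symm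
    · exact h1
  · intro z hz hz0'
    have h1 : ∃ σ ∈ Sd n a0 q, z = (en n q σ).1 ∨ z = (en n q σ).2 := by
      rw [Finset.mem_union, Finset.mem_image, Finset.mem_image] at hz
      rcases hz with ⟨σ, hσ, h⟩ | ⟨σ, hσ, h⟩
      · exact ⟨σ, hσ, Or.inl h.symm⟩
      · exact ⟨σ, hσ, Or.inr h.symm⟩
    obtain ⟨σ, hσ, h⟩ := hrk z h1 hz0'
    refine ⟨σ, hσ, ?_⟩
    rcases h with ⟨h2, h3⟩ | ⟨h2, h3⟩
    · rw [if_neg, h2]
      rw [← h2]
      omega
    · rw [if_pos, h2]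
      rw [← h2]
      exact h3
  · intro σ _ z
    exact h4b_ang0 σ z
  · intro z hz
    rw [Finset.mem_union, Finset.mem_image, Finset.mem_image] at hz
    rcases hz with ⟨σ, hσ, h⟩ | ⟨σ, hσ, h⟩
    · obtain ⟨-, m1, m2⟩ := h4b_ends (hmem σ hσ)
      obtain ⟨f1, g1, -, -, -, -⟩ := ridge_pt hG hg (hmem σ hσ) m1
      rw [← h]
      exact node_ineq hG hg (h4b_fc f1) g1
    · obtain ⟨-, m1, m2⟩ := h4b_ends (hmem σ hσ)
      obtain ⟨f1, g1, -, -, -, -⟩ := ridge_pt hG hg (hmem σ hσ) m2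
      rw [← h]
      exact node_ineq hG hg (h4b_fc f1) g1
  · apply ENNReal.toReal_le_of_le_ofReal _ (area_le hG hg)
    apply Finset.sum_nonneg
    intro σ hσ
    obtain ⟨p1, p2⟩ := phi_pos hG hg (hmem σ hσ)
    have := (sin_pos_of_pos_of_lt_pi p1 p2).le
    positivity
  · intro σ hσ
    have h1 := fun z1 z2 hz => side_ineq hG hg hR (hmem σ hσ) (z1 := z1) (z2 := z2) hz
    rw [mul_div_cancel₀ _ (two_ne_zero' ℝ)]
    split_ifs
    · exact h1 _ _ (Or.inr ⟨rfl, rfl⟩)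
    · exact h1 _ _ (Or.inl ⟨rfl, rfl⟩)

end ALX
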