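import Pool.Agent.Lib.ALX.JDefs

/-! # ALX, chunk J1A (M): the normal cone of a vertex

Port of `H47A.nc_vertex` (Lib/H47A/EKap3.lean) from symmetric polytopes to `Pt n`. `D = det3 (n a) (n b) (n c) ≠ 0` (`Gn.three`). `y = x1 n a + x2 n b + x3 n c` with `x1 D = ⟪y, n b × n c⟫`, `x2 D = ⟪y, n c × n a⟫`, `x3 D = ⟪y, n a × n b⟫` (`H47A.comb3`). Claim: `y ∈ NCp`
iff `x1, x2, x3 ≥ 0`, and `x1 D² = ⟪y, n b × n c⟫ D`. If: `⟪n a, x⟫ ≤ 1 = ⟪n a, v⟫` for `x ∈ Pt n`. Only if: `E` with `⟪n a, E⟫ = -1`, `⟪n b, E⟫ = ⟪n c, E⟫ = 0` (`E = - D⁻¹ (n b × n c)`); for small `r > 0` the point `v + r E` is in `Pt n` (the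
other facets have `lf < 1` at `v`: `near_lt`); `⟪y, r E⟫ = - r x1 ≤ 0`. -/

open Real MeasureTheory Filter Topology

namespace ALX

open H47A (E3 cross3 det3 pl)

variable {A : Type} [Fintype A] [DecidableEq A] {n : A → E3}

/-- a point of the normal cone is nonpositive on the directions of the tangent cone -/
theorem j1a_dir {v : E3} (hv : v ∈ Pt n) {y E : E3} (hy : y ∈ NCp n v)
    (hE : ∀ α, lf n α v = 1 → lf n α E ≤ 0) : (inner ℝ y E : ℝ) ≤ 0 := by
  have h1 : ∀ α : A, ∀ᶠ r in 𝓝[>] (0 : ℝ), lf n α (v + r • E) ≤ 1 := by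
    intro α
    by_cases hα : lf n α v = 1
    · filter_upwards [self_mem_nhdsWithin] with r hr
      rw [lf_add, lf_smul, hα]
      have := mul_nonpos_of_nonneg_of_nonpos (le_of_lt (show (0 : ℝ) < r from hr)) (hE α hα)
      linarith
    · have h2 : lf n α v < 1 := lt_of_le_of_ne (hv α) hα
      have h3 : Tendsto (fun r : ℝ => lf n α (v + r • E)) (𝓝[>] (0 : ℝ)) (𝓝 (lf n α v)) := by
        have h4 : Continuous fun r : ℝ => lf n α (v + r • E) :=
          (lf_cont α).comp (continuous_const.add (continuous_id.smul continuous_const))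
        have h5 := h4.tendsto 0
        simp only [zero_smul, add_zero] at h5
        exact h5.mono_left nhdsWithin_le_nhds
      filter_upwards [h3.eventually (gt_mem_nhds h2)] with r hr
      exact hr.le
  have h2 : ∀ᶠ r in 𝓝[>] (0 : ℝ), ∀ α : A, lf n α (v + r • E) ≤ 1 := eventually_all.2 h1
  obtain ⟨r, hr, hr0⟩ := (h2.and self_mem_nhdsWithin).exists
  have hr0' : (0 : ℝ) < r := hr0
  have h3 := hy (v + r • E) hr
  rw [inner_add_right, inner_smul_right] at h3
  have h4 : r * (inner ℝ y E : ℝ) ≤ 0 := by linarith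
  by_contra h5
  push Not at h5
  have := mul_pos hr0' h5
  linarith

theorem j1a_det1 (u v w : E3) : inner ℝ u (cross3 v w) = det3 u v w := by
  rw [H47A.det3_rot, det3]
  exact real_inner_comm _ _

theorem ncp_vertex (hG : Gn n) {a b c : A} (hab : a ≠ b) (hbc : b ≠ c) (hac : a ≠ c) {v : E3} (hv : At n v {a, b, c}) (y : E3) :
    y ∈ NCp n v ↔ (0 ≤ inner ℝ y (cross3 (n b) (n c)) * det3 (n a) (n b) (n c) ∧
      0 ≤ inner ℝ y (cross3 (n c) (n a)) * det3 (n a) (n b) (n c) ∧
      0 ≤ inner ℝ y (cross3 (n a) (n b)) * det3 (n a) (n b) (n c)) := by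
  have hD := hG.three a b c hab hbc hac
  have hact := (At.iff.1 hv).2
  have h1 : inner ℝ (n a) v = (1 : ℝ) := (hact a).1 (by simp)
  have h2 : inner ℝ (n b) v = (1 : ℝ) := (hact b).1 (by simp)
  have h3 : inner ℝ (n c) v = (1 : ℝ) := (hact c).1 (by simp)
  obtain ⟨D, hDD⟩ : ∃ D, D = det3 (n a) (n b) (n c) := ⟨_, rfl⟩
  rw [← hDD] at hD ⊢
  have hDD2 : 0 < D ^ 2 := by positivity
  have e1 : inner ℝ (n a) (cross3 (n b) (n c)) = D := by rw [j1a_det1, hDD]
  have e2 : inner ℝ (n b) (cross3 (n c) (n a)) = D := by rw [j1a_det1, ← H47A.det3_rot, hDD]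
  have e3 : inner ℝ (n c) (cross3 (n a) (n b)) = D := by rw [j1a_det1, H47A.det3_rot, hDD]
  have z12 : inner ℝ (n b) (cross3 (n b) (n c)) = (0 : ℝ) := by
    rw [real_inner_comm]; exact H47A.cross3_self_left _ _
  have z13 : inner ℝ (n c) (cross3 (n b) (n c)) = (0 : ℝ) := by
    rw [real_inner_comm]; exact H47A.cross3_self_right _ _
  have z21 : inner ℝ (n a) (cross3 (n c) (n a)) = (0 : ℝ) := by
    rw [real_inner_comm]; exact H47A.cross3_self_right _ _
  have z23 : inner ℝ (n c) (cross3 (n c) (n a)) = (0 : ℝ) := by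
    rw [real_inner_comm]; exact H47A.cross3_self_left _ _
  have z31 : inner ℝ (n a) (cross3 (n a) (n b)) = (0 : ℝ) := by
    rw [real_inner_comm]; exact H47A.cross3_self_left _ _
  have z32 : inner ℝ (n b) (cross3 (n a) (n b)) = (0 : ℝ) := by
    rw [real_inner_comm]; exact H47A.cross3_self_right _ _
  constructor
  · intro hy
    have key : ∀ W : E3, (inner ℝ (n a) W : ℝ) * D ≥ 0 → (inner ℝ (n b) W : ℝ) * D ≥ 0 →
        (inner ℝ (n c) W : ℝ) * D ≥ 0 → 0 ≤ (inner ℝ y W : ℝ) * D := by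
      intro W k1 k2 k3
      have h4 := j1a_dir hv.1 hy (E := (-D) • W) (by
        intro α hα
        rw [lf_smul]
        show -D * (inner ℝ (n α) W : ℝ) ≤ 0
        have hα' := (hact α).2 hα
        simp only [Finset.mem_insert, Finset.mem_singleton] at hα'
        rcases hα' with h | h | h
        · rw [h]; linarith
        · rw [h]; linarith
        · rw [h]; linarith)
      rw [inner_smul_right] at h4
      linarith
    refine ⟨key _ ?_ ?_ ?_, key _ ?_ ?_ ?_, key _ ?_ ?_ ?_⟩
    · rw [e1]; nlinarith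
    · rw [z12]; simp
    · rw [z13]; simp
    · rw [z21]; simp
    · rw [e2]; nlinarith
    · rw [z23]; simp
    · rw [z31]; simp
    · rw [z32]; simp
    · rw [e3]; nlinarith
  · rintro ⟨k1, k2, k3⟩
    obtain ⟨x1, x2, x3, hy⟩ := H47A.comb3 (hDD ▸ hD : det3 (n a) (n b) (n c) ≠ 0) y
    have hx1 : 0 ≤ x1 := by
      rw [hy, inner_add_left, inner_add_left, inner_smul_left, inner_smul_left, inner_smul_left, e1, z12, z13] at k1
      simp only [conj_trivial, mul_zero, add_zero] at k1
      by_contra h; push Not at h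
      nlinarith
    have hx2 : 0 ≤ x2 := by
      rw [hy, inner_add_left, inner_add_left, inner_smul_left, inner_smul_left, inner_smul_left, e2, z21, z23] at k2
      simp only [conj_trivial, mul_zero, add_zero, zero_add] at k2
      by_contra h; push Not at h
      nlinarith
    have hx3 : 0 ≤ x3 := by
      rw [hy, inner_add_left, inner_add_left, inner_smul_left, inner_smul_left, inner_smul_left, e3, z31, z32] at k3
      simp only [conj_trivial, mul_zero, add_zero, zero_add] at k3
      by_contra h; push Not at h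
      nlinarith
    intro x hx
    have l1 : (inner ℝ (n a) x : ℝ) ≤ 1 := hx a
    have l2 : (inner ℝ (n b) x : ℝ) ≤ 1 := hx b
    have l3 : (inner ℝ (n c) x : ℝ) ≤ 1 := hx c
    rw [hy, inner_add_left, inner_add_left, inner_add_left, inner_add_left, inner_smul_left, inner_smul_left,
      inner_smul_left, inner_smul_left, inner_smul_left, inner_smul_left, h1, h2, h3]
    simp only [conj_trivial]
    have m1 := mul_le_mul_of_nonneg_left l1 hx1
    have m2 := mul_le_mul_of_nonneg_left l2 hx2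
    have m3 := mul_le_mul_of_nonneg_left l3 hx3
    linarith

end ALX
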