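import Pool.Agent.Lib.ALX.J1A

/-! # ALX, chunk J1B (M): the curvature is the measure of the normal cone

Port of `H47A.kap_vertex` (Lib/H47A/EKap3.lean). `X = cross3 (n b) (n c)`, `Y = cross3 (n c) (n a)`, `Z = cross3 (n a) (n b)` (nonzero: `Gn.cross`). If `D = det3 (n a) (n b) (n c) > 0` then `NCp n v = Hs X ∩ Hs Y ∩ Hs Z`, if `D < 0` the same with `-X, -Y, -Z` (the angles are the same).
`H47A.girard` gives `mB (NCp n v) / mB univ = (2 π - (angle X Y + angle Y Z + angle Z X)) / (4 π)` (`H47A.mB_univ_pos`). `kp_eq`: `kp n v = 2 π - vang a b c - vang b a c - vang c a b`; `ed n a b c = - D • Z`, `ed n a c b = - det3 (n a) (n c) (n b) • cross3 (n a) (n c) = - D • Y` (two signs), so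
`vang n a b c = angle Z Y`; `ed n b a c = - det3 (n b) (n a) (n c) • cross3 (n b) (n a) = - D • Z`, `ed n b c a = - det3 (n b) (n c) (n a) • X = - D • X`: `vang n b a c = angle Z X`; `vang n c a b = angle Y X` in the same way (`angle_smul_smul` or `angle_neg_neg`, positive multiples). -/

open Real MeasureTheory Filter Topology

namespace ALX

open H47A (E3 cross3 det3 pl)

variable {A : Type} [Fintype A] [DecidableEq A] {n : A → E3}

theorem ncp_kp (hG : Gn n) {a b c : A} (hab : a ≠ b) (hbc : b ≠ c) (hac : a ≠ c) {v : E3} (hv : At n v {a, b, c}) :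
    kp n v = 4 * π * (H47A.mB (NCp n v) / H47A.mB Set.univ) := by
  have hD := hG.three a b c hab hbc hac
  have hX : cross3 (n a) (n b) ≠ 0 := hG.cross hab
  have hY : cross3 (n b) (n c) ≠ 0 := hG.cross hbc
  have hZ : cross3 (n c) (n a) ≠ 0 := hG.cross hac.symm
  have hm0 := H47A.mB_univ_pos
  have hpi := Real.pi_pos
  have hDn : -det3 (n a) (n b) (n c) ≠ 0 := neg_ne_zero.2 hD
  have hcb : cross3 (n c) (n b) = -cross3 (n b) (n c) := H47A.cross3_swap _ _
  have hac' : cross3 (n a) (n c) = -cross3 (n c) (n a) := H47A.cross3_swap _ _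
  have hba : cross3 (n b) (n a) = -cross3 (n a) (n b) := H47A.cross3_swap _ _
  have d1 : det3 (n b) (n c) (n a) = det3 (n a) (n b) (n c) := (H47A.det3_rot _ _ _).symm
  have d2 : det3 (n c) (n a) (n b) = det3 (n a) (n b) (n c) := H47A.det3_rot _ _ _
  have d3 : det3 (n b) (n a) (n c) = -det3 (n a) (n b) (n c) := H47A.det3_swap _ _ _
  have d4 : det3 (n a) (n c) (n b) = -det3 (n a) (n b) (n c) := by
    rw [H47A.det3_swap, d2]
  have d5 : det3 (n c) (n b) (n a) = -det3 (n a) (n b) (n c) := by
    rw [H47A.det3_swap, d1]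
  have v1 : vang n a b c = InnerProductGeometry.angle (cross3 (n a) (n b)) (cross3 (n c) (n a)) := by
    unfold vang ed
    rw [d4, hac', smul_neg, neg_neg, ← neg_smul]
    exact InnerProductGeometry.angle_smul_smul hDn _ _
  have v2 : vang n b a c = InnerProductGeometry.angle (cross3 (n a) (n b)) (cross3 (n b) (n c)) := by
    unfold vang ed
    rw [d3, d1, hba, smul_neg, neg_neg, ← neg_smul]
    exact InnerProductGeometry.angle_smul_smul hDn _ _
  have v3 : vang n c a b = InnerProductGeometry.angle (cross3 (n c) (n a)) (cross3 (n b) (n c)) := by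
    unfold vang ed
    rw [d2, d5, hcb, smul_neg, neg_neg, ← neg_smul]
    exact InnerProductGeometry.angle_smul_smul hDn _ _
  have key : H47A.mB (NCp n v) = (2 * π - (InnerProductGeometry.angle (cross3 (n a) (n b)) (cross3 (n b) (n c)) +
      InnerProductGeometry.angle (cross3 (n b) (n c)) (cross3 (n c) (n a)) +
      InnerProductGeometry.angle (cross3 (n c) (n a)) (cross3 (n a) (n b)))) / (4 * π) * H47A.mB Set.univ := by
    rcases lt_or_gt_of_ne hD with h | h
    · have e : NCp n v = H47A.Hs (-cross3 (n a) (n b)) ∩ H47A.Hs (-cross3 (n b) (n c)) ∩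
          H47A.Hs (-cross3 (n c) (n a)) := by
        ext y
        rw [ncp_vertex hG hab hbc hac hv y]
        have hc : ∀ t : ℝ, 0 ≤ t * det3 (n a) (n b) (n c) ↔ t ≤ 0 := by
          intro t
          constructor
          · intro ht
            by_contra h'
            push Not at h'
            nlinarith [mul_neg_of_pos_of_neg h' h]
          · intro ht
            nlinarith [mul_nonneg_of_nonpos_of_nonpos ht h.le]
        rw [hc, hc, hc]
        simp only [Set.mem_inter_iff]
        show _ ↔ ((0 ≤ (inner ℝ y (-cross3 (n a) (n b)) : ℝ)) ∧ (0 ≤ (inner ℝ y (-cross3 (n b) (n c)) : ℝ))) ∧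
          (0 ≤ (inner ℝ y (-cross3 (n c) (n a)) : ℝ))
        rw [inner_neg_right, inner_neg_right, inner_neg_right]
        constructor
        · rintro ⟨a, b, c⟩
          exact ⟨⟨by linarith, by linarith⟩, by linarith⟩
        · rintro ⟨⟨c, a⟩, b⟩
          exact ⟨by linarith, by linarith, by linarith⟩
      rw [e, H47A.girard (neg_ne_zero.2 hX) (neg_ne_zero.2 hY) (neg_ne_zero.2 hZ), InnerProductGeometry.angle_neg_neg,
        InnerProductGeometry.angle_neg_neg, InnerProductGeometry.angle_neg_neg]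
    · have e : NCp n v = H47A.Hs (cross3 (n a) (n b)) ∩ H47A.Hs (cross3 (n b) (n c)) ∩
          H47A.Hs (cross3 (n c) (n a)) := by
        ext y
        rw [ncp_vertex hG hab hbc hac hv y]
        have hc : ∀ t : ℝ, 0 ≤ t * det3 (n a) (n b) (n c) ↔ 0 ≤ t := by
          intro t
          exact mul_nonneg_iff_of_pos_right h
        rw [hc, hc, hc]
        simp only [Set.mem_inter_iff]
        show _ ↔ ((0 ≤ (inner ℝ y (cross3 (n a) (n b)) : ℝ)) ∧ (0 ≤ (inner ℝ y (cross3 (n b) (n c)) : ℝ))) ∧
          (0 ≤ (inner ℝ y (cross3 (n c) (n a)) : ℝ))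
        constructor
        · rintro ⟨a, b, c⟩
          exact ⟨⟨c, a⟩, b⟩
        · rintro ⟨⟨c, a⟩, b⟩
          exact ⟨a, b, c⟩
      rw [e, H47A.girard hX hY hZ]
  rw [key, kp_eq hG hab hbc hac hv, v1, v2, v3,
    InnerProductGeometry.angle_comm (cross3 (n c) (n a)) (cross3 (n b) (n c)),
    InnerProductGeometry.angle_comm (cross3 (n c) (n a)) (cross3 (n a) (n b))]
  field_simp
  ring

end ALX
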