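import Pool.Agent.Lib.ALX.JDefs

/-! # ALX, chunk J1C (M): the normal cone of a point which is not a vertex

Port of `H47A.nc_nonvertex` (Lib/H47A/EKap4.lean). `Gn.cases`: `At n x {a}` or `At n x {a, b}`, `a ≠ b` (three facets: `x` is a vertex, `mem_Vs_iff`). In the first case take any `b ≠ a` (`Gn.third`). `E = cross3 (n a) (n b)`: `x + r E`, `x - r E` are in `Pt n` for small `r > 0` (`lf a`, `lf b` do not change; the other
facets: `near_lt`; in the case `At n x {a}` also `b` has `lf b x < 1`). So `⟪y, E⟫ = 0` for `y ∈ NCp n x`. -/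

open Real MeasureTheory Filter Topology

namespace ALX

open H47A (E3 cross3 det3 pl)

variable {A : Type} [Fintype A] [DecidableEq A] {n : A → E3}

/-- a point of the normal cone is nonpositive on the directions of the tangent cone -/
theorem j1c_dir {v : E3} (hv : v ∈ Pt n) {y E : E3} (hy : y ∈ NCp n v)
    (hE : ∀ α, lf n α v = 1 → lf n α E ≤ 0) : (inner ℝ y E : ℝ) ≤ 0 := by
  have h1 : ∀ α : A, ∀ᶠ r in 𝓝[>] (0 : ℝ), lf n α (v + r • E) ≤ 1 := by
    intro α
    by_cases hα : lf n α v = 1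
    · filter_upwards [self_mem_nhdsWithin] with r hr
      rw [lf_add, lf_smul, hα]
      have := mul_nonpos_of_nonneg_of_nonpos (le_of_lt (show (0 : ℝ) < r from hr)) (hE α hα)
      linarith
    · have h2 : lf n α v < 1 := lt_of_le_of_ne (hv α) hα
      have h3 : Tendsto (fun r : ℝ => lf n α (v + r • E)) (𝓝[>] (0 : ℝ)) (𝓝 (lf n α v)) := by
        have h4 : Continuous fun r : ℝ => lf n α (v + r • E) :=
          (lf_cont α).comp (continuous_const.add (continuous_id.smul continuous_const))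
        have h5 := h4.tendsto 0
        simp only [zero_smul, add_zero] at h5
        exact h5.mono_left nhdsWithin_le_nhds
      filter_upwards [h3.eventually (gt_mem_nhds h2)] with r hr
      exact hr.le
  have h2 : ∀ᶠ r in 𝓝[>] (0 : ℝ), ∀ α : A, lf n α (v + r • E) ≤ 1 := eventually_all.2 h1
  obtain ⟨r, hr, hr0⟩ := (h2.and self_mem_nhdsWithin).exists
  have hr0' : (0 : ℝ) < r := hr0
  have h3 := hy (v + r • E) hr
  rw [inner_add_right, inner_smul_right] at h3
  have h4 : r * (inner ℝ y E : ℝ) ≤ 0 := by linarith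
  by_contra h5
  push Not at h5
  have := mul_pos hr0' h5
  linarith

theorem ncp_nonvertex (hG : Gn n) {x : E3} (hx : x ∈ bd n) (h : x ∉ Vs n) :
    ∃ a b, a ≠ b ∧ ∀ y ∈ NCp n x, (inner ℝ y (cross3 (n a) (n b)) : ℝ) = 0 := by
  obtain ⟨a, b, hab, hall⟩ : ∃ a b : A, a ≠ b ∧ ∀ α, lf n α x = 1 → α = a ∨ α = b := by
    rcases hG.cases hx with ⟨a, ha⟩ | ⟨a, b, hab, ha⟩ | ⟨a, b, c, hab, hbc, hac, ha⟩
    · obtain ⟨b, hb, -⟩ := hG.third a a
      refine ⟨a, b, hb.symm, fun α hα => ?_⟩
      left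
      have := ((At.iff.1 ha).2 α).2 hα
      simpa using this
    · refine ⟨a, b, hab, fun α hα => ?_⟩
      have := ((At.iff.1 ha).2 α).2 hα
      simpa using this
    · exact absurd ((mem_Vs_iff hG).2 ⟨a, b, c, hab, hbc, hac, ha⟩) h
  refine ⟨a, b, hab, fun y hy => ?_⟩
  have z1 : lf n a (cross3 (n a) (n b)) = 0 := by
    show inner ℝ (n a) _ = (0 : ℝ)
    rw [real_inner_comm]; exact H47A.cross3_self_left _ _
  have z2 : lf n b (cross3 (n a) (n b)) = 0 := by
    show inner ℝ (n b) _ = (0 : ℝ)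
    rw [real_inner_comm]; exact H47A.cross3_self_right _ _
  have k1 := j1c_dir (bd_sub hx) hy (E := cross3 (n a) (n b)) (by
    intro α hα
    rcases hall α hα with h1 | h1
    · rw [h1, z1]
    · rw [h1, z2])
  have k2 := j1c_dir (bd_sub hx) hy (E := -cross3 (n a) (n b)) (by
    intro α hα
    rw [lf_neg]
    rcases hall α hα with h1 | h1
    · rw [h1, z1, neg_zero]
    · rw [h1, z2, neg_zero])
  rw [inner_neg_right] at k2
  linarith

end ALX
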