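import Pool.Agent.Lib.ALX.J1C

/-! # ALX, chunk J1D (M): the normal cones of the vertices tile the space

Port of `H47A.kap_sum` (Lib/H47A/EKap5.lean). `NCp n v` is closed. Disjoint up to null sets: `y ∈ NCp n v ∩ NCp n w` gives `⟪y, v - w⟫ = 0` (`H47A.plane_null`). Cover up to a null set: `Pt n` is compact (`Gn.Pt_compact`) and nonempty (contains 0); `y` not in the finitely many planes
`⟪y, n a × n b⟫ = 0` (`a ≠ b`, `Gn.cross`), `y ≠ 0`: a maximum point `x0` of `⟪y, ·⟫` on `Pt n` has `y ∈ NCp n x0`, `x0 ∈ bd n` (otherwise all `lf a x0 < 1` and one can move in the direction `y`), and `x0` is a vertex by `ncp_nonvertex`. Finite additivity up to null sets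
(`measure_biUnion_finset₀`, `AEDisjoint`), `mem_Vx`, `Vs_finite`. -/

open Real MeasureTheory Filter Topology

namespace ALX

open H47A (E3 cross3 det3 pl)

variable {A : Type} [Fintype A] [DecidableEq A] {n : A → E3}

theorem j1d_closed (v : E3) : IsClosed (NCp n v) := by
  have h : NCp n v = ⋂ x : E3, ⋂ _ : x ∈ Pt n, {y : E3 | (inner ℝ y x : ℝ) ≤ inner ℝ y v} := by
    ext y
    simp only [Set.mem_iInter]
    rfl
  rw [h]
  exact isClosed_iInter fun x => isClosed_iInter fun _ =>
    isClosed_le (continuous_id.inner continuous_const) (continuous_id.inner continuous_const)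

theorem j1d_max (hG : Gn n) {y : E3} (hy : y ≠ 0) : ∃ x, x ∈ bd n ∧ y ∈ NCp n x := by
  have hne : (Pt n).Nonempty := ⟨0, fun a => by rw [lf_zero]; exact zero_le_one⟩
  obtain ⟨x, hx, hmax⟩ := hG.Pt_compact.exists_isMaxOn hne
    (f := fun x : E3 => (inner ℝ y x : ℝ)) (continuous_const.inner continuous_id).continuousOn
  refine ⟨x, ?_, fun z hz => hmax hz⟩
  by_contra hne1
  have hlt : ∀ a, lf n a x < 1 := fun a => lt_of_le_of_ne (hx a) fun h => hne1 ⟨hx, a, h⟩
  have h1 : ∀ α : A, ∀ᶠ r in 𝓝[>] (0 : ℝ), lf n α (x + r • y) ≤ 1 := by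
    intro α
    have h3 : Tendsto (fun r : ℝ => lf n α (x + r • y)) (𝓝[>] (0 : ℝ)) (𝓝 (lf n α x)) := by
      have h4 : Continuous fun r : ℝ => lf n α (x + r • y) :=
        (lf_cont α).comp (continuous_const.add (continuous_id.smul continuous_const))
      have h5 := h4.tendsto 0
      simp only [zero_smul, add_zero] at h5
      exact h5.mono_left nhdsWithin_le_nhds
    filter_upwards [h3.eventually (gt_mem_nhds (hlt α))] with r hr
    exact hr.le
  have h2 : ∀ᶠ r in 𝓝[>] (0 : ℝ), ∀ α : A, lf n α (x + r • y) ≤ 1 := eventually_all.2 h1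
  obtain ⟨r, hr, hr0⟩ := (h2.and self_mem_nhdsWithin).exists
  have hr0' : (0 : ℝ) < r := hr0
  have h3 : (inner ℝ y (x + r • y) : ℝ) ≤ inner ℝ y x := hmax hr
  rw [inner_add_right, inner_smul_right, real_inner_self_eq_norm_sq] at h3
  have h4 : 0 < ‖y‖ ^ 2 := by
    have := norm_pos_iff.2 hy
    positivity
  have := mul_pos hr0' h4
  linarith

theorem ncp_sum (hG : Gn n) : ∑ v ∈ Vx n, H47A.mB (NCp n v) = H47A.mB Set.univ := by
  classical
  obtain ⟨μ, hμ⟩ : ∃ μ : Measure E3, μ = (volume : Measure E3).restrict (Metric.closedBall 0 1) := ⟨_, rfl⟩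
  have hfin : IsFiniteMeasure μ := by rw [hμ]; infer_instance
  have hm : ∀ S, H47A.mB S = (μ S).toReal := fun S => by rw [hμ]; exact H47A.ekap2_mB S
  have hnull : ∀ S, volume S = 0 → μ S = 0 := by
    intro S hS
    rw [hμ]
    exact Measure.restrict_le_self.absolutelyContinuous hS
  have hmem : ∀ v, v ∈ Vx n ↔ v ∈ Vs n := fun v => mem_Vx hG
  have hdis : Set.Pairwise ((Vx n : Finset E3) : Set E3) (Function.onFun (AEDisjoint μ) (NCp n)) := by
    intro v hv w hw hvw
    refine measure_mono_null (t := {p : E3 | (inner ℝ p (v - w) : ℝ) = 0}) ?_ (hnull _ (H47A.plane_null (sub_ne_zero.2 hvw)))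
    rintro y ⟨h1, h2⟩
    have k1 := h1 w ((hmem w).1 hw).1
    have k2 := h2 v ((hmem v).1 hv).1
    show (inner ℝ y (v - w) : ℝ) = 0
    rw [inner_sub_right]
    linarith
  have hun := measure_biUnion_finset₀ (μ := μ) hdis fun v _ => (j1d_closed (n := n) v).measurableSet.nullMeasurableSet
  have hcov : μ Set.univ = μ (⋃ v ∈ Vx n, NCp n v) := by
    refine le_antisymm ?_ (measure_mono (Set.subset_univ _))
    have hN : μ ({0} ∪ ⋃ p : A × A, ⋃ _ : p.1 ≠ p.2,
        {y : E3 | (inner ℝ y (cross3 (n p.1) (n p.2)) : ℝ) = 0}) = 0 := by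
      refine measure_union_null (hnull _ (measure_singleton 0)) ?_
      rw [measure_iUnion_null_iff]
      intro p
      rw [measure_iUnion_null_iff]
      intro hp
      exact hnull _ (H47A.plane_null (hG.cross hp))
    calc μ Set.univ ≤ μ ((⋃ v ∈ Vx n, NCp n v) ∪ ({0} ∪ ⋃ p : A × A,
          ⋃ _ : p.1 ≠ p.2, {y : E3 | (inner ℝ y (cross3 (n p.1) (n p.2)) : ℝ) = 0})) := by
          refine measure_mono ?_
          intro y _
          by_cases hy0 : y = 0
          · exact Or.inr (Or.inl hy0)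
          obtain ⟨x, hx1, hxy⟩ := j1d_max hG hy0
          by_cases hxV : x ∈ Vs n
          · left
            rw [Set.mem_iUnion₂]
            exact ⟨x, (hmem x).2 hxV, hxy⟩
          · right; right
            obtain ⟨P, Q, hPQ, h⟩ := ncp_nonvertex hG hx1 hxV
            rw [Set.mem_iUnion₂]
            exact ⟨(P, Q), hPQ, h y hxy⟩
      _ ≤ _ := measure_union_le _ _
      _ = _ := by rw [hN, add_zero]
  rw [hm Set.univ, hcov, hun, ENNReal.toReal_sum fun v _ => measure_ne_top μ _]
  exact Finset.sum_congr rfl fun v _ => hm _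

end ALX
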