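import Pool.Agent.Lib.ALX.J1B
import Pool.Agent.Lib.ALX.J1D

/-! # ALX, chunk J1E (S/M): Gauss-Bonnet

`kp_sum`: `mem_Vx`, `mem_Vs_iff`, `ncp_kp`, `ncp_sum`, `H47A.mB_univ_pos`. `kp_nonneg`: `ncp_kp` for vertices (`mB` is a `toReal`), `kp_zero` otherwise. -/

open Real MeasureTheory Filter Topology

namespace ALX

open H47A (E3 cross3 det3 pl)

variable {A : Type} [Fintype A] [DecidableEq A] {n : A → E3}

theorem kp_sum (hG : Gn n) : ∑ v ∈ Vx n, kp n v = 4 * π := by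
  have h1 : ∀ v ∈ Vx n, kp n v = 4 * π / H47A.mB Set.univ * H47A.mB (NCp n v) := by
    intro v hv
    obtain ⟨a, b, c, hab, hbc, hac, hA⟩ := (mem_Vs_iff hG).1 ((mem_Vx hG).1 hv)
    rw [ncp_kp hG hab hbc hac hA]
    ring
  rw [Finset.sum_congr rfl h1, ← Finset.mul_sum, ncp_sum hG]
  exact div_mul_cancel₀ _ H47A.mB_univ_pos.ne'

theorem kp_nonneg (hG : Gn n) (v : E3) : 0 ≤ kp n v := by
  by_cases hv : v ∈ Vs n
  · obtain ⟨a, b, c, hab, hbc, hac, hA⟩ := (mem_Vs_iff hG).1 hv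
    rw [ncp_kp hG hab hbc hac hA]
    unfold H47A.mB
    have := Real.pi_pos
    positivity
  · rw [kp_zero hG hv]

end ALX
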