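import Pool.Agent.Lib.ALX.J1E
import Pool.Agent.Lib.ALX.J2
import Pool.Agent.Lib.ALX.FBApi

/-! # ALX, chunk J3A (S/M): the area is at most 2 pi times the square of the mean distance

`q ∈ bd n` (`Gen.loc`, `At.bd`); `farthest` gives `z`. `fb_fiala`, `fiala_mean` with `s = Vx n`, `k = kp n`, `d v = dl n q v`.
`fiala_D`: if `m > D/2`, `D = Dm n ≥ R` (`dl_le_Dm`): `fiala_mono`. -/

open Real MeasureTheory Filter Topology

namespace ALX

open H47A (E3 cross3 det3 pl)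

variable {A : Type} [Fintype A] [DecidableEq A] {n : A → E3}

theorem mean_bound (hG : Gn n) {a0 : A} {q : E3} (hg : Gen n a0 q) {m : ℝ} (hm : 4 * π * m = ∑ v ∈ Vx n, kp n v * dl n q v) :
    (ar n Set.univ).toReal ≤ 2 * π * m ^ 2 := by
  have hq : q ∈ bd n := hg.loc.bd (Finset.singleton_nonempty a0)
  obtain ⟨z, hz, hmax⟩ := farthest hG hq
  exact fiala_mean (Vx n) (kp n) (fun v => dl n q v) (fun v _ => kp_nonneg hG v) (kp_sum hG) hm
    (fb_fiala hG hg hz hmax)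

theorem fiala_D (hG : Gn n) {a0 : A} {q : E3} (hg : Gen n a0 q) {m : ℝ} (hm : 4 * π * m = ∑ v ∈ Vx n, kp n v * dl n q v) (hD : Dm n ≤ 2 * m) :
    (ar n Set.univ).toReal ≤ π * (Dm n) ^ 2 - 1 / 2 * ∑ v ∈ Vx n, kp n v * (Dm n - dl n q v) ^ 2 := by
  have hq : q ∈ bd n := hg.loc.bd (Finset.singleton_nonempty a0)
  obtain ⟨z, hz, hmax⟩ := farthest hG hq
  exact fiala_mono (Vx n) (kp n) (fun v => dl n q v) (kp_sum hG) hm (dl_le_Dm hG hq hz) hD
    (fb_fiala hG hg hz hmax)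

end ALX
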