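import Pool.Agent.Lib.ALX.ApiPA
import Pool.Agent.Lib.ALX.G8
import Pool.Agent.Lib.ALX.FBApi
import Pool.Agent.Lib.ALX.J1E

/-! # ALX, chunk J3B (M): integration over the base point

`dl n v ·` is continuous on the compact set `bd n` (`dl_contOn`), `ar n` is finite (`ar_finite`) and lives on `bd n` (`ar_bd`): `(D - dl n v q)²` is integrable (`ContinuousOn.aestronglyMeasurable`, bounded). Integrate the inequality `hF` (almost everywhere, `integral_mono_ae`):
`a² ≤ π D² a - (1/2) ∑ kp v ∫ (D - dl n q v)²` with `a = (ar n univ).toReal`; `dl n q v = dl n v q` (`dl_comm`), `fb_bg` at `v` (vertices are in `bd n`), `kp_nonneg`, `kp_sum`: the sum is `≥ 4 π D²/6 a`. So `a² ≤ (π - π/3) D² a`; `a ≥ 0`: if `a = 0` trivial, else divide. -/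

open Real MeasureTheory Filter Topology

namespace ALX

open H47A (E3 cross3 det3 pl)

variable {A : Type} [Fintype A] [DecidableEq A] {n : A → E3}

theorem avg_bound (hG : Gn n) (hF : ∀ᵐ q ∂(ar n), (ar n Set.univ).toReal ≤ π * (Dm n) ^ 2 - 1 / 2 * ∑ v ∈ Vx n, kp n v * (Dm n - dl n q v) ^ 2) :
    (ar n Set.univ).toReal ≤ 2 * π / 3 * (Dm n) ^ 2 := by
  have hfin : IsFiniteMeasure (ar n) := ⟨ar_finite hG⟩
  set a : ℝ := (ar n Set.univ).toReal with ha
  set D : ℝ := Dm n with hD
  have ha0 : 0 ≤ a := ENNReal.toReal_nonneg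
  have hmem : ∀ᵐ q ∂(ar n), q ∈ bd n := by
    rw [ae_iff]
    exact ar_bd hG
  have hres : (ar n).restrict (bd n) = ar n := Measure.restrict_eq_self_of_ae_mem hmem
  have hvb : ∀ v ∈ Vx n, v ∈ bd n := by
    intro v hv
    obtain ⟨h2, h3⟩ := (mem_Vx hG).1 hv
    have h4 : (Ac n v).Nonempty := Finset.card_pos.1 (by omega)
    obtain ⟨b, hb⟩ := h4
    exact ⟨h2, b, mem_Ac.1 hb⟩
  have hint : ∀ v ∈ Vx n, Integrable (fun q => (D - dl n q v) ^ 2) (ar n) := by
    intro v hv
    have h1 : ContinuousOn (fun q => (D - dl n q v) ^ 2) (bd n) := by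
      have h2 := dl_contOn hG (hvb v hv)
      have h3 : ContinuousOn (fun q => dl n q v) (bd n) := h2.congr fun q _ => dl_comm q v
      exact (continuousOn_const.sub h3).pow 2
    have h4 : AEStronglyMeasurable (fun q => (D - dl n q v) ^ 2) (ar n) := by
      have h5 := h1.aestronglyMeasurable (μ := ar n) hG.bd_compact.isClosed.measurableSet
      rwa [hres] at h5
    refine Integrable.of_bound h4 (D ^ 2) ?_
    filter_upwards [hmem] with q hq
    have h5 : 0 ≤ dl n q v := ENNReal.toReal_nonneg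
    have h6 : dl n q v ≤ D := dl_le_Dm hG hq (hvb v hv)
    rw [Real.norm_eq_abs, abs_of_nonneg (sq_nonneg _)]
    exact pow_le_pow_left₀ (by linarith) (by linarith) 2
  have hsum : Integrable (fun q => ∑ v ∈ Vx n, kp n v * (D - dl n q v) ^ 2) (ar n) :=
    integrable_finset_sum _ fun v hv => (hint v hv).const_mul _
  have h1 : ∫ _q, a ∂(ar n) ≤ ∫ q, (π * D ^ 2 - 1 / 2 * ∑ v ∈ Vx n, kp n v * (D - dl n q v) ^ 2) ∂(ar n) :=
    integral_mono_ae (integrable_const _) ((integrable_const _).sub (hsum.const_mul _)) hF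
  have hreal : (ar n).real Set.univ = a := rfl
  rw [integral_sub (integrable_const _) (hsum.const_mul _), integral_const, integral_const, integral_const_mul,
    integral_finset_sum _ fun v hv => (hint v hv).const_mul _, hreal, smul_eq_mul, smul_eq_mul] at h1
  have h2 : 4 * π * (D ^ 2 / 6 * a) ≤ ∑ v ∈ Vx n, ∫ q, kp n v * (D - dl n q v) ^ 2 ∂(ar n) := by
    rw [← kp_sum hG, Finset.sum_mul]
    refine Finset.sum_le_sum fun v hv => ?_
    rw [integral_const_mul]
    refine mul_le_mul_of_nonneg_left ?_ (kp_nonneg hG v)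
    have h3 := fb_bg hG (hvb v hv) (D := D) (fun x hx => dl_le_Dm hG (hvb v hv) hx)
    refine h3.trans (le_of_eq ?_)
    refine integral_congr_ae (Filter.Eventually.of_forall fun q => ?_)
    show (D - dl n v q) ^ 2 = (D - dl n q v) ^ 2
    rw [dl_comm v q]
  have h3 : a * a ≤ a * (2 * π / 3 * D ^ 2) := by nlinarith
  rcases ha0.eq_or_lt with h0 | h0
  · rw [← h0]
    have := Real.pi_pos
    positivity
  · exact le_of_mul_le_mul_left h3 h0

end ALX
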