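import Pool.Agent.Lib.ALX.J3A
import Pool.Agent.Lib.ALX.J3B

/-! # ALX, chunk J3C (S): the theorem for generic polytopes

For `q` put `m q = (4 π)⁻¹ ∑ kp v * dl n q v`. If some generic `q` (`Gen n a0 q`) has `m q ≤ Dm n / 2`: `mean_bound` and `0 ≤ m q` give `2 π m² ≤ π D²/2 ≤ 2 π/3 D²`. Otherwise `fiala_D` for every generic `q`, i.e. almost every `q` (`ar_gen`): `avg_bound`. -/

open Real MeasureTheory Filter Topology

namespace ALX

open H47A (E3 cross3 det3 pl)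

variable {A : Type} [Fintype A] [DecidableEq A] {n : A → E3}

theorem poly_T1 (hG : Gn n) : (ar n Set.univ).toReal ≤ 2 * π / 3 * (Dm n) ^ 2 := by
  by_cases hc : ∃ (a0 : A) (q : E3), Gen n a0 q ∧ (4 * π)⁻¹ * ∑ v ∈ Vx n, kp n v * dl n q v ≤ Dm n / 2
  · obtain ⟨a0, q, hg, hm⟩ := hc
    have h0 : 0 ≤ ∑ v ∈ Vx n, kp n v * dl n q v :=
      Finset.sum_nonneg fun v _ => mul_nonneg (kp_nonneg hG v) (dl_nonneg q v)
    have hp := Real.pi_pos
    have h1 : 4 * π * ((4 * π)⁻¹ * ∑ v ∈ Vx n, kp n v * dl n q v) = ∑ v ∈ Vx n, kp n v * dl n q v := by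
      field_simp
    have h2 := mean_bound hG hg h1
    have h3 : 0 ≤ (4 * π)⁻¹ * ∑ v ∈ Vx n, kp n v * dl n q v := by positivity
    have h4 : ((4 * π)⁻¹ * ∑ v ∈ Vx n, kp n v * dl n q v) ^ 2 ≤ (Dm n / 2) ^ 2 := pow_le_pow_left₀ h3 hm 2
    have h5 : 0 ≤ π * (Dm n) ^ 2 := by positivity
    calc (ar n Set.univ).toReal ≤ 2 * π * ((4 * π)⁻¹ * ∑ v ∈ Vx n, kp n v * dl n q v) ^ 2 := h2
      _ ≤ 2 * π * (Dm n / 2) ^ 2 := mul_le_mul_of_nonneg_left h4 (by positivity)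
      _ ≤ 2 * π / 3 * (Dm n) ^ 2 := by nlinarith
  · push Not at hc
    refine avg_bound hG ?_
    filter_upwards [ar_gen hG] with q hq
    obtain ⟨a0, hg⟩ := hq
    have hp := Real.pi_pos
    have h1 : 4 * π * ((4 * π)⁻¹ * ∑ v ∈ Vx n, kp n v * dl n q v) = ∑ v ∈ Vx n, kp n v * dl n q v := by
      field_simp
    have h2 := hc a0 q hg
    exact fiala_D hG hg h1 (by linarith)

end ALX
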