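import Pool.Agent.Lib.ALX.ApiPA
import Pool.Agent.Lib.H47A.EKap2

/-! # ALX: normal cones (definition) -/

open Real MeasureTheory

namespace ALX

open H47A (E3 cross3 det3 pl)

variable {A : Type} [Fintype A] [DecidableEq A]

/-- The normal cone of the polytope at `u`. -/
def NCp (n : A → E3) (u : E3) : Set E3 := {y | ∀ x ∈ Pt n, (inner ℝ y x : ℝ) ≤ inner ℝ y u}

end ALX
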