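import Pool.Agent.Lib.H47A.FAp1

/-! # ALX, L1: finitely many balls of normals (as `H47A.exists_balls`, without symmetry) -/

open Real MeasureTheory

namespace ALX

open H47A (E3)

theorem exists_balls0 {K : Set E3} (hK : IsCompact K) (hv : Convex ℝ K) (h0 : K ∈ nhds (0 : E3)) {ε : ℝ} (hε : 0 < ε) : ∃ (N : ℕ) (c : Fin N → E3) (r : Fin N → ℝ), (∀ a, 0 < r a) ∧
      ∀ n : Fin N → E3, (∀ a, ‖n a - c a‖ < r a) →
        (∀ x : E3, x ≠ 0 → ∃ a, gauge K x < inner ℝ (n a) x) ∧ ∀ x : E3, ∀ a, (inner ℝ (n a) x : ℝ) ≤ (1 + ε) * gauge K x := by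
  have hloc : ∀ x0 : E3, ∃ (z : E3) (r s : ℝ), x0 ≠ 0 → 0 < r ∧ 0 < s ∧
      (∀ y, ‖y - z‖ < r → ∀ x : E3, (inner ℝ y x : ℝ) ≤ (1 + ε) * gauge K x) ∧
      ∀ y x : E3, ‖y - z‖ < r → ‖x - x0‖ < s → gauge K x < inner ℝ y x := by
    intro x0
    by_cases hx : x0 = 0
    · exact ⟨0, 0, 0, fun h => absurd hx h⟩
    · obtain ⟨z, r, s, h⟩ := H47A.fap1_loc hK hv h0 hε hx
      exact ⟨z, r, s, fun _ => h⟩
  choose z r s hz using hloc
  have hsph : ∀ x ∈ Metric.sphere (0 : E3) 1, x ≠ 0 := by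
    intro x hx h
    rw [mem_sphere_zero_iff_norm, h, norm_zero] at hx
    exact zero_ne_one hx
  obtain ⟨t, ht1, ht2⟩ := (isCompact_sphere (0 : E3) 1).elim_nhds_subcover (fun x => Metric.ball x (s x))
    fun x hx => Metric.ball_mem_nhds x (hz x (hsph x hx)).2.1
  refine ⟨t.card, fun a => z (t.equivFin.symm a).1, fun a => r (t.equivFin.symm a).1, fun a => ?_, fun n hn => ⟨fun x hx => ?_, fun x a => ?_⟩⟩
  · exact (hz _ (hsph _ (ht1 _ (t.equivFin.symm a).2))).1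
  · have hxn : 0 < ‖x‖ := norm_pos_iff.2 hx
    have h1 : ‖x‖⁻¹ • x ∈ Metric.sphere (0 : E3) 1 := by
      rw [mem_sphere_zero_iff_norm, norm_smul, norm_inv, norm_norm, inv_mul_cancel₀ hxn.ne']
    have h2 := ht2 h1
    rw [Set.mem_iUnion₂] at h2
    obtain ⟨x0, hx0, h3⟩ := h2
    refine ⟨t.equivFin ⟨x0, hx0⟩, ?_⟩
    have h4 := (hz x0 (hsph x0 (ht1 x0 hx0))).2.2.2 (n (t.equivFin ⟨x0, hx0⟩)) (‖x‖⁻¹ • x) (by
      have := hn (t.equivFin ⟨x0, hx0⟩)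
      simpa using this) (by rwa [Metric.mem_ball, dist_eq_norm] at h3)
    rw [gauge_smul_of_nonneg (inv_nonneg.2 hxn.le), inner_smul_right, smul_eq_mul] at h4
    exact lt_of_mul_lt_mul_left h4 (inv_nonneg.2 hxn.le)
  · exact (hz _ (hsph _ (ht1 _ (t.equivFin.symm a).2))).2.2.1 (n a) (hn a) x

end ALX
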