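import Pool.Agent.Lib.ALX.L1
import Pool.Agent.Lib.ALX.Api0
import Pool.Agent.Lib.H47A.FAp2

/-! # ALX, L2: approximation by generic polytopes -/

open Real MeasureTheory

namespace ALX

open H47A (E3 cross3 det3 pl)

theorem l2_four {N : ℕ} {n : Fin N → E3} (h : Pool.Agent.H47F.Cnd n) {a b c d : Fin N} (hab : a ≠ b) (hac : a ≠ c) (had : a ≠ d)
    (hbc : b ≠ c) (hbd : b ≠ d) (hcd : c ≠ d) (u : E3) : ¬ (lf n a u = 1 ∧ lf n b u = 1 ∧ lf n c u = 1 ∧ lf n d u = 1) := by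
  have e : ∀ i, H47A.lf n (i, true) u = lf n i u := fun i => by simp [H47A.lf, H47A.nn, lf]
  have h1 := Pool.Agent.H47F.no_four_cnd h (α := (a, true)) (β := (b, true)) (γ := (c, true)) (δ := (d, true))
    (by simpa using hab) (by simpa using hac) (by simpa using had) (by simpa using hbc) (by simpa using hbd) (by simpa using hcd) u
  rwa [e, e, e, e] at h1

theorem approx0 {K : Set E3} (hK : IsCompact K) (hv : Convex ℝ K) (h0 : K ∈ nhds (0 : E3)) {ε : ℝ} (hε : 0 < ε) :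
    ∃ (N : ℕ) (n : Fin N → E3), Gn n ∧ Pt n ⊆ K ∧ ∀ x ∈ K, ∀ a, lf n a x ≤ 1 + ε := by
  obtain ⟨N, c, r, hr, hcr⟩ := exists_balls0 hK hv h0 hε
  obtain ⟨n, h1, h2⟩ := H47A.fap2_exists N c r hr
  obtain ⟨h3, h4⟩ := hcr n h1
  have hsub : Pt n ⊆ K := by
    intro u hu
    by_cases hu0 : u = 0
    · rw [hu0]; exact mem_of_mem_nhds h0
    · obtain ⟨a, ha⟩ := h3 u hu0
      have h6 : gauge K u < 1 := ha.trans_le (hu a)
      exact gauge_lt_one_subset_self hv (mem_of_mem_nhds h0) (absorbent_nhds_zero h0) h6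
  refine ⟨N, n, ⟨?_, fun a b c hab hbc hac => h2.det_ne hab hbc hac, fun a b c d hab hac had hbc hbd hcd u => l2_four h2 hab hac had hbc hbd hcd u⟩, hsub, ?_⟩
  · obtain ⟨R, hR⟩ := hK.isBounded.exists_norm_le
    exact ⟨R, fun u hu => hR u (hsub hu)⟩
  · intro x hx a
    have := h4 x a
    have h5 := gauge_le_one_of_mem hx
    show (inner ℝ (n a) x : ℝ) ≤ 1 + ε
    nlinarith

end ALX
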