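import Pool.Agent.Lib.ALX.Api0

/-! # ALX, L3: the polytope is a convex body with frontier `bd n` -/

open Real MeasureTheory

namespace ALX

open H47A (E3 cross3 det3 pl)

variable {A : Type} [Fintype A] [DecidableEq A] {n : A → E3}

theorem l3_open : IsOpen {u : E3 | ∀ a, lf n a u < 1} := by
  have : {u : E3 | ∀ a, lf n a u < 1} = ⋂ a, {u | lf n a u < 1} := by
    ext u
    simp
  rw [this]
  exact isOpen_iInter_of_finite fun a => isOpen_lt (lf_cont a) continuous_const

theorem l3_int : interior (Pt n) = {u : E3 | ∀ a, lf n a u < 1} := by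
  apply Set.Subset.antisymm
  · intro u hu a
    have hc : Continuous fun t : ℝ => (1 + t) • u := by fun_prop
    have h1 : ∀ᶠ t : ℝ in nhds 0, (1 + t) • u ∈ interior (Pt n) := by
      refine hc.continuousAt.eventually_mem ?_
      rw [add_zero, one_smul]
      exact isOpen_interior.mem_nhds hu
    obtain ⟨ε, hε, h2⟩ := Metric.eventually_nhds_iff.1 h1
    have h3 := interior_subset (h2 (y := ε / 2) (by rw [Real.dist_eq, sub_zero, abs_of_pos (by linarith)]; linarith)) a
    rw [lf_smul] at h3
    have h4 := interior_subset hu a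
    by_contra h5
    have h6 : lf n a u = 1 := le_antisymm h4 (not_lt.1 h5)
    rw [h6] at h3
    linarith
  · exact interior_maximal (fun u hu a => (hu a).le) l3_open

theorem Pt_zero : (0 : E3) ∈ interior (Pt n) := by
  rw [l3_int]
  intro a
  rw [lf_zero]
  exact one_pos

theorem Pt_nonempty_interior : (interior (Pt n)).Nonempty := ⟨0, Pt_zero⟩

theorem frontier_Pt : frontier (Pt n) = bd n := by
  rw [Pt_closed.frontier_eq, l3_int]
  ext u
  constructor
  · rintro ⟨h1, h2⟩
    refine ⟨h1, ?_⟩
    by_contra h3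
    push Not at h3
    exact h2 fun a => lt_of_le_of_ne (h1 a) (h3 a)
  · rintro ⟨h1, a, ha⟩
    exact ⟨h1, fun h => (h a).ne ha⟩

end ALX
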