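import Pool.Agent.Lib.H47A.FPr2

/-! # ALX, L4: the inner diameter is monotone -/

open Real MeasureTheory

namespace ALX

open H47A (E3 cross3 det3 pl pr pr_lip pr_frontier pr_surj)

theorem l4_pl {C D : Set E3} (hC : IsCompact C) (hCv : Convex ℝ C) (hn : C.Nonempty)
    (hCD : C ⊆ D) (x y : E3) : pl (frontier C) (pr C x) (pr C y) ≤ pl (frontier D) x y := by
  unfold pl
  refine le_iInf fun γ => le_iInf fun h1 => le_iInf fun h2 => le_iInf fun h3 => le_iInf fun h4 => ?_
  have hl := pr_lip hC.isClosed hCv hn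
  refine iInf_le_of_le (pr C ∘ γ) (iInf_le_of_le (hl.continuous.comp h1) (iInf_le_of_le ?_ (iInf_le_of_le ?_
    (iInf_le_of_le ?_ ?_))))
  · show pr C (γ 0) = _
    rw [h2]
  · show pr C (γ 1) = _
    rw [h3]
  · intro t ht
    exact pr_frontier hC.isClosed hCv hn fun h => (h4 t ht).2 (interior_mono hCD h)
  · have h5 := (hl.lipschitzOnWith (s := Set.univ)).comp_eVariationOn_le (g := γ) (s := Set.Icc (0 : ℝ) 1) (fun _ _ => trivial)
    simpa using h5

theorem diam_mono {C D : Set E3} (hC : IsCompact C) (hCv : Convex ℝ C) (hCi : (interior C).Nonempty) (hD : IsCompact D)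
    (hCD : C ⊆ D) : (⨆ x ∈ frontier C, ⨆ y ∈ frontier C, pl (frontier C) x y) ≤
      ⨆ x ∈ frontier D, ⨆ y ∈ frontier D, pl (frontier D) x y := by
  refine iSup₂_le fun x hx => iSup₂_le fun y hy => ?_
  obtain ⟨x', hx', h1⟩ := pr_surj hC hCv hCi hD hCD hx
  obtain ⟨y', hy', h2⟩ := pr_surj hC hCv hCi hD hCD hy
  rw [← h1, ← h2]
  exact (l4_pl hC hCv (hCi.mono interior_subset) hCD x' y').trans
    (le_iSup₂_of_le (f := fun x (_ : x ∈ frontier D) => ⨆ y ∈ frontier D, pl (frontier D) x y) x' hx'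
      (le_iSup₂ (f := fun y (_ : y ∈ frontier D) => pl (frontier D) x' y) y' hy'))

end ALX
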