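import Pool.Agent.Lib.ALX.P17
import Pool.Agent.Lib.H47A.EAr1

/-! # ALX, L5: Hausdorff measure of the boundary and the area -/

open Real MeasureTheory

namespace ALX

open H47A (E3 cross3 det3 pl)

variable {A : Type} [Fintype A] [DecidableEq A] {n : A → E3}

theorem l5_fc (hG : Gn n) (a : A) : ENNReal.ofReal (π / 4) * Measure.hausdorffMeasure 2 (Fc n a) ≤ volume (em n a ⁻¹' Fc n a) := by
  have h1 : em n a '' (em n a ⁻¹' Fc n a) = Fc n a := by
    rw [Set.image_preimage_eq_iff]
    intro x hx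
    exact em_surj hG hx.2
  have hi : Isometry (em n a) := Isometry.of_dist_eq fun x y => by rw [dist_eq_norm, dist_eq_norm, em_norm hG]
  have h2 := hi.hausdorffMeasure_image (d := 2) (Or.inl (by norm_num)) (em n a ⁻¹' Fc n a)
  rw [h1] at h2
  rw [h2]
  exact H47A.haus_le _

theorem haus_ar (hG : Gn n) : ENNReal.ofReal (π / 4) * Measure.hausdorffMeasure 2 (bd n) ≤ ar n Set.univ := by
  have h1 : ar n Set.univ = ∑ a, volume (em n a ⁻¹' Fc n a) := by
    unfold ar
    rw [Measure.sum_apply _ MeasurableSet.univ, tsum_fintype]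
    refine Finset.sum_congr rfl fun a _ => ?_
    rw [Measure.restrict_apply MeasurableSet.univ, Set.univ_inter]
    exact (em_emb hG a).measurableEmbedding.map_apply _ _
  rw [h1, bd_eq]
  calc ENNReal.ofReal (π / 4) * Measure.hausdorffMeasure 2 (⋃ a, Fc n a)
      ≤ ENNReal.ofReal (π / 4) * ∑ a, Measure.hausdorffMeasure 2 (Fc n a) := by
        gcongr
        refine (measure_iUnion_le _).trans ?_
        rw [tsum_fintype]
    _ = ∑ a, ENNReal.ofReal (π / 4) * Measure.hausdorffMeasure 2 (Fc n a) := Finset.mul_sum _ _ _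
    _ ≤ ∑ a, volume (em n a ⁻¹' Fc n a) := Finset.sum_le_sum fun a _ => l5_fc hG a

end ALX
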