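import Pool.Agent.Lib.ALX.Api0

/-! # ALX, L6: the inner diameter in both forms -/

open Real MeasureTheory

namespace ALX

open H47A (E3 cross3 det3 pl)

variable {A : Type} [Fintype A] [DecidableEq A] {n : A → E3}

theorem Dm_le_sup : ENNReal.ofReal (Dm n) ≤ ⨆ x ∈ bd n, ⨆ y ∈ bd n, pl (bd n) x y := by
  set L := ⨆ x ∈ bd n, ⨆ y ∈ bd n, pl (bd n) x y with hL
  by_cases hT : L = ⊤
  · rw [hT]; exact le_top
  refine ENNReal.ofReal_le_of_le_toReal ?_
  refine Real.iSup_le (fun p => ?_) ENNReal.toReal_nonneg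
  refine ENNReal.toReal_mono hT ?_
  exact le_iSup₂_of_le (f := fun x (_ : x ∈ bd n) => ⨆ y ∈ bd n, pl (bd n) x y) p.1.1 p.1.2
    (le_iSup₂ (f := fun y (_ : y ∈ bd n) => pl (bd n) p.1.1 y) p.2.1 p.2.2)

end ALX
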