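import Pool.Agent.Lib.ALX.J3C
import Pool.Agent.Lib.ALX.G8
import Pool.Agent.Lib.ALX.L2
import Pool.Agent.Lib.ALX.L3
import Pool.Agent.Lib.ALX.L4
import Pool.Agent.Lib.ALX.L5
import Pool.Agent.Lib.ALX.L6

/-! # ALX, L7: the inequality up to `ε` -/

open Real MeasureTheory Filter

open scoped Pointwise Topology

namespace ALX

open H47A (E3 cross3 det3 pl)

theorem poly_main {A : Type} [Fintype A] [DecidableEq A] {n : A → E3} (hG : Gn n) : ENNReal.ofReal (π / 4) * Measure.hausdorffMeasure 2 (bd n) ≤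
    ENNReal.ofReal (2 * π / 3) * (⨆ x ∈ bd n, ⨆ y ∈ bd n, pl (bd n) x y) ^ 2 := by
  have h1 := poly_T1 hG
  have h2 : ar n Set.univ = ENNReal.ofReal (ar n Set.univ).toReal := (ENNReal.ofReal_toReal (ar_finite hG).ne).symm
  have hD : 0 ≤ Dm n := Real.iSup_nonneg fun p => ENNReal.toReal_nonneg
  calc ENNReal.ofReal (π / 4) * Measure.hausdorffMeasure 2 (bd n) ≤ ar n Set.univ := haus_ar hG
    _ ≤ ENNReal.ofReal (2 * π / 3 * Dm n ^ 2) := by
        rw [h2]
        exact ENNReal.ofReal_le_ofReal h1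
    _ = ENNReal.ofReal (2 * π / 3) * ENNReal.ofReal (Dm n) ^ 2 := by
        rw [ENNReal.ofReal_mul (by positivity), ENNReal.ofReal_pow hD]
    _ ≤ _ := by
        gcongr
        exact Dm_le_sup

theorem l7_eps {K : Set E3} (hK : IsCompact K) (hv : Convex ℝ K) (h0 : K ∈ 𝓝 (0 : E3)) {ε : ℝ} (hε : 0 < ε) :
    ENNReal.ofReal (π / 4) * Measure.hausdorffMeasure 2 (frontier K) ≤
      ENNReal.ofReal ((1 + ε) ^ 2) *
        (ENNReal.ofReal (2 * π / 3) * (⨆ x ∈ frontier K, ⨆ y ∈ frontier K, pl (frontier K) x y) ^ 2) := by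
  obtain ⟨N, n, hG, hPK, hKP⟩ := approx0 hK hv h0 hε
  have hi : (interior K).Nonempty := ⟨0, mem_interior_iff_mem_nhds.2 h0⟩
  have h1 := diam_mono hG.Pt_compact Pt_convex Pt_nonempty_interior hK hPK
  rw [frontier_Pt] at h1
  set c : ℝ := 1 + ε with hc
  have hc0 : 0 < c := by positivity
  have h2 : K ⊆ c • Pt n := by
    intro x hx
    refine ⟨c⁻¹ • x, fun a => ?_, by simp [smul_smul, hc0.ne']⟩
    rw [lf_smul, inv_mul_le_iff₀ hc0, mul_one]
    exact hKP x hx a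
  have h3 := H47A.haus_mono hK hv hi (hG.Pt_compact.smul c) h2
  have h4 : frontier (c • Pt n) = c • bd n := by
    rw [← frontier_Pt]
    exact ((Homeomorph.smulOfNeZero c hc0.ne').image_frontier (Pt n)).symm
  rw [h4, Measure.hausdorffMeasure_smul₀ (by norm_num) hc0.ne'] at h3
  have h5 := poly_main hG
  have h6 : ((‖c‖₊ ^ (2 : ℝ) : NNReal) : ENNReal) = ENNReal.ofReal (c ^ 2) := by
    rw [ENNReal.ofReal, ← ENNReal.coe_inj.2 (a := _) rfl]
    congr 1
    ext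
    simp [Real.norm_of_nonneg hc0.le, Real.coe_toNNReal _ (sq_nonneg c)]
  calc ENNReal.ofReal (π / 4) * Measure.hausdorffMeasure 2 (frontier K)
      ≤ ENNReal.ofReal (π / 4) * (ENNReal.ofReal (c ^ 2) * Measure.hausdorffMeasure 2 (bd n)) := by
        gcongr
        rw [← h6]
        exact h3
    _ = ENNReal.ofReal (c ^ 2) * (ENNReal.ofReal (π / 4) * Measure.hausdorffMeasure 2 (bd n)) := by ring
    _ ≤ ENNReal.ofReal (c ^ 2) * (ENNReal.ofReal (2 * π / 3) * (⨆ x ∈ bd n, ⨆ y ∈ bd n, pl (bd n) x y) ^ 2) := by gcongr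
    _ ≤ _ := by gcongr

end ALX
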