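import Pool.Agent.Lib.ALX.L7
import Pool.Agent.Lib.H47F.Path

/-! # ALX, L8: the inequality for every convex body -/

open Real MeasureTheory Filter

open scoped Pointwise Topology

namespace ALX

open H47A (E3 cross3 det3 pl)

theorem l8_zero {K : Set E3} (hK : IsCompact K) (hv : Convex ℝ K) (h0 : K ∈ 𝓝 (0 : E3)) :
    ENNReal.ofReal (π / 4) * Measure.hausdorffMeasure 2 (frontier K) ≤
      ENNReal.ofReal (2 * π / 3) * (⨆ x ∈ frontier K, ⨆ y ∈ frontier K, pl (frontier K) x y) ^ 2 := by
  set Y := ENNReal.ofReal (2 * π / 3) * (⨆ x ∈ frontier K, ⨆ y ∈ frontier K, pl (frontier K) x y) ^ 2 with hY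
  by_cases hYt : Y = ⊤
  · rw [hYt]; exact le_top
  have h1 : Tendsto (fun k : ℕ => ENNReal.ofReal ((1 + 1 / ((k : ℝ) + 1)) ^ 2) * Y) atTop (𝓝 (ENNReal.ofReal ((1 + 0) ^ 2) * Y)) := by
    refine ENNReal.Tendsto.mul_const (ENNReal.tendsto_ofReal ?_) (Or.inr hYt)
    exact (tendsto_const_nhds.add tendsto_one_div_add_atTop_nhds_zero_nat).pow 2
  have h2 : ENNReal.ofReal ((1 + 0) ^ 2) * Y = Y := by simp
  rw [h2] at h1
  exact ge_of_tendsto' h1 fun k => l7_eps hK hv h0 (by positivity)

theorem body_T1 {K : Set E3} (hK : IsCompact K) (hv : Convex ℝ K) (hi : (interior K).Nonempty) :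
    ENNReal.ofReal (π / 4) * Measure.hausdorffMeasure 2 (frontier K) ≤
      ENNReal.ofReal (2 * π / 3) * (⨆ x ∈ frontier K, ⨆ y ∈ frontier K, pl (frontier K) x y) ^ 2 := by
  obtain ⟨c, hc⟩ := hi
  set e : E3 ≃ᵢ E3 := IsometryEquiv.addRight c with he
  set K' : Set E3 := e ⁻¹' K with hK'
  have hmem : ∀ x, x ∈ K' ↔ x + c ∈ K := fun x => Iff.rfl
  have hfr : frontier K' = e ⁻¹' frontier K := (e.toHomeomorph.preimage_frontier K).symm
  have hint : interior K' = e ⁻¹' interior K := (e.toHomeomorph.preimage_interior K).symm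
  have h0 : K' ∈ 𝓝 (0 : E3) := by
    rw [← mem_interior_iff_mem_nhds, hint]
    show (0 : E3) + c ∈ interior K
    rw [zero_add]
    exact hc
  have h1 := l8_zero (K := K') (e.toHomeomorph.isCompact_preimage.2 hK) (by
    intro x hx y hy a b ha hb hab
    rw [hmem] at hx hy ⊢
    have h := hv hx hy ha hb hab
    have h2 : a • x + b • y + c = a • (x + c) + b • (y + c) := by
      have h3 : c = a • c + b • c := by rw [← add_smul, hab, one_smul]
      rw [smul_add, smul_add]
      nth_rewrite 1 [h3]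
      abel
    rw [h2]
    exact h) h0
  have h2 : Measure.hausdorffMeasure 2 (frontier K') = Measure.hausdorffMeasure 2 (frontier K) := by
    rw [hfr]
    exact e.hausdorffMeasure_preimage 2 _
  rw [h2] at h1
  refine h1.trans (mul_le_mul' le_rfl (pow_le_pow_left₀ bot_le ?_ 2))
  refine iSup₂_le fun x hx => iSup₂_le fun y hy => ?_
  have hx' : x + c ∈ frontier K := by
    rw [hfr] at hx
    exact hx
  have hy' : y + c ∈ frontier K := by
    rw [hfr] at hy
    exact hy
  refine le_trans ?_ (le_iSup₂_of_le (f := fun x (_ : x ∈ frontier K) => ⨆ y ∈ frontier K, pl (frontier K) x y) (x + c) hx'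
    (le_iSup₂ (f := fun y (_ : y ∈ frontier K) => pl (frontier K) (x + c) y) (y + c) hy'))
  have h3 := Pool.Agent.H47F.pl_map (S := frontier K) (T := frontier K') (f := fun z => z - c) one_ne_zero
    (LipschitzWith.of_dist_le_mul fun a b => by simp) (by
      intro z hz
      rw [hfr]
      show z - c + c ∈ frontier K
      simpa using hz) (x + c) (y + c)
  simp only [add_sub_cancel_right, ENNReal.coe_one, one_mul] at h3
  exact h3

end ALX
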