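import Pool.Agent.Lib.ALX.B12

/-!
# ALX, chunk N01 (M): a ray is determined by its direction: lists of equal length

PROOF: induction on `l` (via `Ray`), generalizing `l'`. `[a0]`: inv_one. Step: `l = b :: a :: c`, `l' = b' :: a' :: c'`; by induction `a :: c = a' :: c'` and the entry times `t0` agree. Let `t1, t1'` be
the crossing times, `S = (chT n (a :: c)).symm`. If `t1 < t1'`: the point `S (q + t1 • u)` is strictly between `S (q + t0 • u)` and `S (q + t1' • u)` (all in `Pt n`, B12), and `lf b = 1` there, so
`lf b = 1` also at `S (q + t0 • u)` (affine function `≤ 1` with value 1 in the interior of the segment), a contradiction to B12 (`b ∉ a :: c`). The same for `t1' < t1` with `b'`. So `t1 = t1'`, and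
`{a, b} = {a, b'}` with `b, b' ≠ a` gives `b = b'`.
-/

open Real MeasureTheory Filter Topology

namespace ALX

open H47A (E3 cross3 det3 pl)

variable {A : Type} [Fintype A] [DecidableEq A] {n : A → E3}

variable {a0 : A} {q u : E3}

/-- A functional with value 1 at a later point of the line is not 1 before the end. -/
theorem N01_key (hG : Gn n) (hq : At n q {a0}) (hu : Dir n a0 u) {a b : A} {c : List A} {t t1 s : ℝ} (h : Ray n a0 q u (a :: c) t)
    (hb : b ∉ a :: c) (ht : t < t1) (hs : t1 < s) (h1 : lf n b ((chT n (a :: c)).symm (q + t1 • u)) = 1)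
    (h2 : (chT n (a :: c)).symm (q + s • u) ∈ Pt n) : False := by
  have h3 := (h.point hG hq hu).2.2.1 b hb
  have h4 := h2 b
  have hst : 0 < s - t := by linarith
  have e : q + t1 • u = AffineMap.lineMap (q + t • u) (q + s • u) ((t1 - t) / (s - t)) := by
    rw [AffineMap.lineMap_apply_module]
    have e1 : (1 - (t1 - t) / (s - t)) • (q + t • u) + ((t1 - t) / (s - t)) • (q + s • u) =
        q + ((1 - (t1 - t) / (s - t)) * t + ((t1 - t) / (s - t)) * s) • u := by module
    rw [e1]
    have e2 : (1 - (t1 - t) / (s - t)) * t + ((t1 - t) / (s - t)) * s = t1 := by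
      field_simp
      ring
    rw [e2]
  have e2 : (chT n (a :: c)).symm (q + t1 • u) = AffineMap.lineMap ((chT n (a :: c)).symm (q + t • u))
      ((chT n (a :: c)).symm (q + s • u)) ((t1 - t) / (s - t)) := by
    rw [e]
    exact AffineEquiv.apply_lineMap (chT n (a :: c)).symm.toAffineEquiv _ _ _
  rw [e2, lf_line] at h1
  have hτ : 0 < (t1 - t) / (s - t) := div_pos (by linarith) hst
  have hτ1 : (t1 - t) / (s - t) < 1 := by
    rw [div_lt_one hst]
    linarith
  nlinarith [mul_pos (sub_pos.2 hτ1) (sub_pos.2 h3), mul_nonneg hτ.le (sub_nonneg.2 h4)]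

theorem ray_eq (hG : Gn n) (hq : At n q {a0}) (hu : Dir n a0 u) {l l' : List A} {t t' : ℝ} (h : Ray n a0 q u l t) (h' : Ray n a0 q u l' t')
    (hlen : l.length = l'.length) : l = l' ∧ t = t' := by
  induction l generalizing l' t t' with
  | nil =>
    obtain ⟨a, c, h1⟩ := h.ne_nil
    exact absurd h1 (List.cons_ne_nil a c).symm
  | cons b l ih =>
    obtain ⟨b', c', rfl⟩ := h'.ne_nil
    rcases l with _ | ⟨a, c⟩
    · rcases c' with _ | ⟨a', c'⟩
      · obtain ⟨e1, e2⟩ := h.inv_one
        obtain ⟨e3, e4⟩ := h'.inv_one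
        exact ⟨by rw [e1, e3], by rw [e2, e4]⟩
      · simp at hlen
    · rcases c' with _ | ⟨a', c'⟩
      · simp at hlen
      · obtain ⟨t0, r1, r2, r3, r4⟩ := h.inv
        obtain ⟨t0', r1', r2', r3', r4'⟩ := h'.inv
        obtain ⟨e1, e2⟩ := ih r1 r1' (by simpa using hlen)
        subst e2
        injection e1 with e3 e4
        subst e3
        subst e4
        have ht : t = t' := by
          rcases lt_trichotomy t t' with hlt | heq | hgt
          · exact (N01_key hG hq hu r1 r2 r3 hlt r4.two.2.2 r4'.1).elim
          · exact heq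
          · exact (N01_key hG hq hu r1 r2' r3' hgt r4'.two.2.2 r4.1).elim
        subst ht
        refine ⟨?_, rfl⟩
        have hb : b ∈ ({a, b'} : Finset A) := by
          rw [← r4'.2, r4.2]
          simp
        rcases Finset.mem_insert.1 hb with h1 | h1
        · exact absurd (h1 ▸ List.mem_cons_self) r2
        · rw [Finset.mem_singleton.1 h1]


end ALX
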