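import Pool.Agent.Lib.ALX.N01

/-!
# ALX, chunk N02 (S/M): a longer ray continues a shorter one

PROOF: induction on `Ray l'`: `l' = b' :: a' :: c'` (it is longer than `l`, so not a singleton), `Ray (a' :: c') t''`, `t'' < t'`. If `(a' :: c').length = l.length`: N01, `b = b'`, `t1 = t'`. Otherwise
the induction hypothesis gives `t1 ≤ t'' < t'`.
-/

open Real MeasureTheory Filter Topology

namespace ALX

open H47A (E3 cross3 det3 pl)

variable {A : Type} [Fintype A] [DecidableEq A] {n : A → E3}

variable {a0 : A} {q u : E3}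

theorem ray_prefix (hG : Gn n) (hq : At n q {a0}) (hu : Dir n a0 u) {l l' : List A} {t t' : ℝ} (h : Ray n a0 q u l t) (h' : Ray n a0 q u l' t')
    (hlen : l.length < l'.length) : ∃ b t1, Ray n a0 q u (b :: l) t1 ∧ t1 ≤ t' := by
  induction l' generalizing t' with
  | nil => simp at hlen
  | cons b' l' ih =>
    rcases l' with _ | ⟨a', c'⟩
    · obtain ⟨a, c, rfl⟩ := h.ne_nil
      simp at hlen
    · obtain ⟨t'', r1, r2, r3, r4⟩ := h'.inv
      rcases Nat.lt_or_ge l.length (a' :: c').length with h1 | h1
      · obtain ⟨b, t1, e1, e2⟩ := ih r1 h1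
        exact ⟨b, t1, e1, e2.trans r3.le⟩
      · have h2 : l.length = (a' :: c').length := by
          have h3 : (b' :: a' :: c').length = (a' :: c').length + 1 := rfl
          omega
        obtain ⟨e1, e2⟩ := ray_eq hG hq hu h r1 h2
        exact ⟨b', t', e1 ▸ h', le_rfl⟩


end ALX
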