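import Pool.Agent.Lib.ALX.N02

/-!
# ALX, chunk N03 (M): the point and the list of a path are unique

PROOF. Let `l = a :: c`, `l' = a' :: c'` with entry times `t, t' < r`. Equal lengths: N01 gives equal lists, and `x = (chT n l).symm (q + r • u) = y`. If `l` is shorter: N02 gives `Ray (b :: a :: c) t1` with
`t1 ≤ t' < r`; with `S = (chT n (a :: c)).symm` the point `S (q + t1 • u)` (where `lf b = 1`) is strictly between `S (q + t • u)` (entry, B12) and `S (q + r • u) = x ∈ Fc n a`, so `lf b = 1` at the entry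
point, a contradiction to B12. Symmetric if `l'` is shorter.
-/

open Real MeasureTheory Filter Topology

namespace ALX

open H47A (E3 cross3 det3 pl)

variable {A : Type} [Fintype A] [DecidableEq A] {n : A → E3}

variable {a0 : A} {q u : E3}

theorem N03_aux (hG : Gn n) (hq : At n q {a0}) (hu : Dir n a0 u) {x y : E3} {r : ℝ} {l l' : List A} (h : ReachL n a0 q u x r l)
    (h' : ReachL n a0 q u y r l') : ¬ l.length < l'.length := by
  intro hlen
  obtain ⟨a, c, t, rfl, r1, r2, r3, r4⟩ := h
  obtain ⟨a', c', t', e', r1', r2', r3', r4'⟩ := h'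
  obtain ⟨b, t1, k1, k2⟩ := ray_prefix hG hq hu r1 r1' hlen
  obtain ⟨t0, s1, s2, s3, s4⟩ := k1.inv
  refine N01_key hG hq hu s1 s2 s3 (k2.trans_lt r3') s4.two.2.2 ?_
  rw [← r4, AffineIsometryEquiv.symm_apply_apply]
  exact r2.1

theorem reach_unique (hG : Gn n) (hq : At n q {a0}) (hu : Dir n a0 u) {x y : E3} {r : ℝ} {l l' : List A} (h : ReachL n a0 q u x r l)
    (h' : ReachL n a0 q u y r l') : l = l' ∧ x = y := by
  have h1 := N03_aux hG hq hu h h'
  have h2 := N03_aux hG hq hu h' h
  have h3 : l.length = l'.length := by omega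
  obtain ⟨a, c, t, rfl, r1, r2, r3, r4⟩ := h
  obtain ⟨a', c', t', rfl, r1', r2', r3', r4'⟩ := h'
  obtain ⟨e1, -⟩ := ray_eq hG hq hu r1 r1' h3
  refine ⟨e1, ?_⟩
  rw [← e1, ← r4] at r4'
  exact ((chT n (a :: c)).injective r4').symm


end ALX
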