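import Pool.Agent.Lib.ALX.A11
import Pool.Agent.Lib.ALX.A13

/-!
# ALX, chunk N05 (S/M): the first segment of a shortest path

PROOF: A13 isMin_good for `x, y`: `z = p 1`, `b = a 0`; A11 cut with `i = 1, j = k + 1` and `i = 0`.
-/

open Real MeasureTheory Filter Topology

namespace ALX

open H47A (E3 cross3 det3 pl)

variable {A : Type} [Fintype A] [DecidableEq A] {n : A → E3}

theorem first_seg (h : Gn n) {x y : E3} (hx : x ∈ bd n) (hy : y ∈ bd n) (hxy : x ≠ y) :
    ∃ b z, x ∈ Fc n b ∧ z ∈ Fc n b ∧ z ≠ x ∧ dl n x y = ‖x - z‖ + dl n z y := by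
  obtain ⟨k, a, p, hm, hg⟩ := isMin_good h hx hy hxy
  refine ⟨a 0, p 1, ?_, hm.right 0 (Nat.zero_le k), ?_, ?_⟩
  · have h1 := hm.left 0 (Nat.zero_le k)
    rwa [hm.first] at h1
  · intro he
    have h1 := hg 0 (Nat.zero_le k)
    rw [hm.first] at h1
    exact h1 he.symm
  · have h1 := IsMin.cut h hm (i := 1) (j := k + 1) (by omega) le_rfl
    rw [hm.last] at h1
    rw [← hm.len, h1, Finset.range_eq_Ico, Finset.sum_eq_sum_Ico_succ_bot (Nat.succ_pos k), hm.first]


end ALX
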