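import Pool.Agent.Lib.ALX.N05
import Pool.Agent.Lib.ALX.B10

/-!
# ALX, chunk N06 (S/M): a shortest path does not go through a vertex

PROOF. First segments from `x` to `y`: `z ∈ Fc n b`, and from `x` to `q` (dl_comm): `w ∈ Fc n a`, `dl x q = ‖x - w‖ + dl w q`. From the triangle inequality
`dl q y ≤ dl q w + dl w z + dl z y` and `hd`: `dl w z ≥ ‖w - x‖ + ‖x - z‖`, so equality; B10 local_reg.
-/

open Real MeasureTheory Filter Topology

namespace ALX

open H47A (E3 cross3 det3 pl)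

variable {A : Type} [Fintype A] [DecidableEq A] {n : A → E3}

theorem inner_reg (h : Gn n) {q x y : E3} (hq : q ∈ bd n) (hx : x ∈ bd n) (hy : y ∈ bd n) (hqx : q ≠ x) (hxy : x ≠ y)
    (hd : dl n q y = dl n q x + dl n x y) : x ∉ Vs n := by
  obtain ⟨b, z, hxb, hzb, hzx, h1⟩ := first_seg h hx hy hxy
  obtain ⟨a, w, hxa, hwa, hwx, h2⟩ := first_seg h hx hq (Ne.symm hqx)
  have hz : z ∈ bd n := Fc_sub_bd b hzb
  have hw : w ∈ bd n := Fc_sub_bd a hwa
  have t1 := dl_tri h hq hw hy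
  have t2 := dl_tri h hw hz hy
  have t3 := dl_tri h hw hx hz
  rw [dl_Fc h hwa hxa, dl_Fc h hxb hzb] at t3
  rw [dl_comm x q] at h2
  rw [dl_comm w q, norm_sub_rev x w] at h2
  have hd' : dl n w z = ‖w - x‖ + ‖x - z‖ := by
    refine le_antisymm t3 ?_
    linarith
  exact (local_reg h hwa hxa hzb hxb hwx hzx hd').1


end ALX
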