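import Pool.Agent.Lib.ALX.P17

/-!
# ALX, chunk P18 (S/M): directions of a facet plane

PROOF. `dir_angle`: P16 fr_expand, the coefficients `(s, t)` satisfy `s^2 + t^2 = 1`, `θ = Complex.arg ⟨s, t⟩`. `dr_inj_Ioc`: cos and sin agree (inner products with the frame), so the angles agree modulo `2 π`
(Complex.arg_cos_add_sin_mul_I or Real.Angle). `em_polar`: Complex.exp_ofReal_mul_I_re/im.
-/

open Real MeasureTheory Filter Topology

namespace ALX

open H47A (E3 cross3 det3 pl)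

variable {A : Type} [Fintype A] [DecidableEq A] {n : A → E3}

theorem dr_dir (h : Gn n) (a : A) (θ : ℝ) : Dir n a (dr n a θ) := by
  have hf := fr_spec h a
  refine ⟨?_, ?_⟩
  · have h1 := fr_norm h a (Real.cos θ) (Real.sin θ)
    rw [Real.cos_sq_add_sin_sq] at h1
    have h2 : ‖dr n a θ‖ ^ 2 = 1 := h1
    nlinarith [norm_nonneg (dr n a θ)]
  · show inner ℝ (n a) (Real.cos θ • (fr n a).1 + Real.sin θ • (fr n a).2) = (0 : ℝ)
    rw [inner_add_right, inner_smul_right, inner_smul_right, hf.o1, hf.o2, mul_zero, mul_zero, add_zero]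

theorem dir_angle (h : Gn n) {a : A} {u : E3} (hu : Dir n a u) : ∃ θ ∈ Set.Ioc (-π) π, u = dr n a θ := by
  have h1 := fr_expand h hu.2
  obtain ⟨s, hs⟩ : ∃ s : ℝ, s = inner ℝ (fr n a).1 u := ⟨_, rfl⟩
  obtain ⟨t, ht⟩ : ∃ t : ℝ, t = inner ℝ (fr n a).2 u := ⟨_, rfl⟩
  rw [← hs, ← ht] at h1
  have h2 := fr_norm h a s t
  rw [← h1, hu.1] at h2
  have h3 : ‖(⟨s, t⟩ : ℂ)‖ = 1 := by
    have h4 : ‖(⟨s, t⟩ : ℂ)‖ ^ 2 = 1 := by
      rw [Complex.sq_norm, Complex.normSq_mk]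
      nlinarith
    nlinarith [norm_nonneg (⟨s, t⟩ : ℂ)]
  have h5 : (⟨s, t⟩ : ℂ) ≠ 0 := by
    intro h0
    rw [h0, norm_zero] at h3
    exact zero_ne_one h3
  refine ⟨Complex.arg ⟨s, t⟩, Complex.arg_mem_Ioc _, ?_⟩
  show u = Real.cos (Complex.arg ⟨s, t⟩) • (fr n a).1 + Real.sin (Complex.arg ⟨s, t⟩) • (fr n a).2
  rw [Complex.cos_arg h5, Complex.sin_arg, h3, div_one, div_one]
  exact h1

theorem dr_inj_Ioc (h : Gn n) {a : A} {θ θ' : ℝ} (hθ : θ ∈ Set.Ioc (-π) π) (hθ' : θ' ∈ Set.Ioc (-π) π) (he : dr n a θ = dr n a θ') : θ = θ' := by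
  have hf := fr_spec h a
  have h1 : ∀ τ : ℝ, inner ℝ (fr n a).1 (dr n a τ) = Real.cos τ := by
    intro τ
    show inner ℝ (fr n a).1 (Real.cos τ • (fr n a).1 + Real.sin τ • (fr n a).2) = Real.cos τ
    rw [inner_add_right, inner_smul_right, inner_smul_right, hf.o12, real_inner_self_eq_norm_sq, hf.n1]
    ring
  have h2 : ∀ τ : ℝ, inner ℝ (fr n a).2 (dr n a τ) = Real.sin τ := by
    intro τ
    show inner ℝ (fr n a).2 (Real.cos τ • (fr n a).1 + Real.sin τ • (fr n a).2) = Real.sin τ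
    rw [inner_add_right, inner_smul_right, inner_smul_right, real_inner_comm, hf.o12, real_inner_self_eq_norm_sq, hf.n2]
    ring
  rw [← Complex.arg_cos_add_sin_mul_I hθ, ← Complex.arg_cos_add_sin_mul_I hθ', ← Complex.ofReal_cos, ← Complex.ofReal_sin,
    ← Complex.ofReal_cos, ← Complex.ofReal_sin, ← h1, ← h2, he, h1, h2]

theorem em_polar (a : A) (z : ℂ) (r θ : ℝ) : em n a (z + r * Complex.exp (θ * Complex.I)) = em n a z + r • dr n a θ := by
  rw [em_add, Complex.re_ofReal_mul, Complex.im_ofReal_mul, Complex.exp_ofReal_mul_I_re, Complex.exp_ofReal_mul_I_im]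
  show _ = em n a z + r • (Real.cos θ • (fr n a).1 + Real.sin θ • (fr n a).2)
  rw [smul_add, smul_smul, smul_smul]

end ALX
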