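import Pool.Agent.Lib.ALX.P12
import Pool.Agent.Lib.ALX.P18

/-!
# ALX, chunk P19 (M): unfoldings in the charts

PROOF. The linear part `R` of `T` maps `fr n a .1` to a direction of the plane of `a0`, say `R (fr n a).1 = s • (fr n a0).1 + t • (fr n a0).2`, `s^2 + t^2 = 1` (P12 dir, P16). Since
`(fr n a).2 = cross3 (nu n a) (fr n a).1` (from `ori`, `IsFr`), `R (fr n a).2 = cross3 (nu n a0) (R (fr n a).1) = -t • (fr n a0).1 + s • (fr n a0).2`. So `c = s + t i`, and `w` is the coordinate of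
`T (em n a 0)` (P17 em_surj, em_add).
`vol_un`: the preimage of `T '' S` under `em n a0` is the image of `em n a ⁻¹' S` under the rigid motion `z ↦ c * z + w` of `ℂ` (points of the plane of `a0` come from points of the plane of `a`), which
preserves the volume (LinearIsometryEquiv.measurePreserving / rotation, translation).
-/

open Real MeasureTheory Filter Topology

namespace ALX

open H47A (E3 cross3 det3 pl)

variable {A : Type} [Fintype A] [DecidableEq A] {n : A → E3}

theorem p19_lin (u v w : E3) (s t : ℝ) : cross3 u (s • v + t • w) = s • cross3 u v + t • cross3 u w := by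
  apply H47A.evec_ext <;> simp only [PiLp.add_apply, PiLp.smul_apply, smul_eq_mul, H47A.evec_c0,
    H47A.evec_c1, H47A.evec_c2] <;> ring

theorem p19_f2 (h : Gn n) (a : A) : cross3 (nu n a) (fr n a).1 = (fr n a).2 := by
  have hf := fr_spec h a
  have h1 := p16_cross hf.n2 hf.n1 (by rw [real_inner_comm]; exact hf.o12)
  rw [← hf.ori, H47A.cross3_swap, H47A.cross3_swap (fr n a).2 (fr n a).1, H47A.cross3_neg_right, neg_neg]
  exact h1

theorem p19_f1 (h : Gn n) (a : A) : cross3 (nu n a) (fr n a).2 = -(fr n a).1 := by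
  have hf := fr_spec h a
  have h1 := p16_cross hf.n1 hf.n2 hf.o12
  rw [← hf.ori, H47A.cross3_swap, h1]

theorem IsUn.chart (h : Gn n) {a a0 : A} {T : E3 ≃ᵃⁱ[ℝ] E3} (hT : IsUn n a a0 T) :
    ∃ c w : ℂ, ‖c‖ = 1 ∧ ∀ z, T (em n a z) = em n a0 (c * z + w) := by
  have hf := fr_spec h a
  have hf0 := fr_spec h a0
  set R := T.linearIsometryEquiv with hR
  have hlin : ∀ x y : E3, T (x + y) = T x + R y := by
    intro x y
    have h1 := AffineIsometryEquiv.map_vadd T x y
    rw [vadd_eq_add, vadd_eq_add] at h1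
    rw [add_comm, h1, add_comm]
  obtain ⟨w, hw⟩ := em_surj h (hT.plane _ (em_lf h a 0))
  have hdir : inner ℝ (n a0) (R (fr n a).1) = (0 : ℝ) := by
    rw [← nu_inner_zero h a0, ← hT.nor, LinearIsometryEquiv.inner_map_map]
    exact (nu_inner_zero h a _).2 hf.o1
  have hex := fr_expand h hdir
  obtain ⟨s, hs⟩ : ∃ s : ℝ, s = inner ℝ (fr n a0).1 (R (fr n a).1) := ⟨_, rfl⟩
  obtain ⟨t, ht⟩ : ∃ t : ℝ, t = inner ℝ (fr n a0).2 (R (fr n a).1) := ⟨_, rfl⟩
  rw [← hs, ← ht] at hex
  have hR2 : R (fr n a).2 = (-t) • (fr n a0).1 + s • (fr n a0).2 := by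
    rw [← p19_f2 h a, hT.ori, hT.nor, hex, p19_lin, p19_f2 h, p19_f1 h, smul_neg, neg_smul, add_comm]
  have hst : s ^ 2 + t ^ 2 = 1 := by
    rw [← fr_norm h a0, ← hex, LinearIsometryEquiv.norm_map, hf.n1, one_pow]
  refine ⟨⟨s, t⟩, w, ?_, fun z => ?_⟩
  · rw [Complex.norm_def, Complex.normSq_mk, ← sq, ← sq, hst, Real.sqrt_one]
  · have e1 : em n a z = em n a 0 + (z.re • (fr n a).1 + z.im • (fr n a).2) := by
      rw [← em_add, zero_add]
    have e2 : em n a0 (⟨s, t⟩ * z + w) = em n a0 w +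
        ((⟨s, t⟩ * z : ℂ).re • (fr n a0).1 + (⟨s, t⟩ * z : ℂ).im • (fr n a0).2) := by
      rw [add_comm, ← em_add]
    rw [e1, hlin, ← hw, e2, Complex.mul_re, Complex.mul_im, map_add, map_smul, map_smul, hR2, hex]
    congr 1
    simp only [smul_add, smul_smul, sub_smul, add_smul, neg_smul, smul_neg]
    rw [mul_comm z.re s, mul_comm z.re t, mul_comm z.im t, mul_comm z.im s]
    abel

theorem vol_un (h : Gn n) {a a0 : A} {T : E3 ≃ᵃⁱ[ℝ] E3} (hT : IsUn n a a0 T) (S : Set E3) :
    volume (em n a0 ⁻¹' (T '' S)) = volume (em n a ⁻¹' S) := by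
  obtain ⟨c, w, hc, hcw⟩ := hT.chart h
  obtain ⟨c', hc'⟩ : ∃ c' : Circle, (c' : ℂ) = c := ⟨⟨c, mem_sphere_zero_iff_norm.2 hc⟩, rfl⟩
  have hmp : MeasurePreserving (((rotation c').toMeasurableEquiv).trans (MeasurableEquiv.addRight w))
      (volume : Measure ℂ) volume := by
    have h1 := (rotation c').measurePreserving
    have h2 := measurePreserving_add_right (volume : Measure ℂ) w
    exact h2.comp h1
  rw [← hmp.measure_preimage_equiv]
  congr 1
  ext z
  have h3 : (((rotation c').toMeasurableEquiv).trans (MeasurableEquiv.addRight w)) z = c * z + w := by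
    rw [← hc']
    rfl
  rw [Set.mem_preimage, Set.mem_preimage, h3, ← hcw, T.injective.mem_set_image, Set.mem_preimage]

end ALX
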