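import Pool.Agent.Lib.ALX.P19
import Pool.Agent.Lib.H47A.EKap1

/-!
# ALX, chunk P22 (M/L): the area of a sector

PROOF. Choose `θ0` with `E = ‖E‖ • dr n a θ0` (P18). The rotation of the chart by `-θ0` about the coordinate of `v` preserves the area, so one may assume `θ0 = 0`; then `F = ‖F‖ • dr θ1`,
`θ1 ∈ (-π, π]`, `θ1 ≠ 0, π` (independent), `angle E F = |θ1|`. For `θ1 > 0` the set corresponds to `{z | ‖z‖ ≤ ε ∧ 0 ≤ arg z ≤ θ1}` (for `z = r e^(iθ)`: `z = l + m e^(iθ1)` with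
`l = r sin (θ1 - θ) / sin θ1`, `m = r sin θ / sin θ1`; both `≥ 0` iff `0 ≤ θ ≤ θ1`), area H47A.sector_area (H47A/EKap1); for `θ1 < 0` reflect (complex conjugation preserves the area) or use the
interval `[θ1, 0]` of the same lemma. Alternative without `arg`: H47A.sector_area for `θ1` and linearity.
-/

open Real MeasureTheory Filter Topology

namespace ALX

open H47A (E3 cross3 det3 pl)

variable {A : Type} [Fintype A] [DecidableEq A] {n : A → E3}

/-- The sector `0 ≤ arg ≤ arg f`. -/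
theorem p22_set {f : ℂ} (hf : 0 < f.im) (R : ℝ) : {z : ℂ | ‖z‖ ≤ R ∧ ∃ l m : ℝ, 0 ≤ l ∧ 0 ≤ m ∧ z = l + m * f} =
    {z : ℂ | ‖z‖ ≤ R ∧ 0 ≤ Complex.arg z ∧ Complex.arg z ≤ Complex.arg f} := by
  have hθ0 : 0 < Complex.arg f := by
    rcases lt_or_eq_of_le (Complex.arg_nonneg_iff.2 hf.le) with h | h
    · exact h
    · have := Complex.norm_mul_sin_arg f
      rw [← h, Real.sin_zero, mul_zero] at this
      exact absurd this hf.ne
  have hθπ : Complex.arg f < π := by
    rcases lt_or_eq_of_le (Complex.arg_le_pi f) with h | h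
    · exact h
    · have := Complex.norm_mul_sin_arg f
      rw [h, Real.sin_pi, mul_zero] at this
      exact absurd this hf.ne
  have hs : 0 < Real.sin (Complex.arg f) := Real.sin_pos_of_pos_of_lt_pi hθ0 hθπ
  have hfn : 0 < ‖f‖ := norm_pos_iff.2 fun h => by rw [h] at hf; simp at hf
  have hfr := Complex.norm_mul_cos_arg f
  have hfi := Complex.norm_mul_sin_arg f
  ext z
  simp only [Set.mem_setOf_eq]
  refine and_congr_right fun _ => ?_
  have hzr := Complex.norm_mul_cos_arg z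
  have hzi := Complex.norm_mul_sin_arg z
  constructor
  · rintro ⟨l, m, hl, hm, hz⟩
    have hre : z.re = l + m * f.re := by rw [hz]; simp
    have him : z.im = m * f.im := by rw [hz]; simp
    have h1 : 0 ≤ Complex.arg z := by
      rw [Complex.arg_nonneg_iff, him]
      positivity
    refine ⟨h1, ?_⟩
    by_contra hc
    have hc : Complex.arg f < Complex.arg z := not_le.1 hc
    have hz0 : 0 < ‖z‖ := by
      refine norm_pos_iff.2 fun h => ?_
      rw [h, Complex.arg_zero] at hc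
      linarith
    have h2 : 0 < Real.sin (Complex.arg z - Complex.arg f) :=
      Real.sin_pos_of_pos_of_lt_pi (by linarith) (by linarith [Complex.arg_le_pi z])
    have h3 : ‖z‖ * ‖f‖ * Real.sin (Complex.arg z - Complex.arg f) = z.im * f.re - z.re * f.im := by
      rw [Real.sin_sub, ← hzr, ← hzi, ← hfr, ← hfi]
      simp only [Complex.arg, Complex.norm_mul_cos_arg] at *
      ring
    have h4 : z.im * f.re - z.re * f.im = -(l * f.im) := by
      rw [hre, him]
      ring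
    have h5 : 0 < ‖z‖ * ‖f‖ * Real.sin (Complex.arg z - Complex.arg f) := by positivity
    have h6 : 0 ≤ l * f.im := by positivity
    linarith
  · rintro ⟨h1, h2⟩
    refine ⟨‖z‖ * Real.sin (Complex.arg f - Complex.arg z) / Real.sin (Complex.arg f),
      ‖z‖ * Real.sin (Complex.arg z) / (‖f‖ * Real.sin (Complex.arg f)), ?_, ?_, ?_⟩
    · have : 0 ≤ Real.sin (Complex.arg f - Complex.arg z) :=
        Real.sin_nonneg_of_nonneg_of_le_pi (by linarith) (by linarith)
      positivity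
    · have : 0 ≤ Real.sin (Complex.arg z) := Real.sin_nonneg_of_nonneg_of_le_pi h1 (Complex.arg_le_pi z)
      positivity
    · apply Complex.ext
      · simp only [Complex.add_re, Complex.mul_re, Complex.ofReal_re, Complex.ofReal_im, zero_mul, sub_zero]
        rw [← hzr, ← hfr, Real.sin_sub]
        field_simp
        ring
      · simp only [Complex.add_im, Complex.mul_im, Complex.ofReal_re, Complex.ofReal_im, zero_mul, add_zero, zero_add]
        rw [← hzi, ← hfi]
        field_simp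

theorem p22_pos {f : ℂ} (hf : 0 < f.im) {R : ℝ} (hR : 0 ≤ R) :
    volume {z : ℂ | ‖z‖ ≤ R ∧ ∃ l m : ℝ, 0 ≤ l ∧ 0 ≤ m ∧ z = l + m * f} =
      ENNReal.ofReal (Real.arccos (f.re / ‖f‖) * R ^ 2 / 2) := by
  rw [p22_set hf R, H47A.sector_area (by linarith [Real.pi_pos]) (Complex.arg_nonneg_iff.2 hf.le) (Complex.arg_le_pi f) hR,
    sub_zero]
  congr 3
  have hf0 : f ≠ 0 := fun h => by rw [h] at hf; simp at hf
  rw [← Complex.cos_arg hf0, Real.arccos_cos (Complex.arg_nonneg_iff.2 hf.le) (Complex.arg_le_pi f)]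

theorem p22_isom (L : ℂ ≃ₗᵢ[ℝ] ℂ) (S : Set ℂ) : volume (L ⁻¹' S) = volume S :=
  L.measurePreserving.measure_preimage_equiv (f := L.toHomeomorph.toMeasurableEquiv) S

theorem p22_ne {f : ℂ} (hf : f.im ≠ 0) {R : ℝ} (hR : 0 ≤ R) :
    volume {z : ℂ | ‖z‖ ≤ R ∧ ∃ l m : ℝ, 0 ≤ l ∧ 0 ≤ m ∧ z = l + m * f} =
      ENNReal.ofReal (Real.arccos (f.re / ‖f‖) * R ^ 2 / 2) := by
  rcases lt_or_gt_of_ne hf with h | h
  · have h1 : 0 < (starRingEnd ℂ f).im := by
      rw [Complex.conj_im]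
      linarith
    have h2 := p22_pos h1 hR
    have h3 : {z : ℂ | ‖z‖ ≤ R ∧ ∃ l m : ℝ, 0 ≤ l ∧ 0 ≤ m ∧ z = l + m * f} =
        Complex.conjLIE ⁻¹' {z : ℂ | ‖z‖ ≤ R ∧ ∃ l m : ℝ, 0 ≤ l ∧ 0 ≤ m ∧ z = l + m * starRingEnd ℂ f} := by
      ext z
      simp only [Set.mem_setOf_eq, Set.mem_preimage, Complex.conjLIE_apply, RCLike.norm_conj]
      refine and_congr_right fun _ => ?_
      constructor
      · rintro ⟨l, m, hl, hm, hz⟩
        exact ⟨l, m, hl, hm, by rw [hz]; simp⟩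
      · rintro ⟨l, m, hl, hm, hz⟩
        refine ⟨l, m, hl, hm, ?_⟩
        have := congrArg (starRingEnd ℂ) hz
        simpa using this
    rw [h3, p22_isom, h2, Complex.conj_re, RCLike.norm_conj]
  · exact p22_pos h hR

theorem p22_cone {e f : ℂ} (h : e.re * f.im - e.im * f.re ≠ 0) {R : ℝ} (hR : 0 ≤ R) :
    volume {z : ℂ | ‖z‖ ≤ R ∧ ∃ l m : ℝ, 0 ≤ l ∧ 0 ≤ m ∧ z = l * e + m * f} =
      ENNReal.ofReal (Real.arccos ((e.re * f.re + e.im * f.im) / (‖e‖ * ‖f‖)) * R ^ 2 / 2) := by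
  have he : e ≠ 0 := by
    rintro rfl
    simp at h
  have hen : 0 < ‖e‖ := norm_pos_iff.2 he
  set c : ℂ := starRingEnd ℂ e * ((‖e‖⁻¹ : ℝ) : ℂ) with hc
  have hcn : ‖c‖ = 1 := by
    rw [hc, norm_mul, RCLike.norm_conj, Complex.norm_real, Real.norm_eq_abs, abs_of_pos (by positivity)]
    field_simp
  have hce : c * e = ((‖e‖ : ℝ) : ℂ) := by
    have h1 : starRingEnd ℂ e * e = ((‖e‖ ^ 2 : ℝ) : ℂ) := by
      rw [← Complex.normSq_eq_conj_mul_self, Complex.normSq_eq_norm_sq]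
    rw [hc, mul_right_comm, h1, ← Complex.ofReal_mul]
    congr 1
    field_simp
  have hcr : (c * f).re = (e.re * f.re + e.im * f.im) / ‖e‖ := by
    rw [hc]
    simp only [Complex.mul_re, Complex.mul_im, Complex.conj_re, Complex.conj_im, Complex.ofReal_re, Complex.ofReal_im]
    field_simp
    ring
  have hci : (c * f).im = (e.re * f.im - e.im * f.re) / ‖e‖ := by
    rw [hc]
    simp only [Complex.mul_re, Complex.mul_im, Complex.conj_re, Complex.conj_im, Complex.ofReal_re, Complex.ofReal_im]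
    field_simp
    ring
  have hcim : (c * f).im ≠ 0 := by
    rw [hci]
    exact div_ne_zero h hen.ne'
  have h2 := p22_ne hcim hR
  have hfn : ‖c * f‖ = ‖f‖ := by rw [norm_mul, hcn, one_mul]
  have h3 : {z : ℂ | ‖z‖ ≤ R ∧ ∃ l m : ℝ, 0 ≤ l ∧ 0 ≤ m ∧ z = l * e + m * f} =
      (rotation ⟨c, mem_sphere_zero_iff_norm.2 hcn⟩) ⁻¹'
        {z : ℂ | ‖z‖ ≤ R ∧ ∃ l m : ℝ, 0 ≤ l ∧ 0 ≤ m ∧ z = l + m * (c * f)} := by
    ext z
    simp only [Set.mem_setOf_eq, Set.mem_preimage, rotation_apply, norm_mul, hcn, one_mul]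
    refine and_congr_right fun _ => ?_
    have hc0 : c ≠ 0 := fun h => by rw [h, norm_zero] at hcn; exact zero_ne_one hcn
    constructor
    · rintro ⟨l, m, hl, hm, hz⟩
      refine ⟨l * ‖e‖, m, by positivity, hm, ?_⟩
      rw [hz, Complex.ofReal_mul, ← hce]
      ring
    · rintro ⟨l, m, hl, hm, hz⟩
      refine ⟨l / ‖e‖, m, by positivity, hm, ?_⟩
      apply mul_left_cancel₀ hc0
      rw [hz, Complex.ofReal_div, mul_add, show c * ((l : ℂ) / ((‖e‖ : ℝ) : ℂ) * e) = (l : ℂ) / ((‖e‖ : ℝ) : ℂ) * (c * e) by ring,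
        hce, div_mul_cancel₀ _ (Complex.ofReal_ne_zero.2 hen.ne')]
      ring
  rw [h3, p22_isom, h2, hcr, hfn, div_div]

theorem sector_vol (h : Gn n) {a : A} {v E F : E3} (hv : lf n a v = 1) (hE : inner ℝ (n a) E = (0 : ℝ)) (hF : inner ℝ (n a) F = (0 : ℝ))
    (hEF : cross3 E F ≠ 0) {ε : ℝ} (hε : 0 ≤ ε) :
    volume (em n a ⁻¹' {x | ‖x - v‖ ≤ ε ∧ ∃ l m : ℝ, 0 ≤ l ∧ 0 ≤ m ∧ x - v = l • E + m • F}) =
      ENNReal.ofReal (InnerProductGeometry.angle E F * ε ^ 2 / 2) := by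
  have hfr := fr_spec h a
  set p := (fr n a).1 with hp
  set r := (fr n a).2 with hr
  have hpp : inner ℝ p p = (1 : ℝ) := by rw [real_inner_self_eq_norm_sq, hfr.n1]; norm_num
  have hrr : inner ℝ r r = (1 : ℝ) := by rw [real_inner_self_eq_norm_sq, hfr.n2]; norm_num
  have hpr : inner ℝ p r = (0 : ℝ) := hfr.o12
  have hrp : inner ℝ r p = (0 : ℝ) := by rw [real_inner_comm]; exact hpr
  set e : ℂ := ⟨inner ℝ p E, inner ℝ r E⟩ with he
  set f : ℂ := ⟨inner ℝ p F, inner ℝ r F⟩ with hf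
  have hE1 : E = e.re • p + e.im • r := fr_expand h hE
  have hF1 : F = f.re • p + f.im • r := fr_expand h hF
  have hinn : ∀ s t s' t' : ℝ, inner ℝ (s • p + t • r) (s' • p + t' • r) = s * s' + t * t' := by
    intro s t s' t'
    simp only [inner_add_left, inner_add_right, real_inner_smul_left, real_inner_smul_right, hpp, hrr, hpr, hrp]
    ring
  have hEn : ‖E‖ = ‖e‖ := by
    have h1 : ‖E‖ ^ 2 = ‖e‖ ^ 2 := by
      rw [← real_inner_self_eq_norm_sq, ← Complex.normSq_eq_norm_sq, Complex.normSq_apply]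
      conv_lhs => rw [hE1]
      exact hinn _ _ _ _
    exact (sq_eq_sq₀ (norm_nonneg _) (norm_nonneg _)).1 h1
  have hFn : ‖F‖ = ‖f‖ := by
    have h1 : ‖F‖ ^ 2 = ‖f‖ ^ 2 := by
      rw [← real_inner_self_eq_norm_sq, ← Complex.normSq_eq_norm_sq, Complex.normSq_apply]
      conv_lhs => rw [hF1]
      exact hinn _ _ _ _
    exact (sq_eq_sq₀ (norm_nonneg _) (norm_nonneg _)).1 h1
  have hEFi : inner ℝ E F = e.re * f.re + e.im * f.im := by
    conv_lhs => rw [hE1, hF1]
    exact hinn _ _ _ _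
  have hdet : e.re * f.im - e.im * f.re ≠ 0 := by
    intro h0
    apply hEF
    have h1 := H47A.cross3_norm E F
    have h2 : ‖e‖ ^ 2 = e.re * e.re + e.im * e.im := by rw [← Complex.normSq_eq_norm_sq, Complex.normSq_apply]
    have h3 : ‖f‖ ^ 2 = f.re * f.re + f.im * f.im := by rw [← Complex.normSq_eq_norm_sq, Complex.normSq_apply]
    rw [hEn, hFn, hEFi, h2, h3, show (e.re * e.re + e.im * e.im) * (f.re * f.re + f.im * f.im) - (e.re * f.re + e.im * f.im) ^ 2 =
      (e.re * f.im - e.im * f.re) ^ 2 by ring, h0] at h1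
    have h4 : ‖cross3 E F‖ = 0 := by
      have : ‖cross3 E F‖ ^ 2 = 0 := by rw [h1]; ring
      exact pow_eq_zero_iff (two_ne_zero) |>.1 this
    exact norm_eq_zero.1 h4
  obtain ⟨z0, hz0⟩ : ∃ z0, em n a z0 = v := by
    have h1 : v ∈ Set.range (em n a) := by rw [em_range h a]; exact hv
    exact h1
  have hem : ∀ z, em n a z - v = (z - z0).re • p + (z - z0).im • r := by
    intro z
    have h1 := em_add (n := n) a z0 (z - z0)
    rw [add_sub_cancel, hz0] at h1
    rw [h1, add_sub_cancel_left]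
  have hinj : ∀ s t s' t' : ℝ, s • p + t • r = s' • p + t' • r → s = s' ∧ t = t' := by
    intro s t s' t' h1
    have h2 := congrArg (fun x => inner ℝ p x) h1
    have h3 := congrArg (fun x => inner ℝ r x) h1
    simp only [inner_add_right, real_inner_smul_right, hpp, hrr, hpr, hrp] at h2 h3
    constructor <;> linarith
  have hset : em n a ⁻¹' {x | ‖x - v‖ ≤ ε ∧ ∃ l m : ℝ, 0 ≤ l ∧ 0 ≤ m ∧ x - v = l • E + m • F} =
      (fun z => z + (-z0)) ⁻¹' {z : ℂ | ‖z‖ ≤ ε ∧ ∃ l m : ℝ, 0 ≤ l ∧ 0 ≤ m ∧ z = l * e + m * f} := by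
    ext z
    simp only [Set.mem_preimage, Set.mem_setOf_eq]
    have h1 : ‖em n a z - v‖ = ‖z + -z0‖ := by
      rw [← hz0, em_norm h, sub_eq_add_neg]
    rw [h1]
    refine and_congr_right fun _ => ?_
    refine exists_congr fun l => exists_congr fun m => and_congr_right fun _ => and_congr_right fun _ => ?_
    rw [hem z]
    have h2 : l • E + m • F = (l * e.re + m * f.re) • p + (l * e.im + m * f.im) • r := by
      conv_lhs => rw [hE1, hF1]
      module
    rw [h2]
    constructor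
    · intro h3
      obtain ⟨h4, h5⟩ := hinj _ _ _ _ h3
      apply Complex.ext
      · rw [← sub_eq_add_neg, h4]; simp
      · rw [← sub_eq_add_neg, h5]; simp
    · intro h3
      rw [← sub_eq_add_neg] at h3
      rw [h3]
      simp
  rw [hset, measure_preimage_add_right, p22_cone hdet hε]
  unfold InnerProductGeometry.angle
  rw [hEFi, hEn, hFn]

end ALX
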