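import Pool.Agent.Lib.ALX.P04
import Pool.Agent.Lib.ALX.P05
import Pool.Agent.Lib.ALX.P21
import Pool.Agent.Lib.ALX.P22

/-!
# ALX, chunk P23 (M): the area of a small disc about a vertex

PROOF. For small `ε` the ball about `v` meets only the facets `a, b, c`, and `Fc n a ∩ closedBall v ε = {x | ‖x - v‖ ≤ ε ∧ ∃ l m ≥ 0, x - v = l • ed n a b c + m • ed n a c b}`: `⊆` is P05 cone; `⊇`: such an
`x` satisfies `lf a x = 1`, `lf b x ≤ 1`, `lf c x ≤ 1` (P05 ed_inner) and the other functionals are smaller than 1 near `v` (P04 near_lt). P21 ar_apply and P22 for the three facets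
(`cross3 (ed n a b c) (ed n a c b) ≠ 0`: H47A.cross3_cross-like, the inner products with `n b, n c` show independence); ENNReal.ofReal_add.
-/

open Real MeasureTheory Filter Topology

namespace ALX

open H47A (E3 cross3 det3 pl)

variable {A : Type} [Fintype A] [DecidableEq A] {n : A → E3}

theorem p23_bc (u v w x : E3) : inner ℝ (cross3 u v) (cross3 w x) =
    inner ℝ u w * inner ℝ v x - inner ℝ u x * inner ℝ v w := by
  simp only [H47A.inner3, H47A.evec_c0, H47A.evec_c1, H47A.evec_c2]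
  ring

theorem p23_ne (h : Gn n) {a b c : A} (hab : a ≠ b) (hbc : b ≠ c) (hac : a ≠ c) :
    cross3 (ed n a b c) (ed n a c b) ≠ 0 := by
  intro h0
  have h1 := p23_bc (ed n a b c) (ed n a c b) (n b) (n c)
  obtain ⟨-, e2, e3⟩ := ed_inner (n := n) a b c
  obtain ⟨-, f2, f3⟩ := ed_inner (n := n) a c b
  rw [h0, inner_zero_left, real_inner_comm (n b) (ed n a b c), real_inner_comm (n c) (ed n a c b),
    real_inner_comm (n c) (ed n a b c), real_inner_comm (n b) (ed n a c b), e2, e3, f3, zero_mul, zero_sub] at h1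
  have hd := h.three a b c hab hbc hac
  have hd2 := h.three a c b hac hbc.symm hab
  have h2 : (det3 (n a) (n b) (n c)) ^ 2 * (det3 (n a) (n c) (n b)) ^ 2 ≠ 0 := by positivity
  apply h2
  linarith

theorem p23_set (h : Gn n) {a b c : A} (hab : a ≠ b) (hbc : b ≠ c) (hac : a ≠ c) {v : E3} (hv : At n v {a, b, c})
    {δ : ℝ} (hδ : ∀ y, dist y v < δ → ∀ d, d ∉ ({a, b, c} : Finset A) → lf n d y < 1) {ε : ℝ} (hε : ε < δ) :
    Metric.closedBall v ε ∩ Fc n a =
      {x | ‖x - v‖ ≤ ε ∧ ∃ l m : ℝ, 0 ≤ l ∧ 0 ≤ m ∧ x - v = l • ed n a b c + m • ed n a c b} := by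
  ext x
  rw [Set.mem_inter_iff, Metric.mem_closedBall, dist_eq_norm, Set.mem_setOf_eq]
  refine and_congr_right fun hx => ⟨fun hxa => cone h hab hbc hac hv hxa, ?_⟩
  rintro ⟨l, m, hl, hm, hlm⟩
  have hxe : x = v + (1 : ℝ) • (l • ed n a b c + m • ed n a c b) := by
    rw [one_smul, ← hlm]
    abel
  obtain ⟨k1, k2, k3⟩ := p05_lf (n := n) a b c v l m 1
  rw [← hxe] at k1 k2 k3
  have va : lf n a v = 1 := (hv.mem (by simp : a ∈ ({a, b, c} : Finset A))).2
  have vb : lf n b v = 1 := (hv.mem (by simp : b ∈ ({a, b, c} : Finset A))).2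
  have vc : lf n c v = 1 := (hv.mem (by simp : c ∈ ({a, b, c} : Finset A))).2
  rw [va] at k1
  rw [vb] at k2
  rw [vc] at k3
  refine ⟨fun d => ?_, k1⟩
  by_cases hd : d ∈ ({a, b, c} : Finset A)
  · simp only [Finset.mem_insert, Finset.mem_singleton] at hd
    rcases hd with rfl | rfl | rfl
    · exact k1.le
    · rw [k2]
      have : 0 ≤ 1 * m * (det3 (n a) (n d) (n c)) ^ 2 := by positivity
      linarith
    · rw [k3]
      have : 0 ≤ 1 * l * (det3 (n a) (n b) (n d)) ^ 2 := by positivity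
      linarith
  · exact (hδ x (by rw [dist_eq_norm]; linarith) d hd).le

theorem p23_vol (h : Gn n) {a b c : A} (hab : a ≠ b) (hbc : b ≠ c) (hac : a ≠ c) {v : E3} (hv : At n v {a, b, c})
    {δ : ℝ} (hδ : ∀ y, dist y v < δ → ∀ d, d ∉ ({a, b, c} : Finset A) → lf n d y < 1) {ε : ℝ} (h0 : 0 < ε) (hε : ε < δ) :
    volume (em n a ⁻¹' (Metric.closedBall v ε ∩ Fc n a)) = ENNReal.ofReal (vang n a b c * ε ^ 2 / 2) := by
  rw [p23_set h hab hbc hac hv hδ hε]
  have va : lf n a v = 1 := (hv.mem (by simp : a ∈ ({a, b, c} : Finset A))).2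
  exact sector_vol h va (ed_inner (n := n) a b c).1 (ed_inner (n := n) a c b).1 (p23_ne h hab hbc hac) h0.le

theorem p23_perm {v : E3} {s s' : Finset A} (hv : At n v s) (hs : s = s') : At n v s' := hs ▸ hv

theorem ar_ball_vertex (h : Gn n) {a b c : A} (hab : a ≠ b) (hbc : b ≠ c) (hac : a ≠ c) {v : E3} (hv : At n v {a, b, c}) :
    ∀ᶠ ε in 𝓝[>] (0 : ℝ), ar n (Metric.closedBall v ε) =
      ENNReal.ofReal ((vang n a b c + vang n b a c + vang n c a b) * ε ^ 2 / 2) := by
  obtain ⟨δ, hδ0, hδ⟩ := Metric.eventually_nhds_iff.1 (near_lt (n := n) v {a, b, c} (fun d hd => hv.lt hd))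
  have hδ' : ∀ y, dist y v < δ → ∀ d, d ∉ ({a, b, c} : Finset A) → lf n d y < 1 := fun y hy => hδ hy
  have e1 : ({a, b, c} : Finset A) = {b, a, c} := by ext x; simp; tauto
  have e2 : ({a, b, c} : Finset A) = {c, a, b} := by ext x; simp; tauto
  have hv1 : At n v {b, a, c} := p23_perm hv e1
  have hv2 : At n v {c, a, b} := p23_perm hv e2
  have hd1 : ∀ y, dist y v < δ → ∀ d, d ∉ ({b, a, c} : Finset A) → lf n d y < 1 := by
    rw [← e1]
    exact hδ'
  have hd2 : ∀ y, dist y v < δ → ∀ d, d ∉ ({c, a, b} : Finset A) → lf n d y < 1 := by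
    rw [← e2]
    exact hδ'
  filter_upwards [Ioo_mem_nhdsGT hδ0] with ε hε
  rw [ar_apply h Metric.isClosed_closedBall.measurableSet]
  have hz : ∀ d ∈ (Finset.univ : Finset A), d ∉ ({a, b, c} : Finset A) →
      volume (em n d ⁻¹' (Metric.closedBall v ε ∩ Fc n d)) = 0 := by
    intro d _ hd
    have h1 : Metric.closedBall v ε ∩ Fc n d = ∅ := by
      rw [Set.eq_empty_iff_forall_notMem]
      rintro x ⟨hx, hx2⟩
      have h2 := hδ' x (lt_of_le_of_lt (Metric.mem_closedBall.1 hx) hε.2) d hd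
      rw [hx2.2] at h2
      exact lt_irrefl _ h2
    rw [h1, Set.preimage_empty, measure_empty]
  rw [← Finset.sum_subset (Finset.subset_univ ({a, b, c} : Finset A)) hz]
  rw [Finset.sum_insert (by simp [hab, hac]), Finset.sum_insert (by simp [hbc]), Finset.sum_singleton]
  rw [p23_vol h hab hbc hac hv hδ' hε.1 hε.2, p23_vol h hab.symm hac hbc hv1 hd1 hε.1 hε.2,
    p23_vol h hac.symm hab hbc.symm hv2 hd2 hε.1 hε.2]
  have n1 : 0 ≤ vang n a b c := InnerProductGeometry.angle_nonneg _ _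
  have n2 : 0 ≤ vang n b a c := InnerProductGeometry.angle_nonneg _ _
  have n3 : 0 ≤ vang n c a b := InnerProductGeometry.angle_nonneg _ _
  rw [← ENNReal.ofReal_add (by positivity) (by positivity), ← ENNReal.ofReal_add (by positivity) (by positivity)]
  congr 1
  ring


end ALX
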