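import Pool.Agent.Lib.ALX.P04
import Pool.Agent.Lib.ALX.P21

/-!
# ALX, chunk P24 (M): the area of a small disc about a point which is not a vertex

PROOF. `At n x {a}`: for small `ε` the preimage of `closedBall x ε ∩ Fc n a` under `em n a` is the disc of radius `ε` (P04 near_one; the other facets do not meet the ball), area `π ε^2`
(Complex.volume_closedBall). `At n x {a, b}`: `Fc n a ∩ closedBall x ε` is the part `lf b ≤ 1` of the disc in the plane of `a`; the line `lf b = 1` goes through the center, and the point reflection at the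
center maps one half to the other, so each half has area `π ε^2 / 2` (the line is a null set, P20). The same for `b`.
-/

open Real MeasureTheory Filter Topology

namespace ALX

open H47A (E3 cross3 det3 pl)

variable {A : Type} [Fintype A] [DecidableEq A] {n : A → E3}

theorem p24_disc (h : Gn n) {a : A} {z0 : ℂ} {ε : ℝ} (hε : 0 ≤ ε) :
    volume (em n a ⁻¹' Metric.closedBall (em n a z0) ε) = ENNReal.ofReal (π * ε ^ 2) := by
  have e1 : em n a ⁻¹' Metric.closedBall (em n a z0) ε = Metric.closedBall z0 ε := by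
    ext z
    rw [Set.mem_preimage, Metric.mem_closedBall, Metric.mem_closedBall, dist_eq_norm, dist_eq_norm, em_norm h]
  rw [e1, Complex.volume_closedBall, ← ENNReal.ofReal_pow hε, mul_comm π (ε ^ 2), ENNReal.ofReal_mul (sq_nonneg ε)]
  congr 1
  exact (ENNReal.ofReal_coe_nnreal (p := NNReal.pi)).symm

/-- The half disc. -/
theorem p24_half (h : Gn n) {a b : A} (hab : b ≠ a) {x : E3} (ha : lf n a x = 1) (hb : lf n b x = 1) {ε : ℝ} (hε : 0 ≤ ε) :
    volume (em n a ⁻¹' (Metric.closedBall x ε ∩ {y | lf n b y ≤ 1})) = ENNReal.ofReal (π * ε ^ 2 / 2) := by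
  obtain ⟨z0, rfl⟩ := em_surj h ha
  set S1 : Set ℂ := em n a ⁻¹' (Metric.closedBall (em n a z0) ε ∩ {y | lf n b y ≤ 1}) with hS1
  set S2 : Set ℂ := em n a ⁻¹' (Metric.closedBall (em n a z0) ε ∩ {y | 1 ≤ lf n b y}) with hS2
  have m1 : MeasurableSet S1 :=
    ((Metric.isClosed_closedBall.inter (isClosed_le (lf_cont b) continuous_const)).preimage (em_cont a)).measurableSet
  have m2 : MeasurableSet S2 :=
    ((Metric.isClosed_closedBall.inter (isClosed_le continuous_const (lf_cont b))).preimage (em_cont a)).measurableSet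
  have hrefl : ∀ z : ℂ, em n a (2 * z0 - z) = AffineMap.lineMap (em n a z) (em n a z0) (2 : ℝ) := by
    intro z
    rw [← em_line]
    congr 1
    rw [AffineMap.lineMap_apply_module]
    rw [show (1 - 2 : ℝ) = -1 by norm_num, neg_one_smul, Complex.real_smul]
    push_cast
    ring
  have e1 : (fun z : ℂ => 2 * z0 - z) ⁻¹' S1 = S2 := by
    ext z
    have g1 : ‖em n a (2 * z0 - z) - em n a z0‖ = ‖em n a z - em n a z0‖ := by
      rw [em_norm h, em_norm h]
      rw [show 2 * z0 - z - z0 = -(z - z0) by ring, norm_neg]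
    have g2 : lf n b (em n a (2 * z0 - z)) = 2 - lf n b (em n a z) := by
      rw [hrefl, lf_line, hb]
      ring
    show (em n a (2 * z0 - z) ∈ Metric.closedBall (em n a z0) ε ∧ lf n b (em n a (2 * z0 - z)) ≤ 1) ↔
      (em n a z ∈ Metric.closedBall (em n a z0) ε ∧ 1 ≤ lf n b (em n a z))
    rw [Metric.mem_closedBall, Metric.mem_closedBall, dist_eq_norm, dist_eq_norm, g1, g2]
    constructor
    · rintro ⟨k1, k2⟩
      exact ⟨k1, by linarith⟩
    · rintro ⟨k1, k2⟩
      exact ⟨k1, by linarith⟩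
  have e2 : volume S2 = volume S1 := by
    rw [← e1]
    exact (Measure.measurePreserving_sub_left volume (2 * z0)).measure_preimage m1.nullMeasurableSet
  have e3 : S1 ∪ S2 = em n a ⁻¹' Metric.closedBall (em n a z0) ε := by
    ext z
    show ((em n a z ∈ Metric.closedBall (em n a z0) ε ∧ lf n b (em n a z) ≤ 1) ∨
      (em n a z ∈ Metric.closedBall (em n a z0) ε ∧ 1 ≤ lf n b (em n a z))) ↔ em n a z ∈ Metric.closedBall (em n a z0) ε
    constructor
    · rintro (k | k)
      · exact k.1
      · exact k.1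
    · intro k
      rcases le_total (lf n b (em n a z)) 1 with k1 | k1
      · exact Or.inl ⟨k, k1⟩
      · exact Or.inr ⟨k, k1⟩
  have e4 : volume (S1 ∩ S2) = 0 := by
    refine measure_mono_null ?_ (vol_edge h hab.symm)
    rintro z ⟨k1, k2⟩
    exact le_antisymm k1.2 k2.2
  have e5 := measure_union_add_inter (μ := volume) S1 m2
  rw [e3, e4, e2, add_zero, p24_disc h hε] at e5
  have e6 : ENNReal.ofReal (π * ε ^ 2) = ENNReal.ofReal (π * ε ^ 2 / 2) + ENNReal.ofReal (π * ε ^ 2 / 2) := by
    rw [← ENNReal.ofReal_add (by positivity) (by positivity), add_halves]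
  rw [e6, ← two_mul, ← two_mul] at e5
  exact ((ENNReal.mul_right_inj (by norm_num) (by norm_num)).1 e5).symm

theorem ar_ball_one (h : Gn n) {a : A} {x : E3} (hx : At n x {a}) :
    ∀ᶠ ε in 𝓝[>] (0 : ℝ), ar n (Metric.closedBall x ε) = ENNReal.ofReal (π * ε ^ 2) := by
  have h1 : ∀ᶠ y in 𝓝 x, (lf n a y = 1 → At n y {a}) ∧ ∀ b, b ∉ ({a} : Finset A) → lf n b y < 1 :=
    (near_one hx).and (near_lt x {a} fun b hb => hx.lt hb)
  obtain ⟨δ, hδ, h2⟩ := Metric.eventually_nhds_iff.1 h1
  filter_upwards [Ioo_mem_nhdsGT hδ] with ε hε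
  have h3 : ∀ y ∈ Metric.closedBall x ε, (lf n a y = 1 → At n y {a}) ∧ ∀ b, b ∉ ({a} : Finset A) → lf n b y < 1 :=
    fun y hy => h2 (lt_of_le_of_lt hy hε.2)
  obtain ⟨z0, hz0⟩ := em_surj h (hx.mem (Finset.mem_singleton_self a)).2
  rw [ar_apply h Metric.isClosed_closedBall.measurableSet, Finset.sum_eq_single a]
  · rw [← p24_disc h (a := a) (z0 := z0) hε.1.le, hz0]
    congr 1
    ext z
    constructor
    · intro k
      exact k.1
    · intro k
      exact ⟨k, ((h3 _ k).1 (em_lf h a z)).mem (Finset.mem_singleton_self a)⟩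
  · intro b _ hb
    have e : Metric.closedBall x ε ∩ Fc n b = ∅ := by
      rw [Set.eq_empty_iff_forall_notMem]
      rintro y ⟨k1, k2⟩
      have := (h3 y k1).2 b (by simpa using hb)
      exact absurd k2.2 this.ne
    rw [e, Set.preimage_empty, measure_empty]
  · intro hna
    exact absurd (Finset.mem_univ a) hna

theorem ar_ball_two (h : Gn n) {a b : A} (hab : a ≠ b) {x : E3} (hx : At n x {a, b}) :
    ∀ᶠ ε in 𝓝[>] (0 : ℝ), ar n (Metric.closedBall x ε) = ENNReal.ofReal (π * ε ^ 2) := by
  have h1 := near_lt (n := n) x {a, b} (fun c hc => hx.lt hc)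
  obtain ⟨δ, hδ, h2⟩ := Metric.eventually_nhds_iff.1 h1
  filter_upwards [Ioo_mem_nhdsGT hδ] with ε hε
  have h3 : ∀ y ∈ Metric.closedBall x ε, ∀ c, c ∉ ({a, b} : Finset A) → lf n c y < 1 :=
    fun y hy => h2 (lt_of_le_of_lt hy hε.2)
  have ha : lf n a x = 1 := hx.two.1.2
  have hb : lf n b x = 1 := hx.two.2.2
  have hzero : ∀ c, c ∉ ({a, b} : Finset A) → volume (em n c ⁻¹' (Metric.closedBall x ε ∩ Fc n c)) = 0 := by
    intro c hc
    have e : Metric.closedBall x ε ∩ Fc n c = ∅ := by
      rw [Set.eq_empty_iff_forall_notMem]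
      rintro y ⟨k1, k2⟩
      exact absurd k2.2 (h3 y k1 c hc).ne
    rw [e, Set.preimage_empty, measure_empty]
  have hhalf : ∀ c d : A, d ≠ c → ({c, d} : Finset A) = {a, b} → lf n c x = 1 → lf n d x = 1 →
      volume (em n c ⁻¹' (Metric.closedBall x ε ∩ Fc n c)) = ENNReal.ofReal (π * ε ^ 2 / 2) := by
    intro c d hdc hcd hc hd
    rw [← p24_half h hdc hc hd hε.1.le]
    congr 1
    ext z
    constructor
    · intro k
      exact ⟨k.1, k.2.1 d⟩
    · intro k
      refine ⟨k.1, fun e => ?_, em_lf h c z⟩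
      by_cases he : e ∈ ({a, b} : Finset A)
      · rw [← hcd] at he
        rcases Finset.mem_insert.1 he with rfl | he
        · exact (em_lf h e z).le
        · rw [Finset.mem_singleton.1 he]
          exact k.2
      · exact (h3 _ k.1 e he).le
  rw [ar_apply h Metric.isClosed_closedBall.measurableSet,
    ← Finset.sum_subset (Finset.subset_univ ({a, b} : Finset A)) fun c _ hc => hzero c hc,
    Finset.sum_pair hab, hhalf a b hab.symm rfl ha hb, hhalf b a hab (Finset.pair_comm b a) hb ha,
    ← ENNReal.ofReal_add (by positivity) (by positivity), add_halves]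


end ALX
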