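import Pool.Agent.Lib.ALX.P15
import Pool.Agent.Lib.ALX.P23
import Pool.Agent.Lib.ALX.P24
import Pool.Agent.Lib.ALX.B01

/-!
# ALX, chunk P25 (S/M): small discs and the curvature

PROOF: Gn.cases; P23 with P15 kp_eq; P24 with P15 kp_zero (`Ac` has one or two elements). `kp_pos`: P15 kp_eq and B01 angle_sum_lt for the three edge directions `E = ed n a b c`,
`F = ed n a c b`, `G = ed n b c a` (`vang n a b c = angle E F`, `vang n b a c = angle E G`, `vang n c a b = angle F G` by P05 ed_symm and angle_comm; `det3 E F G ≠ 0` from P05 ed_inner,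
H47A.det3_mul). `kp_lt`: the angles are nonnegative, and at least one is positive (not all three can be zero: independent vectors).
-/

open Real MeasureTheory Filter Topology

namespace ALX

open H47A (E3 cross3 det3 pl)

variable {A : Type} [Fintype A] [DecidableEq A] {n : A → E3}

theorem p25_det (h : Gn n) {a b c : A} (hab : a ≠ b) (hbc : b ≠ c) (hac : a ≠ c) :
    det3 (ed n a b c) (ed n a c b) (ed n b c a) ≠ 0 := by
  have hD := h.three a b c hab hbc hac
  obtain ⟨e1, e2, e3⟩ := ed_inner (n := n) a b c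
  obtain ⟨f1, f2, f3⟩ := ed_inner (n := n) a c b
  obtain ⟨g1, g2, g3⟩ := ed_inner (n := n) b c a
  rw [p05_dets] at f3
  rw [← H47A.det3_rot] at g3
  have h1 := H47A.det3_mul (n a) (n b) (n c) (ed n a b c) (ed n a c b) (ed n b c a)
  rw [e1, e2, e3, f1, f2, f3, g1, g2, g3] at h1
  intro h0
  rw [h0] at h1
  have h2 : (det3 (n a) (n b) (n c)) ^ 6 = 0 := by linarith
  exact hD (pow_eq_zero_iff (by norm_num) |>.1 h2)

theorem p25_kp (h : Gn n) {a b c : A} (hab : a ≠ b) (hbc : b ≠ c) (hac : a ≠ c) {v : E3} (hv : At n v {a, b, c}) :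
    kp n v = 2 * π - (InnerProductGeometry.angle (ed n a b c) (ed n a c b) +
      InnerProductGeometry.angle (ed n a c b) (ed n b c a) + InnerProductGeometry.angle (ed n a b c) (ed n b c a)) := by
  rw [kp_eq h hab hbc hac hv]
  unfold vang
  rw [ed_symm a b c, ed_symm a c b, ed_symm b c a]
  ring

theorem ar_ball (h : Gn n) {x : E3} (hx : x ∈ bd n) :
    ∀ᶠ ε in 𝓝[>] (0 : ℝ), ar n (Metric.closedBall x ε) = ENNReal.ofReal ((2 * π - kp n x) * ε ^ 2 / 2) := by
  rcases h.cases hx with ⟨a, ha⟩ | ⟨a, b, hab, ha⟩ | ⟨a, b, c, hab, hbc, hac, ha⟩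
  · have h0 : kp n x = 0 := by
      apply kp_zero h
      rintro ⟨_, h2⟩
      rw [ha.2] at h2
      simp at h2
    filter_upwards [ar_ball_one h ha] with ε hε
    rw [hε, h0]
    congr 1
    ring
  · have h0 : kp n x = 0 := by
      apply kp_zero h
      rintro ⟨_, h2⟩
      rw [ha.2] at h2
      have := Finset.card_le_two (a := a) (b := b)
      omega
    filter_upwards [ar_ball_two h hab ha] with ε hε
    rw [hε, h0]
    congr 1
    ring
  · filter_upwards [ar_ball_vertex h hab hbc hac ha] with ε hε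
    rw [hε, kp_eq h hab hbc hac ha]
    congr 1
    ring

theorem kp_pos (h : Gn n) {v : E3} (hv : v ∈ Vs n) : 0 < kp n v := by
  obtain ⟨a, b, c, hab, hbc, hac, ha⟩ := (mem_Vs_iff h).1 hv
  rw [p25_kp h hab hbc hac ha]
  have := angle_sum_lt (p25_det h hab hbc hac)
  linarith

theorem kp_lt (h : Gn n) (v : E3) : kp n v < 2 * π := by
  by_cases hv : v ∈ Vs n
  · obtain ⟨a, b, c, hab, hbc, hac, ha⟩ := (mem_Vs_iff h).1 hv
    rw [p25_kp h hab hbc hac ha]
    have h1 := InnerProductGeometry.angle_nonneg (ed n a b c) (ed n a c b)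
    have h2 := InnerProductGeometry.angle_nonneg (ed n a c b) (ed n b c a)
    have h3 := InnerProductGeometry.angle_nonneg (ed n a b c) (ed n b c a)
    have h4 : InnerProductGeometry.angle (ed n a b c) (ed n a c b) ≠ 0 := by
      intro h0
      obtain ⟨_, r, _, hr⟩ := InnerProductGeometry.angle_eq_zero_iff.1 h0
      refine p25_det h hab hbc hac ?_
      rw [hr, H47A.det3_rot, H47A.det3_rot, H47A.det3_smul, (H47A.det3_self _ _).2.1, mul_zero]
    have h5 : 0 < InnerProductGeometry.angle (ed n a b c) (ed n a c b) := lt_of_le_of_ne h1 (Ne.symm h4)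
    linarith
  · rw [kp_zero h hv]
    positivity


end ALX
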